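import Pool.Agent.MMCI.DefsX

/-!
# MP_fa3f7f_ag: minimal models of families of complete intersections in tori

Definitions. `B` is a projective variety of dimension `b` with the function field `F`. A Laurent
polynomial `f` over `F` is a section of a line bundle `L` on `B` with values in the Laurent
polynomials, if its coefficients generate `L`. A system `f_1, …, f_r` of such Laurent polynomials in
`n` variables defines a closed subscheme of `B × T`, `T = (ℂ^*)^n`: near the closed point `m` of the
chart `j` of `B` it is given by local equations `g_i = f_i / u_i` with coefficients in the ring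
`B.ring j` of the chart, where `u_i` is a rational function on `B`. `Z` is an irreducible component of
it which dominates `B`, `K ⊇ F` is its function field, and `x` are the coordinates of its generic
point in the torus.
-/

namespace RMX

open MldX MMCI MMCX

noncomputable section

/-! ### Laurent polynomials over a ring -/

section Laurent

/-- Laurent polynomials over `R` in `n` variables. -/
abbrev LaurentR (R : Type) [CommRing R] (n : ℕ) : Type := AddMonoidAlgebra R (Fin n → ℤ)

variable {R : Type} [CommRing R] {n r : ℕ}

/-- The minimum of `ν` on the exponents of `f`, that is, on the Newton polytope. -/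
def minOnR (f : LaurentR R n) (ν : Fin n → ℤ) : ℤ := sInf ((fun m => pair ν m) '' f.coeff.support)

/-- The initial form: the part of `f` on which `ν` is minimal. -/
def initFormR (f : LaurentR R n) (ν : Fin n → ℤ) : LaurentR R n :=
  AddMonoidAlgebra.ofCoeff (f.coeff.filter fun m => pair ν m = minOnR f ν)

/-- `x_k ∂f/∂x_k` -/
def derR (k : Fin n) (f : LaurentR R n) : LaurentR R n :=
  f.coeff.sum fun m c => AddMonoidAlgebra.single m ((m k : R) * c)

/-- The Fine interior of the sum of the Newton polytopes is empty. -/
def FineEmptyR (f : Fin r → LaurentR R n) : Prop :=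
  ¬ ∃ m : Fin n → ℝ, ∀ ν : Fin n → ℤ, ν ≠ 0 → (∑ i, minOnR (f i) ν) + 1 ≤ ∑ j, (ν j : ℝ) * m j

/-- The value of `f` at the point `x`. -/
def evR {K : Type} [Field K] [Algebra R K] (x : Fin n → K) (f : LaurentR R n) : K :=
  f.coeff.sum fun m c => algebraMap R K c * mon x m

/-- The `g_i` are local equations of the system `f` near the closed point `m` of the affine variety
with the ring `R` and the function field `F`: `f_i = u_i g_i` with a rational function `u_i`, and not
all coefficients of `g_i` vanish at `m`. -/
def IsLocEq {F : Type} [Field F] [Algebra R F] (f : Fin r → LaurentR F n) (m : Ideal R)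
    (g : Fin r → LaurentR R n) : Prop :=
  ∀ i, (∃ u : F, u ≠ 0 ∧ ∀ a, (f i).coeff a = u * algebraMap R F ((g i).coeff a)) ∧
    ∃ a, (g i).coeff a ∉ m

/-- The common zeros over `m` of the `g_i` are regular: at every closed point `M` over `m` which is a
zero of the `g_i`, either the variety with the ring `R`, of dimension `b`, is smooth at `m` (the
cotangent space has the dimension `b`) and the `g_i` are independent in the cotangent space `M / M²`
(they define a smooth scheme of codimension `r` near `M`), or their gradients in the directions of the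
torus are independent at `M` (they define a scheme which is smooth over the variety, of relative
codimension `r`, near `M`). -/
def RegularOver [Algebra ℂ R] (b : ℕ) (g : Fin r → LaurentR R n) (m : Ideal R) : Prop :=
  ∀ M : Ideal (LaurentR R n), M.IsMaximal → M.comap (algebraMap R (LaurentR R n)) = m →
    (∀ i, g i ∈ M) →
    ((∃ y : Fin b → R, m = Ideal.span (Set.range y) ⊔ m ^ 2) ∧
      ∀ t : Fin r → ℂ, ∑ i, t i • g i ∈ M ^ 2 → t = 0) ∨
    ∀ t : Fin r → ℂ, (∀ k, ∑ i, t i • derR k (g i) ∈ M) → t = 0

/-- Every function which vanishes at `x` is in `M`. -/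
def VanishesIn {K : Type} [Field K] [Algebra R K] (x : Fin n → K) (M : Ideal (LaurentR R n)) :
    Prop :=
  ∀ h : LaurentR R n, evR x h = 0 → h ∈ M

/-- The functions which vanish at `x` are, near `M`, in the ideal generated by the `g_i`. -/
def GeneratesAt {K : Type} [Field K] [Algebra R K] (x : Fin n → K) (g : Fin r → LaurentR R n)
    (M : Ideal (LaurentR R n)) : Prop :=
  ∀ h : LaurentR R n, evR x h = 0 → ∃ h' : LaurentR R n, h' ∉ M ∧ h' * h ∈ Ideal.span (Set.range g)

/-- `m` is the closed point below `M`, and the `g_i` are local equations near `m` which generate the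
ideal of `x` near `M`. -/
def LocallyGenerates {F K : Type} [Field F] [Field K] [Algebra R F] [Algebra R K]
    (f : Fin r → LaurentR F n) (x : Fin n → K) (M : Ideal (LaurentR R n)) : Prop :=
  ∃ g : Fin r → LaurentR R n, IsLocEq f (M.comap (algebraMap R (LaurentR R n))) g ∧
    GeneratesAt x g M

/-- Near every closed point `M` of the closure of `x` the ideal of `x` is generated by local
equations. -/
def GeneratesOver {F K : Type} [Field F] [Field K] [Algebra R F] [Algebra R K]
    (f : Fin r → LaurentR F n) (x : Fin n → K) : Prop :=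
  ∀ M : Ideal (LaurentR R n), M.IsMaximal → VanishesIn x M → LocallyGenerates f x M

end Laurent

variable {F K : Type} [Field F] [Field K] [Algebra ℂ F] [Algebra ℂ K] [Algebra F K]
  [IsScalarTower ℂ F K] {b e n r : ℕ}

/-! ### the system over `B` -/

/-- The system is nondegenerate for the weight `ν` over the closed point `m` of the chart `j` of `B`:
the common zeros over `m` of the initial forms of the local equations are regular. -/
def NondegenerateR (b : ℕ) (B : ProjModel F) (f : Fin r → LaurentR F n) (ν : Fin n → ℤ)
    (j : Fin (B.N + 1)) (m : Ideal (B.ring j)) : Prop :=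
  ∃ g : Fin r → LaurentR (B.ring j) n, IsLocEq f m g ∧ RegularOver b (fun i => initFormR (g i) ν) m

/-- The ring of regular functions of the part of `Z` over the chart `j` of `B`. -/
def zRing (B : ProjModel F) (x : Fin n → K) (j : Fin (B.N + 1)) : Subalgebra ℂ K :=
  Algebra.adjoin ℂ (algebraMap F K '' (B.ring j : Set F) ∪ Set.range fun m : Fin n → ℤ => mon x m)

/-- Near every closed point of `Z` the ideal of `Z` in `B × T` is generated by local equations: `Z` is
a connected component of the scheme defined by the system, and this component is integral. -/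
def GeneratesR (B : ProjModel F) (f : Fin r → LaurentR F n) (x : Fin n → K) : Prop :=
  ∀ j : Fin (B.N + 1), GeneratesOver (R := B.ring j) f x

/-- `B` is a projective variety of dimension `b` with terminal singularities, `K` is the function
field of an irreducible component `Z`, of dimension `b + e > 0`, of the complete intersection
`f_1 = … = f_r = 0` in `B × (ℂ^*)^n`, `n = r + e`, `Z` dominates `B`, and `x` are the coordinates of the
generic point of `Z` in the torus; the coefficients of `f_i` generate a line bundle `L_i` on `B`
(`loc`). The system is nondegenerate at infinity (for the weights `ν ≠ 0`), and in `B × T` either it is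
nondegenerate, or it generates the ideal of `Z` near `Z` and `Z` has terminal singularities. -/
structure IsFamily (b e : ℕ) (B : ProjModel F) (f : Fin r → LaurentR F n) (x : Fin n → K) :
    Prop where
  dim_eq : n = r + e
  pos : 0 < b + e
  f_ne : ∀ i, f i ≠ 0
  ne : ∀ j, x j ≠ 0
  gen : IntermediateField.adjoin F (Set.range x) = ⊤
  dim_base : Algebra.trdeg ℂ F = (b : Cardinal)
  terminal : Terminal b B
  dim : Algebra.trdeg ℂ K = ((b + e : ℕ) : Cardinal)
  zero : ∀ i, evR x (f i) = 0
  loc : ∀ (j : Fin (B.N + 1)) (m : Ideal (B.ring j)), m.IsMaximal → ∃ g, IsLocEq f m g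
  nondeg : ∀ ν : Fin n → ℤ, ν ≠ 0 → ∀ (j : Fin (B.N + 1)) (m : Ideal (B.ring j)), m.IsMaximal →
    NondegenerateR b B f ν j m
  inner : (∀ (j : Fin (B.N + 1)) (m : Ideal (B.ring j)), m.IsMaximal →
      NondegenerateR b B f 0 j m) ∨
    (GeneratesR B f x ∧ ∀ j, IsTerminal (b + e) (zRing B x j))

/-! ### the adjoint divisor `K_B + L`, `L = L_1 + … + L_r` -/

/-- The coefficient of the prime divisor `v` of `B` in `K_B + L`, where `K_B = div(ω)`, and `L` is the
divisor of the line bundle `L_1 ⊗ … ⊗ L_r`: the sum of the `L_i`, and `-L_i` is the divisor of the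
common zeros and poles of the coefficients of `f_i`. -/
def adjOrd (ω : Forms b F) (f : Fin r → LaurentR F n) (v : DivVal b F) : ℤ :=
  v.formOrd ω - ∑ i, sInf ((fun a => v.ord ((f i).coeff a)) '' (f i).coeff.support)

/-- Near the point with the maximal ideal `m` the function `g` is an equation of `k (K_B + L)`. -/
def IsAdjEquation (R : Subalgebra ℂ F) (ω : Forms b F) (f : Fin r → LaurentR F n) (k : ℕ)
    (m : Ideal R) (g : F) : Prop :=
  ∀ (v : DivVal b F) (P : Ideal R), IsPrimeDivisor R v P → P ≤ m → v.ord g = k * adjOrd ω f v

/-- As `MMCX.Equations`, for `k (K_B + L)`. -/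
structure AdjEquations {B : ProjModel F} (γ : CurveMap B) (ω : Forms b F)
    (f : Fin r → LaurentR F n) (k : ℕ) (h : F) (g : DivVal 1 γ.L → F)
    (u : DivVal 1 γ.L → γ.L) : Prop where
  h_ne : h ≠ 0
  u_ne : ∀ w, u w ≠ 0
  restr : ∀ w, γ.Restr (g w / h) (u w)
  eqn : ∀ w, ∃ (i : Fin (B.N + 1)) (m : Ideal (B.ring i)), MapsTo γ w i m ∧
    IsAdjEquation (B.ring i) ω f k m (g w)

/-- `K_B + L` is nef. -/
def AdjNef (b : ℕ) (B : ProjModel F) (f : Fin r → LaurentR F n) : Prop :=
  ∀ ω : Forms b F, IsForm ω → ∀ (γ : CurveMap B) (k : ℕ) (h : F) (g : DivVal 1 γ.L → F)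
    (u : DivVal 1 γ.L → γ.L), 0 < k → AdjEquations γ ω f k h g u →
    {w : DivVal 1 γ.L | w.ord (u w) ≠ 0}.Finite ∧ 0 ≤ ∑ᶠ w : DivVal 1 γ.L, w.ord (u w)

/-- `K_B + L` is semiample. -/
def AdjSemiample (b : ℕ) (B : ProjModel F) (f : Fin r → LaurentR F n) : Prop :=
  ∀ ω : Forms b F, IsForm ω → ∃ (k N : ℕ) (h : Fin N → F), 0 < k ∧ (∀ l, h l ≠ 0) ∧
    (∀ l i (v : DivVal b F) (P : Ideal (B.ring i)), IsPrimeDivisor (B.ring i) v P →
      0 ≤ v.ord (h l) + k * adjOrd ω f v) ∧
    ∀ i (m : Ideal (B.ring i)), m.IsMaximal → ∃ l, ∀ (v : DivVal b F) (P : Ideal (B.ring i)),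
      IsPrimeDivisor (B.ring i) v P → P ≤ m → v.ord (h l) + k * adjOrd ω f v = 0

end

end RMX
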