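import Pool.Agent.RMM.StE5
import Pool.Agent.RMM.DefsX
import Pool.Agent.MMCI.BridgeX

/-!
# Relative minimal models: comparison of the definitions of `DefsX` and of `Defs`, `StS`, `StE5`
-/

set_option autoImplicit false

namespace RMX

open MldX MMCI MMCX

noncomputable section

section Field

variable {b : ℕ} {F : Type} [Field F] [Algebra ℂ F] (hd : Algebra.trdeg ℂ F = (b : Cardinal))
include hd

theorem isForm_ev {ω : MldGeo.Forms b F} (h : ω ≠ 0) : IsForm (MldX.ev ω) := by
  refine ⟨fun h1 => h (ev_injective hd (by rw [h1, map_zero])), ?_⟩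
  obtain ⟨g, a, h1⟩ := exists_dforms hd ω
  exact ⟨g, a, by rw [h1, ev_dform]⟩

theorem terminal_to {Y : ProjModel F} (h : Terminal b Y) : Y.Terminal b :=
  fun i => isTerminal_to hd (h i)

theorem nef_to {Y : ProjModel F} (h : Nef b Y) : Y.Nef b := by
  intro ω hω γ k a g u hk H
  have H' : Equations γ (MldX.ev ω) k a (fun w => g w.old) (fun w => u w.old) :=
    ⟨H.h_ne, fun w => H.u_ne _, fun w => H.restr _, fun w => by
      obtain ⟨i, m, h1, h2⟩ := H.eqn w.old
      exact ⟨i, m, h1, (isEquation_iff hd).2 h2⟩⟩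
  obtain ⟨h1, h2⟩ := h _ (isForm_ev hd hω) γ k a _ _ hk H'
  refine ⟨?_, ?_⟩
  · refine (h1.image DivVal.old).subset ?_
    intro w hw
    exact ⟨ofOld w, hw, rfl⟩
  · rw [finsum_eq] at h2
    exact h2

theorem semiample_to {Y : ProjModel F} (h : Semiample b Y) : Y.Semiample b := by
  intro ω hω
  obtain ⟨k, N, s, hk, hs, h1, h2⟩ := h _ (isForm_ev hd hω)
  refine ⟨k, N, s, hk, hs, fun l i v P hP => ?_, fun i m hm => ?_⟩
  · have h3 := h1 l i (ofOld v) P (isPrimeDivisor_iff.1 hP)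
    rw [formOrd_eq hd] at h3
    exact h3
  · obtain ⟨l, h3⟩ := h2 i m hm
    refine ⟨l, fun v P hP hPm => ?_⟩
    have h4 := h3 (ofOld v) P (isPrimeDivisor_iff.1 hP) hPm
    rw [formOrd_eq hd] at h4
    exact h4

variable {n r : ℕ}

theorem adjOrd_eq (ω : MldGeo.Forms b F) (f : Fin r → LaurentR F n) (v : MldGeo.DivVal b F) :
    adjOrd (MldX.ev ω) f (ofOld v) =
      v.formOrd ω + RMM.adj (fun i => RMM.coefs (f i)) Finset.univ v := by
  unfold adjOrd RMM.adj
  rw [formOrd_eq hd, sub_eq_add_neg]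
  congr 2
  refine Finset.sum_congr rfl fun i _ => ?_
  unfold RMM.cmin RMM.coefs
  rw [Set.image_image]
  rfl

theorem adjNef_to {B : ProjModel F} {f : Fin r → LaurentR F n} (h : AdjNef b B f) :
    RMM.NefD B (RMM.adj (b := b) (fun i => RMM.coefs (f i)) Finset.univ) := by
  intro ω hω γ k a g u hk H
  have H' : AdjEquations γ (MldX.ev ω) f k a (fun w => g w.old) (fun w => u w.old) :=
    ⟨H.h_ne, fun w => H.u_ne _, fun w => H.restr _, fun w => by
      obtain ⟨i, m, h1, h2⟩ := H.eqn w.old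
      refine ⟨i, m, h1, fun v P hP hPm => ?_⟩
      have h3 := adjOrd_eq hd ω f v.old
      have h4 : ofOld v.old = v := rfl
      rw [h4] at h3
      rw [h3]
      exact h2 v.old P (isPrimeDivisor_iff.2 hP) hPm⟩
  obtain ⟨h1, h2⟩ := h _ (isForm_ev hd hω) γ k a _ _ hk H'
  refine ⟨?_, ?_⟩
  · refine (h1.image DivVal.old).subset ?_
    intro w hw
    exact ⟨ofOld w, hw, rfl⟩
  · rw [finsum_eq] at h2
    exact h2

theorem adjSemiample_to {B : ProjModel F} {f : Fin r → LaurentR F n} (h : AdjSemiample b B f) :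
    RMM.SemD B (RMM.adj (b := b) (fun i => RMM.coefs (f i)) Finset.univ) := by
  intro ω hω
  obtain ⟨k, N, s, hk, hs, h1, h2⟩ := h _ (isForm_ev hd hω)
  refine ⟨k, N, s, hk, hs, fun l i v P hP => ?_, fun i m hm => ?_⟩
  · have h3 := h1 l i (ofOld v) P (isPrimeDivisor_iff.1 hP)
    rw [adjOrd_eq hd] at h3
    exact h3
  · obtain ⟨l, h3⟩ := h2 i m hm
    refine ⟨l, fun v P hP hPm => ?_⟩
    have h4 := h3 (ofOld v) P (isPrimeDivisor_iff.1 hP) hPm
    rw [adjOrd_eq hd] at h4
    exact h4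

end Field

section Rel

variable {F K : Type} [Field F] [Field K] [Algebra ℂ F] [Algebra ℂ K] [Algebra F K]
  [IsScalarTower ℂ F K] {b e n r : ℕ}

theorem nondegenerateR_iff (B : ProjModel F) (f : Fin r → LaurentR F n) (ν : Fin n → ℤ)
    (j : Fin (B.N + 1)) (m : Ideal (B.ring j)) :
    NondegenerateR b B f ν j m ↔ RMM.NondegT b B f ν j m := Iff.rfl

theorem generatesR_iff (B : ProjModel F) (f : Fin r → LaurentR F n) (x : Fin n → K) :
    GeneratesR B f x ↔ RMM.GenR B f x := Iff.rfl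

theorem isFamily_to {B : ProjModel F} {f : Fin r → LaurentR F n} {x : Fin n → K}
    (h : IsFamily b e B f x) : RMM.IsRel B b e f x where
  dim_eq := h.dim_eq
  pos := h.pos
  f_ne := h.f_ne
  ne := h.ne
  gen := h.gen
  dimB := h.dim_base
  terminal := terminal_to h.dim_base h.terminal
  dim := h.dim
  zero := h.zero
  loc := h.loc
  nondeg := h.nondeg
  inner := h.inner.imp id fun h1 => ⟨h1.1, fun j => isTerminal_to h.dim (h1.2 j)⟩

end Rel

end

end RMX
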