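import Pool.Agent.RMM.StE5
import Pool.Agent.MMCI.CD

/-!
# Module ADJN: adjoint divisors on a base with a nef canonical divisor
-/

set_option autoImplicit false

namespace RMM

open MldGeo MMCI

noncomputable section

namespace ADJN

section

variable {F : Type} [Field F] [Algebra ℂ F] {b n : ℕ} {B : ProjModel F}

omit [Algebra ℂ F] in
theorem coefs_ne {f : LR F n} {c : F} (h : c ∈ coefs f) : c ≠ 0 := by
  obtain ⟨m, hm, rfl⟩ := h
  exact Finsupp.mem_support_iff.1 hm

omit [Algebra ℂ F] in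
theorem coefs_finite (f : LR F n) : (coefs f).Finite := (Finset.finite_toSet _).image _

/-- The generator of `Bpf` has the least order. -/
theorem cmin_eq {f : LR F n} {j : Fin (B.N + 1)} {m : Ideal (B.ring j)} {c : F}
    (hc : c ∈ coefs f) (h : ∀ c' ∈ coefs f, InLoc B j m (c' / c)) {v : DivVal b F}
    {P : Ideal (B.ring j)} (hP : IsPrimeDivisor (B.ring j) v P) (hPm : P ≤ m) :
    cmin v (coefs f) = v.ord c := by
  have h1 : IsLeast ((fun c => v.ord (algebraMap F F c)) '' coefs f) (v.ord c) := by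
    refine ⟨⟨c, hc, rfl⟩, ?_⟩
    rintro _ ⟨c', hc', rfl⟩
    change v.ord c ≤ v.ord c'
    obtain ⟨p, q, hq, hpq⟩ := h c' hc'
    obtain ⟨q0, q1⟩ := FBN.ord_zero_of hP hPm hq
    have hcn := coefs_ne hc
    have hcn' := coefs_ne hc'
    have h2 := v.ord_mul (c' / c) q (div_ne_zero hcn' hcn) q0
    rw [hpq, q1] at h2
    have h3 := v.ord_mul (c' / c) c (div_ne_zero hcn' hcn) hcn
    rw [div_mul_cancel₀ _ hcn] at h3
    have h4 := hP.2.2.1 p
    omega
  exact h1.csInf_eq

theorem ord_prod_pow {e : ℕ} {L : Type} [Field L] [Algebra ℂ L] (v : DivVal e L) {ι : Type}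
    (s : Finset ι) (a : ι → L) (h : ∀ i ∈ s, a i ≠ 0) (k : ℕ) :
    v.ord (∏ i ∈ s, a i ^ k) = k * ∑ i ∈ s, v.ord (a i) := by
  classical
  induction s using Finset.induction_on with
  | empty =>
    rw [Finset.prod_empty, Finset.sum_empty, mul_zero]
    exact FBN.ord_one v
  | insert x s hx ih =>
    have h1 : a x ≠ 0 := h x (Finset.mem_insert_self x s)
    have h2 : ∀ i ∈ s, a i ≠ 0 := fun i hi => h i (Finset.mem_insert_of_mem hi)
    rw [Finset.prod_insert hx, Finset.sum_insert hx, v.ord_mul _ _ (pow_ne_zero _ h1)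
      (Finset.prod_ne_zero_iff.2 fun i hi => pow_ne_zero _ (h2 i hi)), ih h2, FBN.ord_pow v h1,
      mul_add]

end

end ADJN

open ADJN

theorem t_ADJN : S_ADJN := by
  intro F _ _ b n r B f hbpf hnef I ω hω γ k h g u hk hE
  classical
  obtain ⟨uniq, -, rmul, rinv, rpow, rconst, -⟩ := t_RSU γ
  have hPRF := PRF_holds (t_CUR γ)
  obtain ⟨w0, -⟩ := hPRF.2.2 ∅
  have rone : γ.Restr (1 : F) (1 : γ.L) := by
    have h1 := rconst 1
    rwa [map_one, map_one] at h1
  have rinv1 : ∀ (z : F) (u : γ.L), γ.Restr z u → u ≠ 0 → γ.Restr z⁻¹ u⁻¹ := by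
    intro z u h1 h2
    have h3 := (rinv _ _ h1 h2).2 (-1)
    rwa [zpow_neg_one, zpow_neg_one] at h3
  have rprod : ∀ (s : Finset (Fin r)) (z : Fin r → F) (u : Fin r → γ.L),
      (∀ i ∈ s, γ.Restr (z i) (u i)) → γ.Restr (∏ i ∈ s, z i ^ k) (∏ i ∈ s, u i ^ k) := by
    intro s z u hs
    induction s using Finset.induction_on with
    | empty => simpa using rone
    | insert x s hx ih =>
      rw [Finset.prod_insert hx, Finset.prod_insert hx]
      exact rmul _ _ _ _ (rpow _ _ _ (hs x (Finset.mem_insert_self x s)))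
        (ih fun i hi => hs i (Finset.mem_insert_of_mem hi))
  choose j m hmap heq using hE.eqn
  choose c hcC hc0 hcl using fun (w : DivVal 1 γ.L) (i : Fin r) => hbpf i (j w) (m w) (hmap w).1
  have hg0 : ∀ w, g w ≠ 0 := by
    intro w h0
    have h1 := (rinv _ _ (hE.restr w) (hE.u_ne w)).1
    exact h1 (by rw [h0, zero_div])
  -- the restrictions of the transition functions
  have hρ : ∀ (w : DivVal 1 γ.L) (i : Fin r), ∃ a : γ.L, γ.Restr (c w0 i / c w i) a ∧ a ≠ 0 ∧
      0 ≤ w.ord a := by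
    intro w i
    obtain ⟨p, q, h1, h2⟩ := hcl w i (c w0 i) (hcC w0 i)
    obtain ⟨a, h3, h4, -⟩ := RGW_holds γ w (j w) (m w) (hmap w) _ p q h1 h2
    obtain ⟨p', q', h1', h2'⟩ := hcl w0 i (c w i) (hcC w i)
    obtain ⟨a', h3', -, -⟩ := RGW_holds γ w0 (j w0) (m w0) (hmap w0) _ p' q' h1' h2'
    have ha : a ≠ 0 := by
      rintro rfl
      have h5 := rmul _ _ _ _ h3 h3'
      rw [zero_mul, div_mul_div_comm, mul_comm (c w0 i),
        div_self (mul_ne_zero (hc0 w i) (hc0 w0 i))] at h5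
      exact one_ne_zero (uniq _ _ _ rone h5)
    refine ⟨a, h3, ha, ?_⟩
    rcases h4 with h5 | h5
    · exact absurd h5 ha
    · exact h5
  choose ρ hρr hρ0 hρo using hρ
  -- the equations of the canonical divisor
  set g1 : DivVal 1 γ.L → F := fun w => g w * ∏ i ∈ I, c w i ^ k with hg1
  set h1 : F := h * ∏ i ∈ I, c w0 i ^ k with hh1
  set u1 : DivVal 1 γ.L → γ.L := fun w => u w * ∏ i ∈ I, (ρ w i)⁻¹ ^ k with hu1
  have hp0 : ∀ w, ∏ i ∈ I, c w i ^ k ≠ 0 := fun w =>
    Finset.prod_ne_zero_iff.2 fun i _ => pow_ne_zero _ (hc0 w i)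
  have hr0 : ∀ w, ∏ i ∈ I, (ρ w i)⁻¹ ^ k ≠ 0 := fun w =>
    Finset.prod_ne_zero_iff.2 fun i _ => pow_ne_zero _ (inv_ne_zero (hρ0 w i))
  have hEq : γ.Equations ω k h1 g1 u1 := by
    refine ⟨mul_ne_zero hE.h_ne (hp0 w0), fun w => mul_ne_zero (hE.u_ne w) (hr0 w), fun w => ?_,
      fun w => ⟨j w, m w, hmap w, fun v P hP hPm => ?_⟩⟩
    · have h2 : g1 w / h1 = g w / h * ∏ i ∈ I, (c w0 i / c w i)⁻¹ ^ k := by
        have h3 : ∏ i ∈ I, (c w0 i / c w i)⁻¹ ^ k =
            (∏ i ∈ I, c w i ^ k) / ∏ i ∈ I, c w0 i ^ k := by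
          rw [← Finset.prod_div_distrib]
          refine Finset.prod_congr rfl fun i _ => ?_
          rw [inv_div, div_pow]
        rw [h3, div_mul_div_comm]
      rw [h2]
      exact rmul _ _ _ _ (hE.restr w)
        (rprod I _ _ fun i _ => rinv1 _ _ (hρr w i) (hρ0 w i))
    · have h2 := heq w v P hP hPm
      change v.ord (g w * ∏ i ∈ I, c w i ^ k) = k * v.formOrd ω
      rw [v.ord_mul _ _ (hg0 w) (hp0 w), h2, ord_prod_pow v I _ (fun i _ => hc0 w i)]
      unfold adj
      rw [Finset.sum_congr rfl fun i _ => (cmin_eq (hcC w i) (hcl w i) hP hPm).symm]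
      ring
  obtain ⟨hfin, hsum⟩ := hnef ω hω γ k h1 g1 u1 hk hEq
  -- the orders
  have hord : ∀ w : DivVal 1 γ.L, w.ord (u w) = w.ord (u1 w) + k * ∑ i ∈ I, w.ord (ρ w i) := by
    intro w
    have h2 : w.ord (u1 w) = w.ord (u w) + k * ∑ i ∈ I, w.ord ((ρ w i)⁻¹) := by
      change w.ord (u w * ∏ i ∈ I, (ρ w i)⁻¹ ^ k) = _
      rw [w.ord_mul _ _ (hE.u_ne w) (hr0 w),
        ord_prod_pow w I _ (fun i _ => inv_ne_zero (hρ0 w i))]
    have h3 : ∑ i ∈ I, w.ord ((ρ w i)⁻¹) = - ∑ i ∈ I, w.ord (ρ w i) := by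
      rw [← Finset.sum_neg_distrib]
      exact Finset.sum_congr rfl fun i _ => FBN.ord_inv w (hρ0 w i)
    rw [h2, h3]
    ring
  -- finiteness
  have hfinρ : ∀ i, {w : DivVal 1 γ.L | w.ord (ρ w i) ≠ 0}.Finite := by
    intro i
    have h2 : (Set.range fun w => ρ w i).Finite := by
      have h3 : ∀ w w', c w i = c w' i → ρ w i = ρ w' i := by
        intro w w' h4
        have h5 := hρr w i
        rw [h4] at h5
        exact uniq _ _ _ h5 (hρr w' i)
      have h4 : (Set.range fun w => c w i).Finite :=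
        (coefs_finite (f i)).subset (by rintro _ ⟨w, rfl⟩; exact hcC w i)
      have h5 : Set.range (fun w => ρ w i) ⊆
          (fun z => if hz : ∃ w, c w i = z then ρ hz.choose i else 0) ''
            Set.range fun w => c w i := by
        rintro _ ⟨w, rfl⟩
        refine ⟨c w i, ⟨w, rfl⟩, ?_⟩
        have hz : ∃ w', c w' i = c w i := ⟨w, rfl⟩
        change (if hz : ∃ w', c w' i = c w i then ρ hz.choose i else 0) = ρ w i
        rw [dif_pos hz]
        exact h3 _ _ hz.choose_spec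
      exact (h4.image _).subset h5
    have h3 : {w : DivVal 1 γ.L | w.ord (ρ w i) ≠ 0} ⊆
        ⋃ a ∈ Set.range (fun w => ρ w i), {w : DivVal 1 γ.L | w.ord a ≠ 0} := by
      intro w hw
      exact Set.mem_biUnion (⟨w, rfl⟩ : ρ w i ∈ Set.range fun w => ρ w i) hw
    refine (h2.biUnion fun a ha => ?_).subset h3
    obtain ⟨w', rfl⟩ := ha
    obtain ⟨E, hE1, -⟩ := hPRF.1 (ρ w' i) (hρ0 w' i)
    refine E.support.finite_toSet.subset fun w hw => ?_
    rw [Finset.mem_coe, Finsupp.mem_support_iff, hE1]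
    exact hw
  have hfin2 : (Function.support fun w : DivVal 1 γ.L =>
      (k : ℤ) * ∑ i ∈ I, w.ord (ρ w i)).Finite := by
    have h2 : (⋃ i ∈ (I : Set (Fin r)), {w : DivVal 1 γ.L | w.ord (ρ w i) ≠ 0}).Finite :=
      I.finite_toSet.biUnion fun i _ => hfinρ i
    refine h2.subset fun w hw => ?_
    by_contra h3
    apply hw
    have h4 : ∀ i ∈ I, w.ord (ρ w i) = 0 := by
      intro i hi
      by_contra h5
      exact h3 (Set.mem_biUnion (Finset.mem_coe.2 hi) h5)
    change (k : ℤ) * ∑ i ∈ I, w.ord (ρ w i) = 0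
    rw [Finset.sum_eq_zero h4, mul_zero]
  have hfin1 : (Function.support fun w : DivVal 1 γ.L => w.ord (u1 w)).Finite := hfin
  have hfun : (fun w : DivVal 1 γ.L => w.ord (u w)) =
      fun w : DivVal 1 γ.L => w.ord (u1 w) + k * ∑ i ∈ I, w.ord (ρ w i) := funext hord
  constructor
  · refine (hfin1.union hfin2).subset fun w hw => ?_
    by_contra h2
    rw [Set.mem_union, not_or] at h2
    obtain ⟨h3, h4⟩ := h2
    rw [Function.notMem_support] at h3 h4
    apply hw
    rw [hord w, h3, h4, add_zero]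
  · rw [hfun, finsum_add_distrib hfin1 hfin2]
    refine add_nonneg hsum (finsum_nonneg fun w => ?_)
    exact mul_nonneg (Int.natCast_nonneg k) (Finset.sum_nonneg fun i _ => hρo w i)

end

end RMM
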