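import Pool.Agent.RMM.StE5
import Pool.Agent.MldGeo.Ord

/-!
# ADJS: adjoint divisors of a semiample canonical divisor are semiample
-/

set_option autoImplicit false

namespace RMM

open MldGeo MldGeo.DivVal MMCI

noncomputable section

namespace ADJSa

variable {F : Type} [Field F] [Algebra ℂ F] {b n r : ℕ}

theorem cmin_le (v : DivVal b F) (f : LR F n) {a : Fin n → ℤ} (ha : a ∈ f.coeff.support) :
    cmin v (coefs f) ≤ v.ord (f.coeff a) := by
  unfold cmin coefs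
  refine csInf_le ?_ ⟨f.coeff a, ⟨a, ha, rfl⟩, rfl⟩
  exact (((Finset.finite_toSet _).image _).image _).bddBelow

theorem cmin_eq (v : DivVal b F) (C : Set F) {c : F} (hc : c ∈ C)
    (h : ∀ c' ∈ C, v.ord c ≤ v.ord c') : cmin v C = v.ord c := by
  unfold cmin
  refine IsLeast.csInf_eq ⟨⟨c, hc, rfl⟩, ?_⟩
  rintro _ ⟨c', hc', rfl⟩
  exact h c' hc'

theorem ord_le_of_inLoc (B : ProjModel F) {j : Fin (B.N + 1)} {m : Ideal (B.ring j)}
    {v : DivVal b F} {P : Ideal (B.ring j)} (hP : IsPrimeDivisor (B.ring j) v P) (hPm : P ≤ m)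
    {c c' : F} (hc : c ≠ 0) (hc' : c' ≠ 0) (h : InLoc B j m (c' / c)) : v.ord c ≤ v.ord c' := by
  obtain ⟨p, q, hq, hpq⟩ := h
  obtain ⟨-, -, h0, h1⟩ := hP
  have hqP : ¬ (q = 0 ∨ 0 < v.ord (q : F)) := fun h => hq (hPm ((h1 q).2 h))
  rw [not_or, not_lt] at hqP
  have hq0 : v.ord (q : F) = 0 := le_antisymm hqP.2 (h0 q)
  have hqne : (q : F) ≠ 0 := fun h => hqP.1 (Subtype.ext h)
  have h2 : v.ord (c' / c * q) = v.ord c' - v.ord c := by
    rw [v.ord_mul _ _ (div_ne_zero hc' hc) hqne, ord_div v hc' hc, hq0, add_zero]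
  have h3 := h0 p
  rw [← hpq, h2] at h3
  linarith

/-- the order of a section -/
theorem ord_sec (v : DivVal b F) (ω : Forms b F) (f : Fin r → LR F n) (I : Finset (Fin r)) (k : ℕ)
    {h : F} (hh : h ≠ 0) (a : Fin r → (Fin n → ℤ)) (ha : ∀ i, a i ∈ (f i).coeff.support) :
    v.ord (h * ∏ i ∈ I, (f i).coeff (a i) ^ k) +
      k * (v.formOrd ω + adj (b := b) (fun i => coefs (f i)) I v) =
      (v.ord h + k * v.formOrd ω) +
        k * ∑ i ∈ I, (v.ord ((f i).coeff (a i)) - cmin v (coefs (f i))) := by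
  have hne : ∀ i ∈ I, (f i).coeff (a i) ^ k ≠ 0 := fun i _ =>
    pow_ne_zero _ (Finsupp.mem_support_iff.1 (ha i))
  rw [v.ord_mul _ _ hh (Finset.prod_ne_zero_iff.2 hne), DivVal.ord_prod v I _ hne]
  have h1 : ∑ i ∈ I, v.ord ((f i).coeff (a i) ^ k) = k * ∑ i ∈ I, v.ord ((f i).coeff (a i)) := by
    rw [Finset.mul_sum]
    exact Finset.sum_congr rfl fun i _ => ord_pow v _ _
  rw [h1, Finset.sum_sub_distrib]
  unfold adj
  ring

end ADJSa

open ADJSa in
theorem t_ADJS : S_ADJS := by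
  classical
  intro F _ _ b n r B f hf hbpf hsem I ω hω
  obtain ⟨k, N, h, hk, hne, hlow, heq⟩ := hsem ω hω
  let J : Type := Fin N × (∀ i : Fin r, {a // a ∈ (f i).coeff.support})
  let e : J ≃ Fin (Fintype.card J) := Fintype.equivFin J
  let sec : J → F := fun t => h t.1 * ∏ i ∈ I, (f i).coeff (t.2 i : Fin n → ℤ) ^ k
  have hsec : ∀ t : J, sec t ≠ 0 := fun t => mul_ne_zero (hne t.1)
    (Finset.prod_ne_zero_iff.2 fun i _ => pow_ne_zero _ (Finsupp.mem_support_iff.1 (t.2 i).2))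
  refine ⟨k, Fintype.card J, fun l => sec (e.symm l), hk, fun l => hsec _, ?_, ?_⟩
  · intro l i v P hP
    have h1 := ord_sec v ω f I k (hne (e.symm l).1) (fun i => ((e.symm l).2 i : Fin n → ℤ))
      (fun i => ((e.symm l).2 i).2)
    refine le_of_le_of_eq ?_ h1.symm
    have h2 : 0 ≤ ∑ i ∈ I, (v.ord ((f i).coeff ((e.symm l).2 i : Fin n → ℤ)) -
        cmin v (coefs (f i))) :=
      Finset.sum_nonneg fun i _ => sub_nonneg.2 (cmin_le v (f i) ((e.symm l).2 i).2)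
    exact add_nonneg (hlow _ i v P hP) (mul_nonneg (Int.natCast_nonneg k) h2)
  · intro i m hm
    obtain ⟨l, hl⟩ := heq i m hm
    have hc : ∀ j : Fin r, ∃ a : {a // a ∈ (f j).coeff.support},
        ∀ c' ∈ coefs (f j), InLoc B i m (c' / (f j).coeff (a : Fin n → ℤ)) := by
      intro j
      obtain ⟨c, ⟨a, ha, rfl⟩, -, hc⟩ := hbpf j i m hm
      exact ⟨⟨a, ha⟩, hc⟩
    choose a ha using hc
    refine ⟨e (l, a), ?_⟩
    intro v P hP hPm
    have h1 := ord_sec v ω f I k (hne l) (fun i => (a i : Fin n → ℤ)) (fun i => (a i).2)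
    have h0 : sec (e.symm (e (l, a))) = h l * ∏ i ∈ I, (f i).coeff (a i : Fin n → ℤ) ^ k := by
      rw [Equiv.symm_apply_apply]
    show v.ord (sec (e.symm (e (l, a)))) + _ = 0
    rw [h0, h1, hl v P hP hPm, zero_add]
    have h2 : ∀ j ∈ I, v.ord ((f j).coeff (a j : Fin n → ℤ)) - cmin v (coefs (f j)) = 0 := by
      intro j _
      rw [sub_eq_zero]
      refine (cmin_eq v (coefs (f j)) ⟨_, (a j).2, rfl⟩ ?_).symm
      rintro _ ⟨a', ha', rfl⟩
      exact ord_le_of_inLoc B hP hPm (Finsupp.mem_support_iff.1 (a j).2)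
        (Finsupp.mem_support_iff.1 ha') (ha j _ ⟨a', ha', rfl⟩)
    rw [Finset.sum_eq_zero h2, mul_zero]

end

end RMM
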