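import Pool.Agent.RMM.StE
import Pool.Agent.MMCI.Tools
import Pool.Agent.MldGeo.Ord
import Pool.Agent.MMCI.K_BAS

/-!
# ABAS: transcendence bases and derivations from a nonzero minor, abstract version
-/

namespace RMM

open MldGeo MMCI

noncomputable section

theorem t_ABAS : S_ABAS := by
  intro e N r K _ _ z G hR σ hσ
  have hσ' : (Matrix.of fun i j : Fin r => G i (σ (Sum.inl j))).det ≠ 0 := hσ
  have hzr : ∀ l, rest z σ l ≠ 0 := fun l => hR.ne _
  -- the span
  set M : Submodule K (Ω[K⁄ℂ]) := Submodule.span K (Set.range fun l => dlog (rest z σ l)) with hM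
  have hspan : M = ⊤ := by
    have h1 : ∀ c, M.mkQ (dlog (z c)) = 0 := by
      refine BAS.kill G σ (fun c => M.mkQ (dlog (z c))) ?_ ?_ hσ'
      · intro i
        have h2 := congrArg M.mkQ (hR.rel i)
        rw [map_zero, map_sum] at h2
        simpa only [map_smul] using h2
      · intro l
        rw [Submodule.mkQ_apply, Submodule.Quotient.mk_eq_zero]
        exact Submodule.subset_span ⟨l, rfl⟩
    rw [eq_top_iff, ← hR.span, Submodule.span_le]
    rintro _ ⟨c, rfl⟩
    have h3 := h1 c
    rw [Submodule.mkQ_apply, Submodule.Quotient.mk_eq_zero] at h3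
    exact h3
  obtain ⟨hfin, hrank⟩ := BAS.finrank_eq hR.dim
  have hli : LinearIndependent K fun l => dlog (rest z σ l) := by
    refine linearIndependent_of_top_le_span_of_card_eq_finrank (hspan.ge) ?_
    rw [Fintype.card_fin, hrank]
  let b : Module.Basis (Fin e) K (Ω[K⁄ℂ]) := Module.Basis.mk hli hspan.ge
  have hb : (b : Fin e → Ω[K⁄ℂ]) = fun l => dlog (rest z σ l) := Module.Basis.coe_mk hli hspan.ge
  refine ⟨?_, ?_, ?_⟩
  · refine BAS.algInd _ ?_
    rw [Fintype.linearIndependent_iff]
    intro g hg l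
    have h1 : ∑ l, (g l * rest z σ l) • dlog (rest z σ l) = 0 := by
      rw [← hg]
      refine Finset.sum_congr rfl fun l _ => ?_
      rw [dlog, smul_smul, mul_assoc, mul_inv_cancel₀ (hzr l), mul_one]
    have h2 := Fintype.linearIndependent_iff.1 hli _ h1 l
    exact (mul_eq_zero.1 h2).resolve_right (hzr l)
  · have h := FRM.iota_ne b
    rw [hb] at h
    exact h
  · intro δ hδ
    let φ : Ω[K⁄ℂ] →ₗ[K] K := b.constr K fun l => δ (σ (Sum.inr l))
    have hφ : ∀ l, φ (dlog (rest z σ l)) = δ (σ (Sum.inr l)) := by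
      intro l
      have h1 : dlog (rest z σ l) = b l := by rw [hb]
      rw [h1]
      exact b.constr_basis K _ l
    have h2 : ∀ c, φ (dlog (z c)) - δ c = 0 := by
      refine BAS.kill G σ (fun c => φ (dlog (z c)) - δ c) ?_ ?_ hσ'
      · intro i
        have h3 := congrArg φ (hR.rel i)
        rw [map_zero, map_sum] at h3
        simp only [map_smul] at h3
        have h4 := hδ i
        simp only [smul_sub, Finset.sum_sub_distrib]
        rw [h3, zero_sub, neg_eq_zero, ← h4]
        refine Finset.sum_congr rfl fun j _ => ?_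
        rw [smul_eq_mul, mul_comm]
      · intro l
        have h5 := hφ l
        rw [sub_eq_zero]
        exact h5
    refine ⟨φ.compDer (KaehlerDifferential.D ℂ K), fun c => ?_⟩
    have h6 : KaehlerDifferential.D ℂ K (z c) = z c • dlog (z c) := by
      rw [dlog, smul_smul, mul_inv_cancel₀ (hR.ne c), one_smul]
    have h7 : (φ.compDer (KaehlerDifferential.D ℂ K)) (z c) =
        φ (KaehlerDifferential.D ℂ K (z c)) := rfl
    rw [h7, h6, map_smul, sub_eq_zero.1 (h2 c), smul_eq_mul, mul_comm]

end

end RMM
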