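import Pool.Agent.RMM.StS
import Pool.Agent.MMCI.Tools
import Pool.Agent.MldGeo.Ord
import Pool.Agent.MMCI.K_BND

/-!
# Module ABN2: the residues of functions orthogonal to two vectors over the valuation ring
-/

set_option autoImplicit false

namespace RMM

open MldGeo MldGeo.DivVal MMCI

noncomputable section

namespace ABN2

/-- vectors which are independent modulo the maximal ideal have independent residues -/
theorem indep_res {e : ℕ} {K : Type} [Field K] [Algebra ℂ K] (v : DivVal e K) {k l : ℕ}
    (M : Fin k → Fin l → K) (h0 : ∀ j c, v.Ge 0 (M j c)) (h : IndepMod v M) :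
    LinearIndependent (BND.Kp v) (fun (j : Fin k) (c : Fin l) => BND.rz v (M j c)) := by
  rw [Fintype.linearIndependent_iff]
  intro g hg
  choose α hα0 hα using fun j : Fin k => BND.exists_rz v (g j)
  have h1 : ∀ c, v.Ge 1 (∑ j, α j * M j c) := by
    intro c
    have h2 : ∀ j, v.Ge 0 (α j * M j c) := fun j => (hα0 j).mul_left (h0 j c)
    rw [← BND.rz_zero_iff v (Ge.sum _ _ fun j _ => h2 j), BND.rz_sum v _ _ fun j _ => h2 j]
    have h3 := congrFun hg c
    simp only [Finset.sum_apply, Pi.smul_apply, smul_eq_mul, Pi.zero_apply] at h3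
    rw [← h3]
    refine Finset.sum_congr rfl fun j _ => ?_
    rw [BND.rz_mul v (hα0 j) (h0 j c), hα]
  intro j
  rw [← hα j, BND.rz_zero_iff v (hα0 j)]
  exact h α hα0 h1 j

end ABN2

theorem t_ABN2 : S_ABN2 := by
  intro m N r K _ _ z G₀ hR v ψ σ hU ν hν0 hν hort
  rintro ⟨u, ρ, hE, hq, hres⟩
  obtain ⟨hlow, hne, hord⟩ := hU
  obtain ⟨t, ht, ht1⟩ := v.unif
  have hF : Frame v t u := ⟨ht, ht1, hres⟩
  have hu0 : ∀ j, u j ≠ 0 ∧ v.ord (u j) = 0 := by
    intro j
    have := hres (MvPolynomial.X j) (MvPolynomial.X_ne_zero j)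
    simpa using this
  have hdim : Algebra.trdeg ℂ K = ((m + 1 : ℕ) : Cardinal) := hR.dim
  -- the coefficients of the `dlog (z a)`
  choose C hC0 _ hC2 using fun a : Fin N => cCOE hdim v t u hF (z a) (hR.ne a)
  have hexp : ∀ g : Fin N → K, ∑ a, g a • dlog (z a) =
      (∑ a, g a * C a 0) • dlog t +
        ∑ j : Fin m, (∑ a, g a * C a j.succ) • KaehlerDifferential.D ℂ K (u j) := by
    intro g
    simp only [Finset.sum_smul]
    rw [Finset.sum_comm, ← Finset.sum_add_distrib]
    refine Finset.sum_congr rfl fun a _ => ?_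
    rw [hC2 a, smul_add, smul_smul, Finset.smul_sum]
    simp only [smul_smul]
  have hR1 : ∀ i j, ∑ a, G₀ i a * C a (Fin.succ j) = 0 := by
    intro i j
    have h1 := hR.rel i
    rw [hexp] at h1
    exact BND.frame_zero hdim v t u hF _ _ h1 j
  have hR2 : ∀ l j, ∑ a, ρ l a * C a (Fin.succ j) =
      if j = l then (u l)⁻¹ else 0 := by
    intro l j
    have h1 := (hE l).eq
    rw [hexp] at h1
    have h2 : (∑ a, ρ l a * C a 0) • dlog t +
        ∑ j : Fin m, ((∑ a, ρ l a * C a j.succ) - if j = l then (u l)⁻¹ else 0) •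
          KaehlerDifferential.D ℂ K (u j) = 0 := by
      simp only [sub_smul, Finset.sum_sub_distrib, ite_smul, zero_smul]
      rw [Finset.sum_ite_eq' Finset.univ l, if_pos (Finset.mem_univ l), ← add_sub_assoc, ← h1]
      exact sub_self _
    have h3 := BND.frame_zero hdim v t u hF _ _ h2 j
    exact sub_eq_zero.mp h3
  -- the normalised relations
  set y : Fin r → K := fun i => t ^ ψ i with hy
  have hy0 : ∀ i, y i ≠ 0 := fun i => zpow_ne_zero _ ht
  have hyo : ∀ i, v.ord (y i) = ψ i := by
    intro i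
    rw [hy]
    change v.ord (t ^ _) = _
    rw [ord_zpow, ht1, mul_one]
  set G : Fin r → Fin N → K := fun i a => (y i)⁻¹ * G₀ i a with hG
  have hGge : ∀ i a, v.Ge 0 (G i a) := by
    intro i a
    have h1 := (Ge.inv' v (y i)).mul (hlow i a)
    rw [hyo, neg_add_cancel] at h1
    exact h1
  have hGR : ∀ i j, ∑ a, G i a * C a (Fin.succ j) = 0 := by
    intro i j
    have h1 : ∑ a, G i a * C a (Fin.succ j) = (y i)⁻¹ * ∑ a, G₀ i a * C a (Fin.succ j) := by
      rw [Finset.mul_sum]
      refine Finset.sum_congr rfl fun a _ => ?_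
      rw [hG]
      ring
    rw [h1, hR1, mul_zero]
  -- rows of `G` are independent modulo the maximal ideal
  have hGind : LinearIndependent (BND.Kp v) (fun (i : Fin r) (a : Fin N) => BND.rz v (G i a)) := by
    have h1 : (Matrix.of fun i j : Fin r => G i (σ (Sum.inl j))).det =
        (∏ i, (y i)⁻¹) * gminor G₀ σ := by
      have h2 := Matrix.det_mul_column (fun i => (y i)⁻¹)
        (Matrix.of fun i j : Fin r => G₀ i (σ (Sum.inl j)))
      exact h2
    have hp : ∏ i, (y i)⁻¹ ≠ 0 := Finset.prod_ne_zero_iff.mpr fun i _ => inv_ne_zero (hy0 i)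
    have h3 : v.ord (Matrix.of fun i j : Fin r => G i (σ (Sum.inl j))).det = 0 := by
      rw [h1, v.ord_mul _ _ hp hne, ord_prod v _ _ fun i _ => inv_ne_zero (hy0 i), hord]
      rw [← Finset.sum_add_distrib]
      refine Finset.sum_eq_zero fun i _ => ?_
      rw [ord_inv, hyo]
      omega
    have h4 := BND.indep_rows v (fun i j : Fin r => G i (σ (Sum.inl j)))
      (fun i j => hGge i _) (by rw [h1]; exact mul_ne_zero hp hne) h3
    exact LinearIndependent.of_comp
      (LinearMap.funLeft (BND.Kp v) (BND.Kp v) fun j : Fin r => σ (Sum.inl j)) h4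
  -- the family of vectors
  have hρ0 : ∀ l a, v.Ge 0 (ρ l a) := fun l a => (hE l).low a
  let V : Fin m ⊕ Fin r → Fin N → BND.Kp v := Sum.elim (fun l a => BND.rz v (ρ l a))
    (fun i a => BND.rz v (G i a))
  have hVind : LinearIndependent (BND.Kp v) V := by
    rw [Fintype.linearIndependent_iff]
    intro g hg
    rw [Fintype.sum_sum_type] at hg
    choose α hα0 hα using fun l : Fin m => BND.exists_rz v (g (Sum.inl l))
    choose β hβ0 hβ using fun i : Fin r => BND.exists_rz v (g (Sum.inr i))
    set E : Fin N → K := fun a => ∑ l, α l * ρ l a + ∑ i : Fin r, β i * G i a with hE'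
    have hE1 : ∀ a, v.Ge 1 (E a) := by
      intro a
      have h1 : ∀ l, v.Ge 0 (α l * ρ l a) := fun l =>
        (hα0 l).mul_left (hρ0 l a)
      have h2 : ∀ i : Fin r, v.Ge 0 (β i * G i a) := fun i => (hβ0 i).mul_left (hGge _ _)
      rw [← BND.rz_zero_iff v ((Ge.sum _ _ fun l _ => h1 l).add (Ge.sum _ _ fun i _ => h2 i))]
      change BND.rz v (∑ l, α l * ρ l a + ∑ i : Fin r, β i * G i a) = 0
      rw [BND.rz_add v (Ge.sum _ _ fun l _ => h1 l) (Ge.sum _ _ fun i _ => h2 i),
        BND.rz_sum v _ _ fun l _ => h1 l, BND.rz_sum v _ _ fun i _ => h2 i]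
      have h3 := congrFun hg a
      simp only [Pi.add_apply, Finset.sum_apply, Pi.smul_apply, smul_eq_mul, Pi.zero_apply] at h3
      rw [← h3]
      congr 1
      · refine Finset.sum_congr rfl fun l _ => ?_
        rw [BND.rz_mul v (hα0 l) (hρ0 l a), hα]
        rfl
      · refine Finset.sum_congr rfl fun i _ => ?_
        rw [BND.rz_mul v (hβ0 i) (hGge _ _), hβ]
        rfl
    have hα1 : ∀ j, v.Ge 1 (α j) := by
      intro j
      have h1 : v.Ge 1 (∑ a, E a * C a (Fin.succ j)) :=
        Ge.sum _ _ fun a _ => (hE1 a).mul_right (hC0 a _)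
      have h2 : ∑ a, E a * C a (Fin.succ j) = α j * (u j)⁻¹ := by
        have h3 : ∀ a, E a * C a (Fin.succ j) =
            ∑ l, α l * (ρ l a * C a (Fin.succ j)) +
              ∑ i : Fin r, β i * (G i a * C a (Fin.succ j)) := by
          intro a
          rw [hE']
          change (∑ l, α l * ρ l a + ∑ i : Fin r, β i * G i a) * C a (Fin.succ j) = _
          rw [add_mul, Finset.sum_mul, Finset.sum_mul]
          congr 1
          · exact Finset.sum_congr rfl fun l _ => by ring
          · exact Finset.sum_congr rfl fun l _ => by ring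
        rw [Finset.sum_congr rfl fun a _ => h3 a, Finset.sum_add_distrib, Finset.sum_comm,
          Finset.sum_comm (s := Finset.univ) (t := (Finset.univ : Finset (Fin r)))]
        have h4 : ∀ l, ∑ a, α l * (ρ l a * C a (Fin.succ j)) =
            if j = l then α l * (u l)⁻¹ else 0 := by
          intro l
          rw [← Finset.mul_sum, hR2]
          split_ifs
          · rfl
          · rw [mul_zero]
        have h5 : ∀ i : Fin r, ∑ a, β i * (G i a * C a (Fin.succ j)) = 0 := by
          intro i
          rw [← Finset.mul_sum, hGR, mul_zero]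
        rw [Finset.sum_congr rfl fun l _ => h4 l, Finset.sum_congr rfl fun i _ => h5 i,
          Finset.sum_const_zero, add_zero, Finset.sum_ite_eq, if_pos (Finset.mem_univ j)]
      rw [h2] at h1
      have h6 : v.Ge 0 (u j) := Or.inr (hu0 j).2.ge
      have h7 := h1.mul_right h6
      rwa [mul_assoc, inv_mul_cancel₀ (hu0 j).1, mul_one] at h7
    have hgl : ∀ l, g (Sum.inl l) = 0 := by
      intro l
      rw [← hα l, BND.rz_zero_iff v (hα0 l)]
      exact hα1 l
    have hgr' : ∀ i : Fin r, g (Sum.inr i) = 0 := by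
      refine Fintype.linearIndependent_iff.mp hGind (fun i => g (Sum.inr i)) ?_
      have h2 : ∑ l, g (Sum.inl l) • V (Sum.inl l) = 0 :=
        Finset.sum_eq_zero fun l _ => by rw [hgl l, zero_smul]
      rw [h2, zero_add] at hg
      exact hg
    rintro (l | i)
    · exact hgl l
    · exact hgr' i
  -- orthogonality
  have horth : ∀ p j, ∑ a, BND.rz v (ν j a) * V p a = 0 := by
    rintro (l | i) j
    · have h6 : ∀ a, v.Ge 0 (ν j a * ρ l a) := fun a => (hν0 j a).mul_left (hρ0 l a)
      have h3 := hq l j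
      rw [← BND.rz_zero_iff v (Ge.sum _ _ fun a _ => h6 a), BND.rz_sum v _ _ fun a _ => h6 a] at h3
      rw [← h3]
      refine Finset.sum_congr rfl fun a _ => ?_
      rw [BND.rz_mul v (hν0 j a) (hρ0 l a)]
      rfl
    · have h2 := hort i j
      have h3 : v.Ge 1 (∑ a, ν j a * G i a) := by
        have h4 : ∑ a, ν j a * G i a = (y i)⁻¹ * ∑ a, ν j a * G₀ i a := by
          rw [Finset.mul_sum]
          refine Finset.sum_congr rfl fun a _ => ?_
          rw [hG]
          ring
        rw [h4]
        have h5 := (Ge.inv' v (y i)).mul h2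
        rw [hyo] at h5
        refine h5.mono ?_
        omega
      have h6 : ∀ a, v.Ge 0 (ν j a * G i a) := fun a => (hν0 j a).mul_left (hGge _ _)
      rw [← BND.rz_zero_iff v (Ge.sum _ _ fun a _ => h6 a), BND.rz_sum v _ _ fun a _ => h6 a] at h3
      rw [← h3]
      refine Finset.sum_congr rfl fun a _ => ?_
      rw [BND.rz_mul v (hν0 j a) (hGge _ _)]
      rfl
  have hcount := BND.count (fun j a => BND.rz v (ν j a)) (ABN2.indep_res v ν hν0 hν) V hVind horth
  rw [Fintype.card_sum, Fintype.card_fin, Fintype.card_fin] at hcount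
  have hn : N = r + (m + 1) := by
    have h1 := Fintype.card_congr σ
    rw [Fintype.card_sum, Fintype.card_fin, Fintype.card_fin, Fintype.card_fin] at h1
    exact h1.symm
  omega

end

end RMM
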