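import Pool.Agent.RMM.StE
import Pool.Agent.MMCI.Tools
import Pool.Agent.MldGeo.Ord
import Pool.Agent.MMCI.K_EQ0a

/-!
# Module AE0a: valuations of weight zero, the lower bound and the first implication
-/

set_option autoImplicit false

namespace RMM

open MldGeo MldGeo.DivVal MMCI

noncomputable section

theorem t_AE0a : M_AE0a := by
  intro hBAS hIND hFRD m N r K _ _ z G hR v ψ σ hU hw
  have hne := hR.ne
  have hdim : Algebra.trdeg ℂ K = ((m + 1 : ℕ) : Cardinal) := hR.dim
  have hdl : dlogs (rest z σ) ≠ 0 := (hBAS z G hR σ hU.ne).2.1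
  have hane : ∀ i, rest z σ i ≠ 0 := fun i => hne _
  have hord : ∀ i, v.ord (rest z σ i) = 0 := fun i => congrFun hw (σ (Sum.inr i))
  obtain ⟨⟨t, u, hfr⟩, _⟩ := cFRA v
  obtain ⟨c, hc0, hc1, hc2, _, hc4⟩ := hFRD hdim v t u hfr (rest z σ) hane
  obtain ⟨hdet, hlog⟩ := hc4 hdl
  have hcol : ∀ i, v.Ge 1 (Matrix.of c i 0) := by
    intro i
    have h1 := hc1 i
    rw [hord i, Int.cast_zero, sub_zero] at h1
    exact h1
  have hge0 : ∀ i j, v.Ge 0 (Matrix.of c i j) := fun i j => hc0 i j
  refine ⟨?_, ?_⟩
  · rw [hlog]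
    exact (Ge.det_col hge0 0 hcol).le hdet
  · intro h1
    rw [hlog] at h1
    have hex : ∃ i0 : Fin (m + 1), ¬ v.Ge 1
        ((Matrix.of c).submatrix i0.succAbove Fin.succ).det := by
      by_contra hcon
      have hcon' := fun i => not_not.1 (not_exists.1 hcon i)
      have h2 : v.Ge 2 (Matrix.of c).det := by
        rw [Matrix.det_succ_column_zero]
        refine Ge.sum _ _ fun i _ => ?_
        have h3 : v.Ge (1 + 1) (Matrix.of c i 0 *
            ((Matrix.of c).submatrix i.succAbove Fin.succ).det) := (hcol i).mul (hcon' i)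
        have h4 : v.Ge 0 ((-1 : K) ^ (i : ℕ)) := by
          rcases neg_one_pow_eq_or K (i : ℕ) with h | h
          · rw [h]; exact Ge.one v
          · rw [h]; exact (Ge.one v).neg
        have h5 := h4.mul_left h3
        rw [← mul_assoc] at h5
        exact h5
      have h3 := h2.le hdet
      omega
    obtain ⟨i0, hi0⟩ := hex
    have hM0 : ∀ i j, v.Ge 0 ((Matrix.of c).submatrix i0.succAbove Fin.succ i j) :=
      fun i j => hc0 _ _
    have hMdet : v.Ge 0 ((Matrix.of c).submatrix i0.succAbove Fin.succ).det := Ge.det hM0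
    have hMne : ((Matrix.of c).submatrix i0.succAbove Fin.succ).det ≠ 0 := by
      intro h
      exact hi0 (by rw [h]; exact Ge.zero v 1)
    have hMord : v.ord ((Matrix.of c).submatrix i0.succAbove Fin.succ).det = 0 := by
      have h2 := hMdet.le hMne
      by_contra h3
      exact hi0 (Ge.of_le (by omega))
    have hind := EQ0a.indep_of_det v _ hM0 hMne hMord
    have hres := hIND hdim v t u hfr (fun l : Fin m => rest z σ (i0.succAbove l))
      (fun l => c (i0.succAbove l)) (fun l => ⟨hane _, hord _⟩) (fun l j => hc0 _ _)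
      (fun l => hc2 _) hind
    refine ⟨fun l : Fin m => Pi.single (σ (Sum.inr (i0.succAbove l))) 1, ?_, ?_⟩
    · intro l
      rw [hw]
      unfold pair
      simp
    · have h5 : (fun l : Fin m => mon z (Pi.single (σ (Sum.inr (i0.succAbove l))) 1)) =
          fun l : Fin m => rest z σ (i0.succAbove l) := by
        funext l
        exact EQ0a.mon_single z _
      show ResIndep v (fun l : Fin m => mon z (Pi.single (σ (Sum.inr (i0.succAbove l))) 1))
      rw [h5]
      exact hres

end

end RMM
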