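import Pool.Agent.RMM.StE
import Pool.Agent.MMCI.Tools
import Pool.Agent.MldGeo.Ord
import Pool.Agent.MMCI.K_EQ0b

/-!
# AE0b: valuations with all `z_c` of order zero and many independent residues
-/

namespace RMM

open MldGeo MldGeo.DivVal MMCI MMCI.EQ0b

noncomputable section

theorem t_AE0b : M_AE0b := by
  intro hABAS hASOL hDK hLOB m N r K _ _ z G hRel v σ hU hw hR0 B0 hB0g hzB0 hGB0 hDer0
  obtain ⟨i0, hR⟩ := hR0
  have hd : Algebra.trdeg ℂ K = ((m + 1 : ℕ) : Cardinal) := hRel.dim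
  obtain ⟨hAI, hne, hDer⟩ := hABAS z G hRel σ hU.ne
  have h0 : ∀ j, v.ord (z j) = 0 := fun j => congrFun hw j
  set ζ : Fin m → K := fun l => rest z σ (i0.succAbove l) with hζdef
  set y : K := rest z σ i0 with hydef
  have hy : y ≠ 0 := hRel.ne _
  have hy0 : v.ord y = 0 := h0 _
  have hζ : ∀ l, ζ l ≠ 0 := fun l => hRel.ne _
  have hζ0 : ∀ l, v.ord (ζ l) = 0 := fun l => h0 _
  obtain ⟨P, hP, hP1, hq, hq0⟩ := exists_min hd v (Or.inr hy0.ge) (fun l => Or.inr (hζ0 l).ge) hR
  set p : K := evP y ζ P with hpdef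
  set q : K := evP y ζ (Polynomial.derivative P) with hqdef
  -- `p` is not zero
  have hcons : (Fin.cons y ζ : Fin (m + 1) → K) =
      rest z σ ∘ (Fin.cons i0 i0.succAbove : Fin (m + 1) → Fin (m + 1)) := by
    funext i
    refine Fin.cases ?_ (fun i => ?_) i
    · rfl
    · rfl
  have hinj : Function.Injective (Fin.cons i0 i0.succAbove : Fin (m + 1) → Fin (m + 1)) := by
    intro a b
    refine Fin.cases ?_ (fun a => ?_) a <;> refine Fin.cases ?_ (fun b => ?_) b
    · exact fun _ => rfl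
    · intro h
      rw [Fin.cons_zero, Fin.cons_succ] at h
      exact absurd h.symm (Fin.succAbove_ne _ _)
    · intro h
      rw [Fin.cons_zero, Fin.cons_succ] at h
      exact absurd h (Fin.succAbove_ne _ _)
    · intro h
      rw [Fin.cons_succ, Fin.cons_succ] at h
      rw [Fin.succAbove_right_injective h]
  have hAI2 : AlgebraicIndependent ℂ (Fin.cons y ζ : Fin (m + 1) → K) := by
    rw [hcons]
    exact hAI.comp _ hinj
  have hp : p ≠ 0 := by
    intro h
    obtain ⟨p', hp'⟩ := (MvPolynomial.finSuccEquiv ℂ m).surjective P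
    rw [hpdef, ← hp', evP_finSucc] at h
    have h1 : p' = 0 := by
      have h2 : AlgebraicIndependent ℂ (Fin.cons y ζ : Fin (m + 1) → K) := hAI2
      rw [algebraicIndependent_iff] at h2
      exact h2 p' h
    apply hP
    rw [← hp', h1, map_zero]
  -- the ring
  obtain ⟨B, hBmem, hB0, hBge, hBinv, hBD⟩ := hLOB v B0 hB0g.ge
  have hyB : y ∈ B0 := (hzB0 _).1
  have hζB : ∀ l, ζ l ∈ B0 := fun l => (hzB0 _).1
  have hevB : ∀ Q, evP y ζ Q ∈ B0 := by
    intro Q
    obtain ⟨Q', rfl⟩ := (MvPolynomial.finSuccEquiv ℂ m).surjective Q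
    rw [evP_finSucc]
    have h1 : (Set.range (Fin.cons y ζ : Fin (m + 1) → K)) ⊆ (B0 : Set K) := by
      rintro _ ⟨i, rfl⟩
      refine Fin.cases ?_ (fun i => ?_) i
      · exact hyB
      · exact hζB i
    have h2 : Algebra.adjoin ℂ (Set.range (Fin.cons y ζ : Fin (m + 1) → K)) ≤ B0 :=
      Algebra.adjoin_le h1
    apply h2
    rw [Algebra.adjoin_range_eq_range_aeval]
    exact ⟨Q', rfl⟩
  -- the derivation
  have hyq : y * q ≠ 0 := mul_ne_zero hy hq
  have hyq0 : v.ord (y * q) = 0 := by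
    rw [v.ord_mul _ _ hy hq, hy0, hq0, add_zero]
  have hc : (y * q)⁻¹ ∈ B := hBinv _ (hB0 (mul_mem hyB (hevB _))) hyq hyq0
  set j0 : Fin N := σ (Sum.inr i0) with hj0
  obtain ⟨δ, hδB, hδ0, hδ⟩ := hASOL G v (fun _ => 0) σ hU B (fun _ => 1)
    (fun i => - ((y * q)⁻¹ * G i j0)) hBinv (fun i => ⟨one_ne_zero, by
      show v.ord 1 = 0
      exact ord_one v, fun j => by
      rw [div_one]
      exact hB0 (hGB0 i j), by
      rw [div_one]
      exact neg_mem (mul_mem hc (hB0 (hGB0 i j0)))⟩)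
  obtain ⟨D, hD⟩ := hDer (fun j => δ j + if j = j0 then (y * q)⁻¹ else 0) (by
    intro i
    have h1 : ∀ j, (δ j + if j = j0 then (y * q)⁻¹ else 0) * G i j =
        δ j * G i j + if j = j0 then (y * q)⁻¹ * G i j else 0 := by
      intro j
      split_ifs
      · ring
      · ring
    rw [Finset.sum_congr rfl fun j _ => h1 j, Finset.sum_add_distrib, hδ,
      Finset.sum_ite_eq' Finset.univ j0, if_pos (Finset.mem_univ _)]
    ring)
  have hDB0 : ∀ b ∈ B0, D b ∈ B := by
    refine hDer0 B D _ hB0 (fun j => ?_) hD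
    refine add_mem (hδB j) ?_
    split_ifs
    · exact hc
    · exact zero_mem _
  have hDz : D y = q⁻¹ := by
    have h1 : D y = (δ j0 + if j0 = j0 then (y * q)⁻¹ else 0) * y := hD j0
    rw [h1, if_pos rfl, hδ0 i0, zero_add]
    field_simp
  have hDζ : ∀ l, D (ζ l) = 0 := by
    intro l
    have h1 : D (ζ l) = (δ (σ (Sum.inr (i0.succAbove l))) +
      if σ (Sum.inr (i0.succAbove l)) = j0 then (y * q)⁻¹ else 0) * ζ l := hD _
    rw [h1, hδ0, if_neg, add_zero, zero_mul]
    intro h2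
    have h3 := σ.injective h2
    exact Fin.succAbove_ne i0 l (Sum.inr.inj h3)
  have hspan := d_evP y ζ P
  have hDp : D p = 1 := by
    have h1 : ∀ y ∈ Submodule.span K (Set.range fun l => KaehlerDifferential.D ℂ K (ζ l)),
        D.liftKaehlerDifferential y = 0 := by
      intro y hy
      have h2 : Submodule.span K (Set.range fun l => KaehlerDifferential.D ℂ K (ζ l)) ≤
          LinearMap.ker D.liftKaehlerDifferential := by
        rw [Submodule.span_le]
        rintro _ ⟨l, rfl⟩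
        show D.liftKaehlerDifferential (KaehlerDifferential.D ℂ K (ζ l)) = 0
        rw [Derivation.liftKaehlerDifferential_comp_D, hDζ]
      exact h2 hy
    have h2 := h1 _ hspan
    rw [map_sub, map_smul, Derivation.liftKaehlerDifferential_comp_D,
      Derivation.liftKaehlerDifferential_comp_D, hDz, smul_eq_mul, sub_eq_zero] at h2
    rw [h2]
    exact mul_inv_cancel₀ hq
  have hfr : ∀ a : K, ∃ p ∈ B, ∃ q ∈ B, q ≠ 0 ∧ a * q = p := by
    intro a
    obtain ⟨p', hp', q', hq', h1, h2⟩ := hB0g.frac a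
    exact ⟨p', hB0 hp', q', hB0 hq', h1, h2⟩
  have hp1 : v.ord p = 1 := by
    refine hDK hd v B hBge hfr D (hBD D hDB0) p (hB0 (hevB P)) hp ?_ ?_ ?_ ζ
      (fun l => hB0 (hζB l)) hR
    · have := hP1.le hp
      omega
    · rw [hDp]
      exact one_ne_zero
    · rw [hDp]
      exact ord_one v
  -- the form
  obtain ⟨g, hg, hg1, hform⟩ := ord_form v hy hy0 hζ hζ0 hp hp1 hq hq0 hspan
  have hfrm := (cFRM hd v p ζ ⟨hp, hp1, hR⟩).2.2
  have hins : rest z σ = (Fin.cons y ζ : Fin (m + 1) → K) ∘ i0.cycleRange := by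
    rw [Fin.cons_comp_cycleRange]
    exact (Fin.insertNth_self_removeNth i0 (rest z σ)).symm
  have hperm : dlogs (rest z σ) =
      Equiv.Perm.sign i0.cycleRange • dlogs (Fin.cons y ζ : Fin (m + 1) → K) := by
    have h1 := (exteriorPower.ιMulti K (m + 1) (M := Ω[K⁄ℂ])).map_perm
      (fun i => dlog ((Fin.cons y ζ : Fin (m + 1) → K) i)) i0.cycleRange
    unfold dlogs
    rw [← h1]
    congr 1
    funext i
    show dlog (rest z σ i) = dlog ((Fin.cons y ζ : Fin (m + 1) → K) (i0.cycleRange i))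
    rw [hins]
    rfl
  rw [hperm, hform]
  rcases Int.units_eq_one_or (Equiv.Perm.sign i0.cycleRange) with h1 | h1
  · rw [h1, one_smul, hfrm g hg, hg1]
  · have h2 : -(g • frameForm p ζ) = (-g) • frameForm p ζ := (neg_smul g _).symm
    rw [h1, Units.neg_smul, one_smul, h2, hfrm _ (neg_ne_zero.2 hg), ord_neg, hg1]

end

end RMM
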