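import Pool.Agent.RMM.StE
import Pool.Agent.MMCI.Tools
import Pool.Agent.MldGeo.Ord
import Pool.Agent.MMCI.K_EQ0c

/-!
# AE0c: weight zero, all but one of the functions `rest` have independent residues
-/

set_option autoImplicit false

namespace RMM

open MldGeo MldGeo.DivVal MMCI

noncomputable section

/-- Functions with algebraically independent residues have order zero. -/
theorem AE0c.ord_zero {e m : ℕ} {K : Type} [Field K] [Algebra ℂ K] (v : DivVal e K)
    (a : Fin m → K) (h : ResIndep v a) (l : Fin m) : v.ord (a l) = 0 := by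
  have h1 := (h (MvPolynomial.X l) (MvPolynomial.X_ne_zero l)).2
  rwa [MvPolynomial.aeval_X] at h1

theorem t_AE0c : M_AE0c := by
  intro hABAS hAELI hIND hFRD m N r K _ _ x G hR v ψ σ hU hw u ρ hu hres
  obtain ⟨t, ht0, ht1⟩ := v.unif
  have hFr : Frame v t u := ⟨ht0, ht1, hres⟩
  have hu0 : ∀ l, u l ≠ 0 := fun l => (hu l).ne
  have hu1 : ∀ l, v.ord (u l) = 0 := fun l => AE0c.ord_zero v u hres l
  have hz : ∀ i, rest x σ i ≠ 0 ∧ v.ord (rest x σ i) = 0 := by
    intro i
    refine ⟨hR.ne _, ?_⟩
    have h1 := congrFun hw (σ (Sum.inr i))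
    exact h1
  obtain ⟨c, hc0, hc1, hc2, -, -⟩ := hFRD hR.dim v t u hFr (rest x σ) fun i => (hz i).1
  have hel := fun l => hAELI x G hR v ψ σ hU (u l) (ρ l) (hu l)
  choose b hb0 hb1 using hel
  -- coefficients
  obtain ⟨hli, -⟩ := cTBAS hR.dim (Fin.cons t u) ((cFRA v).2 t u hFr)
  have hcoef : ∀ l j : Fin m, ∑ i, b l i * c i j.succ = if l = j then (u l)⁻¹ else 0 := by
    intro l j
    have h1 : ∑ k : Fin (m + 1), (Fin.cons (∑ i, b l i * (c i 0 * t⁻¹))
        (fun j : Fin m => ∑ i, b l i * c i j.succ - if l = j then (u l)⁻¹ else 0) :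
          Fin (m + 1) → K) k •
        KaehlerDifferential.D ℂ K ((Fin.cons t u : Fin (m + 1) → K) k) = 0 := by
      rw [Fin.sum_univ_succ]
      simp only [Fin.cons_zero, Fin.cons_succ, sub_smul, Finset.sum_sub_distrib, ite_smul,
        zero_smul, Finset.sum_ite_eq, Finset.mem_univ, if_true]
      have h2 : dlog (u l) = ∑ i, b l i • dlog (rest x σ i) := hb1 l
      have h3 : ∑ i, b l i • dlog (rest x σ i) =
          (∑ i, b l i * (c i 0 * t⁻¹)) • KaehlerDifferential.D ℂ K t +
          ∑ j : Fin m, (∑ i, b l i * c i j.succ) • KaehlerDifferential.D ℂ K (u j) := by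
        have h4 : ∀ i, b l i • dlog (rest x σ i) =
            (b l i * (c i 0 * t⁻¹)) • KaehlerDifferential.D ℂ K t +
            ∑ j : Fin m, (b l i * c i j.succ) • KaehlerDifferential.D ℂ K (u j) := by
          intro i
          rw [hc2 i, smul_add, Finset.smul_sum]
          simp only [dlog, smul_smul]
        simp only [h4, Finset.sum_add_distrib, Finset.sum_smul]
        congr 1
        rw [Finset.sum_comm]
      have h5 : dlog (u l) = (u l)⁻¹ • KaehlerDifferential.D ℂ K (u l) := rfl
      rw [← h5, h2, h3]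
      abel
    have h6 := Fintype.linearIndependent_iff.1 hli _ h1 j.succ
    rw [Fin.cons_succ] at h6
    exact sub_eq_zero.1 h6
  obtain ⟨i0, hi0⟩ := EQ0c.key v (fun i j => c i j.succ) (fun l i => u l * b l i)
    (fun i j => hc0 i j.succ)
    (fun l i => Ge.mul_left (Or.inr (hu1 l).ge) (hb0 l i)) (by
      intro l j
      have h1 : ∑ i, u l * b l i * c i j.succ = u l * ∑ i, b l i * c i j.succ := by
        rw [Finset.mul_sum]
        exact Finset.sum_congr rfl fun i _ => mul_assoc _ _ _
      rw [h1, hcoef]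
      by_cases h : l = j
      · rw [if_pos h, if_pos h, mul_inv_cancel₀ (hu0 l)]
      · rw [if_neg h, if_neg h, mul_zero])
  refine ⟨i0, hIND hR.dim v t u hFr _ (fun l => c (i0.succAbove l)) (fun l => hz _)
    (fun l j => hc0 _ j) (fun l => hc2 _) hi0⟩

end

end RMM
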