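import Pool.Agent.RMM.StE
import Pool.Agent.MMCI.Tools
import Pool.Agent.MldGeo.Ord
import Pool.Agent.MMCI.K_EQ1b

/-!
# AE1b: if the residues of `m` functions of order zero, whose logarithmic differentials are
combinations of the `dlog z_c` with coefficients in the valuation ring, are independent, then the form
`dlogs (rest z σ)` has order zero with respect to logarithmic forms
-/

namespace RMM

open MldGeo MMCI

noncomputable section

open MMCI.EQ1b in
theorem t_AE1b : M_AE1b := by
  intro hBAS hELI _ m N r K _ _ z G hR v ψ σ hU a0 ρ0 aa ρ hE0 hw hE hres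
  classical
  have hne := hR.ne
  have htr : Algebra.trdeg ℂ K = ((m + 1 : ℕ) : Cardinal) := hR.dim
  obtain ⟨hai, hdne, -⟩ := hBAS z G hR σ hU.ne
  obtain ⟨t, ht0, ht1⟩ := v.unif
  -- the frame
  let u : Fin m → K := aa
  have hF : Frame v t u := ⟨ht0, ht1, hres⟩
  have hu : ∀ l, u l ≠ 0 ∧ v.ord (u l) = 0 := fun l => by
    have h := hres (MvPolynomial.X l) (MvPolynomial.X_ne_zero l)
    rwa [MvPolynomial.aeval_X] at h
  have ha0ne : a0 ≠ 0 := hE0.ne
  -- the functions
  let a : Fin (m + 1) → K := Fin.cons a0 aa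
  have ha0 : a 0 = a0 := rfl
  have has : ∀ l : Fin m, a l.succ = u l := fun _ => rfl
  have hane : ∀ i, a i ≠ 0 := by
    intro i
    refine Fin.cases ?_ (fun l => ?_) i
    · exact ha0ne
    · exact (hu l).1
  -- elimination
  have hex : ∀ i, ∃ b : Fin (m + 1) → K, (∀ l, v.Ge 0 (b l)) ∧
      dlog (a i) = ∑ l, b l • dlog (rest z σ l) := by
    intro i
    refine Fin.cases ?_ (fun l => ?_) i
    · exact hELI z G hR v ψ σ hU a0 ρ0 hE0
    · exact hELI z G hR v ψ σ hU (aa l) (ρ l) (hE l)
  choose b hb0 hb using hex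
  -- the coefficients of the first function
  obtain ⟨c0, hc0, hc01, hc0e⟩ := cCOE htr v t u hF a0 ha0ne
  have hordj : ((v.ord a0 : ℤ) : K) ≠ 0 := by
    have hch : CharZero K := charZero_of_injective_algebraMap (algebraMap ℂ K).injective
    exact_mod_cast hw
  have hc00 : c0 0 ≠ 0 ∧ v.ord (c0 0) = 0 := by
    have h1 := DivVal.ord_eq_of_sub (v := v) (a := ((v.ord a0 : ℤ) : K)) (b := c0 0) hordj
      (by rw [DivVal.ord_intCast, zero_add]; exact DivVal.Ge.sub_comm hc01)
    rwa [DivVal.ord_intCast] at h1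
  -- the two bases
  obtain ⟨e, he0, hes⟩ := frame_basis htr v t u hF
  obtain ⟨e', he'⟩ := dlog_basis htr (rest z σ) hai (fun i => hne _)
  -- in the frame
  let c : Matrix (Fin (m + 1)) (Fin (m + 1)) K :=
    Matrix.of (Fin.cons c0 fun l => Pi.single l.succ (u l)⁻¹)
  have hcs : ∀ (l : Fin m) j, c l.succ j = (Pi.single l.succ (u l)⁻¹ : Fin (m + 1) → K) j := by
    intro l j
    rfl
  have hca : ∀ i, dlog (a i) = ∑ j, c i j • e j := by
    intro i
    refine Fin.cases ?_ (fun l => ?_) i
    · rw [ha0, hc0e, Fin.sum_univ_succ, he0]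
      congr 1
      refine Finset.sum_congr rfl fun j _ => ?_
      rw [hes]
      rfl
    · rw [Finset.sum_eq_single l.succ]
      · rw [hcs, Pi.single_eq_same, hes]
        rfl
      · intro j _ hj
        rw [hcs, Pi.single_eq_of_ne hj, zero_smul]
      · intro h
        exact absurd (Finset.mem_univ _) h
  have hdet : c.det = c0 0 * ∏ l, (u l)⁻¹ := by
    have htri : c.BlockTriangular id := by
      intro i j hij
      refine Fin.cases (motive := fun i => j < i → c i j = 0) ?_ (fun l => ?_) i hij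
      · intro h
        exact absurd h (Fin.not_lt_zero j)
      · intro h
        rw [hcs, Pi.single_eq_of_ne (ne_of_lt h)]
    rw [Matrix.det_of_isUpperTriangular htri, Fin.prod_univ_succ]
    congr 1
    refine Finset.prod_congr rfl fun l _ => ?_
    rw [hcs, Pi.single_eq_same]
  have hprod : (∏ l, (u l)⁻¹) ≠ 0 := Finset.prod_ne_zero_iff.2 fun l _ => inv_ne_zero (hu l).1
  have hdet0 : c.det ≠ 0 := by
    rw [hdet]
    exact mul_ne_zero hc00.1 hprod
  have hdet1 : v.ord c.det = 0 := by
    rw [hdet, v.ord_mul _ _ hc00.1 hprod, hc00.2,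
      DivVal.ord_prod v _ _ fun l _ => inv_ne_zero (hu l).1, zero_add]
    refine Finset.sum_eq_zero fun l _ => ?_
    rw [DivVal.ord_inv, (hu l).2, neg_zero]
  have hfr : frameForm t u = exteriorPower.ιMulti K (m + 1) (e : Fin (m + 1) → Ω[K⁄ℂ]) := by
    unfold frameForm
    congr 1
    funext i
    refine Fin.cases ?_ (fun j => ?_) i
    · rw [Fin.cons_zero, he0]
    · rw [Fin.cons_succ, hes]
  have h1 : dlogs a = c.det • frameForm t u := by
    rw [hfr]
    exact iota_mat e c _ hca
  obtain ⟨hfne, -, hford⟩ := cFRM htr v t u hF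
  have h2 : v.logOrd (dlogs a) = 0 := by
    rw [h1, hford _ hdet0, hdet1]
  have h3 : dlogs a ≠ 0 := by
    rw [h1]
    exact smul_ne_zero hdet0 hfne
  -- in the other basis
  have h4 : dlogs a = (Matrix.of b).det • dlogs (rest z σ) := by
    have h5 : dlogs (rest z σ) = exteriorPower.ιMulti K (m + 1) (e' : Fin (m + 1) → Ω[K⁄ℂ]) := by
      unfold dlogs
      congr 1
      funext i
      exact (he' i).symm
    rw [h5]
    refine iota_mat e' (Matrix.of b) _ fun i => ?_
    show dlog (a i) = _
    rw [hb i]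
    refine Finset.sum_congr rfl fun j _ => ?_
    rw [he']
    rfl
  have h5 : (Matrix.of b).det ≠ 0 := by
    intro h
    rw [h, zero_smul] at h4
    exact h3 h4
  have h6 : 0 ≤ v.ord (Matrix.of b).det := (DivVal.Ge.det (v := v) fun i j => hb0 i j).le h5
  have h7 := cFDL htr v (rest z σ) (Nat.succ_pos m) (fun i => hne _) hdne
  have h8 := cFSM htr v _ _ (Nat.succ_pos m) h5 hdne
  rw [← h4, h2] at h8
  omega

end

end RMM
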