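import Pool.Agent.RMM.StE
import Pool.Agent.MMCI.K_ELI

/-!
# Relative minimal models: module AELI, elimination
-/

set_option autoImplicit false

namespace RMM

open MldGeo MldGeo.DivVal MMCI

noncomputable section

theorem t_AELI : S_AELI := by
  intro e N r K _ _ z G0 hR v ψ σ hU a ρ hE
  obtain ⟨hlow, hne, hord⟩ := hU
  set G : Matrix (Fin r) (Fin r) K := Matrix.of fun i j : Fin r => G0 i (σ (Sum.inl j)) with hG
  have hdet : G.det = gminor G0 σ := rfl
  set g : Fin r → Fin e → K := fun i l => G0 i (σ (Sum.inr l)) with hg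
  have hrel : ∀ i, ∑ a, G i a • dlog (z (σ (Sum.inl a))) +
      ∑ l, g i l • dlog (rest z σ l) = 0 := by
    intro i
    have h := hR.rel i
    rw [ELI.sum_sigma σ] at h
    exact h
  have hel := ELI.elim G g (fun a => dlog (z (σ (Sum.inl a)))) (fun l => dlog (rest z σ l)) hrel
  have hge : ∀ a l, v.Ge (∑ i, ψ i) (G.updateCol a fun i => g i l).det := by
    intro a l
    rw [← Matrix.det_transpose]
    refine Ge.det_cols (fun i => ψ i) fun j i => ?_
    rw [Matrix.transpose_apply, Matrix.updateCol_apply]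
    split_ifs
    · exact hlow i _
    · exact hlow i _
  refine ⟨fun l => ρ (σ (Sum.inr l)) + ∑ a, ρ (σ (Sum.inl a)) *
    (G.det⁻¹ * (-(G.updateCol a fun i => g i l).det)), fun l => ?_, ?_⟩
  · refine Ge.add (hE.low _) (Ge.sum _ _ fun a _ => Ge.mul_left (hE.low _) ?_)
    have h1 := Ge.mul (Ge.inv' v G.det) (Ge.neg (hge a l))
    rw [hdet, hord, neg_add_cancel] at h1
    exact h1
  · rw [hE.eq, ELI.sum_sigma σ]
    have h2 : ∀ a, ρ (σ (Sum.inl a)) • dlog (z (σ (Sum.inl a))) =
        ∑ l, (ρ (σ (Sum.inl a)) * (G.det⁻¹ * (-(G.updateCol a fun i => g i l).det))) •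
          dlog (rest z σ l) := by
      intro a
      have h3 : dlog (z (σ (Sum.inl a))) = G.det⁻¹ • (G.det • dlog (z (σ (Sum.inl a)))) := by
        rw [smul_smul, inv_mul_cancel₀ (by rw [hdet]; exact hne), one_smul]
      rw [h3, hel a, Finset.smul_sum, Finset.smul_sum]
      refine Finset.sum_congr rfl fun l _ => ?_
      rw [smul_smul, smul_smul, mul_assoc]
    rw [Finset.sum_congr rfl fun a _ => h2 a, Finset.sum_comm, add_comm,
      ← Finset.sum_add_distrib]
    refine Finset.sum_congr rfl fun l _ => ?_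
    rw [add_smul, Finset.sum_smul]
    rfl

end

end RMM
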