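import Pool.Agent.RMM.StE
import Pool.Agent.MldGeo.Ord

/-!
# Module AUNT: a function of least order is a uniformizer
-/

set_option autoImplicit false

namespace RMM

open MldGeo MldGeo.DivVal MMCI

noncomputable section

/-- AUNT: a monomial `p` of least order is a uniformizer. -/
theorem t_AUNT : M_AUNT := by
  classical
  intro hMON hABAS hASOL hDK hLOB m N r K _ _ z G hrel v ψ σ hσ B0 w0 q y a hG0 hwq hpB0 hpord
    hy ha hres hlast
  obtain ⟨m1, m2, m3, m4, m5⟩ := hMON (e := m + 1) z hrel.ne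
  obtain ⟨b1, b2, b3⟩ := hABAS z G hrel σ hσ.ne
  set p := mon z q with hp
  have hp0 : p ≠ 0 := m1 q
  obtain ⟨B, hB, hB0B, hBge, hBinv, hBD⟩ := hLOB v B0 hG0.ge
  set h : Fin r → K := fun i => -(p⁻¹ * ∑ c, (w0 c : K) * G i c) with hh
  obtain ⟨δ, hδB, hδr, hδ⟩ := hASOL G v ψ σ hσ B y h hBinv (fun i =>
    ⟨(hy i).1, (hy i).2.1, fun c => hB0B ((hy i).2.2.1 c), hB0B (hy i).2.2.2⟩)
  obtain ⟨D, hD⟩ := b3 (fun c => p⁻¹ * (w0 c : K) + δ c) (by
    intro i
    have h1 : ∀ c, (p⁻¹ * (w0 c : K) + δ c) * G i c =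
        p⁻¹ * ((w0 c : K) * G i c) + δ c * G i c := by
      intro c; ring
    rw [Finset.sum_congr rfl fun c _ => h1 c, Finset.sum_add_distrib, hδ i, ← Finset.mul_sum]
    simp only [hh]
    ring)
  have hDB0 : ∀ b ∈ B0, D b ∈ B := hlast B D δ hB0B hδB hD
  -- the derivative of `p`
  have hDp : D p = 1 + p * ∑ c, δ c * (q c : K) := by
    have h1 := congrArg D.liftKaehlerDifferential (m3 q)
    rw [dlog, map_smul, map_sum, Derivation.liftKaehlerDifferential_comp_D, ← hp] at h1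
    have h2 : ∀ c, D.liftKaehlerDifferential ((q c : K) • dlog (z c)) =
        p⁻¹ * ((w0 c : K) * (q c : K)) + δ c * (q c : K) := by
      intro c
      rw [dlog, map_smul, map_smul, Derivation.liftKaehlerDifferential_comp_D, hD c]
      have hzc := hrel.ne c
      simp only [smul_eq_mul]
      field_simp
    have h3 : ∑ c, (w0 c : K) * (q c : K) = 1 := by
      have h4 : ((pair w0 q : ℤ) : K) = 1 := by rw [hwq, Int.cast_one]
      rw [pair] at h4
      push_cast at h4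
      exact h4
    rw [Finset.sum_congr rfl fun c _ => h2 c, Finset.sum_add_distrib, ← Finset.mul_sum, h3,
      smul_eq_mul, inv_mul_eq_iff_eq_mul₀ hp0] at h1
    rw [h1, mul_one, mul_add, mul_inv_cancel₀ hp0]
  have hsG : v.Ge 0 (∑ c, δ c * (q c : K)) :=
    hBge _ (Subalgebra.sum_mem _ fun c _ => B.mul_mem (hδB c) (intCast_mem B _))
  have hpG : v.Ge 1 (p * ∑ c, δ c * (q c : K)) := by
    refine Ge.mul_right (Ge.of_le ?_) hsG
    omega
  have h1p : v.Ge (v.ord (1 : K) + 1) (p * ∑ c, δ c * (q c : K)) := by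
    rw [ord_one, zero_add]; exact hpG
  have hord := ord_add_eq_of_lt (v := v) (one_ne_zero (α := K)) h1p
  rw [← hDp] at hord
  have hfrac : ∀ a : K, ∃ p ∈ B, ∃ q ∈ B, q ≠ 0 ∧ a * q = p := by
    intro a
    obtain ⟨p1, hp1, q1, hq1, hq1', e1⟩ := hG0.frac a
    exact ⟨p1, hB0B hp1, q1, hB0B hq1, hq1', e1⟩
  refine hDK hrel.dim v B hBge hfrac D (hBD D hDB0) p (hB0B hpB0) hp0 hpord hord.1 ?_ a
    (fun l => hB0B (ha l)) hres
  rw [hord.2, ord_one]

end

end RMM
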