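import Pool.Agent.RMM.StC
import Pool.Agent.MMCI.LOV
import Pool.Agent.MMCI.CRT
import Pool.Agent.MMCI.FRC
import Pool.Agent.MldGeo.Ord

/-!
# Relative minimal models, module CHC: change of the chart for prime divisors
-/

set_option autoImplicit false

namespace RMM

open MldGeo MMCI

noncomputable section

namespace CHC

variable {e : ℕ} {K : Type} [Field K] [Algebra ℂ K]

/-- the centre of a valuation which is nonnegative on the ring -/
def ctr (R : Subalgebra ℂ K) (v : DivVal e K) (h : ∀ a ∈ R, 0 ≤ v.ord a) : Ideal R where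
  carrier := {c | c = 0 ∨ 0 < v.ord (c : K)}
  zero_mem' := Or.inl rfl
  add_mem' := by
    rintro a b ha hb
    change a + b = 0 ∨ 0 < v.ord ((a + b : R) : K)
    by_cases hab : a + b = 0
    · exact Or.inl hab
    · refine Or.inr ?_
      have hab' : (a : K) + (b : K) ≠ 0 := fun h' => hab (Subtype.ext h')
      rcases ha with rfl | ha
      · rcases hb with rfl | hb
        · exact absurd (add_zero _) hab
        · rwa [zero_add]
      · rcases hb with rfl | hb
        · rwa [add_zero]
        · by_cases ha0 : (a : K) = 0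
          · have : a = 0 := Subtype.ext ha0
            rw [this, zero_add]
            exact hb
          · by_cases hb0 : (b : K) = 0
            · have : b = 0 := Subtype.ext hb0
              rw [this, add_zero]
              exact ha
            · exact lt_of_lt_of_le (lt_min ha hb) (v.ord_add _ _ ha0 hb0 hab')
  smul_mem' := by
    rintro c a ha
    change c * a = 0 ∨ 0 < v.ord ((c * a : R) : K)
    by_cases hca : c * a = 0
    · exact Or.inl hca
    · refine Or.inr ?_
      have hc0 : (c : K) ≠ 0 := by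
        intro h'
        apply hca
        have : c = 0 := Subtype.ext h'
        rw [this, zero_mul]
      have ha0 : (a : K) ≠ 0 := by
        intro h'
        apply hca
        have : a = 0 := Subtype.ext h'
        rw [this, mul_zero]
      have h1 : v.ord ((c * a : R) : K) = v.ord (c : K) + v.ord (a : K) :=
        v.ord_mul _ _ hc0 ha0
      rw [h1]
      rcases ha with rfl | ha
      · exact absurd rfl ha0
      · have := h c c.2
        omega

theorem mem_ctr {R : Subalgebra ℂ K} {v : DivVal e K} {h : ∀ a ∈ R, 0 ≤ v.ord a} (c : R) :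
    c ∈ ctr R v h ↔ c = 0 ∨ 0 < v.ord (c : K) := Iff.rfl

theorem ctr_hasCentre (R : Subalgebra ℂ K) (v : DivVal e K) (h : ∀ a ∈ R, 0 ≤ v.ord a) :
    HasCentre R v (ctr R v h) := by
  refine ⟨⟨?_, ?_⟩, fun a => h a a.2, fun a => Iff.rfl⟩
  · intro h'
    have h1 : (1 : R) ∈ ctr R v h := h' ▸ Submodule.mem_top
    rcases h1 with h1 | h1
    · exact one_ne_zero h1
    · have h2 : v.ord ((1 : R) : K) = 0 := v.ord_one
      omega
  · intro a b hab
    rcases hab with hab | hab
    · rcases mul_eq_zero.1 hab with h1 | h1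
      · exact Or.inl (Or.inl h1)
      · exact Or.inr (Or.inl h1)
    · by_cases ha0 : (a : K) = 0
      · exact Or.inl (Or.inl (Subtype.ext ha0))
      · by_cases hb0 : (b : K) = 0
        · exact Or.inr (Or.inl (Subtype.ext hb0))
        · have h1 : v.ord ((a * b : R) : K) = v.ord (a : K) + v.ord (b : K) :=
            v.ord_mul _ _ ha0 hb0
          rw [h1] at hab
          have h2 := h a a.2
          have h3 := h b b.2
          by_cases h4 : 0 < v.ord (a : K)
          · exact Or.inl (Or.inr h4)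
          · exact Or.inr (Or.inr (by omega))

end CHC

theorem t_CHC : S_CHC := by
  intro F _ _ b B htr hint j j' v P hP hz
  obtain ⟨hP1, hP2, hP3, hP4⟩ := hP
  have hsj : B.s j ≠ 0 := B.ne j
  have hsj' : B.s j' ≠ 0 := B.ne j'
  have hρ : B.s j' / B.s j ≠ 0 := div_ne_zero hsj' hsj
  have hρ' : B.s j / B.s j' ≠ 0 := div_ne_zero hsj hsj'
  have hz' : v.ord (B.s j / B.s j') = 0 := by
    have h1 : B.s j / B.s j' = (B.s j' / B.s j)⁻¹ := (inv_div _ _).symm
    rw [h1, DivVal.ord_inv, hz, neg_zero]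
  -- the valuation is nonnegative on the ring of the second chart
  have hnn : ∀ c ∈ B.ring j', 0 ≤ v.ord c := by
    intro c hc
    by_cases hc0 : c = 0
    · rw [hc0, v.ord_zero]
    obtain ⟨d, hd⟩ := t_LOV B.s B.ne j' j c hc
    have h1 := hP3 ⟨_, hd⟩
    change 0 ≤ v.ord (c * (B.s j' / B.s j) ^ d) at h1
    rw [v.ord_mul _ _ hc0 (pow_ne_zero d hρ), DivVal.ord_pow, hz, mul_zero, add_zero] at h1
    exact h1
  have hC' := CHC.ctr_hasCentre (B.ring j') v hnn
  refine ⟨CHC.ctr (B.ring j') v hnn, hC'.1, ?_, hC'.2.1, hC'.2.2⟩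
  have hC : HasCentre (B.ring j) v P := ⟨hP1, hP3, hP4⟩
  have hk := (t_CRT (B.ring j) (t_FRC B j).1 (t_FRC B j).2 (hint j) htr v P hC).1 hP2
  refine (t_CRT (B.ring j') (t_FRC B j').1 (t_FRC B j').2 (hint j') htr v _ hC').2 ?_
  intro a ha
  obtain ⟨r, q, hq, hrq⟩ := hk a ha
  have hq0 : (q : F) ≠ 0 := by
    intro h'
    exact hq ((hP4 q).2 (Or.inl (Subtype.ext h')))
  have hqo : v.ord (q : F) = 0 := by
    have h1 := hP3 q
    have h2 : ¬ 0 < v.ord (q : F) := fun h' => hq ((hP4 q).2 (Or.inr h'))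
    omega
  obtain ⟨d1, hd1⟩ := t_LOV B.s B.ne j j' (r : F) r.2
  obtain ⟨d2, hd2⟩ := t_LOV B.s B.ne j j' (q : F) q.2
  have hc : B.s j / B.s j' ∈ affRing B.s j' := Algebra.subset_adjoin ⟨j, rfl⟩
  have h1 := LOV.mono _ _ hc _ _ _ (le_max_left d1 d2) hd1
  have h2 := LOV.mono _ _ hc _ _ _ (le_max_right d1 d2) hd2
  refine ⟨⟨_, h1⟩, ⟨_, h2⟩, ?_, ?_⟩
  · rintro (h3 | h3)
    · have h4 : (q : F) * (B.s j / B.s j') ^ max d1 d2 = 0 := congrArg Subtype.val h3
      exact (mul_ne_zero hq0 (pow_ne_zero _ hρ')) h4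
    · change 0 < v.ord ((q : F) * (B.s j / B.s j') ^ max d1 d2) at h3
      rw [v.ord_mul _ _ hq0 (pow_ne_zero _ hρ'), DivVal.ord_pow, hz', hqo, mul_zero, add_zero] at h3
      exact lt_irrefl _ h3
  · change a * ((q : F) * (B.s j / B.s j') ^ max d1 d2) =
      (r : F) * (B.s j / B.s j') ^ max d1 d2
    rw [← mul_assoc, hrq]

end

end RMM
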