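import Pool.Agent.RMM.StC
import Pool.Agent.MMCI.FRC
import Pool.Agent.MldGeo.DIV

/-!
# Relative minimal models: LOP

A function which is regular along all prime divisors through the prime ideal `Q` is regular at `Q`.
(As `MldGeo/LOC.lean`, for a prime ideal instead of the maximal ideal.)
-/

set_option autoImplicit false

namespace RMM

open MldGeo MMCI

namespace LOP

open IsLocalRing

variable {n : ℕ} (X : Germ n) {Q : Ideal X.R} (hQ : Q.IsPrime)

/-- The denominators of `h` in the local ring at `Q`. -/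
def den (h : X.K) : Ideal X.R where
  carrier := {s | ∃ t r : X.R, t ∉ Q ∧ h * (s : X.K) * (t : X.K) = r}
  zero_mem' := ⟨1, 0, (Ideal.ne_top_iff_one _).1 hQ.ne_top, by simp⟩
  add_mem' := by
    rintro s s' ⟨t, r, ht, e⟩ ⟨t', r', ht', e'⟩
    refine ⟨t * t', r * t' + r' * t, fun hm => ?_, ?_⟩
    · rcases hQ.mem_or_mem hm with h | h
      exacts [ht h, ht' h]
    · push_cast
      rw [← e, ← e']
      ring
  smul_mem' := by
    rintro c s ⟨t, r, ht, e⟩
    refine ⟨t, c * r, ht, ?_⟩
    rw [smul_eq_mul]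
    push_cast
    rw [← e]
    ring

theorem mem_den (h : X.K) (s : X.R) :
    s ∈ den X hQ h ↔ ∃ t r : X.R, t ∉ Q ∧ h * (s : X.K) * (t : X.K) = r := Iff.rfl

/-- A multiple of `a` the denominators of which form a prime ideal. -/
theorem exists_prime (a : X.K) (ha : den X hQ a ≤ Q) :
    ∃ d : X.R, (den X hQ (a * d)).IsPrime ∧ den X hQ (a * d) ≤ Q := by
  have hne : {Q' : Ideal X.R | Q' ≤ Q ∧ ∃ d : X.R, Q' = den X hQ (a * d)}.Nonempty := by
    refine ⟨den X hQ a, ha, 1, ?_⟩
    rw [show ((1 : X.R) : X.K) = 1 from rfl, mul_one]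
  obtain ⟨P, ⟨hPm, d, rfl⟩, hmax⟩ :=
    set_has_maximal_iff_noetherian.2 (inferInstance : IsNoetherian X.R X.R) _ hne
  refine ⟨d, ⟨fun h => ?_, ?_⟩, hPm⟩
  · rw [h] at hPm
    exact hQ.ne_top (top_le_iff.1 hPm)
  · intro x y hxy
    by_contra hcon
    push Not at hcon
    obtain ⟨hx, hy⟩ := hcon
    have hle : den X hQ (a * d) ≤ den X hQ (a * (d * x : X.R)) := by
      rintro s ⟨t, r, ht, e⟩
      refine ⟨t, r * x, ht, ?_⟩
      push_cast
      rw [← e]
      ring
    have hy' : y ∈ den X hQ (a * (d * x : X.R)) := by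
      obtain ⟨t, r, ht, e⟩ := hxy
      refine ⟨t, r, ht, ?_⟩
      rw [← e]
      push_cast
      ring
    have hlt : den X hQ (a * d) < den X hQ (a * (d * x : X.R)) := by
      refine lt_of_le_of_ne hle fun h => hy ?_
      rw [h]
      exact hy'
    have hnm : ¬ den X hQ (a * (d * x : X.R)) ≤ Q := fun h => hmax _ ⟨h, _, rfl⟩ hlt
    obtain ⟨s, ⟨t, r, ht, e⟩, hs⟩ := Set.not_subset.1 hnm
    refine hx ⟨s * t, r, fun h => ?_, ?_⟩
    · rcases hQ.mem_or_mem h with h | h
      exacts [hs h, ht h]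
    · rw [← e]
      push_cast
      ring

/-- The prime ideal of denominators has height one. -/
theorem height_one (h : X.K) (hm : den X hQ h ≤ Q) (hp : (den X hQ h).IsPrime) :
    (den X hQ h).height = 1 := by
  set P := den X hQ h with hP
  have h1m : (1 : X.R) ∉ Q := (Ideal.ne_top_iff_one _).1 hQ.ne_top
  -- `h` is not in the local ring
  have hno : ∀ x : DIV.O X P, (x : X.K) ≠ h := by
    rintro ⟨x, r, s, hs, rfl⟩ hx
    have h0 : (s : X.K) ≠ 0 := by
      intro h0
      apply hs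
      rw [show s = 0 from Subtype.ext h0]
      exact P.zero_mem
    refine hs ⟨1, r, h1m, ?_⟩
    have hx' : (r : X.K) * (s : X.K)⁻¹ = h := hx
    rw [← hx', mul_assoc ((r : X.K)), inv_mul_cancel₀ h0]
    simp
  -- a nonzero element of `P`
  obtain ⟨r0, hr0, s0, hs0, h0, e0⟩ := X.frac h
  have hs0P : (⟨s0, hs0⟩ : X.R) ∈ P := by
    refine ⟨1, ⟨r0, hr0⟩, h1m, ?_⟩
    show h * s0 * 1 = r0
    rw [e0, mul_one]
  have hPne : P ≠ ⊥ := by
    intro hb
    rw [hb, Ideal.mem_bot] at hs0P
    exact h0 (congrArg Subtype.val hs0P)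
  -- multiplication by `h` maps the maximal ideal to the local ring
  have hmul : ∀ x : DIV.O X P, x ∈ maximalIdeal (DIV.O X P) →
      ∃ y : DIV.O X P, (y : X.K) = h * x := by
    intro x hx
    obtain ⟨⟨p, u⟩, hpu⟩ := IsLocalization.surj (M := P.primeCompl) x
    have hpu' : x * algebraMap X.R (DIV.O X P) (u : X.R) = algebraMap X.R (DIV.O X P) p := hpu
    have hpP : p ∈ P := by
      rw [← DIV.mem_max X P p, ← hpu']
      exact Ideal.mul_mem_right _ _ hx
    obtain ⟨t, r, ht, e⟩ := hpP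
    have hu0 : ((u : X.R) : X.K) ≠ 0 := by
      intro hu0
      apply u.2
      rw [show (u : X.R) = 0 from Subtype.ext hu0]
      exact P.zero_mem
    have ht0 : (t : X.K) ≠ 0 := by
      intro ht0
      apply ht
      rw [show t = 0 from Subtype.ext ht0]
      exact Q.zero_mem
    have htu : t * (u : X.R) ∈ P.primeCompl := by
      intro hc
      rcases hp.mem_or_mem hc with hc | hc
      · exact ht (hm hc)
      · exact u.2 hc
    refine ⟨⟨h * x, r, t * (u : X.R), htu, ?_⟩, rfl⟩
    have hxu : (x : X.K) * ((u : X.R) : X.K) = (p : X.K) := congrArg Subtype.val hpu'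
    have htu0 : algebraMap X.R X.K (t * (u : X.R)) ≠ 0 := by
      rw [map_mul]
      exact mul_ne_zero ht0 hu0
    show h * (x : X.K) = algebraMap X.R X.K r * (algebraMap X.R X.K (t * (u : X.R)))⁻¹
    rw [eq_mul_inv_iff_mul_eq₀ htu0, map_mul]
    show h * (x : X.K) * ((t : X.K) * ((u : X.R) : X.K)) = (r : X.K)
    rw [← e, ← hxu]
    ring
  have hMne : maximalIdeal (DIV.O X P) ≠ ⊥ := by
    intro hb
    obtain ⟨s, hs, hs'⟩ := Submodule.exists_mem_ne_zero_of_ne_bot hPne
    have h2 := (DIV.mem_max X P s).2 hs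
    rw [hb, Ideal.mem_bot] at h2
    have h3 : ((algebraMap X.R (DIV.O X P) s : DIV.O X P) : X.K) = 0 := by
      rw [h2]
      rfl
    exact hs' (Subtype.ext h3)
  -- Krull
  have hkey : ∃ p : DIV.O X P, p ∈ maximalIdeal (DIV.O X P) ∧ h * (p : X.K) = 1 := by
    by_contra hcon
    push Not at hcon
    have hstab : ∀ x : DIV.O X P, x ∈ maximalIdeal (DIV.O X P) →
        ∃ y ∈ maximalIdeal (DIV.O X P), (y : X.K) = h * x := by
      intro x hx
      obtain ⟨y, hy⟩ := hmul x hx
      refine ⟨y, ?_, hy⟩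
      by_contra hyu
      rw [mem_maximalIdeal, mem_nonunits_iff, not_not] at hyu
      obtain ⟨z, hz⟩ := hyu.exists_right_inv
      refine hcon (x * z) (Ideal.mul_mem_right _ _ hx) ?_
      have hz' : (y : X.K) * (z : X.K) = 1 := congrArg Subtype.val hz
      rw [← hz', hy]
      show h * ((x : X.K) * (z : X.K)) = _
      ring
    have hint : IsIntegral (DIV.O X P) h := by
      refine isIntegral_of_smul_mem_submodule
        (Submodule.map (Algebra.linearMap (DIV.O X P) X.K) (maximalIdeal (DIV.O X P))) ?_ ?_ h ?_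
      · intro hb
        obtain ⟨s, hs, hs'⟩ := Submodule.exists_mem_ne_zero_of_ne_bot hMne
        have h3 : (s : X.K) ∈ Submodule.map (Algebra.linearMap (DIV.O X P) X.K)
          (maximalIdeal (DIV.O X P)) := ⟨s, hs, rfl⟩
        rw [hb, Submodule.mem_bot] at h3
        exact hs' (Subtype.ext h3)
      · exact (IsNoetherian.noetherian (maximalIdeal (DIV.O X P))).map _
      · rintro _ ⟨x, hx, rfl⟩
        obtain ⟨y, hy, hy'⟩ := hstab x hx
        exact ⟨y, hy, hy'⟩
    obtain ⟨y, hy⟩ := IsIntegrallyClosed.isIntegral_iff.1 hint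
    exact hno y hy
  obtain ⟨p, hp, hp1⟩ := hkey
  have hprinc : maximalIdeal (DIV.O X P) = Ideal.span {p} := by
    refine le_antisymm ?_ ((Ideal.span_singleton_le_iff_mem _).2 hp)
    intro x hx
    obtain ⟨y, hy⟩ := hmul x hx
    rw [Ideal.mem_span_singleton]
    refine ⟨y, Subtype.ext ?_⟩
    show (x : X.K) = (p : X.K) * (y : X.K)
    rw [hy]
    calc (x : X.K) = 1 * x := (one_mul _).symm
      _ = (h * p) * x := by rw [hp1]
      _ = _ := by ring
  have hle : (maximalIdeal (DIV.O X P)).height ≤ 1 := by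
    rw [hprinc]
    exact Ideal.height_span_singleton_le_one hp
  have hh : (maximalIdeal (DIV.O X P)).height = P.height := by
    rw [← IsLocalization.height_under P.primeCompl]
    congr 1
    ext b
    exact DIV.mem_max X P b
  rw [hh] at hle
  refine le_antisymm hle ?_
  have h4 := Ideal.height_add_one_le_of_lt_of_isPrime (bot_lt_iff_ne_bot.2 hPne)
  rwa [Ideal.height_bot, zero_add] at h4

end LOP

theorem LOP.loc {n : ℕ} (X : Germ n) {Q : Ideal X.R} (hQ : Q.IsPrime) (a : X.K)
    (H : ∀ (v : DivVal n X.K) (P : Ideal X.R), P ≤ Q → X.IsOrdAlong v P → v.Ge 0 a) :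
    ∃ r s : X.R, s ∉ Q ∧ a * (s : X.K) = r := by
  by_contra hcon
  have h1m : (1 : X.R) ∉ Q := (Ideal.ne_top_iff_one _).1 hQ.ne_top
  have ha : LOP.den X hQ a ≤ Q := by
    rintro s ⟨t, r, ht, e⟩
    by_contra hs
    refine hcon ⟨r, s * t, fun h => ?_, ?_⟩
    · rcases hQ.mem_or_mem h with h | h
      exacts [hs h, ht h]
    · rw [← e]
      push_cast
      ring
  obtain ⟨d, hp, hm⟩ := LOP.exists_prime X hQ a ha
  obtain ⟨v, hv, hreg⟩ := t_DIV X _ hp (LOP.height_one X hQ _ hm hp)
  have hge : v.Ge 0 (a * d) := by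
    by_cases h0 : a * (d : X.K) = 0
    · exact Or.inl h0
    · right
      rw [v.ord_mul _ _ (left_ne_zero_of_mul h0) (right_ne_zero_of_mul h0)]
      have h1 := hv.2.2.1 d
      rcases H v _ hm hv with h2 | h2
      · exact absurd h2 (left_ne_zero_of_mul h0)
      · omega
  obtain ⟨r, s, hs, e⟩ := hreg _ hge
  refine hs ⟨1, r, h1m, ?_⟩
  rw [e]
  simp

theorem t_LOP : S_LOP := by
  intro e K _ _ Y htr hn i Q hQ z hz
  obtain ⟨m, hm, hQm⟩ := Ideal.exists_le_maximal Q hQ.ne_top
  let X : Germ e :=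
    { K := K
      fieldK := inferInstance
      algK := inferInstance
      R := Y.ring i
      fg := (t_FRC Y i).1
      frac := (t_FRC Y i).2
      normal := hn i
      trdeg := htr
      m := m
      max := hm }
  obtain ⟨r, s, hs, h⟩ := LOP.loc X (Q := Q) hQ z (fun v P hP h => hz v P h hP)
  exact ⟨r, s, hs, h⟩

end RMM
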