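import Pool.Agent.RMM.StC
import Pool.Agent.MMCI.CD
import Pool.Agent.MldGeo.Ord

/-!
# MCEN: the morphism from the model to `B`
-/

set_option autoImplicit false

namespace RMM

open MldGeo MMCI

noncomputable section

namespace MCEN

/-- points of a finitely generated algebra over the complex numbers -/
lemma exists_const {K : Type} [Field K] [Algebra ℂ K] (R : Subalgebra ℂ K) (hR : R.FG)
    (m : Ideal R) (hm : m.IsMaximal) (p : R) : ∃ c : ℂ, p - algebraMap ℂ R c ∈ m := by
  have _ : Algebra.FiniteType ℂ R := (Subalgebra.fg_iff_finiteType R).mp hR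
  let _ : Field (R ⧸ m) := Ideal.Quotient.field m
  have _ : Algebra.FiniteType ℂ (R ⧸ m) :=
    Algebra.FiniteType.of_surjective (Ideal.Quotient.mkₐ ℂ m) (Ideal.Quotient.mkₐ_surjective ℂ m)
  have _ : Module.Finite ℂ (R ⧸ m) := finite_of_finite_type_of_isJacobsonRing ℂ (R ⧸ m)
  obtain ⟨c, hc⟩ := (IsAlgClosed.algebraMap_bijective_of_isIntegral (k := ℂ) (K := R ⧸ m)).2
    (Ideal.Quotient.mk m p)
  refine ⟨c, ?_⟩
  rw [← Ideal.Quotient.eq_zero_iff_mem, map_sub, ← hc, sub_eq_zero]
  rfl

variable {K : Type} [Field K] [Algebra ℂ K] {R : Subalgebra ℂ K} {m : Ideal R}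

/-- the value zero at the point does not depend on the fraction -/
lemma indep (hm : m.IsPrime) {z : K} {p q p' q' : R} (hq : q ∉ m)
    (h : z * q = p) (h' : z * q' = p') (hp : p ∈ m) : p' ∈ m := by
  have h1 : p * q' = p' * q := by
    apply Subtype.ext
    have h2 : (p : K) * q' = p' * q := by
      rw [← h, ← h']
      ring
    simpa using h2
  have h3 : p' * q ∈ m := by
    rw [← h1]
    exact Ideal.mul_mem_right _ _ hp
  exact (hm.mem_or_mem h3).resolve_right hq

end MCEN

theorem t_MCEN (hXHM : S_XHM) : S_MCEN := by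
  intro F K _ _ _ _ _ _ e' n B x A Y htr hx hM i m hm
  obtain ⟨-, hmon, -, hmin⟩ := hXHM B x hx
  obtain ⟨ah, hah, hpt⟩ := hM.pt i m hm
  obtain ⟨⟨j, a⟩, hja, rfl⟩ := Finset.mem_image.1 hah
  have ha : a ∈ A := (Finset.mem_product.1 hja).2
  have hprime : m.IsPrime := hm.isPrime
  -- regular functions
  have hreg : ∀ c : B.ring j, ∃ p q : Y.ring i, q ∉ m ∧ algebraMap F K c * q = p := by
    intro c
    refine LCM_holds Y htr hM.normal i m hm _ fun v P hP hPm => ?_
    have h1 : HasCentre (Y.ring i) v P := ⟨hP.1, hP.2.2.1, hP.2.2.2⟩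
    exact ((hmin v A j a ha).1 (hpt v P h1 hPm).1).1 c c.2
  -- the ideal
  let mB : Ideal (B.ring j) :=
    { carrier := {c | ∃ p q : Y.ring i, q ∉ m ∧ algebraMap F K c * q = p ∧ p ∈ m}
      zero_mem' := by
        refine ⟨0, 1, ?_, ?_, m.zero_mem⟩
        · exact (Ideal.ne_top_iff_one m).1 hprime.ne_top
        · simp
      add_mem' := by
        rintro c c' ⟨p, q, hq, h, hp⟩ ⟨p', q', hq', h', hp'⟩
        refine ⟨p * q' + p' * q, q * q', ?_, ?_, ?_⟩
        · exact fun hc => (hprime.mem_or_mem hc).elim hq hq'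
        · show algebraMap F K ((c : F) + (c' : F)) * ((q : K) * (q' : K)) =
            (p : K) * (q' : K) + (p' : K) * (q : K)
          rw [map_add, ← h, ← h']
          ring
        · exact m.add_mem (Ideal.mul_mem_right _ _ hp) (Ideal.mul_mem_right _ _ hp')
      smul_mem' := by
        rintro c c' ⟨p', q', hq', h', hp'⟩
        obtain ⟨p, q, hq, h⟩ := hreg c
        refine ⟨p * p', q * q', ?_, ?_, Ideal.mul_mem_left _ _ hp'⟩
        · exact fun hc => (hprime.mem_or_mem hc).elim hq hq'
        · show algebraMap F K ((c : F) * (c' : F)) * ((q : K) * (q' : K)) = (p : K) * (p' : K)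
          rw [map_mul, ← h, ← h']
          ring }
  have hmB : ∀ c : B.ring j, c ∈ mB ↔ ∃ p q : Y.ring i, q ∉ m ∧ algebraMap F K c * q = p ∧ p ∈ m :=
    fun c => Iff.rfl
  have hres : ∀ (c : B.ring j) (p q : Y.ring i), q ∉ m → algebraMap F K c * q = p →
      (p ∈ m ↔ c ∈ mB) := by
    intro c p q hq h
    rw [hmB]
    constructor
    · intro hp
      exact ⟨p, q, hq, h, hp⟩
    · rintro ⟨p', q', hq', h', hp'⟩
      exact MCEN.indep hprime hq' h' h hp'
  have hone : (1 : B.ring j) ∉ mB := by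
    rw [← hres 1 1 1 ?_ ?_]
    · exact (Ideal.ne_top_iff_one m).1 hprime.ne_top
    · exact (Ideal.ne_top_iff_one m).1 hprime.ne_top
    · simp
  have hconst : ∀ c : B.ring j, ∃ z : ℂ, c - algebraMap ℂ (B.ring j) z ∈ mB := by
    intro c
    obtain ⟨p, q, hq, h⟩ := hreg c
    obtain ⟨l, hl⟩ := MCEN.exists_const (Y.ring i) (t_FRC Y i).1 m hm p
    obtain ⟨u, hu⟩ := MCEN.exists_const (Y.ring i) (t_FRC Y i).1 m hm q
    have hu0 : u ≠ 0 := by
      rintro rfl
      rw [map_zero, sub_zero] at hu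
      exact hq hu
    refine ⟨l / u, ?_⟩
    rw [← hres _ (p - algebraMap ℂ (Y.ring i) (l / u) * q) q hq ?_]
    · have h1 : p - algebraMap ℂ (Y.ring i) (l / u) * q =
          (p - algebraMap ℂ (Y.ring i) l) -
            algebraMap ℂ (Y.ring i) (l / u) * (q - algebraMap ℂ (Y.ring i) u) := by
        rw [mul_sub, ← map_mul, div_mul_cancel₀ _ hu0]
        ring
      rw [h1]
      exact m.sub_mem hl (Ideal.mul_mem_left _ _ hu)
    · show algebraMap F K ((c : F) - algebraMap ℂ F (l / u)) * (q : K) =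
        (p : K) - algebraMap ℂ K (l / u) * (q : K)
      rw [map_sub, ← h, ← IsScalarTower.algebraMap_apply ℂ F K]
      ring
  have hmax : mB.IsMaximal := by
    rw [Ideal.isMaximal_iff]
    refine ⟨hone, fun J c hJ hc hcJ => ?_⟩
    obtain ⟨z, hz⟩ := hconst c
    have hz0 : z ≠ 0 := by
      rintro rfl
      rw [map_zero, sub_zero] at hz
      exact hc hz
    have h1 : algebraMap ℂ (B.ring j) z ∈ J := by
      have h2 := J.sub_mem hcJ (hJ hz)
      rwa [sub_sub_cancel] at h2
    have h3 : (1 : B.ring j) = algebraMap ℂ (B.ring j) z⁻¹ * algebraMap ℂ (B.ring j) z := by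
      rw [← map_mul, inv_mul_cancel₀ hz0, map_one]
    rw [h3]
    exact Ideal.mul_mem_left _ _ h1
  refine ⟨j, mB, a, hmax, ha, ?_, ?_⟩
  · intro c
    obtain ⟨p, q, hq, h⟩ := hreg c
    exact ⟨p, q, hq, h, hres c p q hq h⟩
  · intro v P hP hPm
    obtain ⟨h1, h2⟩ := hpt v P hP hPm
    obtain ⟨h3, h4⟩ := (hmin v A j a ha).1 h1
    refine ⟨⟨h3, ?_⟩, h4, ?_⟩
    · intro c hc
      obtain ⟨p, q, hq, h⟩ := hreg c
      rw [← hres c p q hq h]
      refine hPm ?_
      have hqP : q ∉ P := fun hc => hq (hPm hc)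
      rw [hP.2.2 q] at hqP
      push Not at hqP
      have hq0 : v.ord (q : K) = 0 := le_antisymm hqP.2 (hP.2.1 q)
      have h5 : v.Ge 1 (p : K) := by
        rw [← h]
        have h6 := hc.mul (DivVal.Ge.self v (q : K))
        rwa [hq0, add_zero] at h6
      rw [hP.2.2 p]
      rcases h5 with h5 | h5
      · left
        exact Subtype.ext h5
      · right
        omega
    · rw [h2]
      constructor
      · rintro ⟨bh, hbh, hri⟩
        have h5 : ∀ l, ∃ q : Fin (B.N + 1) × (Fin n → ℤ), q.2 ∈ A ∧ eh q.1 q.2 = bh l := by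
          intro l
          obtain ⟨q, hq, hq'⟩ := Finset.mem_image.1 (hbh l)
          exact ⟨q, (Finset.mem_product.1 hq).2, hq'⟩
        choose q hq hq' using h5
        refine ⟨fun l => (q l).1, fun l => (q l).2, hq, ?_⟩
        have h6 : (fun l => algebraMap F K (B.s (q l).1 / B.s j) * mon x ((q l).2 - a)) =
            fun l => mon (xh B x) (bh l - eh j a) := by
          funext l
          rw [← hq' l, hmon]
        rw [h6]
        exact hri
      · rintro ⟨j', b, hb, hri⟩
        refine ⟨fun l => eh (j' l) (b l), fun l => ?_, ?_⟩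
        · exact Finset.mem_image.2 ⟨(j' l, b l), Finset.mem_product.2 ⟨Finset.mem_univ _, hb l⟩, rfl⟩
        · have h6 : (fun l => mon (xh B x) (eh (j' l) (b l) - eh j a)) =
              fun l => algebraMap F K (B.s (j' l) / B.s j) * mon x (b l - a) := by
            funext l
            rw [hmon]
          rw [h6]
          exact hri

end

end RMM
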