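import Pool.Agent.RMM.StC
import Pool.Agent.MldGeo.Ord

/-!
# RBAS: the local equations on the base
-/

set_option autoImplicit false

namespace RMM

open MldGeo MMCI

noncomputable section

namespace RBASP

variable {F K : Type} [Field F] [Field K] [Algebra ℂ F] [Algebra ℂ K] [Algebra F K]
  {e' : ℕ} {B : ProjModel F}

theorem algMap_ne {a : F} (h : a ≠ 0) : algebraMap F K a ≠ 0 := by
  intro h0
  exact h ((algebraMap F K).injective (by rw [h0, map_zero]))

/-- elements outside the maximal ideal have order zero -/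
theorem ord_not_mem {v : DivVal e' K} {j : Fin (B.N + 1)} {m : Ideal (B.ring j)}
    (hT : Through B v j m) {q : B.ring j} (hq : q ∉ m) :
    (q : F) ≠ 0 ∧ v.ord (algebraMap F K q) = 0 := by
  have h0 : (q : F) ≠ 0 := by
    intro h0
    apply hq
    have : q = 0 := Subtype.ext h0
    rw [this]
    exact m.zero_mem
  refine ⟨h0, ?_⟩
  have h1 : 0 ≤ v.ord (algebraMap F K q) := (hT.1 q q.2).resolve_left (algMap_ne h0)
  by_contra h2
  exact hq (hT.2 q (Or.inr (by omega)))

/-- the order of the local generator -/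
theorem cmin_eq {v : DivVal e' K} {j : Fin (B.N + 1)} {m : Ideal (B.ring j)}
    (hT : Through B v j m) {C : Set F} (hC : ∀ c ∈ C, c ≠ 0) {c : F} (hc : c ∈ C)
    (h : ∀ c' ∈ C, InLoc B j m (c' / c)) : cmin v C = v.ord (algebraMap F K c) := by
  have hl : IsLeast ((fun c => v.ord (algebraMap F K c)) '' C) (v.ord (algebraMap F K c)) := by
    refine ⟨⟨c, hc, rfl⟩, ?_⟩
    rintro _ ⟨c', hc', rfl⟩
    obtain ⟨p, q, hq, hpq⟩ := h c' hc'
    obtain ⟨hq0, hqo⟩ := ord_not_mem hT hq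
    have hc0 := hC c hc
    have hc0' := hC c' hc'
    have hp0 : (p : F) ≠ 0 := by
      rw [← hpq]
      exact mul_ne_zero (div_ne_zero hc0' hc0) hq0
    have h1 : 0 ≤ v.ord (algebraMap F K p) := (hT.1 p p.2).resolve_left (algMap_ne hp0)
    rw [← hpq, map_mul, map_div₀, v.ord_mul _ _ (div_ne_zero (algMap_ne hc0') (algMap_ne hc0))
      (algMap_ne hq0), v.ord_div (algMap_ne hc0') (algMap_ne hc0), hqo] at h1
    change v.ord (algebraMap F K c) ≤ v.ord (algebraMap F K c')
    omega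
  rw [cmin]
  exact hl.csInf_eq

theorem ord_G {v : DivVal e' K} {r : ℕ} {a : F} (ha : a ≠ 0) {c : Fin r → F} (hc : ∀ i, c i ≠ 0)
    (κ : ℕ) : v.ord (algebraMap F K (a * (∏ i, c i) ^ (-(κ : ℤ)))) =
      v.ord (algebraMap F K a) - κ * ∑ i, v.ord (algebraMap F K (c i)) := by
  have h1 : ∏ i, algebraMap F K (c i) ≠ 0 := Finset.prod_ne_zero_iff.2 fun i _ => algMap_ne (hc i)
  rw [map_mul, map_zpow₀, map_prod, v.ord_mul _ _ (algMap_ne ha) (zpow_ne_zero _ h1), v.ord_zpow,
    v.ord_prod _ _ (fun i _ => algMap_ne (hc i))]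
  ring

end RBASP

open RBASP in
theorem t_RBAS : S_RBAS := by
  classical
  intro F K _ _ _ _ _ _ e' n r B κ b y0 β f hf hB
  obtain ⟨S0, hS0⟩ := hB.eqn
  have hfin : ∀ i, (coefs (f i)).Finite := fun i => (f i).coeff.support.finite_toSet.image _
  have hne : ∀ i, ∀ c ∈ coefs (f i), c ≠ 0 := by
    rintro i _ ⟨a, ha, rfl⟩
    exact Finsupp.mem_support_iff.1 ha
  refine ⟨(S0 ×ˢ Fintype.piFinset (fun i => (hfin i).toFinset)).image
    (fun q => q.1 * (∏ i, q.2 i) ^ (-(κ : ℤ))), fun j m hm => ?_⟩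
  obtain ⟨a, ha, ha0, heq⟩ := hS0 j m hm
  choose c hc hc0 hloc using fun i => hf i j m hm
  refine ⟨a * (∏ i, c i) ^ (-(κ : ℤ)), ?_, ?_, ?_, ?_⟩
  · rw [Finset.mem_image]
    refine ⟨(a, c), ?_, rfl⟩
    rw [Finset.mem_product, Fintype.mem_piFinset]
    exact ⟨ha, fun i => (hfin i).mem_toFinset.2 (hc i)⟩
  · exact mul_ne_zero ha0 (zpow_ne_zero _ (Finset.prod_ne_zero_iff.2 fun i _ => hc0 i))
  · -- prime divisors of the base
    intro v P hP hPm
    have hT : Through B v j m := by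
      refine ⟨fun x hx => Or.inr (hP.2.2.1 ⟨x, hx⟩), fun x hx => hPm ?_⟩
      rw [hP.2.2.2 x]
      rcases hx with hx | hx
      · exact Or.inl (Subtype.ext hx)
      · right
        have : (1 : ℤ) ≤ v.ord (x : F) := hx
        omega
    have h1 := ord_G (v := v) (K := F) ha0 hc0 κ
    have h2 : v.ord a = κ * v.formOrd (dlogs y0) := heq v P hP hPm
    have h3 : ∀ i, cmin v (coefs (f i)) = v.ord (algebraMap F F (c i)) := fun i =>
      cmin_eq hT (hne i) (hc i) (hloc i)
    have h4 : v.ord (a * (∏ i, c i) ^ (-(κ : ℤ))) = v.ord a -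
        κ * ∑ i, v.ord (algebraMap F F (c i)) := h1
    rw [h4, h2, adj, ← Finset.sum_congr rfl fun i _ => h3 i]
    ring
  · intro v hT
    rw [ord_G ha0 hc0 κ, bo, hB.beta v j m hm hT a ha0 heq]
    congr 2
    exact Finset.sum_congr rfl fun i _ => (cmin_eq hT (hne i) (hc i) (hloc i)).symm

end

end RMM
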