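import Pool.Agent.RMM.StC
import Pool.Agent.MMCI.CD

/-!
# MP_fa3f7f_ag, relative minimal models: RCMQ, comparison of equations along a curve
-/

set_option autoImplicit false

namespace RMM

open MldGeo MMCI

noncomputable section

namespace RCMQ

/-- the quotient of two equations -/
theorem quot {F K : Type} [Field F] [Field K] [Algebra F K] {n : ℕ} {x : Fin n → K}
    (hx : ∀ j, x j ≠ 0) (hmono : Mono (mon x)) (κ k : ℕ) {c : K} (hc : c ≠ 0) (G G' : F)
    (u u' : Fin n → ℤ) :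
    (c * eqq κ k x G u) / (c * eqq κ k x G' u') =
      algebraMap F K (G / G') ^ k * mon x ((κ : ℤ) • (u' - u)) := by
  rw [mul_div_mul_left _ _ hc]
  unfold eqq
  rw [mul_div_mul_comm, ← div_pow, ← map_div₀, FBN.mon_div hx hmono]
  congr 2
  rw [smul_sub]
  abel

end RCMQ

open RCMQ in
/-- RCMQ: comparison of equations along a curve. -/
theorem t_RCMQ : M_RCMQ := by
  intro hRPT F K _ _ _ _ _ _ e' n r B κ b y0 β f x he htr hx hB hBD D ω Y hR hM ω' hω' γ k h g u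
    hk hEq
  classical
  obtain ⟨q, hq, -, hqord⟩ := t_CHW htr he ω ω' hR.ne hω'
  obtain ⟨hmono, -, -, -⟩ := t_FUL x hx
  obtain ⟨S, hS⟩ := hRPT B κ b y0 β f x he htr hx hB hBD D ω Y hR hM
  have hpt : ∀ i (m : Ideal (Y.ring i)), ∃ (j : Fin (B.N + 1)) (mB : Ideal (B.ring j))
      (a : Fin n → ℤ) (G : F), m.IsMaximal → G ∈ S ∧
        IsPt B κ y0 (fun i => coefs (f i)) x D.A D.k D.u ω Y i m j mB a G := by
    intro i m
    by_cases hm : m.IsMaximal
    · obtain ⟨j, mB, a, G, h1, h2⟩ := hS i m hm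
      exact ⟨j, mB, a, G, fun _ => ⟨h1, h2⟩⟩
    · exact ⟨0, ⊥, 0, 1, fun h => absurd h hm⟩
  choose jj mB aa G hpt using hpt
  have hkκ : 0 < D.k * κ := Nat.mul_pos D.k_pos hBD.κ_pos
  obtain ⟨w₀, i, m, U, hmap, hU, hfin1, hfin2, hsum⟩ := CMP_holds Y htr hM.normal ω' (D.k * κ)
    (fun i m => q ^ (D.k * κ) * eqq κ D.k x (G i m) (D.u (aa i m)))
    ((S ×ˢ D.A).image fun p => q ^ (D.k * κ) * eqq κ D.k x p.1 (D.u p.2)) hkκ (by
      intro i m hm
      obtain ⟨h1, h2⟩ := hpt i m hm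
      have hne : eqq κ D.k x (G i m) (D.u (aa i m)) ≠ 0 := by
        unfold eqq
        refine mul_ne_zero (pow_ne_zero _ ?_) (FBN.mon_ne hx _)
        rw [Ne, map_eq_zero]
        exact h2.G_ne
      refine ⟨mul_ne_zero (pow_ne_zero _ hq) hne,
        Finset.mem_image.2 ⟨(G i m, aa i m), Finset.mem_product.2 ⟨h1, h2.mem⟩, rfl⟩, ?_⟩
      intro v P hP hPm
      obtain ⟨-, -, -, h3⟩ := h2.ctr v P ⟨hP.1, hP.2.2.1, hP.2.2.2⟩ hPm
      have h4 := h3.2 hP.2.1
      rw [v.ord_mul _ _ (pow_ne_zero _ hq) hne, FBN.ord_pow v hq, hqord, mul_add]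
      omega) γ k h g u hk hEq
  refine ⟨w₀, i, m, fun w => jj (i w) (m w), fun w => mB (i w) (m w), fun w => aa (i w) (m w),
    fun w => G (i w) (m w), U, hmap, fun w => (hpt _ _ (hmap w).1).2, ?_, hfin1, hfin2, hsum⟩
  intro w
  refine ⟨(hU w).1, ?_⟩
  have h1 := (hU w).2
  rw [quot hx hmono κ D.k (pow_ne_zero _ hq)] at h1
  exact h1

end

end RMM
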