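import Pool.Agent.RMM.StC
import Pool.Agent.MMCI.FUL
import Pool.Agent.MMCI.LCM
import Pool.Agent.MMCI.FRC
import Pool.Agent.MldGeo.Ord

/-!
# MP_fa3f7f_ag, relative minimal models, block D: the morphism of the Mori fibre space
-/

set_option autoImplicit false

namespace RMM

open MldGeo MMCI

namespace RFBM

theorem trdeg_le {K : Type} [Field K] [Algebra ℂ K] {S : Set K} {E : IntermediateField ℂ K}
    (h : S ⊆ E) : Algebra.trdeg ℂ (IntermediateField.adjoin ℂ S) ≤ Algebra.trdeg ℂ E := by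
  have hle : IntermediateField.adjoin ℂ S ≤ E := IntermediateField.adjoin_le_iff.2 h
  exact trdeg_le_of_injective (IntermediateField.inclusion hle)
    (IntermediateField.inclusion_injective hle)

theorem quot {F K : Type} [Field F] [Field K] [Algebra ℂ F] [Algebra F K] {n : ℕ}
    (B : ProjModel F) (x : Fin n → K) (hmono : Mono (mon x)) (h0 : ∀ m, mon x m ≠ 0)
    (j j' : Fin (B.N + 1)) (u u' : Fin n → ℤ) :
    tt B x j' u' / tt B x j u = algebraMap F K (B.s j' / B.s j) * mon x (u' - u) := by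
  have e1 : mon x u' = mon x (u' - u) * mon x u := by
    rw [← hmono.add, sub_add_cancel]
  have hs : ∀ j, algebraMap F K (B.s j) ≠ 0 := fun j h =>
    B.ne j ((map_eq_zero (algebraMap F K)).1 h)
  unfold tt
  rw [e1, map_div₀, map_div₀, map_div₀]
  have h1 := hs 0
  have h2 := hs j
  have h3 := h0 u
  field_simp

end RFBM

theorem t_RFBM : M_RFBM := by
  intro hRPT F K _ _ _ _ _ _ e' n r B κ b y0 β f x he htr hx hbpf hB D ω Y hω hY htd
  obtain ⟨hmono, -, hord, -⟩ := t_FUL x hx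
  have h0 : ∀ m, mon x m ≠ 0 := fun m =>
    Finset.prod_ne_zero_iff.2 fun i _ => zpow_ne_zero _ (hx i)
  obtain ⟨S, hS⟩ := hRPT B κ b y0 β f x he htr hx hbpf hB D.toFan ω Y hω hY
  obtain ⟨a1, ha1⟩ := D.nonempty
  have hpos : 0 < Fintype.card (Fin (B.N + 1) × {a // a ∈ D.A}) :=
    Fintype.card_pos_iff.2 ⟨(0, ⟨a1, ha1⟩)⟩
  obtain ⟨M, hM⟩ : ∃ M, Fintype.card (Fin (B.N + 1) × {a // a ∈ D.A}) = M + 1 :=
    ⟨Fintype.card (Fin (B.N + 1) × {a // a ∈ D.A}) - 1, by omega⟩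
  let φ : Fin (M + 1) ≃ Fin (B.N + 1) × {a // a ∈ D.A} := (Fintype.equivFinOfCardEq hM).symm
  let t : Fin (M + 1) → K := fun l => tt B x (φ l).1 (D.b (φ l).2)
  refine ⟨M, t, fun l => ⟨(φ l).1, (φ l).2, (φ l).2.2, rfl⟩,
    fun j a ha => ⟨φ.symm (j, ⟨a, ha⟩), ?_⟩, ?_, ?_⟩
  · simp only [t, Equiv.apply_symm_apply]
  · refine (RFBM.trdeg_le ?_).trans_lt htd
    rintro _ ⟨l, rfl⟩
    have e1 : t l / t 0 = algebraMap F K (B.s (φ l).1 / B.s (φ 0).1) *
        mon x (D.b (φ l).2 - D.b (φ 0).2) := RFBM.quot B x hmono h0 _ _ _ _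
    change t l / t 0 ∈ (Fb (F := F) x D.A D.b : Set K)
    rw [e1]
    refine mul_mem (S := IntermediateField ℂ K) ?_ ?_
    · exact IntermediateField.subset_adjoin ℂ _ (Or.inl ⟨_, rfl⟩)
    · exact IntermediateField.subset_adjoin ℂ _
        (Or.inr ⟨(φ l).2, (φ l).2.2, (φ 0).2, (φ 0).2.2, rfl⟩)
  · intro i m hm
    obtain ⟨j, mB, a, G, -, hpt⟩ := hS i m hm
    refine ⟨φ.symm (j, ⟨a, hpt.mem⟩), fun l => ?_⟩
    have e1 : t l / t (φ.symm (j, ⟨a, hpt.mem⟩)) = algebraMap F K (B.s (φ l).1 / B.s j) *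
        mon x (D.b (φ l).2 - D.b a) := by
      simp only [t, Equiv.apply_symm_apply]
      exact RFBM.quot B x hmono h0 _ _ _ _
    rw [e1]
    obtain ⟨p, q, hq, hpq⟩ := t_LCM t_FRC Y htr hY.normal i m hm
      (algebraMap F K (B.s (φ l).1 / B.s j) * mon x (D.b (φ l).2 - D.b a)) (by
      intro v P hP hPm
      right
      obtain ⟨hP1, hP2, hP3, hP4⟩ := hP
      obtain ⟨hthr, hmin, -⟩ := hpt.ctr v P ⟨hP1, hP3, hP4⟩ hPm
      have h2 := D.nef (wt x v) a (φ l).2 hmin (φ l).2.2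
      have hs : algebraMap F K (B.s (φ l).1 / B.s j) ≠ 0 := fun h =>
        (div_ne_zero (B.ne (φ l).1) (B.ne j)) ((map_eq_zero (algebraMap F K)).1 h)
      have h3 : (0 : ℤ) ≤ v.ord (algebraMap F K (B.s (φ l).1 / B.s j)) := by
        rcases hthr.1 (B.s (φ l).1 / B.s j) (Algebra.subset_adjoin ⟨_, rfl⟩) with h | h
        · exact absurd h hs
        · exact h
      have e2 : mon x (D.b (φ l).2 - D.b a) = mon x (D.b (φ l).2) / mon x (D.b a) := by
        rw [eq_div_iff (h0 _), ← hmono.add, sub_add_cancel]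
      rw [v.ord_mul _ _ hs (h0 _), e2, v.ord_div (h0 _) (h0 _), (hord v _).2, (hord v _).2]
      linarith)
    exact ⟨p, q, hq, hpq⟩

end RMM
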