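import Pool.Agent.RMM.StC
import Pool.Agent.MMCI.K_KEY
import Pool.Agent.MMCI.CD
import Pool.Agent.MldGeo.Ord

/-!
# Relative minimal models: RKEY, the discrepancies of the projective model
-/

set_option autoImplicit false
set_option linter.unusedSectionVars false

namespace RMM

open MldGeo MldGeo.DivVal MMCI

noncomputable section

namespace RKEY

section

variable {F K : Type} [Field F] [Field K] [Algebra ℂ F] [Algebra ℂ K] [Algebra F K]
  [IsScalarTower ℂ F K] {e' n r : ℕ}

theorem rpsi_eq (hRSUP : S_RSUP) (f : Fin r → LR F n) (w : Fin n → ℤ) :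
    psi (fun i => supp0 (f i)) w = rpsi f w := by
  unfold psi rpsi
  exact Finset.sum_congr rfl fun i _ => (hRSUP (f i)).2.1 w

theorem rpsi_smul (hRSUP : S_RSUP) (f : Fin r → LR F n) (k : ℤ) (hk : 0 < k) (w : Fin n → ℤ) :
    rpsi f (k • w) = k * rpsi f w := by
  unfold rpsi
  rw [Finset.mul_sum]
  exact Finset.sum_congr rfl fun i _ => (hRSUP (f i)).2.2.1 k w hk

/-- the functions of a point of height one -/
theorem split (B : ProjModel F) (x : Fin n → K) (hx : ∀ j, x j ≠ 0) (v : DivVal e' K)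
    (j : Fin (B.N + 1)) (a : Fin n → ℤ) (hon : OnChart B v j) (A : Finset (Fin n → ℤ))
    (hmin : MinAt A a (wt x v)) {k : ℕ} (j' : Fin k → Fin (B.N + 1)) (b : Fin k → (Fin n → ℤ))
    (hb : ∀ l, b l ∈ A)
    (hres : ResIndep v fun l => algebraMap F K (B.s (j' l) / B.s j) * mon x (b l - a)) (l : Fin k) :
    InO B v (B.s (j' l) / B.s j) ∧ B.s (j' l) / B.s j ≠ 0 ∧
      v.ord (algebraMap F K (B.s (j' l) / B.s j)) = 0 ∧ pair (wt x v) (b l - a) = 0 := by
  have hmem : B.s (j' l) / B.s j ∈ B.ring j := Algebra.subset_adjoin ⟨j' l, rfl⟩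
  have hne : B.s (j' l) / B.s j ≠ 0 := div_ne_zero (B.ne _) (B.ne _)
  have hne' : algebraMap F K (B.s (j' l) / B.s j) ≠ 0 := by
    intro h0
    exact hne ((map_eq_zero _).1 h0)
  obtain ⟨hm1, hm2⟩ := (t_FUL x hx).2.2.1 v (b l - a)
  have h1 := KEY.ord_of_resIndep hres l
  rw [v.ord_mul _ _ hne' hm1, hm2] at h1
  have h2 : 0 ≤ v.ord (algebraMap F K (B.s (j' l) / B.s j)) := (hon _ hmem).le hne'
  have h3 : 0 ≤ pair (wt x v) (b l - a) := by
    rw [KEY.pair_sub]
    have := hmin.2 (b l) (hb l)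
    linarith
  refine ⟨⟨j, hon, _, hmem, 1, (B.ring j).one_mem, one_ne_zero, ?_, mul_one _⟩, hne, ?_, ?_⟩
  · rw [map_one, ord_one]
  · omega
  · omega

/-- the converse: from the residues to the height -/
theorem conv (hRRES : S_RRES) (B : ProjModel F) (x : Fin n → K) (hx : ∀ j, x j ≠ 0)
    (v : DivVal e' K) (j : Fin (B.N + 1)) (a : Fin n → ℤ) (hon : OnChart B v j)
    (A : Finset (Fin n → ℤ)) (haA : a ∈ A) (hbig : BIG B x v) {k : ℕ} (b : Fin k → (Fin n → ℤ))
    (hb : ∀ l, b l ∈ A) (hbw : ∀ l, pair (wt x v) (b l - a) = 0)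
    (hspan : ∀ m, pair (wt x v) m = 0 → ∃ (N : ℤ) (c : Fin k → ℤ), N ≠ 0 ∧
      N • m = ∑ l, c l • (b l - a)) :
    ∃ (j' : Fin (e' - 1) → Fin (B.N + 1)) (b : Fin (e' - 1) → (Fin n → ℤ)), (∀ l, b l ∈ A) ∧
      ResIndep v fun l => algebraMap F K (B.s (j' l) / B.s j) * mon x (b l - a) := by
  obtain ⟨u, hu⟩ := hRRES B x hx v j hon hbig (fun l => b l - a) hbw hspan
  refine ⟨fun l => Sum.elim (fun j' => j') (fun _ => j) (u l),
    fun l => Sum.elim (fun _ => a) (fun l' => b l') (u l), fun l => ?_, ?_⟩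
  · cases h : u l with
    | inl j' => simpa [h] using haA
    | inr l' => simpa [h] using hb l'
  · have h1 : (fun l => algebraMap F K (B.s (Sum.elim (fun j' => j') (fun _ => j) (u l)) / B.s j) *
        mon x (Sum.elim (fun _ => a) (fun l' => b l') (u l) - a)) =
        fun l => Sum.elim (fun j' => algebraMap F K (B.s j' / B.s j))
          (fun l' => mon x (b l' - a)) (u l) := by
      funext l
      cases h : u l with
      | inl j' =>
        simp only [Sum.elim_inl, sub_self]
        have h2 : mon x (0 : Fin n → ℤ) = 1 := by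
          unfold mon
          exact Finset.prod_eq_one fun i _ => by rw [Pi.zero_apply, zpow_zero]
        rw [h2, mul_one]
      | inr l' =>
        simp only [Sum.elim_inr]
        rw [div_self (B.ne j), map_one, one_mul]
    show ResIndep v (fun l => algebraMap F K
      (B.s (Sum.elim (fun j' => j') (fun _ => j) (u l)) / B.s j) *
        mon x (Sum.elim (fun _ => a) (fun l' => b l') (u l) - a))
    rw [h1]
    exact hu

end

end RKEY

open KEY RKEY in
theorem t_RKEY : M_RKEY := by
  intro hXHM hRSUP hRCEN hRRES F K _ _ _ _ _ _ e' n r B κ β f x hpos hdim hκ hx hnorm D ω Y hL hM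
    i m hm
  obtain ⟨j, mB, a, hmB, haA, hres, hpt⟩ := hRCEN B x D.A Y hdim hx hM i m hm
  refine ⟨j, mB, a, hmB, haA, hres, fun v P hc hPm => ?_⟩
  obtain ⟨hthr, hmin, hht⟩ := hpt v P hc hPm
  refine ⟨hthr, hmin, ?_⟩
  have hon : OnChart B v j := hthr.1
  have htxt : v.formOrd ω = v.logOrd ω - 1 := cTXT hdim v ω hpos hL.ne
  have hkpos : (0 : ℤ) < (D.k : ℤ) := by exact_mod_cast D.k_pos
  have hκpos : (0 : ℤ) < (κ : ℤ) := by exact_mod_cast hκ
  -- independent residues and `BIG`
  have hbig : P.height = 1 → BIG B x v := by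
    intro h
    obtain ⟨j', b, hbA, hb⟩ := hht.1 h
    refine ⟨fun l => B.s (j' l) / B.s j, fun l => b l - a, fun l => ?_, hb⟩
    exact split B x hx v j a hon D.A hmin j' b hbA hb l
  obtain ⟨Λ, hΛ⟩ : ∃ Λ : ℤ, Λ = κ * v.logOrd ω - bo κ β (fun i => coefs (f i)) v := ⟨_, rfl⟩
  have hform : (κ : ℤ) * v.formOrd ω - bo κ β (fun i => coefs (f i)) v = Λ - κ := by
    rw [htxt, hΛ]
    ring
  rw [hform]
  by_cases hw : wt x v = 0
  · -- weight zero
    have hp : pair (wt x v) (D.u a) = 0 := by rw [hw, pair_zero_left]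
    rw [hp, mul_zero, add_zero]
    have h1 := hL.low0 v hw
    rw [← hΛ] at h1
    refine ⟨mul_nonneg hkpos.le (by linarith), ?_⟩
    have h2 : (D.k : ℤ) * (Λ - κ) = 0 ↔ BIG B x v := by
      rw [← hL.eq0 v hw, ← hΛ, mul_eq_zero]
      constructor
      · rintro (h | h)
        · exact absurd h hkpos.ne'
        · linarith
      · intro h
        right
        linarith
    rw [h2]
    refine ⟨fun h => ?_, hbig⟩
    obtain ⟨b, hbA, hbI⟩ := D.full a haA
    exact hht.2 (conv hRRES B x hx v j a hon D.A haA h b hbA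
      (fun l => by rw [hw, pair_zero_left]) (fun q _ => span_full _ hbI q))
  · -- nonzero weight
    have hl := hL.low v hw
    rw [← hΛ] at hl
    constructor
    · obtain ⟨k, w0, hk, hw0, hw1⟩ := exists_prim (wt x v) hw
      have hmin0 : MinAt D.A a w0 := minAt_smul hk (by rw [← hw1]; exact hmin)
      have hd := D.disc w0 a hw0 hmin0
      rw [rpsi_eq hRSUP] at hd
      rw [hw1, rpsi_smul hRSUP f k hk] at hl
      rw [hw1, pair_smul_left]
      obtain ⟨p, hp⟩ : ∃ p : ℤ, p = pair w0 (D.u a) := ⟨_, rfl⟩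
      obtain ⟨ψ, hψ⟩ : ∃ ψ : ℤ, ψ = rpsi f w0 := ⟨_, rfl⟩
      rw [← hp, ← hψ] at hd
      rw [← hψ] at hl
      rw [← hp]
      have e1 : 0 ≤ (κ : ℤ) * (k * (p - D.k * (ψ + 1))) :=
        mul_nonneg hκpos.le (mul_nonneg hk.le (by linarith))
      have e2 : 0 ≤ (D.k : ℤ) * (Λ + κ * (k * ψ)) := mul_nonneg hkpos.le (by linarith)
      have e3 : 0 ≤ (D.k : ℤ) * (κ * (k - 1)) :=
        mul_nonneg hkpos.le (mul_nonneg hκpos.le (by omega))
      have e4 : (D.k : ℤ) * (Λ - κ) + κ * (k * p) =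
          (κ : ℤ) * (k * (p - D.k * (ψ + 1))) + (D.k : ℤ) * (Λ + κ * (k * ψ)) +
            (D.k : ℤ) * (κ * (k - 1)) := by ring
      rw [e4]
      linarith
    · constructor
      · intro h0
        obtain ⟨k, w0, hk, hw0, hw1⟩ := exists_prim (wt x v) hw
        have hmin0 : MinAt D.A a w0 := minAt_smul hk (by rw [← hw1]; exact hmin)
        have hd := D.disc w0 a hw0 hmin0
        rw [rpsi_eq hRSUP] at hd
        rw [hw1, rpsi_smul hRSUP f k hk] at hl
        rw [hw1, pair_smul_left] at h0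
        obtain ⟨p, hp⟩ : ∃ p : ℤ, p = pair w0 (D.u a) := ⟨_, rfl⟩
        obtain ⟨ψ, hψ⟩ : ∃ ψ : ℤ, ψ = rpsi f w0 := ⟨_, rfl⟩
        rw [← hp, ← hψ] at hd
        rw [← hψ] at hl
        rw [← hp] at h0
        have e1 : 0 ≤ (κ : ℤ) * (k * (p - D.k * (ψ + 1))) :=
          mul_nonneg hκpos.le (mul_nonneg hk.le (by linarith))
        have e2 : 0 ≤ (D.k : ℤ) * (Λ + κ * (k * ψ)) := mul_nonneg hkpos.le (by linarith)
        have e3 : 0 ≤ (D.k : ℤ) * (κ * (k - 1)) :=
          mul_nonneg hkpos.le (mul_nonneg hκpos.le (by omega))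
        have e4 : (D.k : ℤ) * (Λ - κ) + κ * (k * p) =
            (κ : ℤ) * (k * (p - D.k * (ψ + 1))) + (D.k : ℤ) * (Λ + κ * (k * ψ)) +
              (D.k : ℤ) * (κ * (k - 1)) := by ring
        rw [e4] at h0
        have z1 : (κ : ℤ) * (k * (p - D.k * (ψ + 1))) = 0 := by linarith
        have z2 : (D.k : ℤ) * (Λ + κ * (k * ψ)) = 0 := by linarith
        have z3 : (D.k : ℤ) * (κ * (k - 1)) = 0 := by linarith
        have y1 : p - D.k * (ψ + 1) = 0 :=
          ((mul_eq_zero.1 ((mul_eq_zero.1 z1).resolve_left hκpos.ne')).resolve_left hk.ne')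
        have y2 : Λ + κ * (k * ψ) = 0 := (mul_eq_zero.1 z2).resolve_left hkpos.ne'
        have y3 : k = 1 := by
          have := (mul_eq_zero.1 ((mul_eq_zero.1 z3).resolve_left hkpos.ne')).resolve_left
            hκpos.ne'
          omega
        rw [y3, one_smul] at hw1
        rw [y3, one_mul] at y2
        have hbg : BIG B x v := by
          rw [← hL.eq v hw, hw1, ← hΛ, ← hψ]
          linarith
        have hray : pair w0 (D.u a) = D.k * (psi (fun i => supp0 (f i)) w0 + 1) := by
          rw [rpsi_eq hRSUP, ← hψ, ← hp]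
          linarith
        obtain ⟨b, hbA, hbw, hbI⟩ := D.ray w0 a hw0 hmin0 hray
        exact hht.2 (conv hRRES B x hx v j a hon D.A haA hbg b hbA
          (fun l => by rw [hw1]; exact hbw l)
          (fun q hq => span_perp w0 (by rw [← hw1]; exact hw) _ hbI hbw q
            (by rw [← hw1]; exact hq)))
      · intro h1
        have hbg := hbig h1
        have hprim := hL.unit v hw hbg
        have hlog := (hL.eq v hw).2 hbg
        rw [← hΛ] at hlog
        by_contra hne
        have hne' : pair (wt x v) (D.u a) ≠ D.k * (psi (fun i => supp0 (f i)) (wt x v) + 1) := by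
          intro h
          apply hne
          rw [hlog, h, rpsi_eq hRSUP]
          ring
        obtain ⟨s, ν, c, c0, hc0, hc, hνI, hrel, hνmin, hs⟩ :=
          D.nonray (wt x v) a hprim hmin hne'
        have hs' : ∑ i, (rmin (f i) (∑ j, ν j) - ∑ j, rmin (f i) (ν j)) + 2 ≤ (s : ℤ) := by
          have h2 : ∑ i, (rmin (f i) (∑ j, ν j) - ∑ j, rmin (f i) (ν j)) =
              ∑ i, (minOn (supp0 (f i)) (∑ j, ν j) - ∑ j, minOn (supp0 (f i)) (ν j)) := by
            refine Finset.sum_congr rfl fun i _ => ?_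
            rw [(hRSUP (f i)).2.1]
            congr 1
            exact Finset.sum_congr rfl fun j _ => ((hRSUP (f i)).2.1 _).symm
          rw [h2]
          exact hs
        refine hL.bnd v hw s ν c c0 hc0 hc hνI hrel hs' ?_
        obtain ⟨j', b, hbA, hb⟩ := hht.1 h1
        have hsp := split B x hx v j a hon D.A hmin j' b hbA hb
        refine ⟨fun l => B.s (j' l) / B.s j, fun l => b l - a, fun l => ?_, hb⟩
        refine ⟨(hsp l).1, (hsp l).2.1, (hsp l).2.2.1, ?_⟩
        have h2 : ∀ j, 0 ≤ pair (ν j) (b l - a) := by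
          intro j
          rw [pair_sub]
          have := (hνmin j).2 (b l) (hbA l)
          linarith
        have h3 : ∑ j, (c j : ℤ) * pair (ν j) (b l - a) = 0 := by
          have h4 : pair (∑ j, (c j : ℤ) • ν j) (b l - a) =
              ∑ j, (c j : ℤ) * pair (ν j) (b l - a) := by
            simp only [pair, Finset.sum_apply, Pi.smul_apply, smul_eq_mul, Finset.sum_mul,
              Finset.mul_sum]
            rw [Finset.sum_comm]
            refine Finset.sum_congr rfl fun j _ => Finset.sum_congr rfl fun i _ => ?_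
            ring
          rw [← h4, ← hrel, pair_smul_left, (hsp l).2.2.2, mul_zero]
        have h6 := (Finset.sum_eq_zero_iff_of_nonneg (fun j _ =>
          mul_nonneg (Int.natCast_nonneg (c j)) (h2 j))).1 h3
        intro j
        have h7 := h6 j (Finset.mem_univ j)
        have h8 : (0 : ℤ) < (c j : ℤ) := by exact_mod_cast hc j
        exact (mul_eq_zero.1 h7).resolve_left h8.ne'

end

end RMM
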