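import Pool.Agent.RMM.StC
import Pool.Agent.MMCI.CD

/-!
# RMOD: the projective model exists
-/

set_option autoImplicit false

namespace RMM

open MldGeo MMCI

noncomputable section

namespace RMOD

/-- The exponents of the homogeneous coordinates. -/
def E {N : ℕ} (j : Fin (N + 1)) : Fin N → ℤ :=
  Fin.cases (0 : Fin N → ℤ) (fun l => Pi.single l 1) j

theorem E_zero {N : ℕ} : E (0 : Fin (N + 1)) = 0 := rfl

theorem E_succ {N : ℕ} (l : Fin N) : E l.succ = Pi.single l 1 := rfl

theorem eh_left {N n : ℕ} (j : Fin (N + 1)) (a : Fin n → ℤ) (l : Fin N) :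
    eh j a (Fin.castAdd n l) = E j l := by
  unfold eh E
  rw [Fin.append_left]

theorem eh_right {N n : ℕ} (j : Fin (N + 1)) (a : Fin n → ℤ) (l : Fin n) :
    eh j a (Fin.natAdd N l) = a l := by
  unfold eh
  rw [Fin.append_right]

theorem indep_E {N : ℕ} (j : Fin (N + 1)) (c : Fin N → ℤ)
    (h : ∀ t, ∑ l, c l * (E (j.succAbove l) t - E j t) = 0) : ∀ l, c l = 0 := by
  let C : Fin (N + 1) → ℤ := Fin.insertNth j (-∑ l, c l) c
  have hCj : C j = -∑ l, c l := by simp [C]
  have hCs : ∀ l, C (j.succAbove l) = c l := fun l => by simp [C]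
  have h1 : ∀ t : Fin N, C t.succ = 0 := by
    intro t
    have e1 : ∑ k, C k * E k t = ∑ l, c l * (E (j.succAbove l) t - E j t) := by
      rw [Fin.sum_univ_succAbove _ j, hCj]
      simp only [hCs]
      rw [neg_mul, Finset.sum_mul, ← Finset.sum_neg_distrib, ← Finset.sum_add_distrib]
      refine Finset.sum_congr rfl fun l _ => ?_
      ring
    have e2 : ∑ k, C k * E k t = C t.succ := by
      rw [Fin.sum_univ_succ, E_zero]
      simp only [E_succ, Pi.zero_apply, mul_zero, zero_add]
      rw [Finset.sum_eq_single t]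
      · simp
      · intro m _ hm
        rw [Pi.single_eq_of_ne (Ne.symm hm), mul_zero]
      · intro hh
        exact absurd (Finset.mem_univ t) hh
    rw [← e2, e1, h t]
  have h2 : C 0 = 0 := by
    have e3 : ∑ k, C k = 0 := by
      rw [Fin.sum_univ_succAbove _ j, hCj]
      simp only [hCs]
      ring
    rw [Fin.sum_univ_succ] at e3
    simp only [h1] at e3
    simpa using e3
  have h3 : ∀ k, C k = 0 := fun k => Fin.cases h2 h1 k
  intro l
  rw [← hCs l]
  exact h3 _

theorem indep {N n : ℕ} (j : Fin (N + 1)) (a : Fin n → ℤ) (b : Fin n → (Fin n → ℤ))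
    (hb : LinearIndependent ℤ fun l => b l - a) :
    LinearIndependent ℤ fun l : Fin (N + n) =>
      (Fin.append (fun l : Fin N => eh (j.succAbove l) a) (fun l : Fin n => eh j (b l)) l :
        Fin (N + n) → ℤ) - eh j a := by
  rw [Fintype.linearIndependent_iff] at hb ⊢
  intro g hg
  rw [Fin.sum_univ_add] at hg
  simp only [Fin.append_left, Fin.append_right] at hg
  have hl : ∀ l : Fin N, g (Fin.castAdd n l) = 0 := by
    apply indep_E j
    intro t
    have h := congrFun hg (Fin.castAdd n t)
    simp only [Pi.add_apply, Finset.sum_apply, Pi.smul_apply, Pi.sub_apply, eh_left, smul_eq_mul,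
      sub_self, mul_zero, Finset.sum_const_zero, add_zero, Pi.zero_apply] at h
    exact h
  have hr : ∀ l : Fin n, g (Fin.natAdd N l) = 0 := by
    apply hb
    funext t
    have h := congrFun hg (Fin.natAdd N t)
    simp only [Pi.add_apply, Finset.sum_apply, Pi.smul_apply, Pi.sub_apply, eh_right, smul_eq_mul,
      sub_self, mul_zero, Finset.sum_const_zero, zero_add, Pi.zero_apply] at h
    simp only [Finset.sum_apply, Pi.smul_apply, Pi.sub_apply, smul_eq_mul, Pi.zero_apply]
    exact h
  intro i
  exact Fin.addCases hl hr i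

end RMOD

open RMOD in
theorem t_RMOD : S_RMOD := by
  intro F K _ _ _ _ _ _ e' n B x he htr hx hgen A hA hind
  have hxl : ∀ l : Fin B.N, xh B x (Fin.castAdd n l) = algebraMap F K (B.s l.succ / B.s 0) := by
    intro l
    unfold xh
    rw [Fin.append_left]
  have hxr : ∀ l : Fin n, xh B x (Fin.natAdd B.N l) = x l := by
    intro l
    unfold xh
    rw [Fin.append_right]
  have hne : ∀ l, xh B x l ≠ 0 := by
    intro l
    refine Fin.addCases (fun l => ?_) (fun l => ?_) l
    · rw [hxl]
      exact (map_ne_zero _).2 (div_ne_zero (B.ne _) (B.ne _))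
    · rw [hxr]
      exact hx l
  have htop : IntermediateField.adjoin ℂ (Set.range (xh B x)) = ⊤ := by
    have hF : ∀ c : F, algebraMap F K c ∈ IntermediateField.adjoin ℂ (Set.range (xh B x)) := by
      intro c
      have hle : IntermediateField.adjoin ℂ (Set.range fun j => B.s j / B.s 0) ≤
          (IntermediateField.adjoin ℂ (Set.range (xh B x))).comap
            (IsScalarTower.toAlgHom ℂ F K) := by
        rw [IntermediateField.adjoin_le_iff]
        rintro _ ⟨j, rfl⟩
        change algebraMap F K (B.s j / B.s 0) ∈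
          IntermediateField.adjoin ℂ (Set.range (xh B x))
        refine Fin.cases ?_ (fun l => ?_) j
        · rw [div_self (B.ne 0), map_one]
          exact one_mem _
        · rw [← hxl]
          exact IntermediateField.subset_adjoin _ _ ⟨_, rfl⟩
      rw [B.gen] at hle
      exact hle (x := c) trivial
    rw [eq_top_iff]
    intro z _
    have hz : z ∈ IntermediateField.adjoin F (Set.range x) := by
      rw [hgen]
      trivial
    induction hz using IntermediateField.adjoin_induction with
    | mem y hy =>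
      obtain ⟨l, rfl⟩ := hy
      rw [← hxr]
      exact IntermediateField.subset_adjoin _ _ ⟨_, rfl⟩
    | algebraMap c => exact hF c
    | add y z _ _ h1 h2 => exact add_mem (h1 trivial) (h2 trivial)
    | inv y _ h1 => exact inv_mem (h1 trivial)
    | mul y z _ _ h1 h2 => exact mul_mem (h1 trivial) (h2 trivial)
  refine S_MOD_holds (xh B x) hne htop htr he (Ah B.N A) ?_ ?_
  · obtain ⟨a, ha⟩ := hA
    exact ⟨eh 0 a, Finset.mem_image.2 ⟨(0, a), Finset.mem_product.2 ⟨Finset.mem_univ _, ha⟩, rfl⟩⟩
  · intro a' ha'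
    obtain ⟨⟨j, a⟩, hp, rfl⟩ := Finset.mem_image.1 ha'
    have ha : a ∈ A := (Finset.mem_product.1 hp).2
    obtain ⟨b, hbA, hb⟩ := hind a ha
    refine ⟨Fin.append (fun l : Fin B.N => eh (j.succAbove l) a) (fun l : Fin n => eh j (b l)),
      fun l => ?_, indep j a b hb⟩
    refine Fin.addCases (fun l => ?_) (fun l => ?_) l
    · rw [Fin.append_left]
      exact Finset.mem_image.2 ⟨(_, a), Finset.mem_product.2 ⟨Finset.mem_univ _, ha⟩, rfl⟩
    · rw [Fin.append_right]
      exact Finset.mem_image.2 ⟨(j, b l), Finset.mem_product.2 ⟨Finset.mem_univ _, hbA l⟩, rfl⟩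

end

end RMM
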