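import Pool.Agent.RMM.StC
import Pool.Agent.MMCI.FBN
import Pool.Agent.MMCI.RGW
import Pool.Agent.MMCI.RSU
import Pool.Agent.MMCI.LCM
import Pool.Agent.MMCI.FRC
import Pool.Agent.MMCI.FUL

/-!
# Relative minimal models: the canonical divisor is nef in case (a)
-/

set_option autoImplicit false

namespace RMM

open MldGeo MMCI MMCI.FBN

noncomputable section

namespace RNEF

theorem pair_smul {n : ℕ} (w : Fin n → ℤ) (c : ℤ) (u : Fin n → ℤ) :
    pair w (c • u) = c * pair w u := by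
  unfold pair
  rw [Finset.mul_sum]
  refine Finset.sum_congr rfl fun i _ => ?_
  rw [Pi.smul_apply, smul_eq_mul]
  ring

theorem LCM_h : Stmt_LCM := t_LCM t_FRC

theorem RGW_h : Stmt_RGW := t_RGW t_RSU

end RNEF

open RNEF

theorem t_RNEF : M_RNEF := by
  intro hRCMQ hRTRA F K _ _ _ _ _ _ e' n r B κ b y0 β f x he htr hx hbpf hBD hnef D ω Y hlog hM
    ω' hω' γ k h g u hk hEq
  classical
  obtain ⟨w₀, i, m, j, mB, a, G, U, hmap, hpt, hU, hfin1, hfin2, hsum⟩ :=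
    hRCMQ B κ b y0 β f x he htr hx hbpf hBD D.toFan ω Y hlog hM ω' hω' γ k h g u hk hEq
  refine ⟨hfin1, ?_⟩
  obtain ⟨hmono, -, hmord, -⟩ := t_FUL x hx
  have hn := hM.normal
  obtain ⟨uniq, -, rmul, rinv, rpow, rconst, -⟩ := t_RSU γ
  have rone : γ.Restr (1 : K) (1 : γ.L) := by
    have h1 := rconst 1
    rwa [map_one, map_one] at h1
  have rinv1 : ∀ (z : K) (u : γ.L), γ.Restr z u → u ≠ 0 → γ.Restr z⁻¹ u⁻¹ := by
    intro z u h1 h2
    have h3 := (rinv _ _ h1 h2).2 (-1)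
    rwa [zpow_neg_one, zpow_neg_one] at h3
  have hκ : (0 : ℤ) < κ := by exact_mod_cast hBD.κ_pos
  have haA : ∀ w, a w ∈ D.A := fun w => (hpt w).mem
  have haM : ∀ w (v : DivVal e' K) (P : Ideal (Y.ring (i w))), IsPrimeDivisor (Y.ring (i w)) v P →
      P ≤ m w → MinAt D.A (a w) (wt x v) := fun w v P hP hPm =>
    ((hpt w).ctr v P ⟨hP.1, hP.2.2.1, hP.2.2.2⟩ hPm).2.1
  -- the restrictions of the monomials
  have hc : ∀ w, ∀ a' ∈ D.A, ∀ (v : DivVal e' K) (P : Ideal (Y.ring (i w))),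
      IsPrimeDivisor (Y.ring (i w)) v P → P ≤ m w →
      0 ≤ pair (wt x v) ((κ : ℤ) • (D.u a' - D.u (a w))) := by
    intro w a' ha' v P hP hPm
    rw [pair_smul, pair_sub]
    have h1 := D.nef _ _ a' (haM w v P hP hPm) ha'
    exact mul_nonneg hκ.le (sub_nonneg.2 h1)
  have ht : ∀ w, ∃ t : γ.L, t ≠ 0 ∧ 0 ≤ w.ord t ∧
      γ.Restr (mon x ((κ : ℤ) • (D.u (a w₀) - D.u (a w)))) t := by
    intro w
    obtain ⟨t, h1, h2⟩ := restr_ge LCM_h t_FUL RGW_h hx htr hn (hmap w)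
      (hc w (a w₀) (haA w₀))
    obtain ⟨t', h3, -⟩ := restr_ge LCM_h t_FUL RGW_h hx htr hn (hmap w₀)
      (hc w₀ (a w) (haA w))
    have h4 := rmul _ _ _ _ h1 h3
    rw [← hmono.add, ← smul_add, sub_add_sub_cancel, sub_self, smul_zero, hmono.zero] at h4
    have h5 : t ≠ 0 := by
      rintro rfl
      rw [zero_mul] at h4
      exact one_ne_zero (uniq _ _ _ rone h4)
    exact ⟨t, h5, h2.resolve_left h5, h1⟩
  choose t ht0 hto htr' using ht
  -- the composite curve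
  obtain ⟨φ, hφ, hφ2, hφ3⟩ := hRTRA B Y hBD.dimF hBD.normal γ w₀ i m j mB hmap
    (fun w => (hpt w).max) (fun w => (hpt w).res)
  have hα : ∀ w, ∃ p q : B.ring (j w₀), φ p ≠ 0 ∧ φ q ≠ 0 ∧ G w / G w₀ * (q : F) = p :=
    fun w => hφ3 (dlogs y0) (adj (fun i => coefs (f i)) Finset.univ) κ w w₀
      (G w) (G w₀) (hpt w).G_ne (hpt w₀).G_ne (hpt w).eqB (hpt w₀).eqB
  choose p q hp hq hpq using hα
  set α : DivVal 1 γ.L → γ.L := fun w => φ (p w) * (φ (q w))⁻¹ with hαd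
  have hα0 : ∀ w, α w ≠ 0 := fun w => mul_ne_zero (hp w) (inv_ne_zero (hq w))
  have hαr : ∀ w, γ.Restr (algebraMap F K (G w / G w₀)) (α w) := by
    intro w
    have h2 := rmul _ _ _ _ (hφ (p w)) (rinv1 _ _ (hφ (q w)) (hq w))
    have hqF : (q w : F) ≠ 0 := by
      intro h0
      have h1 : q w = 0 := Subtype.ext h0
      exact hq w (by rw [h1, map_zero])
    rw [← map_inv₀, ← map_mul, ← hpq, mul_assoc, mul_inv_cancel₀ hqF, mul_one] at h2
    exact h2
  -- the degree on `B`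
  have hdeg : {w : DivVal 1 γ.L | w.ord (α w) ≠ 0}.Finite ∧
      0 ≤ ∑ᶠ w : DivVal 1 γ.L, w.ord (α w) := by
    by_cases hcst : ∃ a, φ a ∉ Set.range (algebraMap ℂ γ.L)
    · refine hnef (dlogs y0) hBD.y0_ind (compCurve γ B (j w₀) φ hcst) κ (G w₀) G α hBD.κ_pos
        ⟨(hpt w₀).G_ne, hα0, fun w => ?_, fun w => ?_⟩
      · refine ⟨p w, q w, hq w, hpq w, ?_⟩
        change φ (p w) * (φ (q w))⁻¹ * φ (q w) = φ (p w)
        rw [mul_assoc, inv_mul_cancel₀ (hq w), mul_one]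
      · exact ⟨j w, mB w, hφ2 hcst w, (hpt w).eqB⟩
    · push Not at hcst
      have h0 : ∀ w : DivVal 1 γ.L, w.ord (α w) = 0 := by
        intro w
        obtain ⟨c, hc'⟩ := hcst (p w)
        obtain ⟨d, hd⟩ := hcst (q w)
        have h1 : α w = algebraMap ℂ γ.L (c * d⁻¹) := by
          rw [map_mul, map_inv₀, hc', hd]
        rw [h1, w.ord_const]
      refine ⟨?_, ?_⟩
      · have h1 : {w : DivVal 1 γ.L | w.ord (α w) ≠ 0} = ∅ := by
          ext w
          simp [h0 w]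
        rw [h1]
        exact Set.finite_empty
      · exact finsum_nonneg fun w => (h0 w).ge
  -- the orders
  have hUo : ∀ w : DivVal 1 γ.L, w.ord (U w) = (D.k : ℤ) * w.ord (α w) + w.ord (t w) := by
    intro w
    have h1 : U w = α w ^ D.k * t w := by
      refine uniq _ _ _ (hU w).2 ?_
      exact rmul _ _ _ _ (rpow _ _ _ (hαr w)) (htr' w)
    rw [h1, w.ord_mul _ _ (pow_ne_zero _ (hα0 w)) (ht0 w), FBN.ord_pow w (hα0 w)]
  have hfint : {w : DivVal 1 γ.L | w.ord (t w) ≠ 0}.Finite := by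
    refine (hfin2.union hdeg.1).subset fun w hw => ?_
    by_contra h1
    rw [Set.mem_union, not_or, Set.mem_ofPred_eq, Set.mem_ofPred_eq, not_not, not_not] at h1
    have h2 := hUo w
    rw [h1.1, h1.2, mul_zero, zero_add] at h2
    exact hw h2.symm
  have hpos : 0 ≤ ∑ᶠ w : DivVal 1 γ.L, w.ord (U w) := by
    have h1 : (∑ᶠ w : DivVal 1 γ.L, w.ord (U w)) =
        (∑ᶠ w : DivVal 1 γ.L, (D.k : ℤ) * w.ord (α w)) + ∑ᶠ w : DivVal 1 γ.L, w.ord (t w) := by
      rw [← finsum_add_distrib ?_ hfint]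
      · exact finsum_congr hUo
      · refine hdeg.1.subset fun w hw h2 => hw ?_
        change (D.k : ℤ) * w.ord (α w) = 0
        rw [h2, mul_zero]
    rw [h1, ← mul_finsum]
    exact add_nonneg (mul_nonneg (by positivity) hdeg.2) (finsum_nonneg hto)
  have hkk : (0 : ℤ) < ((D.k * κ : ℕ) : ℤ) := by
    exact_mod_cast Nat.mul_pos D.k_pos hBD.κ_pos
  have h1 : 0 ≤ ((D.k * κ : ℕ) : ℤ) * ∑ᶠ w : DivVal 1 γ.L, w.ord (u w) := by
    rw [hsum]
    exact mul_nonneg (by positivity) hpos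
  exact nonneg_of_mul_nonneg_right h1 hkk

end

end RMM
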