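import Pool.Agent.RMM.StC
import Pool.Agent.MMCI.FUL
import Pool.Agent.MldGeo.Ord

/-!
# RPT: the data at the closed points of the model
-/

set_option autoImplicit false

namespace RMM

open MldGeo MMCI

namespace RPT

theorem pair_neg_smul {n : ℕ} (w u : Fin n → ℤ) (κ : ℤ) :
    pair w (-(κ • u)) = -(κ * pair w u) := by
  unfold pair
  rw [Finset.mul_sum, ← Finset.sum_neg_distrib]
  refine Finset.sum_congr rfl fun i _ => ?_
  simp only [Pi.neg_apply, Pi.smul_apply, smul_eq_mul]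
  ring

end RPT

open RPT in
theorem t_RPT : M_RPT := by
  intro hKEY hBAS F K _ _ _ _ _ _ e' n r B κ b y0 β f x he' htr hx hbpf hBD D ω Y hRL hIM
  obtain ⟨S, hS⟩ := hBAS B κ b y0 β f hbpf hBD
  refine ⟨S, fun i m hm => ?_⟩
  obtain ⟨j, mB, a, hmB, ha, hres, hctr⟩ :=
    hKEY B κ β f x he' htr hBD.κ_pos hx hBD.normal D ω Y hRL hIM i m hm
  obtain ⟨G, hGS, hG0, heq, hord⟩ := hS j mB hmB
  refine ⟨j, mB, a, G, hGS, ⟨hmB, ha, hG0, hres, heq, fun v P hP hPm => ?_⟩⟩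
  obtain ⟨h1, h2, h3, h4⟩ := hctr v P hP hPm
  obtain ⟨-, -, hful, -⟩ := t_FUL x hx
  have hG1 : algebraMap F K G ≠ 0 := (map_ne_zero_iff _ (algebraMap F K).injective).mpr hG0
  obtain ⟨hm0, hm1⟩ := hful v (-((κ : ℤ) • D.u a))
  have hv : v.ord (eqq κ D.k x G (D.u a)) =
      D.k * bo κ β (fun i => coefs (f i)) v - κ * pair (wt x v) (D.u a) := by
    unfold eqq
    rw [v.ord_mul _ _ (pow_ne_zero _ hG1) hm0, DivVal.ord_pow, hord v h1, hm1, pair_neg_smul,
      sub_eq_add_neg]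
  have key : ((D.k * κ : ℕ) : ℤ) * v.formOrd ω - v.ord (eqq κ D.k x G (D.u a)) =
      D.k * (κ * v.formOrd ω - bo κ β (fun i => coefs (f i)) v) +
        κ * pair (wt x v) (D.u a) := by
    rw [hv]
    push_cast
    ring
  rw [key]
  exact ⟨h1, h2, h3, h4⟩

end RMM
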