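import Pool.Agent.RMM.StC
import Pool.Agent.MMCI.K_RES
import Pool.Agent.MMCI.LOV
import Pool.Agent.MMCI.FUL

/-!
# RRES: the residues of the functions on the base and of the monomials
-/

set_option autoImplicit false

namespace RMM.RRES

open MldGeo MMCI RMM MMCI.RES

variable {F K : Type} [Field F] [Field K] [Algebra ℂ F] [Algebra ℂ K] [Algebra F K]
  [IsScalarTower ℂ F K] {e' n k : ℕ}

/-- two charts through the centre: the quotient of the coordinates has order zero -/
theorem ord_quot (B : ProjModel F) (v : DivVal e' K) (j j' : Fin (B.N + 1))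
    (hj : OnChart B v j) (hj' : OnChart B v j') :
    v.ord (algebraMap F K (B.s j' / B.s j)) = 0 := by
  have h0 : B.s j' / B.s j ≠ 0 := div_ne_zero (B.ne _) (B.ne _)
  have h0' : B.s j / B.s j' ≠ 0 := div_ne_zero (B.ne _) (B.ne _)
  have e0 : algebraMap F K (B.s j' / B.s j) ≠ 0 := (map_ne_zero _).2 h0
  have e0' : algebraMap F K (B.s j / B.s j') ≠ 0 := (map_ne_zero _).2 h0'
  have h1 : 0 ≤ v.ord (algebraMap F K (B.s j' / B.s j)) := by
    rcases hj _ (Algebra.subset_adjoin ⟨j', rfl⟩) with h | h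
    · exact absurd h e0
    · exact h
  have h2 : 0 ≤ v.ord (algebraMap F K (B.s j / B.s j')) := by
    rcases hj' _ (Algebra.subset_adjoin ⟨j, rfl⟩) with h | h
    · exact absurd h e0'
    · exact h
  have h3 := v.ord_mul _ _ e0 e0'
  rw [← map_mul, div_mul_div_cancel₀ (B.ne _), div_self (B.ne _), map_one] at h3
  have h4 : v.ord (1 : K) = 0 := by
    have := v.ord_const 1
    rwa [map_one] at this
  rw [h4] at h3
  omega

/-- an element of the local ring of the centre is a quotient of elements of the given chart -/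
theorem inO (B : ProjModel F) (v : DivVal e' K) (j : Fin (B.N + 1)) (hj : OnChart B v j)
    {a : F} (ha : InO B v a) : ∃ p ∈ B.ring j, ∃ q ∈ B.ring j, q ≠ 0 ∧
      v.ord (algebraMap F K q) = 0 ∧ a * q = p := by
  obtain ⟨j', hj', p, hp, q, hq, hq0, hqo, hpq⟩ := ha
  obtain ⟨d1, h1⟩ := t_LOV B.s B.ne j' j p hp
  obtain ⟨d2, h2⟩ := t_LOV B.s B.ne j' j q hq
  have hc : B.s j' / B.s j ∈ B.ring j := Algebra.subset_adjoin ⟨j', rfl⟩
  have h0 : B.s j' / B.s j ≠ 0 := div_ne_zero (B.ne _) (B.ne _)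
  have h1' : p * (B.s j' / B.s j) ^ d1 ∈ B.ring j := h1
  have h2' : q * (B.s j' / B.s j) ^ d2 ∈ B.ring j := h2
  refine ⟨p * (B.s j' / B.s j) ^ (d1 + d2), ?_, q * (B.s j' / B.s j) ^ (d1 + d2), ?_, ?_, ?_, ?_⟩
  · rw [pow_add, ← mul_assoc]
    exact Subalgebra.mul_mem _ h1' (Subalgebra.pow_mem _ hc _)
  · rw [add_comm, pow_add, ← mul_assoc]
    exact Subalgebra.mul_mem _ h2' (Subalgebra.pow_mem _ hc _)
  · exact mul_ne_zero hq0 (pow_ne_zero _ h0)
  · rw [map_mul, map_pow, v.ord_mul _ _ ((map_ne_zero _).2 hq0)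
      (pow_ne_zero _ ((map_ne_zero _).2 h0)), hqo, v.ord_pow,
      ord_quot B v j j' hj hj']
    simp
  · rw [← mul_assoc, hpq]

end RMM.RRES

namespace RMM

open MldGeo MMCI MMCI.RES RMM.RRES

theorem t_RRES : S_RRES := by
  intro F K _ _ _ _ _ _ e' n k B x hx v j hj hBig b hb hspan
  obtain ⟨c, q, hcq, hu⟩ := hBig
  obtain ⟨m1, -, m3, -⟩ := t_FUL x hx
  letI := alg v
  set t : Fin (B.N + 1) ⊕ Fin k → K := Sum.elim (fun j' => algebraMap F K (B.s j' / B.s j))
    (fun l' => mon x (b l')) with ht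
  have hmon : ∀ m : Fin n → ℤ, pair (wt x v) m = 0 → mon x m ≠ 0 ∧ v.ord (mon x m) = 0 := by
    intro m hm
    have := m3 v m
    exact ⟨this.1, by rw [this.2, hm]⟩
  have ht' : ∀ i, v.Ge 0 (t i) := by
    rintro (j' | l')
    · exact hj _ (Algebra.subset_adjoin ⟨j', rfl⟩)
    · exact Or.inr (hmon _ (hb l')).2.ge
  have hu' := ge_of_resIndep v hu
  refine RES.choose v t ht' (fun l => algebraMap F K (c l) * mon x (q l)) hu' hu fun i => ?_
  set A := Algebra.adjoin ℂ (Set.range fun j => resi v ⟨t j, ht' j⟩) with hA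
  obtain ⟨hc1, hc2, hc3, hq⟩ := hcq i
  have hcK : algebraMap F K (c i) ≠ 0 := (map_ne_zero _).2 hc2
  have hcG : v.Ge 0 (algebraMap F K (c i)) := Or.inr hc3.ge
  have hqG : v.Ge 0 (mon x (q i)) := Or.inr (hmon _ hq).2.ge
  have hsplit : resi v ⟨algebraMap F K (c i) * mon x (q i), hu' i⟩ =
      resi v ⟨algebraMap F K (c i), hcG⟩ * resi v ⟨mon x (q i), hqG⟩ := by
    rw [← map_mul]
    rfl
  rw [hsplit]
  refine IsAlgebraic.mul ?_ ?_
  · -- the function on the base
    obtain ⟨p1, hp1, q1, hq1, hq10, hq1o, hpq⟩ := inO B v j hj hc1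
    have key : ∀ a ∈ B.ring j, ∃ h : v.Ge 0 (algebraMap F K a),
        resi v ⟨algebraMap F K a, h⟩ ∈ A := by
      intro a ha
      unfold ProjModel.ring at ha
      induction ha using Algebra.adjoin_induction with
      | mem y hy =>
        obtain ⟨j', rfl⟩ := hy
        exact ⟨ht' (Sum.inl j'), Algebra.subset_adjoin ⟨Sum.inl j', rfl⟩⟩
      | algebraMap r =>
        have e1 : algebraMap F K (algebraMap ℂ F r) = algebraMap ℂ K r :=
          (IsScalarTower.algebraMap_apply ℂ F K r).symm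
        have h1 : v.Ge 0 (algebraMap F K (algebraMap ℂ F r)) := by
          rw [e1]
          exact DivVal.Ge.const v r
        refine ⟨h1, ?_⟩
        have e2 : (⟨algebraMap F K (algebraMap ℂ F r), h1⟩ : v.OV) = algebraMap ℂ v.OV r :=
          Subtype.ext e1
        rw [e2, AlgHom.commutes]
        exact Subalgebra.algebraMap_mem _ _
      | add y z _ _ hy hz =>
        obtain ⟨h1, h2⟩ := hy
        obtain ⟨h3, h4⟩ := hz
        have h5 : (⟨algebraMap F K y, h1⟩ : v.OV) + ⟨algebraMap F K z, h3⟩ =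
            ⟨algebraMap F K (y + z), by
              rw [map_add]
              exact v.OV.add_mem _ _ h1 h3⟩ := Subtype.ext (map_add _ _ _).symm
        have h6 : algebraMap F K (y + z) ∈ v.OV := by
          rw [map_add]
          exact v.OV.add_mem _ _ h1 h3
        refine ⟨h6, ?_⟩
        have h7 := Subalgebra.add_mem _ h2 h4
        rw [← map_add, h5] at h7
        exact h7
      | mul y z _ _ hy hz =>
        obtain ⟨h1, h2⟩ := hy
        obtain ⟨h3, h4⟩ := hz
        have h5 : (⟨algebraMap F K y, h1⟩ : v.OV) * ⟨algebraMap F K z, h3⟩ =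
            ⟨algebraMap F K (y * z), by
              rw [map_mul]
              exact v.OV.mul_mem _ _ h1 h3⟩ := Subtype.ext (map_mul _ _ _).symm
        have h6 : algebraMap F K (y * z) ∈ v.OV := by
          rw [map_mul]
          exact v.OV.mul_mem _ _ h1 h3
        refine ⟨h6, ?_⟩
        have h7 := Subalgebra.mul_mem _ h2 h4
        rw [← map_mul, h5] at h7
        exact h7
    obtain ⟨hp2, hp3⟩ := key p1 hp1
    obtain ⟨hq2, hq3⟩ := key q1 hq1
    have h1 : resi v ⟨algebraMap F K (c i), hcG⟩ * resi v ⟨algebraMap F K q1, hq2⟩ =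
        resi v ⟨algebraMap F K p1, hp2⟩ := by
      rw [← map_mul]
      congr 1
      apply Subtype.ext
      change algebraMap F K (c i) * algebraMap F K q1 = algebraMap F K p1
      rw [← map_mul, hpq]
    have h2 : resi v ⟨algebraMap F K q1, hq2⟩ ≠ 0 :=
      (resi_ne v _).2 ⟨(map_ne_zero _).2 hq10, hq1o⟩
    have h3 : resi v ⟨algebraMap F K (c i), hcG⟩ =
        resi v ⟨algebraMap F K p1, hp2⟩ * (resi v ⟨algebraMap F K q1, hq2⟩)⁻¹ := by
      rw [← h1, mul_assoc, mul_inv_cancel₀ h2, mul_one]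
    rw [h3]
    exact (isAlgebraic_algebraMap (⟨_, hp3⟩ : A)).mul (isAlgebraic_algebraMap (⟨_, hq3⟩ : A)).inv
  · -- the monomial
    have ht2 : ∀ j', mon x (b j') ≠ 0 ∧ v.ord (mon x (b j')) = 0 := fun j' => hmon _ (hb j')
    have hb' : ∀ j', v.Ge 0 (mon x (b j')) := fun j' => Or.inr (ht2 j').2.ge
    obtain ⟨M, c', hM0, hMc⟩ : ∃ (M : ℕ) (c' : Fin k → ℤ), 0 < M ∧
        mon x (q i) ^ M = ∏ j, mon x (b j) ^ c' j := by
      obtain ⟨N, c', hN, hNc⟩ := hspan (q i) hq
      have h1 : mon x (q i) ^ N = ∏ j, mon x (b j) ^ c' j := by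
        rw [← mon_zsmul, hNc, mon_sum x hx]
      rcases lt_or_gt_of_ne hN with hlt | hgt
      · refine ⟨N.natAbs, fun j => - c' j, Int.natAbs_pos.2 hN, ?_⟩
        have h2 : ((N.natAbs : ℕ) : ℤ) = -N := by omega
        rw [← zpow_natCast, h2, zpow_neg, h1, ← Finset.prod_inv_distrib]
        exact Finset.prod_congr rfl fun j _ => (zpow_neg _ _).symm
      · refine ⟨N.natAbs, c', Int.natAbs_pos.2 hN, ?_⟩
        have h2 : ((N.natAbs : ℕ) : ℤ) = N := by omega
        rw [← zpow_natCast, h2, h1]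
    refine IsAlgebraic.of_pow hM0 ?_
    have h1 : mon x (q i) ^ M * ∏ j, mon x (b j) ^ (-(c' j)).toNat =
        ∏ j, mon x (b j) ^ (c' j).toNat := by
      rw [hMc, ← Finset.prod_mul_distrib]
      exact Finset.prod_congr rfl fun j _ => zpow_split (mon x (b j)) (ht2 j).1 (c' j)
    have h2 : (⟨mon x (q i), hqG⟩ : v.OV) ^ M *
        ∏ j, (⟨mon x (b j), hb' j⟩ : v.OV) ^ (-(c' j)).toNat
        = ∏ j, (⟨mon x (b j), hb' j⟩ : v.OV) ^ (c' j).toNat := by
      have hinj : Function.Injective (incl v) := Subtype.val_injective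
      apply hinj
      rw [map_mul, map_pow, map_prod, map_prod]
      simp only [map_pow]
      exact h1
    have h3 := congrArg (resi v) h2
    rw [map_mul, map_pow, map_prod, map_prod] at h3
    simp only [map_pow] at h3
    have h4 : ∀ j', resi v ⟨mon x (b j'), hb' j'⟩ ≠ 0 := fun j' => (resi_ne v _).2 (ht2 j')
    have h5 : ∏ j', resi v ⟨mon x (b j'), hb' j'⟩ ^ (-(c' j')).toNat ≠ 0 :=
      Finset.prod_ne_zero_iff.2 fun j' _ => pow_ne_zero _ (h4 j')
    have hmem : ∀ n : Fin k → ℕ, ∏ j', resi v ⟨mon x (b j'), hb' j'⟩ ^ n j' ∈ A := fun n =>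
      Subalgebra.prod_mem _ fun j' _ => Subalgebra.pow_mem _
        (Algebra.subset_adjoin (Set.mem_range_self (Sum.inr j'))) _
    have h6 : ∀ n : Fin k → ℕ, IsAlgebraic A (∏ j', resi v ⟨mon x (b j'), hb' j'⟩ ^ n j') :=
      fun n => isAlgebraic_algebraMap (⟨_, hmem n⟩ : A)
    have h7 : resi v ⟨mon x (q i), hqG⟩ ^ M = (∏ j', resi v ⟨mon x (b j'), hb' j'⟩ ^ (c' j').toNat)
        * (∏ j', resi v ⟨mon x (b j'), hb' j'⟩ ^ (-(c' j')).toNat)⁻¹ := by
      rw [← h3, mul_assoc, mul_inv_cancel₀ h5, mul_one]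
    rw [h7]
    exact (h6 _).mul (h6 _).inv

end RMM
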