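import Pool.Agent.RMM.StC
import Pool.Agent.MMCI.CD
import Pool.Agent.MMCI.Tools

/-!
# RSEM: the canonical divisor is semiample in case (a)
-/

set_option autoImplicit false

namespace RMM

open MldGeo MMCI

noncomputable section

namespace RSEM

theorem pair_smul {n : ℕ} (w m : Fin n → ℤ) (c : ℤ) : pair w (c • m) = c * pair w m := by
  unfold pair
  rw [Finset.mul_sum]
  refine Finset.sum_congr rfl fun i _ => ?_
  simp only [Pi.smul_apply, smul_eq_mul]
  ring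

theorem pair_neg {n : ℕ} (w m : Fin n → ℤ) : pair w (-m) = - pair w m := by
  unfold pair
  rw [← Finset.sum_neg_distrib]
  refine Finset.sum_congr rfl fun i _ => ?_
  simp

variable {F K : Type} [Field F] [Field K] [Algebra ℂ F] [Algebra ℂ K] [Algebra F K]
  [IsScalarTower ℂ F K] {e' : ℕ}

omit [IsScalarTower ℂ F K] in
theorem unit_ord {B : ProjModel F} {v : DivVal e' K} {j : Fin (B.N + 1)} {m : Ideal (B.ring j)}
    (hT : Through B v j m) {q : B.ring j} (hq : q ∉ m) : v.ord (algebraMap F K q) = 0 := by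
  have h1 : v.Ge 0 (algebraMap F K q) := hT.1 q q.2
  have h2 : ¬ v.Ge 1 (algebraMap F K q) := fun h => hq (hT.2 q h)
  have hq0 : algebraMap F K q ≠ 0 := fun h => h2 (Or.inl h)
  have h3 := h1.le hq0
  have h4 : ¬ 1 ≤ v.ord (algebraMap F K q) := fun h => h2 (Or.inr h)
  omega

omit [IsScalarTower ℂ F K] in
theorem ord_nonneg {B : ProjModel F} {v : DivVal e' K} {j : Fin (B.N + 1)} {m : Ideal (B.ring j)}
    (hT : Through B v j m) {z : F} (hz : z ≠ 0) {p q : B.ring j} (hq : q ∉ m)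
    (h : z * (q : F) = p) : 0 ≤ v.ord (algebraMap F K z) := by
  have hq0 := unit_ord hT hq
  have hqne : (q : F) ≠ 0 := by
    intro h0
    apply hq
    have h1 : q = 0 := Subtype.ext h0
    rw [h1]
    exact m.zero_mem
  have hp : v.Ge 0 (algebraMap F K p) := hT.1 p p.2
  rw [← h, map_mul] at hp
  have hz' : algebraMap F K z ≠ 0 := (map_ne_zero _).2 hz
  have hq' : algebraMap F K (q : F) ≠ 0 := (map_ne_zero _).2 hqne
  have h2 := hp.le (mul_ne_zero hz' hq')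
  rw [v.ord_mul _ _ hz' hq', hq0, add_zero] at h2
  exact h2

/-- The order of a section. -/
theorem ordSection (v : DivVal e' K) {g a c : K} (hg : g ≠ 0) (ha : a ≠ 0) (hc : c ≠ 0)
    (k l : ℕ) : v.ord ((g ^ k)⁻¹ * (a ^ l * c)) = l * v.ord a + v.ord c - k * v.ord g := by
  rw [v.ord_mul _ _ (inv_ne_zero (pow_ne_zero k hg)) (mul_ne_zero (pow_ne_zero l ha) hc),
    v.ord_mul _ _ (pow_ne_zero l ha) hc, DivVal.ord_inv, DivVal.ord_pow, DivVal.ord_pow]
  ring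

omit [IsScalarTower ℂ F K] in
/-- The sections `h_l` at the point `m`. -/
theorem local_sections {b : ℕ} (B : ProjModel F) (κ : ℕ) (ω : Forms b F)
    (Δ : DivVal b F → ℤ)
    (hdim : Algebra.trdeg ℂ F = (b : Cardinal))
    (hnor : ∀ j (a : F), IsIntegral (B.ring j) a → a ∈ B.ring j) {k0 : ℕ} {c : F} (hc : c ≠ 0)
    {j : Fin (B.N + 1)} {m : Ideal (B.ring j)} (hm : m.IsMaximal) {G : F} (hG : G ≠ 0)
    (hE : IsEqD (B.ring j) ω Δ κ m G) :
    ((∀ (v : DivVal b F) (P : Ideal (B.ring j)), IsPrimeDivisor (B.ring j) v P → P ≤ m →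
      0 ≤ v.ord c + k0 * (v.formOrd ω + Δ v)) →
      ∀ v : DivVal e' K, Through B v j m →
        0 ≤ κ * v.ord (algebraMap F K c) + k0 * v.ord (algebraMap F K G)) ∧
    ((∀ (v : DivVal b F) (P : Ideal (B.ring j)), IsPrimeDivisor (B.ring j) v P → P ≤ m →
      v.ord c + k0 * (v.formOrd ω + Δ v) = 0) →
      ∀ v : DivVal e' K, Through B v j m →
        κ * v.ord (algebraMap F K c) + k0 * v.ord (algebraMap F K G) = 0) := by
  have hz : c ^ κ * G ^ k0 ≠ 0 := mul_ne_zero (pow_ne_zero _ hc) (pow_ne_zero _ hG)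
  have hordF : ∀ (v : DivVal b F) (P : Ideal (B.ring j)), IsPrimeDivisor (B.ring j) v P →
      P ≤ m → v.ord (c ^ κ * G ^ k0) = κ * (v.ord c + k0 * (v.formOrd ω + Δ v)) := by
    intro v P hP hPm
    rw [v.ord_mul _ _ (pow_ne_zero _ hc) (pow_ne_zero _ hG), DivVal.ord_pow, DivVal.ord_pow,
      hE v P hP hPm]
    ring
  have hordK : ∀ v : DivVal e' K, v.ord (algebraMap F K (c ^ κ * G ^ k0)) =
      κ * v.ord (algebraMap F K c) + k0 * v.ord (algebraMap F K G) := by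
    intro v
    rw [map_mul, map_pow, map_pow, v.ord_mul _ _ (pow_ne_zero _ ((map_ne_zero _).2 hc))
      (pow_ne_zero _ ((map_ne_zero _).2 hG)), DivVal.ord_pow, DivVal.ord_pow]
  have h1 : (∀ (v : DivVal b F) (P : Ideal (B.ring j)), IsPrimeDivisor (B.ring j) v P → P ≤ m →
      0 ≤ v.ord c + k0 * (v.formOrd ω + Δ v)) →
      ∀ v : DivVal e' K, Through B v j m →
        0 ≤ κ * v.ord (algebraMap F K c) + k0 * v.ord (algebraMap F K G) := by
    intro h v hT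
    obtain ⟨p, q, hq, hpq⟩ := LCM_holds B hdim hnor j m hm (c ^ κ * G ^ k0) (by
      intro v P hP hPm
      refine Or.inr ?_
      rw [hordF v P hP hPm]
      exact mul_nonneg (Int.natCast_nonneg _) (h v P hP hPm))
    rw [← hordK]
    exact ord_nonneg hT hz hq hpq
  refine ⟨h1, fun h v hT => le_antisymm ?_ (h1 (fun v P hP hPm => (h v P hP hPm).ge) v hT)⟩
  obtain ⟨p, q, hq, hpq⟩ := LCM_holds B hdim hnor j m hm (c ^ κ * G ^ k0)⁻¹ (by
    intro v P hP hPm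
    refine Or.inr ?_
    rw [DivVal.ord_inv, hordF v P hP hPm, h v P hP hPm]
    simp)
  have h2 := ord_nonneg hT (inv_ne_zero hz) hq hpq
  rw [map_inv₀, DivVal.ord_inv, hordK] at h2
  linarith

end RSEM

theorem t_RSEM : M_RSEM := by
  intro hRPT F K _ _ _ _ _ _ e' n r B κ b y0 β f x he htr hx hbpf hB hsem D ω Y hω hY ω' hω'
  obtain ⟨g, hg, -, hgv⟩ := t_CHW htr he ω ω' hω.ne hω'
  obtain ⟨k0, N, h, hk0, hne, hge, heq⟩ := hsem (dlogs y0) hB.y0_ind
  obtain ⟨S, hS⟩ := hRPT B κ b y0 β f x he htr hx hbpf hB D.toFan ω Y hω hY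
  have hful : ∀ (v : DivVal e' K) (m : Fin n → ℤ), mon x m ≠ 0 ∧
      v.ord (mon x m) = pair (wt x v) m := fun v m => (t_FUL x hx).2.2.1 v m
  have hmne : ∀ m : Fin n → ℤ, mon x m ≠ 0 := by
    intro m
    unfold mon
    exact Finset.prod_ne_zero_iff.2 fun i _ => zpow_ne_zero _ (hx i)
  have hhne : ∀ l, algebraMap F K (h l) ≠ 0 := fun l => (map_ne_zero _).2 (hne l)
  -- the sections
  have hord : ∀ (v : DivVal e' K) (l : Fin N) (a : Fin n → ℤ),
      v.ord ((g ^ (D.k * κ * k0))⁻¹ * (algebraMap F K (h l) ^ (κ * D.k) *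
        mon x (((κ * k0 : ℕ) : ℤ) • D.u a))) + ((D.k * κ * k0 : ℕ) : ℤ) * v.formOrd ω' =
      (κ : ℤ) * D.k * v.ord (algebraMap F K (h l)) + (κ : ℤ) * k0 * pair (wt x v) (D.u a) +
        (D.k : ℤ) * κ * k0 * v.formOrd ω := by
    intro v l a
    rw [RSEM.ordSection v hg (hhne l) (hmne _), (hful v _).2, RSEM.pair_smul, hgv v]
    push_cast
    ring
  -- the order of the equation
  have heqq : ∀ (v : DivVal e' K) (G : F) (a : Fin n → ℤ), G ≠ 0 →
      v.ord (eqq κ D.k x G (D.u a)) =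
        (D.k : ℤ) * v.ord (algebraMap F K G) - κ * pair (wt x v) (D.u a) := by
    intro v G a hG
    unfold eqq
    rw [v.ord_mul _ _ (pow_ne_zero _ ((map_ne_zero _).2 hG)) (hmne _), DivVal.ord_pow,
      (hful v _).2, RSEM.pair_neg, RSEM.pair_smul]
    ring
  -- the total order at a prime divisor
  have htot : ∀ (i : Fin (Y.N + 1)) (m : Ideal (Y.ring i)) (j : Fin (B.N + 1))
      (mB : Ideal (B.ring j)) (a : Fin n → ℤ) (G : F),
      IsPt B κ y0 (fun i => coefs (f i)) x D.A D.k D.u ω Y i m j mB a G →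
      ∀ (v : DivVal e' K) (P : Ideal (Y.ring i)), IsPrimeDivisor (Y.ring i) v P → P ≤ m →
      ∀ (l : Fin N) (a' : Fin n → ℤ),
      v.ord ((g ^ (D.k * κ * k0))⁻¹ * (algebraMap F K (h l) ^ (κ * D.k) *
        mon x (((κ * k0 : ℕ) : ℤ) • D.u a'))) + ((D.k * κ * k0 : ℕ) : ℤ) * v.formOrd ω' =
      (D.k : ℤ) * (κ * v.ord (algebraMap F K (h l)) + k0 * v.ord (algebraMap F K G)) +
        (κ : ℤ) * k0 * (pair (wt x v) (D.u a') - pair (wt x v) (D.u a)) := by
    intro i m j mB a G hpt v P hP hPm l a'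
    obtain ⟨-, -, -, h4⟩ := hpt.ctr v P ⟨hP.1, hP.2.2.1, hP.2.2.2⟩ hPm
    have h5 := h4.2 hP.2.1
    rw [heqq v G a hpt.G_ne] at h5
    push_cast at h5
    have h6 : (D.k : ℤ) * κ * v.formOrd ω =
        D.k * v.ord (algebraMap F K G) - κ * pair (wt x v) (D.u a) := by linarith
    have h7 : (D.k : ℤ) * κ * k0 * v.formOrd ω =
        k0 * (D.k * v.ord (algebraMap F K G) - κ * pair (wt x v) (D.u a)) := by
      rw [← h6]
      ring
    rw [hord, h7]
    ring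
  let E : Fin (N * D.A.card) ≃ Fin N × {a // a ∈ D.A} :=
    finProdFinEquiv.symm.trans (Equiv.prodCongr (Equiv.refl _) D.A.equivFin.symm)
  refine ⟨D.k * κ * k0, N * D.A.card, fun l => (g ^ (D.k * κ * k0))⁻¹ *
    (algebraMap F K (h (E l).1) ^ (κ * D.k) *
      mon x (((κ * k0 : ℕ) : ℤ) • D.u ((E l).2 : Fin n → ℤ))),
    Nat.mul_pos (Nat.mul_pos D.k_pos hB.κ_pos) hk0, ?_, ?_, ?_⟩
  · intro l
    exact mul_ne_zero (inv_ne_zero (pow_ne_zero _ hg))
      (mul_ne_zero (pow_ne_zero _ (hhne _)) (hmne _))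
  · intro l i v P hP
    obtain ⟨m, hmax, hPm⟩ := P.exists_le_maximal hP.1.ne_top
    obtain ⟨j, mB, a, G, -, hpt⟩ := hS i m hmax
    obtain ⟨h1, h2, -, -⟩ := hpt.ctr v P ⟨hP.1, hP.2.2.1, hP.2.2.2⟩ hPm
    have h3 := (RSEM.local_sections (e' := e') (K := K) B κ (dlogs y0)
      (adj (fun i => coefs (f i)) Finset.univ) hB.dimF hB.normal (k0 := k0) (hne (E l).1)
      hpt.max hpt.G_ne hpt.eqB).1 (fun v P hP _ => hge (E l).1 j v P hP) v h1
    have h4 := D.nef (wt x v) a ((E l).2 : Fin n → ℤ) h2 (E l).2.2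
    have h5 := htot i m j mB a G hpt v P hP hPm (E l).1 ((E l).2 : Fin n → ℤ)
    show 0 ≤ v.ord ((g ^ (D.k * κ * k0))⁻¹ * (algebraMap F K (h (E l).1) ^ (κ * D.k) *
      mon x (((κ * k0 : ℕ) : ℤ) • D.u ((E l).2 : Fin n → ℤ)))) +
        ((D.k * κ * k0 : ℕ) : ℤ) * v.formOrd ω'
    rw [h5]
    have h6 : (0 : ℤ) ≤ D.k * (κ * v.ord (algebraMap F K (h (E l).1)) +
        k0 * v.ord (algebraMap F K G)) := mul_nonneg (Int.natCast_nonneg _) h3
    have h7 : (0 : ℤ) ≤ κ * k0 * (pair (wt x v) (D.u ((E l).2 : Fin n → ℤ)) -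
        pair (wt x v) (D.u a)) := mul_nonneg (by positivity) (by linarith)
    linarith
  · intro i m hmax
    obtain ⟨j, mB, a, G, -, hpt⟩ := hS i m hmax
    obtain ⟨l, hl⟩ := heq j mB hpt.max
    refine ⟨E.symm (l, ⟨a, hpt.mem⟩), fun v P hP hPm => ?_⟩
    obtain ⟨h1, h2, -, -⟩ := hpt.ctr v P ⟨hP.1, hP.2.2.1, hP.2.2.2⟩ hPm
    have h3 := (RSEM.local_sections (e' := e') (K := K) B κ (dlogs y0)
      (adj (fun i => coefs (f i)) Finset.univ) hB.dimF hB.normal (k0 := k0) (hne l)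
      hpt.max hpt.G_ne hpt.eqB).2 hl v h1
    have h5 := htot i m j mB a G hpt v P hP hPm l a
    show v.ord ((g ^ (D.k * κ * k0))⁻¹ *
      (algebraMap F K (h (E (E.symm (l, ⟨a, hpt.mem⟩))).1) ^ (κ * D.k) *
      mon x (((κ * k0 : ℕ) : ℤ) • D.u ((E (E.symm (l, ⟨a, hpt.mem⟩))).2 : Fin n → ℤ)))) +
        ((D.k * κ * k0 : ℕ) : ℤ) * v.formOrd ω' = 0
    rw [Equiv.apply_symm_apply]
    show v.ord ((g ^ (D.k * κ * k0))⁻¹ * (algebraMap F K (h l) ^ (κ * D.k) *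
      mon x (((κ * k0 : ℕ) : ℤ) • D.u a))) + ((D.k * κ * k0 : ℕ) : ℤ) * v.formOrd ω' = 0
    rw [h5, h3]
    ring

end

end RMM
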