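import Pool.Agent.RMM.StC
import Pool.Agent.MMCI.K_KEY

/-!
# Relative minimal models: RSUP, the polynomials `supp0 g`
-/

set_option autoImplicit false

namespace RMM

open MldGeo MMCI

noncomputable section

namespace RSUP

variable {F : Type} [Field F] {n : ℕ}

theorem supp_eq (g : LR F n) : (supp0 g).coeff.support = g.coeff.support := by
  ext a
  rw [Finsupp.mem_support_iff]
  change (Finsupp.indicator g.coeff.support fun _ _ => (1 : ℂ)) a ≠ 0 ↔ _
  by_cases h : a ∈ g.coeff.support
  · rw [Finsupp.indicator_of_mem h]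
    simp [h]
  · rw [Finsupp.indicator_of_notMem h]
    simp [h]

theorem minOn_eq (g : LR F n) (w : Fin n → ℤ) : minOn (supp0 g) w = rmin g w := by
  unfold MMCI.minOn rmin
  rw [supp_eq]

theorem ne_zero {g : LR F n} (hg : g ≠ 0) : supp0 g ≠ 0 := by
  intro h
  apply hg
  have h1 : (supp0 g).coeff.support = ∅ := by
    rw [h]
    rfl
  rw [supp_eq, Finsupp.support_eq_empty] at h1
  exact AddMonoidAlgebra.coeff_eq_zero.1 h1

end RSUP

theorem t_RSUP : S_RSUP := by
  intro F _ n g
  refine ⟨RSUP.supp_eq g, RSUP.minOn_eq g, fun k w hk => ?_, RSUP.ne_zero⟩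
  by_cases hg : g = 0
  · subst hg
    have h1 : ∀ u : Fin n → ℤ, rmin (0 : LR F n) u = 0 := by
      intro u
      unfold rmin
      have h2 : ((0 : LR F n).coeff.support : Set (Fin n → ℤ)) = ∅ := by
        simp
      rw [h2, Set.image_empty, Int.csInf_empty]
    rw [h1, h1, mul_zero]
  · rw [← RSUP.minOn_eq, ← RSUP.minOn_eq]
    exact KEY.minOn_smul _ (RSUP.ne_zero hg) k hk w

end

end RMM
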