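import Pool.Agent.RMM.StC
import Pool.Agent.MMCI.CHW
import Pool.Agent.MldGeo.Ord

/-!
# RTER: the relative projective model has terminal singularities
-/

set_option autoImplicit false

namespace RMM

open MldGeo MldGeo.DivVal MMCI

noncomputable section

namespace RTERa

/-- the local equation is not zero -/
theorem eqq_ne {F K : Type} [Field F] [Field K] [Algebra F K] {n : ℕ} (κ k : ℕ) {x : Fin n → K}
    (hx : ∀ j, x j ≠ 0) {G : F} (hG : G ≠ 0) (u : Fin n → ℤ) : eqq κ k x G u ≠ 0 := by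
  unfold eqq
  refine mul_ne_zero (pow_ne_zero _ ?_) ?_
  · rwa [Ne, map_eq_zero_iff _ (algebraMap F K).injective]
  · unfold mon
    exact Finset.prod_ne_zero_iff.2 fun j _ => zpow_ne_zero _ (hx j)

theorem ord_eqn {e' : ℕ} {K : Type} [Field K] [Algebra ℂ K] (v : DivVal e' K) {g y : K}
    (hg : g ≠ 0) (hy : y ≠ 0) (k : ℕ) : v.ord (g ^ k * y) = k * v.ord g + v.ord y := by
  rw [v.ord_mul _ _ (pow_ne_zero _ hg) hy, ord_pow]

theorem hasCentre {e' : ℕ} {K : Type} [Field K] [Algebra ℂ K] {R : Subalgebra ℂ K}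
    {v : DivVal e' K} {P : Ideal R} (h : IsPrimeDivisor R v P) : HasCentre R v P :=
  ⟨h.1, h.2.2.1, h.2.2.2⟩

end RTERa

open RTERa in
theorem t_RTER : M_RTER := by
  intro hRPT F K _ _ _ _ _ _ e' n r B κ b y0 β f x he htr hx hbpf hB D ω Y hL hM i
  refine ⟨hM.normal i, ?_⟩
  intro ω' hω' m hm
  obtain ⟨g, hg, -, hord⟩ := t_CHW htr he ω ω' hL.ne hω'
  obtain ⟨S, hS⟩ := hRPT B κ b y0 β f x he htr hx hbpf hB D ω Y hL hM
  obtain ⟨j, mB, a, G, -, hpt⟩ := hS i m hm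
  have hkκ : 0 < D.k * κ := Nat.mul_pos D.k_pos hB.κ_pos
  have hq : eqq κ D.k x G (D.u a) ≠ 0 := eqq_ne κ D.k hx hpt.G_ne _
  refine ⟨D.k * κ, g ^ (D.k * κ) * eqq κ D.k x G (D.u a), hkκ,
    mul_ne_zero (pow_ne_zero _ hg) hq, ?_, ?_⟩
  · intro v P hP hPm
    have h1 := (hpt.ctr v P (hasCentre hP) hPm).2.2.2.2 hP.2.1
    rw [ord_eqn v hg hq, hord]
    linear_combination -h1
  · intro v P hP hPm hh
    obtain ⟨-, -, h1, h2⟩ := hpt.ctr v P hP hPm
    have h3 : ((D.k * κ : ℕ) : ℤ) * v.formOrd ω - v.ord (eqq κ D.k x G (D.u a)) ≠ 0 :=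
      fun h => hh (h2.1 h)
    rw [ord_eqn v hg hq, hord]
    have h4 := lt_of_le_of_ne h1 (Ne.symm h3)
    linear_combination h4

end

end RMM
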