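import Pool.Agent.RMM.StC
import Pool.Agent.MMCI.RGW
import Pool.Agent.MMCI.RSU
import Pool.Agent.MMCI.LOV
import Pool.Agent.MldGeo.Ord

/-!
# Relative minimal models: the composite curve
-/

set_option autoImplicit false

namespace RMM

open MldGeo MMCI

noncomputable section

namespace RTRA

variable {F K : Type} [Field F] [Field K] [Algebra ℂ F] [Algebra ℂ K] [Algebra F K]
  [IsScalarTower ℂ F K]

/-- The restriction of a ring of functions. -/
def res {Y : ProjModel K} (γ : CurveMap Y) (R : Subalgebra ℂ F) (r : R → γ.L)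
    (hr : ∀ c : R, γ.Restr (algebraMap F K c) (r c)) : R →ₐ[ℂ] γ.L where
  toFun := r
  map_one' := by
    refine RSU.unique γ (hr 1) ?_
    have h := RSU.const γ 1
    rw [map_one, map_one] at h
    rw [OneMemClass.coe_one, map_one]
    exact h
  map_zero' := by
    refine RSU.unique γ (hr 0) ?_
    have h := RSU.const γ 0
    rw [map_zero, map_zero] at h
    rw [ZeroMemClass.coe_zero, map_zero]
    exact h
  map_mul' a b := by
    refine RSU.unique γ (hr (a * b)) ?_
    rw [MulMemClass.coe_mul, map_mul]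
    exact RSU.mul γ (hr a) (hr b)
  map_add' a b := by
    refine RSU.unique γ (hr (a + b)) ?_
    rw [AddMemClass.coe_add, map_add]
    exact RSU.add γ (hr a) (hr b)
  commutes' c := by
    refine RSU.unique γ (hr (algebraMap ℂ R c)) ?_
    have h := RSU.const γ c
    rw [IsScalarTower.algebraMap_apply ℂ F K] at h
    exact h

theorem mem_ring (B : ProjModel F) (j j' : Fin (B.N + 1)) : B.s j' / B.s j ∈ B.ring j :=
  Algebra.subset_adjoin ⟨j', rfl⟩

end RTRA

theorem t_RTRA : M_RTRA := by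
  intro hLOP hCHC F K _ _ _ _ _ _ b B Y hdim hnorm γ w₀ i m j mB hmap hmax hres
  classical
  have hRGW : Stmt_RGW := t_RGW t_RSU
  -- the restrictions
  have h1 : ∀ w, ∀ c : B.ring (j w), ∃ u : γ.L, γ.Restr (algebraMap F K c) u ∧ w.Ge 0 u ∧
      (c ∉ mB w → u ≠ 0 ∧ w.ord u = 0) ∧ (c ∈ mB w → w.Ge 1 u) := by
    intro w c
    obtain ⟨p, q, hq, hpq, hiff⟩ := hres w c
    obtain ⟨u, hu, hu0, hu1, hu2⟩ := hRGW γ w (i w) (m w) (hmap w) _ p q hq hpq
    exact ⟨u, hu, hu0, fun h => hu1 fun h' => h (hiff.1 h'), fun h => hu2 (hiff.2 h)⟩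
  choose r hr hr0 hr1 hr2 using h1
  let φ : B.ring (j w₀) →ₐ[ℂ] γ.L := RTRA.res γ (B.ring (j w₀)) (r w₀) (hr w₀)
  have hφ : ∀ c : B.ring (j w₀), γ.Restr (algebraMap F K c) (φ c) := hr w₀
  -- the transition functions
  let ρ : ∀ w, B.ring (j w₀) := fun w => ⟨B.s (j w) / B.s (j w₀), RTRA.mem_ring B _ _⟩
  have hρ : ∀ w, φ (ρ w) ≠ 0 := by
    intro w h0
    have e1 := RSU.mul γ (hφ (ρ w)) (hr w ⟨B.s (j w₀) / B.s (j w), RTRA.mem_ring B _ _⟩)
    rw [h0, zero_mul, ← map_mul] at e1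
    have e2 : ((ρ w : B.ring (j w₀)) : F) * (B.s (j w₀) / B.s (j w)) = 1 := by
      change B.s (j w) / B.s (j w₀) * (B.s (j w₀) / B.s (j w)) = 1
      rw [div_mul_div_cancel₀ (B.ne _), div_self (B.ne _)]
    change γ.Restr (algebraMap F K (((ρ w : B.ring (j w₀)) : F) * (B.s (j w₀) / B.s (j w)))) 0
      at e1
    rw [e2, map_one] at e1
    have e3 := RSU.const γ 1
    rw [map_one, map_one] at e3
    exact zero_ne_one (RSU.unique γ e1 e3)
  -- functions of another chart
  have hmv : ∀ w, ∀ c : B.ring (j w), ∃ (d : ℕ) (a : B.ring (j w₀)),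
      (a : F) = (c : F) * ((ρ w : B.ring (j w₀)) : F) ^ d ∧ φ a = r w c * φ (ρ w) ^ d := by
    intro w c
    obtain ⟨d, hd⟩ := t_LOV B.s B.ne (j w) (j w₀) c c.2
    refine ⟨d, ⟨_, hd⟩, rfl, ?_⟩
    refine RSU.unique γ (hφ ⟨_, hd⟩) ?_
    have e1 := RSU.mul γ (hr w c) (RSU.pow γ (hφ (ρ w)) d)
    rw [← map_pow, ← map_mul] at e1
    exact e1
  refine ⟨φ, hφ, ?_, ?_⟩
  · intro h w
    refine ⟨hmax w, ?_⟩
    intro a
    obtain ⟨d, a', ha', hφa⟩ := hmv w a
    refine ⟨r w a, ⟨a', ρ w ^ d, ?_, ?_, ?_⟩, ?_, ?_, ?_⟩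
    · change φ (ρ w ^ d) ≠ 0
      rw [map_pow]
      exact pow_ne_zero _ (hρ w)
    · rw [SubmonoidClass.coe_pow, ha']
    · change r w a * φ (ρ w ^ d) = φ a'
      rw [map_pow, hφa]
    · exact hr0 w a
    · intro ha
      rcases hr2 w a ha with h | h
      · exact Or.inl h
      · exact Or.inr (by change 0 < w.ord (r w a); omega)
    · intro h'
      by_contra hna
      obtain ⟨h3, h4⟩ := hr1 w a hna
      rcases h' with h' | h'
      · exact h3 h'
      · exact h'.ne' h4
  · intro ω D k w w' G G' hG hG' hE hE'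
    let Q : Ideal (B.ring (j w₀)) := RingHom.ker φ
    have hQ : Q.IsPrime := RingHom.ker_isPrime φ
    have hmemQ : ∀ a : B.ring (j w₀), a ∈ Q ↔ φ a = 0 := fun a => RingHom.mem_ker
    -- the orders of the equations
    have key : ∀ (w : DivVal 1 γ.L) (G : F), IsEqD (B.ring (j w)) ω D k (mB w) G →
        ∀ (v : DivVal b F) (P : Ideal (B.ring (j w₀))), IsPrimeDivisor (B.ring (j w₀)) v P →
          P ≤ Q → v.ord G = k * (v.formOrd ω + D v) := by
      intro w G hE v P hP hPQ
      have hρ0 : v.ord ((ρ w : B.ring (j w₀)) : F) = 0 := by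
        have h2 : ρ w ∉ P := fun h => hρ w ((hmemQ _).1 (hPQ h))
        rw [hP.2.2.2] at h2
        push Not at h2
        exact le_antisymm h2.2 (hP.2.2.1 _)
      obtain ⟨P', hP'⟩ := hCHC B hdim hnorm (j w₀) (j w) v P hP hρ0
      refine hE v P' hP' ?_
      intro c hc
      by_contra hcm
      obtain ⟨h3, -⟩ := hr1 w c hcm
      obtain ⟨d, a, ha, hφa⟩ := hmv w c
      have h4 : a ∈ P := by
        rw [hP.2.2.2]
        rcases (hP'.2.2.2 c).1 hc with h | h
        · left
          apply Subtype.ext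
          rw [ha, h]
          simp
        · right
          have hc0 : (c : F) ≠ 0 := by
            intro h0
            rw [h0, v.ord_zero] at h
            exact lt_irrefl _ h
          have hρne : ((ρ w : B.ring (j w₀)) : F) ≠ 0 := div_ne_zero (B.ne _) (B.ne _)
          rw [ha, v.ord_mul _ _ hc0 (pow_ne_zero _ hρne), v.ord_pow, hρ0, mul_zero, add_zero]
          exact h
      have h5 := (hmemQ a).1 (hPQ h4)
      rw [hφa] at h5
      rcases mul_eq_zero.1 h5 with h | h
      · exact h3 h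
      · exact pow_ne_zero _ (hρ w) h
    have hord : ∀ (v : DivVal b F) (P : Ideal (B.ring (j w₀))),
        IsPrimeDivisor (B.ring (j w₀)) v P → P ≤ Q → v.ord (G / G') = 0 ∧ v.ord (G' / G) = 0 := by
      intro v P hP hPQ
      rw [v.ord_div hG hG', v.ord_div hG' hG, key w G hE v P hP hPQ, key w' G' hE' v P hP hPQ]
      exact ⟨sub_self _, sub_self _⟩
    obtain ⟨p, q, hq, hpq⟩ := hLOP B hdim hnorm (j w₀) Q hQ (G / G')
      (fun v P hP hPQ => Or.inr (hord v P hP hPQ).1.ge)
    obtain ⟨p', q', hq', hpq'⟩ := hLOP B hdim hnorm (j w₀) Q hQ (G' / G)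
      (fun v P hP hPQ => Or.inr (hord v P hP hPQ).2.ge)
    refine ⟨p, q, ?_, fun h => hq ((hmemQ _).2 h), hpq⟩
    intro hp
    have e1 : p * p' = q * q' := by
      apply Subtype.ext
      rw [MulMemClass.coe_mul, MulMemClass.coe_mul, ← hpq, ← hpq']
      field_simp
    have e2 : q * q' ∈ Q := by
      rw [← e1]
      exact Q.mul_mem_right _ ((hmemQ _).2 hp)
    rcases hQ.mem_or_mem e2 with h | h
    · exact hq h
    · exact hq' h

end

end RMM
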