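import Pool.Agent.RMM.XHM
import Pool.Agent.RMM.RMOD
import Pool.Agent.RMM.RSUP
import Pool.Agent.RMM.MCEN
import Pool.Agent.RMM.RRES
import Pool.Agent.RMM.RKEY
import Pool.Agent.RMM.RBAS
import Pool.Agent.RMM.RPT
import Pool.Agent.RMM.RTER
import Pool.Agent.RMM.RSEM
import Pool.Agent.RMM.LOP
import Pool.Agent.RMM.CHC
import Pool.Agent.RMM.RTRA
import Pool.Agent.RMM.RCMQ
import Pool.Agent.RMM.RNEF
import Pool.Agent.RMM.RFBM
import Pool.Agent.RMM.RFBN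

/-!
# Relative minimal models, blocks C and D: the statements used by the assembly
-/

set_option autoImplicit false

namespace RMM

theorem cXHM : S_XHM := t_XHM
theorem cRMOD : S_RMOD := t_RMOD
theorem cRSUP : S_RSUP := t_RSUP
theorem cMCEN : S_MCEN := t_MCEN cXHM
theorem cRRES : S_RRES := t_RRES
theorem cRKEY : S_RKEY := t_RKEY cXHM cRSUP cMCEN cRRES
theorem cRBAS : S_RBAS := t_RBAS
theorem cRPT : S_RPT := t_RPT cRKEY cRBAS
theorem cRTER : S_RTER := t_RTER cRPT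
theorem cRSEM : S_RSEM := t_RSEM cRPT
theorem cLOP : S_LOP := t_LOP
theorem cCHC : S_CHC := t_CHC
theorem cRTRA : S_RTRA := t_RTRA cLOP cCHC
theorem cRCMQ : S_RCMQ := t_RCMQ cRPT
theorem cRNEF : S_RNEF := t_RNEF cRCMQ cRTRA
theorem cRFBM : S_RFBM := t_RFBM cRPT
theorem cRFBN : S_RFBN := t_RFBN cXHM cRCMQ cRTRA

/-- RFIB: the Mori fibre space. -/
theorem t_RFIB : M_RFIB := by
  intro hFBM hFBN F K _ _ _ _ _ _ e' n r B κ b y0 β f x he htr hx hbpf hbd D ω Y hL hM hFb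
  obtain ⟨M, t, h1, h2, h3, h4⟩ := hFBM B κ b y0 β f x he htr hx hbpf hbd D ω Y hL hM hFb
  refine ⟨M, t, fun l => ?_, h3, h4, ?_⟩
  · obtain ⟨j, a, -, hl⟩ := h1 l
    rw [hl]
    refine mul_ne_zero ?_ (Finset.prod_ne_zero_iff.2 fun i _ => zpow_ne_zero _ (hx i))
    rw [Ne, map_eq_zero]
    exact div_ne_zero (B.ne j) (B.ne 0)
  · intro ω' hω' γ hγ k h g u hk hE
    exact hFBN B κ b y0 β f x he htr hx hbpf hbd D ω Y hL hM M t h1 h2 ω' hω' γ hγ k h g u hk hE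

theorem cRFIB : S_RFIB := t_RFIB cRFBM cRFBN

end RMM
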