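import Pool.Agent.RMM.StE2
import Pool.Agent.MMCI.Tools
import Pool.Agent.MldGeo.Ord
import Pool.Agent.MMCI.K_BAS

/-!
# DUL: dual derivations
-/

set_option autoImplicit false

namespace RMM

open MldGeo MMCI

noncomputable section

theorem t_DUL : S_DUL := by
  intro F _ _ b y htr hy hd
  classical
  obtain ⟨hfin, hrank⟩ := BAS.finrank_eq htr
  have hli : LinearIndependent F fun l => dlog (y l) := by
    by_contra hc
    exact hd ((exteriorPower.ιMulti F b).map_linearDependent _ hc)
  have hli2 : LinearIndependent F fun l => KaehlerDifferential.D ℂ F (y l) := by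
    rw [Fintype.linearIndependent_iff] at hli ⊢
    intro g hg l
    have h1 : ∑ l, (g l * y l) • dlog (y l) = 0 := by
      rw [← hg]
      refine Finset.sum_congr rfl fun l _ => ?_
      rw [dlog, smul_smul, mul_assoc, mul_inv_cancel₀ (hy l), mul_one]
    exact (mul_eq_zero.1 (hli _ h1 l)).resolve_right (hy l)
  have hspan : (⊤ : Submodule F (Ω[F⁄ℂ])) ≤
      Submodule.span F (Set.range fun l => KaehlerDifferential.D ℂ F (y l)) := by
    rw [hli2.span_eq_top_of_card_eq_finrank' (by rw [Fintype.card_fin, hrank])]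
  let B : Module.Basis (Fin b) F (Ω[F⁄ℂ]) := Module.Basis.mk hli2 hspan
  have hB : ∀ l, B l = KaehlerDifferential.D ℂ F (y l) := fun l =>
    congrFun (Module.Basis.coe_mk hli2 hspan) l
  refine ⟨fun l => (B.coord l).compDer (KaehlerDifferential.D ℂ F), fun a => ?_⟩
  have h := B.sum_repr (KaehlerDifferential.D ℂ F a)
  conv_lhs => rw [← h]
  refine Finset.sum_congr rfl fun l _ => ?_
  rw [hB]
  rfl

end

end RMM
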