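import Pool.Agent.RMM.StE2

/-!
# Relative minimal models: the abstract statements for arbitrary `e > 0`
-/

namespace RMM

open MldGeo MMCI

theorem t_GEN : S_GEN := by
  intro h1a h1b h0a h0c h0b hunt hbnd
  refine ⟨?_, ?_, ?_, ?_, ?_, ?_⟩
  · intro e N r K _ _ z G he hR v ψ σ hG hw
    obtain ⟨m, rfl⟩ : ∃ m, e = m + 1 := ⟨e - 1, by omega⟩
    exact h1a z G hR v ψ σ hG hw
  · intro e N r K _ _ z G he hR v ψ σ hG a0 ρ0 a ρ hE h0 hl hr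
    obtain ⟨m, rfl⟩ : ∃ m, e = m + 1 := ⟨e - 1, by omega⟩
    exact h1b z G hR v ψ σ hG a0 ρ0 a ρ hE h0 hl hr
  · intro e N r K _ _ z G he hR v ψ σ hG hw
    obtain ⟨m, rfl⟩ : ∃ m, e = m + 1 := ⟨e - 1, by omega⟩
    exact h0a z G hR v ψ σ hG hw
  · intro e N r K _ _ z G he hR v σ hG hw a ρ hl hr B0 hB hz hGB hD
    obtain ⟨m, rfl⟩ : ∃ m, e = m + 1 := ⟨e - 1, by omega⟩
    exact h0b z G hR v σ hG hw (h0c z G hR v _ σ hG hw a ρ hl hr) B0 hB hz hGB hD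
  · intro e N r K _ _ z G he hR v ψ σ hG B0 w0 q y a hB hp hm h0 hy ha hr hD
    obtain ⟨m, rfl⟩ : ∃ m, e = m + 1 := ⟨e - 1, by omega⟩
    exact hunt z G hR v ψ σ hG B0 w0 q y a hB hp hm h0 hy ha hr hD
  · intro e N r K _ _ z G he hR v ψ σ hG s ν I hν hI hi
    obtain ⟨m, rfl⟩ : ∃ m, e = m + 1 := ⟨e - 1, by omega⟩
    exact hbnd z G hR v ψ σ hG s ν I hν hI hi

end RMM
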