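import Pool.Agent.RMM.StE2
import Pool.Agent.MMCI.Tools
import Pool.Agent.MldGeo.Ord
import Pool.Agent.MMCI.K_UNT

/-!
# Module LB0: the ring generated by the local ring of `B` and the monomials of nonnegative weight
-/

set_option autoImplicit false
set_option linter.unusedSectionVars false

namespace RMM

open MldGeo MldGeo.DivVal MMCI

noncomputable section

namespace LB0

section

variable {F K : Type} [Field F] [Field K] [Algebra ℂ F] [Algebra ℂ K] [Algebra F K]
  [IsScalarTower ℂ F K] {e' n : ℕ}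

/-- the ring -/
def B0 (B : ProjModel F) (x : Fin n → K) (v : DivVal e' K) : Subalgebra ℂ K :=
  Algebra.adjoin ℂ ({z | ∃ a, InO B v a ∧ z = algebraMap F K a} ∪
    {z | ∃ m, 0 ≤ pair (wt x v) m ∧ z = mon x m})

variable {B : ProjModel F} {x : Fin n → K} {v : DivVal e' K}

theorem mem_of_inO {a : F} (h : InO B v a) : algebraMap F K a ∈ B0 B x v :=
  Algebra.subset_adjoin (Or.inl ⟨a, h, rfl⟩)

theorem mem_mon {m : Fin n → ℤ} (h : 0 ≤ pair (wt x v) m) : mon x m ∈ B0 B x v :=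
  Algebra.subset_adjoin (Or.inr ⟨m, h, rfl⟩)

theorem ge_of_inO {a : F} (h : InO B v a) : v.Ge 0 (algebraMap F K a) := by
  obtain ⟨j, hj, p, hp, q, hq, hq0, hqo, e1⟩ := h
  have hq0' : algebraMap F K q ≠ 0 := by
    intro h0
    exact hq0 ((map_eq_zero _).1 h0)
  have h1 : algebraMap F K a = algebraMap F K p / algebraMap F K q := by
    rw [eq_div_iff hq0', ← map_mul, e1]
  rw [h1]
  have h2 := (hj p hp).div (algebraMap F K q)
  rw [hqo, sub_zero] at h2
  exact h2

theorem inO_of_ring {j : Fin (B.N + 1)} (hj : OnChart B v j) {p : F} (hp : p ∈ B.ring j) :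
    InO B v p :=
  ⟨j, hj, p, hp, 1, (B.ring j).one_mem, one_ne_zero, by rw [map_one, ord_one], mul_one p⟩

/-- elements of `F` are quotients of elements of a chart -/
theorem frac_F (B : ProjModel F) (j : Fin (B.N + 1)) (a : F) :
    ∃ p ∈ B.ring j, ∃ q ∈ B.ring j, q ≠ 0 ∧ a * q = p := by
  have ha : a ∈ IntermediateField.adjoin ℂ (Set.range fun l => B.s l / B.s 0) := by
    rw [B.gen]; trivial
  have hs : ∀ l, B.s l / B.s j ∈ B.ring j := fun l => Algebra.subset_adjoin ⟨l, rfl⟩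
  induction ha using IntermediateField.adjoin_induction with
  | mem z hz =>
    obtain ⟨l, rfl⟩ := hz
    refine ⟨B.s l / B.s j, hs l, B.s 0 / B.s j, hs 0, div_ne_zero (B.ne 0) (B.ne j), ?_⟩
    have h0 := B.ne 0
    have hj := B.ne j
    show B.s l / B.s 0 * (B.s 0 / B.s j) = B.s l / B.s j
    field_simp
  | algebraMap c => exact ⟨algebraMap ℂ F c, (B.ring j).algebraMap_mem c, 1, (B.ring j).one_mem,
      one_ne_zero, mul_one _⟩
  | add a b _ _ ha hb =>
    obtain ⟨p1, hp1, q1, hq1, hq1', e1⟩ := ha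
    obtain ⟨p2, hp2, q2, hq2, hq2', e2⟩ := hb
    refine ⟨p1 * q2 + p2 * q1, (B.ring j).add_mem ((B.ring j).mul_mem hp1 hq2)
      ((B.ring j).mul_mem hp2 hq1), q1 * q2,
      (B.ring j).mul_mem hq1 hq2, mul_ne_zero hq1' hq2', ?_⟩
    rw [← e1, ← e2]
    ring
  | inv a _ ha =>
    obtain ⟨p1, hp1, q1, hq1, hq1', e1⟩ := ha
    by_cases h0 : a = 0
    · refine ⟨0, (B.ring j).zero_mem, 1, (B.ring j).one_mem, one_ne_zero, ?_⟩
      rw [h0, inv_zero, zero_mul]
    · refine ⟨q1, hq1, p1, hp1, ?_, ?_⟩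
      · rw [← e1]
        exact mul_ne_zero h0 hq1'
      · rw [← e1, inv_mul_cancel_left₀ h0]
  | mul a b _ _ ha hb =>
    obtain ⟨p1, hp1, q1, hq1, hq1', e1⟩ := ha
    obtain ⟨p2, hp2, q2, hq2, hq2', e2⟩ := hb
    refine ⟨p1 * p2, (B.ring j).mul_mem hp1 hp2, q1 * q2, (B.ring j).mul_mem hq1 hq2,
      mul_ne_zero hq1' hq2', ?_⟩
    rw [← e1, ← e2]
    ring

/-- the fractions -/
theorem frac (hMON : S_MON) (hx : ∀ j, x j ≠ 0)
    (hgen : IntermediateField.adjoin F (Set.range x) = ⊤) (h1 : InO B v (1 : F)) (a : K) :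
    ∃ p ∈ B0 B x v, ∃ q ∈ B0 B x v, q ≠ 0 ∧ a * q = p := by
  obtain ⟨m1, m2, m3, m4, m5⟩ := hMON (e := e') x hx
  obtain ⟨j0, hj0, -⟩ := h1
  have ha : a ∈ IntermediateField.adjoin F (Set.range x) := by
    rw [hgen]; trivial
  induction ha using IntermediateField.adjoin_induction with
  | mem z hz =>
    obtain ⟨j, rfl⟩ := hz
    have hxj : mon x (Pi.single j 1) = x j := by
      classical
      rw [mon, Finset.prod_eq_single j]
      · simp
      · intro b _ hb
        simp [Pi.single_eq_of_ne hb]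
      · intro hj
        exact absurd (Finset.mem_univ j) hj
    rcases le_total 0 (wt x v j) with h1 | h1
    · refine ⟨x j, ?_, 1, (B0 B x v).one_mem, one_ne_zero, mul_one _⟩
      rw [← hxj]
      exact mem_mon (by rw [UNT.pair_single]; exact h1)
    · refine ⟨1, (B0 B x v).one_mem, mon x (-Pi.single j 1), mem_mon ?_, m1 _, ?_⟩
      · rw [UNT.pair_neg, UNT.pair_single]
        omega
      · rw [← hxj, ← m2, add_neg_cancel]
        simp [mon]
  | algebraMap c =>
    obtain ⟨p, hp, q, hq, hq0, e1⟩ := frac_F B j0 c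
    refine ⟨algebraMap F K p, mem_of_inO (inO_of_ring hj0 hp), algebraMap F K q,
      mem_of_inO (inO_of_ring hj0 hq), ?_, ?_⟩
    · intro h0
      exact hq0 ((map_eq_zero _).1 h0)
    · rw [← map_mul, e1]
  | add a b _ _ ha hb =>
    obtain ⟨p1, hp1, q1, hq1, hq1', e1⟩ := ha
    obtain ⟨p2, hp2, q2, hq2, hq2', e2⟩ := hb
    refine ⟨p1 * q2 + p2 * q1, (B0 B x v).add_mem ((B0 B x v).mul_mem hp1 hq2)
      ((B0 B x v).mul_mem hp2 hq1), q1 * q2,
      (B0 B x v).mul_mem hq1 hq2, mul_ne_zero hq1' hq2', ?_⟩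
    rw [← e1, ← e2]
    ring
  | inv a _ ha =>
    obtain ⟨p1, hp1, q1, hq1, hq1', e1⟩ := ha
    by_cases h0 : a = 0
    · refine ⟨0, (B0 B x v).zero_mem, 1, (B0 B x v).one_mem, one_ne_zero, ?_⟩
      rw [h0, inv_zero, zero_mul]
    · refine ⟨q1, hq1, p1, hp1, ?_, ?_⟩
      · rw [← e1]
        exact mul_ne_zero h0 hq1'
      · rw [← e1, inv_mul_cancel_left₀ h0]
  | mul a b _ _ ha hb =>
    obtain ⟨p1, hp1, q1, hq1, hq1', e1⟩ := ha
    obtain ⟨p2, hp2, q2, hq2, hq2', e2⟩ := hb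
    refine ⟨p1 * p2, (B0 B x v).mul_mem hp1 hp2, q1 * q2, (B0 B x v).mul_mem hq1 hq2,
      mul_ne_zero hq1' hq2', ?_⟩
    rw [← e1, ← e2]
    ring

/-- the derivative of a monomial -/
theorem deriv_mon (hMON : S_MON) (hx : ∀ j, x j ≠ 0) (D : Derivation ℂ K K) (δ : Fin n → K)
    (hD : ∀ j, D (x j) = δ j * x j) (m : Fin n → ℤ) :
    D (mon x m) = mon x m * ∑ j, δ j * (m j : K) := by
  obtain ⟨m1, m2, m3, m4, m5⟩ := hMON (e := 0) x hx
  have h1 := congrArg D.liftKaehlerDifferential (m3 m)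
  rw [dlog, map_smul, map_sum, Derivation.liftKaehlerDifferential_comp_D] at h1
  have h2 : ∀ j, D.liftKaehlerDifferential ((m j : K) • dlog (x j)) = δ j * (m j : K) := by
    intro j
    rw [dlog, map_smul, map_smul, Derivation.liftKaehlerDifferential_comp_D, hD j]
    have hxj := hx j
    simp only [smul_eq_mul]
    field_simp
  rw [Finset.sum_congr rfl fun j _ => h2 j, smul_eq_mul, inv_mul_eq_iff_eq_mul₀ (m1 m)] at h1
  exact h1

end

/-- the general derivations -/
theorem deriv (hMON : S_MON) (hREV : S_REV) {F K : Type} [Field F] [Field K] [Algebra ℂ F]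
    [Algebra ℂ K] [Algebra F K] [IsScalarTower ℂ F K] {b e n r : ℕ} {B : ProjModel F} {κ : ℕ}
    {y0 : Fin b → F} {β : DivVal (b + e) K → ℤ} {f : Fin r → LR F n} {x : Fin n → K}
    (hx : ∀ j, x j ≠ 0) {v : DivVal (b + e) K} (L : Loc B e κ y0 β f x v)
    (B' : Subalgebra ℂ K) (D : Derivation ℂ K K) (δ : Fin (b + n) → K) (hB : B0 B x v ≤ B')
    (hδ : ∀ c, δ c ∈ B') (ε : Fin n → K)
    (hy : ∀ l, D (L.z (Fin.castAdd n l)) = δ (Fin.castAdd n l) * L.z (Fin.castAdd n l))
    (hD : ∀ j, D (x j) = (ε j + δ (Fin.natAdd b j)) * x j)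
    (hε : ∀ m, 0 ≤ pair (wt x v) m → mon x m * ∑ j, ε j * (m j : K) ∈ B') :
    ∀ a ∈ B0 B x v, D a ∈ B' := by
  have hzy : ∀ l, L.z (Fin.castAdd n l) = algebraMap F K (L.y l) := fun l => by
    unfold Loc.z zz
    rw [Fin.append_left]
  have hA : ∀ a ∈ L.A, algebraMap F K a ∈ B' := fun a ha => hB (mem_of_inO ((L.memA a).1 ha))
  intro a ha
  unfold B0 at ha
  induction ha using Algebra.adjoin_induction with
  | mem z hz =>
    rcases hz with ⟨a, ha, rfl⟩ | ⟨m, hm, rfl⟩
    · have h1 := (hREV (K := K) L.y L.d x L.y_ne hx L.dual).2.1 D a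
      rw [h1]
      refine Subalgebra.sum_mem _ fun l _ => B'.mul_mem (hA _ (L.dA l a ((L.memA a).2 ha))) ?_
      have h2 := hy l
      rw [hzy] at h2
      rw [h2]
      exact B'.mul_mem (hδ _) (hA _ (L.y_mem l))
    · rw [deriv_mon hMON hx D _ hD m]
      have h1 : mon x m * ∑ j, (ε j + δ (Fin.natAdd b j)) * (m j : K) =
          mon x m * ∑ j, ε j * (m j : K) + mon x m * ∑ j, δ (Fin.natAdd b j) * (m j : K) := by
        rw [← mul_add, ← Finset.sum_add_distrib]
        congr 1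
        exact Finset.sum_congr rfl fun j _ => add_mul _ _ _
      rw [h1]
      refine B'.add_mem (hε m hm) (B'.mul_mem (hB (mem_mon hm)) ?_)
      exact Subalgebra.sum_mem _ fun j _ => B'.mul_mem (hδ _) (intCast_mem B' _)
  | algebraMap c => rw [Derivation.map_algebraMap]; exact B'.zero_mem
  | add a b _ _ ha hb => rw [map_add]; exact B'.add_mem ha hb
  | mul a b h1 h2 ha hb =>
    rw [Derivation.leibniz, smul_eq_mul, smul_eq_mul]
    exact B'.add_mem (B'.mul_mem (hB h1) hb) (B'.mul_mem (hB h2) ha)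

end LB0

open LB0

theorem t_LB0 : S_LB0 := by
  intro hMON hREV F K _ _ _ _ _ _ b e n r B κ y0 β f x hreg v L
  obtain ⟨m1, m2, m3, m4, m5⟩ := hMON (e := b + e) x hreg.ne
  obtain ⟨v1, -⟩ := m5 v
  refine ⟨B0 B x v, ⟨?_, ?_⟩, fun a ha => mem_of_inO ha, fun m hm => mem_mon hm, ?_, ?_⟩
  · intro z hz
    unfold B0 at hz
    induction hz using Algebra.adjoin_induction with
    | mem z hz =>
      rcases hz with ⟨a, ha, rfl⟩ | ⟨m, hm, rfl⟩
      · exact ge_of_inO ha
      · exact Ge.of_le (by rw [v1]; exact hm)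
    | algebraMap c => exact Ge.const v c
    | add a b _ _ ha hb => exact ha.add hb
    | mul a b _ _ ha hb => exact Ge.mul_left ha hb
  · exact frac hMON hreg.ne hreg.gen ((L.memA 1).1 L.A.one_mem)
  · intro B' D δ hB hδ hD
    refine deriv hMON hREV hreg.ne L B' D δ hB hδ (fun _ => 0) (fun l => hD _) (fun j => ?_)
      fun m _ => ?_
    · have h1 := hD (Fin.natAdd b j)
      have h2 : L.z (Fin.natAdd b j) = x j := by
        unfold Loc.z zz
        rw [Fin.append_right]
      rw [h2] at h1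
      rw [h1, zero_add]
    · have h1 : ∑ j, (fun _ => (0 : K)) j * (m j : K) = 0 :=
        Finset.sum_eq_zero fun j _ => zero_mul _
      rw [h1, mul_zero]
      exact B'.zero_mem
  · intro q w0 k hk hw hq B' D δ hB hδ hy hD
    have hpw : ∀ m, pair (wt x v) m = k * pair w0 m := by
      intro m
      rw [hw, pair, pair, Finset.mul_sum]
      refine Finset.sum_congr rfl fun j _ => ?_
      rw [Pi.smul_apply, smul_eq_mul, mul_assoc]
    refine deriv hMON hREV hreg.ne L B' D δ hB hδ (fun j => (mon x q)⁻¹ * (w0 j : K)) hy hD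
      fun m hm => ?_
    have h1 : mon x m * ∑ j, (mon x q)⁻¹ * (w0 j : K) * (m j : K) =
        ((pair w0 m : ℤ) : K) * (mon x m / mon x q) := by
      have h2 : ∑ j, (mon x q)⁻¹ * (w0 j : K) * (m j : K) =
          (mon x q)⁻¹ * ((pair w0 m : ℤ) : K) := by
        rw [pair]
        push_cast
        rw [Finset.mul_sum]
        exact Finset.sum_congr rfl fun j _ => mul_assoc _ _ _
      rw [h2, div_eq_mul_inv]
      ring
    rw [h1]
    rw [hpw] at hm
    have h0 : 0 ≤ pair w0 m := nonneg_of_mul_nonneg_right hm hk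
    rcases h0.eq_or_lt with h2 | h2
    · rw [← h2, Int.cast_zero, zero_mul]
      exact B'.zero_mem
    · have h3 : mon x m / mon x q = mon x (m - q) := by
        rw [div_eq_iff (m1 q), ← m2, sub_add_cancel]
      rw [h3]
      refine B'.mul_mem (intCast_mem B' _) (hB (mem_mon ?_))
      rw [hpw, UNT.pair_sub, hq]
      apply mul_nonneg hk.le
      omega

end

end RMM
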