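import Pool.Agent.RMM.StE2
import Pool.Agent.MMCI.Tools
import Pool.Agent.MldGeo.Ord
import Pool.Agent.MMCI.K_BND

/-!
# Module LBND: the residues of functions orthogonal to a cone, for local data
-/

set_option autoImplicit false

namespace RMM

open MldGeo MldGeo.DivVal MMCI

noncomputable section

namespace LBND

section lau

variable {R : Type} [CommRing R] {n s : ℕ}

theorem rmin_exists {f : LR R n} (hf : f ≠ 0) (ν : Fin n → ℤ) :
    ∃ a ∈ f.coeff.support, pair ν a = rmin f ν := by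
  have h1 : f.coeff.support.Nonempty := by
    rw [Finsupp.support_nonempty_iff]
    intro h
    exact hf (by simpa using h)
  have h2 : ((fun m => pair ν m) '' (f.coeff.support : Set (Fin n → ℤ))).Nonempty := by
    obtain ⟨a, ha⟩ := h1
    exact ⟨_, a, ha, rfl⟩
  have h3 : BddBelow ((fun m => pair ν m) '' (f.coeff.support : Set (Fin n → ℤ))) :=
    ((Finset.finite_toSet _).image _).bddBelow
  obtain ⟨a, ha, h4⟩ := Int.csInf_mem h2 h3
  exact ⟨a, ha, h4⟩

theorem rmin_le (f : LR R n) (ν : Fin n → ℤ) {a : Fin n → ℤ}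
    (ha : a ∈ f.coeff.support) : rmin f ν ≤ pair ν a := by
  have h3 : BddBelow ((fun m => pair ν m) '' (f.coeff.support : Set (Fin n → ℤ))) :=
    ((Finset.finite_toSet _).image _).bddBelow
  exact csInf_le h3 ⟨a, ha, rfl⟩

theorem defect_nonneg {f : LR R n} (hf : f ≠ 0) (ν : Fin s → (Fin n → ℤ)) :
    0 ≤ rmin f (∑ j, ν j) - ∑ j, rmin f (ν j) := by
  obtain ⟨a, ha, h1⟩ := rmin_exists hf (∑ j, ν j)
  rw [← h1, BND.pair_sum, ← Finset.sum_sub_distrib]
  exact Finset.sum_nonneg fun j _ => sub_nonneg.mpr (rmin_le f (ν j) ha)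

/-- exponents of minimal weight are minimal for all vectors of the cone -/
theorem minimal {f : LR R n} (hf : f ≠ 0) (ν : Fin s → (Fin n → ℤ))
    (h0 : rmin f (∑ j, ν j) - ∑ j, rmin f (ν j) = 0) (w : Fin n → ℤ) (c : Fin s → ℕ) (c0 : ℕ)
    (hc : ∀ j, 0 < c j) (hw : (c0 : ℤ) • w = ∑ j, (c j : ℤ) • ν j) (a : Fin n → ℤ)
    (ha : a ∈ f.coeff.support) (haw : pair w a = rmin f w) (j : Fin s) :
    pair (ν j) a = rmin f (ν j) := by
  obtain ⟨b, hb, h1⟩ := rmin_exists hf (∑ j, ν j)
  -- `b` is minimal for all `ν j`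
  have h2 : ∀ j, pair (ν j) b = rmin f (ν j) := by
    have h3 : ∑ j, (pair (ν j) b - rmin f (ν j)) = 0 := by
      rw [Finset.sum_sub_distrib, ← BND.pair_sum, h1, h0]
    have h4 := (Finset.sum_eq_zero_iff_of_nonneg (s := Finset.univ)
      fun j _ => sub_nonneg.mpr (rmin_le f (ν j) hb)).mp h3
    intro j
    have := h4 j (Finset.mem_univ j)
    linarith
  have hcw : ∀ a' : Fin n → ℤ, (c0 : ℤ) * pair w a' = ∑ j, (c j : ℤ) * pair (ν j) a' := by
    intro a'
    rw [← BND.pair_smul, hw, BND.pair_sum]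
    exact Finset.sum_congr rfl fun j _ => BND.pair_smul _ _ _
  have h5 : (c0 : ℤ) * pair w a ≤ (c0 : ℤ) * pair w b :=
    mul_le_mul_of_nonneg_left (by rw [haw]; exact rmin_le f w hb) (Int.natCast_nonneg c0)
  rw [hcw, hcw] at h5
  have h6 : ∀ j, (c j : ℤ) * pair (ν j) b ≤ (c j : ℤ) * pair (ν j) a := fun j =>
    mul_le_mul_of_nonneg_left (by rw [h2 j]; exact rmin_le f (ν j) ha) (Int.natCast_nonneg _)
  have h7 : ∑ j, ((c j : ℤ) * pair (ν j) a - (c j : ℤ) * pair (ν j) b) = 0 := by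
    refine le_antisymm ?_ (Finset.sum_nonneg fun j _ => sub_nonneg.mpr (h6 j))
    rw [Finset.sum_sub_distrib]
    linarith
  have h8 := (Finset.sum_eq_zero_iff_of_nonneg (s := Finset.univ)
    fun j _ => sub_nonneg.mpr (h6 j)).mp h7 j (Finset.mem_univ j)
  have h9 : (c j : ℤ) * (pair (ν j) a - pair (ν j) b) = 0 := by
    rw [mul_sub]
    exact h8
  rcases mul_eq_zero.mp h9 with h10 | h10
  · have := hc j
    omega
  · rw [← h2 j]
    linarith

end lau

section ext

variable {b n : ℕ}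

/-- The extension by zero. -/
def ext (ν : Fin n → ℤ) : Fin (b + n) → ℤ := Fin.append (0 : Fin b → ℤ) ν

theorem ext_left (ν : Fin n → ℤ) (l : Fin b) : ext ν (Fin.castAdd n l) = 0 := by
  unfold ext
  rw [Fin.append_left]
  rfl

theorem ext_right (ν : Fin n → ℤ) (l : Fin n) : ext ν (Fin.natAdd b l) = ν l := by
  unfold ext
  rw [Fin.append_right]

theorem sum_ext {K : Type} [Field K] (ν : Fin n → ℤ) (g : Fin (b + n) → K) :
    ∑ c, ((ext ν c : ℤ) : K) * g c = ∑ j, ((ν j : ℤ) : K) * g (Fin.natAdd b j) := by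
  rw [Fin.sum_univ_add]
  have h1 : ∑ l : Fin b, ((ext ν (Fin.castAdd n l) : ℤ) : K) * g (Fin.castAdd n l) = 0 := by
    refine Finset.sum_eq_zero fun l _ => ?_
    rw [ext_left]
    simp
  rw [h1, zero_add]
  refine Finset.sum_congr rfl fun j _ => ?_
  rw [ext_right]

theorem ext_indep {s : ℕ} (ν : Fin s → (Fin n → ℤ)) (h : LinearIndependent ℤ ν) :
    LinearIndependent ℤ fun j => (ext (ν j) : Fin (b + n) → ℤ) := by
  refine LinearIndependent.of_comp (LinearMap.funLeft ℤ ℤ (Fin.natAdd b)) ?_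
  have h1 : (⇑(LinearMap.funLeft ℤ ℤ (Fin.natAdd b)) ∘
      fun j => (ext (ν j) : Fin (b + n) → ℤ)) = ν := by
    funext j l
    change ext (ν j) (Fin.natAdd b l) = ν j l
    rw [ext_right]
  rw [h1]
  exact h

end ext

section val

variable {F K : Type} [Field F] [Field K] [Algebra ℂ F] [Algebra ℂ K] [Algebra F K]
  [IsScalarTower ℂ F K] {b e e' n r : ℕ} {B : ProjModel F}

theorem inO_ge {v : DivVal e' K} {a : F} (h : InO B v a) : v.Ge 0 (algebraMap F K a) := by
  obtain ⟨j, hj, p, hp, q, hq, hq0, hqv, hpq⟩ := h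
  have h1 : algebraMap F K a = algebraMap F K p / algebraMap F K q := by
    have h0 : algebraMap F K q ≠ 0 := (map_ne_zero (algebraMap F K)).mpr hq0
    rw [eq_div_iff h0, ← map_mul, hpq]
  rw [h1]
  have h2 := (hj p hp).div (algebraMap F K q)
  rwa [hqv, sub_zero] at h2

theorem last (x : Fin n → K) (v : DivVal e' K)
    (hord : ∀ m, v.ord (mon x m) = pair (wt x v) m) (f : LR F n) (u : F)
    (hA : ∀ m, v.Ge 0 (algebraMap F K (u * f.coeff m))) (hz : rev x f = 0)
    (ν : Fin n → ℤ) (μ : ℤ)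
    (h : ∀ m ∈ f.coeff.support, pair (wt x v) m = rmin f (wt x v) → pair ν m = μ) :
    v.Ge (rmin f (wt x v) + 1) (∑ j, ((ν j : ℤ) : K) * rgrad x (u • f) j) := by
  classical
  have hsub : (u • f).coeff.support ⊆ f.coeff.support := by
    intro m hm
    rw [Finsupp.mem_support_iff] at hm ⊢
    intro h0
    apply hm
    change u • f.coeff m = 0
    rw [h0, smul_zero]
  have hcf : ∀ m, (u • f).coeff m = u * f.coeff m := fun m => rfl
  have h1 : ∀ j, rgrad x (u • f) j = ∑ m ∈ f.coeff.support,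
      algebraMap F K (u * f.coeff m) * (m j : K) * mon x m := by
    intro j
    unfold rgrad
    rw [Finsupp.sum_of_support_subset _ hsub _ fun m _ => by rw [map_zero, zero_mul, zero_mul]]
    rfl
  have h2 : ∑ m ∈ f.coeff.support, algebraMap F K (u * f.coeff m) * mon x m = 0 := by
    have h3 : rev x f = ∑ m ∈ f.coeff.support, algebraMap F K (f.coeff m) * mon x m := rfl
    have h4 : algebraMap F K u * rev x f = 0 := by rw [hz, mul_zero]
    rw [h3, Finset.mul_sum] at h4
    rw [← h4]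
    refine Finset.sum_congr rfl fun m _ => ?_
    rw [map_mul, mul_assoc]
  have h5 : ∑ j, ((ν j : ℤ) : K) * rgrad x (u • f) j = ∑ m ∈ f.coeff.support,
      algebraMap F K (u * f.coeff m) * ((pair ν m - μ : ℤ) : K) * mon x m := by
    have h6 : ∑ j, ((ν j : ℤ) : K) * rgrad x (u • f) j = ∑ m ∈ f.coeff.support,
        algebraMap F K (u * f.coeff m) * ((pair ν m : ℤ) : K) * mon x m := by
      have h7 : ∀ j, ((ν j : ℤ) : K) * rgrad x (u • f) j = ∑ m ∈ f.coeff.support,
          algebraMap F K (u * f.coeff m) * (((ν j : ℤ) : K) * (m j : K)) * mon x m := by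
        intro j
        rw [h1 j, Finset.mul_sum]
        refine Finset.sum_congr rfl fun m _ => ?_
        ring
      rw [Finset.sum_congr rfl fun j _ => h7 j, Finset.sum_comm]
      refine Finset.sum_congr rfl fun m _ => ?_
      unfold pair
      push_cast
      rw [Finset.mul_sum, Finset.sum_mul]
    rw [h6]
    have h8 : ∑ m ∈ f.coeff.support,
        algebraMap F K (u * f.coeff m) * ((pair ν m : ℤ) : K) * mon x m -
        (μ : K) * ∑ m ∈ f.coeff.support, algebraMap F K (u * f.coeff m) * mon x m =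
        ∑ m ∈ f.coeff.support,
          algebraMap F K (u * f.coeff m) * ((pair ν m - μ : ℤ) : K) * mon x m := by
      rw [Finset.mul_sum, ← Finset.sum_sub_distrib]
      refine Finset.sum_congr rfl fun m _ => ?_
      push_cast
      ring
    rw [← h8, h2, mul_zero, sub_zero]
  rw [h5]
  refine Ge.sum _ _ fun m hm => ?_
  by_cases hmw : pair (wt x v) m = rmin f (wt x v)
  · rw [h m hm hmw, sub_self, Int.cast_zero, mul_zero, zero_mul]
    exact Ge.zero v _
  · have h9 : rmin f (wt x v) + 1 ≤ pair (wt x v) m := by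
      have := rmin_le f (wt x v) hm
      omega
    have h10 : v.Ge (rmin f (wt x v) + 1) (mon x m) := Or.inr (by rw [hord]; exact h9)
    exact ((hA m).mul_left (Ge.intCast v _)).mul_left h10

end val

end LBND

theorem t_LBND : M_LBND := by
  intro hG hMON hREV hLREL hLUNI hLEXP F K _ _ _ _ _ _ b e n r B κ y0 β f x hpos hdim hR v L s ν c
    c0 hc0 hc hν hw hsum
  rintro ⟨a, q, haq, hres⟩
  have hRel := hLREL hREV B κ y0 β f x hdim hR v L
  have hU := hLUNI hMON B κ y0 β f x hR v L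
  obtain ⟨-, -, -, -, hv⟩ := hMON (e := b + e) x hR.ne
  obtain ⟨hordm, -, -, -⟩ := hv v
  choose ρ hρE hρq using fun l => hLEXP hMON hREV B κ y0 β f x hR.ne v L (a l) (q l) (haq l).1
    (haq l).2.1 (haq l).2.2.1
  set I : Finset (Fin r) := Finset.univ.filter fun i : Fin r =>
    ¬ (rmin (f i) (∑ j, ν j) - ∑ j, rmin (f i) (ν j) = 0) with hI
  refine hG.bnd L.z L.G hpos hRel v (wmin f x v) L.σ hU s
    (fun j => (LBND.ext (ν j) : Fin (b + n) → ℤ)) I (LBND.ext_indep ν hν) ?_ ?_
    ⟨fun l => algebraMap F K (a l) * mon x (q l), ρ, hρE, ?_, hres⟩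
  · have h1 : ((I.card : ℕ) : ℤ) ≤ ∑ i, (rmin (f i) (∑ j, ν j) - ∑ j, rmin (f i) (ν j)) := by
      rw [hI, Finset.card_filter]
      push_cast
      refine Finset.sum_le_sum fun i _ => ?_
      have h2 := LBND.defect_nonneg (hR.f_ne i) ν
      split_ifs with h3
      · omega
      · omega
    omega
  · intro i hi j
    have hi0 : rmin (f i) (∑ j, ν j) - ∑ j, rmin (f i) (ν j) = 0 := by
      by_contra h
      exact hi (by rw [hI]; exact Finset.mem_filter.mpr ⟨Finset.mem_univ i, h⟩)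
    have h1 : ∀ m ∈ (f i).coeff.support, pair (wt x v) m = rmin (f i) (wt x v) →
        pair (ν j) m = rmin (f i) (ν j) := fun m hm hmw =>
      LBND.minimal (hR.f_ne i) ν hi0 (wt x v) c c0 hc hw m hm hmw j
    have h2 := LBND.last x v hordm (f i) ((L.u i)⁻¹)
      (fun m => LBND.inO_ge ((L.memA _).mp (L.u_coef i m))) (hR.zero i) (ν j) _ h1
    rw [LBND.sum_ext]
    have h3 : ∀ j' : Fin n, L.G i (Fin.natAdd b j') = rgrad x ((L.u i)⁻¹ • f i) j' := by
      intro j'
      unfold Loc.G gr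
      rw [Fin.append_right]
    rw [Finset.sum_congr rfl fun j' _ => by rw [h3 j']]
    exact h2
  · intro l j
    rw [LBND.sum_ext]
    have h1 : ∀ j' : Fin n, ((ν j j' : ℤ) : K) * ρ l (Fin.natAdd b j') =
        ((ν j j' * q l j' : ℤ) : K) := by
      intro j'
      rw [hρq]
      push_cast
      rfl
    rw [Finset.sum_congr rfl fun j' _ => h1 j', ← Int.cast_sum]
    have h2 := (haq l).2.2.2 j
    unfold pair at h2
    rw [h2, Int.cast_zero]

end

end RMM
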