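import Pool.Agent.RMM.StE2
import Pool.Agent.MMCI.Tools
import Pool.Agent.MldGeo.Ord

/-!
# Relative minimal models: LE0, weight zero
-/

set_option autoImplicit false
set_option linter.unusedSectionVars false

namespace RMM

open MldGeo MMCI

noncomputable section

namespace LE0

variable {F K : Type} [Field F] [Field K] [Algebra ℂ F] [Algebra ℂ K] [Algebra F K]
  [IsScalarTower ℂ F K] {b e e' n r : ℕ}

theorem pair_zero (m : Fin n → ℤ) : pair (0 : Fin n → ℤ) m = 0 := by
  simp [pair]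

theorem rmin_zero {R : Type} [CommRing R] {f : LR R n} (hf : f ≠ 0) : rmin f 0 = 0 := by
  unfold rmin
  have h1 : (fun m => pair (0 : Fin n → ℤ) m) '' (f.coeff.support : Set (Fin n → ℤ)) = {0} := by
    have h2 : (f.coeff.support : Set (Fin n → ℤ)).Nonempty := by
      rw [Finset.coe_nonempty, Finsupp.support_nonempty_iff]
      intro h0
      apply hf
      exact AddMonoidAlgebra.ext h0
    obtain ⟨m, hm⟩ := h2
    ext k
    constructor
    · rintro ⟨m', -, rfl⟩
      exact pair_zero m'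
    · rintro rfl
      exact ⟨m, hm, pair_zero m⟩
  rw [h1]
  exact csInf_singleton 0

/-- the inverse of a unit of the local ring of `B` -/
theorem InO_inv {B : ProjModel F} {v : DivVal e' K} {a : F} (h : InO B v a) (ha : a ≠ 0)
    (h0 : v.ord (algebraMap F K a) = 0) : InO B v a⁻¹ := by
  obtain ⟨j, hj, p, hp, q, hq, hq0, hqo, heq⟩ := h
  have hp0 : p ≠ 0 := by
    rw [← heq]
    exact mul_ne_zero ha hq0
  refine ⟨j, hj, q, hq, p, hp, hp0, ?_, ?_⟩
  · rw [← heq, map_mul, v.ord_mul _ _ ((map_ne_zero _).2 ha) ((map_ne_zero _).2 hq0), h0, hqo,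
      add_zero]
  · rw [← heq, ← mul_assoc, inv_mul_cancel₀ ha, one_mul]

section Loc

variable {B : ProjModel F} {κ : ℕ} {y0 : Fin b → F} {β : DivVal (b + e) K → ℤ}
  {f : Fin r → LR F n} {x : Fin n → K} {v : DivVal (b + e) K}

theorem z_castAdd (L : Loc B e κ y0 β f x v) (l : Fin b) :
    L.z (Fin.castAdd n l) = algebraMap F K (L.y l) := by
  unfold Loc.z zz
  rw [Fin.append_left]

theorem z_natAdd (L : Loc B e κ y0 β f x v) (j : Fin n) : L.z (Fin.natAdd b j) = x j := by
  unfold Loc.z zz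
  rw [Fin.append_right]

theorem wt_z (L : Loc B e κ y0 β f x v) (hw : wt x v = 0) : wt L.z v = 0 := by
  funext c
  refine Fin.addCases (fun l => ?_) (fun j => ?_) c
  · unfold wt
    rw [z_castAdd, L.y_ord]
    rfl
  · unfold wt
    rw [z_natAdd]
    exact congrFun hw j

variable {B0 : Subalgebra ℂ K} (hA : ∀ a, InO B v a → algebraMap F K a ∈ B0)
  (hmon : ∀ m, mon x m ∈ B0)

include hA hmon

theorem z_mem (L : Loc B e κ y0 β f x v) (c : Fin (b + n)) : L.z c ∈ B0 ∧ (L.z c)⁻¹ ∈ B0 := by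
  classical
  refine Fin.addCases (fun l => ?_) (fun j => ?_) c
  · rw [z_castAdd, ← map_inv₀]
    have h := (L.memA _).1 (L.y_mem l)
    exact ⟨hA _ h, hA _ (InO_inv h (L.y_ne l) (L.y_ord l))⟩
  · rw [z_natAdd]
    have h1 : mon x (Pi.single j 1) = x j := by
      unfold mon
      rw [Finset.prod_eq_single j]
      · rw [Pi.single_eq_same, zpow_one]
      · intro i _ hi
        rw [Pi.single_eq_of_ne hi, zpow_zero]
      · intro h
        exact absurd (Finset.mem_univ j) h
    have h2 : mon x (Pi.single j (-1)) = (x j)⁻¹ := by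
      unfold mon
      rw [Finset.prod_eq_single j]
      · rw [Pi.single_eq_same, zpow_neg_one]
      · intro i _ hi
        rw [Pi.single_eq_of_ne hi, zpow_zero]
      · intro h
        exact absurd (Finset.mem_univ j) h
    rw [← h2, ← h1]
    exact ⟨hmon _, hmon _⟩

theorem G_mem (L : Loc B e κ y0 β f x v) (i : Fin r) (c : Fin (b + n)) : L.G i c ∈ B0 := by
  have hc : ∀ m, ((L.u i)⁻¹ • f i).coeff m ∈ L.A := by
    intro m
    have h := L.u_coef i m
    exact h
  have hcA : ∀ a ∈ L.A, algebraMap F K a ∈ B0 := fun a ha => hA a ((L.memA a).1 ha)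
  refine Fin.addCases (fun l => ?_) (fun j => ?_) c
  · unfold Loc.G gr
    rw [Fin.append_left]
    refine B0.mul_mem (hcA _ (L.y_mem l)) ?_
    unfold revd
    refine B0.sum_mem fun m _ => ?_
    exact B0.mul_mem (hcA _ (L.dA l _ (hc m))) (hmon m)
  · unfold Loc.G gr
    rw [Fin.append_right]
    unfold rgrad
    refine B0.sum_mem fun m _ => ?_
    exact B0.mul_mem (B0.mul_mem (hcA _ (hc m)) (B0.intCast_mem _)) (hmon m)

end Loc

end LE0

open LE0 in
/-- LE0 -/
theorem t_LE0 : M_LE0 := by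
  intro hGen hMON hREV hLREL hLUNI hLEXP hLBIG hLB0 F K _ _ _ _ _ _ b e n r B κ y0 β f x he htr R v
    L hw
  have hRel : Rel (b + e) L.z L.G := hLREL hREV B κ y0 β f x htr R v L
  have hU : GUnit L.G v (wmin f x v) L.σ := hLUNI hMON B κ y0 β f x R v L
  have hwz : wt L.z v = 0 := wt_z L hw
  obtain ⟨h1, h2⟩ := hGen.e0a L.z L.G he hRel v _ L.σ hU hwz
  refine ⟨h1, fun h => hLBIG hMON B κ y0 β f x R.ne v L (h2 h), ?_⟩
  rintro ⟨c, q, hcq, hres⟩
  have hwm : wmin f x v = fun _ => 0 := by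
    funext i
    unfold wmin
    rw [hw, rmin_zero (R.f_ne i)]
  rw [hwm] at hU
  choose ρ hρ using fun l => hLEXP hMON hREV B κ y0 β f x R.ne v L (c l) (q l) (hcq l).1
    (hcq l).2.1 (hcq l).2.2.1
  obtain ⟨B0, hG, hA, hmon, hder, -⟩ := hLB0 hMON hREV B κ y0 β f x R v L
  have hmon' : ∀ m, mon x m ∈ B0 := fun m => hmon m (by rw [hw, pair_zero])
  exact hGen.e0b L.z L.G he hRel v L.σ hU hwz _ ρ (fun l => (hρ l).1) hres B0 hG
    (z_mem hA hmon' L) (G_mem hA hmon' L) hder

end

end RMM
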