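import Pool.Agent.RMM.StE2
import Pool.Agent.MMCI.Tools
import Pool.Agent.MldGeo.Ord

/-!
# LE1: the logarithmic order of the form, nonzero weight
-/

set_option autoImplicit false

namespace RMM

open MldGeo MMCI

theorem t_LE1 : M_LE1 := by
  intro hG hMON hREV hLREL hLUNI hLEXP hLBIG F K _ _ _ _ _ _ b e n r B κ y0 β f x he hd hR v L hw
  have hrel := hLREL hREV B κ y0 β f x hd hR v L
  have huni := hLUNI hMON B κ y0 β f x hR v L
  obtain ⟨j, hj⟩ : ∃ j, wt x v j ≠ 0 := by
    by_contra h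
    push Not at h
    exact hw (funext h)
  have hz : L.z (Fin.natAdd b j) = x j := by
    unfold Loc.z zz
    rw [Fin.append_right]
  have hwz : wt L.z v ≠ 0 := by
    intro h
    apply hj
    have h2 := congrFun h (Fin.natAdd b j)
    unfold wt at h2
    rw [hz] at h2
    exact h2
  obtain ⟨h0, h1⟩ := hG.e1a L.z L.G he hrel v _ L.σ huni hwz
  refine ⟨h0, fun h => hLBIG hMON B κ y0 β f x hR.ne v L (h1 h), ?_⟩
  rintro ⟨c, q, hc, hres⟩
  have hone : InO B v (1 : F) := (L.memA 1).1 L.A.one_mem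
  have hv := (hMON (e := b + e) x hR.ne).2.2.2.2 v
  have hord1 : v.ord (algebraMap F K 1) = 0 := by
    have h3 := hv.1 0
    have h4 : mon x (0 : Fin n → ℤ) = 1 := by simp [mon]
    rw [h4] at h3
    rw [map_one, h3]
    simp [pair]
  obtain ⟨ρ0, hρ0, -⟩ := hLEXP hMON hREV B κ y0 β f x hR.ne v L 1 (Pi.single j 1) hone one_ne_zero
    hord1
  choose ρ hρ _ using fun l => hLEXP hMON hREV B κ y0 β f x hR.ne v L (c l) (q l) (hc l).1
    (hc l).2.1 (hc l).2.2.1
  refine hG.e1b L.z L.G he hrel v _ L.σ huni _ ρ0 _ ρ hρ0 ?_ hρ hres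
  rw [map_one, one_mul, hv.1]
  intro h
  apply hj
  have h5 : pair (wt x v) (Pi.single j 1) = wt x v j := by
    simp [pair, Pi.single_apply]
  rw [← h5]
  exact h

end RMM
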