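import Pool.Agent.RMM.StE2
import Pool.Agent.MMCI.Tools
import Pool.Agent.MldGeo.Ord

/-!
# LUNI: the orders of the extended gradients
-/

set_option autoImplicit false

namespace RMM

open MldGeo MMCI

namespace LUNI

theorem rmin_le {R : Type} [CommRing R] {n : ℕ} (f : LR R n) (ν m : Fin n → ℤ)
    (h : m ∈ f.coeff.support) : rmin f ν ≤ pair ν m := by
  unfold rmin
  refine csInf_le ?_ ⟨m, h, rfl⟩
  exact (f.coeff.support.finite_toSet.image _).bddBelow

theorem ge_of_InO {F K : Type} [Field F] [Field K] [Algebra ℂ F] [Algebra ℂ K]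
    [Algebra F K] [IsScalarTower ℂ F K] {e' : ℕ} (B : ProjModel F) (v : DivVal e' K) (a : F)
    (h : InO B v a) : v.Ge 0 (algebraMap F K a) := by
  obtain ⟨j, hj, p, hp, q, hq, hq0, hord, heq⟩ := h
  have hq' : algebraMap F K q ≠ 0 := (map_ne_zero _).2 hq0
  have h1 : algebraMap F K a = algebraMap F K p / algebraMap F K q := by
    rw [eq_div_iff hq', ← map_mul, heq]
  have h2 := (hj p hp).div (algebraMap F K q)
  rw [hord, sub_zero] at h2
  rw [h1]
  exact h2

end LUNI

open LUNI in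
theorem t_LUNI : S_LUNI := by
  intro hMON F K _ _ _ _ _ _ b e n r B κ y0 β f x hR v L
  obtain ⟨-, -, -, -, hv⟩ := hMON (e := b + e) x hR.ne
  obtain ⟨hord, -, -, -⟩ := hv v
  have hA : ∀ a ∈ L.A, v.Ge 0 (algebraMap F K a) := fun a ha => ge_of_InO B v a ((L.memA a).1 ha)
  have hco : ∀ i m, ((L.u i)⁻¹ • f i).coeff m = (L.u i)⁻¹ * (f i).coeff m := by
    intro i m
    rfl
  have hmon : ∀ i, ∀ m ∈ ((L.u i)⁻¹ • f i).coeff.support, v.Ge (wmin f x v i) (mon x m) := by
    intro i m hm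
    apply DivVal.Ge.of_le
    rw [hord]
    apply rmin_le
    rw [Finsupp.mem_support_iff, hco] at hm
    rw [Finsupp.mem_support_iff]
    exact right_ne_zero_of_mul hm
  refine ⟨fun i c => ?_, L.det_ne, L.det_ord⟩
  unfold Loc.G gr
  refine Fin.addCases (fun l => ?_) (fun j => ?_) c
  · rw [Fin.append_left]
    refine (hA _ (L.y_mem l)).mul_left ?_
    refine DivVal.Ge.sum _ _ fun m hm => ?_
    refine DivVal.Ge.mul_left (hA _ (L.dA l _ ?_)) (hmon i m hm)
    rw [hco]
    exact L.u_coef i m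
  · rw [Fin.append_right]
    refine DivVal.Ge.sum _ _ fun m hm => ?_
    refine DivVal.Ge.mul_left ?_ (hmon i m hm)
    refine DivVal.Ge.mul_left ?_ (DivVal.Ge.intCast v _)
    apply hA
    rw [hco]
    exact L.u_coef i m

end RMM
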