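import Pool.Agent.RMM.StE2
import Pool.Agent.MMCI.Tools
import Pool.Agent.MldGeo.Ord
import Pool.Agent.MMCI.K_MON
import Pool.Agent.RMM.LUNI

/-!
# LEXP: the logarithmic differential of a unit times a monomial
-/

set_option autoImplicit false

namespace RMM

open MldGeo MMCI

noncomputable section

open LUNI in
theorem t_LEXP : S_LEXP := by
  intro hMON hREV F K _ _ _ _ _ _ b e n r B κ y0 β f x hx v L a q ha ha0 hao
  obtain ⟨hmne, -, hmd, -, -⟩ := hMON (e := b + e) x hx
  obtain ⟨hD, -, -⟩ := hREV (K := K) L.y L.d x L.y_ne hx L.dual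
  have haK : algebraMap F K a ≠ 0 := (map_ne_zero _).2 ha0
  have hA : ∀ c ∈ L.A, v.Ge 0 (algebraMap F K c) := fun c hc => ge_of_InO B v c ((L.memA c).1 hc)
  refine ⟨Fin.append (fun l => (algebraMap F K a)⁻¹ * algebraMap F K (L.y l * L.d l a))
    (fun j => (q j : K)), ⟨mul_ne_zero haK (hmne q), fun c => ?_, ?_⟩, fun j => ?_⟩
  · refine Fin.addCases (fun l => ?_) (fun j => ?_) c
    · rw [Fin.append_left]
      refine DivVal.Ge.mul_left (DivVal.Ge.inv haK hao) ?_
      exact hA _ (L.A.mul_mem (L.y_mem l) (L.dA l a ((L.memA a).2 ha)))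
    · rw [Fin.append_right]
      exact DivVal.Ge.intCast v _
  · rw [MON.dlog_mul haK (hmne q), Fin.sum_univ_add, hmd q]
    simp only [Fin.append_left, Fin.append_right, Loc.z, zz]
    congr 1
    unfold dlog
    rw [hD a, Finset.smul_sum]
    refine Finset.sum_congr rfl fun l _ => ?_
    rw [smul_smul]
    rfl
  · rw [Fin.append_right]

end

end RMM
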