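import Pool.Agent.RMM.StE2
import Pool.Agent.MMCI.Tools
import Pool.Agent.MldGeo.Ord
import Pool.Agent.MMCI.K_OMG

/-!
# LOMG: the residue form, relative version
-/

set_option autoImplicit false

namespace RMM

open MldGeo MMCI

noncomputable section

namespace LOMG

variable {F K : Type} [Field F] [Field K] [Algebra ℂ F] [Algebra ℂ K] [Algebra F K]
  [IsScalarTower ℂ F K] {b e n r : ℕ}

theorem zz_castAdd (y : Fin b → F) (x : Fin n → K) (l : Fin b) :
    zz y x (Fin.castAdd n l) = algebraMap F K (y l) := Fin.append_left _ _ _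

theorem zz_natAdd (y : Fin b → F) (x : Fin n → K) (j : Fin n) :
    zz y x (Fin.natAdd b j) = x j := Fin.append_right _ _ _

theorem zz_ne (y : Fin b → F) (x : Fin n → K) (hy : ∀ l, y l ≠ 0) (hx : ∀ j, x j ≠ 0)
    (c : Fin (b + n)) : zz y x c ≠ 0 := by
  refine Fin.addCases (fun l => ?_) (fun j => ?_) c
  · rw [zz_castAdd]
    exact (map_ne_zero _).mpr (hy l)
  · rw [zz_natAdd]
    exact hx j

theorem gr_natAdd (y : Fin b → F) (d : Fin b → Derivation ℂ F F) (g : LR F n) (x : Fin n → K)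
    (j : Fin n) : gr y d g x (Fin.natAdd b j) = rgrad x g j := Fin.append_right _ _ _

theorem D_eq {a : K} (ha : a ≠ 0) : KaehlerDifferential.D ℂ K a = a • dlog a := by
  rw [dlog, smul_smul, mul_inv_cancel₀ ha, one_smul]

/-- the relations between the logarithmic differentials -/
theorem rel (hREV : S_REV) (y : Fin b → F) (d : Fin b → Derivation ℂ F F) (f : Fin r → LR F n)
    (x : Fin n → K) (hy : ∀ l, y l ≠ 0)
    (hd : ∀ a : F, KaehlerDifferential.D ℂ F a = ∑ l, d l a • KaehlerDifferential.D ℂ F (y l))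
    (hK : Algebra.trdeg ℂ K = ((b + e : ℕ) : Cardinal)) (hR : RReg e f x) :
    Rel (b + e) (zz y x) (fun i => gr y d (f i) x) := by
  obtain ⟨h1, -, h3⟩ := hREV y d x hy hR.ne hd
  refine ⟨hK, zz_ne y x hy hR.ne, ?_, fun i => ?_⟩
  · set M : Submodule K (Ω[K⁄ℂ]) := Submodule.span K (Set.range fun c => dlog (zz y x c)) with hM
    have hl : ∀ l, dlog (algebraMap F K (y l)) ∈ M := by
      intro l
      rw [← zz_castAdd y x l]
      exact Submodule.subset_span ⟨_, rfl⟩
    have hj : ∀ j, dlog (x j) ∈ M := by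
      intro j
      rw [← zz_natAdd y x j]
      exact Submodule.subset_span ⟨_, rfl⟩
    have key : ∀ a : K, KaehlerDifferential.D ℂ K a ∈ M := by
      intro a
      have ha : a ∈ IntermediateField.adjoin F (Set.range x) := by
        rw [hR.gen]
        trivial
      induction ha using IntermediateField.adjoin_induction with
      | mem a ha =>
        obtain ⟨j, rfl⟩ := ha
        rw [D_eq (hR.ne j)]
        exact M.smul_mem _ (hj j)
      | algebraMap c =>
        rw [h1 c]
        exact M.sum_mem fun l _ => M.smul_mem _ (hl l)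
      | add a b _ _ ha hb =>
        rw [map_add]
        exact M.add_mem ha hb
      | inv a _ ha =>
        rw [Derivation.leibniz_inv]
        exact M.smul_mem _ ha
      | mul a b _ _ ha hb =>
        rw [Derivation.leibniz]
        exact M.add_mem (M.smul_mem _ hb) (M.smul_mem _ ha)
    rw [eq_top_iff, ← KaehlerDifferential.span_range_derivation, Submodule.span_le]
    rintro _ ⟨a, rfl⟩
    exact key a
  · have h4 := h3 (f i)
    rw [hR.zero i, map_zero] at h4
    exact h4.symm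

/-- the minors of the extended gradients -/
theorem gminor_eq (y : Fin b → F) (d : Fin b → Derivation ℂ F F) (f : Fin r → LR F n)
    (x : Fin n → K) (σ : Fin r ⊕ Fin e ≃ Fin n) (σ' : Fin r ⊕ Fin (b + e) ≃ Fin (b + n))
    (h : ∀ j, σ' (Sum.inl j) = Fin.natAdd b (σ (Sum.inl j))) :
    gminor (fun i => gr y d (f i) x) σ' = rminor f x σ := by
  unfold gminor rminor
  congr 1
  ext i j
  change gr y d (f i) x (σ' (Sum.inl j)) = rgrad x (f i) (σ (Sum.inl j))
  rw [h j, gr_natAdd]

/-- the remaining functions -/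
theorem rest_eq (y : Fin b → F) (x : Fin n → K) (σ : Fin r ⊕ Fin e ≃ Fin n)
    (σ' : Fin r ⊕ Fin (b + e) ≃ Fin (b + n))
    (h1 : ∀ l : Fin b, σ' (Sum.inr (Fin.castAdd e l)) = Fin.castAdd n l)
    (h2 : ∀ l : Fin e, σ' (Sum.inr (Fin.natAdd b l)) = Fin.natAdd b (σ (Sum.inr l))) :
    rest (zz y x) σ' = zz y (rest x σ) := by
  funext l
  refine Fin.addCases (fun l => ?_) (fun l => ?_) l
  · rw [zz_castAdd]
    change zz y x (σ' (Sum.inr (Fin.castAdd e l))) = _
    rw [h1, zz_castAdd]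
  · rw [zz_natAdd]
    change zz y x (σ' (Sum.inr (Fin.natAdd b l))) = x (σ (Sum.inr l))
    rw [h2, zz_natAdd]

end LOMG

theorem t_LOMG : M_LOMG := by
  intro hREV hABAS hPLU hSIG hDUL F K _ _ _ _ _ _ b e n r y0 f x hbF hy hy0 hK hR
  obtain ⟨d, hd⟩ := hDUL y0 hbF hy hy0
  have hRel := LOMG.rel hREV y0 d f x hy hd hK hR
  obtain ⟨g, hg, hdet⟩ := OMG.exists_minor (Matrix.of fun i j => rgrad x (f i) j) hR.rank
  obtain ⟨σ0, hσ0⟩ := OMG.exists_equiv hR.dim_eq g hg
  have h0 : rminor f x σ0 ≠ 0 := by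
    unfold rminor
    simp only [hσ0]
    exact hdet
  obtain ⟨σ', hs1, hs2, hs3⟩ := hSIG (b := b) σ0
  have hm0 := LOMG.gminor_eq y0 d f x σ0 σ' hs1
  have hr0 := LOMG.rest_eq y0 x σ0 σ' hs2 hs3
  have hb0 := (hABAS (zz y0 x) (fun i => gr y0 d (f i) x) hRel σ' (by rw [hm0]; exact h0)).2.1
  rw [hr0] at hb0
  refine ⟨(rminor f x σ0)⁻¹ • dlogs (zz y0 (rest x σ0)), ?_, fun σ hσ => ?_⟩
  · exact smul_ne_zero (inv_ne_zero h0) hb0
  · obtain ⟨τ', ht1, ht2, ht3⟩ := hSIG (b := b) σ
    have hm := LOMG.gminor_eq y0 d f x σ τ' ht1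
    have hr := LOMG.rest_eq y0 x σ τ' ht2 ht3
    obtain ⟨ε, hε, h⟩ := hPLU (fun c => dlog (zz y0 x c)) (fun i c => gr y0 d (f i) x c)
      hRel.rel σ' τ' (by
        have h1 : gminor (fun i => gr y0 d (f i) x) σ' ≠ 0 := by rw [hm0]; exact h0
        exact h1)
    refine ⟨ε, hε, ?_⟩
    have h' : gminor (fun i => gr y0 d (f i) x) σ' • dlogs (rest (zz y0 x) τ') =
        (ε * gminor (fun i => gr y0 d (f i) x) τ') • dlogs (rest (zz y0 x) σ') := h
    rw [hm0, hm, hr0, hr] at h'
    have hεε : ε * ε = 1 := by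
      rcases hε with rfl | rfl <;> ring
    calc rminor f x σ • (rminor f x σ0)⁻¹ • dlogs (zz y0 (rest x σ0))
        = ((rminor f x σ0)⁻¹ * ε) • ((ε * rminor f x σ) • dlogs (zz y0 (rest x σ0))) := by
          rw [smul_smul, smul_smul]
          congr 1
          calc rminor f x σ * (rminor f x σ0)⁻¹ =
                (ε * ε) * (rminor f x σ * (rminor f x σ0)⁻¹) := by
                rw [hεε, one_mul]
            _ = (rminor f x σ0)⁻¹ * ε * (ε * rminor f x σ) := by ring
      _ = ((rminor f x σ0)⁻¹ * ε) • (rminor f x σ0 • dlogs (zz y0 (rest x σ))) := by rw [h']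
      _ = ε • dlogs (zz y0 (rest x σ)) := by
          rw [smul_smul]
          congr 1
          field_simp

end

end RMM
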