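import Pool.Agent.RMM.StE2
import Pool.Agent.RMM.LOMG
import Pool.Agent.MMCI.Tools
import Pool.Agent.MldGeo.Ord
import Pool.Agent.MMCI.K_OMG

/-!
# LFRM: the residue form in the local data
-/

set_option autoImplicit false

namespace RMM

open MldGeo MMCI

noncomputable section

namespace LFRM

variable {F K : Type} [Field F] [Field K] [Algebra ℂ F] [Algebra ℂ K] [Algebra F K]
  [IsScalarTower ℂ F K] {b e n r : ℕ}

/-- the gradient of a multiple -/
theorem rgrad_smul (c : F) (g : LR F n) (x : Fin n → K) (j : Fin n) :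
    rgrad x (c • g) j = algebraMap F K c * rgrad x g j := by
  unfold rgrad
  have h1 : (c • g).coeff = c • g.coeff := rfl
  rw [h1, Finsupp.sum_smul_index (fun m => by rw [map_zero, zero_mul, zero_mul]), Finsupp.sum,
    Finsupp.sum, Finset.mul_sum]
  refine Finset.sum_congr rfl fun m _ => ?_
  rw [map_mul]
  ring

end LFRM

theorem t_LFRM : M_LFRM := by
  intro hREV hLREL hPLU hSIG hWDG F K _ _ _ _ _ _ b e n r B κ y0 β f x hy hy0 hK hR ω hω v L
  have hRel := hLREL hREV B κ y0 β f x hK hR v L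
  obtain ⟨g, hg, hdet⟩ := OMG.exists_minor (Matrix.of fun i j => rgrad x (f i) j) hR.rank
  obtain ⟨σ0, hσ0⟩ := OMG.exists_equiv hR.dim_eq g hg
  have h0 : rminor f x σ0 ≠ 0 := by
    unfold rminor
    simp only [hσ0]
    exact hdet
  obtain ⟨σ', hs1, hs2, hs3⟩ := hSIG (b := b) σ0
  obtain ⟨ε1, hε1, h1⟩ := hω.2 σ0 h0
  have h2 := hWDG hREV (F := F) (K := K) y0 L.y L.d L.h hy L.y_ne hy0 L.h_eq L.dual
    (rest x σ0) (fun l => hR.ne _)
  have hr : rest L.z σ' = zz L.y (rest x σ0) := LOMG.rest_eq L.y x σ0 σ' hs2 hs3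
  rw [← hr] at h2
  -- the minor
  have hm : gminor L.G σ' = algebraMap F K (∏ i, (L.u i)⁻¹) * rminor f x σ0 := by
    unfold gminor rminor
    rw [map_prod, ← Matrix.det_mul_column]
    congr 1
    ext i j
    change L.G i (σ' (Sum.inl j)) = algebraMap F K (L.u i)⁻¹ * rgrad x (f i) (σ0 (Sum.inl j))
    rw [hs1 j]
    unfold Loc.G
    rw [LOMG.gr_natAdd, LFRM.rgrad_smul]
  have hu : algebraMap F K (∏ i, (L.u i)⁻¹) ≠ 0 := by
    rw [map_ne_zero]
    exact Finset.prod_ne_zero_iff.2 fun i _ => inv_ne_zero (L.u_ne i)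
  have hm0 : gminor L.G σ' ≠ 0 := by
    rw [hm]
    exact mul_ne_zero hu h0
  obtain ⟨ε2, hε2, h3⟩ := hPLU (fun c => dlog (L.z c)) L.G hRel.rel σ' L.σ hm0
  have h3' : gminor L.G σ' • dlogs (rest L.z L.σ) =
      (ε2 * gminor L.G L.σ) • dlogs (rest L.z σ') := h3
  have hεε : ε2 * ε2 = 1 := by
    rcases hε2 with rfl | rfl <;> ring
  refine ⟨ε1 * ε2, ?_, ?_⟩
  · rcases hε1 with rfl | rfl <;> rcases hε2 with rfl | rfl
    · exact Or.inl (by ring)
    · exact Or.inr (by ring)
    · exact Or.inr (by ring)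
    · exact Or.inl (by ring)
  · have h4 : gminor L.G L.σ • dlogs (rest L.z σ') =
        (ε2 * gminor L.G σ') • dlogs (rest L.z L.σ) := by
      rw [← smul_smul ε2, h3', smul_smul, ← mul_assoc, hεε, one_mul]
    have h5 : rminor f x σ0 • gminor L.G L.σ • ω =
        rminor f x σ0 • (ε1 * ε2 * algebraMap F K (L.h * ∏ i, (L.u i)⁻¹)) •
          dlogs (rest L.z L.σ) := by
      calc rminor f x σ0 • gminor L.G L.σ • ω
          = gminor L.G L.σ • rminor f x σ0 • ω := smul_comm _ _ _
        _ = gminor L.G L.σ • (ε1 * algebraMap F K L.h) • dlogs (rest L.z σ') := by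
            rw [h1, h2, smul_smul ε1]
        _ = (ε1 * algebraMap F K L.h) • gminor L.G L.σ • dlogs (rest L.z σ') := smul_comm _ _ _
        _ = (ε1 * algebraMap F K L.h * (ε2 * gminor L.G σ')) • dlogs (rest L.z L.σ) := by
            rw [h4, smul_smul]
        _ = _ := by
            rw [hm, smul_smul, map_mul]
            congr 1
            ring
    exact smul_right_injective _ h0 h5

end

end RMM
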