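import Pool.Agent.RMM.StE2
import Pool.Agent.MMCI.Tools
import Pool.Agent.MldGeo.Ord

/-!
# LREL: the relations between the logarithmic differentials in the local data
-/

set_option autoImplicit false

namespace RMM

open MldGeo MMCI

noncomputable section

namespace LREL

variable {F K : Type} [Field F] [Field K] [Algebra ℂ F] [Algebra ℂ K] [Algebra F K]
  [IsScalarTower ℂ F K] {b e n r : ℕ}

theorem zz_castAdd (y : Fin b → F) (x : Fin n → K) (l : Fin b) :
    zz y x (Fin.castAdd n l) = algebraMap F K (y l) := Fin.append_left _ _ _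

theorem zz_natAdd (y : Fin b → F) (x : Fin n → K) (j : Fin n) :
    zz y x (Fin.natAdd b j) = x j := Fin.append_right _ _ _

theorem zz_ne (y : Fin b → F) (x : Fin n → K) (hy : ∀ l, y l ≠ 0) (hx : ∀ j, x j ≠ 0)
    (c : Fin (b + n)) : zz y x c ≠ 0 := by
  refine Fin.addCases (fun l => ?_) (fun j => ?_) c
  · rw [zz_castAdd]
    exact (map_ne_zero _).mpr (hy l)
  · rw [zz_natAdd]
    exact hx j

theorem D_eq {a : K} (ha : a ≠ 0) : KaehlerDifferential.D ℂ K a = a • dlog a := by
  rw [dlog, smul_smul, mul_inv_cancel₀ ha, one_smul]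

/-- the logarithmic differentials span `Ω` -/
theorem span (y : Fin b → F) (d : Fin b → Derivation ℂ F F) (x : Fin n → K)
    (hx : ∀ j, x j ≠ 0) (hgen : IntermediateField.adjoin F (Set.range x) = ⊤)
    (h1 : ∀ a : F, KaehlerDifferential.D ℂ K (algebraMap F K a) =
      ∑ l, algebraMap F K (y l * d l a) • dlog (algebraMap F K (y l))) :
    Submodule.span K (Set.range fun c => dlog (zz y x c)) = ⊤ := by
  set M : Submodule K (Ω[K⁄ℂ]) := Submodule.span K (Set.range fun c => dlog (zz y x c)) with hM
  have hl : ∀ l, dlog (algebraMap F K (y l)) ∈ M := by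
    intro l
    rw [← zz_castAdd y x l]
    exact Submodule.subset_span ⟨_, rfl⟩
  have hj : ∀ j, dlog (x j) ∈ M := by
    intro j
    rw [← zz_natAdd y x j]
    exact Submodule.subset_span ⟨_, rfl⟩
  have key : ∀ a : K, KaehlerDifferential.D ℂ K a ∈ M := by
    intro a
    have ha : a ∈ IntermediateField.adjoin F (Set.range x) := by
      rw [hgen]
      trivial
    induction ha using IntermediateField.adjoin_induction with
    | mem a ha =>
      obtain ⟨j, rfl⟩ := ha
      rw [D_eq (hx j)]
      exact M.smul_mem _ (hj j)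
    | algebraMap c =>
      rw [h1 c]
      exact M.sum_mem fun l _ => M.smul_mem _ (hl l)
    | add a b _ _ ha hb =>
      rw [map_add]
      exact M.add_mem ha hb
    | inv a _ ha =>
      rw [Derivation.leibniz_inv]
      exact M.smul_mem _ ha
    | mul a b _ _ ha hb =>
      rw [Derivation.leibniz]
      exact M.add_mem (M.smul_mem _ hb) (M.smul_mem _ ha)
  rw [eq_top_iff, ← KaehlerDifferential.span_range_derivation, Submodule.span_le]
  rintro _ ⟨a, rfl⟩
  exact key a

/-- the value is linear -/
theorem rev_smul (x : Fin n → K) (u : F) (g : LR F n) :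
    rev x (u • g) = algebraMap F K u * rev x g := by
  have h1 : (u • g).coeff = u • g.coeff := rfl
  unfold rev
  rw [h1, Finsupp.sum_smul_index (fun m => by simp), Finsupp.mul_sum]
  refine Finsupp.sum_congr fun m _ => ?_
  rw [map_mul, mul_assoc]

end LREL

open LREL in
theorem t_LREL : S_LREL := by
  intro hREV F K _ _ _ _ _ _ b e n r B κ y0 β f x hK hR v L
  obtain ⟨h1, -, h3⟩ := hREV L.y L.d x L.y_ne hR.ne L.dual
  refine ⟨hK, zz_ne L.y x L.y_ne hR.ne, span L.y L.d x hR.ne hR.gen h1, fun i => ?_⟩
  have h4 := h3 ((L.u i)⁻¹ • f i)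
  rw [rev_smul, hR.zero i, mul_zero, map_zero] at h4
  exact h4.symm

end

end RMM
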