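import Pool.Agent.RMM.StE2
import Pool.Agent.MMCI.Tools
import Pool.Agent.MldGeo.Ord
import Pool.Agent.MMCI.K_UNT
import Pool.Agent.RMM.LREL
import Pool.Agent.RMM.LBND

/-!
# Module LUNT: the weight is primitive, for local data
-/

set_option autoImplicit false

namespace RMM

open MldGeo MldGeo.DivVal MMCI

noncomputable section

namespace LUNT

theorem mon_ext {F K : Type} [Field F] [Field K] [Algebra F K] {b n : ℕ} (y : Fin b → F)
    (x : Fin n → K) (q : Fin n → ℤ) : mon (zz y x) (LBND.ext q) = mon x q := by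
  unfold mon
  rw [Fin.prod_univ_add]
  have h1 : ∏ l : Fin b, zz y x (Fin.castAdd n l) ^ (LBND.ext q (Fin.castAdd n l)) = 1 := by
    refine Finset.prod_eq_one fun l _ => ?_
    rw [LBND.ext_left, zpow_zero]
  rw [h1, one_mul]
  refine Finset.prod_congr rfl fun j _ => ?_
  rw [LBND.ext_right]
  unfold zz
  rw [Fin.append_right]

theorem pair_ext {b n : ℕ} (w q : Fin n → ℤ) :
    pair (LBND.ext w : Fin (b + n) → ℤ) (LBND.ext q) = pair w q := by
  unfold pair
  rw [Fin.sum_univ_add]
  have h1 : ∑ l : Fin b, (LBND.ext w (Fin.castAdd n l) : ℤ) * LBND.ext q (Fin.castAdd n l) = 0 := by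
    refine Finset.sum_eq_zero fun l _ => ?_
    rw [LBND.ext_left, zero_mul]
  rw [h1, zero_add]
  refine Finset.sum_congr rfl fun j _ => ?_
  rw [LBND.ext_right, LBND.ext_right]

end LUNT

theorem t_LUNT : M_LUNT := by
  classical
  intro hGen hMON hREV hLREL hLUNI hLB0 F K _ _ _ _ _ _ b e n r B κ y0 β f x hpos hdim hR v L hw
    hbig
  obtain ⟨m1, m2, m3, m4, m5⟩ := hMON (e := b + e) x hR.ne
  obtain ⟨v1, v2, v3, v4⟩ := m5 v
  have hRel := hLREL hREV B κ y0 β f x hdim hR v L
  have hU := hLUNI hMON B κ y0 β f x hR v L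
  obtain ⟨B0, hG0, hBA, hBmon, -, hBD⟩ := hLB0 hMON hREV B κ y0 β f x hR v L
  obtain ⟨ca, u, hu, hres⟩ := hbig
  set w := wt x v with hwdef
  obtain ⟨q, hq0, hq⟩ := UNT.exists_gen w hw
  set k := pair w q with hk
  choose d hd using hq
  have m6 : ∀ a b, mon x (a - b) = mon x a / mon x b := by
    intro a b
    rw [eq_div_iff (m1 b), ← m2, sub_add_cancel]
  set w0 : Fin n → ℤ := fun j => d (Pi.single j 1) with hw0def
  have hw0 : ∀ j, w j = k * w0 j := by
    intro j
    rw [← UNT.pair_single w j, hd]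
  have hwk : wt x v = k • w0 := by
    funext j
    rw [Pi.smul_apply, smul_eq_mul]
    exact hw0 j
  have hdw0 : ∀ a, d a = pair w0 a := by
    intro a
    have h1 : k * d a = k * pair w0 a := by
      rw [← hd, pair, pair, Finset.mul_sum]
      refine Finset.sum_congr rfl fun j _ => ?_
      rw [hw0 j, mul_assoc]
    exact mul_left_cancel₀ hq0.ne' h1
  have hdq : d q = 1 := by
    have h1 := hd q
    rw [← hk] at h1
    have h2 : k * d q = k * 1 := by rw [mul_one]; exact h1.symm
    exact mul_left_cancel₀ hq0.ne' h2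
  have hdsub : ∀ a b, d (a - b) = d a - d b := by
    intro a b
    rw [hdw0, hdw0, hdw0, UNT.pair_sub]
  have hpair : pair w0 q = 1 := by rw [← hdw0, hdq]
  have hB0int : ∀ c : ℤ, (c : K) ∈ B0 := fun c => intCast_mem B0 c
  have hAB : ∀ a ∈ L.A, algebraMap F K a ∈ B0 := fun a ha => hBA a ((L.memA a).1 ha)
  set p := mon x q with hp
  have hmonz : mon L.z (LBND.ext q) = p := LUNT.mon_ext L.y x q
  -- exponents of minimal weight
  have hmin : ∀ i, ∃ a ∈ (f i).coeff.support, pair w a = rmin (f i) w :=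
    fun i => LBND.rmin_exists (hR.f_ne i) w
  choose μ hμ1 hμ2 using hmin
  -- the local equations
  have hco : ∀ i m, ((L.u i)⁻¹ • f i).coeff m = (L.u i)⁻¹ * (f i).coeff m := fun i m => rfl
  have hgA : ∀ i m, ((L.u i)⁻¹ • f i).coeff m ∈ L.A := by
    intro i m
    rw [hco]
    exact L.u_coef i m
  have hsupp : ∀ i, ∀ m ∈ ((L.u i)⁻¹ • f i).coeff.support, 0 ≤ pair w (m - μ i) := by
    intro i m hm
    have h1 : m ∈ (f i).coeff.support := by
      rw [Finsupp.mem_support_iff, hco] at hm
      rw [Finsupp.mem_support_iff]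
      exact right_ne_zero_of_mul hm
    rw [UNT.pair_sub, hμ2]
    linarith [LBND.rmin_le (f i) w h1]
  have hzero : ∀ i, ∑ a ∈ ((L.u i)⁻¹ • f i).coeff.support,
      algebraMap F K (((L.u i)⁻¹ • f i).coeff a) * mon x a = 0 := by
    intro i
    have h1 := LREL.rev_smul x (L.u i)⁻¹ (f i)
    rw [hR.zero i, mul_zero] at h1
    exact h1
  have hGB : ∀ i c, L.G i c / mon x (μ i) ∈ B0 := by
    intro i c
    refine Fin.addCases (fun l => ?_) (fun j => ?_) c
    · have h1 : L.G i (Fin.castAdd n l) =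
          algebraMap F K (L.y l) * revd x ((L.u i)⁻¹ • f i) (L.d l) := by
        unfold Loc.G gr
        rw [Fin.append_left]
      rw [h1, mul_div_assoc]
      refine B0.mul_mem (hAB _ (L.y_mem l)) ?_
      rw [revd, Finsupp.sum, Finset.sum_div]
      refine Subalgebra.sum_mem _ fun m hm => ?_
      rw [mul_div_assoc, ← m6]
      exact B0.mul_mem (hAB _ (L.dA l _ (hgA i m))) (hBmon _ (hsupp i m hm))
    · have h1 : L.G i (Fin.natAdd b j) = rgrad x ((L.u i)⁻¹ • f i) j := by
        unfold Loc.G gr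
        rw [Fin.append_right]
      rw [h1, rgrad, Finsupp.sum, Finset.sum_div]
      refine Subalgebra.sum_mem _ fun m hm => ?_
      rw [mul_div_assoc, ← m6]
      exact B0.mul_mem (B0.mul_mem (hAB _ (hgA i m)) (hB0int _)) (hBmon _ (hsupp i m hm))
  have hlast : ∀ i, -(p⁻¹ * ∑ c, ((LBND.ext w0 c : ℤ) : K) * L.G i c) / mon x (μ i) ∈ B0 := by
    intro i
    set g := (L.u i)⁻¹ • f i with hg
    have e0 : ∑ c, ((LBND.ext w0 c : ℤ) : K) * L.G i c = ∑ j, (w0 j : K) * rgrad x g j := by
      rw [LBND.sum_ext]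
      refine Finset.sum_congr rfl fun j _ => ?_
      have h1 : L.G i (Fin.natAdd b j) = rgrad x g j := by
        unfold Loc.G gr
        rw [Fin.append_right]
      rw [h1]
    have e1 : ∑ j, (w0 j : K) * rgrad x g j =
        ∑ a ∈ g.coeff.support, algebraMap F K (g.coeff a) * (d a : K) * mon x a := by
      have h1 : ∀ j, (w0 j : K) * rgrad x g j = ∑ a ∈ g.coeff.support,
          (w0 j : K) * (algebraMap F K (g.coeff a) * (a j : K) * mon x a) := by
        intro j
        rw [rgrad, Finsupp.sum, Finset.mul_sum]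
      rw [Finset.sum_congr rfl fun j _ => h1 j, Finset.sum_comm]
      refine Finset.sum_congr rfl fun a _ => ?_
      rw [hdw0 a, pair]
      push_cast
      rw [Finset.mul_sum, Finset.sum_mul]
      refine Finset.sum_congr rfl fun j _ => ?_
      ring
    have e2 : ∑ a ∈ g.coeff.support, algebraMap F K (g.coeff a) * mon x a = 0 := hzero i
    have e3 : -(p⁻¹ * ∑ c, ((LBND.ext w0 c : ℤ) : K) * L.G i c) / mon x (μ i) =
        ∑ a ∈ g.coeff.support,
        -(algebraMap F K (g.coeff a) * ((d a - d (μ i) : ℤ) : K) * mon x (a - μ i - q)) := by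
      have h2 : -(p⁻¹ * ∑ c, ((LBND.ext w0 c : ℤ) : K) * L.G i c) / mon x (μ i) =
          -(p⁻¹ * (∑ a ∈ g.coeff.support,
          algebraMap F K (g.coeff a) * (d a : K) * mon x a - (d (μ i) : K) *
          ∑ a ∈ g.coeff.support, algebraMap F K (g.coeff a) * mon x a)) / mon x (μ i) := by
        rw [e2, mul_zero, sub_zero, ← e1, e0]
      rw [h2, Finset.mul_sum, ← Finset.sum_sub_distrib, Finset.mul_sum, ← Finset.sum_neg_distrib,
        Finset.sum_div]
      refine Finset.sum_congr rfl fun a _ => ?_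
      rw [m6, m6]
      push_cast
      simp only [div_eq_mul_inv]
      ring
    rw [e3]
    refine Subalgebra.sum_mem _ fun a ha => ?_
    apply Subalgebra.neg_mem
    have h3 : d (μ i) ≤ d a := by
      have h4 := hsupp i a ha
      rw [hd, hdsub] at h4
      have h5 := nonneg_of_mul_nonneg_right h4 hq0
      linarith
    rcases h3.eq_or_lt with h4 | h4
    · rw [h4, sub_self, Int.cast_zero, mul_zero, zero_mul]
      exact B0.zero_mem
    · refine B0.mul_mem (B0.mul_mem (hAB _ (hgA i a)) (hB0int _)) (hBmon _ ?_)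
      rw [hd, hdsub, hdsub, hdq]
      apply mul_nonneg hq0.le
      omega
  have hfin : v.ord (mon L.z (LBND.ext q)) = 1 := by
    refine hGen.unt L.z L.G hpos hRel v (wmin f x v) L.σ hU B0 (LBND.ext w0) (LBND.ext q)
      (fun i => mon x (μ i)) (fun l => algebraMap F K (ca l) * mon x (u l)) hG0 ?_ ?_ ?_ ?_ ?_
      hres ?_
    · rw [LUNT.pair_ext, hpair]
    · rw [hmonz]
      exact hBmon q (by rw [← hk]; exact hq0.le)
    · rw [hmonz, hp, v1, ← hk]
      exact hq0
    · intro i
      refine ⟨m1 _, (v1 _).trans (hμ2 i), hGB i, ?_⟩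
      rw [hmonz]
      exact hlast i
    · intro l
      exact B0.mul_mem (hBA _ (hu l).1) (hBmon _ (hu l).2.2.2.ge)
    · intro B' D δ hB' hδ hD
      refine hBD q w0 k hq0 hwk hpair B' D δ hB' hδ ?_ ?_
      · intro l
        rw [hD, LBND.ext_left, Int.cast_zero, mul_zero, zero_add]
      · intro j
        have h1 := hD (Fin.natAdd b j)
        have h2 : L.z (Fin.natAdd b j) = x j := LREL.zz_natAdd L.y x j
        rw [h2, LBND.ext_right, hmonz] at h1
        exact h1
  refine ⟨q, ?_⟩
  rw [← hk, ← hfin, hmonz, hp, v1]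

end

end RMM
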