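import Pool.Agent.RMM.StE2
import Pool.Agent.MMCI.Tools
import Pool.Agent.MldGeo.Ord
import Pool.Agent.MMCI.K_MON

/-!
# REV: the differential of the value of a Laurent polynomial over a function field
-/

namespace RMM

open MldGeo MMCI

noncomputable section

namespace REV

variable {F K : Type} [Field F] [Field K] [Algebra ℂ F] [Algebra ℂ K] [Algebra F K]
  [IsScalarTower ℂ F K] {b n : ℕ}

theorem D_alg (y : Fin b → F) (d : Fin b → Derivation ℂ F F)
    (hd : ∀ a : F, KaehlerDifferential.D ℂ F a = ∑ l, d l a • KaehlerDifferential.D ℂ F (y l))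
    (a : F) : KaehlerDifferential.D ℂ K (algebraMap F K a) =
      ∑ l, algebraMap F K (d l a) • KaehlerDifferential.D ℂ K (algebraMap F K (y l)) := by
  have h := congrArg (KaehlerDifferential.map ℂ ℂ F K) (hd a)
  rw [map_sum, KaehlerDifferential.map_D] at h
  rw [h]
  refine Finset.sum_congr rfl fun l _ => ?_
  rw [map_smul, KaehlerDifferential.map_D, algebraMap_smul]

theorem D_dlog (y : Fin b → F) (d : Fin b → Derivation ℂ F F) (hy : ∀ l, y l ≠ 0)
    (hd : ∀ a : F, KaehlerDifferential.D ℂ F a = ∑ l, d l a • KaehlerDifferential.D ℂ F (y l))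
    (a : F) : KaehlerDifferential.D ℂ K (algebraMap F K a) =
      ∑ l, algebraMap F K (y l * d l a) • dlog (algebraMap F K (y l)) := by
  rw [D_alg y d hd a]
  refine Finset.sum_congr rfl fun l _ => ?_
  have hyl : algebraMap F K (y l) ≠ 0 := (map_ne_zero _).2 (hy l)
  rw [MON.D_eq hyl, smul_smul, map_mul, mul_comm]

theorem D_rev (y : Fin b → F) (d : Fin b → Derivation ℂ F F) (hy : ∀ l, y l ≠ 0)
    (hd : ∀ a : F, KaehlerDifferential.D ℂ F a = ∑ l, d l a • KaehlerDifferential.D ℂ F (y l))
    (x : Fin n → K) (hx : ∀ j, x j ≠ 0) (g : LR F n) :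
    KaehlerDifferential.D ℂ K (rev x g) = ∑ c, gr y d g x c • dlog (zz y x c) := by
  rw [Fin.sum_univ_add]
  simp only [gr, zz, Fin.append_left, Fin.append_right]
  have h1 : ∀ m ∈ g.coeff.support,
      KaehlerDifferential.D ℂ K (algebraMap F K (g.coeff m) * mon x m) =
      ∑ l, (algebraMap F K (y l) * (algebraMap F K (d l (g.coeff m)) * mon x m)) •
        dlog (algebraMap F K (y l)) +
      ∑ j, (algebraMap F K (g.coeff m) * (m j : K) * mon x m) • dlog (x j) := by
    intro m _
    rw [Derivation.leibniz, add_comm]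
    congr 1
    · rw [D_dlog y d hy hd, Finset.smul_sum]
      refine Finset.sum_congr rfl fun l _ => ?_
      rw [smul_smul, map_mul]
      congr 1
      ring
    · rw [MON.D_eq (MON.mon_ne hx m), MON.dlog_mon hx, smul_smul, Finset.smul_sum]
      refine Finset.sum_congr rfl fun j _ => ?_
      rw [smul_smul]
      congr 1
      ring
  unfold rev revd rgrad Finsupp.sum
  rw [map_sum, Finset.sum_congr rfl h1, Finset.sum_add_distrib, Finset.sum_comm]
  congr 1
  · refine Finset.sum_congr rfl fun l _ => ?_
    rw [Finset.mul_sum, Finset.sum_smul]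
  · rw [Finset.sum_comm]
    exact Finset.sum_congr rfl fun j _ => (Finset.sum_smul).symm

end REV

theorem t_REV : S_REV := by
  intro F K _ _ _ _ _ _ b n y d x hy hx hd
  refine ⟨REV.D_dlog y d hy hd, ?_, REV.D_rev y d hy hd x hx⟩
  intro D a
  have h := congrArg D.liftKaehlerDifferential (REV.D_alg (K := K) y d hd a)
  rw [map_sum, Derivation.liftKaehlerDifferential_comp_D] at h
  rw [h]
  refine Finset.sum_congr rfl fun l _ => ?_
  rw [map_smul, Derivation.liftKaehlerDifferential_comp_D, smul_eq_mul]

end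

end RMM
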