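import Pool.Agent.RMM.StE2
import Pool.Agent.MMCI.Tools
import Pool.Agent.MldGeo.Ord

/-!
# Relative minimal models, module RLOG: the residue form, assembly
-/

set_option autoImplicit false

namespace RMM

open MldGeo MMCI

namespace RLOG

lemma rmin_zero {R : Type} [CommRing R] {n : ℕ} (f : LR R n) : rmin f 0 = 0 := by
  unfold rmin
  have h : (fun m : Fin n → ℤ => pair 0 m) = fun _ => 0 := by
    funext m
    simp [pair]
  rw [h]
  rcases (f.coeff.support : Set (Fin n → ℤ)).eq_empty_or_nonempty with h0 | h0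
  · rw [h0, Set.image_empty]
    simp
  · rw [h0.image_const]
    simp

lemma rpsi_zero {R : Type} [CommRing R] {n r : ℕ} (f : Fin r → LR R n) : rpsi f 0 = 0 := by
  unfold rpsi
  simp [rmin_zero]

lemma pair_zero {n s : ℕ} (w q : Fin n → ℤ) (ν : Fin s → (Fin n → ℤ)) (c : Fin s → ℕ) (c0 : ℕ)
    (h0 : 0 < c0) (he : (c0 : ℤ) • w = ∑ j, (c j : ℤ) • ν j) (hq : ∀ j, pair (ν j) q = 0) :
    pair w q = 0 := by
  have h1 : (c0 : ℤ) * pair w q = 0 := by
    have h2 : (c0 : ℤ) * pair w q = pair ((c0 : ℤ) • w) q := by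
      simp only [pair, Finset.mul_sum, Pi.smul_apply, smul_eq_mul]
      exact Finset.sum_congr rfl fun _ _ => by ring
    rw [h2, he]
    simp only [pair, Finset.sum_apply, Pi.smul_apply, smul_eq_mul, Finset.sum_mul]
    rw [Finset.sum_comm]
    refine Finset.sum_eq_zero fun j _ => ?_
    have h3 := hq j
    simp only [pair] at h3
    simp only [mul_assoc, ← Finset.mul_sum, h3, mul_zero]
  rcases mul_eq_zero.1 h1 with h2 | h2
  · exact absurd h2 (by exact_mod_cast h0.ne')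
  · exact h2

section

variable {F K : Type} [Field F] [Field K] [Algebra ℂ F] [Algebra ℂ K] [Algebra F K]
  [IsScalarTower ℂ F K] {b e n r : ℕ} {B : ProjModel F} {κ : ℕ} {y0 : Fin b → F}
  {β : DivVal (b + e) K → ℤ} {f : Fin r → LR F n} {x : Fin n → K}

/-- The order of the residue form. -/
lemma key (hpos : 0 < b + e) (hdim : Algebra.trdeg ℂ K = ((b + e : ℕ) : Cardinal))
    (v : DivVal (b + e) K) (L : Loc B e κ y0 β f x v) (hU : GUnit L.G v (wmin f x v) L.σ)
    (ω : Forms (b + e) K) (hω : ω ≠ 0)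
    (h : ∃ ε : K, (ε = 1 ∨ ε = -1) ∧ gminor L.G L.σ • ω =
      (ε * algebraMap F K (L.h * ∏ i, (L.u i)⁻¹)) • dlogs (rest L.z L.σ)) :
    κ * v.logOrd ω - bo κ β (fun i => coefs (f i)) v =
      κ * (v.logOrd (dlogs (rest L.z L.σ)) - rpsi f (wt x v)) := by
  obtain ⟨ε, hε, he⟩ := h
  have hε0 : ε ≠ 0 := by
    rcases hε with h1 | h1
    · rw [h1]; exact one_ne_zero
    · rw [h1]; exact neg_ne_zero.2 one_ne_zero
  have hεo : v.ord ε = 0 := by
    rcases hε with h1 | h1
    · rw [h1]; exact DivVal.ord_one v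
    · rw [h1]; exact DivVal.ord_neg_one v
  have hu : ∀ i, algebraMap F K (L.u i) ≠ 0 := fun i =>
    (map_ne_zero (algebraMap F K)).2 (L.u_ne i)
  have hh : algebraMap F K L.h ≠ 0 := (map_ne_zero (algebraMap F K)).2 L.h_ne
  have hp : algebraMap F K (L.h * ∏ i, (L.u i)⁻¹) =
      algebraMap F K L.h * ∏ i, (algebraMap F K (L.u i))⁻¹ := by
    rw [map_mul, map_prod]
    simp only [map_inv₀]
  have hpr : ∏ i, (algebraMap F K (L.u i))⁻¹ ≠ 0 :=
    Finset.prod_ne_zero_iff.2 fun i _ => inv_ne_zero (hu i)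
  have hc0 : ε * algebraMap F K (L.h * ∏ i, (L.u i)⁻¹) ≠ 0 := by
    rw [hp]
    exact mul_ne_zero hε0 (mul_ne_zero hh hpr)
  have hne : dlogs (rest L.z L.σ) ≠ 0 := by
    intro h0
    rw [h0, smul_zero] at he
    rcases smul_eq_zero.1 he with h1 | h1
    · exact hU.ne h1
    · exact hω h1
  have h1 := cFSM hdim v (gminor L.G L.σ) ω hpos hU.ne hω
  have h2 := cFSM hdim v (ε * algebraMap F K (L.h * ∏ i, (L.u i)⁻¹)) (dlogs (rest L.z L.σ))
    hpos hc0 hne
  have h3 : v.ord (ε * algebraMap F K (L.h * ∏ i, (L.u i)⁻¹)) =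
      v.ord (algebraMap F K L.h) - ∑ i, cmin v (coefs (f i)) := by
    rw [hp, v.ord_mul _ _ hε0 (mul_ne_zero hh hpr), v.ord_mul _ _ hh hpr, hεo, zero_add,
      DivVal.ord_prod v _ _ (fun i _ => inv_ne_zero (hu i))]
    rw [sub_eq_add_neg, ← Finset.sum_neg_distrib]
    congr 1
    refine Finset.sum_congr rfl fun i _ => ?_
    rw [DivVal.ord_inv, L.u_ord i]
  have h4 : v.ord (gminor L.G L.σ) = rpsi f (wt x v) := hU.ord
  rw [he, h2, h3, h4] at h1
  have h5 := L.h_ord
  unfold bo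
  have h6 : v.logOrd ω = v.ord (algebraMap F K L.h) - ∑ i, cmin v (coefs (f i)) +
      v.logOrd (dlogs (rest L.z L.σ)) - rpsi f (wt x v) := by linarith
  rw [h6, ← h5]
  ring

end

end RLOG

theorem t_RLOG : M_RLOG := by
  intro hMON hREV hLREL hLUNI hABAS hLOMG hLFRM hLE1 hLE0 hLUNT hLBND F K _ _ _ _ _ _ b e n r
    B κ y0 β f x hpos hdim hB hS
  have hR : RReg e f x := hS.toRReg
  have hκ : (0 : ℤ) < κ := by exact_mod_cast hB.κ_pos
  obtain ⟨ω, hω⟩ := hLOMG y0 f x hB.dimF hB.y0_ne hB.y0_ind hdim hR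
  have hkey : ∀ (v : DivVal (b + e) K) (L : Loc B e κ y0 β f x v),
      κ * v.logOrd ω - bo κ β (fun i => coefs (f i)) v =
        κ * (v.logOrd (dlogs (rest L.z L.σ)) - rpsi f (wt x v)) := fun v L =>
    RLOG.key hpos hdim v L (hLUNI hMON B κ y0 β f x hR v L) ω hω.1
      (hLFRM B κ y0 β f x hB.y0_ne hB.y0_ind hdim hR ω hω v L)
  refine ⟨ω, ⟨hω.1, ?_, ?_, ?_, ?_, ?_, ?_⟩⟩
  · intro v hv
    rcases hS.nd v with ⟨⟨L⟩⟩ | ⟨hnB, hd⟩
    · have h1 := (hLE1 B κ y0 β f x hpos hdim hR v L hv).1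
      rw [hkey v L]
      nlinarith
    · have h1 := hd ω hω
      linarith
  · intro v hv
    rcases hS.nd v with ⟨⟨L⟩⟩ | ⟨hnB, hd⟩
    · have h1 := (hLE1 B κ y0 β f x hpos hdim hR v L hv).2
      rw [hkey v L, ← h1]
      constructor
      · intro h2
        have h3 : (κ : ℤ) * v.logOrd (dlogs (rest L.z L.σ)) = 0 := by linarith
        rcases mul_eq_zero.1 h3 with h4 | h4
        · exact absurd h4 hκ.ne'
        · exact h4
      · intro h2
        rw [h2]
        ring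
    · have h1 := hd ω hω
      constructor
      · intro h2
        linarith
      · intro h2
        exact absurd h2 hnB
  · intro v hv
    rcases hS.nd v with ⟨⟨L⟩⟩ | ⟨hnB, hd⟩
    · have h1 := (hLE0 B κ y0 β f x hpos hdim hR v L hv).1
      rw [hkey v L, hv, RLOG.rpsi_zero, sub_zero]
      nlinarith
    · have h1 := hd ω hω
      rw [hv, RLOG.rpsi_zero] at h1
      linarith
  · intro v hv
    rcases hS.nd v with ⟨⟨L⟩⟩ | ⟨hnB, hd⟩
    · have h1 := (hLE0 B κ y0 β f x hpos hdim hR v L hv).2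
      rw [hkey v L, hv, RLOG.rpsi_zero, sub_zero, ← h1]
      constructor
      · intro h2
        have h3 : (κ : ℤ) * (v.logOrd (dlogs (rest L.z L.σ)) - 1) = 0 := by linarith
        rcases mul_eq_zero.1 h3 with h4 | h4
        · exact absurd h4 hκ.ne'
        · linarith
      · intro h2
        rw [h2]
        ring
    · have h1 := hd ω hω
      rw [hv, RLOG.rpsi_zero] at h1
      constructor
      · intro h2
        linarith
      · intro h2
        exact absurd h2 hnB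
  · intro v hv hbig
    rcases hS.nd v with ⟨⟨L⟩⟩ | ⟨hnB, hd⟩
    · exact hLUNT B κ y0 β f x hpos hdim hR v L hv hbig
    · exact absurd hbig hnB
  · intro v hv s ν c c0 hc0 hc hl he hs
    rcases hS.nd v with ⟨⟨L⟩⟩ | ⟨hnB, hd⟩
    · exact hLBND B κ y0 β f x hpos hdim hR v L s ν c c0 hc0 hc hl he hs
    · rintro ⟨a, q, haq, hind⟩
      exact hnB ⟨a, q, fun l => ⟨(haq l).1, (haq l).2.1, (haq l).2.2.1,
        RLOG.pair_zero (wt x v) (q l) ν c c0 hc0 he (haq l).2.2.2⟩, hind⟩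

end RMM
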