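import Pool.Agent.RMM.StE2
import Pool.Agent.MMCI.Tools
import Pool.Agent.MldGeo.Ord

/-!
# Relative minimal models: SIG

The columns `x` only: a decomposition `Fin r ⊕ Fin e ≃ Fin n` of the columns `x` extends to the
columns `(y, x)`.
-/

set_option autoImplicit false

namespace RMM

open MldGeo MMCI

theorem t_SIG : S_SIG := by
  intro b e n r σ
  let τ : Fin r ⊕ (Fin b ⊕ Fin e) ≃ Fin b ⊕ (Fin r ⊕ Fin e) :=
    (Equiv.sumAssoc (Fin r) (Fin b) (Fin e)).symm.trans
      (((Equiv.sumComm (Fin r) (Fin b)).sumCongr (Equiv.refl (Fin e))).trans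
        (Equiv.sumAssoc (Fin b) (Fin r) (Fin e)))
  refine ⟨((Equiv.refl (Fin r)).sumCongr finSumFinEquiv.symm).trans
    (τ.trans (((Equiv.refl (Fin b)).sumCongr σ).trans finSumFinEquiv)), ?_, ?_, ?_⟩
  · intro j
    simp [τ]
  · intro l
    simp [τ]
  · intro l
    simp [τ]

end RMM
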