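import Pool.Agent.RMM.StE2
import Pool.Agent.MMCI.Tools
import Pool.Agent.MldGeo.Ord
import Pool.Agent.MMCI.K_EQ1b

/-!
# Relative minimal models: change of the transcendence basis of the base (`S_WDG`)
-/

open scoped TensorProduct KaehlerDifferential
open MldGeo MMCI

namespace RMM

namespace WDG

section Lin

variable {K : Type} [Field K] {V : Type} [AddCommGroup V] [Module K V] {n : ℕ}

/-- an alternating product of linear combinations of `n` vectors -/
theorem iota_comb (c : Matrix (Fin n) (Fin n) K) (v w : Fin n → V)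
    (h : ∀ i, w i = ∑ j, c i j • v j) :
    exteriorPower.ιMulti K n w = c.det • exteriorPower.ιMulti K n v := by
  classical
  let L : (Fin n → K) →ₗ[K] V := Fintype.linearCombination K v
  have h1 := EQ1b.iota_mat (Pi.basisFun K (Fin n)) c (fun i => c i) (by
    intro i
    funext l
    rw [Finset.sum_apply, Finset.sum_eq_single l]
    · rw [Pi.smul_apply, Pi.basisFun_apply, Pi.single_eq_same, smul_eq_mul, mul_one]
    · intro j _ hj
      rw [Pi.smul_apply, Pi.basisFun_apply, Pi.single_eq_of_ne (Ne.symm hj), smul_zero]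
    · intro hl
      exact absurd (Finset.mem_univ l) hl)
  have h2 := congrArg (exteriorPower.map n L) h1
  rw [map_smul, exteriorPower.map_apply_ιMulti, exteriorPower.map_apply_ιMulti] at h2
  have h3 : (L ∘ fun i => c i) = w := by
    funext i
    show L (c i) = w i
    rw [h i]
    exact Fintype.linearCombination_apply K v (c i)
  have h4 : (L ∘ (Pi.basisFun K (Fin n) : Fin n → Fin n → K)) = v := by
    funext i
    show L (Pi.basisFun K (Fin n) i) = v i
    rw [Pi.basisFun_apply]
    exact (Fintype.linearCombination_apply_single K v i (1 : K)).trans (one_smul K (v i))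
  rw [h3, h4] at h2
  exact h2

end Lin

/-- the block matrix `(c, 0; 0, 1)` -/
noncomputable def blk {K : Type} [Field K] {b e : ℕ} (c : Matrix (Fin b) (Fin b) K) :
    Matrix (Fin (b + e)) (Fin (b + e)) K :=
  (Matrix.fromBlocks c 0 0 (1 : Matrix (Fin e) (Fin e) K)).submatrix finSumFinEquiv.symm
    finSumFinEquiv.symm

theorem blk_det {K : Type} [Field K] {b e : ℕ} (c : Matrix (Fin b) (Fin b) K) :
    (blk (e := e) c).det = c.det := by
  unfold blk
  rw [Matrix.det_submatrix_equiv_self, Matrix.det_fromBlocks_zero₂₁, Matrix.det_one, mul_one]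

theorem blk_ll {K : Type} [Field K] {b e : ℕ} (c : Matrix (Fin b) (Fin b) K) (i j : Fin b) :
    blk (e := e) c (Fin.castAdd e i) (Fin.castAdd e j) = c i j := by
  unfold blk
  rw [Matrix.submatrix_apply, finSumFinEquiv_symm_apply_castAdd, finSumFinEquiv_symm_apply_castAdd,
    Matrix.fromBlocks_apply₁₁]

theorem blk_lr {K : Type} [Field K] {b e : ℕ} (c : Matrix (Fin b) (Fin b) K) (i : Fin b)
    (j : Fin e) : blk (e := e) c (Fin.castAdd e i) (Fin.natAdd b j) = 0 := by
  unfold blk
  rw [Matrix.submatrix_apply, finSumFinEquiv_symm_apply_castAdd, finSumFinEquiv_symm_apply_natAdd,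
    Matrix.fromBlocks_apply₁₂]
  rfl

theorem blk_rl {K : Type} [Field K] {b e : ℕ} (c : Matrix (Fin b) (Fin b) K) (i : Fin e)
    (j : Fin b) : blk (e := e) c (Fin.natAdd b i) (Fin.castAdd e j) = 0 := by
  unfold blk
  rw [Matrix.submatrix_apply, finSumFinEquiv_symm_apply_castAdd, finSumFinEquiv_symm_apply_natAdd,
    Matrix.fromBlocks_apply₂₁]
  rfl

theorem blk_rr {K : Type} [Field K] {b e : ℕ} (c : Matrix (Fin b) (Fin b) K) (i j : Fin e) :
    blk (e := e) c (Fin.natAdd b i) (Fin.natAdd b j) = (1 : Matrix (Fin e) (Fin e) K) i j := by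
  unfold blk
  rw [Matrix.submatrix_apply, finSumFinEquiv_symm_apply_natAdd, finSumFinEquiv_symm_apply_natAdd,
    Matrix.fromBlocks_apply₂₂]

end WDG

open WDG in
/-- WDG: change of the transcendence basis of `F`. -/
theorem t_WDG : S_WDG := by
  classical
  intro hREV F K _ _ _ _ _ _ b e y0 y d h hy0 hy hne hh hdual w hw
  let C : Matrix (Fin b) (Fin b) F := Matrix.of fun i l => (y0 i)⁻¹ * (y l * d l (y0 i))
  -- the relations over `F`
  have hF : ∀ i, dlog (y0 i) = ∑ l, C i l • dlog (y l) := by
    intro i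
    unfold dlog
    rw [hdual (y0 i), Finset.smul_sum]
    refine Finset.sum_congr rfl fun l _ => ?_
    rw [smul_smul, smul_smul]
    congr 1
    show (y0 i)⁻¹ * d l (y0 i) = (y0 i)⁻¹ * (y l * d l (y0 i)) * (y l)⁻¹
    have := hy l
    field_simp
  have h1 : dlogs y0 = C.det • dlogs y := iota_comb C _ _ hF
  have hne' : dlogs y ≠ 0 := by
    intro h0
    rw [h0, smul_zero] at h1
    exact hne h1
  have h2 : h = C.det := smul_left_injective F hne' (hh.symm.trans h1)
  -- the relations over `K`
  obtain ⟨hr, -, -⟩ := hREV y d w hy hw hdual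
  let C' : Matrix (Fin b) (Fin b) K := C.map (algebraMap F K)
  have hdet : C'.det = algebraMap F K h := by
    rw [h2]
    exact (RingHom.map_det (algebraMap F K) C).symm
  have hK : ∀ c, dlog (zz y0 w c) = ∑ c', blk (e := e) C' c c' • dlog (zz y w c') := by
    intro c
    rw [Fin.sum_univ_add]
    refine Fin.addCases (fun i => ?_) (fun i => ?_) c
    · have e1 : zz y0 w (Fin.castAdd e i) = algebraMap F K (y0 i) := Fin.append_left _ _ i
      rw [e1]
      have e2 : ∑ l : Fin e, blk (e := e) C' (Fin.castAdd e i) (Fin.natAdd b l) •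
          dlog (zz y w (Fin.natAdd b l)) = 0 := by
        refine Finset.sum_eq_zero fun l _ => ?_
        rw [blk_lr, zero_smul]
      rw [e2, add_zero]
      have e3 : dlog (algebraMap F K (y0 i)) =
          (algebraMap F K (y0 i))⁻¹ • KaehlerDifferential.D ℂ K (algebraMap F K (y0 i)) := rfl
      rw [e3, hr (y0 i), Finset.smul_sum]
      refine Finset.sum_congr rfl fun l _ => ?_
      have e4 : zz y w (Fin.castAdd e l) = algebraMap F K (y l) := Fin.append_left _ _ l
      rw [blk_ll, e4, smul_smul]
      congr 1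
      show (algebraMap F K (y0 i))⁻¹ * algebraMap F K (y l * d l (y0 i)) =
        algebraMap F K ((y0 i)⁻¹ * (y l * d l (y0 i)))
      rw [map_mul (algebraMap F K) (y0 i)⁻¹, map_inv₀]
    · have e1 : ∀ z : Fin b → F, zz z w (Fin.natAdd b i) = w i := fun z => Fin.append_right _ _ i
      rw [e1]
      have e2 : ∑ l : Fin b, blk (e := e) C' (Fin.natAdd b i) (Fin.castAdd e l) •
          dlog (zz y w (Fin.castAdd e l)) = 0 := by
        refine Finset.sum_eq_zero fun l _ => ?_
        rw [blk_rl, zero_smul]
      rw [e2, zero_add, Finset.sum_eq_single i]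
      · rw [blk_rr, Matrix.one_apply_eq, one_smul, e1]
      · intro l _ hl
        rw [blk_rr, Matrix.one_apply_ne (Ne.symm hl), zero_smul]
      · intro hi
        exact absurd (Finset.mem_univ i) hi
  have h5 : dlogs (zz y0 w) = (blk (e := e) C').det • dlogs (zz y w) := iota_comb _ _ _ hK
  rw [h5, blk_det, hdet]

end RMM
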