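import Pool.Agent.MMCI.FinalT2
import Pool.Agent.RMM.ABAS
import Pool.Agent.RMM.AELI
import Pool.Agent.RMM.ASOL
import Pool.Agent.RMM.AE1a
import Pool.Agent.RMM.AE1b
import Pool.Agent.RMM.AE0a
import Pool.Agent.RMM.AE0b
import Pool.Agent.RMM.AE0c
import Pool.Agent.RMM.AUNT
import Pool.Agent.RMM.ABND
import Pool.Agent.RMM.GEN
import Pool.Agent.RMM.REV
import Pool.Agent.RMM.LREL
import Pool.Agent.RMM.LUNI
import Pool.Agent.RMM.LEXP
import Pool.Agent.RMM.LBIG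
import Pool.Agent.RMM.LE1
import Pool.Agent.RMM.LB0
import Pool.Agent.RMM.LE0
import Pool.Agent.RMM.LUNT
import Pool.Agent.RMM.LBND
import Pool.Agent.RMM.SIG
import Pool.Agent.RMM.DUL
import Pool.Agent.RMM.LOMG
import Pool.Agent.RMM.WDG
import Pool.Agent.RMM.LFRM
import Pool.Agent.RMM.RLOG

/-!
# Relative minimal models, block E: the residue form
-/

set_option autoImplicit false

namespace RMM

open MldGeo MMCI

theorem rgen : GenE :=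
  t_GEN (t_AE1a t_MON t_ABAS t_IND t_FRD) (t_AE1b t_ABAS t_AELI t_FRD)
    (t_AE0a t_ABAS t_IND t_FRD) (t_AE0c t_ABAS t_AELI t_IND t_FRD)
    (t_AE0b t_ABAS t_ASOL t_DK t_LOB) (t_AUNT t_MON t_ABAS t_ASOL t_DK t_LOB) t_ABND

theorem rlog : S_RLOG :=
  t_RLOG t_MON t_REV t_LREL t_LUNI t_ABAS (t_LOMG t_REV t_ABAS t_PLU t_SIG t_DUL)
    (t_LFRM t_REV t_LREL t_PLU t_SIG t_WDG)
    (t_LE1 rgen t_MON t_REV t_LREL t_LUNI t_LEXP t_LBIG)
    (t_LE0 rgen t_MON t_REV t_LREL t_LUNI t_LEXP t_LBIG t_LB0)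
    (t_LUNT rgen t_MON t_REV t_LREL t_LUNI t_LB0)
    (t_LBND rgen t_MON t_REV t_LREL t_LUNI t_LEXP)

end RMM
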