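import Pool.Agent.RMM.StE3
import Pool.Agent.MMCI.Tools
import Pool.Agent.MMCI.K_BAS
import Pool.Agent.MldGeo.Ord

/-!
# Relative minimal models, module BEQ: the equation of `K_B` near a closed point
-/

set_option autoImplicit false

namespace RMM

open MldGeo MMCI

noncomputable section

namespace BEQ

variable {F : Type} [Field F] [Algebra ℂ F]

/-- There are no divisorial valuations of a field of transcendence degree zero. -/
theorem no_val {b : ℕ} (htr : Algebra.trdeg ℂ F = 0) (v : DivVal b F) : False := by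
  obtain ⟨t, -, ht⟩ := v.unif
  have halg : Algebra.IsAlgebraic ℂ F := trdeg_eq_zero_iff.1 htr
  obtain ⟨c, hc⟩ := (IsAlgClosed.algebraMap_bijective_of_isIntegral (k := ℂ) (K := F)).2 t
  rw [← hc, v.ord_const] at ht
  exact absurd ht (by decide)

/-- The form `dlogs y` in terms of the differentials of the coordinates. -/
theorem dlogs_y {b : ℕ} (y t : Fin b → F) (h : ∀ l, y l = 1 + t l) :
    dlogs y = (∏ l, (y l)⁻¹) • dforms t := by
  have h1 : (fun l => dlog (y l)) = fun l => (y l)⁻¹ • KaehlerDifferential.D ℂ F (t l) := by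
    funext l
    rw [dlog, h l, map_add, Derivation.map_one_eq_zero, zero_add]
  rw [dlogs, dforms, h1]
  exact (exteriorPower.ιMulti F b).toMultilinearMap.map_smul_univ (fun l => (y l)⁻¹)
    (fun l => KaehlerDifferential.D ℂ F (t l))

/-- A derivation in terms of the dual derivations. -/
theorem der_dual {b : ℕ} (t : Fin b → F) (d : Fin b → Derivation ℂ F F)
    (dual : ∀ a : F, KaehlerDifferential.D ℂ F a =
      ∑ l, d l a • KaehlerDifferential.D ℂ F (t l)) (D : Derivation ℂ F F) (a : F) :
    D a = ∑ l, d l a * D (t l) := by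
  have h1 : ∀ x, D.liftKaehlerDifferential (KaehlerDifferential.D ℂ F x) = D x :=
    fun x => D.liftKaehlerDifferential_comp_D x
  rw [← h1 a, dual a, map_sum]
  refine Finset.sum_congr rfl fun l _ => ?_
  rw [map_smul, h1, smul_eq_mul]

/-- The dual derivations preserve the valuation ring. -/
theorem der_ge {n : ℕ} {R : Subalgebra ℂ F} {P : Ideal R} {v : DivVal n F}
    (hv : IsPrimeDivisor R v P) (hfr : ∀ a : F, v.Ge 0 a → ∃ r s : R, s ∉ P ∧ a * (s : F) = r)
    (s : R) (hs : s ∉ P) (d : Derivation ℂ F F) (hd : ∀ a : R, (s : F) * d (a : F) ∈ R)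
    (a : F) (ha : v.Ge 0 a) : v.Ge 0 (d a) := by
  have hz : ∀ x : R, x ∉ P → (x : F) ≠ 0 ∧ v.ord (x : F) = 0 := by
    intro x hx
    rw [hv.2.2.2 x, not_or] at hx
    refine ⟨fun h => hx.1 (Subtype.ext h), le_antisymm (not_lt.1 hx.2) (hv.2.2.1 x)⟩
  have hR : ∀ x : R, v.Ge 0 (d (x : F)) := by
    intro x
    have h1 : v.Ge 0 ((s : F) * d (x : F)) := Or.inr (hv.2.2.1 ⟨_, hd x⟩)
    have h2 : v.Ge 0 ((s : F)⁻¹) := Or.inr (by rw [DivVal.ord_inv, (hz s hs).2, neg_zero])
    have h3 := h2.mul h1
    rw [add_zero, ← mul_assoc, inv_mul_cancel₀ (hz s hs).1, one_mul] at h3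
    exact h3
  obtain ⟨p, q, hq, hpq⟩ := hfr a ha
  obtain ⟨q0, q1⟩ := hz q hq
  have h4 : d a * (q : F) = d (p : F) - a * d (q : F) := by
    rw [← hpq, Derivation.leibniz, smul_eq_mul, smul_eq_mul]
    ring
  have h5 : d a = (q : F)⁻¹ * (d (p : F) - a * d (q : F)) := by
    rw [← h4]
    field_simp
  have h6 : v.Ge 0 ((q : F)⁻¹) := Or.inr (by rw [DivVal.ord_inv, q1, neg_zero])
  have h7 : v.Ge 0 (a * d (q : F)) := by
    have := ha.mul (hR q)
    rwa [add_zero] at this
  have h8 := h6.mul ((hR p).sub h7)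
  rw [add_zero] at h8
  rw [h5]
  exact h8

end BEQ

/-- BEQ: `h` is an equation of `K_B` near `m`. -/
theorem t_BEQ : M_BEQ := by
  intro hFRC F _ _ b B j m C y0 h htr hnorm hm hy0 hh hyh
  obtain ⟨hfg, hfrac, -⟩ := hFRC B j
  have htm : ∀ l, C.t l ∈ m := by
    intro l
    exact C.tm.ge (Ideal.mem_sup_left (Ideal.subset_span ⟨l, rfl⟩))
  have hmp := hm.isPrime
  have h1t : ∀ l, (1 + C.t l) ∉ m := by
    intro l hl
    apply hmp.ne_top
    rw [Ideal.eq_top_iff_one]
    have := m.sub_mem hl (htm l)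
    rwa [add_sub_cancel_right] at this
  refine ⟨C.s * ∏ l, (1 + C.t l), ?_, ?_⟩
  · intro hs
    rcases hmp.mem_or_mem hs with h1 | h1
    · exact C.sm h1
    · obtain ⟨l, -, hl⟩ := (hmp.prod_mem_iff).1 h1
      exact h1t l hl
  · intro m' hm' hsm' v P hv hPm'
    have hsP : C.s * ∏ l, (1 + C.t l) ∉ P := fun hc => hsm' (hPm' hc)
    rcases Nat.eq_zero_or_pos b with hb | hb
    · exact (BEQ.no_val (by rw [htr, hb]; exact Nat.cast_zero) v).elim
    have hsP1 : C.s ∉ P := fun hc => hsP (P.mul_mem_right _ hc)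
    have hsP2 : ∀ l, (1 + C.t l) ∉ P := by
      intro l hc
      apply hsP
      refine P.mul_mem_left _ ?_
      exact (hv.1.prod_mem_iff).2 ⟨l, Finset.mem_univ l, hc⟩
    have hz : ∀ x : B.ring j, x ∉ P → (x : F) ≠ 0 ∧ v.ord (x : F) = 0 := by
      intro x hx
      rw [hv.2.2.2 x, not_or] at hx
      refine ⟨fun h => hx.1 (Subtype.ext h), le_antisymm (not_lt.1 hx.2) (hv.2.2.1 x)⟩
    -- the local ring at `P`
    let X : Germ b :=
      { K := F
        fieldK := inferInstance
        algK := inferInstance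
        R := B.ring j
        fg := hfg
        frac := fun a => by
          obtain ⟨p, q, hq, hpq⟩ := hfrac a
          exact ⟨p, p.2, q, q.2, fun hc => hq (Subtype.ext hc), hpq⟩
        normal := hnorm
        trdeg := htr
        m := m
        max := hm }
    have hfr : ∀ a : F, v.Ge 0 a → ∃ r s : B.ring j, s ∉ P ∧ a * (s : F) = r :=
      cOLC X P v hv
    -- the form `dforms t`
    have hy : dlogs C.y = (∏ l, (C.y l)⁻¹) • dforms fun l => (C.t l : F) :=
      BEQ.dlogs_y C.y (fun l => (C.t l : F)) fun l => rfl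
    have hyl : ∀ l, C.y l ≠ 0 ∧ v.ord (C.y l) = 0 := by
      intro l
      have := hz _ (hsP2 l)
      exact this
    have hg : (∏ l, (C.y l)⁻¹) ≠ 0 ∧ v.ord (∏ l, (C.y l)⁻¹) = 0 := by
      constructor
      · exact Finset.prod_ne_zero_iff.2 fun l _ => inv_ne_zero (hyl l).1
      · rw [DivVal.ord_prod v _ _ fun l _ => inv_ne_zero (hyl l).1]
        refine Finset.sum_eq_zero fun l _ => ?_
        rw [DivVal.ord_inv, (hyl l).2, neg_zero]
    have hdt : (dforms fun l => (C.t l : F)) ≠ 0 := by
      intro hc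
      apply hy0
      rw [hyh, hy, hc, smul_zero, smul_zero]
    have hli : LinearIndependent F fun l => KaehlerDifferential.D ℂ F (C.t l : F) := by
      by_contra hc
      exact hdt (AlternatingMap.map_linearDependent _ _ hc)
    have hreg := (cREG htr v (fun l => (C.t l : F)) hb (fun l => Or.inr (hv.2.2.1 _))
      (BAS.algInd _ hli)).2 (by
        intro D hD a ha
        rw [BEQ.der_dual (fun l => (C.t l : F)) C.d C.dual D a]
        have hsum : ∀ S : Finset (Fin b), v.Ge 0 (∑ l ∈ S, C.d l a * D (C.t l : F)) := by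
          intro S
          classical
          induction S using Finset.induction_on with
          | empty => exact Or.inl (by simp)
          | insert l S hl ih =>
            rw [Finset.sum_insert hl]
            refine DivVal.Ge.add ?_ ih
            have h1 := (BEQ.der_ge hv hfr C.s hsP1 (C.d l) (C.sd l) a ha).mul (hD l)
            rwa [add_zero] at h1
        exact hsum Finset.univ)
    have hω : dlogs y0 = (h * ∏ l, (C.y l)⁻¹) • dforms fun l => (C.t l : F) := by
      rw [hyh, hy, smul_smul]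
    rw [cTXT htr v (dlogs y0) hb hy0, hω, cFSM htr v _ _ hb (mul_ne_zero hh hg.1) hdt, hreg,
      v.ord_mul _ _ hh hg.1, hg.2]
    push_cast
    ring

end

end RMM
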