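import Pool.Agent.RMM.StE3
import Pool.Agent.MldGeo.Ord

/-!
# Relative minimal models: module RCEN
-/

set_option autoImplicit false

namespace RMM

open MldGeo MMCI

noncomputable section

namespace RCEN

variable {F K : Type} [Field F] [Field K] [Algebra ℂ F] [Algebra ℂ K]
  [Algebra F K] [IsScalarTower ℂ F K] {e' : ℕ}

/-- Fractions of elements of the chart `j` with a denominator of order zero. -/
def Fr (B : ProjModel F) (v : DivVal e' K) (j : Fin (B.N + 1)) (a : F) : Prop :=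
  ∃ p ∈ B.ring j, ∃ q ∈ B.ring j, q ≠ 0 ∧ v.ord (algebraMap F K q) = 0 ∧ a * q = p

lemma map_ne {a : F} (h : a ≠ 0) : algebraMap F K a ≠ 0 := by
  intro h'
  exact h ((map_eq_zero (algebraMap F K)).1 h')

lemma mem_gen (B : ProjModel F) (i j : Fin (B.N + 1)) : B.s i / B.s j ∈ B.ring j :=
  Algebra.subset_adjoin ⟨i, rfl⟩

/-- Every element of the chart `j'` times a power of `s_j' / s_j` is in the chart `j`. -/
lemma exists_pow (B : ProjModel F) (j j' : Fin (B.N + 1)) (a : F) (ha : a ∈ B.ring j') :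
    ∃ k : ℕ, (B.s j' / B.s j) ^ k * a ∈ B.ring j := by
  refine Algebra.adjoin_induction (p := fun a _ => ∃ k : ℕ, (B.s j' / B.s j) ^ k * a ∈ B.ring j)
    ?_ ?_ ?_ ?_ ha
  · rintro _ ⟨i, rfl⟩
    refine ⟨1, ?_⟩
    have h : (B.s j' / B.s j) ^ 1 * (B.s i / B.s j') = B.s i / B.s j := by
      have h1 := B.ne j
      have h2 := B.ne j'
      field_simp
    change (B.s j' / B.s j) ^ 1 * (B.s i / B.s j') ∈ B.ring j
    rw [h]
    exact mem_gen B i j
  · intro c
    exact ⟨0, by simpa using (B.ring j).algebraMap_mem c⟩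
  · rintro x y _ _ ⟨k, hk⟩ ⟨l, hl⟩
    refine ⟨k + l, ?_⟩
    have h : (B.s j' / B.s j) ^ (k + l) * (x + y) =
        (B.s j' / B.s j) ^ l * ((B.s j' / B.s j) ^ k * x) +
          (B.s j' / B.s j) ^ k * ((B.s j' / B.s j) ^ l * y) := by
      rw [pow_add]; ring
    rw [h]
    exact (B.ring j).add_mem
      ((B.ring j).mul_mem ((B.ring j).pow_mem (mem_gen B j' j) l) hk)
      ((B.ring j).mul_mem ((B.ring j).pow_mem (mem_gen B j' j) k) hl)
  · rintro x y _ _ ⟨k, hk⟩ ⟨l, hl⟩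
    refine ⟨k + l, ?_⟩
    have h : (B.s j' / B.s j) ^ (k + l) * (x * y) =
        ((B.s j' / B.s j) ^ k * x) * ((B.s j' / B.s j) ^ l * y) := by
      rw [pow_add]; ring
    rw [h]
    exact (B.ring j).mul_mem hk hl

lemma ord_quot (B : ProjModel F) (v : DivVal e' K) {j j' : Fin (B.N + 1)} (h : OnChart B v j)
    (h' : OnChart B v j') : v.ord (algebraMap F K (B.s j' / B.s j)) = 0 := by
  have hne : B.s j' / B.s j ≠ 0 := div_ne_zero (B.ne j') (B.ne j)
  have hne' : B.s j / B.s j' ≠ 0 := div_ne_zero (B.ne j) (B.ne j')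
  have h1 : (0 : ℤ) ≤ v.ord (algebraMap F K (B.s j' / B.s j)) :=
    (h _ (mem_gen B j' j)).le (map_ne hne)
  have h2 : (0 : ℤ) ≤ v.ord (algebraMap F K (B.s j / B.s j')) :=
    (h' _ (mem_gen B j j')).le (map_ne hne')
  have h3 : algebraMap F K (B.s j / B.s j') = (algebraMap F K (B.s j' / B.s j))⁻¹ := by
    rw [← map_inv₀, inv_div]
  rw [h3, DivVal.ord_inv] at h2
  omega

lemma fr_of (B : ProjModel F) (v : DivVal e' K) {j j' : Fin (B.N + 1)} (h : OnChart B v j)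
    (h' : OnChart B v j') {a : F} (ha : Fr B v j' a) : Fr B v j a := by
  obtain ⟨p, hp, q, hq, hq0, hqo, hpq⟩ := ha
  obtain ⟨k, hk⟩ := exists_pow B j j' p hp
  obtain ⟨l, hl⟩ := exists_pow B j j' q hq
  set u : F := B.s j' / B.s j with hu
  have hu0 : u ≠ 0 := div_ne_zero (B.ne j') (B.ne j)
  have huj : u ∈ B.ring j := mem_gen B j' j
  refine ⟨u ^ (k + l) * p, ?_, u ^ (k + l) * q, ?_, mul_ne_zero (pow_ne_zero _ hu0) hq0, ?_, ?_⟩
  · have h1 : u ^ (k + l) * p = u ^ l * (u ^ k * p) := by rw [pow_add]; ring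
    rw [h1]
    exact (B.ring j).mul_mem ((B.ring j).pow_mem huj l) hk
  · have h1 : u ^ (k + l) * q = u ^ k * (u ^ l * q) := by rw [pow_add]; ring
    rw [h1]
    exact (B.ring j).mul_mem ((B.ring j).pow_mem huj k) hl
  · rw [map_mul, map_pow, v.ord_mul _ _ (pow_ne_zero _ (map_ne hu0)) (map_ne hq0),
      DivVal.ord_pow, ord_quot B v h h', hqo]
    simp
  · rw [← hpq]; ring

/-- Every `v` has a centre. -/
lemma exists_chart (B : ProjModel F) (v : DivVal e' K) : ∃ j, OnChart B v j := by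
  obtain ⟨j, -, hj⟩ := Finset.exists_min_image (Finset.univ : Finset (Fin (B.N + 1)))
    (fun i => v.ord (algebraMap F K (B.s i))) ⟨0, Finset.mem_univ 0⟩
  refine ⟨j, fun c hc => ?_⟩
  refine Algebra.adjoin_induction (p := fun a _ => v.Ge 0 (algebraMap F K a)) ?_ ?_ ?_ ?_ hc
  · rintro _ ⟨i, rfl⟩
    refine DivVal.Ge.of_le ?_
    change (0 : ℤ) ≤ v.ord (algebraMap F K (B.s i / B.s j))
    rw [map_div₀, DivVal.ord_div v (map_ne (B.ne i)) (map_ne (B.ne j))]
    have := hj i (Finset.mem_univ i)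
    omega
  · intro c
    rw [← IsScalarTower.algebraMap_apply ℂ F K]
    exact DivVal.Ge.const v c
  · intro x y _ _ hx hy
    rw [map_add]
    exact hx.add hy
  · intro x y _ _ hx hy
    rw [map_mul]
    simpa using hx.mul hy

/-- The local ring at the centre. -/
def A (B : ProjModel F) (v : DivVal e' K) (j : Fin (B.N + 1)) : Subalgebra ℂ F where
  carrier := {a | Fr B v j a}
  mul_mem' := by
    rintro a a' ⟨p, hp, q, hq, hq0, hqo, hpq⟩ ⟨p', hp', q', hq', hq0', hqo', hpq'⟩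
    refine ⟨p * p', (B.ring j).mul_mem hp hp', q * q', (B.ring j).mul_mem hq hq',
      mul_ne_zero hq0 hq0', ?_, ?_⟩
    · rw [map_mul, v.ord_mul _ _ (map_ne hq0) (map_ne hq0'), hqo, hqo', add_zero]
    · rw [← hpq, ← hpq']; ring
  add_mem' := by
    rintro a a' ⟨p, hp, q, hq, hq0, hqo, hpq⟩ ⟨p', hp', q', hq', hq0', hqo', hpq'⟩
    refine ⟨p * q' + p' * q, (B.ring j).add_mem ((B.ring j).mul_mem hp hq')
      ((B.ring j).mul_mem hp' hq), q * q', (B.ring j).mul_mem hq hq', mul_ne_zero hq0 hq0', ?_, ?_⟩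
    · rw [map_mul, v.ord_mul _ _ (map_ne hq0) (map_ne hq0'), hqo, hqo', add_zero]
    · rw [← hpq, ← hpq']; ring
  algebraMap_mem' := by
    intro c
    refine ⟨algebraMap ℂ F c, (B.ring j).algebraMap_mem c, 1, (B.ring j).one_mem, one_ne_zero, ?_,
      mul_one _⟩
    rw [map_one]
    exact DivVal.ord_one v

end RCEN

theorem t_RCEN : S_RCEN := by
  intro F K _ _ _ _ _ _ e' B v
  refine ⟨fun j hj a => ⟨?_, fun h => ⟨j, hj, h⟩⟩, ?_⟩
  · rintro ⟨j', hj', h⟩
    exact RCEN.fr_of B v hj hj' h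
  · obtain ⟨j, hj⟩ := RCEN.exists_chart B v
    refine ⟨RCEN.A B v j, fun a => ⟨fun h => ⟨j, hj, h⟩, ?_⟩, ?_, ?_⟩
    · rintro ⟨j', hj', h⟩
      exact RCEN.fr_of B v hj hj' h
    · rintro a ⟨p, hp, q, hq, hq0, hqo, hpq⟩
      by_cases ha : a = 0
      · rw [ha, map_zero]
        exact DivVal.Ge.zero v 0
      · refine DivVal.Ge.of_le ?_
        have hp0 : p ≠ 0 := by rw [← hpq]; exact mul_ne_zero ha hq0
        have h1 := (hj p hp).le (RCEN.map_ne hp0)
        rw [← hpq, map_mul, v.ord_mul _ _ (RCEN.map_ne ha) (RCEN.map_ne hq0), hqo, add_zero] at h1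
        exact h1
    · rintro a ⟨p, hp, q, hq, hq0, hqo, hpq⟩ ha ho
      have hp0 : p ≠ 0 := by rw [← hpq]; exact mul_ne_zero ha hq0
      refine ⟨q, hq, p, hp, hp0, ?_, ?_⟩
      · rw [← hpq, map_mul, v.ord_mul _ _ (RCEN.map_ne ha) (RCEN.map_ne hq0), hqo, ho, add_zero]
      · rw [← hpq, inv_mul_cancel_left₀ ha]

end

end RMM
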