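import Pool.Agent.RMM.StE3
import Pool.Agent.RMM.RCEN
import Pool.Agent.MMCI.Tools
import Pool.Agent.MldGeo.Ord

/-!
# Relative minimal models: module BET

The order of the local equations at the centre does not depend on the chart.
-/

set_option autoImplicit false

namespace RMM

open MldGeo MMCI

noncomputable section

namespace BET

variable {F K : Type} [Field F] [Field K] [Algebra ℂ F] [Algebra ℂ K]
  [Algebra F K] [IsScalarTower ℂ F K] {b e' : ℕ}

/-- The centre of `v` on the affine variety with the ring `R`. -/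
def cen (R : Subalgebra ℂ F) (v : DivVal e' K) (h : ∀ c ∈ R, v.Ge 0 (algebraMap F K c)) :
    Ideal R where
  carrier := {c | v.Ge 1 (algebraMap F K (c : F))}
  add_mem' := by
    intro x y hx hy
    show v.Ge 1 (algebraMap F K ((x : F) + (y : F)))
    rw [map_add]
    exact DivVal.Ge.add hx hy
  zero_mem' := by
    show v.Ge 1 (algebraMap F K ((0 : R) : F))
    rw [ZeroMemClass.coe_zero, map_zero]
    exact DivVal.Ge.zero v 1
  smul_mem' := by
    intro c x hx
    show v.Ge 1 (algebraMap F K ((c : F) * (x : F)))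
    rw [map_mul]
    exact DivVal.Ge.mul_left (h _ c.2) hx

lemma mem_cen (R : Subalgebra ℂ F) (v : DivVal e' K) (h : ∀ c ∈ R, v.Ge 0 (algebraMap F K c))
    (c : R) : c ∈ cen R v h ↔ v.Ge 1 (algebraMap F K (c : F)) := Iff.rfl

lemma cen_prime (R : Subalgebra ℂ F) (v : DivVal e' K)
    (h : ∀ c ∈ R, v.Ge 0 (algebraMap F K c)) : (cen R v h).IsPrime := by
  refine ⟨?_, ?_⟩
  · intro htop
    have h1 : (1 : R) ∈ cen R v h := by rw [htop]; exact Submodule.mem_top
    rw [mem_cen] at h1
    have h2 := h1.le (by simp)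
    simp only [OneMemClass.coe_one, map_one, DivVal.ord_one] at h2
    omega
  · intro x y hxy
    by_contra hcon
    push Not at hcon
    obtain ⟨hx, hy⟩ := hcon
    rw [mem_cen] at hx hy hxy
    have hx0 : algebraMap F K (x : F) ≠ 0 := fun h0 => hx (Or.inl h0)
    have hy0 : algebraMap F K (y : F) ≠ 0 := fun h0 => hy (Or.inl h0)
    have hx1 : ¬ 1 ≤ v.ord (algebraMap F K (x : F)) := fun h0 => hx (Or.inr h0)
    have hy1 : ¬ 1 ≤ v.ord (algebraMap F K (y : F)) := fun h0 => hy (Or.inr h0)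
    have e : algebraMap F K ((x * y : R) : F) =
        algebraMap F K (x : F) * algebraMap F K (y : F) := by
      rw [MulMemClass.coe_mul, map_mul]
    rw [e] at hxy
    have h2 := hxy.le (mul_ne_zero hx0 hy0)
    rw [v.ord_mul _ _ hx0 hy0] at h2
    have hx2 := (h _ x.2).le hx0
    have hy2 := (h _ y.2).le hy0
    omega

/-- The prime ideal is a prime ideal of height one if its local ring is the valuation ring. -/
lemma height_one (R : Subalgebra ℂ F) (v : DivVal b F) (P : Ideal R) (hP : P.IsPrime)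
    (hmem : ∀ a : R, a ∈ P ↔ (a : F) = 0 ∨ 0 < v.ord (a : F))
    (hne : ∃ a : R, a ∈ P ∧ a ≠ 0)
    (hreg : ∀ a : F, v.Ge 0 a → ∃ r s : R, s ∉ P ∧ a * (s : F) = r) : P.height = 1 := by
  have hbot : P ≠ ⊥ := by
    rintro rfl
    obtain ⟨a, ha, ha0⟩ := hne
    exact ha0 ((Ideal.mem_bot).1 ha)
  refine le_antisymm ?_ ?_
  · refine (Ideal.height_le_iff (n := 1)).2 ?_
    intro Q hQ hlt
    have hQb : Q = ⊥ := by
      by_contra hQ0
      obtain ⟨q, hq, hq0⟩ := Submodule.exists_mem_ne_zero_of_ne_bot hQ0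
      obtain ⟨p, hp, hpQ⟩ := Set.exists_of_ssubset hlt
      have hq0' : (q : F) ≠ 0 := fun h0 => hq0 (Subtype.ext h0)
      have hp0 : (p : F) ≠ 0 := by
        intro h0
        apply hpQ
        rw [show p = 0 from Subtype.ext h0]
        exact Q.zero_mem
      have hqo : 0 < v.ord (q : F) := ((hmem q).1 (hlt.le hq)).resolve_left hq0'
      have hpo : 0 < v.ord (p : F) := ((hmem p).1 hp).resolve_left hp0
      obtain ⟨k, hk⟩ := Int.eq_ofNat_of_zero_le hqo.le
      obtain ⟨l, hl⟩ := Int.eq_ofNat_of_zero_le hpo.le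
      have hl0 : l ≠ 0 := by rintro rfl; omega
      obtain ⟨r, s, hs, e⟩ := hreg ((p : F) ^ k / (q : F) ^ l) (Or.inr (by
        rw [DivVal.ord_div v (pow_ne_zero _ hp0) (pow_ne_zero _ hq0'), DivVal.ord_pow,
          DivVal.ord_pow, hk, hl]
        have : (k : ℤ) * (l : ℤ) - (l : ℤ) * (k : ℤ) = 0 := by ring
        exact this.ge))
      have e2 : p ^ k * s = q ^ l * r := by
        apply Subtype.ext
        push_cast
        rw [← e]
        have := pow_ne_zero l hq0'
        field_simp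
      have h3 : p ^ k * s ∈ Q := by
        rw [e2]
        exact Q.mul_mem_right _ (Ideal.pow_mem_of_mem Q hq l (Nat.pos_of_ne_zero hl0))
      rcases hQ.mem_or_mem h3 with h4 | h4
      · exact hpQ (hQ.mem_of_pow_mem _ h4)
      · exact hs (hlt.le h4)
    rw [hQb, Ideal.height_bot]
    exact_mod_cast Nat.zero_lt_one
  · have h4 := Ideal.height_add_one_le_of_lt_of_isPrime (bot_lt_iff_ne_bot.2 hbot)
    rwa [Ideal.height_bot, zero_add] at h4

/-- A prime divisor of the chart `j` through the centre of `v` is a prime divisor of the chart `j'`. -/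
lemma transfer (B : ProjModel F) (v : DivVal e' K) (j j' : Fin (B.N + 1))
    (htr : Algebra.trdeg ℂ F = (b : Cardinal))
    (hfg : (B.ring j).FG) (hfrac : ∀ a : F, ∃ p q : B.ring j, q ≠ 0 ∧ a * (q : F) = p)
    (hnor : ∀ a : F, IsIntegral (B.ring j) a → a ∈ B.ring j)
    (h : OnChart B v j) (h' : OnChart B v j') (w : DivVal b F) (P1 : Ideal (B.ring j))
    (hw : IsPrimeDivisor (B.ring j) w P1) (hle : P1 ≤ cen (B.ring j) v h) :
    ∃ P1' : Ideal (B.ring j'), IsPrimeDivisor (B.ring j') w P1' ∧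
      P1' ≤ cen (B.ring j') v h' := by
  set u : F := B.s j' / B.s j with hu
  have hu0 : u ≠ 0 := div_ne_zero (B.ne j') (B.ne j)
  have huj : u ∈ B.ring j := RCEN.mem_gen B j' j
  have huv : v.ord (algebraMap F K u) = 0 := RCEN.ord_quot B v h h'
  have huw : w.ord u = 0 := by
    by_contra hne
    have h0 : 0 ≤ w.ord u := hw.2.2.1 ⟨u, huj⟩
    have h1 : (⟨u, huj⟩ : B.ring j) ∈ P1 := (hw.2.2.2 _).2 (Or.inr (by
      show 0 < w.ord u
      omega))
    have h2 := (mem_cen _ _ _ _).1 (hle h1)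
    have h3 := h2.le (RCEN.map_ne hu0)
    change 1 ≤ v.ord (algebraMap F K u) at h3
    omega
  have hzero : 0 ≤ w.ord (0 : F) := hw.2.2.1 0
  have hge : ∀ c ∈ B.ring j', w.Ge 0 (algebraMap F F c) := by
    intro c hc
    rw [Algebra.algebraMap_self, RingHom.id_apply]
    by_cases hc0 : c = 0
    · exact Or.inl hc0
    obtain ⟨k, hk⟩ := RCEN.exists_pow B j j' c hc
    have h1 : 0 ≤ w.ord (u ^ k * c) := hw.2.2.1 ⟨_, hk⟩
    rw [w.ord_mul _ _ (pow_ne_zero _ hu0) hc0, DivVal.ord_pow, huw, mul_zero, zero_add] at h1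
    exact Or.inr h1
  have hmem : ∀ c : B.ring j', c ∈ cen (B.ring j') w hge ↔ (c : F) = 0 ∨ 0 < w.ord (c : F) := by
    intro c
    rw [mem_cen, Algebra.algebraMap_self, RingHom.id_apply]
    constructor
    · rintro (h0 | h0)
      · exact Or.inl h0
      · exact Or.inr (by omega)
    · rintro (h0 | h0)
      · exact Or.inl h0
      · exact Or.inr (by omega)
  -- the local ring
  obtain ⟨mx, hmx, hmxP⟩ := Ideal.exists_le_maximal P1 hw.1.ne_top
  let X : Germ b :=
    { K := F
      fieldK := inferInstance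
      algK := inferInstance
      R := B.ring j
      fg := hfg
      frac := fun a => by
        obtain ⟨p, q, hq, e⟩ := hfrac a
        exact ⟨p, p.2, q, q.2, fun h => hq (Subtype.ext h), e⟩
      normal := hnor
      trdeg := htr
      m := mx
      max := hmx }
  have hreg1 : ∀ a : F, w.Ge 0 a → ∃ r s : B.ring j, s ∉ P1 ∧ a * (s : F) = r :=
    cOLC X P1 w hw
  set u' : F := B.s j / B.s j' with hu'
  have hu0' : u' ≠ 0 := div_ne_zero (B.ne j) (B.ne j')
  have huu : u' = u⁻¹ := by rw [hu, hu', inv_div]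
  have huj' : u' ∈ B.ring j' := RCEN.mem_gen B j j'
  have huw' : w.ord u' = 0 := by rw [huu, DivVal.ord_inv, huw, neg_zero]
  refine ⟨cen (B.ring j') w hge, ⟨cen_prime _ _ _, ?_, ?_, fun c => (hmem c).trans
    (or_congr_left ⟨fun h0 => Subtype.ext h0, fun h0 => congrArg Subtype.val h0⟩)⟩, ?_⟩
  · refine height_one _ w _ (cen_prime _ _ _) hmem ?_ ?_
    · -- a nonzero element
      have hP1 : P1 ≠ ⊥ := by
        rintro rfl
        have := hw.2.1
        rw [Ideal.height_bot] at this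
        exact zero_ne_one this
      obtain ⟨c, hc, hc0⟩ := Submodule.exists_mem_ne_zero_of_ne_bot hP1
      have hc0' : (c : F) ≠ 0 := fun h0 => hc0 (Subtype.ext h0)
      have hco := ((hw.2.2.2 c).1 hc).resolve_left hc0
      obtain ⟨k, hk⟩ := RCEN.exists_pow B j' j c c.2
      refine ⟨⟨_, hk⟩, (hmem _).2 (Or.inr ?_), fun h0 =>
        mul_ne_zero (pow_ne_zero k hu0') hc0' (congrArg Subtype.val h0)⟩
      show 0 < w.ord (u' ^ k * (c : F))
      rw [w.ord_mul _ _ (pow_ne_zero _ hu0') hc0', DivVal.ord_pow, huw', mul_zero, zero_add]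
      exact hco
    · intro a ha
      obtain ⟨r, s, hs, e⟩ := hreg1 a ha
      obtain ⟨k, hk⟩ := RCEN.exists_pow B j' j r r.2
      obtain ⟨l, hl⟩ := RCEN.exists_pow B j' j s s.2
      have hs0 : (s : F) ≠ 0 := by
        intro h0
        exact hs ((hw.2.2.2 s).2 (Or.inl (Subtype.ext h0)))
      have hso : w.ord (s : F) = 0 := by
        by_contra hne
        exact hs ((hw.2.2.2 s).2 (Or.inr (lt_of_le_of_ne (hw.2.2.1 s) (Ne.symm hne))))
      have hr : u' ^ (k + l) * (r : F) ∈ B.ring j' := by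
        have h1 : u' ^ (k + l) * (r : F) = u' ^ l * (u' ^ k * (r : F)) := by rw [pow_add]; ring
        rw [h1]
        exact (B.ring j').mul_mem ((B.ring j').pow_mem huj' l) hk
      have hs' : u' ^ (k + l) * (s : F) ∈ B.ring j' := by
        have h1 : u' ^ (k + l) * (s : F) = u' ^ k * (u' ^ l * (s : F)) := by rw [pow_add]; ring
        rw [h1]
        exact (B.ring j').mul_mem ((B.ring j').pow_mem huj' k) hl
      refine ⟨⟨_, hr⟩, ⟨_, hs'⟩, ?_, ?_⟩
      · intro hcon
        rcases (hmem _).1 hcon with h0 | h0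
        · exact mul_ne_zero (pow_ne_zero (k + l) hu0') hs0 h0
        · change 0 < w.ord (u' ^ (k + l) * (s : F)) at h0
          rw [w.ord_mul _ _ (pow_ne_zero _ hu0') hs0, DivVal.ord_pow, huw', hso] at h0
          simp at h0
      · show a * (u' ^ (k + l) * (s : F)) = u' ^ (k + l) * (r : F)
        rw [← e]
        ring
  · intro c
    by_cases hc0 : (c : F) = 0
    · rw [hc0]
      exact hzero
    · have h1 := (hge c c.2).le (RCEN.map_ne hc0)
      rwa [Algebra.algebraMap_self, RingHom.id_apply] at h1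
  · intro c hc
    show v.Ge 1 (algebraMap F K (c : F))
    by_contra hcon
    have hc0 : (c : F) ≠ 0 := by
      intro h0
      apply hcon
      rw [h0, map_zero]
      exact DivVal.Ge.zero v 1
    have hco : 0 < w.ord (c : F) := ((hmem c).1 hc).resolve_left hc0
    have hcv : v.ord (algebraMap F K (c : F)) = 0 := by
      have h1 := (h' _ c.2).le (RCEN.map_ne hc0)
      have h2 : ¬ 1 ≤ v.ord (algebraMap F K (c : F)) := fun h0 => hcon (Or.inr h0)
      omega
    obtain ⟨k, hk⟩ := RCEN.exists_pow B j j' c c.2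
    have h1 : (⟨_, hk⟩ : B.ring j) ∈ P1 := (hw.2.2.2 _).2 (Or.inr (by
      show 0 < w.ord (u ^ k * (c : F))
      rw [w.ord_mul _ _ (pow_ne_zero _ hu0) hc0, DivVal.ord_pow, huw, mul_zero, zero_add]
      exact hco))
    have h2 := ((mem_cen _ _ _ _).1 (hle h1)).le
      (RCEN.map_ne (mul_ne_zero (pow_ne_zero k hu0) hc0))
    change 1 ≤ v.ord (algebraMap F K (u ^ k * (c : F))) at h2
    rw [map_mul, map_pow, v.ord_mul _ _ (pow_ne_zero _ (RCEN.map_ne hu0)) (RCEN.map_ne hc0),
      DivVal.ord_pow, huv, hcv] at h2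
    simp at h2

end BET

theorem t_BET : M_BET := by
  intro hFRC _ hLCP F K _ _ _ _ _ _ b e' B κ ω htr hnor v j j' m m' a a' hm hm' ht ht' ha ha' he he'
  obtain ⟨hfg, hfrac, -⟩ := hFRC B j
  have hPm : BET.cen (B.ring j) v ht.1 ≤ m := fun c hc => ht.2 c hc
  have hPm' : BET.cen (B.ring j') v ht'.1 ≤ m' := fun c hc => ht'.2 c hc
  have hord : ∀ (w : DivVal b F) (Q : Ideal (B.ring j)), IsPrimeDivisor (B.ring j) w Q →
      Q ≤ BET.cen (B.ring j) v ht.1 → w.ord a = w.ord a' := by
    intro w Q hw hQ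
    obtain ⟨Q', hw', hQ'⟩ := BET.transfer B v j j' htr hfg hfrac (hnor j) ht.1 ht'.1 w Q hw hQ
    rw [he w Q hw (hQ.trans hPm), he' w Q' hw' (hQ'.trans hPm')]
  have key : ∀ x y : F, x ≠ 0 → y ≠ 0 → (∀ (w : DivVal b F) (Q : Ideal (B.ring j)),
      IsPrimeDivisor (B.ring j) w Q → Q ≤ BET.cen (B.ring j) v ht.1 → w.ord x = w.ord y) →
      v.ord (algebraMap F K y) ≤ v.ord (algebraMap F K x) := by
    intro x y hx hy hxy
    obtain ⟨p, q, hq, e⟩ := hLCP (B.ring j) (BET.cen (B.ring j) v ht.1) (x / y) hfg hfrac htr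
      (hnor j) (BET.cen_prime _ _ _) (fun w Q hw hQ => Or.inr (by
        rw [DivVal.ord_div w hx hy, hxy w Q hw hQ, sub_self]))
    have hq0 : (q : F) ≠ 0 := by
      intro h0
      apply hq
      show v.Ge 1 (algebraMap F K (q : F))
      rw [h0, map_zero]
      exact DivVal.Ge.zero v 1
    have hqo : v.ord (algebraMap F K (q : F)) = 0 := by
      have h1 := (ht.1 _ q.2).le (RCEN.map_ne hq0)
      have h2 : ¬ 1 ≤ v.ord (algebraMap F K (q : F)) := fun h0 => hq (Or.inr h0)
      omega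
    have hp0 : (p : F) ≠ 0 := by
      rw [← e]
      exact mul_ne_zero (div_ne_zero hx hy) hq0
    have h1 := (ht.1 _ p.2).le (RCEN.map_ne hp0)
    rw [← e, map_mul, map_div₀,
      v.ord_mul _ _ (div_ne_zero (RCEN.map_ne hx) (RCEN.map_ne hy)) (RCEN.map_ne hq0),
      DivVal.ord_div v (RCEN.map_ne hx) (RCEN.map_ne hy), hqo] at h1
    omega
  exact le_antisymm (key a' a ha' ha fun w Q hw hQ => (hord w Q hw hQ).symm)
    (key a a' ha ha' hord)

end

end RMM
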