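import Pool.Agent.RMM.StE3
import Pool.Agent.MldGeo.Ord

/-!
# CHT: every valuation has a centre on `B`
-/

set_option autoImplicit false

namespace RMM

open MldGeo MMCI

namespace CHT

variable {n : ℕ} {K : Type} [Field K] [Algebra ℂ K] (v : DivVal n K)

theorem ge0_add {a b : K} (ha : v.Ge 0 a) (hb : v.Ge 0 b) : v.Ge 0 (a + b) := by
  by_cases ha0 : a = 0
  · rwa [ha0, zero_add]
  by_cases hb0 : b = 0
  · rwa [hb0, add_zero]
  by_cases hab : a + b = 0
  · exact Or.inl hab
  · right
    exact le_trans (le_min (ha.resolve_left ha0) (hb.resolve_left hb0)) (v.ord_add a b ha0 hb0 hab)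

theorem ge0_mul {a b : K} (ha : v.Ge 0 a) (hb : v.Ge 0 b) : v.Ge 0 (a * b) := by
  by_cases ha0 : a = 0
  · left
    rw [ha0, zero_mul]
  by_cases hb0 : b = 0
  · left
    rw [hb0, mul_zero]
  · right
    rw [v.ord_mul a b ha0 hb0]
    exact add_nonneg (ha.resolve_left ha0) (hb.resolve_left hb0)

end CHT

open CHT in
theorem t_CHT : S_CHT := by
  intro F K _ _ _ _ _ _ e' B v
  obtain ⟨j, hj⟩ := Finite.exists_min fun j => v.ord (algebraMap F K (B.s j))
  have hne : ∀ i, algebraMap F K (B.s i) ≠ 0 := fun i =>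
    (map_ne_zero_iff _ (algebraMap F K).injective).mpr (B.ne i)
  refine ⟨j, fun c hc => ?_⟩
  unfold ProjModel.ring at hc
  induction hc using Algebra.adjoin_induction with
  | mem x hx =>
    obtain ⟨i, rfl⟩ := hx
    right
    dsimp only
    rw [map_div₀, DivVal.ord_div v (hne i) (hne j)]
    exact sub_nonneg.mpr (hj i)
  | algebraMap r =>
    right
    rw [← IsScalarTower.algebraMap_apply ℂ F K]
    exact (v.ord_const r).ge
  | add x y _ _ hx hy =>
    rw [map_add]
    exact ge0_add v hx hy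
  | mul x y _ _ hx hy =>
    rw [map_mul]
    exact ge0_mul v hx hy

end RMM
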