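import Pool.Agent.RMM.StE3
import Pool.Agent.MMCI.Tools
import Pool.Agent.MldGeo.Ord
import Pool.Agent.MMCI.K_MIN

/-!
# CLP: a closed point in the closure of the centre
-/

set_option autoImplicit false

namespace RMM

open MldGeo MMCI MldGeo.DivVal

noncomputable section

namespace CLP

variable {F K : Type} [Field F] [Field K] [Algebra ℂ F] [Algebra ℂ K] [Algebra F K]
  [IsScalarTower ℂ F K] {e' n : ℕ}

theorem exists_chart (B : ProjModel F) (v : DivVal e' K) : ∃ j, OnChart B v j := by
  obtain ⟨j, -, hj⟩ := Finset.exists_min_image Finset.univ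
    (fun j : Fin (B.N + 1) => v.ord (algebraMap F K (B.s j))) ⟨0, Finset.mem_univ _⟩
  refine ⟨j, fun c hc => ?_⟩
  have h0 : ∀ i, algebraMap F K (B.s i) ≠ 0 := fun i => by
    rw [map_ne_zero]
    exact B.ne i
  induction hc using Algebra.adjoin_induction with
  | mem c hc =>
    obtain ⟨i, rfl⟩ := hc
    refine Ge.of_le ?_
    rw [map_div₀, ord_div v (h0 i) (h0 j)]
    have := hj i (Finset.mem_univ _)
    omega
  | algebraMap r =>
    rw [← IsScalarTower.algebraMap_apply]
    exact Ge.const v r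
  | add a b _ _ ha hb =>
    rw [map_add]
    exact ha.add hb
  | mul a b _ _ ha hb =>
    rw [map_mul]
    exact ha.mul_left hb

variable {B : ProjModel F} {v : DivVal e' K} {j : Fin (B.N + 1)}

/-- the chart maps to the valuation ring -/
def cR (hj : OnChart B v j) : B.ring j →+* v.OV :=
  ((algebraMap F K).comp (B.ring j).val.toRingHom).codRestrict v.OV.toSubring
    fun c => hj c c.2

omit [IsScalarTower ℂ F K] in
theorem cR_val (hj : OnChart B v j) (c : B.ring j) :
    ((cR hj c : v.OV) : K) = algebraMap F K (c : F) := rfl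

/-- the monomials in the units -/
def mU (ub : Fin n → (v.OV)ˣ) : Multiplicative (Fin n → ℤ) →* v.OV :=
  (Units.coeHom v.OV).comp
    { toFun := fun a => ∏ l, ub l ^ (a.toAdd l)
      map_one' := by simp
      map_mul' := fun a b => by
        simp only [toAdd_mul, Pi.add_apply, zpow_add, Finset.prod_mul_distrib] }

theorem mU_apply (ub : Fin n → (v.OV)ˣ) (a : Fin n → ℤ) :
    mU ub (Multiplicative.ofAdd a) = ((∏ l, ub l ^ a l : (v.OV)ˣ) : v.OV) := rfl

/-- the homomorphism to the valuation ring -/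
def phi (hj : OnChart B v j) (ub : Fin n → (v.OV)ˣ) : LR (B.ring j) n →+* v.OV :=
  AddMonoidAlgebra.liftNCRingHom (cR hj) (mU ub) fun _ _ => Commute.all _ _

omit [IsScalarTower ℂ F K] in
theorem nval_add (x : Fin n → K) (t0 : K) (G H : LR (B.ring j) n) :
    nval x v t0 (G + H) = nval x v t0 G + nval x v t0 H := by
  unfold nval
  rw [AddMonoidAlgebra.coeff_add]
  refine Finsupp.sum_add_index' (fun a => ?_) fun a b c => ?_
  · rw [ZeroMemClass.coe_zero, map_zero, zero_mul]
  · rw [AddMemClass.coe_add, map_add, add_mul]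

omit [IsScalarTower ℂ F K] in
theorem nval_single (x : Fin n → K) (t0 : K) (a : Fin n → ℤ) (c : B.ring j) :
    nval x v t0 (AddMonoidAlgebra.single a c : LR (B.ring j) n) =
      algebraMap F K (c : F) * (mon x a * t0 ^ (-(pair (wt x v) a))) := by
  unfold nval
  rw [AddMonoidAlgebra.coeff_single, Finsupp.sum_single_index]
  rw [ZeroMemClass.coe_zero, map_zero, zero_mul]

theorem phi_val (hj : OnChart B v j) {x : Fin n → K} {t0 : K} (ht : t0 ≠ 0)
    (ub : Fin n → (v.OV)ˣ) (hub : ∀ l, ((ub l : v.OV) : K) = x l * t0 ^ (-(wt x v l)))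
    (G : LR (B.ring j) n) : ((phi hj ub G : v.OV) : K) = nval x v t0 G := by
  induction G using AddMonoidAlgebra.induction_linear with
  | zero =>
    rw [map_zero]
    unfold nval
    rw [AddMonoidAlgebra.coeff_zero, Finsupp.sum_zero_index]
    rfl
  | add G H hG hH =>
    rw [map_add, nval_add, ← hG, ← hH]
    rfl
  | single a c =>
    rw [nval_single]
    unfold phi
    rw [AddMonoidAlgebra.liftNCRingHom_single, mU_apply]
    change ((cR hj c : v.OV) : K) * ((∏ l, ub l ^ a l : (v.OV)ˣ) : v.OV) = _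
    rw [cR_val, MIN.U_val ht ub hub]

/-- the ring of a chart is finitely generated -/
theorem ring_fg (B : ProjModel F) (j : Fin (B.N + 1)) : (B.ring j).FG :=
  Subalgebra.fg_def.2 ⟨_, Set.finite_range _, rfl⟩

theorem comap_max (B : ProjModel F) (j : Fin (B.N + 1)) (M : Ideal (LR (B.ring j) n))
    (hM : M.IsMaximal) : (M.comap (algebraMap (B.ring j) (LR (B.ring j) n))).IsMaximal := by
  have h1 : Algebra.FiniteType ℂ (B.ring j) :=
    (B.ring j).fg_iff_finiteType.mp (ring_fg B j)
  have h2 : AddMonoid.FG (Fin n → ℤ) := by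
    rw [← AddGroup.fg_iff_addMonoid_fg, ← Module.Finite.iff_addGroup_fg]
    infer_instance
  have h3 : Algebra.FiniteType (B.ring j) (LR (B.ring j) n) := inferInstance
  have h4 : Algebra.FiniteType ℂ (LR (B.ring j) n) := Algebra.FiniteType.trans h1 h3
  have h5 : Algebra.FiniteType ℂ (LR (B.ring j) n ⧸ M) :=
    Algebra.FiniteType.of_surjective (Ideal.Quotient.mkₐ ℂ M) (Ideal.Quotient.mkₐ_surjective ℂ M)
  let _ := Ideal.Quotient.field M
  have h6 : Module.Finite ℂ (LR (B.ring j) n ⧸ M) :=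
    finite_of_finite_type_of_isJacobsonRing ℂ (LR (B.ring j) n ⧸ M)
  have hbij := IsAlgClosed.algebraMap_bijective_of_isIntegral (k := ℂ)
    (K := LR (B.ring j) n ⧸ M)
  have h7 : M.comap (algebraMap (B.ring j) (LR (B.ring j) n)) =
      RingHom.ker ((Ideal.Quotient.mk M).comp (algebraMap (B.ring j) (LR (B.ring j) n))) := by
    ext c
    rw [Ideal.mem_comap, RingHom.mem_ker, RingHom.comp_apply, Ideal.Quotient.eq_zero_iff_mem]
  rw [h7]
  apply RingHom.ker_isMaximal_of_surjective
  intro y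
  obtain ⟨c, hc⟩ := hbij.2 y
  refine ⟨algebraMap ℂ (B.ring j) c, ?_⟩
  rw [← hc, RingHom.comp_apply, ← IsScalarTower.algebraMap_apply]
  rfl

end CLP

open CLP in
theorem t_CLP : S_CLP := by
  intro F K _ _ _ _ _ _ e' n B x hx v t0 ht0 h1
  obtain ⟨j, hj⟩ := exists_chart B v
  obtain ⟨ub, hub⟩ := MIN.exists_units (v := v) hx ht0 h1
  set ρ : LR (B.ring j) n →+* IsLocalRing.ResidueField v.OV :=
    (IsLocalRing.residue v.OV).comp (phi hj ub) with hρ
  have hne : RingHom.ker ρ ≠ ⊤ := RingHom.ker_ne_top ρ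
  obtain ⟨M, hM, hle⟩ := Ideal.exists_le_maximal _ hne
  have hG : ∀ G : LR (B.ring j) n, v.Ge 1 (nval x v t0 G) → G ∈ M := by
    intro G hG
    apply hle
    rw [RingHom.mem_ker, hρ, RingHom.comp_apply, IsLocalRing.residue_eq_zero_iff,
      mem_maximalIdeal_iff, phi_val hj ht0 ub hub]
    exact hG
  refine ⟨j, M, hM, comap_max B j M hM, ⟨hj, fun c hc => ?_⟩, hG⟩
  rw [Ideal.mem_comap]
  apply hG
  have h2 : algebraMap (B.ring j) (LR (B.ring j) n) c = AddMonoidAlgebra.single 0 c := rfl
  rw [h2, nval_single]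
  have h3 : mon x (0 : Fin n → ℤ) = 1 := by
    unfold mon
    simp
  have h4 : pair (wt x v) (0 : Fin n → ℤ) = 0 := by
    unfold pair
    simp
  rw [h3, h4, neg_zero, zpow_zero, mul_one, mul_one]
  exact hc

end

end RMM
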