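import Pool.Agent.RMM.StE4
import Pool.Agent.MldGeo.Ord

/-!
# CLP2: closed points, homogeneous elements
-/

set_option autoImplicit false

namespace RMM

open MldGeo MldGeo.DivVal MMCI

noncomputable section

theorem t_CLP2 : M_CLP2 := by
  intro hCLP F K _ _ _ _ _ _ e' n B x hx v
  obtain ⟨t0, ht0, h1⟩ := v.unif
  obtain ⟨j, M, hM, hc, hT, h⟩ := hCLP B x hx v t0 ht0 h1
  refine ⟨t0, j, M, ht0, h1, hM, hc, hT, h, ?_⟩
  intro g c hg hge
  apply h
  have h2 : nval x v t0 g =
      t0 ^ (-c) * g.coeff.sum fun a p => algebraMap F K (p : F) * mon x a := by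
    unfold nval
    rw [Finsupp.mul_sum]
    refine Finsupp.sum_congr fun a ha => ?_
    rw [hg a ha]
    ring
  rw [h2]
  have h3 : v.Ge (-c) (t0 ^ (-c)) := Ge.of_le (by rw [ord_zpow, h1, mul_one])
  have h4 := h3.mul hge
  rwa [neg_add_cancel_left] at h4

end

end RMM
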