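import Pool.Agent.RMM.StE3
import Pool.Agent.MldGeo.Ord

/-!
# RMM, CMN: the orders of the coefficients
-/

set_option autoImplicit false

namespace RMM

open MldGeo MMCI

noncomputable section

theorem t_CMN : S_CMN := by
  intro F K _ _ _ _ _ _ n B f j m u g hf hu hfg hg
  obtain ⟨a0, ha0⟩ := hg
  have hg0 : (g.coeff a0 : F) ≠ 0 := by
    intro h
    apply ha0
    have h1 : g.coeff a0 = 0 := Subtype.ext h
    rw [h1]
    exact m.zero_mem
  have hf0 : f.coeff a0 ≠ 0 := by
    rw [hfg]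
    exact mul_ne_zero hu hg0
  have hmem : f.coeff a0 ∈ coefs f := ⟨a0, Finsupp.mem_support_iff.2 hf0, rfl⟩
  refine ⟨⟨f.coeff a0, hmem, hf0, ?_⟩, ?_⟩
  · rintro _ ⟨a, -, rfl⟩
    refine ⟨g.coeff a, g.coeff a0, ha0, ?_⟩
    rw [hfg, hfg]
    field_simp
  · intro e' v hv
    have key : ∀ a, f.coeff a ≠ 0 → v.ord (algebraMap F K (f.coeff a)) =
        v.ord (algebraMap F K u) + v.ord (algebraMap F K (g.coeff a : F)) ∧
        0 ≤ v.ord (algebraMap F K (g.coeff a : F)) := by
      intro a ha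
      have hga : (g.coeff a : F) ≠ 0 := by
        intro h
        apply ha
        rw [hfg, h, mul_zero]
      have hga' : algebraMap F K (g.coeff a : F) ≠ 0 := (map_ne_zero _).2 hga
      refine ⟨?_, ?_⟩
      · rw [hfg, map_mul, v.ord_mul _ _ ((map_ne_zero _).2 hu) hga']
      · exact (DivVal.ge_iff hga').1 (hv.1 _ (g.coeff a).2)
    have hz : v.ord (algebraMap F K (g.coeff a0 : F)) = 0 := by
      have h1 := (key a0 hf0).2
      have h2 : ¬ v.Ge 1 (algebraMap F K (g.coeff a0 : F)) := fun h => ha0 (hv.2 _ h)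
      rw [DivVal.ge_iff ((map_ne_zero _).2 hg0)] at h2
      omega
    unfold cmin
    apply IsLeast.csInf_eq
    constructor
    · refine ⟨f.coeff a0, hmem, ?_⟩
      change v.ord (algebraMap F K (f.coeff a0)) = _
      rw [(key a0 hf0).1, hz, add_zero]
    · rintro _ ⟨_, ⟨a, ha, rfl⟩, rfl⟩
      have h3 := key a (Finsupp.mem_support_iff.1 ha)
      change v.ord (algebraMap F K u) ≤ v.ord (algebraMap F K (f.coeff a))
      rw [h3.1]
      omega

end

end RMM
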