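import Pool.Agent.RMM.StE3
import Pool.Agent.MMCI.FRC

/-!
# FRCB: the charts of the base are finitely generated, with residue fields `ℂ`
-/

set_option autoImplicit false

namespace RMM

open MldGeo MMCI

namespace FRCB

theorem residue {A : Type} [CommRing A] [Algebra ℂ A] (hA : Algebra.FiniteType ℂ A)
    (m : Ideal A) (hm : m.IsMaximal) (a : A) : ∃ c : ℂ, a - algebraMap ℂ A c ∈ m := by
  letI : Field (A ⧸ m) := Ideal.Quotient.field m
  haveI : Module.Finite ℂ (A ⧸ m) := finite_of_finite_type_of_isJacobsonRing ℂ (A ⧸ m)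
  haveI : Algebra.IsIntegral ℂ (A ⧸ m) := Algebra.IsIntegral.of_finite ℂ (A ⧸ m)
  obtain ⟨c, hc⟩ := (IsAlgClosed.algebraMap_bijective_of_isIntegral (k := ℂ) (K := A ⧸ m)).2
    (Ideal.Quotient.mk m a)
  refine ⟨c, ?_⟩
  rw [← Ideal.Quotient.eq, ← hc]
  rfl

end FRCB

theorem t_FRCB : S_FRCB := by
  intro F _ _ B j
  obtain ⟨h1, h2⟩ := t_FRC (K := F) B j
  refine ⟨h1, ?_, ?_⟩
  · intro a
    obtain ⟨r, hr, q, hq, hq0, h⟩ := h2 a
    exact ⟨⟨r, hr⟩, ⟨q, hq⟩, fun hc => hq0 (congrArg Subtype.val hc), h⟩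
  · intro m hm a
    exact FRCB.residue ((B.ring j).fg_iff_finiteType.1 h1) m hm a

end RMM
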