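import Pool.Agent.RMM.StE3
import Pool.Agent.MMCI.Tools
import Pool.Agent.MldGeo.Ord
import Pool.Agent.MldGeo.PUL
import Pool.Agent.MMCI.K_BAS

/-!
# Relative minimal models, module HEQ: the forms `dlogs y0` and `dlogs y` are proportional
-/

set_option autoImplicit false

namespace RMM

open MldGeo MMCI

noncomputable section

theorem t_HEQ : S_HEQ := by
  intro F _ _ b R m C htr hm
  -- the coordinates are units at `m`
  have htm : ∀ l, C.t l ∈ m := by
    intro l
    exact (le_sup_left.trans C.tm.ge) (Ideal.subset_span ⟨l, rfl⟩)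
  have hy : ∀ l, C.y l ≠ 0 := by
    intro l h
    apply hm.ne_top
    rw [Ideal.eq_top_iff_one]
    have h1 : (C.t l : F) = ((-1 : R) : F) := by
      have h2 : (1 : F) + (C.t l : F) = 0 := h
      rw [Subalgebra.coe_neg, Subalgebra.coe_one]
      exact (neg_eq_of_add_eq_zero_right h2).symm
    have h3 : C.t l = -1 := Subtype.ext h1
    have h4 := m.neg_mem (htm l)
    rwa [h3, neg_neg] at h4
  have hD : ∀ l, KaehlerDifferential.D ℂ F (C.y l) = KaehlerDifferential.D ℂ F (C.t l : F) := by
    intro l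
    rw [Coord.y, map_add, Derivation.map_one_eq_zero, zero_add]
  obtain ⟨hfin, hrank⟩ := BAS.finrank_eq (K := F) htr
  have hspan : (⊤ : Submodule F (Ω[F⁄ℂ])) ≤
      Submodule.span F (Set.range fun l => KaehlerDifferential.D ℂ F (C.y l)) := by
    rw [← KaehlerDifferential.span_range_derivation, Submodule.span_le]
    rintro _ ⟨a, rfl⟩
    rw [SetLike.mem_coe, C.dual a]
    refine Submodule.sum_mem _ fun l _ => Submodule.smul_mem _ _ ?_
    rw [← hD l]
    exact Submodule.subset_span ⟨l, rfl⟩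
  have hli : LinearIndependent F fun l => KaehlerDifferential.D ℂ F (C.y l) := by
    refine linearIndependent_of_top_le_span_of_card_eq_finrank hspan ?_
    rw [Fintype.card_fin, hrank]
  let B : Module.Basis (Fin b) F (Ω[F⁄ℂ]) := Module.Basis.mk hli hspan
  have hB : (B : Fin b → Ω[F⁄ℂ]) = fun l => KaehlerDifferential.D ℂ F (C.y l) :=
    Module.Basis.coe_mk hli hspan
  have hp : ∏ i, (C.y i)⁻¹ ≠ 0 :=
    Finset.prod_ne_zero_iff.2 fun i _ => inv_ne_zero (hy i)
  have hd : dforms C.y ≠ 0 := by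
    have h := FRM.iota_ne B
    rw [hB] at h
    exact h
  refine ⟨hy, ?_, ?_⟩
  · rw [PUL.dlogs_eq]
    exact smul_ne_zero hp hd
  · intro y0 hy0
    obtain ⟨g, hg⟩ := FRM.exists_smul B (dlogs y0)
    have hg' : dlogs y0 = g • dforms C.y := by
      rw [hB] at hg
      exact hg
    refine ⟨g * (∏ i, (C.y i)⁻¹)⁻¹, mul_ne_zero ?_ (inv_ne_zero hp), ?_⟩
    · rintro rfl
      exact hy0 (by rw [hg', zero_smul])
    · rw [PUL.dlogs_eq C.y, smul_smul, inv_mul_cancel_right₀ hp, hg']

end

end RMM
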