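import Pool.Agent.RMM.StE3
import Pool.Agent.MMCI.Tools
import Pool.Agent.MldGeo.Ord

/-!
# Module LOCD: the derivations preserve the local rings
-/

set_option autoImplicit false

namespace RMM

open MldGeo MldGeo.DivVal MMCI

noncomputable section

namespace LOCD

/-- elements outside `m` have order zero -/
theorem unit_of {F K : Type} [Field F] [Field K] [Algebra ℂ F] [Algebra ℂ K]
    [Algebra F K] {e' : ℕ} (R : Subalgebra ℂ F) (m : Ideal R)
    (v : DivVal e' K) (h0 : ∀ a ∈ R, v.Ge 0 (algebraMap F K a))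
    (h1 : ∀ a : R, v.Ge 1 (algebraMap F K a) → a ∈ m) (a : R) (ha : a ∉ m) :
    v.ord (algebraMap F K (a : F)) = 0 ∧ (a : F) ≠ 0 := by
  have hne : (a : F) ≠ 0 := by
    intro h
    apply ha
    apply h1
    rw [h, map_zero]
    exact Ge.zero v 1
  have hne' : algebraMap F K (a : F) ≠ 0 := by
    rw [Ne, map_eq_zero]
    exact hne
  refine ⟨?_, hne⟩
  have h2 := (h0 a a.2).le hne'
  by_contra h3
  exact ha (h1 a (Ge.of_le (by omega)))

end LOCD

theorem t_LOCD : S_LOCD := by
  intro F K _ _ _ _ _ _ b e' R m C v h0 h1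
  have hu := LOCD.unit_of R m v h0 h1
  have h1m : (1 : R) ∉ m := by
    intro h
    exact C.sm (by simpa using m.mul_mem_left C.s h)
  constructor
  · intro l
    have ht : C.t l ∈ m := by
      have h2 : C.t l ∈ Ideal.span (Set.range C.t) ⊔ m ^ 2 :=
        Ideal.mem_sup_left (Ideal.subset_span ⟨l, rfl⟩)
      exact C.tm.ge h2
    have hy : (1 : R) + C.t l ∉ m := by
      intro h
      apply h1m
      have h2 := m.sub_mem h ht
      rwa [add_sub_cancel_right] at h2
    exact hu (1 + C.t l) hy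
  · rintro a ⟨p, hp, q, hq, hq0, hqv, haq⟩ l
    obtain ⟨hs, hs0⟩ := hu C.s C.sm
    have hK : ∀ x : F, x ≠ 0 → algebraMap F K x ≠ 0 := fun x hx => by
      rw [Ne, map_eq_zero]
      exact hx
    refine ⟨q * ((C.s : F) * C.d l p) - p * ((C.s : F) * C.d l q), ?_, (C.s : F) * (q * q), ?_,
      ?_, ?_, ?_⟩
    · exact R.sub_mem (R.mul_mem hq (C.sd l ⟨p, hp⟩)) (R.mul_mem hp (C.sd l ⟨q, hq⟩))
    · exact R.mul_mem C.s.2 (R.mul_mem hq hq)
    · exact mul_ne_zero hs0 (mul_ne_zero hq0 hq0)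
    · rw [map_mul, map_mul, v.ord_mul _ _ (hK _ hs0) (mul_ne_zero (hK _ hq0) (hK _ hq0)),
        v.ord_mul _ _ (hK _ hq0) (hK _ hq0), hs, hqv]
      rfl
    · have h3 : C.d l p = a * C.d l q + q * C.d l a := by
        rw [← haq, Derivation.leibniz]
        rfl
      rw [h3, ← haq]
      ring

end

end RMM
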