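import Pool.Agent.RMM.StE4
import Pool.Agent.MldGeo.Ord

/-!
# LOCV: the local data at one valuation
-/

set_option autoImplicit false

namespace RMM

open MldGeo MMCI

theorem t_LOCV : M_LOCV := by
  intro hFRCB hNAK hRCEN hLOCD hHEQ hBEQ hCMN hMNV F K _ _ _ _ _ _ b e n r B κ y0 β f x hB hdim hf
    hx hz v t0 ht0 ht1 j M hM hm hT hnv g hg hsm hnd
  classical
  obtain ⟨hFG, hfrac, hres⟩ := hFRCB B j
  obtain ⟨t, ht⟩ := hsm
  obtain ⟨C, -⟩ := hNAK (B.ring j) _ t hFG hfrac hB.dimF hm (hres _ hm) ht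
  obtain ⟨hR1, A, hA, hA0, hAinv⟩ := hRCEN B v
  obtain ⟨hyo, hyd⟩ := hLOCD (B.ring j) _ C v hT.1 hT.2
  obtain ⟨hyne, hyd0, hex⟩ := hHEQ (B.ring j) _ C hB.dimF hm
  obtain ⟨h, hh0, hhe⟩ := hex y0 hB.y0_ind
  obtain ⟨s, hs, heq⟩ := hBEQ B j _ C y0 h hB.dimF (hB.normal j) hm hB.y0_ind hh0 hhe
  have heq1 := heq _ hm hs
  have heqk : IsEquation (B.ring j) (dlogs y0) κ
      (M.comap (algebraMap (B.ring j) (LR (B.ring j) n))) (h ^ κ) := by
    intro w P hP hPm
    rw [DivVal.ord_pow, heq1 w P hP hPm]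
    push_cast
    ring
  have hord := hB.beta v j _ hm hT (h ^ κ) (pow_ne_zero _ hh0) heqk
  have hg1 := fun i => (hg i).1
  choose u hu0 hu1 using hg1
  have hcm := fun i => (hCMN (K := K) B (f i) j _ (u i) (g i) (hf i) (hu0 i) (hu1 i) (hg i).2).2
    v hT
  obtain ⟨σ, hσ, hσo⟩ := hMNV B f x hdim hf hx hz v t0 ht0 ht1 j M hM hT hnv C u g hu0 hu1 hnd
  have hRA : ∀ a ∈ B.ring j, a ∈ A := fun a ha => by
    rw [hA]
    exact ⟨j, hT.1, a, ha, 1, one_mem _, one_ne_zero, by rw [map_one, DivVal.ord_one], mul_one a⟩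
  refine ⟨{ A := A
            memA := hA
            y := C.y
            y_mem := fun l => hRA _ (add_mem (one_mem _) (C.t l).2)
            y_ne := hyne
            y_ord := fun l => (hyo l).1
            d := C.d
            dA := ?_
            dual := ?_
            h := h
            h_ne := hh0
            h_eq := hhe
            h_ord := ?_
            u := u
            u_ne := hu0
            u_coef := ?_
            u_ord := fun i => (hcm i).symm
            σ := σ
            det_ne := hσ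
            det_ord := hσo }⟩
  · intro l a ha
    rw [hA, hR1 j hT.1] at ha ⊢
    exact hyd a ha l
  · intro a
    rw [C.dual a]
    refine Finset.sum_congr rfl fun l _ => ?_
    have : KaehlerDifferential.D ℂ F (C.y l) = KaehlerDifferential.D ℂ F (C.t l : F) := by
      unfold Coord.y
      rw [map_add, Derivation.map_one_eq_zero, zero_add]
    rw [this]
  · rw [← hord, map_pow, DivVal.ord_pow]
  · intro i a
    rw [hu1 i a, inv_mul_cancel_left₀ (hu0 i)]
    exact hRA _ ((g i).coeff a).2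

end RMM
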