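import Pool.Agent.RMM.StE3
import Pool.Agent.MMCI.Tools
import Pool.Agent.MldGeo.Ord
import Pool.Agent.MMCI.K_MIN

/-!
# MNV: a minor of least order
-/

set_option autoImplicit false

namespace RMM

open MldGeo MMCI MldGeo.DivVal

noncomputable section

namespace MNV

theorem rmin_le {R : Type} [CommRing R] {n : ℕ} (f : LR R n) (ν m : Fin n → ℤ)
    (h : m ∈ f.coeff.support) : rmin f ν ≤ pair ν m := by
  unfold rmin
  refine csInf_le ?_ ⟨m, h, rfl⟩
  exact (f.coeff.support.finite_toSet.image _).bddBelow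

section

variable {e' n : ℕ} {K : Type} [Field K] [Algebra ℂ K] {v : DivVal e' K}

/-- the residues of linear combinations of the normalised monomials -/
theorem res_sum {x : Fin n → K} {t : K} (ht : t ≠ 0) (h1 : v.ord t = 1)
    (ub : Fin n → (v.OV)ˣ) (hub : ∀ j, ((ub j : v.OV) : K) = x j * t ^ (-(wt x v j)))
    (S : Finset (Fin n → ℤ)) (μ : ℤ) (hμ : ∀ a ∈ S, μ ≤ pair (wt x v) a)
    (c : (Fin n → ℤ) → v.OV) :
    ∃ y : v.OV, (y : K) = (∑ a ∈ S, (c a : K) * mon x a) * t ^ (-μ) ∧
      IsLocalRing.residue v.OV y =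
        ∑ a ∈ S.filter (fun a => pair (wt x v) a = μ),
          IsLocalRing.residue v.OV (c a) *
            mon (fun j => IsLocalRing.residue v.OV (ub j : v.OV)) a := by
  obtain ⟨tb, htb⟩ : ∃ tb : v.OV, (tb : K) = t := ⟨⟨t, Or.inr (by omega)⟩, rfl⟩
  have htr : IsLocalRing.residue v.OV tb = 0 := by
    rw [IsLocalRing.residue_eq_zero_iff, mem_maximalIdeal_iff, htb]
    exact Or.inr h1.ge
  refine ⟨∑ m ∈ S, c m * ((∏ j, ub j ^ m j : (v.OV)ˣ) : v.OV) *
    tb ^ (pair (wt x v) m - μ).toNat, ?_, ?_⟩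
  · have h2 : ((∑ m ∈ S, c m * ((∏ j, ub j ^ m j : (v.OV)ˣ) : v.OV) *
        tb ^ (pair (wt x v) m - μ).toNat : v.OV) : K) =
        ∑ m ∈ S, (c m : K) * (mon x m * t ^ (-(pair (wt x v) m))) *
        t ^ (pair (wt x v) m - μ).toNat := by
      have h3 := map_sum v.OV.subtype (fun m => c m *
        ((∏ j, ub j ^ m j : (v.OV)ˣ) : v.OV) *
        tb ^ (pair (wt x v) m - μ).toNat) S
      refine h3.trans (Finset.sum_congr rfl fun m _ => ?_)
      rw [map_mul, map_mul, map_pow]
      have h4 : v.OV.subtype tb = t := htb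
      have h5 : v.OV.subtype ((∏ j, ub j ^ m j : (v.OV)ˣ) : v.OV) =
        mon x m * t ^ (-(pair (wt x v) m)) := MIN.U_val ht ub hub m
      rw [h4, h5]
      rfl
    rw [h2, Finset.sum_mul]
    refine Finset.sum_congr rfl fun m hm => ?_
    have h6 := hμ m hm
    have h7 : t ^ (pair (wt x v) m - μ).toNat =
        t ^ (pair (wt x v) m - μ) := by
      rw [← zpow_natCast, Int.toNat_of_nonneg (by omega)]
    rw [h7, mul_assoc, mul_assoc, ← zpow_add₀ ht, mul_assoc]
    congr 3
    ring
  · rw [map_sum, Finset.sum_filter]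
    refine Finset.sum_congr rfl fun m hm => ?_
    have h6 := hμ m hm
    rw [map_mul, map_mul, map_pow, htr, MIN.U_res]
    split_ifs with h
    · rw [h, sub_self, Int.toNat_zero, pow_zero, mul_one]
    · have h7 : (pair (wt x v) m - μ).toNat ≠ 0 := by omega
      rw [zero_pow h7, mul_zero]

/-- the values of linear combinations of the normalised monomials -/
theorem res_nval {x : Fin n → K} {t : K} (ht : t ≠ 0)
    (ub : Fin n → (v.OV)ˣ) (hub : ∀ j, ((ub j : v.OV) : K) = x j * t ^ (-(wt x v j)))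
    (S : Finset (Fin n → ℤ)) (c : (Fin n → ℤ) → v.OV) :
    ∃ y : v.OV, (y : K) = ∑ a ∈ S, (c a : K) * (mon x a * t ^ (-(pair (wt x v) a))) ∧
      IsLocalRing.residue v.OV y =
        ∑ a ∈ S, IsLocalRing.residue v.OV (c a) *
            mon (fun j => IsLocalRing.residue v.OV (ub j : v.OV)) a := by
  refine ⟨∑ m ∈ S, c m * ((∏ j, ub j ^ m j : (v.OV)ˣ) : v.OV), ?_, ?_⟩
  · have h3 := map_sum v.OV.subtype (fun m => c m * ((∏ j, ub j ^ m j : (v.OV)ˣ) : v.OV)) S
    refine h3.trans (Finset.sum_congr rfl fun m _ => ?_)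
    rw [map_mul]
    have h5 : v.OV.subtype ((∏ j, ub j ^ m j : (v.OV)ˣ) : v.OV) =
      mon x m * t ^ (-(pair (wt x v) m)) := MIN.U_val ht ub hub m
    rw [h5]
    rfl
  · rw [map_sum]
    refine Finset.sum_congr rfl fun m hm => ?_
    rw [map_mul, MIN.U_res]

end

section

variable {F K : Type} [Field F] [Field K] [Algebra ℂ F] [Algebra ℂ K]
  [Algebra F K] [IsScalarTower ℂ F K] {e' : ℕ}

/-- the map of the local ring to the valuation ring -/
def toOV (v : DivVal e' K) (A : Subalgebra ℂ F) (hA : ∀ a ∈ A, v.Ge 0 (algebraMap F K a)) :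
    A →+* v.OV :=
  ((algebraMap F K).comp A.val.toRingHom).codRestrict v.OV.toSubring fun a => hA a a.2

theorem toOV_val (v : DivVal e' K) (A : Subalgebra ℂ F)
    (hA : ∀ a ∈ A, v.Ge 0 (algebraMap F K a)) (a : A) :
    ((toOV v A hA a : v.OV) : K) = algebraMap F K (a : F) := rfl

/-- the residue map -/
def rho (v : DivVal e' K) (A : Subalgebra ℂ F) (hA : ∀ a ∈ A, v.Ge 0 (algebraMap F K a)) :
    letI := MIN.alg v
    A →ₐ[ℂ] IsLocalRing.ResidueField v.OV :=
  letI := MIN.alg v
  { toRingHom := (IsLocalRing.residue v.OV).comp (toOV v A hA)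
    commutes' := fun c => by
      change IsLocalRing.residue v.OV (toOV v A hA (algebraMap ℂ A c)) =
        IsLocalRing.residue v.OV (MIN.cst v c)
      congr 1
      refine Subtype.ext ?_
      change algebraMap F K (algebraMap ℂ F c) = algebraMap ℂ K c
      exact (IsScalarTower.algebraMap_apply ℂ F K c).symm }

theorem rho_apply (v : DivVal e' K) (A : Subalgebra ℂ F)
    (hA : ∀ a ∈ A, v.Ge 0 (algebraMap F K a)) (a : A) :
    letI := MIN.alg v
    rho v A hA a = IsLocalRing.residue v.OV (toOV v A hA a) := rfl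

/-- the lift of elements of `F` to the valuation ring -/
def lift (v : DivVal e' K) (a : F) : v.OV :=
  open Classical in if h : v.Ge 0 (algebraMap F K a) then ⟨algebraMap F K a, h⟩ else 0

theorem lift_val (v : DivVal e' K) (a : F) (h : v.Ge 0 (algebraMap F K a)) :
    ((lift v a : v.OV) : K) = algebraMap F K a := by
  unfold lift
  rw [dif_pos h]

theorem rhoE_eq (v : DivVal e' K) (A : Subalgebra ℂ F)
    (hA : ∀ a ∈ A, v.Ge 0 (algebraMap F K a)) (a : F) (ha : a ∈ A) :
    letI := MIN.alg v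
    rhoE A (rho v A hA) a = IsLocalRing.residue v.OV (lift v a) := by
  let _ := MIN.alg v
  unfold rhoE
  rw [dif_pos ha, rho_apply]
  congr 1
  refine Subtype.ext ?_
  rw [lift_val v a (hA a ha)]
  rfl

end

end MNV

open MNV in
theorem t_MNV : M_MNV := by
  classical
  intro hFRC hTAY hRCE hLOC F K _ _ _ _ _ _ b e n r B f x hn hf hx h0 v t0 ht0 hv1 j M hM hthr hcen
    C u g hu hg hnd
  let _ := MIN.alg v
  obtain ⟨hRfg, -, -⟩ := hFRC B j
  obtain ⟨ub, hub⟩ := MIN.exists_units (v := v) hx ht0 hv1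
  set w := wt x v with hw
  set p : Fin n → IsLocalRing.ResidueField v.OV :=
    fun j => IsLocalRing.residue v.OV (ub j : v.OV) with hp
  have hp0 : ∀ j, p j ≠ 0 := fun j =>
    (IsLocalRing.residue_ne_zero_iff_isUnit _).2 (ub j).isUnit
  -- the local ring
  obtain ⟨hin, A, hAmem, hA0, -⟩ := hRCE B v
  obtain ⟨hy, hd⟩ := hLOC (B.ring j) _ C v (fun a ha => hthr.1 a ha) (fun a ha => hthr.2 a ha)
  have hRA : B.ring j ≤ A := by
    intro a ha
    rw [hAmem, hin j hthr.1]
    exact ⟨a, ha, 1, (B.ring j).one_mem, one_ne_zero, by rw [map_one, ord_one], by rw [mul_one]⟩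
  have hdA : ∀ l, ∀ a ∈ A, C.d l a ∈ A := by
    intro l a ha
    rw [hAmem, hin j hthr.1] at ha ⊢
    exact hd a ha l
  -- the supports
  have hco : ∀ i a, ((u i)⁻¹ • f i).coeff a = ((g i).coeff a : F) := by
    intro i a
    change (u i)⁻¹ * (f i).coeff a = _
    rw [hg, inv_mul_cancel_left₀ (hu i)]
  have hsf : ∀ i, (f i).coeff.support = (g i).coeff.support := by
    intro i
    ext a
    rw [Finsupp.mem_support_iff, Finsupp.mem_support_iff, hg]
    constructor
    · intro h h'
      exact h (by rw [h']; simp)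
    · intro h
      exact mul_ne_zero (hu i) fun h' => h (Subtype.ext h')
  have hsq : ∀ i, ((u i)⁻¹ • f i).coeff.support = (g i).coeff.support := by
    intro i
    ext a
    rw [Finsupp.mem_support_iff, Finsupp.mem_support_iff, hco]
    constructor
    · intro h h'
      exact h (by rw [h']; simp)
    · intro h h'
      exact h (Subtype.ext h')
  have hrm : ∀ i, rmin (g i) w = rmin (f i) w := by
    intro i
    unfold rmin
    rw [hsf]
  have hGA : ∀ i a, ((g i).coeff a : F) ∈ A := fun i a => hRA ((g i).coeff a).2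
  -- the value at `x`
  have hval : ∀ i, ∑ a ∈ (g i).coeff.support, algebraMap F K ((g i).coeff a : F) * mon x a = 0 := by
    intro i
    have h1 := h0 i
    unfold rev Finsupp.sum at h1
    rw [hsf] at h1
    have h2 : algebraMap F K (u i) *
        ∑ a ∈ (g i).coeff.support, algebraMap F K ((g i).coeff a : F) * mon x a = 0 := by
      rw [← h1, Finset.mul_sum]
      refine Finset.sum_congr rfl fun a _ => ?_
      show _ = algebraMap F K ((f i).coeff a) * mon x a
      rw [hg, map_mul, mul_assoc]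
    exact (mul_eq_zero.1 h2).resolve_left ((map_ne_zero _).2 (hu i))
  have hisum : ∀ {Q : Type} [AddCommMonoid Q] (i : Fin r) (ψ : (Fin n → ℤ) → B.ring j → Q),
      (rinit (g i) w).coeff.sum ψ =
        ∑ a ∈ (g i).coeff.support.filter (fun a => pair w a = rmin (g i) w),
          ψ a ((g i).coeff a) := by
    intro Q _ i ψ
    unfold rinit
    have h := Finsupp.sum_filter_index (p := fun m => pair w m = rmin (g i) w) (g i).coeff ψ
    refine h.trans ?_
    rw [Finsupp.support_filter]
  -- the initial forms are in `M`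
  have hiM : ∀ i, rinit (g i) w ∈ M := by
    intro i
    refine hcen _ ?_
    unfold nval
    rw [hisum]
    obtain ⟨y, hyv, hyr⟩ := res_sum ht0 hv1 ub hub (g i).coeff.support (rmin (g i) w)
      (fun a ha => rmin_le _ _ _ ha) fun a => lift v ((g i).coeff a : F)
    have hlv : ∀ a, ((lift v ((g i).coeff a : F) : v.OV) : K) =
      algebraMap F K ((g i).coeff a : F) := fun a => lift_val v _ (hA0 _ (hGA i a))
    have hy0 : y = 0 := by
      refine Subtype.ext ?_
      rw [hyv]
      have h2 : ∑ a ∈ (g i).coeff.support, ((lift v ((g i).coeff a : F) : v.OV) : K) * mon x a =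
          0 := by
        rw [← hval i]
        exact Finset.sum_congr rfl fun a _ => by rw [hlv]
      rw [h2, zero_mul]
      rfl
    rw [hy0, map_zero] at hyr
    obtain ⟨z, hzv, hzr⟩ := res_nval ht0 ub hub
      ((g i).coeff.support.filter (fun a => pair w a = rmin (g i) w))
      fun a => lift v ((g i).coeff a : F)
    rw [← hyr, IsLocalRing.residue_eq_zero_iff, mem_maximalIdeal_iff, hzv] at hzr
    refine (congrArg (v.Ge 1) (Finset.sum_congr rfl fun a _ => ?_)).mp hzr
    rw [hlv]
  -- the closed point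
  obtain ⟨g0, hg0, hTA⟩ := hTAY (B.ring j) M C (fun i => rinit (g i) w) hRfg hM hiM (hnd hiM)
  have hdet := hTA A (rho v A hA0) p hRA hdA hp0 (by
    intro G hG
    refine hcen _ ?_
    obtain ⟨z, hzv, hzr⟩ := res_nval ht0 ub hub G.coeff.support
      fun a => lift v ((G.coeff a : B.ring j) : F)
    have h2 : IsLocalRing.residue v.OV z = 0 := by
      rw [hzr, ← hG]
      unfold Finsupp.sum
      refine Finset.sum_congr rfl fun a _ => ?_
      show _ = rhoE A (rho v A hA0) (G.coeff a : F) * mon p a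
      rw [rhoE_eq v A hA0 _ (hRA (G.coeff a).2)]
    rw [IsLocalRing.residue_eq_zero_iff, mem_maximalIdeal_iff, hzv] at h2
    unfold nval Finsupp.sum
    refine (congrArg (v.Ge 1) (Finset.sum_congr rfl fun a _ => ?_)).mp h2
    rw [lift_val v _ (hA0 _ (hRA (G.coeff a).2))])
  obtain ⟨σ, hσ⟩ := MIN.exists_equiv (by omega : b + n = r + (b + e)) g0 hg0
  -- the entries
  have hyA : ∀ l, C.y l ∈ A := by
    intro l
    unfold Coord.y
    exact A.add_mem A.one_mem (hRA (C.t l).2)
  let fac : Fin (b + n) → IsLocalRing.ResidueField v.OV :=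
    Fin.append (fun l => IsLocalRing.residue v.OV (lift v (C.y l))) fun _ => 1
  have hfac : ∀ c, fac c ≠ 0 := by
    intro c
    refine Fin.addCases (fun l => ?_) (fun k => ?_) c
    · show Fin.append _ _ _ ≠ _
      rw [Fin.append_left, IsLocalRing.residue_ne_zero_iff_isUnit, OV_isUnit_iff,
        lift_val v _ (hA0 _ (hyA l))]
      exact ⟨(map_ne_zero _).2 (hy l).2, (hy l).1⟩
    · show Fin.append _ _ _ ≠ _
      rw [Fin.append_right]
      exact one_ne_zero
  have hent : ∀ (i : Fin r) (c : Fin (b + n)), ∃ y : v.OV,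
      (y : K) = gr C.y C.d ((u i)⁻¹ • f i) x c * t0 ^ (-(rmin (g i) w)) ∧
      IsLocalRing.residue v.OV y = fac c * pgr A (rho v A hA0) p C.d (rinit (g i) w) c := by
    intro i c
    refine Fin.addCases (fun l => ?_) (fun k => ?_) c
    · obtain ⟨y, hyv, hyr⟩ := res_sum ht0 hv1 ub hub (g i).coeff.support (rmin (g i) w)
        (fun a ha => rmin_le _ _ _ ha) fun a => lift v (C.d l ((g i).coeff a : F))
      refine ⟨lift v (C.y l) * y, ?_, ?_⟩
      · have h1 : ((lift v (C.y l) * y : v.OV) : K) = ((lift v (C.y l) : v.OV) : K) * (y : K) := rfl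
        rw [h1, hyv, lift_val v _ (hA0 _ (hyA l))]
        unfold gr
        rw [Fin.append_left, mul_assoc]
        congr 2
        unfold revd Finsupp.sum
        rw [hsq]
        refine Finset.sum_congr rfl fun a _ => ?_
        rw [lift_val v _ (hA0 _ (hdA l _ (hGA i a))), hco]
      · rw [map_mul, hyr]
        show _ = Fin.append _ _ _ * _
        unfold pgr
        rw [Fin.append_left, Fin.append_left, hisum]
        congr 1
        refine Finset.sum_congr rfl fun a _ => ?_
        rw [rhoE_eq v A hA0 _ (hdA l _ (hGA i a))]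
    · obtain ⟨y, hyv, hyr⟩ := res_sum ht0 hv1 ub hub (g i).coeff.support (rmin (g i) w)
        (fun a ha => rmin_le _ _ _ ha) fun a => lift v ((g i).coeff a : F) * ((a k : ℤ) : v.OV)
      refine ⟨y, ?_, ?_⟩
      · rw [hyv]
        unfold gr
        rw [Fin.append_right]
        congr 1
        unfold rgrad Finsupp.sum
        rw [hsq]
        refine Finset.sum_congr rfl fun a _ => ?_
        have h1 : ((lift v ((g i).coeff a : F) * ((a k : ℤ) : v.OV) : v.OV) : K) =
          ((lift v ((g i).coeff a : F) : v.OV) : K) * (a k : K) := by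
          have h2 := map_mul v.OV.subtype (lift v ((g i).coeff a : F)) ((a k : ℤ) : v.OV)
          rw [map_intCast] at h2
          exact h2
        rw [h1, lift_val v _ (hA0 _ (hGA i a)), hco]
      · rw [hyr]
        show _ = Fin.append _ _ _ * _
        unfold pgr
        rw [Fin.append_right, Fin.append_right, hisum, one_mul]
        refine Finset.sum_congr rfl fun a _ => ?_
        rw [rhoE_eq v A hA0 _ (hGA i a), map_mul, map_intCast]
  choose y hyv hyr using hent
  set Y : Matrix (Fin r) (Fin r) v.OV := Matrix.of fun i j => y i (g0 j) with hY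
  have hYr : IsLocalRing.residue v.OV Y.det ≠ 0 := by
    have h2 : (IsLocalRing.residue v.OV).mapMatrix Y =
        Matrix.of fun i j : Fin r => fac (g0 j) *
          (Matrix.of fun i j : Fin r =>
            pgr A (rho v A hA0) p C.d (rinit (g i) w) (g0 j)) i j := by
      ext i j
      exact hyr i (g0 j)
    rw [RingHom.map_det, h2, Matrix.det_mul_row]
    exact mul_ne_zero (Finset.prod_ne_zero_iff.2 fun i _ => hfac _) hdet
  have hYu := (OV_isUnit_iff v).1 ((IsLocalRing.residue_ne_zero_iff_isUnit _).1 hYr)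
  have hYd : ((Y.det : v.OV) : K) = Matrix.det (Matrix.of fun i j : Fin r =>
      t0 ^ (-(rmin (g i) w)) * gr C.y C.d ((u i)⁻¹ • f i) x (g0 j)) := by
    have h2 : ((Y.det : v.OV) : K) = v.OV.subtype Y.det := rfl
    rw [h2, RingHom.map_det]
    congr 1
    ext i j
    change ((y i (g0 j) : v.OV) : K) = _
    rw [hyv, mul_comm]
    rfl
  set Z := (Matrix.of fun i j : Fin r => gr C.y C.d ((u i)⁻¹ • f i) x (σ (Sum.inl j))).det with hZ
  have h3 : ((Y.det : v.OV) : K) = (∏ i, t0 ^ (-(rmin (g i) w))) * Z := by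
    rw [hYd]
    have h4 := Matrix.det_mul_column (fun i : Fin r => t0 ^ (-(rmin (g i) w)))
      (Matrix.of fun i j : Fin r => gr C.y C.d ((u i)⁻¹ • f i) x (g0 j))
    refine h4.trans ?_
    rw [hZ]
    simp only [hσ]
  have h5 : (∏ i : Fin r, t0 ^ (-(rmin (g i) w))) ≠ 0 :=
    Finset.prod_ne_zero_iff.2 fun i _ => zpow_ne_zero _ ht0
  have h6 : Z ≠ 0 := by
    intro h
    rw [h, mul_zero] at h3
    exact hYu.1 h3
  refine ⟨σ, h6, ?_⟩
  have h7 := v.ord_mul _ _ h5 h6
  rw [← h3, hYu.2, ord_prod v _ _ fun i _ => zpow_ne_zero _ ht0] at h7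
  simp only [ord_zpow, hv1, mul_one, Finset.sum_neg_distrib] at h7
  unfold rpsi
  have h8 : ∑ i, rmin (f i) w = ∑ i, rmin (g i) w := Finset.sum_congr rfl fun i _ => (hrm i).symm
  rw [h8]
  have h9 : v.ord Z = ∑ i, rmin (g i) w := by omega
  exact h9

end

end RMM
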