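import Pool.Agent.RMM.StE3
import Pool.Agent.MMCI.K_BAS

/-!
# NAK: coordinates exist at smooth points
-/

set_option autoImplicit false

namespace RMM

open MldGeo MMCI

noncomputable section

namespace NAK

open scoped Pointwise

/-- The differentials of the `t l` span `Ω[R⁄ℂ]` modulo `m`. -/
theorem top_le {R : Type} [CommRing R] [Algebra ℂ R] (m : Ideal R) {b : ℕ} (t : Fin b → R)
    (hc : ∀ a : R, ∃ c : ℂ, a - algebraMap ℂ R c ∈ m)
    (hm : m = Ideal.span (Set.range t) ⊔ m ^ 2) :
    (⊤ : Submodule R (Ω[R⁄ℂ])) ≤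
      Submodule.span R (Set.range fun l => KaehlerDifferential.D ℂ R (t l)) ⊔
        m • (⊤ : Submodule R (Ω[R⁄ℂ])) := by
  set N : Submodule R (Ω[R⁄ℂ]) :=
    Submodule.span R (Set.range fun l => KaehlerDifferential.D ℂ R (t l)) with hN
  have htm : ∀ l, t l ∈ m := by
    intro l
    rw [hm]
    exact Ideal.mem_sup_left (Ideal.subset_span ⟨l, rfl⟩)
  have h1 : ∀ x ∈ Ideal.span (Set.range t), KaehlerDifferential.D ℂ R x ∈
      N ⊔ m • (⊤ : Submodule R (Ω[R⁄ℂ])) := by
    intro x hx
    induction hx using Submodule.span_induction with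
    | mem x hx =>
      obtain ⟨l, rfl⟩ := hx
      exact Submodule.mem_sup_left (Submodule.subset_span ⟨l, rfl⟩)
    | zero =>
      rw [map_zero]
      exact Submodule.zero_mem _
    | add x y _ _ hx hy =>
      rw [map_add]
      exact Submodule.add_mem _ hx hy
    | smul a x hx hxx =>
      rw [smul_eq_mul, Derivation.leibniz]
      refine Submodule.add_mem _ (Submodule.smul_mem _ _ hxx) (Submodule.mem_sup_right ?_)
      refine Submodule.smul_mem_smul ?_ trivial
      have h2 : Ideal.span (Set.range t) ≤ m := by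
        rw [Ideal.span_le]
        rintro _ ⟨l, rfl⟩
        exact htm l
      exact h2 hx
  have h2 : ∀ x ∈ m ^ 2, KaehlerDifferential.D ℂ R x ∈
      N ⊔ m • (⊤ : Submodule R (Ω[R⁄ℂ])) := by
    intro x hx
    rw [pow_two] at hx
    refine Submodule.mul_induction_on hx ?_ ?_
    · intro a ha c hcm
      rw [Derivation.leibniz]
      exact Submodule.mem_sup_right (Submodule.add_mem _
        (Submodule.smul_mem_smul ha trivial) (Submodule.smul_mem_smul hcm trivial))
    · intro x y hx hy
      rw [map_add]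
      exact Submodule.add_mem _ hx hy
  have h3 : ∀ x ∈ m, KaehlerDifferential.D ℂ R x ∈
      N ⊔ m • (⊤ : Submodule R (Ω[R⁄ℂ])) := by
    intro x hx
    rw [hm] at hx
    obtain ⟨y, hy, z, hz, rfl⟩ := Submodule.mem_sup.1 hx
    rw [map_add]
    exact Submodule.add_mem _ (h1 y hy) (h2 z hz)
  refine le_trans (KaehlerDifferential.span_range_derivation ℂ R).ge (Submodule.span_le.2 ?_)
  rintro _ ⟨a, rfl⟩
  obtain ⟨c, hc⟩ := hc a
  have h4 : KaehlerDifferential.D ℂ R a =
      KaehlerDifferential.D ℂ R (a - algebraMap ℂ R c) := by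
    rw [map_sub, Derivation.map_algebraMap, sub_zero]
  rw [h4]
  exact h3 _ hc

end NAK

theorem t_NAK : S_NAK := by
  intro F _ _ b R m t hfg hfrac htr hmax hc hm
  have hft : Algebra.FiniteType ℂ R := (Subalgebra.fg_iff_finiteType R).1 hfg
  have hfin : Module.Finite R (Ω[R⁄ℂ]) := inferInstance
  obtain ⟨s, hs1, hs2⟩ := Submodule.exists_sub_one_mem_and_smul_le_of_fg_of_le_sup
    (I := m) (N := Submodule.span R (Set.range fun l => KaehlerDifferential.D ℂ R (t l)))
    (N' := (⊤ : Submodule R (Ω[R⁄ℂ]))) (P := ⊤) hfin.fg_top le_rfl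
    (NAK.top_le m t hc hm)
  have hsm : s ∉ m := by
    intro h
    refine hmax.ne_top ((Ideal.eq_top_iff_one _).2 ?_)
    have := m.sub_mem h hs1
    simpa using this
  have hs0 : (s : F) ≠ 0 := by
    intro h
    apply hsm
    have : s = 0 := Subtype.ext h
    rw [this]
    exact m.zero_mem
  -- the relations in `Ω[F⁄ℂ]`
  have hrel : ∀ a : R, ∃ r : Fin b → R, (s : F) • KaehlerDifferential.D ℂ F (a : F) =
      ∑ l, (r l : F) • KaehlerDifferential.D ℂ F (t l : F) := by
    intro a
    have h1 : s • KaehlerDifferential.D ℂ R a ∈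
        Submodule.span R (Set.range fun l => KaehlerDifferential.D ℂ R (t l)) := by
      apply hs2
      exact Submodule.smul_mem_pointwise_smul _ _ _ trivial
    obtain ⟨r, hr⟩ := (Submodule.mem_span_range_iff_exists_fun R).1 h1
    refine ⟨r, ?_⟩
    have h2 := congrArg (KaehlerDifferential.map ℂ ℂ R F) hr
    rw [map_sum, map_smul] at h2
    simp only [map_smul, KaehlerDifferential.map_D] at h2
    have h3 : ∀ (c : R) (w : Ω[F⁄ℂ]), c • w = (c : F) • w := fun c w =>
      (algebraMap_smul F c w).symm
    simp only [h3] at h2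
    exact h2.symm
  -- the span
  have hspan : Submodule.span F (Set.range fun l => KaehlerDifferential.D ℂ F (t l : F)) = ⊤ := by
    set N := Submodule.span F (Set.range fun l => KaehlerDifferential.D ℂ F (t l : F)) with hN
    have h1 : ∀ a : R, KaehlerDifferential.D ℂ F (a : F) ∈ N := by
      intro a
      obtain ⟨r, hr⟩ := hrel a
      have h2 : KaehlerDifferential.D ℂ F (a : F) =
          (s : F)⁻¹ • ∑ l, (r l : F) • KaehlerDifferential.D ℂ F (t l : F) := by
        rw [← hr, smul_smul, inv_mul_cancel₀ hs0, one_smul]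
      rw [h2]
      exact N.smul_mem _ (N.sum_mem fun l _ => N.smul_mem _ (Submodule.subset_span ⟨l, rfl⟩))
    rw [eq_top_iff, ← KaehlerDifferential.span_range_derivation ℂ F, Submodule.span_le]
    rintro _ ⟨a, rfl⟩
    obtain ⟨p, q, hq, hpq⟩ := hfrac a
    have hq0 : (q : F) ≠ 0 := fun h => hq (Subtype.ext h)
    have h2 : KaehlerDifferential.D ℂ F a =
        (q : F)⁻¹ • (KaehlerDifferential.D ℂ F (p : F) - a • KaehlerDifferential.D ℂ F (q : F)) := by
      rw [← hpq, Derivation.leibniz, add_sub_cancel_left, smul_smul, inv_mul_cancel₀ hq0, one_smul]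
    rw [h2]
    exact N.smul_mem _ (N.sub_mem (h1 p) (N.smul_mem _ (h1 q)))
  obtain ⟨hfinF, hrank⟩ := BAS.finrank_eq htr
  have hli : LinearIndependent F fun l => KaehlerDifferential.D ℂ F (t l : F) := by
    refine linearIndependent_of_top_le_span_of_card_eq_finrank hspan.ge ?_
    rw [Fintype.card_fin, hrank]
  let B : Module.Basis (Fin b) F (Ω[F⁄ℂ]) := Module.Basis.mk hli hspan.ge
  have hB : ∀ l, B l = KaehlerDifferential.D ℂ F (t l : F) := fun l => by
    rw [show (B : Fin b → Ω[F⁄ℂ]) = _ from Module.Basis.coe_mk hli hspan.ge]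
  have hd : ∀ (l : Fin b) (a : F), ((B.coord l).compDer (KaehlerDifferential.D ℂ F)) a =
      B.repr (KaehlerDifferential.D ℂ F a) l := fun l a => rfl
  refine ⟨{ t := t
            tm := hm
            d := fun l => (B.coord l).compDer (KaehlerDifferential.D ℂ F)
            dual := ?_
            dt := ?_
            s := s
            sm := hsm
            sd := ?_ }, rfl⟩
  · intro a
    simp only [hd, ← hB]
    exact (B.sum_repr _).symm
  · intro l l'
    rw [hd, ← hB, B.repr_self, Finsupp.single_apply]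
    simp only [eq_comm]
  · intro l a
    obtain ⟨r, hr⟩ := hrel a
    have h1 : (s : F) * B.repr (KaehlerDifferential.D ℂ F (a : F)) l = r l := by
      have h2 : B.repr ((s : F) • KaehlerDifferential.D ℂ F (a : F)) l =
          B.repr (∑ l, (r l : F) • B l) l := by
        rw [hr]
        simp only [hB]
      rw [map_smul, Finsupp.smul_apply, smul_eq_mul, B.repr_sum_self] at h2
      exact h2
    rw [hd, h1]
    exact (r l).2

end

end RMM
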