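import Pool.Agent.RMM.StE3
import Pool.Agent.MMCI.Tools
import Pool.Agent.MldGeo.Ord

/-!
# RMM_RBD: the base data
-/

namespace RMM

open MldGeo MMCI

noncomputable section

namespace RBD

variable {F K : Type} [Field F] [Field K] [Algebra ℂ F] [Algebra ℂ K]
  [Algebra F K] [IsScalarTower ℂ F K] {b e' : ℕ}

/-- The ideal of the centre of `v` on the chart `j`. -/
def cen (B : ProjModel F) (v : DivVal e' K) (j : Fin (B.N + 1)) (h : OnChart B v j) :
    Ideal (B.ring j) where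
  carrier := {c | v.Ge 1 (algebraMap F K c)}
  zero_mem' := by
    show v.Ge 1 (algebraMap F K ((0 : B.ring j) : F))
    simpa using DivVal.Ge.zero v 1
  add_mem' := by
    intro a c ha hc
    show v.Ge 1 (algebraMap F K ((a + c : B.ring j) : F))
    have h1 := DivVal.Ge.add ha hc
    simpa using h1
  smul_mem' := by
    intro a c hc
    show v.Ge 1 (algebraMap F K ((a * c : B.ring j) : F))
    have h1 := DivVal.Ge.mul (h a a.2) hc
    simpa using h1

theorem exists_through (hCHT : S_CHT) (B : ProjModel F) (v : DivVal e' K) :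
    ∃ (j : Fin (B.N + 1)) (m : Ideal (B.ring j)), m.IsMaximal ∧ Through B v j m := by
  obtain ⟨j, hj⟩ := hCHT B v
  have h1 : cen B v j hj ≠ ⊤ := by
    intro h
    have h2 : (1 : B.ring j) ∈ cen B v j hj := by rw [h]; trivial
    have h3 : v.Ge 1 (algebraMap F K ((1 : B.ring j) : F)) := h2
    have h4 : v.Ge 1 (1 : K) := by simpa using h3
    have h5 := h4.le one_ne_zero
    rw [DivVal.ord_one] at h5
    omega
  obtain ⟨m, hm, hle⟩ := Ideal.exists_le_maximal _ h1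
  exact ⟨j, m, hm, hj, fun c hc => hle hc⟩

/-- A finite set of equations on a chart. -/
theorem fin_chart {R : Subalgebra ℂ F} (p : Ideal R → F → Prop)
    (h : ∀ m : Ideal R, m.IsMaximal → ∃ (a : F) (s : R), s ∉ m ∧
      ∀ m' : Ideal R, m'.IsMaximal → s ∉ m' → p m' a) :
    ∃ S : Finset F, ∀ m : Ideal R, m.IsMaximal → ∃ a ∈ S, p m a := by
  classical
  choose a s hs hp using fun m : {m : Ideal R // m.IsMaximal} => h m.1 m.2
  have h1 : Submodule.span R (Set.range s) = (⊤ : Ideal R) := by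
    by_contra hne
    obtain ⟨m, hm, hle⟩ := Ideal.exists_le_maximal _ hne
    exact hs ⟨m, hm⟩ (hle (Submodule.subset_span ⟨⟨m, hm⟩, rfl⟩))
  have h2 : (1 : R) ∈ Submodule.span R (Set.range s) := by rw [h1]; trivial
  rw [Finsupp.mem_span_range_iff_exists_finsupp] at h2
  obtain ⟨c, hc⟩ := h2
  refine ⟨c.support.image a, fun m hm => ?_⟩
  have h3 : ∃ i ∈ c.support, s i ∉ m := by
    by_contra hcon
    push Not at hcon
    apply hm.ne_top
    rw [Ideal.eq_top_iff_one, ← hc]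
    exact Submodule.sum_mem _ fun i hi => m.mul_mem_left _ (hcon i hi)
  obtain ⟨i, hi, hsi⟩ := h3
  exact ⟨a i, Finset.mem_image_of_mem _ hi, hp i m hm hsi⟩

end RBD

theorem t_RBD : M_RBD := by
  intro hFRC hNAK hCHT hHEQ hBEQ hBET F K _ _ _ _ _ _ b e' B hB
  classical
  have hC : ∀ j (m : Ideal (B.ring j)), m.IsMaximal → Nonempty (Coord (B.ring j) b m) := by
    intro j m hm
    obtain ⟨t, ht⟩ := hB.smooth j m hm
    obtain ⟨C, -⟩ := hNAK (B.ring j) m t (hFRC B j).1 (hFRC B j).2.1 hB.dim hm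
      ((hFRC B j).2.2 m hm) ht
    exact ⟨C⟩
  obtain ⟨m0, hm0⟩ := Ideal.exists_maximal (B.ring 0)
  obtain ⟨C0⟩ := hC 0 m0 hm0
  obtain ⟨hy0, hy1, -⟩ := hHEQ (B.ring 0) m0 C0 hB.dim hm0
  have hE : ∀ j (m : Ideal (B.ring j)), m.IsMaximal → ∃ (a : F) (s : B.ring j), s ∉ m ∧
      ∀ m' : Ideal (B.ring j), m'.IsMaximal → s ∉ m' →
        (a ≠ 0 ∧ IsEquation (B.ring j) (dlogs C0.y) 1 m' a) := by
    intro j m hm
    obtain ⟨C⟩ := hC j m hm
    obtain ⟨-, -, h3⟩ := hHEQ (B.ring j) m C hB.dim hm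
    obtain ⟨h, hne, heq⟩ := h3 C0.y hy1
    obtain ⟨s, hs, hs'⟩ := hBEQ B j m C C0.y h hB.dim (hB.normal j) hm hy1 hne heq
    exact ⟨h, s, hs, fun m' hm' hsm' => ⟨hne, hs' m' hm' hsm'⟩⟩
  have hE' : ∀ j (m : Ideal (B.ring j)), m.IsMaximal → ∃ a : F, a ≠ 0 ∧
      IsEquation (B.ring j) (dlogs C0.y) 1 m a := by
    intro j m hm
    obtain ⟨a, s, hs, h⟩ := hE j m hm
    exact ⟨a, h m hm hs⟩
  have hβ : ∀ v : DivVal e' K, ∃ β : ℤ, ∀ j (m : Ideal (B.ring j)), m.IsMaximal →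
      Through B v j m → ∀ a : F, a ≠ 0 → IsEquation (B.ring j) (dlogs C0.y) 1 m a →
      v.ord (algebraMap F K a) = β := by
    intro v
    obtain ⟨j, m, hm, hth⟩ := RBD.exists_through hCHT B v
    obtain ⟨a, ha, hea⟩ := hE' j m hm
    refine ⟨v.ord (algebraMap F K a), fun j' m' hm' hth' a' ha' hea' => ?_⟩
    exact hBET B 1 (dlogs C0.y) hB.dim hB.normal v j' j m' m a' a hm' hm hth' hth ha' ha hea' hea
  choose β hβ' using hβ
  have hS := fun j => RBD.fin_chart (R := B.ring j)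
    (fun m a => a ≠ 0 ∧ IsEquation (B.ring j) (dlogs C0.y) 1 m a) (hE j)
  choose S hS' using hS
  refine ⟨C0.y, β, ?_⟩
  exact
    { κ_pos := one_pos
      dimF := hB.dim
      y0_ne := hy0
      y0_ind := hy1
      normal := hB.normal
      eqn := ⟨Finset.univ.biUnion S, fun j m hm => by
        obtain ⟨a, ha, h1, h2⟩ := hS' j m hm
        exact ⟨a, Finset.mem_biUnion.2 ⟨j, Finset.mem_univ j, ha⟩, h1, h2⟩⟩
      beta := fun v j m hm hth a ha hea => hβ' v j m hm hth a ha hea }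

end

end RMM
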