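import Pool.Agent.RMM.StE3
import Pool.Agent.MMCI.Tools
import Pool.Agent.MMCI.TorLib
import Pool.Agent.MMCI.K_BAS
import Pool.Agent.MldGeo.Ord

/-!
# RRK: the rank of the gradients of a nondegenerate system over a smooth base
-/

set_option autoImplicit false

namespace RMM

open MldGeo MMCI

noncomputable section

namespace RRK

/-! ### differentials of algebraically independent elements -/

section Diff

variable {K : Type} [Field K] [Algebra ℂ K]

theorem li_D {N b : ℕ} (htr : Algebra.trdeg ℂ K = (N : Cardinal)) (z : Fin b → K)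
    (hz : AlgebraicIndependent ℂ z) :
    LinearIndependent K fun l => KaehlerDifferential.D ℂ K (z l) := by
  classical
  obtain ⟨t, hst, ht⟩ := exists_isTranscendenceBasis_superset (s := Set.range z)
    hz.coe_range
  have hc : Cardinal.mk t = N := ht.cardinalMk_eq_trdeg.trans htr
  have hf : Finite t := by
    rw [← Cardinal.lt_aleph0_iff_finite, hc]
    exact Cardinal.natCast_lt_aleph0
  have : Fintype t := Fintype.ofFinite t
  have hcard : Fintype.card t = N := by
    rw [Cardinal.mk_fintype] at hc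
    exact_mod_cast hc
  let eqv : Fin N ≃ t := (Fintype.equivFinOfCardEq hcard).symm
  have hx : AlgebraicIndependent ℂ fun i => (eqv i : K) := ht.1.comp _ eqv.injective
  obtain ⟨B, hB⟩ := TBAS.main htr _ hx
  have h1 : (fun l => KaehlerDifferential.D ℂ K (z l)) =
      fun l => B (eqv.symm ⟨z l, hst ⟨l, rfl⟩⟩) := by
    funext l
    rw [hB, Equiv.apply_symm_apply]
  rw [h1]
  refine B.linearIndependent.comp _ ?_
  intro l l' hll
  have h2 := eqv.symm.injective hll
  exact hz.injective (congrArg Subtype.val h2)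

theorem li_dlog {b : ℕ} (z : Fin b → K) (hz : ∀ l, z l ≠ 0)
    (h : LinearIndependent K fun l => KaehlerDifferential.D ℂ K (z l)) :
    LinearIndependent K fun l => dlog (z l) := by
  rw [Fintype.linearIndependent_iff]
  intro g hg l
  have h1 : ∑ l, (g l * (z l)⁻¹) • KaehlerDifferential.D ℂ K (z l) = 0 := by
    rw [← hg]
    refine Finset.sum_congr rfl fun l _ => ?_
    rw [dlog, smul_smul]
  have h2 := Fintype.linearIndependent_iff.1 h _ h1 l
  exact (mul_eq_zero.1 h2).resolve_right (inv_ne_zero (hz l))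

end Diff

variable {F K : Type} [Field F] [Field K] [Algebra ℂ F] [Algebra ℂ K] [Algebra F K]
  [IsScalarTower ℂ F K] {b n r : ℕ}

/-! ### the coordinates -/

theorem y_ne {R : Subalgebra ℂ F} {m : Ideal R} (hm : m ≠ ⊤) (C : Coord R b m) (l : Fin b) :
    C.y l ≠ 0 := by
  intro h0
  apply hm
  rw [Ideal.eq_top_iff_one]
  have h1 : C.t l ∈ m := C.tm.ge (Ideal.mem_sup_left (Ideal.subset_span ⟨l, rfl⟩))
  have h2 : C.t l = -1 := by
    apply Subtype.ext
    have h3 : (1 : F) + (C.t l : F) = 0 := h0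
    rw [eq_neg_of_add_eq_zero_right h3]
    push_cast
    rfl
  rw [h2] at h1
  exact (Ideal.neg_mem_iff m).1 h1

theorem D_y {R : Subalgebra ℂ F} {m : Ideal R} (C : Coord R b m) (l : Fin b) :
    KaehlerDifferential.D ℂ F (C.y l) = KaehlerDifferential.D ℂ F (C.t l : F) := by
  unfold Coord.y
  rw [map_add, Derivation.map_one_eq_zero, zero_add]

theorem dual_y {R : Subalgebra ℂ F} {m : Ideal R} (C : Coord R b m) (a : F) :
    KaehlerDifferential.D ℂ F a = ∑ l, C.d l a • KaehlerDifferential.D ℂ F (C.y l) := by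
  rw [C.dual a]
  exact Finset.sum_congr rfl fun l _ => by rw [D_y]

theorem ind_y {R : Subalgebra ℂ F} {m : Ideal R} (C : Coord R b m)
    (htr : Algebra.trdeg ℂ F = (b : Cardinal)) : AlgebraicIndependent ℂ C.y := by
  refine BAS.algInd _ ?_
  obtain ⟨hfin, hrank⟩ := BAS.finrank_eq htr
  refine linearIndependent_of_top_le_span_of_card_eq_finrank ?_ (by rw [Fintype.card_fin, hrank])
  rw [← KaehlerDifferential.span_range_derivation, Submodule.span_le]
  rintro _ ⟨a, rfl⟩
  rw [dual_y C a]
  exact Submodule.sum_mem _ fun l _ => Submodule.smul_mem _ _ (Submodule.subset_span ⟨l, rfl⟩)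

theorem li_y {R : Subalgebra ℂ F} {m : Ideal R} (hm : m ≠ ⊤) (C : Coord R b m)
    (htr : Algebra.trdeg ℂ F = (b : Cardinal)) {N : ℕ}
    (htrK : Algebra.trdeg ℂ K = (N : Cardinal)) :
    LinearIndependent K fun l => dlog (algebraMap F K (C.y l)) := by
  refine li_dlog _ (fun l => (map_ne_zero _).2 (y_ne hm C l)) ?_
  refine li_D htrK _ ?_
  exact (ind_y C htr).map' (f := IsScalarTower.toAlgHom ℂ F K) (algebraMap F K).injective

/-! ### the value at `x` -/

/-- The value at `x`. -/
def phi (R : Subalgebra ℂ F) {x : Fin n → K} (hx : ∀ j, x j ≠ 0) : LR R n →ₐ[R] K :=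
  AddMonoidAlgebra.lift R K (Fin n → ℤ)
    { toFun := fun m => mon x m.toAdd
      map_one' := Tor.mon_zero x
      map_mul' := fun m m' => Tor.mon_add hx m.toAdd m'.toAdd }

omit [Algebra ℂ K] [IsScalarTower ℂ F K] in
theorem phi_apply (R : Subalgebra ℂ F) {x : Fin n → K} (hx : ∀ j, x j ≠ 0) (G : LR R n) :
    phi R hx G = G.coeff.sum fun a c => algebraMap F K (c : F) * mon x a := rfl

/-- Maximal ideals of the ring of Laurent polynomials lie over maximal ideals. -/
theorem comap_max (R : Subalgebra ℂ F) (hR : R.FG) (M : Ideal (LR R n)) (hM : M.IsMaximal) :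
    (M.comap (algebraMap R (LR R n))).IsMaximal := by
  have h1 : Algebra.FiniteType ℂ R := R.fg_iff_finiteType.1 hR
  have h2 : Algebra.FiniteType R (LR R n) := inferInstance
  have h3 : Algebra.FiniteType ℂ (LR R n) := Algebra.FiniteType.trans h1 h2
  let _ : Field (LR R n ⧸ M) := Ideal.Quotient.field M
  have h4 : Algebra.FiniteType ℂ (LR R n ⧸ M) :=
    Algebra.FiniteType.of_surjective (Ideal.Quotient.mkₐ ℂ M) (Ideal.Quotient.mkₐ_surjective ℂ M)
  have h5 : Module.Finite ℂ (LR R n ⧸ M) :=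
    finite_of_finite_type_of_isJacobsonRing ℂ (LR R n ⧸ M)
  let π : (LR R n ⧸ M) →ₐ[ℂ] ℂ := IsAlgClosed.lift
  let ψ : R →ₐ[ℂ] ℂ := (π.comp (Ideal.Quotient.mkₐ ℂ M)).comp (IsScalarTower.toAlgHom ℂ R (LR R n))
  have h6 : M.comap (algebraMap R (LR R n)) = RingHom.ker ψ := by
    ext a
    rw [Ideal.mem_comap, RingHom.mem_ker]
    have h7 : ψ a = π (Ideal.Quotient.mk M (algebraMap R (LR R n) a)) := rfl
    rw [h7, map_eq_zero_iff π π.toRingHom.injective, Ideal.Quotient.eq_zero_iff_mem]
  rw [h6]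
  refine RingHom.ker_isMaximal_of_surjective ψ ?_
  intro c
  exact ⟨algebraMap ℂ R c, by rw [AlgHom.commutes]; rfl⟩

theorem sum_coeff {R : Subalgebra ℂ F} {α : Type} [AddCommMonoid α] (h : LR F n) (g : LR R n)
    (hh : ∀ a, h.coeff a = (g.coeff a : F)) (P : (Fin n → ℤ) → F → α) :
    h.coeff.sum P = g.coeff.sum fun a c => P a (c : F) := by
  have h1 : h.coeff.support = g.coeff.support := by
    ext a
    rw [Finsupp.mem_support_iff, Finsupp.mem_support_iff, hh a]
    exact not_congr (by simp)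
  unfold Finsupp.sum
  rw [h1]
  exact Finset.sum_congr rfl fun a _ => by rw [hh a]

theorem rinit_zero {R : Type} [CommRing R] (g : LR R n) : rinit g 0 = g := by
  have hp : ∀ m : Fin n → ℤ, pair 0 m = 0 := fun m => by simp [pair]
  have h1 : rmin g 0 = 0 := by
    unfold rmin
    rcases g.coeff.support.eq_empty_or_nonempty with h | h
    · rw [h]
      simp
    · have h2 : (fun m : Fin n → ℤ => pair 0 m) = fun _ => 0 := funext hp
      rw [h2, Set.Nonempty.image_const (by exact_mod_cast h)]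
      simp
  unfold rinit
  rw [h1]
  have h3 : g.coeff.filter (fun m => pair 0 m = 0) = g.coeff := by
    rw [Finsupp.filter_eq_self_iff]
    intro m _
    exact hp m
  rw [h3]

/-! ### the linear algebra -/

omit [Algebra ℂ K] in
theorem kill_rank {V : Type} [AddCommGroup V] [Module K V] {G : Fin r → Fin (b + n) → K}
    {Q : Fin r → Fin (b + n) → K} {ω : Fin (b + n) → V} {y : Fin b → K} (hy : ∀ l, y l ≠ 0)
    (hrel : ∀ i, ∑ c, G i c • ω c = 0)
    (hli : LinearIndependent K fun l : Fin b => ω (Fin.castAdd n l))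
    (hQl : ∀ i l, G i (Fin.castAdd n l) = y l * Q i (Fin.castAdd n l))
    (hQr : ∀ i j, G i (Fin.natAdd b j) = Q i (Fin.natAdd b j))
    (g0 : Fin r → Fin (b + n)) (hdet : (Matrix.of fun i j : Fin r => Q i (g0 j)).det ≠ 0)
    (a : Fin r → K) (ha : ∀ j, ∑ i, a i * G i (Fin.natAdd b j) = 0) : a = 0 := by
  have h1 : ∑ c, (∑ i, a i * G i c) • ω c = 0 := by
    have h2 : ∑ i, a i • ∑ c, G i c • ω c = 0 := Finset.sum_eq_zero fun i _ => by
      rw [hrel i, smul_zero]
    rw [← h2]
    simp only [Finset.smul_sum, Finset.sum_smul, smul_smul]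
    rw [Finset.sum_comm]
  rw [Fin.sum_univ_add] at h1
  have h3 : ∑ j : Fin n, (∑ i, a i * G i (Fin.natAdd b j)) • ω (Fin.natAdd b j) = 0 :=
    Finset.sum_eq_zero fun j _ => by rw [ha j, zero_smul]
  rw [h3, add_zero] at h1
  have h4 := Fintype.linearIndependent_iff.1 hli _ h1
  have h5 : ∀ c, ∑ i, a i * Q i c = 0 := by
    intro c
    induction c using Fin.addCases with
    | left l =>
      have h6 := h4 l
      simp only [hQl] at h6
      have h7 : y l * ∑ i, a i * Q i (Fin.castAdd n l) = 0 := by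
        rw [← h6, Finset.mul_sum]
        exact Finset.sum_congr rfl fun i _ => by ring
      exact (mul_eq_zero.1 h7).resolve_left (hy l)
    | right j =>
      rw [← ha j]
      exact Finset.sum_congr rfl fun i _ => by rw [hQr]
  refine Matrix.eq_zero_of_vecMul_eq_zero hdet ?_
  funext j
  exact h5 (g0 j)

end RRK

theorem t_RRK : M_RRK := by
  intro hFRC hNAK hTAY hREV F K _ _ _ _ _ _ b e n r B f x hZ
  classical
  obtain ⟨hFG, hfrac, hres⟩ := hFRC B 0
  -- the maximal ideal
  have hker : RingHom.ker (RRK.phi (B.ring 0) hZ.ne) ≠ ⊤ := RingHom.ker_ne_top _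
  obtain ⟨M, hM, hMle⟩ := Ideal.exists_le_maximal _ hker
  have hm := RRK.comap_max (B.ring 0) hFG M hM
  obtain ⟨t, htm⟩ := hZ.smooth.smooth 0 _ hm
  obtain ⟨C, -⟩ := hNAK (B.ring 0) _ t hFG hfrac hZ.smooth.dim hm (hres _ hm) htm
  obtain ⟨g, hloc, hnd⟩ := hZ.nondeg 0 0 _ hm
  choose u hu huf using fun i => (hloc i).1
  -- the normalised equations
  have hG : ∀ i a, ((u i)⁻¹ • f i).coeff a = ((g i).coeff a : F) := by
    intro i a
    rw [AddMonoidAlgebra.coeff_smul, Finsupp.smul_apply, huf i a, smul_eq_mul,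
      inv_mul_cancel_left₀ (hu i)]
  have hrev : ∀ i, rev x ((u i)⁻¹ • f i) = 0 := by
    intro i
    have h1 : rev x ((u i)⁻¹ • f i) = algebraMap F K (u i)⁻¹ * rev x (f i) := by
      unfold rev
      rw [AddMonoidAlgebra.coeff_smul,
        Finsupp.sum_smul_index (fun m => by rw [map_zero, zero_mul]), Finsupp.mul_sum]
      exact Finset.sum_congr rfl fun m _ => by
        dsimp only
        rw [map_mul, mul_assoc]
    rw [h1, hZ.zero i, mul_zero]
  have hrg : ∀ i j, rgrad x ((u i)⁻¹ • f i) j = algebraMap F K (u i)⁻¹ * rgrad x (f i) j := by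
    intro i j
    unfold rgrad
    rw [AddMonoidAlgebra.coeff_smul,
      Finsupp.sum_smul_index (fun m => by rw [map_zero, zero_mul, zero_mul]), Finsupp.mul_sum]
    exact Finset.sum_congr rfl fun m _ => by
      dsimp only
      rw [map_mul]
      ring
  have hgM : ∀ i, g i ∈ M := by
    intro i
    apply hMle
    rw [RingHom.mem_ker, RRK.phi_apply, ← RRK.sum_coeff ((u i)⁻¹ • f i) (g i) (hG i)
      (fun a c => algebraMap F K c * mon x a)]
    exact hrev i
  have hlin : ∀ τ : Fin r → ℂ, ∑ i, τ i • g i ∈ M ^ 2 → τ = 0 := by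
    intro τ hτ
    refine hnd M hM rfl (fun i => ?_) τ ?_
    · rw [RRK.rinit_zero]
      exact hgM i
    · simp only [RRK.rinit_zero]
      exact hτ
  obtain ⟨g0, -, hkey⟩ := hTAY (B.ring 0) M C g hFG hM hgM hlin
  -- the generic point
  let ρ : (⊤ : Subalgebra ℂ F) →ₐ[ℂ] K := (IsScalarTower.toAlgHom ℂ F K).comp (Subalgebra.val ⊤)
  have hρ : ∀ a : F, rhoE ⊤ ρ a = algebraMap F K a := by
    intro a
    unfold rhoE
    rw [dif_pos Algebra.mem_top]
    rfl
  have hdet := hkey ⊤ ρ x le_top (fun _ _ _ => Algebra.mem_top) hZ.ne (fun G hG0 => by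
    apply hMle
    rw [RingHom.mem_ker, RRK.phi_apply]
    simp only [hρ] at hG0
    exact hG0)
  have hyne := RRK.y_ne hm.ne_top C
  have hR := hREV C.y C.d x hyne hZ.ne (RRK.dual_y C)
  rw [Fintype.linearIndependent_iff]
  intro a ha i
  have h0 : (fun i => a i * algebraMap F K (u i)) = 0 := by
    refine RRK.kill_rank (G := fun i => gr C.y C.d ((u i)⁻¹ • f i) x)
      (Q := fun i => pgr ⊤ ρ x C.d (g i)) (ω := fun c => dlog (zz C.y x c))
      (y := fun l => algebraMap F K (C.y l)) (fun l => (map_ne_zero _).2 (hyne l)) ?_ ?_ ?_ ?_ g0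
      hdet _ ?_
    · intro i
      rw [← hR.2.2, hrev i, map_zero]
    · have h1 : (fun l : Fin b => dlog (zz C.y x (Fin.castAdd n l))) =
          fun l => dlog (algebraMap F K (C.y l)) := by
        funext l
        rw [zz, Fin.append_left]
      rw [h1]
      exact RRK.li_y hm.ne_top C hZ.smooth.dim hZ.dim
    · intro i l
      rw [gr, pgr, Fin.append_left, Fin.append_left]
      congr 1
      unfold revd
      rw [RRK.sum_coeff ((u i)⁻¹ • f i) (g i) (hG i)
        (fun a c => algebraMap F K (C.d l c) * mon x a)]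
      simp only [hρ]
    · intro i j
      rw [gr, pgr, Fin.append_right, Fin.append_right]
      unfold rgrad
      rw [RRK.sum_coeff ((u i)⁻¹ • f i) (g i) (hG i)
        (fun a c => algebraMap F K c * (a j : K) * mon x a)]
      simp only [hρ]
    · intro j
      have h2 := congrFun ha j
      rw [Finset.sum_apply, Pi.zero_apply] at h2
      rw [← h2]
      refine Finset.sum_congr rfl fun i _ => ?_
      rw [gr, Fin.append_right, hrg, Pi.smul_apply, smul_eq_mul, map_inv₀]
      have h3 : algebraMap F K (u i) ≠ 0 := (map_ne_zero _).2 (hu i)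
      field_simp
  have h3 := congrFun h0 i
  exact (mul_eq_zero.1 h3).resolve_right ((map_ne_zero _).2 (hu i))

end

end RMM
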