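import Pool.Agent.RMM.StE3
import Pool.Agent.MMCI.Tools
import Pool.Agent.MldGeo.Ord

/-!
# RSYS: nondegenerate systems satisfy the abstract conditions (assembly)
-/

set_option autoImplicit false

namespace RMM

open MldGeo MMCI

noncomputable section

theorem t_RSYS : M_RSYS := by
  intro hRBD hLDT hRRK hCMN F K _ _ _ _ _ _ b e n r B f x h
  obtain ⟨y0, β, hB⟩ := hRBD (F := F) (K := K) (b := b) (e' := b + e) B h.smooth
  have hbpf : ∀ i, Bpf B (coefs (f i)) := by
    intro i j m hm
    obtain ⟨g, hg, -⟩ := h.nondeg 0 j m hm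
    obtain ⟨⟨u, hu, hug⟩, ha⟩ := hg i
    exact (hCMN (F := F) (K := K) B (f i) j m u (g i) (h.f_ne i) hu hug ha).1
  exact ⟨y0, β, hB,
    { dim_eq := h.dim_eq
      f_ne := h.f_ne
      ne := h.ne
      gen := h.gen
      zero := h.zero
      rank := hRRK B f x h
      bpf := hbpf
      nd := fun v => Or.inl (hLDT B f x h y0 β hB v) }⟩

end

end RMM
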