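import Pool.Agent.RMM.StE3
import Pool.Agent.MMCI.Tools
import Pool.Agent.MMCI.K_MIN
import Pool.Agent.MldGeo.Ord

/-!
# TAY: nonzero minors at a closed point of `B × T`
-/

namespace RMM

open MldGeo MMCI

noncomputable section

namespace TAY

variable {n : ℕ}

theorem mon_add {κ : Type} [Field κ] {x : Fin n → κ} (hx : ∀ j, x j ≠ 0) (m m' : Fin n → ℤ) :
    mon x (m + m') = mon x m * mon x m' := by
  unfold mon
  rw [← Finset.prod_mul_distrib]
  exact Finset.prod_congr rfl fun i _ => by rw [Pi.add_apply, zpow_add₀ (hx i)]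

theorem mon_zero {κ : Type} [Field κ] (x : Fin n → κ) : mon x 0 = 1 := by
  unfold mon
  simp

/-! ### values -/

section val

variable {R κ : Type} [CommRing R] [Field κ]

/-- The value at a point. -/
def evl (φ : R →+* κ) (p : Fin n → κ) (hp : ∀ j, p j ≠ 0) : LR R n →+* κ :=
  AddMonoidAlgebra.liftNCRingHom φ
    { toFun := fun a => mon p (Multiplicative.toAdd a)
      map_one' := mon_zero p
      map_mul' := fun _ _ => mon_add hp _ _ } (fun _ _ => Commute.all _ _)

theorem evl_single (φ : R →+* κ) (p : Fin n → κ) (hp : ∀ j, p j ≠ 0) (a : Fin n → ℤ) (c : R) :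
    evl φ p hp (AddMonoidAlgebra.single a c) = φ c * mon p a := by
  unfold evl
  rw [AddMonoidAlgebra.liftNCRingHom_single]
  rfl

theorem evl_eq (φ : R →+* κ) (p : Fin n → κ) (hp : ∀ j, p j ≠ 0) (h : LR R n) :
    evl φ p hp h = h.coeff.sum fun a c => φ c * mon p a := by
  conv_lhs => rw [← AddMonoidAlgebra.sum_coeff_single h]
  rw [map_finsuppSum]
  exact Finsupp.sum_congr fun a _ => evl_single φ p hp a _

end val

/-! ### derivations acting on the coefficients, and the logarithmic derivations -/

section der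

variable {R : Type} [CommRing R]

/-- The additive map which acts on the coefficients. -/
def cmap (δ : (Fin n → ℤ) → R →+ R) : LR R n →+ LR R n :=
  (Finsupp.liftAddHom fun a : Fin n → ℤ =>
    (AddMonoidAlgebra.singleAddHom a).comp (δ a)).comp
      AddMonoidAlgebra.coeffAddEquiv.toAddMonoidHom

theorem cmap_single (δ : (Fin n → ℤ) → R →+ R) (a : Fin n → ℤ) (c : R) :
    cmap δ (AddMonoidAlgebra.single a c) = AddMonoidAlgebra.single a (δ a c) := by
  unfold cmap
  simp

theorem cmap_eq (δ : (Fin n → ℤ) → R →+ R) (h : LR R n) :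
    cmap δ h = h.coeff.sum fun a c => AddMonoidAlgebra.single a (δ a c) := by
  conv_lhs => rw [← AddMonoidAlgebra.sum_coeff_single h]
  rw [map_finsuppSum]
  exact Finsupp.sum_congr fun a _ => cmap_single δ a _

/-- Leibniz' rule. -/
theorem cmap_mul (δ : (Fin n → ℤ) → R →+ R)
    (hδ : ∀ a a' c c', δ (a + a') (c * c') = c * δ a' c' + c' * δ a c) (h h' : LR R n) :
    cmap δ (h * h') = h * cmap δ h' + h' * cmap δ h := by
  induction h using AddMonoidAlgebra.induction_linear with
  | zero => simp
  | add f g hf hg => rw [add_mul, map_add, hf, hg, map_add]; ring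
  | single a c =>
    induction h' using AddMonoidAlgebra.induction_linear with
    | zero => simp
    | add f g hf hg => rw [mul_add, map_add, hf, hg, map_add]; ring
    | single a' c' =>
      rw [AddMonoidAlgebra.single_mul_single, cmap_single, cmap_single, cmap_single,
        AddMonoidAlgebra.single_mul_single, AddMonoidAlgebra.single_mul_single, hδ,
        AddMonoidAlgebra.single_add, add_comm a' a]

end der

theorem hom_ext {R S : Type} [CommRing R] [CommRing S] (f g : LR R n →+* S)
    (h0 : ∀ c, f (AddMonoidAlgebra.single 0 c) = g (AddMonoidAlgebra.single 0 c))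
    (h1 : ∀ j, f (AddMonoidAlgebra.single (Pi.single j 1) 1) =
      g (AddMonoidAlgebra.single (Pi.single j 1) 1)) : f = g := by
  have hinv : ∀ (k : LR R n →+* S) (a : Fin n → ℤ),
      k (AddMonoidAlgebra.single a 1) * k (AddMonoidAlgebra.single (-a) 1) = 1 := by
    intro k a
    rw [← map_mul, AddMonoidAlgebra.single_mul_single, add_neg_cancel, mul_one]
    exact map_one k
  apply AddMonoidAlgebra.ringHom_ext h0
  let S0 : AddSubgroup (Fin n → ℤ) :=
    { carrier := {a | f (AddMonoidAlgebra.single a 1) = g (AddMonoidAlgebra.single a 1)}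
      zero_mem' := h0 1
      add_mem' := by
        intro a a' ha ha'
        simp only [Set.mem_setOf_eq] at ha ha' ⊢
        have h2 : (AddMonoidAlgebra.single (a + a') 1 : LR R n) =
            AddMonoidAlgebra.single a 1 * AddMonoidAlgebra.single a' 1 := by
          rw [AddMonoidAlgebra.single_mul_single, mul_one]
        rw [h2, map_mul, map_mul, ha, ha']
      neg_mem' := by
        intro a ha
        simp only [Set.mem_setOf_eq] at ha ⊢
        have h2 := hinv f a
        have h3 := hinv g a
        rw [ha] at h2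
        calc f (AddMonoidAlgebra.single (-a) 1) =
            (g (AddMonoidAlgebra.single a 1) * g (AddMonoidAlgebra.single (-a) 1)) *
              f (AddMonoidAlgebra.single (-a) 1) := by rw [h3, one_mul]
          _ = (g (AddMonoidAlgebra.single a 1) * f (AddMonoidAlgebra.single (-a) 1)) *
              g (AddMonoidAlgebra.single (-a) 1) := by ring
          _ = g (AddMonoidAlgebra.single (-a) 1) := by rw [h2, one_mul] }
  intro a
  have h2 : a ∈ S0 := by
    have h3 : a = ∑ j, a j • (Pi.single j 1 : Fin n → ℤ) := by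
      funext i
      simp [Finset.sum_apply, Pi.single_apply]
    rw [h3]
    exact sum_mem fun j _ => zsmul_mem (h1 j) _
  exact h2

section point

variable {F : Type} [Field F] [Algebra ℂ F] {b r : ℕ}

theorem fin_type (R : Subalgebra ℂ F) (hR : R.FG) : Algebra.FiniteType ℂ (LR R n) := by
  have h1 : Algebra.FiniteType ℂ R := (Subalgebra.fg_iff_finiteType _).mp hR
  have h2 : AddMonoid.FG (Fin n → ℤ) := by
    rw [← AddGroup.fg_iff_addMonoid_fg]
    exact Module.Finite.iff_addGroup_fg.1 inferInstance
  have h3 : Algebra.FiniteType R (LR R n) := inferInstance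
  exact Algebra.FiniteType.trans h1 h3

theorem exists_residue (R : Subalgebra ℂ F) (hR : R.FG) (M : Ideal (LR R n))
    (hM : M.IsMaximal) : ∃ π : LR R n →ₐ[ℂ] ℂ, ∀ h, π h = 0 ↔ h ∈ M := by
  have h0 := fin_type (n := n) R hR
  let _ : Field (LR R n ⧸ M) := Ideal.Quotient.field M
  have _ : Algebra.FiniteType ℂ (LR R n ⧸ M) :=
    Algebra.FiniteType.of_surjective (Ideal.Quotient.mkₐ ℂ M) (Ideal.Quotient.mkₐ_surjective ℂ M)
  have _ : Module.Finite ℂ (LR R n ⧸ M) :=
    finite_of_finite_type_of_isJacobsonRing ℂ (LR R n ⧸ M)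
  let φ : (LR R n ⧸ M) →ₐ[ℂ] ℂ := IsAlgClosed.lift
  refine ⟨φ.comp (Ideal.Quotient.mkₐ ℂ M), fun h => ?_⟩
  rw [AlgHom.comp_apply, map_eq_zero_iff φ φ.toRingHom.injective]
  exact Ideal.Quotient.eq_zero_iff_mem

theorem algebraMap_eq (R : Subalgebra ℂ F) (c : ℂ) :
    algebraMap ℂ (LR R n) c = AddMonoidAlgebra.single 0 (algebraMap ℂ R c) := rfl

theorem algebraMap_eq' (R : Subalgebra ℂ F) (c : R) :
    algebraMap R (LR R n) c = AddMonoidAlgebra.single 0 c := rfl

/-- The maximal ideal is generated by the coordinates. -/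
theorem approx (R : Subalgebra ℂ F) (M : Ideal (LR R n)) (π : LR R n →ₐ[ℂ] ℂ)
    (hπ : ∀ h, π h = 0 ↔ h ∈ M) (t : Fin b → R)
    (ht : M.comap (algebraMap R (LR R n)) =
      Ideal.span (Set.range t) ⊔ (M.comap (algebraMap R (LR R n))) ^ 2)
    (h : LR R n) (hh : h ∈ M) :
    ∃ (α : Fin b → ℂ) (β : Fin n → ℂ),
      h - (∑ l, algebraMap ℂ (LR R n) (α l) * algebraMap R (LR R n) (t l) +
        ∑ j, algebraMap ℂ (LR R n) (β j) * (AddMonoidAlgebra.single (Pi.single j 1) 1 -
          algebraMap ℂ (LR R n) (π (AddMonoidAlgebra.single (Pi.single j 1) 1)))) ∈ M ^ 2 := by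
  set T : Fin b → LR R n := fun l => algebraMap R (LR R n) (t l) with hT
  set Y : Fin n → LR R n := fun j => AddMonoidAlgebra.single (Pi.single j 1) 1 -
    algebraMap ℂ (LR R n) (π (AddMonoidAlgebra.single (Pi.single j 1) 1)) with hY
  set m : Ideal R := M.comap (algebraMap R (LR R n)) with hm
  have hTM : ∀ l, T l ∈ M := by
    intro l
    have h1 : t l ∈ m := by
      rw [ht]
      exact Ideal.mem_sup_left (Ideal.subset_span ⟨l, rfl⟩)
    exact h1
  have hYM : ∀ j, Y j ∈ M := by
    intro j
    rw [← hπ, hY, map_sub, AlgHom.commutes]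
    exact sub_self _
  -- the ideal `M` is generated
  have hJ : h ∈ m.map (algebraMap R (LR R n)) ⊔ Ideal.span (Set.range Y) := by
    set J := m.map (algebraMap R (LR R n)) ⊔ Ideal.span (Set.range Y) with hJdef
    have h1 : Ideal.Quotient.mk J = (algebraMap ℂ (LR R n ⧸ J)).comp (π : LR R n →+* ℂ) := by
      apply hom_ext
      · intro c
        have h2 : c - algebraMap ℂ R (π (algebraMap R (LR R n) c)) ∈ m := by
          rw [hm, Ideal.mem_comap, ← hπ, map_sub, map_sub, sub_eq_zero]
          have h3 : algebraMap R (LR R n) (algebraMap ℂ R (π (algebraMap R (LR R n) c))) =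
            algebraMap ℂ (LR R n) (π (algebraMap R (LR R n) c)) := rfl
          rw [h3, AlgHom.commutes]
          rfl
        have h4 := Ideal.mem_map_of_mem (algebraMap R (LR R n)) h2
        have h5 : algebraMap R (LR R n) (c - algebraMap ℂ R (π (algebraMap R (LR R n) c))) ∈ J :=
          Ideal.mem_sup_left h4
        rw [← Ideal.Quotient.eq_zero_iff_mem, map_sub, map_sub, sub_eq_zero] at h5
        exact h5
      · intro j
        have h5 : Y j ∈ J := Ideal.mem_sup_right (Ideal.subset_span ⟨j, rfl⟩)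
        rw [← Ideal.Quotient.eq_zero_iff_mem, hY, map_sub, sub_eq_zero] at h5
        exact h5
    rw [← Ideal.Quotient.eq_zero_iff_mem, h1]
    have h2 : π h = 0 := (hπ h).2 hh
    change algebraMap ℂ (LR R n ⧸ J) (π h) = 0
    rw [h2, map_zero]
  have hmM : m.map (algebraMap R (LR R n)) ≤ M := Ideal.map_comap_le
  have hJ2 : h ∈ (Ideal.span (Set.range T) ⊔ Ideal.span (Set.range Y)) ⊔ M ^ 2 := by
    have h1 : m.map (algebraMap R (LR R n)) ≤ Ideal.span (Set.range T) ⊔ M ^ 2 := by
      conv_lhs => rw [ht]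
      rw [Ideal.map_sup, Ideal.map_span, Ideal.map_pow]
      refine sup_le ?_ ?_
      · refine le_trans ?_ le_sup_left
        apply Ideal.span_mono
        rintro _ ⟨_, ⟨l, rfl⟩, rfl⟩
        exact ⟨l, rfl⟩
      · exact le_trans (Ideal.pow_right_mono hmM 2) le_sup_right
    have h2 := (sup_le (le_trans h1 (sup_le (le_trans le_sup_left le_sup_left) le_sup_right))
      (le_trans le_sup_right le_sup_left) :
        m.map (algebraMap R (LR R n)) ⊔ Ideal.span (Set.range Y) ≤
        (Ideal.span (Set.range T) ⊔ Ideal.span (Set.range Y)) ⊔ M ^ 2)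
    exact h2 hJ
  obtain ⟨h12, hh12, μ, hμ, rfl⟩ := Submodule.mem_sup.1 hJ2
  obtain ⟨h1, hh1, h2, hh2, rfl⟩ := Submodule.mem_sup.1 hh12
  obtain ⟨q, rfl⟩ := Ideal.mem_span_range_iff_exists_fun.1 hh1
  obtain ⟨q', rfl⟩ := Ideal.mem_span_range_iff_exists_fun.1 hh2
  refine ⟨fun l => π (q l), fun j => π (q' j), ?_⟩
  have key : ∀ a w : LR R n, w ∈ M → a * w - algebraMap ℂ (LR R n) (π a) * w ∈ M ^ 2 := by
    intro a w hw
    rw [← sub_mul, pow_two]
    refine Ideal.mul_mem_mul ?_ hw
    rw [← hπ, map_sub, AlgHom.commutes]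
    exact sub_self _
  have h3 : ∑ l, q l * T l + ∑ j, q' j * Y j + μ -
      (∑ l, algebraMap ℂ (LR R n) (π (q l)) * T l +
        ∑ j, algebraMap ℂ (LR R n) (π (q' j)) * Y j) =
      ∑ l, (q l * T l - algebraMap ℂ (LR R n) (π (q l)) * T l) +
        ∑ j, (q' j * Y j - algebraMap ℂ (LR R n) (π (q' j)) * Y j) + μ := by
    rw [Finset.sum_sub_distrib, Finset.sum_sub_distrib]
    ring
  change ∑ l, q l * T l + ∑ j, q' j * Y j + μ -
      (∑ l, algebraMap ℂ (LR R n) (π (q l)) * T l +
        ∑ j, algebraMap ℂ (LR R n) (π (q' j)) * Y j) ∈ M ^ 2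
  rw [h3]
  exact Ideal.add_mem _ (Ideal.add_mem _ (sum_mem fun l _ => key _ _ (hTM l))
    (sum_mem fun j _ => key _ _ (hYM j))) hμ

/-- A map with Leibniz' rule vanishes at the point on `M ^ 2`. -/
theorem der_sq {R : Subalgebra ℂ F} (M : Ideal (LR R n)) (π : LR R n →ₐ[ℂ] ℂ)
    (hπ : ∀ h, π h = 0 ↔ h ∈ M) (D : LR R n →+ LR R n)
    (hD : ∀ h h', D (h * h') = h * D h' + h' * D h) (h : LR R n) (hh : h ∈ M ^ 2) :
    π (D h) = 0 := by
  rw [pow_two] at hh
  refine Submodule.mul_induction_on hh ?_ ?_
  · intro u hu w hw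
    rw [hD, map_add, map_mul, map_mul, (hπ u).2 hu, (hπ w).2 hw, zero_mul, zero_mul, add_zero]
  · intro u w hu hw
    rw [map_add, map_add, hu, hw, add_zero]

/-- The derivation `s d` of `R`. -/
def sder {R : Subalgebra ℂ F} (s : R) (d : Derivation ℂ F F)
    (hd : ∀ a : R, (s : F) * d (a : F) ∈ R) : R →+ R where
  toFun := fun a => ⟨(s : F) * d (a : F), hd a⟩
  map_zero' := by
    apply Subtype.ext
    simp
  map_add' := by
    intro a a'
    apply Subtype.ext
    simp [mul_add]

/-- The multiplication with an integer. -/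
def zder (R : Subalgebra ℂ F) (k : ℤ) : R →+ R where
  toFun := fun a => (k : R) * a
  map_zero' := mul_zero _
  map_add' := fun a a' => mul_add _ a a'

end point

end TAY

theorem t_TAY : S_TAY := by
  intro F _ _ b n r R M C h hR hM hhM hind
  obtain ⟨π, hπ⟩ := TAY.exists_residue R hR M hM
  set p0 : Fin n → ℂ := fun j => π (AddMonoidAlgebra.single (Pi.single j 1) 1) with hp0
  have hp0ne : ∀ j, p0 j ≠ 0 := by
    intro j h0
    have h1 : π (AddMonoidAlgebra.single (Pi.single j 1) 1) *
        π (AddMonoidAlgebra.single (-(Pi.single j 1)) 1) = 1 := by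
      rw [← map_mul, AddMonoidAlgebra.single_mul_single, add_neg_cancel, mul_one]
      exact map_one π
    rw [show π (AddMonoidAlgebra.single (Pi.single j 1) 1) = 0 from h0, zero_mul] at h1
    exact zero_ne_one h1
  -- the derivations
  let D : Fin b → LR R n →+ LR R n := fun l => TAY.cmap fun _ => TAY.sder C.s (C.d l) (C.sd l)
  let D' : Fin n → LR R n →+ LR R n := fun j => TAY.cmap fun a => TAY.zder R (a j)
  have hDm : ∀ l u w, D l (u * w) = u * D l w + w * D l u := by
    intro l
    apply TAY.cmap_mul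
    intro _ _ c c'
    apply Subtype.ext
    change (C.s : F) * C.d l ((c : F) * (c' : F)) = (c : F) * ((C.s : F) * C.d l (c' : F)) +
      (c' : F) * ((C.s : F) * C.d l (c : F))
    rw [Derivation.leibniz, smul_eq_mul, smul_eq_mul]
    ring
  have hDm' : ∀ j u w, D' j (u * w) = u * D' j w + w * D' j u := by
    intro j
    apply TAY.cmap_mul
    intro a a' c c'
    change (((a + a') j : ℤ) : R) * (c * c') = c * (((a' j : ℤ) : R) * c') +
      c' * (((a j : ℤ) : R) * c)
    rw [Pi.add_apply]
    push_cast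
    ring
  have hDc : ∀ l (c : ℂ), D l (algebraMap ℂ (LR R n) c) = 0 := by
    intro l c
    rw [TAY.algebraMap_eq]
    change TAY.cmap _ _ = 0
    rw [TAY.cmap_single]
    have h1 : TAY.sder C.s (C.d l) (C.sd l) (algebraMap ℂ R c) = 0 := by
      apply Subtype.ext
      change (C.s : F) * C.d l (algebraMap ℂ F c) = 0
      rw [Derivation.map_algebraMap, mul_zero]
    rw [h1, AddMonoidAlgebra.single_zero]
  have hDc' : ∀ j (c : R), D' j (algebraMap R (LR R n) c) = 0 := by
    intro j c
    rw [TAY.algebraMap_eq']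
    change TAY.cmap _ _ = 0
    rw [TAY.cmap_single]
    have h1 : TAY.zder R ((0 : Fin n → ℤ) j) c = 0 := by
      change (((0 : Fin n → ℤ) j : ℤ) : R) * c = 0
      simp
    rw [h1, AddMonoidAlgebra.single_zero]
  have hDt : ∀ l l', D l (algebraMap R (LR R n) (C.t l')) =
      if l = l' then algebraMap R (LR R n) C.s else 0 := by
    intro l l'
    rw [TAY.algebraMap_eq']
    change TAY.cmap _ _ = _
    rw [TAY.cmap_single]
    have h1 : TAY.sder C.s (C.d l) (C.sd l) (C.t l') = if l = l' then C.s else 0 := by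
      apply Subtype.ext
      change (C.s : F) * C.d l (C.t l' : F) = _
      rw [C.dt]
      split_ifs with hl <;> simp
    rw [h1]
    split_ifs with hl
    · rfl
    · exact AddMonoidAlgebra.single_zero _
  have hDx : ∀ l j, D l (AddMonoidAlgebra.single (Pi.single j 1) 1) = 0 := by
    intro l j
    change TAY.cmap _ _ = 0
    rw [TAY.cmap_single]
    have h1 : TAY.sder C.s (C.d l) (C.sd l) 1 = 0 := by
      apply Subtype.ext
      change (C.s : F) * C.d l (1 : F) = 0
      rw [Derivation.map_one_eq_zero, mul_zero]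
    rw [h1, AddMonoidAlgebra.single_zero]
  have hDx' : ∀ j j', D' j (AddMonoidAlgebra.single (Pi.single j' 1) 1) =
      if j = j' then AddMonoidAlgebra.single (Pi.single j' 1) 1 else 0 := by
    intro j j'
    change TAY.cmap _ _ = _
    rw [TAY.cmap_single]
    have h1 : TAY.zder R ((Pi.single j' 1 : Fin n → ℤ) j) 1 = if j = j' then 1 else 0 := by
      change ((((Pi.single j' 1 : Fin n → ℤ) j) : ℤ) : R) * 1 = _
      rw [Pi.single_apply]
      split_ifs with hl <;> simp
    rw [h1]
    split_ifs with hl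
    · rfl
    · exact AddMonoidAlgebra.single_zero _
  have hDc'' : ∀ j (c : ℂ), D' j (algebraMap ℂ (LR R n) c) = 0 := fun j c =>
    hDc' j (algebraMap ℂ R c)
  have hs : π (algebraMap R (LR R n) C.s) ≠ 0 := by
    intro h0
    exact C.sm ((hπ _).1 h0)
  -- elements with zero derivatives
  have hzero : ∀ H ∈ M, (∀ l, π (D l H) = 0) → (∀ j, π (D' j H) = 0) → H ∈ M ^ 2 := by
    intro H hH hH1 hH2
    obtain ⟨α, β, hαβ⟩ := TAY.approx R M π hπ C.t C.tm H hH
    set W : LR R n := ∑ l, algebraMap ℂ (LR R n) (α l) * algebraMap R (LR R n) (C.t l) +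
        ∑ j, algebraMap ℂ (LR R n) (β j) * (AddMonoidAlgebra.single (Pi.single j 1) 1 -
          algebraMap ℂ (LR R n) (π (AddMonoidAlgebra.single (Pi.single j 1) 1))) with hW
    have hα : ∀ l, α l = 0 := by
      intro l
      have h1 := TAY.der_sq M π hπ (D l) (hDm l) _ hαβ
      rw [map_sub, map_sub, hH1, zero_sub, neg_eq_zero] at h1
      have h2 : D l W = algebraMap ℂ (LR R n) (α l) * algebraMap R (LR R n) C.s := by
        rw [hW, map_add, map_sum, map_sum]
        have h3 : ∀ l', D l (algebraMap ℂ (LR R n) (α l') * algebraMap R (LR R n) (C.t l')) =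
            if l = l' then algebraMap ℂ (LR R n) (α l) * algebraMap R (LR R n) C.s else 0 := by
          intro l'
          rw [hDm, hDc, mul_zero, add_zero, hDt]
          split_ifs with hl
          · rw [hl]
          · exact mul_zero _
        have h4 : ∀ j, D l (algebraMap ℂ (LR R n) (β j) *
            (AddMonoidAlgebra.single (Pi.single j 1) 1 -
            algebraMap ℂ (LR R n) (π (AddMonoidAlgebra.single (Pi.single j 1) 1)))) = 0 := by
          intro j
          rw [hDm, hDc, mul_zero, add_zero, map_sub, hDx, hDc, sub_zero, mul_zero]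
        rw [Finset.sum_congr rfl fun l' _ => h3 l', Finset.sum_congr rfl fun j _ => h4 j]
        simp
      rw [h2, map_mul, AlgHom.commutes] at h1
      exact (mul_eq_zero.1 h1).resolve_right hs
    have hβ : ∀ j, β j = 0 := by
      intro j
      have h1 := TAY.der_sq M π hπ (D' j) (hDm' j) _ hαβ
      rw [map_sub, map_sub, hH2, zero_sub, neg_eq_zero] at h1
      have h2 : D' j W = algebraMap ℂ (LR R n) (β j) *
          AddMonoidAlgebra.single (Pi.single j 1) 1 := by
        rw [hW, map_add, map_sum, map_sum]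
        have h3 : ∀ l', D' j (algebraMap ℂ (LR R n) (α l') * algebraMap R (LR R n) (C.t l')) =
            0 := by
          intro l'
          rw [hDm', hDc'', mul_zero, add_zero, hDc', mul_zero]
        have h4 : ∀ j', D' j (algebraMap ℂ (LR R n) (β j') *
            (AddMonoidAlgebra.single (Pi.single j' 1) 1 -
            algebraMap ℂ (LR R n) (π (AddMonoidAlgebra.single (Pi.single j' 1) 1)))) =
            if j = j' then algebraMap ℂ (LR R n) (β j) *
              AddMonoidAlgebra.single (Pi.single j 1) 1 else 0 := by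
          intro j'
          rw [hDm', hDc'', mul_zero, add_zero, map_sub, hDx', hDc'', sub_zero]
          split_ifs with hl
          · rw [hl]
          · exact mul_zero _
        rw [Finset.sum_congr rfl fun l' _ => h3 l', Finset.sum_congr rfl fun j' _ => h4 j']
        simp
      rw [h2, map_mul, AlgHom.commutes] at h1
      exact (mul_eq_zero.1 h1).resolve_right (hp0ne j)
    have hW0 : W = 0 := by
      rw [hW]
      simp [hα, hβ]
    rwa [hW0, sub_zero] at hαβ
  -- independent rows
  let G : Matrix (Fin r) (Fin (b + n)) ℂ :=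
    Matrix.of fun i => Fin.append (fun l => π (D l (h i))) fun j => π (D' j (h i))
  have hG : LinearIndependent ℂ G.row := by
    rw [Fintype.linearIndependent_iff]
    intro τ hτ
    have h1 : ∀ c, ∑ i, τ i * G i c = 0 := by
      intro c
      have h2 := congrFun hτ c
      simpa [Finset.sum_apply, Matrix.row] using h2
    have hH : ∑ i, τ i • h i ∈ M ^ 2 := by
      have hsm : ∀ i, τ i • h i = algebraMap ℂ (LR R n) (τ i) * h i := fun i =>
        Algebra.smul_def _ _
      apply hzero
      · exact sum_mem fun i _ => by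
          rw [hsm]
          exact Ideal.mul_mem_left _ _ (hhM i)
      · intro l
        have h2 := h1 (Fin.castAdd n l)
        rw [map_sum, map_sum, ← h2]
        refine Finset.sum_congr rfl fun i _ => ?_
        rw [hsm, hDm, hDc, mul_zero, add_zero, map_mul, AlgHom.commutes]
        simp [G]
      · intro j
        have h2 := h1 (Fin.natAdd b j)
        rw [map_sum, map_sum, ← h2]
        refine Finset.sum_congr rfl fun i _ => ?_
        rw [hsm, hDm', hDc'', mul_zero, add_zero, map_mul, AlgHom.commutes]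
        simp [G]
    have h3 := hind τ hH
    intro i
    rw [h3]
    rfl
  obtain ⟨g, hg, hdet⟩ := MIN.exists_minor G hG
  refine ⟨g, hg, ?_⟩
  intro κ _ _ A ρ p hRA hdA hp hval hdet0
  -- the minor over the ring
  let W : Matrix (Fin r) (Fin (b + n)) (LR R n) :=
    Matrix.of fun i => Fin.append (fun l => D l (h i)) fun j => D' j (h i)
  have hW1 : ∀ i c, π (W i c) = G i c := by
    intro i c
    refine Fin.addCases (fun l => ?_) (fun j => ?_) c <;> simp [W, G]
  let δ : LR R n := (Matrix.of fun i j : Fin r => W i (g j)).det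
  have hδ : π δ ≠ 0 := by
    have h1 : π δ = (Matrix.of fun i j : Fin r => G i (g j)).det := by
      have h2 := RingHom.map_det (π : LR R n →+* ℂ) (Matrix.of fun i j : Fin r => W i (g j))
      refine Eq.trans h2 ?_
      congr 1
      ext i j
      exact hW1 i (g j)
    rw [h1]
    exact hdet
  have hδM : δ ∉ M := fun hc => hδ ((hπ δ).2 hc)
  apply hδM
  apply hval
  let ρ' : R →+* κ := (ρ : A →+* κ).comp (Subalgebra.inclusion hRA : R →+* A)
  have hρ' : ∀ c : R, rhoE A ρ (c : F) = ρ' c := by
    intro c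
    unfold rhoE
    rw [dif_pos (hRA c.2)]
    rfl
  have hev : ∀ Q : LR R n, (Q.coeff.sum fun a c => rhoE A ρ (c : F) * mon p a) =
      TAY.evl ρ' p hp Q := by
    intro Q
    rw [TAY.evl_eq]
    exact Finsupp.sum_congr fun a _ => by rw [hρ']
  rw [hev]
  let γ : Fin (b + n) → κ := Fin.append (fun _ => ρ' C.s) fun _ => 1
  have hW2 : ∀ i c, TAY.evl ρ' p hp (W i c) = γ c * pgr A ρ p C.d (h i) c := by
    intro i c
    refine Fin.addCases (fun l => ?_) (fun j => ?_) c
    · have h1 : TAY.evl ρ' p hp (D l (h i)) = ρ' C.s *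
          ((h i).coeff.sum fun a c => rhoE A ρ (C.d l (c : F)) * mon p a) := by
        change TAY.evl ρ' p hp (TAY.cmap _ (h i)) = _
        rw [TAY.cmap_eq, map_finsuppSum, Finsupp.mul_sum]
        refine Finsupp.sum_congr fun a _ => ?_
        rw [TAY.evl_single, ← mul_assoc]
        congr 1
        have h2 : C.d l ((h i).coeff a : F) ∈ A := hdA l _ (hRA ((h i).coeff a).2)
        rw [rhoE, dif_pos h2]
        change ρ (Subalgebra.inclusion hRA _) = ρ (Subalgebra.inclusion hRA _) * ρ _
        rw [← map_mul]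
        rfl
      simp only [W, γ, pgr, Matrix.of_apply, Fin.append_left]
      exact h1
    · have h1 : TAY.evl ρ' p hp (D' j (h i)) =
          ((h i).coeff.sum fun a c => rhoE A ρ (c : F) * (a j : κ) * mon p a) := by
        change TAY.evl ρ' p hp (TAY.cmap _ (h i)) = _
        rw [TAY.cmap_eq, map_finsuppSum]
        refine Finsupp.sum_congr fun a _ => ?_
        rw [TAY.evl_single]
        congr 1
        rw [hρ']
        change ρ' (((a j : ℤ) : R) * _) = _
        rw [map_mul, map_intCast, mul_comm]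
      simp only [W, γ, pgr, Matrix.of_apply, Fin.append_right, one_mul]
      exact h1
  have h1 : TAY.evl ρ' p hp δ =
      (∏ j, γ (g j)) * (Matrix.of fun i j : Fin r => pgr A ρ p C.d (h i) (g j)).det := by
    have h2 := RingHom.map_det (TAY.evl ρ' p hp) (Matrix.of fun i j : Fin r => W i (g j))
    refine Eq.trans h2 ?_
    rw [← Matrix.det_mul_row]
    congr 1
    ext i j
    exact hW2 i (g j)
  rw [h1, hdet0, mul_zero]

end

end RMM
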