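import Pool.Agent.RMM.REV
import Pool.Agent.RMM.FRCB
import Pool.Agent.RMM.NAK
import Pool.Agent.RMM.LOCD
import Pool.Agent.RMM.TAY
import Pool.Agent.RMM.CLP
import Pool.Agent.RMM.CLP2
import Pool.Agent.RMM.CHT
import Pool.Agent.RMM.RCEN
import Pool.Agent.RMM.MNV
import Pool.Agent.RMM.RRK
import Pool.Agent.RMM.HEQ
import Pool.Agent.RMM.BEQ
import Pool.Agent.RMM.LCP
import Pool.Agent.RMM.BET
import Pool.Agent.RMM.RBD
import Pool.Agent.RMM.CMN
import Pool.Agent.RMM.LDT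
import Pool.Agent.RMM.LOCV
import Pool.Agent.RMM.RSYS

/-!
# Relative minimal models, block E3: existence of the local data, smooth base
-/

set_option autoImplicit false

namespace RMM

open MldGeo MMCI

theorem rbeq : S_BEQ := t_BEQ t_FRCB
theorem rbet : S_BET := t_BET t_FRCB t_RCEN t_LCP
theorem rbd : S_RBD := t_RBD t_FRCB t_NAK t_CHT t_HEQ rbeq rbet
theorem rmnv : S_MNV := t_MNV t_FRCB t_TAY t_RCEN t_LOCD
theorem rldt : S_LDT := t_LDT t_FRCB t_NAK t_CLP t_RCEN t_LOCD t_HEQ rbeq t_CMN rmnv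
theorem rrk : S_RRK := t_RRK t_FRCB t_NAK t_TAY t_REV
theorem rsys : S_RSYS := t_RSYS rbd rldt rrk t_CMN
theorem rclp2 : S_CLP2 := t_CLP2 t_CLP
theorem rlocv : S_LOCV := t_LOCV t_FRCB t_NAK t_RCEN t_LOCD t_HEQ rbeq t_CMN rmnv

end RMM
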