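import Pool.Agent.RMM.AsmR
import Pool.Agent.RMM.AsmC

/-!
# Relative minimal models: the main statements, from the residue form (block E)
-/

set_option autoImplicit false

namespace RMM

open MldGeo MMCI

theorem rmain (hLOG : S_RLOG) : S_RMAIN := t_RMAIN' hLOG cRTER cRSEM cRNEF cRFIB

theorem rfaa (hLOG : S_RLOG) : S_RFAA := t_RFAA' hLOG cRTER cRSEM cRNEF

end RMM
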