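import Pool.Agent.RMM.StR

/-!
# Relative minimal models, RAH: the exponents of the projective model are full
-/

namespace RMM

open MldGeo MMCI

namespace RAH

/-- differences of the unit vectors and zero -/
theorem indep {N : ℕ} (j : Fin (N + 1)) (U : Fin (N + 1) → Fin N → ℤ) (h0 : ∀ k, U 0 k = 0)
    (h1 : ∀ l k, U (Fin.succ l) k = if k = l then 1 else 0) (g : Fin N → ℤ)
    (hg : ∀ k, ∑ l, g l * (U (j.succAbove l) k - U j k) = 0) : ∀ l, g l = 0 := by
  let h : Fin (N + 1) → ℤ := Fin.insertNth (α := fun _ => ℤ) j (-∑ l, g l) g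
  have hj : h j = -∑ l, g l := Fin.insertNth_apply_same ..
  have hs : ∀ l, h (j.succAbove l) = g l := fun l => Fin.insertNth_apply_succAbove ..
  have e1 : ∑ i, h i = 0 := by
    rw [Fin.sum_univ_succAbove _ j, hj]
    simp only [hs]
    ring
  have e2 : ∀ k, ∑ i, h i * U i k = 0 := by
    intro k
    rw [Fin.sum_univ_succAbove _ j, hj]
    simp only [hs]
    have := hg k
    simp only [mul_sub, Finset.sum_sub_distrib] at this
    rw [neg_mul, Finset.sum_mul]
    linarith
  have e3 : ∀ k : Fin N, h k.succ = 0 := by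
    intro k
    have := e2 k
    rw [Fin.sum_univ_succ, h0, mul_zero, zero_add] at this
    simpa [h1] using this
  have e4 : h 0 = 0 := by
    rw [Fin.sum_univ_succ] at e1
    simpa [e3] using e1
  have e5 : ∀ i, h i = 0 := Fin.cases e4 e3
  intro l
  rw [← hs l]
  exact e5 _

/-- the first part of the exponents -/
def U {N : ℕ} (j : Fin (N + 1)) : Fin N → ℤ :=
  Fin.cases (0 : Fin N → ℤ) (fun l => Pi.single l 1) j

theorem eh_cast {N n : ℕ} (j : Fin (N + 1)) (a : Fin n → ℤ) (k : Fin N) :
    eh j a (Fin.castAdd n k) = U j k := by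
  unfold eh U
  rw [Fin.append_left]

theorem eh_nat {N n : ℕ} (j : Fin (N + 1)) (a : Fin n → ℤ) (k : Fin n) :
    eh j a (Fin.natAdd N k) = a k := by
  unfold eh
  rw [Fin.append_right]

theorem mem {N n : ℕ} {A : Finset (Fin n → ℤ)} (j : Fin (N + 1)) {a : Fin n → ℤ} (ha : a ∈ A) :
    eh j a ∈ Ah N A := by
  unfold Ah
  rw [Finset.mem_image]
  exact ⟨(j, a), Finset.mem_product.2 ⟨Finset.mem_univ _, ha⟩, rfl⟩

end RAH

open RAH

theorem t_RAH : S_RAH := by
  intro n N A hA hfull
  refine ⟨?_, ?_⟩
  · obtain ⟨a, ha⟩ := hA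
    exact ⟨eh 0 a, mem 0 ha⟩
  · intro a ha
    unfold Ah at ha
    rw [Finset.mem_image] at ha
    obtain ⟨⟨j, a0⟩, hj, rfl⟩ := ha
    rw [Finset.mem_product] at hj
    have ha0 : a0 ∈ A := hj.2
    obtain ⟨b0, hb0, hind⟩ := hfull a0 ha0
    refine ⟨Fin.append (fun l : Fin N => eh (j.succAbove l) a0) (fun l => eh j (b0 l)), ?_, ?_⟩
    · intro l
      refine Fin.addCases (fun l => ?_) (fun l => ?_) l
      · rw [Fin.append_left]
        exact mem _ ha0
      · rw [Fin.append_right]
        exact mem _ (hb0 l)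
    · rw [Fintype.linearIndependent_iff]
      intro g hg
      have hval : ∀ k, ∑ l, g (Fin.castAdd n l) * (eh (j.succAbove l) a0 k - eh j a0 k) +
          ∑ l, g (Fin.natAdd N l) * (eh j (b0 l) k - eh j a0 k) = 0 := by
        intro k
        have h1 := congrFun hg k
        rw [Fin.sum_univ_add] at h1
        simp only [Fin.append_left, Fin.append_right, Pi.add_apply, Finset.sum_apply,
          Pi.smul_apply, Pi.sub_apply, smul_eq_mul, Pi.zero_apply] at h1
        exact h1
      have hnat : ∀ l, g (Fin.natAdd N l) = 0 := by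
        rw [Fintype.linearIndependent_iff] at hind
        apply hind
        funext k
        have h1 := hval (Fin.natAdd N k)
        simp only [eh_nat, sub_self, mul_zero, Finset.sum_const_zero, zero_add] at h1
        simpa [Finset.sum_apply] using h1
      have hcast : ∀ l, g (Fin.castAdd n l) = 0 := by
        refine RAH.indep j U (fun k => rfl) ?_ (fun l => g (Fin.castAdd n l)) ?_
        · intro l k
          change (Pi.single l (1 : ℤ) : Fin N → ℤ) k = _
          rw [Pi.single_apply]
        · intro k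
          have h1 := hval (Fin.castAdd n k)
          simp only [eh_cast, sub_self, mul_zero, Finset.sum_const_zero, add_zero] at h1
          exact h1
      exact fun i => Fin.addCases hcast hnat i

end RMM
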