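import Pool.Agent.RMM.StR

/-!
# RMM, RCHE: existence of the change of variables
-/

set_option autoImplicit false

namespace RMM

open MldGeo MMCI

noncomputable section

theorem t_RCHE : S_RCHE := by
  intro F _ n n' m f p0 hm hp
  have hinj : Function.Injective fun a : Fin n' → ℤ => p0 + ∑ k, a k • m k := by
    intro a b hab
    have h1 : ∑ k, a k • m k = ∑ k, b k • m k := add_left_cancel hab
    have h2 : ∑ k, (a k - b k) • m k = 0 := by
      simp only [sub_smul, Finset.sum_sub_distrib, h1, sub_self]
    have h3 := Fintype.linearIndependent_iff.1 hm _ h2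
    funext k
    exact sub_eq_zero.1 (h3 k)
  refine ⟨AddMonoidAlgebra.ofCoeff
    (f.coeff.comapDomain (fun a : Fin n' → ℤ => p0 + ∑ k, a k • m k) hinj.injOn), ?_, hp⟩
  intro a
  rw [AddMonoidAlgebra.coeff_ofCoeff, Finsupp.comapDomain_apply]

end

end RMM
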