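import Pool.Agent.RMM.StR
import Pool.Agent.MMCI.R_CHV

/-!
# RMM_RCHV: the change of variables for Laurent polynomials over `F`
-/

set_option autoImplicit false

namespace RMM

open MldGeo MMCI

open MMCI.R_CHV in
theorem t_RCHV : S_RCHV := by
  intro F _ _ n n' m f p0 f' hm hch
  have hinj : Function.Injective fun a : Fin n' → ℤ => p0 + ∑ k, a k • m k := by
    intro a b hab
    have h1 : ∑ k, a k • m k = ∑ k, b k • m k := add_left_cancel hab
    have h2 : ∑ k, (a k - b k) • m k = 0 := by
      simp only [sub_smul, Finset.sum_sub_distrib, h1, sub_self]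
    have h3 := Fintype.linearIndependent_iff.1 hm _ h2
    funext k
    exact sub_eq_zero.1 (h3 k)
  let φ : (Fin n' → ℤ) ↪ (Fin n → ℤ) := ⟨fun a => p0 + ∑ k, a k • m k, hinj⟩
  have hφ : ∀ a, φ a = p0 + ∑ k, a k • m k := fun _ => rfl
  have hg1 : f'.coeff = f.coeff.comapDomain φ φ.injective.injOn := by
    ext a
    rw [Finsupp.comapDomain_apply, hφ]
    exact hch.coeff a
  have hg : f'.coeff.embDomain φ = f.coeff := by
    rw [hg1]
    apply Finsupp.embDomain_comapDomain
    intro p hpm
    obtain ⟨a, ha⟩ := hch.supp p hpm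
    exact ⟨a, ha.symm⟩
  have hsupp : f.coeff.support = f'.coeff.support.map φ := by
    rw [← hg, Finsupp.support_embDomain]
  have hne : f ≠ 0 → f' ≠ 0 := by
    intro hf h0
    apply hf
    have h1 : f.coeff = 0 := by
      rw [← hg, AddMonoidAlgebra.coeff_eq_zero.2 h0, Finsupp.embDomain_zero]
    exact AddMonoidAlgebra.coeff_eq_zero.1 h1
  refine ⟨hne, ?_, ?_, ?_, ?_⟩
  · unfold coefs
    rw [hsupp, Finset.coe_map, Set.image_image]
    apply Set.image_congr
    intro a _
    rw [hch.coeff a]
    rfl
  · intro u
    refine ⟨fun a => ?_, fun p hp => ?_⟩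
    · rw [AddMonoidAlgebra.coeff_smul, AddMonoidAlgebra.coeff_smul, Finsupp.smul_apply,
        Finsupp.smul_apply, hch.coeff a]
    · rw [AddMonoidAlgebra.coeff_smul] at hp
      exact hch.supp p (Finsupp.support_smul hp)
  · intro hf w
    have hgne : f'.coeff.support.Nonempty := by
      rw [Finsupp.support_nonempty_iff]
      intro h0
      exact hne hf (AddMonoidAlgebra.coeff_eq_zero.1 h0)
    unfold rmin
    rw [hsupp, ← sInf_add_image _ hgne, Finset.coe_map, Set.image_image]
    congr 1
    apply Set.image_congr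
    intro a _
    change pair w (φ a) = _
    rw [hφ, pair_add, pair_sum]
  · intro K _ _ _ _ x hx
    have hmon : ∀ a, mon x (φ a) = mon x p0 * mon (fun k => mon x (m k)) a := by
      intro a
      rw [hφ, mon_add x hx, mon_sum x hx]
    have hev : rev x f = mon x p0 * rev (fun k => mon x (m k)) f' := by
      unfold rev
      rw [← hg, Finsupp.sum_embDomain, Finsupp.mul_sum]
      refine Finsupp.sum_congr fun a _ => ?_
      rw [hmon]
      ring
    refine ⟨hev, fun d => ?_, fun j => ?_⟩
    · unfold revd
      rw [← hg, Finsupp.sum_embDomain, Finsupp.mul_sum]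
      refine Finsupp.sum_congr fun a _ => ?_
      rw [hmon]
      ring
    · rw [hev]
      unfold rgrad rev
      rw [← hg, Finsupp.sum_embDomain]
      unfold Finsupp.sum
      simp only [Finset.mul_sum]
      rw [Finset.sum_comm, ← Finset.sum_add_distrib]
      refine Finset.sum_congr rfl fun a _ => ?_
      rw [hmon, hφ]
      have h1 : (((p0 + ∑ k, a k • m k) j : ℤ) : K) =
          (p0 j : K) + ∑ k, (a k : K) * (m k j : K) := by
        simp [Finset.sum_apply]
      rw [h1, mul_add, add_mul, Finset.mul_sum, Finset.sum_mul]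
      refine congrArg₂ _ (by ring) (Finset.sum_congr rfl fun k _ => by ring)

end RMM
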