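import Pool.Agent.RMM.StR
import Pool.Agent.MMCI.R_EMB2

/-!
# MP_fa3f7f_ag, RMM: `F` and the monomials orthogonal to the circuit generate `K` (module RMM_REMB)
-/

set_option autoImplicit false

namespace RMM

open MldGeo MMCI

noncomputable section

open MMCI.R_EMB

namespace REMB

theorem map_rev {F K L : Type} [Field F] [Field K] [Field L] [Algebra F K] [Algebra F L] {n : ℕ}
    (φ : K →+* L) (hφ : ∀ c : F, φ (algebraMap F K c) = algebraMap F L c) (x : Fin n → K)
    (f : LR F n) : rev (fun k => φ (x k)) f = φ (rev x f) := by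
  unfold rev Finsupp.sum
  rw [map_sum]
  refine Finset.sum_congr rfl fun m _ => ?_
  show algebraMap F L (f.coeff m) * mon (fun k => φ (x k)) m =
    φ (algebraMap F K (f.coeff m) * mon x m)
  rw [map_mul, hφ, map_mon]

end REMB

open REMB

theorem t_REMB : M_REMB := by
  intro hUNI hTEX hFTH hHOM F K _ _ _ _ _ _ b e n r g f x ν c j0 ρ hS htrK hc hν hw hdet htr
  refine hFTH _ htrK htr ?_
  intro σ hσ
  set L := AlgebraicClosure K with hL
  let τ : K →+* L := algebraMap K L
  have hτ : ∀ c : ℂ, τ (algebraMap ℂ K c) = algebraMap ℂ L c := fun c =>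
    (IsScalarTower.algebraMap_apply ℂ K L c).symm
  have hτF : ∀ a : F, τ (algebraMap F K a) = algebraMap F L a := fun a =>
    (IsScalarTower.algebraMap_apply F K L a).symm
  have hσF : ∀ a : F, (σ : K →+* L) (algebraMap F K a) = algebraMap F L a := fun a => by
    have h1 : (σ : K →+* L) (algebraMap F K a) = τ (algebraMap F K a) :=
      hσ _ (IntermediateField.subset_adjoin ℂ _ (Or.inl ⟨a, rfl⟩))
    rw [h1, hτF]
  have hτ0 : ∀ z, z ≠ 0 → τ z ≠ 0 := fun z hz h => hz ((map_eq_zero τ).1 h)
  -- the quotients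
  let h : Fin n → L := fun k => (σ : K →+* L) (x k) / τ (x k)
  have hmon : ∀ m, mon h m = (σ : K →+* L) (mon x m) / τ (mon x m) := by
    intro m
    rw [← map_mon, ← map_mon]
    exact mon_div _ _ m
  have hne : ∀ k, h k ≠ 0 := fun k =>
    div_ne_zero (fun h' => hS.ne k ((map_eq_zero (σ : K →+* L)).1 h')) (hτ0 _ (hS.ne k))
  have htriv : ∀ m : Fin n → ℤ, (∀ j, pair (ν j) m = 0) → mon h m = 1 := by
    intro m hm
    rw [hmon]
    have h1 : (σ : K →+* L) (mon x m) = τ (mon x m) :=
      hσ _ (IntermediateField.subset_adjoin ℂ _ (Or.inr ⟨m, hm, rfl⟩))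
    rw [h1]
    exact div_self (hτ0 _ (mon_ne hS.ne m))
  obtain ⟨t, ht0, htj, htm⟩ := hTEX ν c j0 h hc hν hne htriv
  -- the polynomials
  choose P hP1 hP2 hP3 using fun i : Fin g => hHOM (f (ρ i)) x ν
  have hroot : ∀ i, MvPolynomial.aeval t (P i) = 0 := by
    intro i
    have h1 := hP3 i (L := L) h t ht0 htm
    have h2 : rev (fun k => algebraMap K L (x k) * h k) (f (ρ i)) = 0 := by
      have h3 : (fun k => algebraMap K L (x k) * h k) = fun k => (σ : K →+* L) (x k) := by
        funext k
        exact mul_div_cancel₀ _ (hτ0 _ (hS.ne k))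
      rw [h3, map_rev (σ : K →+* L) hσF, hS.zero, map_zero]
    rw [h2] at h1
    have h4 : (∏ j, t j ^ rmin (f (ρ i)) (ν j)) ≠ 0 :=
      Finset.prod_ne_zero_iff.2 fun j _ => zpow_ne_zero _ (ht0 j)
    exact (mul_eq_zero.1 h1.symm).resolve_left h4
  have hroot1 : ∀ i, MvPolynomial.aeval (fun _ => (1 : L)) (P i) = 0 := by
    intro i
    have h1 := hP3 i (L := L) (fun _ => 1) (fun _ => 1) (fun _ => one_ne_zero) (fun m => by
      rw [mon_one]
      exact (Finset.prod_eq_one fun j _ => one_zpow _).symm)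
    have h2 : rev (fun k => algebraMap K L (x k) * 1) (f (ρ i)) = 0 := by
      have h3 : (fun k => algebraMap K L (x k) * 1) = fun k => τ (x k) := by
        funext k
        exact mul_one _
      rw [h3, map_rev τ hτF, hS.zero, map_zero]
    rw [h2] at h1
    have h4 : (∏ j : Fin (g + 1), (1 : L) ^ rmin (f (ρ i)) (ν j)) ≠ 0 :=
      Finset.prod_ne_zero_iff.2 fun j _ => zpow_ne_zero _ one_ne_zero
    exact (mul_eq_zero.1 h1.symm).resolve_left h4
  have hae : ∀ (s : Fin (g + 1) → L) i, MvPolynomial.eval s (MvPolynomial.map τ (P i)) =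
      MvPolynomial.aeval s (P i) := by
    intro s i
    rw [MvPolynomial.eval_map]
    rfl
  have hone := hUNI c j0 (fun i => MvPolynomial.map τ (P i)) hc (by
    intro i d hd
    have h1 := hP1 i c hν d (MvPolynomial.support_map_subset τ (P i) hd)
    rw [hw i] at h1
    exact_mod_cast h1) (by
    have h1 : (Matrix.of fun i j : Fin g =>
        MvPolynomial.eval (fun _ => (1 : L)) (MvPolynomial.pderiv (j0.succAbove j)
          (MvPolynomial.map τ (P i)))) =
        τ.mapMatrix (Matrix.of fun i j : Fin g => rder x (f (ρ i)) (ν (j0.succAbove j))) := by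
      ext i j
      rw [RingHom.mapMatrix_apply, Matrix.map_apply, Matrix.of_apply, Matrix.of_apply,
        MvPolynomial.pderiv_map, eval_map_one, hP2, hS.zero, mul_zero, sub_zero]
    rw [h1, ← RingHom.map_det]
    exact hτ0 _ hdet) t htj (fun i => by
    rw [hae, hae, hroot, hroot1])
  -- all quotients are one
  have hx : ∀ k, σ (x k) = τ (x k) := by
    intro k
    have h1 := htm (Pi.single k 1)
    rw [mon_single, hone] at h1
    have h2 : (∏ j : Fin (g + 1), (1 : L) ^ pair (ν j) (Pi.single k 1)) = 1 :=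
      Finset.prod_eq_one fun j _ => one_zpow _
    rw [h2] at h1
    exact (div_eq_one_iff_eq (hτ0 _ (hS.ne k))).1 h1
  intro z
  have hz : z ∈ IntermediateField.adjoin F (Set.range x) := by
    rw [hS.gen]
    trivial
  refine IntermediateField.adjoin_induction (p := fun z _ => σ z = algebraMap K L z) F
    ?_ ?_ ?_ ?_ ?_ hz
  · rintro _ ⟨k, rfl⟩
    exact hx k
  · intro a
    have h1 : (σ : K →+* L) (algebraMap F K a) = algebraMap F L a := hσF a
    have h2 : σ (algebraMap F K a) = algebraMap F L a := h1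
    rw [h2]
    exact (hτF a).symm
  · intro a b _ _ h1 h2
    rw [map_add, map_add, h1, h2]
  · intro a _ h1
    rw [map_inv₀, map_inv₀, h1]
  · intro a b _ _ h1 h2
    rw [map_mul, map_mul, h1, h2]

end

end RMM
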