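import Pool.Agent.RMM.StR

/-!
# Module RFAA: the case of a nonempty Fine interior
-/

set_option autoImplicit false

namespace RMM

open MldGeo MMCI

namespace RFAA

/-- A system with a nonempty Fine interior has the combinatorial datum of the case (a). -/
theorem fan {n r : ℕ} (hfaa : S_FAA) (hrfn : S_RFN) (g : Fin r → Laurent n) (hg : ∀ i, g i ≠ 0)
    (hF : ¬ FineEmpty g) : Nonempty (FanA g) := by
  rcases Nat.eq_zero_or_pos n with hn | hn
  · subst hn
    exact hrfn g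
  · refine hfaa g hn hg ?_
    obtain ⟨m, hm⟩ := not_not.1 hF
    exact ⟨m, fun ν hν => hm ν hν⟩

end RFAA

theorem t_RFAA : M_RFAA := by
  intro hfaa hrfn hrsp hlog hmd hter hsem hnef F K _ _ _ _ _ _ b e n r B κ y0 β f x hpos hdim hB
    hS hF hN
  obtain ⟨ω, hω⟩ := hlog B κ y0 β f x hpos hdim hB hS
  obtain ⟨D⟩ := RFAA.fan hfaa hrfn (fun i => supp0 (f i)) (fun i => (hrsp (f i)).2.1 (hS.f_ne i))
    hF
  obtain ⟨Y, hY⟩ := hmd B x hS.ne hS.gen hdim hpos D.A D.nonempty D.full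
  exact ⟨Y, hter B κ b y0 β f x hpos hdim hS.ne hS.bpf hB D.toFan ω Y hω hY,
    hnef B κ b y0 β f x hpos hdim hS.ne hS.bpf hB hN D ω Y hω hY,
    fun hs => hsem B κ b y0 β f x hpos hdim hS.ne hS.bpf hB hs D ω Y hω hY⟩

end RMM
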