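import Pool.Agent.RMM.StR

/-!
# Relative minimal models: RFN, the trivial fan for `n = 0`.
-/

set_option autoImplicit false

namespace RMM

open MldGeo MMCI

noncomputable section

namespace RFN

/-- There are no primitive vectors for `n = 0`. -/
theorem not_prim (w : Fin 0 → ℤ) : ¬ Primitive w := by
  rintro ⟨m, hm⟩
  simp [pair] at hm

end RFN

theorem t_RFN : S_RFN := by
  intro r f
  refine ⟨{
    A := {0}
    nonempty := ⟨0, by simp⟩
    full := ?_
    k := 1
    k_pos := Nat.one_pos
    u := fun _ => 0
    disc := ?_
    cons := ?_
    ray := ?_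
    nonray := ?_
    nef := ?_ }⟩
  · intro a _
    exact ⟨fun l => l.elim0, fun l => l.elim0, linearIndependent_empty_type⟩
  · intro w a h
    exact absurd h (RFN.not_prim w)
  · intro w a a' _ _
    rfl
  · intro w a h
    exact absurd h (RFN.not_prim w)
  · intro w a h
    exact absurd h (RFN.not_prim w)
  · intro w a a' _ _
    exact le_refl _

end

end RMM
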