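import Pool.Agent.RMM.StR
import Pool.Agent.MMCI.R_GPL

/-!
# RGPL: Pluecker relations modulo the span of further vectors
-/

set_option autoImplicit false

namespace RMM

open MldGeo MMCI

noncomputable section

namespace RGPL

/-- the indices -/
def e1 (b r e : ℕ) : Fin b ⊕ (Fin r ⊕ Fin e) ≃ Fin r ⊕ Fin (b + e) :=
  (Equiv.sumAssoc (Fin b) (Fin r) (Fin e)).symm.trans
    (((Equiv.sumComm (Fin b) (Fin r)).sumCongr (Equiv.refl (Fin e))).trans
      ((Equiv.sumAssoc (Fin r) (Fin b) (Fin e)).trans
        ((Equiv.refl (Fin r)).sumCongr finSumFinEquiv)))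

theorem e1_b (b r e : ℕ) (l : Fin b) : e1 b r e (Sum.inl l) = Sum.inr (Fin.castAdd e l) := rfl

theorem e1_r (b r e : ℕ) (i : Fin r) : e1 b r e (Sum.inr (Sum.inl i)) = Sum.inl i := rfl

theorem e1_e (b r e : ℕ) (k : Fin e) :
    e1 b r e (Sum.inr (Sum.inr k)) = Sum.inr (Fin.natAdd b k) := rfl

/-- the extended equivalence -/
def sg {b r e n : ℕ} (σ : Fin r ⊕ Fin e ≃ Fin n) : Fin r ⊕ Fin (b + e) ≃ Fin (b + n) :=
  (e1 b r e).symm.trans (((Equiv.refl (Fin b)).sumCongr σ).trans finSumFinEquiv)

theorem sg_b {b r e n : ℕ} (σ : Fin r ⊕ Fin e ≃ Fin n) (l : Fin b) :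
    sg σ (e1 b r e (Sum.inl l)) = Fin.castAdd n l := by
  unfold sg
  rw [Equiv.trans_apply, Equiv.symm_apply_apply]
  rfl

theorem sg_n {b r e n : ℕ} (σ : Fin r ⊕ Fin e ≃ Fin n) (a : Fin r ⊕ Fin e) :
    sg σ (e1 b r e (Sum.inr a)) = Fin.natAdd b (σ a) := by
  unfold sg
  rw [Equiv.trans_apply, Equiv.symm_apply_apply]
  rfl

end RGPL

open RGPL in
theorem t_RGPL : S_RGPL := by
  classical
  intro b e n r K E _ _ _ w y G u hG σ hσ
  have hG' := fun i => (Submodule.mem_span_range_iff_exists_fun K).1 (hG i)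
  choose a ha using hG'
  set y' : Fin (b + n) → E := Fin.append w y with hy'
  set G' : Fin r → Fin (b + n) → K := fun i => Fin.append (fun l => - a i l) (G i) with hG'
  set u' : Fin (b + e) → Fin (b + n) → K :=
    Fin.append (fun l => Fin.append (fun l' => if l = l' then (1 : K) else 0) fun _ => 0)
      (fun k => Fin.append (fun _ => 0) (u k)) with hu'
  have h1 := t_GPL y' G' u' (by
    intro i
    rw [Fin.sum_univ_add]
    simp only [hG', hy', Fin.append_left, Fin.append_right, neg_smul, Finset.sum_neg_distrib]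
    rw [ha i, neg_add_cancel]) (sg σ) (by
    have h2 : (Matrix.of fun i j : Fin r => G' i (sg σ (Sum.inl j))) =
        Matrix.of fun i j : Fin r => G i (σ (Sum.inl j)) := by
      ext i j
      have h3 := sg_n (b := b) σ (Sum.inl j)
      rw [e1_r] at h3
      simp only [Matrix.of_apply, h3, hG', Fin.append_right]
    rw [h2]
    exact hσ)
  have h2 : (Matrix.of fun i j : Fin r => G' i (sg σ (Sum.inl j))) =
      Matrix.of fun i j : Fin r => G i (σ (Sum.inl j)) := by
    ext i j
    have h3 := sg_n (b := b) σ (Sum.inl j)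
    rw [e1_r] at h3
    simp only [Matrix.of_apply, h3, hG', Fin.append_right]
  have h3 : (fun l => ∑ j, u' l j • y' j) = Fin.append w fun l => ∑ j, u l j • y j := by
    funext l
    refine Fin.addCases (fun l => ?_) (fun k => ?_) l
    · rw [Fin.append_left, Fin.sum_univ_add]
      simp only [hu', hy', Fin.append_left, Fin.append_right, zero_smul, Finset.sum_const_zero,
        add_zero, ite_smul, one_smul]
      rw [Finset.sum_ite_eq, if_pos (Finset.mem_univ l)]
    · rw [Fin.append_right, Fin.sum_univ_add]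
      simp only [hu', hy', Fin.append_left, Fin.append_right, zero_smul, Finset.sum_const_zero,
        zero_add]
  have h4 : (fun l => y' (sg σ (Sum.inr l))) = Fin.append w fun l => y (σ (Sum.inr l)) := by
    funext l
    refine Fin.addCases (fun l => ?_) (fun k => ?_) l
    · have h5 := sg_b (b := b) σ l
      rw [e1_b] at h5
      rw [h5, hy', Fin.append_left, Fin.append_left]
    · have h5 := sg_n (b := b) σ (Sum.inr k)
      rw [e1_e] at h5
      rw [h5, hy', Fin.append_right, Fin.append_right]
  have h5 : (Matrix.of fun a c : Fin r ⊕ Fin (b + e) => Sum.elim G' u' a (sg σ c)).det =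
      (Matrix.of fun a c : Fin r ⊕ Fin e => Sum.elim G u a (σ c)).det := by
    rw [← Matrix.det_submatrix_equiv_self (e1 b r e)]
    have h6 : (Matrix.of fun a c : Fin r ⊕ Fin (b + e) => Sum.elim G' u' a (sg σ c)).submatrix
        (e1 b r e) (e1 b r e) = Matrix.fromBlocks 1 0
          (Matrix.of fun (a' : Fin r ⊕ Fin e) (l : Fin b) =>
            Sum.elim G' u' (e1 b r e (Sum.inr a')) (Fin.castAdd n l))
          (Matrix.of fun a c : Fin r ⊕ Fin e => Sum.elim G u a (σ c)) := by
      ext c d
      rcases c with l | c <;> rcases d with l' | d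
      · rw [Matrix.submatrix_apply, Matrix.of_apply, sg_b, e1_b, Matrix.fromBlocks_apply₁₁,
          Sum.elim_inr, hu', Fin.append_left, Fin.append_left, Matrix.one_apply]
      · rw [Matrix.submatrix_apply, Matrix.of_apply, sg_n, e1_b, Matrix.fromBlocks_apply₁₂,
          Sum.elim_inr, hu', Fin.append_left, Fin.append_right, Matrix.zero_apply]
      · rw [Matrix.submatrix_apply, Matrix.of_apply, sg_b, Matrix.fromBlocks_apply₂₁,
          Matrix.of_apply]
      · rw [Matrix.submatrix_apply, Matrix.of_apply, sg_n, Matrix.fromBlocks_apply₂₂,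
          Matrix.of_apply]
        rcases c with i | k
        · rw [e1_r, Sum.elim_inl, Sum.elim_inl]
          exact Fin.append_right _ _ _
        · rw [e1_e, Sum.elim_inr, Sum.elim_inr, hu', Fin.append_right, Fin.append_right]
    rw [h6, Matrix.det_fromBlocks_zero₁₂, Matrix.det_one, one_mul]
  rw [h2, h3, h4, h5] at h1
  exact h1

end

end RMM
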