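import Pool.Agent.RMM.StR
import Pool.Agent.MldGeo.Ord

/-!
# Relative minimal models, module RGRO: the orders of the gradients
-/

set_option autoImplicit false

namespace RMM

open MldGeo MMCI

noncomputable section

namespace RGRO

variable {F K : Type} [Field F] [Field K] [Algebra ℂ K] {e' n : ℕ}

theorem ord_mon (x : Fin n → K) (v : DivVal e' K) (hx : ∀ j, x j ≠ 0) (m : Fin n → ℤ) :
    mon x m ≠ 0 ∧ v.ord (mon x m) = pair (wt x v) m := by
  constructor
  · exact Finset.prod_ne_zero_iff.2 fun j _ => zpow_ne_zero _ (hx j)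
  · rw [mon, DivVal.ord_prod v _ _ fun j _ => zpow_ne_zero _ (hx j), pair]
    refine Finset.sum_congr rfl fun j _ => ?_
    rw [DivVal.ord_zpow, wt, mul_comm]

theorem rmin_le (f : LR F n) (ν : Fin n → ℤ) (m : Fin n → ℤ) (hm : m ∈ f.coeff.support) :
    rmin f ν ≤ pair ν m := by
  refine csInf_le ?_ ⟨m, hm, rfl⟩
  exact (f.coeff.support.finite_toSet.image _).bddBelow

theorem cmin_le [Algebra F K] (f : LR F n) (v : DivVal e' K) (m : Fin n → ℤ) (hm : m ∈ f.coeff.support) :
    cmin v (coefs f) ≤ v.ord (algebraMap F K (f.coeff m)) := by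
  refine csInf_le ?_ ⟨f.coeff m, ⟨m, hm, rfl⟩, rfl⟩
  exact ((f.coeff.support.finite_toSet.image _).image _).bddBelow

theorem ge_mon (x : Fin n → K) (v : DivVal e' K) (hx : ∀ j, x j ≠ 0) (f : LR F n)
    (m : Fin n → ℤ) (hm : m ∈ f.coeff.support) : v.Ge (rmin f (wt x v)) (mon x m) :=
  DivVal.Ge.of_le (by
    rw [(ord_mon x v hx m).2]
    exact rmin_le f (wt x v) m hm)

theorem ge_of_inO [Algebra ℂ F] [Algebra F K] (B : ProjModel F) (v : DivVal e' K) {a : F} (h : InO B v a) :
    v.Ge 0 (algebraMap F K a) := by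
  obtain ⟨j, hj, p, hp, q, _, hq0, hqo, he⟩ := h
  have hq : algebraMap F K q ≠ 0 := by
    rw [Ne, map_eq_zero]
    exact hq0
  have h1 : algebraMap F K a = algebraMap F K p / algebraMap F K q := by
    rw [eq_div_iff hq, ← map_mul, he]
  have h2 := (hj p hp).div (algebraMap F K q)
  rw [hqo, sub_zero] at h2
  rwa [h1]

end RGRO

theorem t_RGRO : S_RGRO := by
  intro F K _ _ _ _ _ _ b e' n x hx
  refine ⟨?_, ?_, ?_⟩
  · intro f u ν hu
    have h1 : (u • f).coeff.support = f.coeff.support := by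
      rw [AddMonoidAlgebra.coeff_smul]
      exact Finsupp.support_smul_eq hu
    rw [rmin, rmin, h1]
  · intro B v y d g hy hd hg c
    refine Fin.addCases (fun l => ?_) (fun j => ?_) c
    · rw [gr, Fin.append_left]
      refine (RGRO.ge_of_inO B v (hy l)).mul_left ?_
      rw [revd, Finsupp.sum]
      refine DivVal.Ge.sum _ _ fun m hm => ?_
      exact (RGRO.ge_of_inO B v (hd l m).2).mul_left (RGRO.ge_mon x v hx g m hm)
    · rw [gr, Fin.append_right, rgrad, Finsupp.sum]
      refine DivVal.Ge.sum _ _ fun m hm => ?_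
      exact ((RGRO.ge_of_inO B v (hg m)).mul_left (DivVal.Ge.intCast v _)).mul_left
        (RGRO.ge_mon x v hx g m hm)
  · intro f v
    have h1 : ∀ j, v.Ge (cmin v (coefs f) + rmin f (wt x v)) (rgrad x f j) := by
      intro j
      rw [rgrad, Finsupp.sum]
      refine DivVal.Ge.sum _ _ fun m hm => ?_
      have h2 : v.Ge (cmin v (coefs f)) (algebraMap F K (f.coeff m)) :=
        DivVal.Ge.of_le (RGRO.cmin_le f v m hm)
      exact (h2.mul_right (DivVal.Ge.intCast v _)).mul (RGRO.ge_mon x v hx f m hm)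
    refine ⟨h1, fun ν => ?_⟩
    rw [rder]
    exact DivVal.Ge.sum _ _ fun k _ => (DivVal.Ge.intCast v _).mul_left (h1 k)

end

end RMM
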