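import Pool.Agent.RMM.StR

/-!
# Module RHM
-/

set_option autoImplicit false

namespace RMM

open MldGeo MMCI

namespace RHM

open MvPolynomial

noncomputable section

variable {F K : Type} [Field F] [Field K] [Algebra F K] {n g : ℕ}

lemma rmin_le (f : LR F n) (ν m : Fin n → ℤ) (hm : m ∈ f.coeff.support) :
    rmin f ν ≤ pair ν m := by
  unfold rmin
  apply csInf_le
  · exact (Set.Finite.image _ (Finset.finite_toSet _)).bddBelow
  · exact ⟨m, hm, rfl⟩

/-- the exponent of `p` -/
def be (f : LR F n) (ν : Fin (g + 1) → (Fin n → ℤ)) (p : Fin n → ℤ) : Fin (g + 1) →₀ ℕ :=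
  Finsupp.equivFunOnFinite.symm fun j => (pair (ν j) p - rmin f (ν j)).toNat

lemma be_cast (f : LR F n) (ν : Fin (g + 1) → (Fin n → ℤ)) (p : Fin n → ℤ)
    (hp : p ∈ f.coeff.support) (j : Fin (g + 1)) :
    ((be f ν p j : ℕ) : ℤ) = pair (ν j) p - rmin f (ν j) := by
  show (((pair (ν j) p - rmin f (ν j)).toNat : ℕ) : ℤ) = _
  exact Int.toNat_of_nonneg (sub_nonneg.2 (rmin_le f (ν j) p hp))

/-- the polynomial -/
def poly (f : LR F n) (x : Fin n → K) (ν : Fin (g + 1) → (Fin n → ℤ)) :
    MvPolynomial (Fin (g + 1)) K :=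
  ∑ p ∈ f.coeff.support, monomial (be f ν p) (algebraMap F K (f.coeff p) * mon x p)

lemma rev_eq (x : Fin n → K) (f : LR F n) :
    rev x f = ∑ p ∈ f.coeff.support, algebraMap F K (f.coeff p) * mon x p := rfl

lemma rgrad_eq (x : Fin n → K) (f : LR F n) (j : Fin n) :
    rgrad x f j = ∑ p ∈ f.coeff.support, algebraMap F K (f.coeff p) * (p j : K) * mon x p := rfl

lemma rder_eq [Algebra ℂ F] [Algebra ℂ K] [IsScalarTower ℂ F K] (x : Fin n → K) (f : LR F n)
    (ν : Fin n → ℤ) : rder x f ν =
      ∑ p ∈ f.coeff.support, algebraMap F K (f.coeff p) * mon x p * ((pair ν p : ℤ) : K) := by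
  unfold rder
  simp only [rgrad_eq, Finset.mul_sum]
  rw [Finset.sum_comm]
  apply Finset.sum_congr rfl
  intro p _
  unfold pair
  rw [Int.cast_sum, Finset.mul_sum]
  apply Finset.sum_congr rfl
  intro k _
  rw [Int.cast_mul]
  ring

end

end RHM

open RHM MvPolynomial in
theorem t_RHM : S_RHM := by
  classical
  intro F K _ _ _ _ _ _ n g f x ν
  refine ⟨poly f x ν, ?_, ?_, ?_⟩
  · intro c hc d hd
    unfold poly at hd
    have h1 := support_sum hd
    rw [Finset.mem_biUnion] at h1
    obtain ⟨p, hp, hd2⟩ := h1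
    have h3 : d = be f ν p := Finset.mem_singleton.1 (support_monomial_subset hd2)
    subst h3
    rw [Nat.cast_sum]
    have h4 : ∀ l, ((be f ν p l * c l : ℕ) : ℤ) = (c l : ℤ) * pair (ν l) p -
        (c l : ℤ) * rmin f (ν l) := by
      intro l
      rw [Nat.cast_mul, be_cast f ν p hp l]
      ring
    rw [Finset.sum_congr rfl fun l _ => h4 l, Finset.sum_sub_distrib]
    have h5 : ∑ l, (c l : ℤ) * pair (ν l) p = 0 := by
      unfold pair
      simp only [Finset.mul_sum]
      rw [Finset.sum_comm]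
      apply Finset.sum_eq_zero
      intro k _
      have h6 := congrFun hc k
      rw [Finset.sum_apply] at h6
      have h7 : ∑ l, (c l : ℤ) * (ν l k * p k) = (∑ l, ((c l : ℤ) • ν l) k) * p k := by
        rw [Finset.sum_mul]
        apply Finset.sum_congr rfl
        intro l _
        rw [Pi.smul_apply, smul_eq_mul]
        ring
      rw [h7, h6, Pi.zero_apply, zero_mul]
    rw [h5, zero_sub]
  · intro j
    unfold poly
    rw [map_sum, map_sum, rder_eq, rev_eq, Finset.mul_sum, ← Finset.sum_sub_distrib]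
    apply Finset.sum_congr rfl
    intro p hp
    rw [pderiv_monomial, eval_monomial]
    have h1 : (((be f ν p j : ℕ) : ℤ) : K) = ((pair (ν j) p - rmin f (ν j) : ℤ) : K) := by
      rw [be_cast f ν p hp j]
    rw [Int.cast_natCast, Int.cast_sub] at h1
    simp only [one_pow, Finsupp.prod, Finset.prod_const_one, mul_one]
    rw [h1]
    ring
  · intro L _ _ _ _ h t ht hm
    unfold poly
    rw [rev_eq, map_sum, Finset.mul_sum]
    apply Finset.sum_congr rfl
    intro p hp
    rw [aeval_monomial, Finsupp.prod_fintype _ _ (fun i => pow_zero _), map_mul,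
      ← IsScalarTower.algebraMap_apply]
    have h1 : mon (fun k => algebraMap K L (x k) * h k) p = algebraMap K L (mon x p) * mon h p := by
      unfold mon
      rw [map_prod, ← Finset.prod_mul_distrib]
      apply Finset.prod_congr rfl
      intro k _
      rw [mul_zpow, map_zpow₀]
    rw [h1, hm p]
    have h2 : ∏ j, t j ^ pair (ν j) p = (∏ j, t j ^ rmin f (ν j)) * ∏ j, t j ^ (be f ν p j) := by
      rw [← Finset.prod_mul_distrib]
      apply Finset.prod_congr rfl
      intro j _
      rw [← zpow_natCast (t j) (be f ν p j), be_cast f ν p hp j, ← zpow_add₀ (ht j)]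
      congr 1
      ring
    rw [h2]
    ring

end RMM
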