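import Pool.Agent.RMM.StR
import Pool.Agent.MMCI.R_KER
import Pool.Agent.MldGeo.TBAS

/-!
# RKER: a vector orthogonal to the gradients and to sufficiently many exponents is zero
-/

set_option autoImplicit false

namespace RMM

open MldGeo MMCI

noncomputable section

namespace RKER

variable {F K : Type} [Field F] [Field K] [Algebra ℂ F] [Algebra ℂ K] [Algebra F K]
  [IsScalarTower ℂ F K] {b n : ℕ}

/-- A transcendence basis indexed by `Fin b`. -/
theorem exists_basis (hF : Algebra.trdeg ℂ F = (b : Cardinal)) :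
    ∃ t : Fin b → F, AlgebraicIndependent ℂ t := by
  obtain ⟨s, hs⟩ := exists_isTranscendenceBasis ℂ F
  have hcard : Cardinal.mk s = Cardinal.mk (Fin b) := by
    rw [hs.cardinalMk_eq_trdeg, hF, Cardinal.mk_fin]
  obtain ⟨φ⟩ := Cardinal.eq.1 hcard
  exact ⟨fun l => (φ.symm l : F), hs.1.comp φ.symm φ.symm.injective⟩

/-- The span of the differentials of the elements of `F`. -/
def W (F K : Type) [Field F] [Field K] [Algebra ℂ F] [Algebra ℂ K] [Algebra F K] :
    Submodule K (Ω[K⁄ℂ]) :=
  Submodule.span K (Set.range fun a : F => KaehlerDifferential.D ℂ K (algebraMap F K a))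

omit [IsScalarTower ℂ F K] in
theorem D_mem_W (a : F) : KaehlerDifferential.D ℂ K (algebraMap F K a) ∈ W F K :=
  Submodule.subset_span ⟨a, rfl⟩

theorem finrank_W [FiniteDimensional K (Ω[K⁄ℂ])] (hF : Algebra.trdeg ℂ F = (b : Cardinal)) :
    Module.finrank K (W F K) ≤ b := by
  obtain ⟨t, ht⟩ := exists_basis hF
  obtain ⟨-, hsp⟩ := t_TBAS hF t ht
  have hle : W F K ≤ Submodule.span K
      (Set.range fun l : Fin b => KaehlerDifferential.D ℂ K (algebraMap F K (t l))) := by
    refine Submodule.span_le.2 ?_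
    rintro _ ⟨a, rfl⟩
    have ha : KaehlerDifferential.D ℂ F a ∈
        Submodule.span F (Set.range fun i => KaehlerDifferential.D ℂ F (t i)) := by
      rw [hsp]
      exact Submodule.mem_top
    obtain ⟨c, hc⟩ := (Submodule.mem_span_range_iff_exists_fun F).1 ha
    have h := congrArg (KaehlerDifferential.map ℂ ℂ F K) hc
    rw [map_sum, KaehlerDifferential.map_D] at h
    change KaehlerDifferential.D ℂ K (algebraMap F K a) ∈ _
    rw [← h]
    refine Submodule.sum_mem _ fun l _ => ?_
    rw [map_smul, KaehlerDifferential.map_D, ← algebraMap_smul K (c l)]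
    exact Submodule.smul_mem _ _ (Submodule.subset_span ⟨l, rfl⟩)
  calc Module.finrank K (W F K) ≤ Module.finrank K (Submodule.span K
      (Set.range fun l : Fin b => KaehlerDifferential.D ℂ K (algebraMap F K (t l)))) :=
        Submodule.finrank_mono hle
    _ ≤ Fintype.card (Fin b) := finrank_range_le_card _
    _ = b := Fintype.card_fin b

omit [IsScalarTower ℂ F K] in
/-- The relation between the `dlog x_j` modulo the differentials of the elements of `F`. -/
theorem rel_mem {x : Fin n → K} (hx : ∀ j, x j ≠ 0) (f : LR F n) (h0 : rev x f = 0) :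
    ∑ j, rgrad x f j • dlog (x j) ∈ W F K := by
  have h1 : ∀ m ∈ f.coeff.support,
      KaehlerDifferential.D ℂ K (algebraMap F K (f.coeff m) * mon x m) =
      mon x m • KaehlerDifferential.D ℂ K (algebraMap F K (f.coeff m)) +
      ∑ j, (algebraMap F K (f.coeff m) * (m j : K) * mon x m) • dlog (x j) := by
    intro m _
    rw [Derivation.leibniz, add_comm]
    congr 1
    rw [R_KER.D_eq (R_KER.mon_ne hx m), R_KER.dlog_mon hx, smul_smul, Finset.smul_sum]
    refine Finset.sum_congr rfl fun j _ => ?_
    rw [smul_smul]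
    congr 1
    ring
  have h2 := congrArg (KaehlerDifferential.D ℂ K) h0
  rw [map_zero] at h2
  unfold rev Finsupp.sum at h2
  rw [map_sum, Finset.sum_congr rfl h1, Finset.sum_add_distrib] at h2
  have h3 : ∑ j, rgrad x f j • dlog (x j) =
      ∑ m ∈ f.coeff.support,
        ∑ j, (algebraMap F K (f.coeff m) * (m j : K) * mon x m) • dlog (x j) := by
    rw [Finset.sum_comm]
    unfold rgrad Finsupp.sum
    exact Finset.sum_congr rfl fun j _ => Finset.sum_smul
  rw [h3, eq_neg_of_add_eq_zero_right h2]
  exact Submodule.neg_mem _ (Submodule.sum_mem _ fun m _ => Submodule.smul_mem _ _ (D_mem_W _))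

end RKER

open RKER in
theorem t_RKER : S_RKER := by
  intro F K _ _ _ _ _ _ b e n r f x hS hF hK M hM y hy1 hy2
  classical
  obtain ⟨z, hzM, hz⟩ := R_KER.exists_indep (e := b + e) _ hM
  obtain ⟨hli, hsp⟩ := t_TBAS hK z hz
  have hx := hS.ne
  let B := Module.Basis.mk hli hsp.ge
  have hfin : FiniteDimensional K (Ω[K⁄ℂ]) := Module.Finite.of_basis B
  have hrank : Module.finrank K (Ω[K⁄ℂ]) = b + e := by
    rw [Module.finrank_eq_card_basis B, Fintype.card_fin]
  have hW : Module.finrank K (W F K) ≤ b := finrank_W hF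
  have hQ := Submodule.finrank_quotient_add_finrank (W F K)
  let Φ : (Fin n → K) →ₗ[K] Ω[K⁄ℂ] := Fintype.linearCombination K fun j => dlog (x j)
  have hΦ : ∀ a, Φ a = ∑ j, a j • dlog (x j) := fun a => by
    simp [Φ, Fintype.linearCombination_apply]
  let Ψ : (Fin n → K) →ₗ[K] (Ω[K⁄ℂ] ⧸ W F K) := (W F K).mkQ ∘ₗ Φ
  let Y : (Fin n → K) →ₗ[K] K := Fintype.linearCombination K y
  have hY : ∀ a, Y a = ∑ j, a j * y j := fun a => by
    simp [Y, Fintype.linearCombination_apply]
  let N : Submodule K (Fin n → K) := LinearMap.ker Y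
  have hmap : Submodule.map Ψ N = ⊤ := by
    rw [eq_top_iff, ← (W F K).range_mkQ, LinearMap.range_eq_map, ← hsp, Submodule.map_span,
      Submodule.span_le]
    rintro _ ⟨_, ⟨l, rfl⟩, rfl⟩
    rcases hzM l with ⟨a, ha⟩ | ⟨m, hm, hzl⟩
    · have h0 : (W F K).mkQ (KaehlerDifferential.D ℂ K (z l)) = 0 := by
        rw [Submodule.mkQ_apply, Submodule.Quotient.mk_eq_zero, ← ha]
        exact D_mem_W a
      change (W F K).mkQ (KaehlerDifferential.D ℂ K (z l)) ∈ Submodule.map Ψ N
      rw [h0]
      exact Submodule.zero_mem _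
    · refine ⟨mon x m • fun j => (m j : K), ?_, ?_⟩
      · refine Submodule.smul_mem _ _ ?_
        change Y _ = 0
        rw [hY, ← hy2 m hm]
        exact Finset.sum_congr rfl fun j _ => mul_comm _ _
      · change (W F K).mkQ (Φ _) = (W F K).mkQ (KaehlerDifferential.D ℂ K (z l))
        congr 1
        rw [map_smul, hΦ, hzl, R_KER.D_eq (R_KER.mon_ne hx m), R_KER.dlog_mon hx]
  have hrange : LinearMap.range Ψ = ⊤ := by
    rw [eq_top_iff, ← hmap, LinearMap.range_eq_map]
    exact Submodule.map_mono le_top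
  have hker := LinearMap.finrank_range_add_finrank_ker Ψ
  rw [hrange, finrank_top, Module.finrank_fin_fun] at hker
  have hgle : Submodule.span K (Set.range fun i => rgrad x (f i)) ≤ LinearMap.ker Ψ := by
    rw [Submodule.span_le]
    rintro _ ⟨i, rfl⟩
    change (W F K).mkQ (Φ _) = 0
    rw [Submodule.mkQ_apply, Submodule.Quotient.mk_eq_zero, hΦ]
    exact rel_mem hx (f i) (hS.zero i)
  have hgr : Module.finrank K (Submodule.span K (Set.range fun i => rgrad x (f i))) = r := by
    rw [finrank_span_eq_card hS.rank, Fintype.card_fin]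
  have hge : Submodule.span K (Set.range fun i => rgrad x (f i)) = LinearMap.ker Ψ := by
    apply Submodule.eq_of_le_of_finrank_le hgle
    have := hS.dim_eq
    omega
  have hgN : LinearMap.ker Ψ ≤ N := by
    rw [← hge, Submodule.span_le]
    rintro _ ⟨i, rfl⟩
    change Y _ = 0
    rw [hY, ← hy1 i]
    exact Finset.sum_congr rfl fun j _ => mul_comm _ _
  have hN : N = ⊤ := by
    have h := Submodule.comap_map_eq Ψ N
    rw [hmap, Submodule.comap_top, sup_eq_left.2 hgN] at h
    exact h.symm
  funext j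
  have h8 : Y (Pi.single j 1) = 0 := by
    have : (Pi.single j 1 : Fin n → K) ∈ N := by
      rw [hN]
      exact Submodule.mem_top
    exact this
  rw [hY] at h8
  rw [Pi.zero_apply, ← h8, Finset.sum_eq_single j]
  · rw [Pi.single_eq_same, one_mul]
  · intro k _ hk
    rw [Pi.single_eq_of_ne hk, zero_mul]
  · intro h
    exact absurd (Finset.mem_univ j) h

end

end RMM
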