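import Pool.Agent.RMM.StR

/-!
# Relative minimal models: the assembly by induction on the number of variables
-/

set_option autoImplicit false

namespace RMM

open MldGeo MMCI

noncomputable section

namespace RMAIN

/-- the combinatorial datum, also for `n = 0` -/
theorem fan (hFAN : S_FAN) (hRFN : S_RFN) {n r : ℕ} (f : Fin r → Laurent n)
    (hf : ∀ i, f i ≠ 0) : Nonempty (FanA f) ∨ Nonempty (FanB f) := by
  rcases Nat.eq_zero_or_pos n with h | h
  · subst h
    exact Or.inl (hRFN f)
  · exact hFAN f h hf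

theorem adj_map {F : Type} [Field F] [Algebra ℂ F] {b r r' : ℕ} (C : Fin r → Set F)
    (C' : Fin r' → Set F) (ρ : Fin r' → Fin r) (hρ : Function.Injective ρ)
    (h : ∀ i, C' i = C (ρ i)) (I : Finset (Fin r')) :
    adj (b := b) C' I = adj (b := b) C (I.map ⟨ρ, hρ⟩) := by
  funext v
  unfold adj
  rw [Finset.sum_map]
  congr 1
  refine Finset.sum_congr rfl fun i _ => ?_
  rw [h i]
  rfl

end RMAIN

/-- RMAIN. -/
theorem t_RMAIN : M_RMAIN := by
  intro hFAN hRFN hRSP hLOG hMOD hTER hSEM hNEF hFIB hRED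
  intro F K _ _ _ _ _ _ b e n r B κ y0 β f x hpos hdim hB
  have key : ∀ (N : ℕ) {n r : ℕ} (f : Fin r → LR F n) (x : Fin n → K), n = N →
      RSys B e κ y0 β f x →
      (∀ I : Finset (Fin r), NefD B (adj (b := b) (fun i => coefs (f i)) I)) →
      MMR (b + e) K (∀ I : Finset (Fin r), SemD B (adj (b := b) (fun i => coefs (f i)) I)) := by
    intro N
    induction N using Nat.strong_induction_on with
    | _ N ih =>
      intro n r f x hN hS hNf
      obtain ⟨ω, hω⟩ := hLOG B κ y0 β f x hpos hdim hB hS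
      have hf0 : ∀ i, supp0 (f i) ≠ 0 := fun i => (hRSP (f i)).2.1 (hS.f_ne i)
      rcases RMAIN.fan hFAN hRFN (fun i => supp0 (f i)) hf0 with ⟨⟨D⟩⟩ | ⟨⟨D⟩⟩
      · obtain ⟨Y, hY⟩ := hMOD B x hS.ne hS.gen hdim hpos D.A D.nonempty D.full
        refine ⟨Y, hTER B κ b y0 β f x hpos hdim hS.ne hS.bpf hB D.toFan ω Y hω hY, Or.inl ⟨?_, ?_⟩⟩
        · exact hNEF B κ b y0 β f x hpos hdim hS.ne hS.bpf hB (hNf _) D ω Y hω hY
        · intro hs
          exact hSEM B κ b y0 β f x hpos hdim hS.ne hS.bpf hB (hs _) D ω Y hω hY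
      · have hle : Algebra.trdeg ℂ (Fb (F := F) x D.A D.b) ≤ ((b + e : ℕ) : Cardinal) := by
          rw [← hdim]
          exact trdeg_le_of_injective (IntermediateField.val _) (RingHom.injective _)
        rcases hle.lt_or_eq with hlt | heq
        · obtain ⟨Y, hY⟩ := hMOD B x hS.ne hS.gen hdim hpos D.A D.nonempty D.full
          exact ⟨Y, hTER B κ b y0 β f x hpos hdim hS.ne hS.bpf hB D.toFan ω Y hω hY,
            Or.inr (hFIB B κ b y0 β f x hpos hdim hS.ne hS.bpf hB D ω Y hω hY hlt)⟩
        · obtain ⟨n', r', f', x', ρ, h1, hρ, h2, h3⟩ := hRED B κ y0 β f x hpos hdim hB hS D heq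
          have hadj : ∀ I : Finset (Fin r'), adj (b := b) (fun i => coefs (f' i)) I =
              adj (b := b) (fun i => coefs (f i)) (I.map ⟨ρ, hρ⟩) := fun I =>
            RMAIN.adj_map (fun i => coefs (f i)) (fun i => coefs (f' i)) ρ hρ h3 I
          obtain ⟨Y, k1, k2⟩ := ih n' (by omega) f' x' rfl h2 (fun I => by
            rw [hadj]
            exact hNf _)
          refine ⟨Y, k1, ?_⟩
          rcases k2 with ⟨k3, k4⟩ | k3
          · exact Or.inl ⟨k3, fun hs => k4 fun I => by
              rw [hadj]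
              exact hs _⟩
          · exact Or.inr k3
  intro hS hNf
  exact key n f x rfl hS hNf

end

end RMM
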