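import Pool.Agent.RMM.StR

/-!
# Module RMD: the projective model exists
-/

set_option autoImplicit false

namespace RMM

open MldGeo MMCI

theorem t_RMD : M_RMD := by
  intro hMOD hRXG hRAH F K _ _ _ _ _ _ e' n B x hx hgen htr he A hA hfull
  obtain ⟨h1, h2⟩ := hRXG B x hx hgen
  obtain ⟨h3, h4⟩ := hRAH B.N A hA hfull
  exact hMOD (xh B x) h1 h2 htr he (Ah B.N A) h3 h4

end RMM
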