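import Pool.Agent.RMM.StR
import Pool.Agent.MMCI.R_NEW2
import Pool.Agent.MMCI.Tools
import Pool.Agent.MldGeo.Ord

/-!
# RNEW: the new system after the change of variables, over the base `B`
-/

set_option autoImplicit false
set_option linter.unusedSectionVars false

namespace RMM

open MldGeo MMCI

noncomputable section

namespace RNEW

/-- reindexing of a sum along the equivalence of the indices -/
theorem sum_split {g r' r : ℕ} (τ : Fin g ⊕ Fin r' ≃ Fin r) (h : Fin r → ℤ) :
    ∑ i, h i = ∑ i, h (τ (Sum.inl i)) + ∑ i, h (τ (Sum.inr i)) := by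
  rw [← Equiv.sum_comp τ h, Fintype.sum_sum_type]

/-- weights of the monomials -/
theorem pair_comb {n n' : ℕ} (w : Fin n → ℤ) (m : Fin n' → (Fin n → ℤ)) (q : Fin n' → ℤ) :
    pair w (∑ k, q k • m k) = pair (fun k => pair w (m k)) q := by
  unfold pair
  have h1 : ∀ i, w i * (∑ k, q k • m k) i = ∑ k, w i * m k i * q k := by
    intro i
    rw [Finset.sum_apply, Finset.mul_sum]
    refine Finset.sum_congr rfl fun k _ => ?_
    rw [Pi.smul_apply, smul_eq_mul]
    ring
  rw [Finset.sum_congr rfl fun i _ => h1 i, Finset.sum_comm]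
  refine Finset.sum_congr rfl fun k _ => ?_
  rw [Finset.sum_mul]

end RNEW

open R_NEW R_NEW2 RNEW in
theorem t_RNEW : M_RNEW := by
  intro hRCHE hRCHV hRGRO hRRG hRNL hROMG hRNF F K _ _ _ _ _ _ b e n r g n' r' B κ y0 β f x τ m ν p
    hpos hdim hbd hS hm hν hpair hng hn' hgen hq hdet
  have hx : ∀ j, x j ≠ 0 := hS.ne
  obtain ⟨ρ, hρdef⟩ : ∃ ρ : Fin r' → Fin r, ρ = fun i => τ (Sum.inr i) := ⟨_, rfl⟩
  have hρi : ∀ i, ρ i = τ (Sum.inr i) := fun i => by rw [hρdef]
  have hρ : Function.Injective ρ := by
    intro i j h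
    rw [hρi, hρi] at h
    exact Sum.inr_injective (τ.injective h)
  have h1 : ∀ i, ∃ f' : LR F n', IsCh m (p i) (f (ρ i)) f' := by
    intro i
    refine hRCHE m (f (ρ i)) (p i) hm ?_
    rw [hρi]
    exact hq i
  choose f' hch using h1
  have hV : ∀ i, (f' i ≠ 0) ∧ coefs (f' i) = coefs (f (ρ i)) ∧
      ∀ w, rmin (f (ρ i)) w = pair w (p i) + rmin (f' i) fun k => pair w (m k) := by
    intro i
    obtain ⟨a1, a2, -, a3, -⟩ := hRCHV m (f (ρ i)) (p i) (f' i) hm (hch i)
    exact ⟨a1 (hS.f_ne _), a2, a3 (hS.f_ne _)⟩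
  have hreg : RReg e f' fun k => mon x (m k) :=
    hRRG f x ρ m p f' hS.toRReg hm hn' hρ hch hgen
  refine ⟨f', { toRReg := hreg, bpf := fun i => ?_, nd := fun v => ?_ }, fun i => ?_⟩
  · rw [(hV i).2.1]
    exact hS.bpf _
  · have hw : wt (fun k => mon x (m k)) v = fun k => pair (wt x v) (m k) := by
      funext k
      exact ord_mon v hx (m k)
    rcases hS.nd v with hloc | ⟨hbig, hom⟩
    · left
      exact hRNL B κ y0 β f x v ρ m p f' hS.toRReg hm hn' hρ hch hloc
    · right
      constructor
      · rintro ⟨c, q', h3, h4⟩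
        refine hbig ⟨c, fun l => ∑ k, q' l k • m k, fun l => ?_, ?_⟩
        · obtain ⟨k1, k2, k3, k4⟩ := h3 l
          refine ⟨k1, k2, k3, ?_⟩
          rw [hw] at k4
          rw [pair_comb]
          exact k4
        · have h5 : (fun l => algebraMap F K (c l) * mon x (∑ k, q' l k • m k)) =
              fun l => algebraMap F K (c l) * mon (fun k => mon x (m k)) (q' l) := by
            funext l
            rw [mon_mon hx]
          rw [h5]
          exact h4
      · intro ω' hω'
        obtain ⟨ω, hω⟩ := hROMG y0 f x hbd.dimF hbd.y0_ne hbd.y0_ind hS.toRReg hdim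
        obtain ⟨c, hc, h5⟩ := hRNF y0 f x τ m ν p f' hbd.dimF hbd.y0_ne hbd.y0_ind hS.toRReg hm hν
          hpair hng (fun i => by
            have := hch i
            rwa [hρi] at this) hreg hdet ω ω' hω hω'
        obtain ⟨Bd, hBd⟩ : ∃ Bd : K, Bd = (Matrix.of fun i j : Fin g =>
          rder x (f (τ (Sum.inl i))) (ν j)).det := ⟨_, rfl⟩
        rw [← hBd] at h5 hdet
        obtain ⟨χ, hχ⟩ : ∃ χ : K, χ = ∏ i, mon x (p i) := ⟨_, rfl⟩
        rw [← hχ] at h5
        have hχ0 : χ ≠ 0 := by
          rw [hχ]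
          exact Finset.prod_ne_zero_iff.2 fun i _ => mon_ne hx _
        have hc0 : algebraMap ℂ K c ≠ 0 := by simpa using hc
        have hg0 : algebraMap ℂ K c * χ * Bd ≠ 0 := mul_ne_zero (mul_ne_zero hc0 hχ0) hdet
        have hordχ : v.ord χ = ∑ i, pair (wt x v) (p i) := by
          rw [hχ, ord_prod v _ _ fun i => mon_ne hx _]
          exact Finset.sum_congr rfl fun i _ => ord_mon v hx _
        have hord : v.ord (algebraMap ℂ K c * χ * Bd) =
            ∑ i, pair (wt x v) (p i) + v.ord Bd := by
          rw [v.ord_mul _ _ (mul_ne_zero hc0 hχ0) hdet, v.ord_mul _ _ hc0 hχ0, v.ord_const,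
            hordχ, zero_add]
        have hBge : ∑ i : Fin g, (cmin v (coefs (f (τ (Sum.inl i)))) +
            rmin (f (τ (Sum.inl i))) (wt x v)) ≤ v.ord Bd := by
          have h6 : v.Ge (∑ i : Fin g, (cmin v (coefs (f (τ (Sum.inl i)))) +
              rmin (f (τ (Sum.inl i))) (wt x v))) Bd := by
            rw [hBd, ← Matrix.det_transpose]
            refine DivVal.Ge.det_cols (v := v) (fun i : Fin g =>
              cmin v (coefs (f (τ (Sum.inl i)))) + rmin (f (τ (Sum.inl i))) (wt x v))
              fun i j => ?_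
            rw [Matrix.transpose_apply, Matrix.of_apply]
            exact ((hRGRO (b := b) x hx).2.2 (f (τ (Sum.inl j))) v).2 (ν i)
          exact h6.le hdet
        have h7 := hom ω hω
        have hL : v.logOrd ω' = ∑ i, pair (wt x v) (p i) + v.ord Bd + v.logOrd ω := by
          rw [h5, cFSM hdim v _ ω hpos hg0 hω.1, hord]
        -- the sums
        have s1 : rpsi f (wt x v) = ∑ i : Fin g, rmin (f (τ (Sum.inl i))) (wt x v) +
            (∑ i, pair (wt x v) (p i) + rpsi f' (wt (fun k => mon x (m k)) v)) := by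
          unfold rpsi
          rw [sum_split τ fun i => rmin (f i) (wt x v), ← Finset.sum_add_distrib, hw]
          congr 1
          refine Finset.sum_congr rfl fun i _ => ?_
          rw [← hρi]
          exact (hV i).2.2 _
        have s2 : bo κ β (fun i => coefs (f' i)) v = bo κ β (fun i => coefs (f i)) v +
            κ * ∑ i : Fin g, cmin v (coefs (f (τ (Sum.inl i)))) := by
          unfold bo
          rw [sum_split τ fun i => cmin v (coefs (f i))]
          have h8 : ∑ i, cmin v (coefs (f' i)) = ∑ i, cmin v (coefs (f (τ (Sum.inr i)))) := by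
            refine Finset.sum_congr rfl fun i _ => ?_
            rw [(hV i).2.1, hρi]
          rw [h8]
          ring
        rw [Finset.sum_add_distrib] at hBge
        rw [hL, s2]
        rw [s1] at h7
        have hκ : (0 : ℤ) ≤ (κ : ℤ) := Int.natCast_nonneg κ
        have h9 := mul_le_mul_of_nonneg_left hBge hκ
        rw [mul_add] at h9
        rw [mul_add, mul_add] at h7 ⊢
        linarith
  · rw [(hV i).2.1, hρi]

end

end RMM
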