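import Pool.Agent.RMM.StR
import Pool.Agent.MMCI.R_NEW2
import Pool.Agent.MMCI.Tools

/-!
# RNF: the residue forms of the old and of the new system
-/

set_option autoImplicit false

namespace RMM

open MldGeo MMCI

noncomputable section

namespace RNF

theorem sign_cast {K : Type} [Field K] [Algebra ℂ K] {ε : K} (h : ε = 1 ∨ ε = -1) :
    ∃ c : ℂ, c ≠ 0 ∧ algebraMap ℂ K c = ε := by
  rcases h with h | h
  · exact ⟨1, one_ne_zero, by rw [h, map_one]⟩
  · exact ⟨-1, neg_ne_zero.2 one_ne_zero, by rw [h, map_neg, map_one]⟩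

/-- the form of the functions `zz` -/
theorem dlogs_zz {F K : Type} [Field F] [Field K] [Algebra ℂ F] [Algebra ℂ K] [Algebra F K]
    {b e : ℕ} (y0 : Fin b → F) (z : Fin e → K) :
    dlogs (zz y0 z) = exteriorPower.ιMulti K (b + e)
      (Fin.append (fun l => dlog (algebraMap F K (y0 l))) fun l => dlog (z l)) := by
  unfold dlogs zz
  congr 1
  funext c
  refine Fin.addCases (fun l => ?_) (fun l => ?_) c
  · rw [Fin.append_left, Fin.append_left]
  · rw [Fin.append_right, Fin.append_right]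

end RNF

open RNF in
theorem t_RNF : M_RNF := by
  intro hSEL hMON hRWD hRCHV hRGPL hDTC F K _ _ _ _ _ _ b e n r g n' r' y0 f x τ m ν p f' hb hy0 hy
    hR hm hν hpair hng hCh hR' hdet ω ω' hω hω'
  have hx : ∀ j, x j ≠ 0 := hR.ne
  obtain ⟨σ, hσ⟩ := R_NEW2.exists_minor hSEL hR.dim_eq _ hR.rank
  obtain ⟨σ', hσ'⟩ := R_NEW2.exists_minor hSEL hR'.dim_eq _ hR'.rank
  obtain ⟨ε, hε, h5⟩ := hω.2 σ hσ
  obtain ⟨ε', hε', h6⟩ := hω'.2 σ' hσ'
  obtain ⟨hmon, -, hdl, -, -⟩ := hMON (e := e) x hx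
  obtain ⟨-, hW⟩ := hRWD (K := K) y0 hb hy0 hy
  have hg : ∀ i j, rgrad x (f (τ (Sum.inr i))) j =
      mon x (p i) * ∑ k, (m k j : K) * rgrad (fun k => mon x (m k)) (f' i) k := by
    intro i j
    obtain ⟨-, -, -, -, h⟩ := hRCHV m (f (τ (Sum.inr i))) (p i) (f' i) hm (hCh i)
    obtain ⟨-, -, h1⟩ := h x hx
    rw [h1 j, hR.zero, mul_zero, zero_add]
  have h7 := hRGPL (fun l => dlog (algebraMap F K (y0 l))) (fun j => dlog (x j))
    (fun i => rgrad x (f i)) (fun l j => (m (σ' (Sum.inr l)) j : K))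
    (fun i => hW (f i) x hx (hR.zero i)) σ hσ
  have h8 : dlogs (zz y0 (rest (fun k => mon x (m k)) σ')) =
      exteriorPower.ιMulti K (b + e) (Fin.append (fun l => dlog (algebraMap F K (y0 l)))
        fun l => ∑ j, (m (σ' (Sum.inr l)) j : K) • dlog (x j)) := by
    rw [dlogs_zz]
    congr 2
    funext l
    exact hdl _
  have h8' : dlogs (zz y0 (rest x σ)) =
      exteriorPower.ιMulti K (b + e) (Fin.append (fun l => dlog (algebraMap F K (y0 l)))
        fun l => dlog (x (σ (Sum.inr l)))) := by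
    rw [dlogs_zz]
    rfl
  obtain ⟨κ, hκ, h9⟩ := hDTC (fun i => rgrad x (f i)) τ m ν
    (fun i => rgrad (fun k => mon x (m k)) (f' i)) (fun i => mon x (p i)) σ σ' hm hν hpair hng hg
  rw [← h8, ← h8', h9] at h7
  obtain ⟨c1, hc1, hc1'⟩ := sign_cast (K := K) hε
  obtain ⟨c2, hc2, hc2'⟩ := sign_cast (K := K) hε'
  have hM : rminor f x σ ≠ 0 := hσ
  have hM' : rminor f' (fun k => mon x (m k)) σ' ≠ 0 := hσ'
  set D : K := (Matrix.of fun i j : Fin g => rder x (f (τ (Sum.inl i))) (ν j)).det with hD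
  set χ : K := ∏ i, mon x (p i) with hχ
  have h10 : rminor f x σ • dlogs (zz y0 (rest (fun k => mon x (m k)) σ')) =
      (algebraMap ℂ K κ * χ * rminor f' (fun k => mon x (m k)) σ' * D) •
        dlogs (zz y0 (rest x σ)) := h7
  have h11 : dlogs (zz y0 (rest (fun k => mon x (m k)) σ')) =
      (ε'⁻¹ * rminor f' (fun k => mon x (m k)) σ') • ω' := by
    rw [mul_smul, h6, smul_smul, inv_mul_cancel₀ (R_NEW2.sign_ne hε'), one_smul]
  have h12 : dlogs (zz y0 (rest x σ)) = (ε⁻¹ * rminor f x σ) • ω := by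
    rw [mul_smul, h5, smul_smul, inv_mul_cancel₀ (R_NEW2.sign_ne hε), one_smul]
  rw [h11, h12, smul_smul, smul_smul] at h10
  set M : K := rminor f x σ with hMdef
  set M' : K := rminor f' (fun k => mon x (m k)) σ' with hMdef'
  refine ⟨c2 * c1⁻¹ * κ, mul_ne_zero (mul_ne_zero hc2 (inv_ne_zero hc1)) hκ, ?_⟩
  rw [map_mul, map_mul, map_inv₀, hc1', hc2']
  have h14 : (M * (ε'⁻¹ * M')) ≠ 0 :=
    mul_ne_zero hM (mul_ne_zero (inv_ne_zero (R_NEW2.sign_ne hε')) hM')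
  have h15 : (M * (ε'⁻¹ * M'))⁻¹ • (M * (ε'⁻¹ * M')) • ω' =
      (M * (ε'⁻¹ * M'))⁻¹ • (algebraMap ℂ K κ * χ * M' * D * (ε⁻¹ * M)) • ω := by
    rw [h10]
  rw [smul_smul, inv_mul_cancel₀ h14, one_smul, smul_smul] at h15
  rw [h15]
  congr 1
  have := R_NEW2.sign_ne hε'
  have := R_NEW2.sign_ne hε
  field_simp

end

end RMM
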