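import Pool.Agent.RMM.StR
import Pool.Agent.MMCI.R_NEW
import Pool.Agent.MldGeo.Ord

/-!
# RNL: the local data of the new system
-/

set_option autoImplicit false

namespace RMM

open MldGeo MMCI

noncomputable section

namespace RNL

variable {F K : Type} [Field F] [Field K] [Algebra ℂ F] [Algebra ℂ K] [Algebra F K]
  [IsScalarTower ℂ F K] {b e n r n' r' : ℕ}

omit [Algebra ℂ F] [Algebra ℂ K] [IsScalarTower ℂ F K] in
theorem rev_smul (x : Fin n → K) (u : F) (f : LR F n) :
    rev x (u • f) = algebraMap F K u * rev x f := by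
  have h : (u • f).coeff = u • f.coeff := rfl
  unfold rev
  rw [h, Finsupp.sum_smul_index (fun i => by rw [map_zero, zero_mul]), Finsupp.mul_sum]
  refine Finsupp.sum_congr fun m _ => ?_
  rw [map_mul, mul_assoc]

end RNL

open RNL in
theorem t_RNL : M_RNL := by
  intro hCHV hGRO hND1 hND2 F K _ _ _ _ _ _ b e n r n' r' B κ y0 β f x v ρ m p f' hR hm hn' hρ hCh
    hL
  obtain ⟨L⟩ := hL
  have hx : ∀ j, x j ≠ 0 := hR.ne
  have hx' : ∀ k, mon x (m k) ≠ 0 := fun k => R_NEW.mon_ne hx _
  have hw : wt (fun k => mon x (m k)) v = fun k => pair (wt x v) (m k) := by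
    funext k
    exact R_NEW.ord_mon v hx (m k)
  -- coefficients
  have hco : ∀ i a, (L.u (ρ i))⁻¹ * (f' i).coeff a ∈ L.A := by
    intro i a
    rw [(hCh i).coeff]
    exact L.u_coef _ _
  have hco1 : ∀ (u : F) (g : LR F n) a, (u • g).coeff a = u * g.coeff a := fun _ _ _ => rfl
  have hco2 : ∀ (u : F) (g : LR F n') a, (u • g).coeff a = u * g.coeff a := fun _ _ _ => rfl
  -- the gradients
  let G : Fin r → Fin (b + n) → K := fun i => gr L.y L.d ((L.u i)⁻¹ • f i) x
  let G' : Fin r' → Fin (b + n') → K :=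
    fun i => gr L.y L.d ((L.u (ρ i))⁻¹ • f' i) (fun k => mon x (m k))
  have hch : ∀ i, IsCh m (p i) ((L.u (ρ i))⁻¹ • f (ρ i)) ((L.u (ρ i))⁻¹ • f' i) := fun i =>
    (hCHV m (f (ρ i)) (p i) (f' i) hm (hCh i)).2.2.1 _
  have hz : ∀ i, rev x ((L.u (ρ i))⁻¹ • f (ρ i)) = 0 := by
    intro i
    rw [rev_smul, hR.zero, mul_zero]
  have hGl : ∀ i l, G (ρ i) (Fin.castAdd n l) = mon x (p i) * G' i (Fin.castAdd n' l) := by
    intro i l
    have h := ((hCHV m _ (p i) _ hm (hch i)).2.2.2.2 x hx).2.1 (L.d l)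
    simp only [G, G', gr, Fin.append_left]
    rw [h]
    ring
  have hGr : ∀ i j, G (ρ i) (Fin.natAdd b j) =
      mon x (p i) * ∑ k, (m k j : K) * G' i (Fin.natAdd b k) := by
    intro i j
    have h := ((hCHV m _ (p i) _ hm (hch i)).2.2.2.2 x hx).2.2 j
    simp only [G, G', gr, Fin.append_right]
    rw [h, hz, mul_zero, zero_add]
  have hlow : ∀ i c, v.Ge (rmin (f i) (wt x v)) (G i c) := by
    intro i c
    have hg := hGRO (F := F) (b := b) (e' := b + e) x hx
    have h := hg.2.1 B v L.y L.d ((L.u i)⁻¹ • f i) (fun l => (L.memA _).1 (L.y_mem l))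
      (fun l q => ⟨(L.memA _).1 (by rw [hco1]; exact L.u_coef i q),
        (L.memA _).1 (L.dA l _ (by rw [hco1]; exact L.u_coef i q))⟩)
      (fun q => (L.memA _).1 (by rw [hco1]; exact L.u_coef i q)) c
    rwa [hg.1 _ _ _ (inv_ne_zero (L.u_ne i))] at h
  have hlow' : ∀ i c, v.Ge (rmin (f' i) (wt (fun k => mon x (m k)) v)) (G' i c) := by
    intro i c
    have hg := hGRO (F := F) (b := b) (e' := b + e) (fun k => mon x (m k)) hx'
    have h := hg.2.1 B v L.y L.d ((L.u (ρ i))⁻¹ • f' i) (fun l => (L.memA _).1 (L.y_mem l))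
      (fun l q => ⟨(L.memA _).1 (by rw [hco2]; exact hco i q),
        (L.memA _).1 (L.dA l _ (by rw [hco2]; exact hco i q))⟩)
      (fun q => (L.memA _).1 (by rw [hco2]; exact hco i q)) c
    rwa [hg.1 _ _ _ (inv_ne_zero (L.u_ne (ρ i)))] at h
  have hG : Good v G fun i => rmin (f i) (wt x v) :=
    hND1 v G (fun i => rmin (f i) (wt x v)) (fun j => L.σ (Sum.inl j)) hlow L.det_ne L.det_ord
  have hG' : Good v G' fun i => rmin (f' i) (wt (fun k => mon x (m k)) v) := by
    intro y N hy i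
    have h5 := hG (Function.extend ρ (fun i => y i * (mon x (p i))⁻¹) 0) N (by
      intro c
      have h6 : ∑ i, Function.extend ρ (fun i => y i * (mon x (p i))⁻¹) 0 i * G i c =
          ∑ i, (y i * (mon x (p i))⁻¹) * G (ρ i) c := by
        symm
        refine Fintype.sum_of_injective ρ hρ _ _ ?_ ?_
        · intro i hi
          rw [Function.extend_apply' _ _ _ (by simpa using hi)]
          simp
        · intro i
          rw [hρ.extend_apply]
      rw [h6]
      refine Fin.addCases (fun l => ?_) (fun j => ?_) c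
      · have h7 : ∀ i, (y i * (mon x (p i))⁻¹) * G (ρ i) (Fin.castAdd n l) =
            y i * G' i (Fin.castAdd n' l) := by
          intro i
          rw [hGl, mul_assoc, inv_mul_cancel_left₀ (R_NEW.mon_ne hx _)]
        rw [Finset.sum_congr rfl fun i _ => h7 i]
        exact hy _
      · have h7 : ∀ i, (y i * (mon x (p i))⁻¹) * G (ρ i) (Fin.natAdd b j) =
            ∑ k, (m k j : K) * (y i * G' i (Fin.natAdd b k)) := by
          intro i
          rw [hGr, mul_assoc, inv_mul_cancel_left₀ (R_NEW.mon_ne hx _), Finset.mul_sum]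
          refine Finset.sum_congr rfl fun k _ => ?_
          ring
        rw [Finset.sum_congr rfl fun i _ => h7 i, Finset.sum_comm]
        refine R_NEW.ge_sum v _ _ fun k _ => ?_
        rw [← Finset.mul_sum]
        have h8 := R_NEW.ge_mul v (R_NEW.ge_int v (m k j)) (hy (Fin.natAdd b k))
        rwa [zero_add] at h8) (ρ i)
    rw [hρ.extend_apply] at h5
    have h8 : v.Ge (pair (wt x v) (p i)) (mon x (p i)) := Or.inr (R_NEW.ord_mon v hx (p i)).ge
    have h9 := R_NEW.ge_mul v h5 h8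
    rw [inv_mul_cancel_right₀ (R_NEW.mon_ne hx _)] at h9
    have h10 : N - rmin (f (ρ i)) (wt x v) + pair (wt x v) (p i) =
        N - rmin (f' i) (wt (fun k => mon x (m k)) v) := by
      rw [(hCHV m (f (ρ i)) (p i) (f' i) hm (hCh i)).2.2.2.1 (hR.f_ne _), hw]
      ring
    rwa [h10] at h9
  obtain ⟨s, hs, hs1, hs2⟩ := hND2 v G' (fun i => rmin (f' i) (wt (fun k => mon x (m k)) v))
    hlow' hG'
  obtain ⟨τ, hτ⟩ := R_NEW.exists_equiv (n' := b + n') (r' := r') (e := b + e)
    (by rw [hn']; omega) s hs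
  exact ⟨{
    A := L.A
    memA := L.memA
    y := L.y
    y_mem := L.y_mem
    y_ne := L.y_ne
    y_ord := L.y_ord
    d := L.d
    dA := L.dA
    dual := L.dual
    h := L.h
    h_ne := L.h_ne
    h_eq := L.h_eq
    h_ord := L.h_ord
    u := fun i => L.u (ρ i)
    u_ne := fun i => L.u_ne (ρ i)
    u_coef := hco
    u_ord := fun i => by
      rw [(hCHV m (f (ρ i)) (p i) (f' i) hm (hCh i)).2.1]
      exact L.u_ord (ρ i)
    σ := τ
    det_ne := by
      simp only [hτ]
      exact hs1
    det_ord := by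
      simp only [hτ]
      exact hs2 }⟩

end

end RMM
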