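import Pool.Agent.RMM.StR
import Pool.Agent.RMM.ABAS
import Pool.Agent.RMM.SIG
import Pool.Agent.RMM.DUL
import Pool.Agent.RMM.REV
import Pool.Agent.RMM.LOMG
import Pool.Agent.MMCI.K_PLU

/-!
# Relative minimal models: ROMG, the residue form exists
-/

set_option autoImplicit false

namespace RMM

open MldGeo MMCI

theorem t_ROMG : M_ROMG := by
  intro _ _ _ F K _ _ _ _ _ _ b e n r y0 f x hbF hy hy0 hR hK
  exact t_LOMG t_REV t_ABAS t_PLU t_SIG t_DUL y0 f x hbF hy hy0 hK hR

end RMM
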