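import Pool.Agent.RMM.StR

/-!
# Relative minimal models, module RRG: the new system is regular
-/

set_option autoImplicit false

namespace RMM

open MldGeo MMCI

noncomputable section

namespace RRG

theorem mon_ne {n : ℕ} {K : Type} [Field K] {x : Fin n → K} (hx : ∀ j, x j ≠ 0)
    (p : Fin n → ℤ) : mon x p ≠ 0 :=
  Finset.prod_ne_zero_iff.2 fun i _ => zpow_ne_zero _ (hx i)

end RRG

open RRG in
/-- RRG: the new system is regular. -/
theorem t_RRG : M_RRG := by
  intro hCHV F K _ _ _ _ _ _ e n r n' r' f x ρ m p f' hS hm hn' hρ hch hgen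
  have hx : ∀ j, x j ≠ 0 := hS.ne
  have hall := fun i => hCHV m (f (ρ i)) (p i) (f' i) hm (hch i)
  have hv : ∀ i, rev x (f (ρ i)) = mon x (p i) * rev (fun k => mon x (m k)) (f' i) :=
    fun i => ((hall i).2.2.2.2 x hx).1
  have hg : ∀ i j, rgrad x (f (ρ i)) j =
      mon x (p i) * ∑ k, (m k j : K) * rgrad (fun k => mon x (m k)) (f' i) k := by
    intro i j
    rw [((hall i).2.2.2.2 x hx).2.2 j, hS.zero, mul_zero, zero_add]
  refine ⟨hn', fun i => (hall i).1 (hS.f_ne _), fun k => mon_ne hx _, hgen, fun i => ?_, ?_⟩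
  · have h := hv i
    rw [hS.zero] at h
    exact (mul_eq_zero.1 h.symm).resolve_left (mon_ne hx _)
  · rw [Fintype.linearIndependent_iff]
    intro c hc i
    have hc' : ∀ k, ∑ i, c i * rgrad (fun k => mon x (m k)) (f' i) k = 0 := by
      intro k
      have h := congrFun hc k
      rw [Finset.sum_apply] at h
      exact h
    have h2 : ∀ j, ∑ i, (c i * (mon x (p i))⁻¹) * rgrad x (f (ρ i)) j = 0 := by
      intro j
      have h3 : ∀ i, (c i * (mon x (p i))⁻¹) * rgrad x (f (ρ i)) j =
          ∑ k, (m k j : K) * (c i * rgrad (fun k => mon x (m k)) (f' i) k) := by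
        intro i
        rw [hg i j, mul_assoc, inv_mul_cancel_left₀ (mon_ne hx _), Finset.mul_sum]
        exact Finset.sum_congr rfl fun k _ => by ring
      rw [Finset.sum_congr rfl fun i _ => h3 i, Finset.sum_comm]
      refine Finset.sum_eq_zero fun k _ => ?_
      rw [← Finset.mul_sum, hc' k, mul_zero]
    have h4 := (hS.rank.comp ρ hρ)
    rw [Fintype.linearIndependent_iff] at h4
    have h5 := h4 (fun i => c i * (mon x (p i))⁻¹) (by
      funext j
      rw [Finset.sum_apply]
      exact h2 j) i
    exact (mul_eq_zero.1 h5).resolve_right (inv_ne_zero (mon_ne hx _))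

end

end RMM
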