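import Pool.Agent.RMM.StR
import Pool.Agent.MldGeo.TBAS
import Pool.Agent.MMCI.R_KER

/-!
# RWD: differentials of the elements of the function field of the base
-/

set_option autoImplicit false

namespace RMM

open MldGeo MMCI

noncomputable section

namespace RWD

/-- A transcendence basis indexed by `Fin b`. -/
theorem exists_tb {F : Type} [Field F] [Algebra ℂ F] {b : ℕ}
    (h : Algebra.trdeg ℂ F = (b : Cardinal)) : ∃ z : Fin b → F, AlgebraicIndependent ℂ z := by
  obtain ⟨s, hs⟩ := exists_isTranscendenceBasis ℂ F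
  have hcard : Cardinal.mk s = Cardinal.mk (Fin b) := by
    rw [hs.cardinalMk_eq_trdeg, h, Cardinal.mk_fin]
  obtain ⟨φ⟩ := Cardinal.eq.1 hcard
  exact ⟨fun l => ((φ.symm l : s) : F), hs.1.comp φ.symm φ.symm.injective⟩

/-- The logarithmic differentials span. -/
theorem span_dlog {F : Type} [Field F] [Algebra ℂ F] {b : ℕ} (y0 : Fin b → F)
    (h : Algebra.trdeg ℂ F = (b : Cardinal)) (hy : dlogs y0 ≠ 0) :
    Submodule.span F (Set.range fun l => dlog (y0 l)) = ⊤ := by
  obtain ⟨z, hz⟩ := exists_tb h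
  obtain ⟨B, -⟩ := TBAS.main h z hz
  have hli : LinearIndependent F fun l => dlog (y0 l) := by
    by_contra hn
    exact hy (AlternatingMap.map_linearDependent _ _ hn)
  have _ : Module.Finite F (Ω[F⁄ℂ]) := Module.Finite.of_basis B
  refine hli.span_eq_top_of_card_eq_finrank' ?_
  rw [Module.finrank_eq_card_basis B]

section

variable {F K : Type} [Field F] [Field K] [Algebra ℂ F] [Algebra ℂ K] [Algebra F K]
  [IsScalarTower ℂ F K]

theorem map_dlog (a : F) :
    KaehlerDifferential.map ℂ ℂ F K (dlog a) = dlog (algebraMap F K a) := by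
  unfold dlog
  rw [map_smul, KaehlerDifferential.map_D, ← map_inv₀, algebraMap_smul]

theorem map_mem {b : ℕ} (y0 : Fin b → F) (w : Ω[F⁄ℂ])
    (hw : w ∈ Submodule.span F (Set.range fun l => dlog (y0 l))) :
    KaehlerDifferential.map ℂ ℂ F K w ∈ Wy K y0 := by
  induction hw using Submodule.span_induction with
  | mem x hx =>
    obtain ⟨l, rfl⟩ := hx
    beta_reduce
    rw [map_dlog]
    exact Submodule.subset_span ⟨l, rfl⟩
  | zero =>
    rw [map_zero]
    exact Submodule.zero_mem _
  | add x y _ _ hx hy =>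
    rw [map_add]
    exact Submodule.add_mem _ hx hy
  | smul c x _ hx =>
    rw [map_smul, ← algebraMap_smul K c]
    exact Submodule.smul_mem _ _ hx

theorem D_mem {b : ℕ} (y0 : Fin b → F) (h : Algebra.trdeg ℂ F = (b : Cardinal))
    (hy : dlogs y0 ≠ 0) (a : F) : KaehlerDifferential.D ℂ K (algebraMap F K a) ∈ Wy K y0 := by
  rw [← KaehlerDifferential.map_D ℂ ℂ F K a]
  refine map_mem y0 _ ?_
  rw [span_dlog y0 h hy]
  exact Submodule.mem_top

omit [Algebra ℂ F] [IsScalarTower ℂ F K] in
theorem D_rev {n : ℕ} {x : Fin n → K} (hx : ∀ j, x j ≠ 0) (f : LR F n) :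
    KaehlerDifferential.D ℂ K (rev x f) =
      ∑ m ∈ f.coeff.support, mon x m • KaehlerDifferential.D ℂ K (algebraMap F K (f.coeff m)) +
      ∑ j, rgrad x f j • dlog (x j) := by
  have h1 : ∀ m ∈ f.coeff.support,
      KaehlerDifferential.D ℂ K (algebraMap F K (f.coeff m) * mon x m) =
      mon x m • KaehlerDifferential.D ℂ K (algebraMap F K (f.coeff m)) +
      ∑ j, (algebraMap F K (f.coeff m) * (m j : K) * mon x m) • dlog (x j) := by
    intro m _
    rw [Derivation.leibniz, add_comm, R_KER.D_eq (R_KER.mon_ne hx m), R_KER.dlog_mon hx,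
      smul_smul, Finset.smul_sum]
    congr 1
    refine Finset.sum_congr rfl fun j _ => ?_
    rw [smul_smul]
    congr 1
    ring
  unfold rev rgrad Finsupp.sum
  rw [map_sum, Finset.sum_congr rfl h1, Finset.sum_add_distrib, Finset.sum_comm]
  congr 1
  exact Finset.sum_congr rfl fun j _ => (Finset.sum_smul).symm

end

end RWD

theorem t_RWD : S_RWD := by
  intro F K _ _ _ _ _ _ b n y0 htr _ hy
  refine ⟨RWD.D_mem y0 htr hy, fun f x hx h0 => ?_⟩
  have h1 := RWD.D_rev hx f
  rw [h0, map_zero] at h1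
  have h2 : ∑ j, rgrad x f j • dlog (x j) =
      -∑ m ∈ f.coeff.support, mon x m • KaehlerDifferential.D ℂ K (algebraMap F K (f.coeff m)) :=
    (neg_eq_of_add_eq_zero_right h1.symm).symm
  rw [h2]
  exact Submodule.neg_mem _ (Submodule.sum_mem _ fun m _ =>
    Submodule.smul_mem _ _ (RWD.D_mem y0 htr hy _))

end

end RMM
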