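import Pool.Agent.RMM.StR

/-!
# Relative minimal models: the functions `xh` generate `K` (`S_RXG`)
-/

namespace RMM

open MldGeo MMCI

namespace RXG

variable {F K : Type} [Field F] [Field K] [Algebra ℂ F] [Algebra ℂ K] [Algebra F K]
  {n : ℕ}

theorem xh_left (B : ProjModel F) (x : Fin n → K) (l : Fin B.N) :
    xh B x (Fin.castAdd n l) = algebraMap F K (B.s l.succ / B.s 0) := Fin.append_left _ _ l

theorem xh_right (B : ProjModel F) (x : Fin n → K) (j : Fin n) :
    xh B x (Fin.natAdd B.N j) = x j := Fin.append_right _ _ j

end RXG

open RXG in
/-- RXG: the functions `xh` generate `K`. -/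
theorem t_RXG : S_RXG := by
  intro F K _ _ _ _ _ _ n B x hx hgen
  constructor
  · intro j
    refine Fin.addCases (fun l => ?_) (fun l => ?_) j
    · rw [xh_left]
      exact (map_ne_zero _).2 (div_ne_zero (B.ne _) (B.ne _))
    · rw [xh_right]
      exact hx l
  · have hE : ∀ j, xh B x j ∈ IntermediateField.adjoin ℂ (Set.range (xh B x)) := fun j =>
      IntermediateField.subset_adjoin _ _ ⟨j, rfl⟩
    -- the image of `F`
    have hF : ∀ c : F, algebraMap F K c ∈ IntermediateField.adjoin ℂ (Set.range (xh B x)) := by
      intro c
      have h1 : IntermediateField.adjoin ℂ (Set.range fun j => B.s j / B.s 0) ≤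
          (IntermediateField.adjoin ℂ (Set.range (xh B x))).comap
            (IsScalarTower.toAlgHom ℂ F K) := by
        rw [IntermediateField.adjoin_le_iff]
        rintro _ ⟨j, rfl⟩
        change algebraMap F K (B.s j / B.s 0) ∈ IntermediateField.adjoin ℂ (Set.range (xh B x))
        refine Fin.cases ?_ (fun l => ?_) j
        · rw [div_self (B.ne 0), map_one]
          exact one_mem _
        · rw [← xh_left B x l]
          exact hE _
      have h2 : c ∈ IntermediateField.adjoin ℂ (Set.range fun j => B.s j / B.s 0) := by
        rw [B.gen]
        exact IntermediateField.mem_top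
      exact h1 h2
    let E' : IntermediateField F K :=
      (IntermediateField.adjoin ℂ (Set.range (xh B x))).toSubfield.toIntermediateField hF
    have h3 : IntermediateField.adjoin F (Set.range x) ≤ E' := by
      rw [IntermediateField.adjoin_le_iff]
      rintro _ ⟨j, rfl⟩
      change x j ∈ IntermediateField.adjoin ℂ (Set.range (xh B x))
      rw [← xh_right B x j]
      exact hE _
    rw [eq_top_iff]
    intro z _
    have h4 : z ∈ IntermediateField.adjoin F (Set.range x) := by
      rw [hgen]
      exact IntermediateField.mem_top
    exact h3 h4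

end RMM
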