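import Pool.Agent.RMM.RSP
import Pool.Agent.RMM.RFN
import Pool.Agent.RMM.RXG
import Pool.Agent.RMM.RAH
import Pool.Agent.RMM.RMD
import Pool.Agent.RMM.RWD
import Pool.Agent.RMM.RKER
import Pool.Agent.RMM.RWG
import Pool.Agent.RMM.RHM
import Pool.Agent.RMM.REMB
import Pool.Agent.RMM.RCHE
import Pool.Agent.RMM.RCHV
import Pool.Agent.RMM.RGRO
import Pool.Agent.RMM.RNL
import Pool.Agent.RMM.RRG
import Pool.Agent.RMM.RGPL
import Pool.Agent.RMM.RRL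
import Pool.Agent.RMM.ROMG
import Pool.Agent.RMM.RNF
import Pool.Agent.RMM.RNEW
import Pool.Agent.RMM.RRED
import Pool.Agent.RMM.RMAIN
import Pool.Agent.RMM.RFAA
import Pool.Agent.MMCI.FinalT2

/-!
# Relative minimal models: assembly of the blocks RED and MAIN
-/

set_option autoImplicit false

namespace RMM

open MldGeo MMCI

theorem S_RMD_holds : S_RMD := t_RMD S_MOD_holds t_RXG t_RAH

theorem S_RRL_holds : S_RRL := t_RRL t_RWD

theorem S_ROMG_holds : S_ROMG := t_ROMG t_SEL S_RRL_holds t_RGPL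

theorem S_RNEW_holds : S_RNEW :=
  t_RNEW t_RCHE t_RCHV t_RGRO (t_RRG t_RCHV) (t_RNL t_RCHV t_RGRO t_ND1 (t_ND2 t_SEL)) S_ROMG_holds
    (t_RNF t_SEL t_MON t_RWD t_RCHV t_RGPL (t_DTC t_INK))

/-- RRED, unconditional. -/
theorem S_RRED_holds : S_RRED :=
  t_RRED t_RSP t_RKER t_INK (t_CMB t_SEL) t_RWG (t_REMB (t_UNI t_BLK) t_TEX t_FTH t_RHM) t_LAT
    S_RNEW_holds

/-- RMAIN, from the blocks C, D, E. -/
theorem t_RMAIN' (hLOG : S_RLOG) (hTER : S_RTER) (hSEM : S_RSEM) (hNEF : S_RNEF)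
    (hFIB : S_RFIB) : S_RMAIN :=
  t_RMAIN S_FAN_holds t_RFN t_RSP hLOG S_RMD_holds hTER hSEM hNEF hFIB S_RRED_holds

/-- RFAA, from the blocks C, D, E. -/
theorem t_RFAA' (hLOG : S_RLOG) (hTER : S_RTER) (hSEM : S_RSEM) (hNEF : S_RNEF) : S_RFAA :=
  t_RFAA S_FAA_holds t_RFN t_RSP hLOG S_RMD_holds hTER hSEM hNEF

end RMM
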