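import Pool.Agent.RMM.StS
import Pool.Agent.MMCI.K_BAS

/-!
# DLB: dual derivations
-/

set_option autoImplicit false

namespace RMM

open MldGeo MMCI

namespace DLB

variable {F : Type} [Field F] [Algebra ℂ F] {b : ℕ}

/-- The differentials of the `y l` are a basis. -/
theorem basis (htr : Algebra.trdeg ℂ F = (b : Cardinal)) (y : Fin b → F) (hy : ∀ l, y l ≠ 0)
    (h : dlogs y ≠ 0) : ∃ e : Module.Basis (Fin b) F (Ω[F⁄ℂ]),
      ∀ l, e l = KaehlerDifferential.D ℂ F (y l) := by
  obtain ⟨hf, hr⟩ := MMCI.BAS.finrank_eq htr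
  have h1 : LinearIndependent F fun l => dlog (y l) := by
    by_contra h2
    exact h (AlternatingMap.map_linearDependent (exteriorPower.ιMulti F b) _ h2)
  have h2 : LinearIndependent F fun l => KaehlerDifferential.D ℂ F (y l) := by
    have h3 := h1.units_smul fun l => Units.mk0 (y l) (hy l)
    have h4 : ((fun l => Units.mk0 (y l) (hy l)) • fun l => dlog (y l)) =
        fun l => KaehlerDifferential.D ℂ F (y l) := by
      funext l
      change y l • ((y l)⁻¹ • KaehlerDifferential.D ℂ F (y l)) = _
      rw [smul_smul, mul_inv_cancel₀ (hy l), one_smul]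
    rwa [h4] at h3
  have h3 := h2.span_eq_top_of_card_eq_finrank' (by rw [Fintype.card_fin, hr])
  refine ⟨Module.Basis.mk h2 h3.ge, fun l => ?_⟩
  rw [Module.Basis.mk_apply]

end DLB

open DLB in
theorem t_DLB : S_DLB := by
  classical
  intro F _ _ b htr y hy h
  obtain ⟨e, he⟩ := basis htr y hy h
  refine ⟨fun l => (e.coord l).compDer (KaehlerDifferential.D ℂ F), fun l k => ?_, fun a => ?_⟩
  · change e.coord l (KaehlerDifferential.D ℂ F (y k)) = _
    rw [← he k, Module.Basis.coord_apply, Module.Basis.repr_self, Finsupp.single_apply]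
    by_cases hlk : l = k
    · rw [if_pos hlk, if_pos hlk.symm]
    · rw [if_neg hlk, if_neg (Ne.symm hlk)]
  · have h1 := e.sum_repr (KaehlerDifferential.D ℂ F a)
    refine h1.symm.trans (Finset.sum_congr rfl fun l _ => ?_)
    rw [he l]
    rfl

end RMM
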