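import Pool.Agent.RMM.StS

/-!
# EXM: from a minor of the gradients in the directions of the torus to a minor of the extended
gradients
-/

set_option autoImplicit false

namespace RMM.EXM

open MldGeo MMCI RMM

noncomputable section

/-- the extended bijection -/
def ext {b e n r : ℕ} (σ : Fin r ⊕ Fin e ≃ Fin n) : Fin r ⊕ Fin (b + e) ≃ Fin (b + n) :=
  (Equiv.sumCongr (Equiv.refl (Fin r)) (finSumFinEquiv (m := b) (n := e)).symm).trans
    ((Equiv.sumAssoc (Fin r) (Fin b) (Fin e)).symm.trans
      ((Equiv.sumCongr (Equiv.sumComm (Fin r) (Fin b)) (Equiv.refl (Fin e))).trans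
        ((Equiv.sumAssoc (Fin b) (Fin r) (Fin e)).trans
          ((Equiv.sumCongr (Equiv.refl (Fin b)) σ).trans finSumFinEquiv))))

theorem ext_inl {b e n r : ℕ} (σ : Fin r ⊕ Fin e ≃ Fin n) (j : Fin r) :
    ext (b := b) σ (Sum.inl j) = Fin.natAdd b (σ (Sum.inl j)) := by
  simp [ext]

theorem ext_castAdd {b e n r : ℕ} (σ : Fin r ⊕ Fin e ≃ Fin n) (l : Fin b) :
    ext (b := b) σ (Sum.inr (Fin.castAdd e l)) = Fin.castAdd n l := by
  simp [ext]

theorem ext_natAdd {b e n r : ℕ} (σ : Fin r ⊕ Fin e ≃ Fin n) (l : Fin e) :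
    ext (b := b) σ (Sum.inr (Fin.natAdd b l)) = Fin.natAdd b (σ (Sum.inr l)) := by
  simp [ext]

theorem rgrad_smul {R : Type} [CommRing R] {n : ℕ} {K : Type} [Field K] [Algebra R K]
    (x : Fin n → K) (c : R) (f : LR R n) (j : Fin n) :
    rgrad x (c • f) j = algebraMap R K c * rgrad x f j := by
  have h1 : rgrad x (c • f) j = ∑ m ∈ f.coeff.support,
      algebraMap R K ((c • f).coeff m) * (m j : K) * mon x m := by
    unfold rgrad
    rw [Finsupp.sum_of_support_subset (c • f).coeff (s := f.coeff.support) _ _ _]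
    · intro m hm
      rw [Finsupp.mem_support_iff] at hm ⊢
      intro h
      apply hm
      simp [h]
    · intro m _
      simp
  rw [h1, rgrad, Finsupp.sum, Finset.mul_sum]
  refine Finset.sum_congr rfl fun m _ => ?_
  simp only [AddMonoidAlgebra.coeff_smul, Finsupp.smul_apply, smul_eq_mul, map_mul]
  ring

end

end RMM.EXM

namespace RMM

open MldGeo MMCI

theorem t_EXM : S_EXM := by
  intro F K _ _ _ _ _ _ b e n r y d f x u σ
  refine ⟨EXM.ext σ, ?_, ?_⟩
  · have h1 : (Matrix.of fun i j : Fin r =>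
        gr y d ((u i)⁻¹ • f i) x (EXM.ext (b := b) σ (Sum.inl j))) =
        Matrix.of fun i j : Fin r => (fun i => algebraMap F K (u i)⁻¹) i *
          (Matrix.of fun i j : Fin r => rgrad x (f i) (σ (Sum.inl j))) i j := by
      ext i j
      simp only [Matrix.of_apply]
      rw [EXM.ext_inl, gr, Fin.append_right, EXM.rgrad_smul]
    rw [h1, Matrix.det_mul_column, rminor, ← map_prod, Finset.prod_inv_distrib]
  · funext l
    unfold rest
    refine Fin.addCases (fun i => ?_) (fun i => ?_) l
    · rw [EXM.ext_castAdd, zz, zz, Fin.append_left, Fin.append_left]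
    · rw [EXM.ext_natAdd, zz, zz, Fin.append_right, Fin.append_right]

end RMM
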