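import Pool.Agent.RMM.StS
import Pool.Agent.MMCI.Tools
import Pool.Agent.MMCI.K_BAS
import Pool.Agent.MMCI.CHW
import Pool.Agent.MMCI.CRT
import Pool.Agent.MMCI.FRC

/-!
# FOF: a rational form has zeros and poles along finitely many prime divisors
-/

set_option autoImplicit false

namespace RMM

open MldGeo MldGeo.DivVal MMCI

noncomputable section

namespace FOF

variable {F : Type} [Field F] [Algebra ℂ F] {b : ℕ}

/-- a basis of the differentials which consists of differentials of coordinates -/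
theorem exists_coord (htr : Algebra.trdeg ℂ F = (b : Cardinal)) (B : ProjModel F)
    (j : Fin (B.N + 1)) : ∃ y : Fin b → F, (∀ l, y l ∈ B.ring j) ∧
      LinearIndependent F (fun l => KaehlerDifferential.D ℂ F (y l)) ∧
      Submodule.span F (Set.range fun l => KaehlerDifferential.D ℂ F (y l)) = ⊤ := by
  obtain ⟨hfin, hrank⟩ := BAS.finrank_eq (K := F) htr
  set s : Set (Ω[F⁄ℂ]) := Set.range fun l : Fin (B.N + 1) =>
    KaehlerDifferential.D ℂ F (B.s l / B.s j) with hs
  have htop : Submodule.span F s = ⊤ :=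
    BAS.gen_D (fun l => B.s l / B.s j) (FRC.adjoin_eq_top B j) _
      fun l => Submodule.subset_span ⟨l, rfl⟩
  obtain ⟨f, hf1, hf2, hf3⟩ := Submodule.exists_fun_fin_finrank_span_eq F s
  have hr : Module.finrank F (Submodule.span F s) = b := by
    rw [htop, finrank_top, hrank]
  have e : Fin b ≃ Fin (Module.finrank F (Submodule.span F s)) := finCongr hr.symm
  choose l hl using hf1
  have he : (fun i : Fin b => KaehlerDifferential.D ℂ F (B.s (l (e i)) / B.s j)) = f ∘ e :=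
    funext fun i => hl (e i)
  refine ⟨fun i => B.s (l (e i)) / B.s j, fun i => Algebra.subset_adjoin ⟨_, rfl⟩, ?_, ?_⟩
  · rw [he]
    exact hf3.comp _ e.injective
  · rw [he, e.surjective.range_comp, hf2, htop]

/-- a common denominator of finitely many elements -/
theorem common_den {R : Subalgebra ℂ F} (hfr : ∀ a : F, ∃ r ∈ R, ∃ q ∈ R, q ≠ 0 ∧ a * q = r)
    (T : Finset F) : ∃ s ∈ R, s ≠ 0 ∧ ∀ a ∈ T, s * a ∈ R := by
  classical
  induction T using Finset.induction_on with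
  | empty => exact ⟨1, one_mem _, one_ne_zero, fun a ha => absurd ha (Finset.notMem_empty a)⟩
  | insert a T _ ih =>
    obtain ⟨s, hs, hs0, h⟩ := ih
    obtain ⟨r, hr, q, hq, hq0, e⟩ := hfr a
    refine ⟨s * q, mul_mem hs hq, mul_ne_zero hs0 hq0, ?_⟩
    intro c hc
    rcases Finset.mem_insert.1 hc with rfl | hc
    · rw [mul_assoc, mul_comm q, e]
      exact mul_mem hs hr
    · rw [mul_right_comm]
      exact mul_mem (h c hc) hq

/-- a derivation multiplied by the common denominator preserves the ring -/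
theorem der_mem {R : Subalgebra ℂ F} (D : Derivation ℂ F F) {s : F} {T : Set F}
    (hT : Algebra.adjoin ℂ T = R) (h : ∀ t ∈ T, s * D t ∈ R) {a : F} (ha : a ∈ R) :
    s * D a ∈ R := by
  have ha' : a ∈ Algebra.adjoin ℂ T := by rwa [hT]
  clear ha
  induction ha' using Algebra.adjoin_induction with
  | mem a h1 => exact h a h1
  | algebraMap c =>
    rw [Derivation.map_algebraMap, mul_zero]
    exact zero_mem _
  | add x y hx hy ihx ihy =>
    rw [map_add, mul_add]
    exact add_mem ihx ihy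
  | mul x y hx hy ihx ihy =>
    rw [Derivation.leibniz, smul_eq_mul, smul_eq_mul, mul_add, mul_left_comm, mul_left_comm s y]
    exact add_mem (mul_mem (hT ▸ hx) ihy) (mul_mem (hT ▸ hy) ihx)

/-- the derivation preserves the valuation ring -/
theorem der_ge {R : Subalgebra ℂ F} {v : DivVal b F} {P : Ideal R} (hP : HasCentre R v P)
    (hloc : ∀ a : F, v.Ge 0 a → ∃ r q : R, q ∉ P ∧ a * q = r) (D : Derivation ℂ F F) {s : F}
    (hs0 : s ≠ 0) (hs : v.ord s = 0) (h : ∀ a ∈ R, s * D a ∈ R) {a : F} (ha : v.Ge 0 a) :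
    v.Ge 0 (D a) := by
  have hD : ∀ r ∈ R, v.Ge 0 (D r) := by
    intro r hr
    have h1 : v.Ge 0 (s * D r) := Or.inr (hP.2.1 ⟨_, h r hr⟩)
    have h2 : D r = s⁻¹ * (s * D r) := by
      rw [← mul_assoc, inv_mul_cancel₀ hs0, one_mul]
    rw [h2]
    exact (Ge.inv hs0 hs).mul_left h1
  obtain ⟨r, q, hq, e⟩ := hloc a ha
  have hq0 : (q : F) ≠ 0 := CRT.ne_zero hq
  have hq1 : v.ord (q : F) = 0 := CRT.ord_eq hP hq
  have h3 : D a = (q : F)⁻¹ * (D (r : F) - a * D (q : F)) := by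
    rw [← e, Derivation.leibniz, smul_eq_mul, smul_eq_mul]
    field_simp
    ring
  rw [h3]
  exact (Ge.inv hq0 hq1).mul_left ((hD r r.2).sub (ha.mul_left (hD q q.2)))

/-- finitely many prime divisors contain a function -/
theorem finite_divisors {R : Subalgebra ℂ F} (hfg : R.FG) (x : R) (hx : x ≠ 0) :
    {P : Ideal R | x ∈ P ∧ P.IsPrime ∧ ∀ Q : Ideal R, Q.IsPrime → Q < P → Q = ⊥}.Finite := by
  have : IsNoetherianRing R := isNoetherianRing_of_fg hfg
  refine (Ideal.finite_minimalPrimes_of_isNoetherianRing R (Ideal.span {x})).subset ?_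
  rintro P ⟨hxP, hP, hmin⟩
  refine ⟨⟨hP, ?_⟩, ?_⟩
  · rw [Ideal.span_singleton_le_iff_mem]
    exact hxP
  · rintro Q ⟨hQ, hle⟩ hQP
    by_contra hn
    have hlt : Q < P := lt_of_le_not_ge hQP hn
    have h0 := hmin Q hQ hlt
    rw [Ideal.span_singleton_le_iff_mem, h0] at hle
    exact hx (Ideal.mem_bot.1 hle)

end FOF

open FOF in
theorem t_FOF : S_DLB → S_ABAS → S_AE0b → S_AE0c → S_FOF := by
  intro _ _ _ _ F _ _ b htr hb B j hint ω hω g hg k
  classical
  obtain ⟨hfg, hfr⟩ := t_FRC B j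
  obtain ⟨y, hyR, hli, hsp⟩ := exists_coord htr B j
  let bs : Module.Basis (Fin b) F (Ω[F⁄ℂ]) := Module.Basis.mk hli hsp.ge
  have hbs : (bs : Fin b → Ω[F⁄ℂ]) = fun l => KaehlerDifferential.D ℂ F (y l) :=
    Module.Basis.coe_mk hli hsp.ge
  have hd0 : dforms y ≠ 0 := by
    intro h0
    obtain ⟨c, hc⟩ := FRM.exists_smul bs ω
    rw [hbs] at hc
    have h1 : exteriorPower.ιMulti F b (fun l => KaehlerDifferential.D ℂ F (y l)) = 0 := h0
    rw [h1, smul_zero] at hc
    exact hω hc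
  obtain ⟨h, hh0, -, hh⟩ := t_CHW htr hb (dforms y) ω hd0 hω
  -- the dual derivations
  let d : Fin b → Derivation ℂ F F := fun l => (bs.coord l).compDer (KaehlerDifferential.D ℂ F)
  have hd : ∀ a : F, KaehlerDifferential.D ℂ F a =
      ∑ l, d l a • KaehlerDifferential.D ℂ F (y l) := by
    intro a
    have h1 := bs.sum_repr (KaehlerDifferential.D ℂ F a)
    rw [hbs] at h1
    exact h1.symm
  -- the common denominator
  obtain ⟨T, hT⟩ := hfg
  obtain ⟨s, hsR, hs0, hs⟩ := common_den (R := B.ring j) hfr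
    ((Finset.univ : Finset (Fin b)).biUnion fun l => T.image fun t => d l t)
  have hsd : ∀ l, ∀ a ∈ B.ring j, s * d l a ∈ B.ring j := fun l a ha =>
    der_mem (d l) hT (fun t ht => hs _ (Finset.mem_biUnion.2
      ⟨l, Finset.mem_univ l, Finset.mem_image.2 ⟨t, ht, rfl⟩⟩)) ha
  -- the quotient
  obtain ⟨r, hr, q, hq, hq0, hz⟩ := hfr (g / h ^ k)
  have hz0 : g / h ^ k ≠ 0 := div_ne_zero hg (pow_ne_zero k hh0)
  have hr0 : r ≠ 0 := by
    rw [← hz]
    exact mul_ne_zero hz0 hq0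
  have hfin := finite_divisors (R := B.ring j) ⟨T, hT⟩ (⟨s, hsR⟩ * (⟨r, hr⟩ * ⟨q, hq⟩)) (by
    intro h1
    have h2 : s * (r * q) = 0 := congrArg Subtype.val h1
    exact mul_ne_zero hs0 (mul_ne_zero hr0 hq0) h2)
  refine hfin.subset ?_
  rintro P ⟨v, ⟨hPp, hPh, hv0, hvP⟩, hne⟩
  have hP : HasCentre (B.ring j) v P := ⟨hPp, hv0, hvP⟩
  have hloc := (t_CRT (B.ring j) ⟨T, hT⟩ hfr hint htr v P hP).1 hPh
  refine ⟨?_, hPp, fun Q hQ hlt => CRT.eq_bot hP hloc Q hQ hlt⟩
  by_contra hn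
  have hsP : (⟨s, hsR⟩ : B.ring j) ∉ P := fun h1 => hn (P.mul_mem_right _ h1)
  have hrP : (⟨r, hr⟩ : B.ring j) ∉ P := fun h1 => hn (P.mul_mem_left _ (P.mul_mem_right _ h1))
  have hqP : (⟨q, hq⟩ : B.ring j) ∉ P := fun h1 => hn (P.mul_mem_left _ (P.mul_mem_left _ h1))
  have hs1 : v.ord s = 0 := CRT.ord_eq hP hsP
  have hr1 : v.ord r = 0 := CRT.ord_eq hP hrP
  have hq1 : v.ord q = 0 := CRT.ord_eq hP hqP
  have hreg : v.logOrd (dforms y) = 1 := by
    refine (cREG htr v y hb (fun i => Or.inr (hv0 ⟨_, hyR i⟩)) (BAS.algInd y hli)).2 ?_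
    intro D hD a ha
    have h1 : D a = ∑ l, d l a * D (y l) := by
      have h2 := congrArg D.liftKaehlerDifferential (hd a)
      rw [map_sum] at h2
      simpa using h2
    rw [h1]
    exact Ge.sum _ _ fun l _ => (der_ge hP hloc (d l) hs0 hs1 (hsd l) ha).mul_left (hD l)
  have hform : v.formOrd (dforms y) = 0 := by
    rw [cTXT htr v (dforms y) hb hd0, hreg, sub_self]
  apply hne
  rw [hh v, hform, add_zero]
  have h3 : v.ord (g / h ^ k) = 0 := by
    have h4 := v.ord_mul _ _ hz0 hq0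
    rw [hz, hr1, hq1, add_zero] at h4
    exact h4.symm
  rw [ord_div v hg (pow_ne_zero k hh0), ord_pow] at h3
  linarith

end

end RMM
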