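import Pool.Agent.RMM.StS
import Pool.Agent.MMCI.Tools

/-!
# FRC0: derivations dual to a frame preserve the valuation ring
-/

set_option autoImplicit false

namespace RMM

open MldGeo MMCI

noncomputable section

namespace FRC0

variable {F : Type} [Field F] [Algebra ℂ F] {m : ℕ}

/-- The differentials of a transcendence basis as a basis. -/
def bas (htr : Algebra.trdeg ℂ F = ((m + 1 : ℕ) : Cardinal)) (x : Fin (m + 1) → F)
    (hx : AlgebraicIndependent ℂ x) : Module.Basis (Fin (m + 1)) F (Ω[F⁄ℂ]) :=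
  Module.Basis.mk (cTBAS htr x hx).1 (cTBAS htr x hx).2.ge

theorem bas_coe (htr : Algebra.trdeg ℂ F = ((m + 1 : ℕ) : Cardinal)) (x : Fin (m + 1) → F)
    (hx : AlgebraicIndependent ℂ x) :
    (bas htr x hx : Fin (m + 1) → Ω[F⁄ℂ]) = fun i => KaehlerDifferential.D ℂ F (x i) :=
  Module.Basis.coe_mk _ _

/-- The dual derivations. -/
def der (htr : Algebra.trdeg ℂ F = ((m + 1 : ℕ) : Cardinal)) (x : Fin (m + 1) → F)
    (hx : AlgebraicIndependent ℂ x) (l : Fin (m + 1)) : Derivation ℂ F F :=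
  ((bas htr x hx).coord l).compDer (KaehlerDifferential.D ℂ F)

theorem der_apply (htr : Algebra.trdeg ℂ F = ((m + 1 : ℕ) : Cardinal)) (x : Fin (m + 1) → F)
    (hx : AlgebraicIndependent ℂ x) (l : Fin (m + 1)) (a : F) :
    der htr x hx l a = (bas htr x hx).repr (KaehlerDifferential.D ℂ F a) l := rfl

theorem der_sum (htr : Algebra.trdeg ℂ F = ((m + 1 : ℕ) : Cardinal)) (x : Fin (m + 1) → F)
    (hx : AlgebraicIndependent ℂ x) (a : F) :
    KaehlerDifferential.D ℂ F a = ∑ l, der htr x hx l a • KaehlerDifferential.D ℂ F (x l) := by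
  have h := (bas htr x hx).sum_repr (KaehlerDifferential.D ℂ F a)
  refine h.symm.trans (Finset.sum_congr rfl fun l _ => ?_)
  rw [der_apply, bas_coe]

theorem der_eq (htr : Algebra.trdeg ℂ F = ((m + 1 : ℕ) : Cardinal)) (x : Fin (m + 1) → F)
    (hx : AlgebraicIndependent ℂ x) (a : F) (c : Fin (m + 1) → F)
    (h : KaehlerDifferential.D ℂ F a = ∑ l, c l • KaehlerDifferential.D ℂ F (x l))
    (l : Fin (m + 1)) : der htr x hx l a = c l := by
  have h1 : KaehlerDifferential.D ℂ F a = ∑ l, c l • bas htr x hx l := by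
    rw [h]
    refine Finset.sum_congr rfl fun l _ => ?_
    rw [bas_coe]
  rw [der_apply, h1, Module.Basis.repr_sum_self]

end FRC0

open FRC0 in
/-- FRC0. -/
theorem t_FRC0 : S_FRC0 := by
  intro F _ _ b htr hb w0
  obtain ⟨m, rfl⟩ : ∃ m, b = m + 1 := ⟨b - 1, by omega⟩
  obtain ⟨t, u, hF⟩ := (cFRA w0).1
  have hai := (cFRA w0).2 t u hF
  obtain ⟨ht0, ht1, hres⟩ := id hF
  have h1 : w0.ord 1 = 0 := REG.ord_one w0
  -- `t + 1` is a unit
  have hs0 : t + 1 ≠ 0 := by
    intro h
    have h2 : t = -1 := eq_neg_of_add_eq_zero_left h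
    rw [h2, REG.ord_neg w0 one_ne_zero, h1] at ht1
    exact zero_ne_one ht1
  have hs : w0.ord (t + 1) = 0 := by
    have h2 := w0.ord_add t 1 ht0 one_ne_zero hs0
    rw [ht1, h1] at h2
    by_contra hne
    have h3 : 1 ≤ w0.ord (t + 1) := by
      have h4 : min (1 : ℤ) 0 = 0 := by norm_num
      rw [h4] at h2
      omega
    have h5 : w0.Ge 1 ((t + 1) + -t) :=
      REG.ge_add (Or.inr h3) (REG.ge_neg (Or.inr ht1.ge))
    have h6 : (t + 1) + -t = 1 := by ring
    rw [h6] at h5
    rcases h5 with h5 | h5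
    · exact one_ne_zero h5
    · omega
  -- the functions `u_l` are units
  have hu : ∀ l, u l ≠ 0 ∧ w0.ord (u l) = 0 := by
    intro l
    have h2 := hres (MvPolynomial.X l) (MvPolynomial.X_ne_zero l)
    rwa [MvPolynomial.aeval_X] at h2
  set y : Fin (m + 1) → F := Fin.cons (t + 1) u with hy
  have hyu : ∀ l, y l ≠ 0 ∧ w0.ord (y l) = 0 := by
    intro l
    refine Fin.cases ?_ (fun j => ?_) l
    · exact ⟨hs0, hs⟩
    · exact hu j
  have hD : ∀ l, KaehlerDifferential.D ℂ F (y l) =
      KaehlerDifferential.D ℂ F ((Fin.cons t u : Fin (m + 1) → F) l) := by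
    intro l
    refine Fin.cases ?_ (fun j => ?_) l
    · show KaehlerDifferential.D ℂ F (t + 1) = KaehlerDifferential.D ℂ F t
      rw [map_add, Derivation.map_one_eq_zero, add_zero]
    · rfl
  -- `dlogs y`
  have hprod : ∏ i, (y i)⁻¹ ≠ 0 := Finset.prod_ne_zero_iff.2 fun i _ => inv_ne_zero (hyu i).1
  have hordp : w0.ord (∏ i, (y i)⁻¹) = 0 := by
    have h2 : ∀ s : Finset (Fin (m + 1)), w0.ord (∏ i ∈ s, (y i)⁻¹) = 0 := by
      classical
      intro s
      induction s using Finset.induction_on with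
      | empty => rw [Finset.prod_empty, h1]
      | insert a s ha ih =>
        rw [Finset.prod_insert ha, w0.ord_mul _ _ (inv_ne_zero (hyu a).1)
          (Finset.prod_ne_zero_iff.2 fun i _ => inv_ne_zero (hyu i).1), ih,
          REG.ord_inv w0 (hyu a).1, (hyu a).2]
        rfl
    exact h2 _
  have hdl : dlogs y = ((∏ i, (y i)⁻¹) * t) • frameForm t u := by
    have h2 := (exteriorPower.ιMulti F (m + 1)).toMultilinearMap.map_smul_univ
      (fun i => (y i)⁻¹) (fun i => KaehlerDifferential.D ℂ F (y i))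
    have h3 : dlogs y = (∏ i, (y i)⁻¹) •
        exteriorPower.ιMulti F (m + 1) (fun i => KaehlerDifferential.D ℂ F (y i)) := h2
    have h4 : (fun i => KaehlerDifferential.D ℂ F (y i)) =
        fun i => (Fin.cons t (fun _ => 1) : Fin (m + 1) → F) i •
          (Fin.cons (dlog t) fun j => KaehlerDifferential.D ℂ F (u j) :
            Fin (m + 1) → Ω[F⁄ℂ]) i := by
      funext i
      rw [hD i]
      refine Fin.cases ?_ (fun j => ?_) i
      · show KaehlerDifferential.D ℂ F t = t • dlog t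
        rw [dlog, smul_smul, mul_inv_cancel₀ ht0, one_smul]
      · show KaehlerDifferential.D ℂ F (u j) = (1 : F) • KaehlerDifferential.D ℂ F (u j)
        rw [one_smul]
    have h5 := (exteriorPower.ιMulti F (m + 1)).toMultilinearMap.map_smul_univ
      (Fin.cons t (fun _ => 1) : Fin (m + 1) → F)
      (Fin.cons (dlog t) fun j => KaehlerDifferential.D ℂ F (u j) : Fin (m + 1) → Ω[F⁄ℂ])
    have h6 : ∏ i, (Fin.cons t (fun _ => 1) : Fin (m + 1) → F) i = t := by
      rw [Fin.prod_univ_succ]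
      simp
    rw [h6] at h5
    rw [h3, h4, mul_smul]
    congr 1
  obtain ⟨hf0, -, hfo⟩ := cFRM htr w0 t u hF
  have hg0 : (∏ i, (y i)⁻¹) * t ≠ 0 := mul_ne_zero hprod ht0
  have hne : dlogs y ≠ 0 := by
    rw [hdl]
    exact smul_ne_zero hg0 hf0
  refine ⟨y, der htr _ hai, hyu, hne, ?_, ?_, ?_, t, u, ht0, ht1, hres⟩
  · rw [cTXT htr w0 (dlogs y) (Nat.succ_pos m) hne, hdl, hfo _ hg0,
      w0.ord_mul _ _ hprod ht0, hordp, ht1]
    norm_num
  · intro l a ha
    by_cases ha0 : a = 0
    · left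
      rw [ha0, map_zero]
    have hord : 0 ≤ w0.ord a := ha.resolve_left ha0
    obtain ⟨c, hc, hc0, hcs⟩ := cCOE htr w0 t u hF a ha0
    have h2 : KaehlerDifferential.D ℂ F a = ∑ l, (Fin.cons (a * c 0 * t⁻¹)
        (fun j => a * c j.succ) : Fin (m + 1) → F) l •
          KaehlerDifferential.D ℂ F ((Fin.cons t u : Fin (m + 1) → F) l) := by
      rw [Fin.sum_univ_succ]
      simp only [Fin.cons_zero, Fin.cons_succ]
      have h3 : KaehlerDifferential.D ℂ F a = a • dlog a := by
        rw [dlog, smul_smul, mul_inv_cancel₀ ha0, one_smul]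
      rw [h3, hcs, smul_add, Finset.smul_sum, dlog, smul_smul, smul_smul]
      congr 1
      refine Finset.sum_congr rfl fun j _ => ?_
      rw [smul_smul]
    rw [der_eq htr _ hai a _ h2 l]
    refine Fin.cases ?_ (fun j => ?_) l
    · show w0.Ge 0 (a * c 0 * t⁻¹)
      have ht' : w0.Ge (-1) t⁻¹ := by
        right
        rw [REG.ord_inv w0 ht0, ht1]
      by_cases hz : w0.ord a = 0
      · have h3 : w0.Ge 1 (c 0) := by
          rw [hz, Int.cast_zero, sub_zero] at hc0
          exact hc0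
        have h4 := REG.ge_mul (REG.ge_mul ha h3) ht'
        have h5 : (0 : ℤ) + 1 + -1 = 0 := by norm_num
        rwa [h5] at h4
      · have h3 : w0.Ge 1 a := Or.inr (by omega)
        have h4 := REG.ge_mul (REG.ge_mul h3 (hc 0)) ht'
        have h5 : (1 : ℤ) + 0 + -1 = 0 := by norm_num
        rwa [h5] at h4
    · show w0.Ge 0 (a * c j.succ)
      have h4 := REG.ge_mul ha (hc j.succ)
      rwa [add_zero] at h4
  · intro a
    have h2 := der_sum htr _ hai a
    refine h2.trans (Finset.sum_congr rfl fun l _ => ?_)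
    rw [hD l]

end

end RMM
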