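import Pool.Agent.RMM.StS

/-!
# FSU: finitely many local equations of one multiple of the canonical divisor
-/

set_option autoImplicit false

namespace RMM

open MldGeo MMCI

noncomputable section

namespace FSU

variable {F : Type} [Field F] [Algebra ℂ F] {b : ℕ}

theorem ord_one' (v : DivVal b F) : v.ord 1 = 0 := by
  have h := v.ord_const 1
  rwa [map_one] at h

/-- powers -/
theorem ord_pow' (v : DivVal b F) {a : F} (ha : a ≠ 0) (k : ℕ) :
    v.ord (a ^ k) = k * v.ord a := by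
  induction k with
  | zero => rw [pow_zero, ord_one']; simp
  | succ k ih =>
    rw [pow_succ, v.ord_mul _ _ (pow_ne_zero _ ha) ha, ih]
    push_cast
    ring

/-- powers of equations -/
theorem isEquation_pow {R : Subalgebra ℂ F} {ω : Forms b F} {k : ℕ} {m : Ideal R} {g : F}
    (hg : g ≠ 0) (h : IsEquation R ω k m g) (q : ℕ) : IsEquation R ω (k * q) m (g ^ q) := by
  intro v P hP hm
  rw [ord_pow' v hg, h v P hP hm]
  push_cast
  ring

/-- A point has no divisorial valuations. -/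
theorem isEmpty_of_trdeg (h : Algebra.trdeg ℂ F = 0) (v : DivVal b F) : False := by
  have h1 : Algebra.IsAlgebraic ℂ F := _root_.trdeg_eq_zero_iff.1 h
  obtain ⟨t, ht, ht1⟩ := v.unif
  obtain ⟨c, rfl⟩ := (IsAlgClosed.algebraMap_bijective_of_isIntegral (k := ℂ) (K := F)).2 t
  rw [v.ord_const] at ht1
  exact absurd ht1 (by norm_num)

/-- The neighbourhood of a closed point on which the function is an equation. -/
theorem exists_nbhd (h : S_FOF) (hF : Algebra.trdeg ℂ F = (b : Cardinal)) (hb : 0 < b)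
    (B : ProjModel F) (j : Fin (B.N + 1))
    (hn : ∀ a : F, IsIntegral (B.ring j) a → a ∈ B.ring j) (ω : Forms b F) (hω : ω ≠ 0)
    (m : Ideal (B.ring j)) (hm : m.IsMaximal) (k : ℕ) (g : F) (hg : g ≠ 0)
    (he : IsEquation (B.ring j) ω k m g) :
    ∃ s : B.ring j, s ∉ m ∧ ∀ m' : Ideal (B.ring j), m'.IsMaximal → s ∉ m' →
      IsEquation (B.ring j) ω k m' g := by
  classical
  have hfin := h hF hb B j hn ω hω g hg k
  have hle : ¬ hfin.toFinset.inf id ≤ m := by
    intro hle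
    obtain ⟨P, hP, hPm⟩ := (Ideal.IsPrime.inf_le' hm.isPrime).1 hle
    rw [Set.Finite.mem_toFinset] at hP
    obtain ⟨v, hv, hne⟩ := hP
    exact hne (he v P hv hPm)
  obtain ⟨s, hs, hsm⟩ := Set.not_subset.1 hle
  refine ⟨s, hsm, fun m' _ hs' v P hv hP => ?_⟩
  by_contra hne
  have hPZ : P ∈ hfin.toFinset := by
    rw [Set.Finite.mem_toFinset]
    exact ⟨v, hv, hne⟩
  have h1 : hfin.toFinset.inf id ≤ P := Finset.inf_le hPZ
  exact hs' (hP (h1 hs))

/-- One chart. -/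
theorem chart (h : S_FOF) (hF : Algebra.trdeg ℂ F = (b : Cardinal)) (hb : 0 < b)
    (B : ProjModel F) (hB : B.Terminal b) (j : Fin (B.N + 1)) (ω : Forms b F) (hω : ω ≠ 0) :
    ∃ (κ : ℕ) (S : Finset F), 0 < κ ∧ ∀ m : Ideal (B.ring j), m.IsMaximal →
      ∃ a ∈ S, a ≠ 0 ∧ IsEquation (B.ring j) ω κ m a := by
  classical
  obtain ⟨hn, ht⟩ := hB j
  have htop : Ideal.span {s : B.ring j | ∃ (k : ℕ) (g : F), 0 < k ∧ g ≠ 0 ∧
      ∀ m' : Ideal (B.ring j), m'.IsMaximal → s ∉ m' → IsEquation (B.ring j) ω k m' g} = ⊤ := by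
    by_contra hne
    obtain ⟨m, hm, hle⟩ := Ideal.exists_le_maximal _ hne
    obtain ⟨k, g, hk, hg, he, -⟩ := ht ω hω m hm
    obtain ⟨s, hs, hs'⟩ := exists_nbhd h hF hb B j hn ω hω m hm k g hg he
    exact hs (hle (Ideal.subset_span ⟨k, g, hk, hg, hs'⟩))
  obtain ⟨T, hT, hTtop⟩ := (Ideal.span_eq_top_iff_finite _).1 htop
  have hT' : ∀ s : B.ring j, ∃ (k : ℕ) (g : F), s ∈ T → 0 < k ∧ g ≠ 0 ∧
      ∀ m' : Ideal (B.ring j), m'.IsMaximal → s ∉ m' → IsEquation (B.ring j) ω k m' g := by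
    intro s
    by_cases hs : s ∈ T
    · obtain ⟨k, g, hk⟩ := hT hs
      exact ⟨k, g, fun _ => hk⟩
    · exact ⟨0, 0, fun hs' => absurd hs' hs⟩
  choose k g hkg using hT'
  refine ⟨∏ s ∈ T, k s, T.image fun s => g s ^ (∏ t ∈ T.erase s, k t),
    Finset.prod_pos fun s hs => (hkg s hs).1, fun m hm => ?_⟩
  obtain ⟨s, hs, hsm⟩ : ∃ s ∈ T, s ∉ m := by
    by_contra hcon
    push Not at hcon
    apply hm.ne_top
    rw [eq_top_iff, ← hTtop]
    exact Ideal.span_le.2 fun s hs => hcon s hs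
  obtain ⟨h1, h2, h3⟩ := hkg s hs
  refine ⟨_, Finset.mem_image.2 ⟨s, hs, rfl⟩, pow_ne_zero _ h2, ?_⟩
  rw [← Finset.mul_prod_erase T k hs]
  exact isEquation_pow h2 (h3 m hm hsm) _

end FSU

open FSU in
theorem t_FSU : S_FOF → S_FSU := by
  classical
  intro h F _ _ b hF B hB ω hω
  rcases Nat.eq_zero_or_pos b with hb | hb
  · refine ⟨1, {1}, Nat.one_pos, fun j m hm => ⟨1, Finset.mem_singleton_self _, one_ne_zero, ?_⟩⟩
    intro v P hP hPm
    exact (isEmpty_of_trdeg (by rw [hF, hb]; simp) v).elim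
  · choose κ S hκ hS using fun j => chart h hF hb B hB j ω hω
    refine ⟨∏ j, κ j, Finset.univ.biUnion fun j => (S j).image fun a =>
      a ^ (∏ i ∈ Finset.univ.erase j, κ i), Finset.prod_pos fun j _ => hκ j, fun j m hm => ?_⟩
    obtain ⟨a, ha, ha0, he⟩ := hS j m hm
    refine ⟨_, Finset.mem_biUnion.2 ⟨j, Finset.mem_univ j, Finset.mem_image.2 ⟨a, ha, rfl⟩⟩,
      pow_ne_zero _ ha0, ?_⟩
    rw [← Finset.mul_prod_erase Finset.univ κ (Finset.mem_univ j)]
    exact isEquation_pow ha0 he _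

end

end RMM
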