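import Pool.Agent.RMM.StS2
import Pool.Agent.RMM.MNV
import Pool.Agent.RMM.TAY

/-!
# FUM: a minor of the gradients in the directions of the torus
-/

set_option autoImplicit false

namespace RMM

open MldGeo MMCI MldGeo.DivVal

noncomputable section

namespace FUM

theorem evl_xder {R κ : Type} [CommRing R] [Field κ] {n : ℕ} (φ : R →+* κ) (p : Fin n → κ)
    (hp : ∀ j, p j ≠ 0) (k : Fin n) (h : LR R n) :
    TAY.evl φ p hp (xder k h) = h.coeff.sum fun a c => φ c * (a k : κ) * mon p a := by
  unfold xder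
  rw [map_finsuppSum]
  refine Finsupp.sum_congr fun a _ => ?_
  rw [TAY.evl_single, map_mul, map_intCast]
  ring

end FUM

open MNV in
theorem t_FUM : M_FUM := by
  classical
  intro hFRC hCMN F K _ _ _ _ _ _ e e' n r B f x hn hf hx v t0 ht0 hv1 j M hM hthr hcen g hg hnd
  let _ := MIN.alg v
  obtain ⟨hRfg, -, -⟩ := hFRC B j
  obtain ⟨π, hπ⟩ := TAY.exists_residue (B.ring j) hRfg M hM
  obtain ⟨ub, hub⟩ := MIN.exists_units (v := v) hx ht0 hv1
  set w := wt x v with hw
  set p : Fin n → IsLocalRing.ResidueField v.OV :=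
    fun j => IsLocalRing.residue v.OV (ub j : v.OV) with hp
  have hp0 : ∀ j, p j ≠ 0 := fun j =>
    (IsLocalRing.residue_ne_zero_iff_isUnit _).2 (ub j).isUnit
  -- the local equations
  have hg1 : ∀ i, ∃ u : F, u ≠ 0 ∧ ∀ a, (f i).coeff a = u * ((g i).coeff a : F) :=
    fun i => (hg i).1
  choose u hu hgc using hg1
  have hcm : ∀ i, cmin v (coefs (f i)) = v.ord (algebraMap F K (u i)) := fun i =>
    (hCMN B (f i) j _ (u i) (g i) (hf i) (hu i) (hgc i) (hg i).2).2 v hthr
  have hsf : ∀ i, (f i).coeff.support = (g i).coeff.support := by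
    intro i
    ext a
    rw [Finsupp.mem_support_iff, Finsupp.mem_support_iff, hgc]
    constructor
    · intro h h'
      exact h (by rw [h']; simp)
    · intro h
      exact mul_ne_zero (hu i) fun h' => h (Subtype.ext h')
  have hrm : ∀ i, rmin (g i) w = rmin (f i) w := by
    intro i
    unfold rmin
    rw [hsf]
  have hisum : ∀ {Q : Type} [AddCommMonoid Q] (i : Fin r) (ψ : (Fin n → ℤ) → B.ring j → Q),
      (rinit (g i) w).coeff.sum ψ =
        ∑ a ∈ (g i).coeff.support.filter (fun a => pair w a = rmin (g i) w),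
          ψ a ((g i).coeff a) := by
    intro Q _ i ψ
    unfold rinit
    have h := Finsupp.sum_filter_index (p := fun m => pair w m = rmin (g i) w) (g i).coeff ψ
    refine h.trans ?_
    rw [Finsupp.support_filter]
  -- the residue map
  set φ : B.ring j →+* v.OV := toOV v (B.ring j) hthr.1 with hφ
  set ψ : B.ring j →+* IsLocalRing.ResidueField v.OV := (IsLocalRing.residue v.OV).comp φ with hψ
  have hker : ∀ G : LR (B.ring j) n, TAY.evl ψ p hp0 G = 0 → G ∈ M := by
    intro G hG
    refine hcen _ ?_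
    obtain ⟨z, hzv, hzr⟩ := res_nval ht0 ub hub G.coeff.support fun a => φ (G.coeff a)
    have h2 : IsLocalRing.residue v.OV z = 0 := by
      rw [hzr, ← hG, TAY.evl_eq]
      rfl
    rw [IsLocalRing.residue_eq_zero_iff, mem_maximalIdeal_iff, hzv] at h2
    exact h2
  -- the minor at the closed point
  have hli : LinearIndependent ℂ
      (Matrix.of fun (i : Fin r) (k : Fin n) => π (xder k (rinit (g i) w))).row := by
    rw [Fintype.linearIndependent_iff]
    intro t ht
    have h1 : t = 0 := by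
      refine hnd t fun k => ?_
      rw [← hπ, map_sum]
      have h2 := congrFun ht k
      rw [Finset.sum_apply] at h2
      refine (Finset.sum_congr rfl fun i _ => ?_).trans h2
      rw [map_smul]
      rfl
    intro i
    rw [h1]
    rfl
  obtain ⟨g0, hg0, hdet⟩ := MIN.exists_minor
    (Matrix.of fun (i : Fin r) (k : Fin n) => π (xder k (rinit (g i) w))) hli
  set δ : LR (B.ring j) n :=
    (Matrix.of fun i k : Fin r => xder (g0 k) (rinit (g i) w)).det with hδ
  have hδM : δ ∉ M := by
    rw [← hπ, hδ, AlgHom.map_det]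
    exact hdet
  have hδ0 : TAY.evl ψ p hp0 δ ≠ 0 := fun h => hδM (hker _ h)
  obtain ⟨σ, hσ⟩ := MIN.exists_equiv hn g0 hg0
  -- the entries
  have hent : ∀ (i : Fin r) (k : Fin n), ∃ y : v.OV,
      (y : K) = rgrad x (f i) k * (algebraMap F K (u i)⁻¹ * t0 ^ (-(rmin (g i) w))) ∧
      IsLocalRing.residue v.OV y = TAY.evl ψ p hp0 (xder k (rinit (g i) w)) := by
    intro i k
    obtain ⟨y, hyv, hyr⟩ := res_sum ht0 hv1 ub hub (g i).coeff.support (rmin (g i) w)
      (fun a ha => rmin_le _ _ _ ha) fun a => φ ((g i).coeff a) * ((a k : ℤ) : v.OV)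
    refine ⟨y, ?_, ?_⟩
    · rw [hyv, ← mul_assoc]
      congr 1
      unfold rgrad Finsupp.sum
      rw [hsf, Finset.sum_mul]
      refine Finset.sum_congr rfl fun a _ => ?_
      have h1 : ((φ ((g i).coeff a) * ((a k : ℤ) : v.OV) : v.OV) : K) =
          algebraMap F K ((g i).coeff a : F) * (a k : K) := by
        have h2 := map_mul v.OV.subtype (φ ((g i).coeff a)) ((a k : ℤ) : v.OV)
        rw [map_intCast] at h2
        exact h2
      have h3 : algebraMap F K (u i) ≠ 0 := (map_ne_zero _).2 (hu i)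
      show _ = algebraMap F K ((f i).coeff a) * (a k : K) * mon x a * _
      rw [h1, hgc, map_mul, map_inv₀]
      field_simp
    · rw [hyr, FUM.evl_xder, hisum]
      refine Finset.sum_congr rfl fun a _ => ?_
      rw [map_mul, map_intCast]
      rfl
  choose y hyv hyr using hent
  set Y : Matrix (Fin r) (Fin r) v.OV := Matrix.of fun i j => y i (g0 j) with hY
  have hYr : IsLocalRing.residue v.OV Y.det ≠ 0 := by
    have h2 : (IsLocalRing.residue v.OV).mapMatrix Y =
        (TAY.evl ψ p hp0).mapMatrix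
          (Matrix.of fun i k : Fin r => xder (g0 k) (rinit (g i) w)) := by
      ext i k
      exact hyr i (g0 k)
    rw [RingHom.map_det, h2, ← RingHom.map_det]
    exact hδ0
  have hYu := (OV_isUnit_iff v).1 ((IsLocalRing.residue_ne_zero_iff_isUnit _).1 hYr)
  set τ : Fin r → K := fun i => algebraMap F K (u i)⁻¹ * t0 ^ (-(rmin (g i) w)) with hτ
  have hτ0 : ∀ i, τ i ≠ 0 := fun i =>
    mul_ne_zero ((map_ne_zero _).2 (inv_ne_zero (hu i))) (zpow_ne_zero _ ht0)
  have hYd : ((Y.det : v.OV) : K) = Matrix.det (Matrix.of fun i j : Fin r =>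
      τ i * rgrad x (f i) (g0 j)) := by
    have h2 : ((Y.det : v.OV) : K) = v.OV.subtype Y.det := rfl
    rw [h2, RingHom.map_det]
    congr 1
    ext i j
    change ((y i (g0 j) : v.OV) : K) = _
    rw [hyv, mul_comm]
    rfl
  have h3 : ((Y.det : v.OV) : K) = (∏ i, τ i) * rminor f x σ := by
    rw [hYd]
    have h4 := Matrix.det_mul_column τ (Matrix.of fun i j : Fin r => rgrad x (f i) (g0 j))
    refine h4.trans ?_
    unfold rminor
    simp only [hσ]
  have h5 : (∏ i : Fin r, τ i) ≠ 0 := Finset.prod_ne_zero_iff.2 fun i _ => hτ0 i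
  have h6 : rminor f x σ ≠ 0 := by
    intro h
    rw [h, mul_zero] at h3
    exact hYu.1 h3
  refine ⟨σ, h6, ?_⟩
  have h7 := v.ord_mul _ _ h5 h6
  rw [← h3, hYu.2, ord_prod v _ _ fun i _ => hτ0 i] at h7
  have h8 : ∀ i, v.ord (τ i) = -(rmin (f i) w) - cmin v (coefs (f i)) := by
    intro i
    rw [hτ]
    show v.ord (algebraMap F K (u i)⁻¹ * t0 ^ (-(rmin (g i) w))) = _
    rw [v.ord_mul _ _ ((map_ne_zero _).2 (inv_ne_zero (hu i))) (zpow_ne_zero _ ht0), ord_zpow,
      hv1, map_inv₀, ord_inv, hcm, hrm]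
    ring
  have h9 : ∑ i, v.ord (τ i) = -(rpsi f w) - ∑ i, cmin v (coefs (f i)) := by
    rw [Finset.sum_congr rfl fun i _ => h8 i, Finset.sum_sub_distrib, Finset.sum_neg_distrib]
    rfl
  rw [h9] at h7
  show v.ord (rminor f x σ) = rpsi f w + ∑ i, cmin v (coefs (f i))
  linarith

end

end RMM
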