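import Pool.Agent.RMM.StS
import Pool.Agent.MMCI.Tools
import Pool.Agent.MMCI.K_IND
import Pool.Agent.MMCI.FRC
import Pool.Agent.MldGeo.Ord

/-!
# Module LAM: a derivation which vanishes on the residue field of the centre
-/

set_option autoImplicit false

namespace RMM

open MldGeo MMCI MldGeo.DivVal

noncomputable section

namespace LAM

variable {e : ℕ} {F : Type} [Field F] [Algebra ℂ F]

/-- a constant makes the element a unit -/
theorem shift (v : DivVal e F) {a : F} (ha : v.Ge 0 a) :
    ∃ c : ℂ, a + algebraMap ℂ F c ≠ 0 ∧ v.ord (a + algebraMap ℂ F c) = 0 := by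
  by_cases h : a ≠ 0 ∧ v.ord a = 0
  · refine ⟨0, ?_⟩
    rw [map_zero, add_zero]
    exact h
  · refine ⟨1, ?_⟩
    rw [map_one, add_comm]
    have h1 : v.Ge 1 a := by
      by_cases ha0 : a = 0
      · exact Or.inl ha0
      · refine Or.inr ?_
        have h2 := ha.le ha0
        have h3 : v.ord a ≠ 0 := fun h4 => h ⟨ha0, h4⟩
        omega
    have h2 := ord_add_eq_of_lt (v := v) (a := (1 : F)) (b := a) one_ne_zero
      (by rw [ord_one]; exact h1)
    rw [ord_one] at h2
    exact h2

/-- linear algebra over the residue field -/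
theorem dich {m : ℕ} {ι : Type} (v : DivVal e F) (c : ι → Fin m → F)
    (hc : ∀ i l, v.Ge 0 (c i l)) :
    (∃ a : Fin m → ι, IndepMod v (fun k l => c (a k) l)) ∨
    ∃ L : Fin m → F, (∀ l, v.Ge 0 (L l)) ∧ (∃ l, ¬ v.Ge 1 (L l)) ∧
      ∀ i, v.Ge 1 (∑ l, L l * c i l) := by
  classical
  let κ := IsLocalRing.ResidueField v.OV
  let π : v.OV →+* κ := IsLocalRing.residue v.OV
  have hπ : ∀ a : v.OV, π a = 0 ↔ v.Ge 1 (a : F) := fun a => by
    rw [← mem_maximalIdeal_iff]
    exact IsLocalRing.residue_eq_zero_iff a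
  let w : ι → (Fin m → κ) := fun i l => π ⟨c i l, hc i l⟩
  by_cases hs : Submodule.span κ (Set.range w) = ⊤
  · left
    obtain ⟨J, a, -, hspan, hli⟩ := exists_linearIndependent' κ w
    let b : Module.Basis J κ (Fin m → κ) := Module.Basis.mk hli (by rw [hspan, hs])
    let q : J ≃ Fin m := b.indexEquiv (Pi.basisFun κ (Fin m))
    refine ⟨fun k => a (q.symm k), fun α hα hsum i => ?_⟩
    have hli2 : LinearIndependent κ (fun k : Fin m => w (a (q.symm k))) :=
      hli.comp _ q.symm.injective
    rw [Fintype.linearIndependent_iff] at hli2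
    have h0 : ∑ k, π ⟨α k, hα k⟩ • w (a (q.symm k)) = 0 := by
      funext l
      have h1 : π (∑ k, (⟨α k, hα k⟩ : v.OV) * ⟨c (a (q.symm k)) l, hc _ _⟩) = 0 := by
        rw [hπ]
        push_cast
        exact hsum l
      rw [map_sum] at h1
      rw [Finset.sum_apply, Pi.zero_apply, ← h1]
      refine Finset.sum_congr rfl fun k _ => ?_
      rw [map_mul]
      rfl
    exact (hπ _).1 (hli2 _ h0 i)
  · right
    obtain ⟨f, hf, hle⟩ := Submodule.exists_le_ker_of_lt_top _ (lt_top_iff_ne_top.2 hs)
    choose g hg using fun l : Fin m => IsLocalRing.residue_surjective (R := v.OV)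
      (f fun j => if l = j then 1 else 0)
    refine ⟨fun l => (g l : F), fun l => (g l).2, ?_, fun i => ?_⟩
    · by_contra hcon
      push Not at hcon
      apply hf
      ext1 l
      ext1
      have h1 : f (fun j => if l = j then 1 else 0) = 0 := by
        rw [← hg l]
        exact (hπ _).2 (hcon l)
      have h2 : (Pi.single l (1 : κ) : Fin m → κ) = fun j => if l = j then 1 else 0 := by
        funext j
        rw [Pi.single_apply]
        simp only [eq_comm]
      show f (Pi.single l 1) = 0
      rw [h2, h1]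
    · have h1 : f (w i) = 0 := hle (Submodule.subset_span ⟨i, rfl⟩)
      rw [LinearMap.pi_apply_eq_sum_univ] at h1
      have h2 : π (∑ l, g l * ⟨c i l, hc i l⟩) = 0 := by
        rw [map_sum, ← h1]
        refine Finset.sum_congr rfl fun l _ => ?_
        rw [map_mul, smul_eq_mul, ← hg l, mul_comm]
      rw [hπ] at h2
      push_cast at h2
      exact h2

/-- a derivation which is small on generators is small on the ring -/
theorem small (v : DivVal e F) (D : Derivation ℂ F F) (S : Set F)
    (hS : ∀ a ∈ Algebra.adjoin ℂ S, v.Ge 0 a) (hD : ∀ a ∈ S, v.Ge 1 (D a)) :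
    ∀ a ∈ Algebra.adjoin ℂ S, v.Ge 1 (D a) := by
  intro a ha
  induction ha using Algebra.adjoin_induction with
  | mem x hx => exact hD x hx
  | algebraMap r =>
    rw [Derivation.map_algebraMap]
    exact Ge.zero v 1
  | add x y _ _ h1 h2 =>
    rw [map_add]
    exact h1.add h2
  | mul x y hx hy h1 h2 =>
    rw [Derivation.leibniz, smul_eq_mul, smul_eq_mul]
    exact (Ge.mul_left (hS x hx) h2).add (Ge.mul_left (hS y hy) h1)

end LAM

theorem t_LAM : S_LAM := by
  intro F _ _ m htr B j hnorm v hR hnP t u hF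
  classical
  have hLOGD : Stmt_LOGD := cLOGD
  obtain ⟨hfg, hfrac⟩ := t_FRC B j
  have hai := (cFRA v).2 t u hF
  obtain ⟨hli, hsp⟩ := cTBAS htr _ hai
  set x : Fin (m + 1) → F := Fin.cons t u with hx
  have hx0 : x 0 = t := rfl
  have hxs : ∀ j : Fin m, x j.succ = u j := fun j => rfl
  let bs : Module.Basis (Fin (m + 1)) F (Ω[F⁄ℂ]) := Module.Basis.mk hli hsp.ge
  have hbs : ∀ i, bs i = KaehlerDifferential.D ℂ F (x i) := fun i => Module.Basis.mk_apply hli hsp.ge i
  let E : Fin (m + 1) → Derivation ℂ F F := fun i =>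
    (bs.coord i).compDer (KaehlerDifferential.D ℂ F)
  have hE : ∀ i b, E i b = bs.repr (KaehlerDifferential.D ℂ F b) i := fun i b => rfl
  have hEc : ∀ (a : F) (c : Fin (m + 1) → F), KaehlerDifferential.D ℂ F a =
      c 0 • KaehlerDifferential.D ℂ F t + ∑ l : Fin m, c l.succ • KaehlerDifferential.D ℂ F (u l) →
      ∀ i, E i a = c i := by
    intro a c h i
    have h2 : KaehlerDifferential.D ℂ F a = ∑ i, c i • bs i := by
      rw [h, Fin.sum_univ_succ]
      simp only [hbs, hx0, hxs]
    rw [hE, h2, map_sum]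
    simp only [map_smul, Module.Basis.repr_self, Finsupp.finsetSum_apply, Finsupp.smul_apply,
      Finsupp.single_apply, smul_eq_mul, mul_ite, mul_one, mul_zero, Finset.sum_ite_eq',
      Finset.mem_univ, if_true]
  -- the generators
  set g : Fin (B.N + 1) → F := fun i => B.s i / B.s j with hg
  have hgR : ∀ i, g i ∈ B.ring j := fun i => Algebra.subset_adjoin ⟨i, rfl⟩
  choose r hr0 hr1 using fun i => LAM.shift v (hR (g i) (hgR i))
  set z : Fin (B.N + 1) → F := fun i => g i + algebraMap ℂ F (r i) with hz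
  have hzR : ∀ i, z i ∈ B.ring j := fun i =>
    (B.ring j).add_mem (hgR i) ((B.ring j).algebraMap_mem _)
  choose c hc0 hc1 hc2 using fun i => cCOE htr v t u hF (z i) (hr0 i)
  have hEz : ∀ i (l : Fin m), E l.succ (z i) = z i * c i l.succ := by
    intro i l
    refine hEc (z i) (Fin.cons (z i * c i 0 * t⁻¹) fun l => z i * c i l.succ) ?_ l.succ
    have h1 : KaehlerDifferential.D ℂ F (z i) =
        z i • (c i 0 • dlog t + ∑ j : Fin m, c i j.succ • KaehlerDifferential.D ℂ F (u j)) := by
      rw [← hc2 i]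
      unfold dlog
      rw [smul_smul, mul_inv_cancel₀ (hr0 i), one_smul]
    rw [h1]
    simp only [Fin.cons_zero, Fin.cons_succ, dlog, smul_add, Finset.smul_sum, smul_smul,
      mul_assoc]
  rcases LAM.dich v (fun i l => c i l.succ) (fun i l => hc0 i l.succ) with ⟨a, ha⟩ | ⟨L, hL0, hL1, hL⟩
  · exfalso
    have hres : ResIndep v (fun k => z (a k)) :=
      t_IND htr v t u hF (fun k => z (a k)) (fun k => c (a k)) (fun k => ⟨hr0 _, hr1 _⟩)
        (fun k i => hc0 _ _) (fun k => hc2 _) ha
    obtain ⟨m', hm'⟩ := Ideal.exists_maximal (B.ring j)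
    let X : Germ (m + 1) :=
      { K := F
        fieldK := inferInstance
        algK := inferInstance
        R := B.ring j
        fg := hfg
        frac := hfrac
        normal := hnorm
        trdeg := htr
        m := m'
        max := hm' }
    have hge : ∀ b : X.R, 0 ≤ v.ord b := by
      intro b
      rcases hR b b.2 with h | h
      · rw [h]
        exact v.ord_zero.ge
      · exact h
    obtain ⟨P, hP⟩ := cHT1 X v (Nat.succ_pos m) hge
      ⟨fun k => (⟨z (a k), hzR _⟩ : B.ring j), fun p hp => by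
        have h2 := hres p hp
        have h3 : (((MvPolynomial.aeval (fun k => (⟨z (a k), hzR _⟩ : B.ring j)) p :
            B.ring j)) : F) = MvPolynomial.aeval (fun k => z (a k)) p :=
          MvPolynomial.comp_aeval_apply _ (B.ring j).val p
        refine ⟨fun h4 => h2.1 ?_, ?_⟩
        · rw [← h3]
          exact congrArg Subtype.val h4
        · show v.ord (((MvPolynomial.aeval (fun k => (⟨z (a k), hzR _⟩ : B.ring j)) p :
            B.ring j)) : F) = 0
          rw [h3]
          exact h2.2⟩
    exact hnP ⟨P, hP⟩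
  · refine ⟨L, hL0, hL1, ?_⟩
    let Δ : Derivation ℂ F F := ∑ l : Fin m, L l • E l.succ
    have hΔ : ∀ a, Δ a = ∑ l : Fin m, L l * E l.succ a := by
      intro a
      have h1 : ∀ s : Finset (Fin m), (∑ l ∈ s, L l • E l.succ : Derivation ℂ F F) a =
          ∑ l ∈ s, L l * E l.succ a := by
        intro s
        induction s using Finset.induction_on with
        | empty => rfl
        | insert l s hl ih =>
          rw [Finset.sum_insert hl, Finset.sum_insert hl, Derivation.add_apply, ih,
            Derivation.smul_apply, smul_eq_mul]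
      exact h1 Finset.univ
    have hΔg : ∀ i, v.Ge 1 (Δ (g i)) := by
      intro i
      have h1 : Δ (g i) = Δ (z i) := by
        show Δ (g i) = Δ (g i + algebraMap ℂ F (r i))
        rw [map_add, Derivation.map_algebraMap, add_zero]
      have h2 : Δ (z i) = z i * ∑ l : Fin m, L l * c i l.succ := by
        rw [hΔ, Finset.mul_sum]
        refine Finset.sum_congr rfl fun l _ => ?_
        rw [hEz]
        ring
      rw [h1, h2]
      exact Ge.mul_left (hR _ (hzR i)) (hL i)
    have hΔR : ∀ a ∈ B.ring j, v.Ge 1 (Δ a) := by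
      refine LAM.small v Δ _ hR ?_
      rintro _ ⟨i, rfl⟩
      exact hΔg i
    rintro a ⟨p, hp, q, hq, hq0, hq1, haq⟩ c' hc'
    have h1 : ∑ l, L l * c' l.succ = Δ a := by
      rw [hΔ]
      exact Finset.sum_congr rfl fun l _ => by rw [hEc a c' hc' l.succ]
    rw [h1]
    have ha : a = p * q⁻¹ := by
      rw [← haq, mul_assoc, mul_inv_cancel₀ hq0, mul_one]
    have haG : v.Ge 0 a := by
      rw [ha]
      exact Ge.mul_left (hR p hp) (Ge.inv hq0 hq1)
    have h2 : Δ a = q⁻¹ * (Δ p - a * Δ q) := by
      have h3 : Δ p = a * Δ q + q * Δ a := by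
        rw [← haq, Derivation.leibniz, smul_eq_mul, smul_eq_mul]
      rw [h3, add_sub_cancel_left, ← mul_assoc, inv_mul_cancel₀ hq0, one_mul]
    rw [h2]
    exact Ge.mul_left (Ge.inv hq0 hq1) ((hΔR p hp).sub (Ge.mul_left haG (hΔR q hq)))

end

end RMM
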