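import Pool.Agent.RMM.StS
import Pool.Agent.MMCI.Tools
import Pool.Agent.MMCI.CHW
import Pool.Agent.MMCI.CRT
import Pool.Agent.MMCI.FRC
import Pool.Agent.MldGeo.Ord

/-!
# LPD: local data at a valuation which is a multiple of a prime divisor of `B` on `F`
-/

set_option autoImplicit false

namespace RMM

open MldGeo MMCI

noncomputable section

namespace LPD

/-- The valuation ring as a subalgebra. -/
def vring {b : ℕ} {F : Type} [Field F] [Algebra ℂ F] (w0 : DivVal b F) : Subalgebra ℂ F where
  carrier := {a | w0.Ge 0 a}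
  mul_mem' := by
    intro a c ha hc
    by_cases h1 : a = 0
    · left
      rw [h1, zero_mul]
    by_cases h2 : c = 0
    · left
      rw [h2, mul_zero]
    · right
      rw [w0.ord_mul _ _ h1 h2]
      have h3 := DivVal.Ge.le ha h1
      have h4 := DivVal.Ge.le hc h2
      omega
  add_mem' := by
    intro a c ha hc
    by_cases h1 : a = 0
    · rw [h1, zero_add]
      exact hc
    by_cases h2 : c = 0
    · rw [h2, add_zero]
      exact ha
    by_cases h3 : a + c = 0
    · left
      exact h3
    · right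
      have h4 := DivVal.Ge.le ha h1
      have h5 := DivVal.Ge.le hc h2
      have h6 := w0.ord_add _ _ h1 h2 h3
      have h7 : 0 ≤ min (w0.ord a) (w0.ord c) := le_min h4 h5
      exact h7.trans h6
  algebraMap_mem' := fun c => DivVal.Ge.const w0 c

theorem mem_vring {b : ℕ} {F : Type} [Field F] [Algebra ℂ F] {w0 : DivVal b F} {a : F} :
    a ∈ vring w0 ↔ w0.Ge 0 a := Iff.rfl

variable {F K : Type} [Field F] [Field K] [Algebra ℂ F] [Algebra ℂ K] [Algebra F K]

/-- The least order of the coefficients is the order of a coefficient. -/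
theorem exists_coef {n e' : ℕ} (v : DivVal e' K) (f : LR F n) (hf : f ≠ 0) :
    ∃ m : Fin n → ℤ, f.coeff m ≠ 0 ∧ v.ord (algebraMap F K (f.coeff m)) = cmin v (coefs f) ∧
      ∀ m' : Fin n → ℤ, f.coeff m' ≠ 0 →
        v.ord (algebraMap F K (f.coeff m)) ≤ v.ord (algebraMap F K (f.coeff m')) := by
  have hne : f.coeff.support.Nonempty := by
    rw [Finset.nonempty_iff_ne_empty]
    intro h
    apply hf
    rw [Finsupp.support_eq_empty] at h
    ext m
    rw [h]
    rfl
  obtain ⟨m, hm, hmin⟩ := f.coeff.support.exists_min_image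
    (fun m => v.ord (algebraMap F K (f.coeff m))) hne
  have hmin' : ∀ m' : Fin n → ℤ, f.coeff m' ≠ 0 →
      v.ord (algebraMap F K (f.coeff m)) ≤ v.ord (algebraMap F K (f.coeff m')) :=
    fun m' hm' => hmin m' (Finsupp.mem_support_iff.2 hm')
  refine ⟨m, Finsupp.mem_support_iff.1 hm, ?_, hmin'⟩
  have hl : IsLeast ((fun c => v.ord (algebraMap F K c)) '' coefs f)
      (v.ord (algebraMap F K (f.coeff m))) := by
    constructor
    · exact ⟨f.coeff m, ⟨m, hm, rfl⟩, rfl⟩
    · rintro _ ⟨_, ⟨m', hm', rfl⟩, rfl⟩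
      exact hmin m' hm'
  exact hl.csInf_eq.symm

end LPD

open LPD in
/-- LPD. -/
theorem t_LPD (_hDLB : S_DLB) (hFRC0 : S_FRC0) (hEXM : S_EXM) : S_LPD := by
  intro F K _ _ _ _ _ _ b e n r B κ y0 β f x hB hf v hX w0 c hb hc hv hPD
  obtain ⟨j, P, hP1, hP2, hP3, hP4⟩ := hPD
  obtain ⟨y, d, hy, hy0, hyo, hdA, hdual, -⟩ := hFRC0 hB.dimF hb w0
  obtain ⟨h, hh0, hhe, hho⟩ := t_CHW hB.dimF hb (dlogs y) (dlogs y0) hy0 hB.y0_ind
  have hcen : HasCentre (B.ring j) w0 P := ⟨hP1, hP3, hP4⟩
  have hloc := (t_CRT (B.ring j) (t_FRC B j).1 (t_FRC B j).2 (hB.normal j) hB.dimF w0 P hcen).1 hP2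
  have hinj : Function.Injective (algebraMap F K) := (algebraMap F K).injective
  have hne : ∀ {a : F}, a ≠ 0 → algebraMap F K a ≠ 0 := fun ha h0 =>
    ha (hinj (h0.trans (map_zero _).symm))
  have hcz : (0 : ℤ) < (c : ℤ) := by exact_mod_cast hc
  have hon : OnChart B v j := by
    intro a ha
    right
    rw [hv]
    exact mul_nonneg hcz.le (hP3 ⟨a, ha⟩)
  -- the valuation ring is the local ring of the centre
  have hmem : ∀ a, a ∈ vring w0 ↔ InO B v a := by
    intro a
    rw [mem_vring]
    constructor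
    · intro ha
      obtain ⟨p, q, hq, hpq⟩ := hloc a ha
      refine ⟨j, hon, p, p.2, q, q.2, CRT.ne_zero hq, ?_, hpq⟩
      rw [hv, CRT.ord_eq hcen hq, mul_zero]
    · rintro ⟨j', hj', p, hp, q, -, hq0, hqv, hpq⟩
      by_cases ha : a = 0
      · exact Or.inl ha
      · right
        have hp0 : p ≠ 0 := by
          rw [← hpq]
          exact mul_ne_zero ha hq0
        have h1 : w0.ord q = 0 := by
          rw [hv] at hqv
          rcases mul_eq_zero.1 hqv with h2 | h2
          · exact absurd h2 hcz.ne'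
          · exact h2
        have h2 : 0 ≤ w0.ord p := by
          have h3 := DivVal.Ge.le (hj' p hp) (hne hp0)
          rw [hv] at h3
          exact nonneg_of_mul_nonneg_right h3 hcz
        have h3 : w0.ord p = w0.ord a := by
          rw [← hpq, w0.ord_mul _ _ ha hq0, h1, add_zero]
        rw [← h3]
        exact h2
  -- the order of the equation of `K_B`
  have hβ : (κ : ℤ) * v.ord (algebraMap F K h) = β v := by
    obtain ⟨m, hm, hPm⟩ := Ideal.exists_le_maximal P hP1.ne_top
    have hth : Through B v j m := by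
      refine ⟨hon, fun a ha => hPm ((hP4 a).2 ?_)⟩
      by_cases ha0 : a = 0
      · exact Or.inl ha0
      · right
        have ha1 : (a : F) ≠ 0 := fun h0 => ha0 (Subtype.ext h0)
        have h3 := DivVal.Ge.le ha (hne ha1)
        rw [hv] at h3
        by_contra h4
        have h5 : (c : ℤ) * w0.ord (a : F) ≤ 0 := mul_nonpos_of_nonneg_of_nonpos hcz.le (not_lt.1 h4)
        omega
    obtain ⟨S, hS⟩ := hB.eqn
    obtain ⟨a, -, ha0, ha⟩ := hS j m hm
    have h1 := ha w0 P ⟨hP1, hP2, hP3, hP4⟩ hPm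
    have h2 := hB.beta v j m hm hth a ha0 ha
    rw [← h2, hv, hv, h1, hho w0, hyo]
    ring
  -- the coefficients of least order
  choose m hm0 hmv hmin using fun i => exists_coef v (f i) (hf i)
  obtain ⟨σ, hσ0, hσ⟩ := hX
  obtain ⟨σ', hσ'1, -⟩ := hEXM (b := b) y d f x (fun i => (f i).coeff (m i)) σ
  have hprod : (∏ i, (f i).coeff (m i)) ≠ 0 := Finset.prod_ne_zero_iff.2 fun i _ => hm0 i
  have hdet : (Matrix.of fun i j : Fin r =>
      gr y d (((f i).coeff (m i))⁻¹ • f i) x (σ' (Sum.inl j))).det ≠ 0 := by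
    rw [hσ'1]
    exact mul_ne_zero (hne (inv_ne_zero hprod)) hσ0
  refine ⟨
    { A := vring w0
      memA := hmem
      y := y
      y_mem := fun l => Or.inr (hy l).2.ge
      y_ne := fun l => (hy l).1
      y_ord := fun l => by rw [hv, (hy l).2, mul_zero]
      d := d
      dA := fun l a ha => hdA l a ha
      dual := hdual
      h := h
      h_ne := hh0
      h_eq := hhe
      h_ord := hβ
      u := fun i => (f i).coeff (m i)
      u_ne := hm0
      u_coef := ?_
      u_ord := hmv
      σ := σ'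
      det_ne := hdet
      det_ord := ?_ }⟩
  · intro i m'
    rw [mem_vring]
    by_cases h1 : (f i).coeff m' = 0
    · left
      rw [h1, mul_zero]
    · right
      rw [w0.ord_mul _ _ (inv_ne_zero (hm0 i)) h1, DivVal.ord_inv]
      have h2 := hmin i m' h1
      rw [hv, hv] at h2
      have h3 := le_of_mul_le_mul_left h2 hcz
      omega
  · rw [hσ'1, v.ord_mul _ _ (hne (inv_ne_zero hprod)) hσ0, hσ, map_inv₀, DivVal.ord_inv, map_prod,
      DivVal.ord_prod v _ _ fun i _ => hne (hm0 i)]
    have h4 : ∀ i, v.ord (algebraMap F K ((f i).coeff (m i))) = cmin v (coefs (f i)) := hmv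
    simp only [h4]
    ring

end

end RMM
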