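import Pool.Agent.RMM.StS

/-!
# Local data when `v` is trivial on `F`
-/

set_option autoImplicit false

namespace RMM

open MldGeo MMCI

noncomputable section

namespace LTR

variable {F K : Type} [Field F] [Field K] [Algebra ℂ F] [Algebra ℂ K] [Algebra F K]
  [IsScalarTower ℂ F K] {b e e' n r : ℕ}

lemma onChart (B : ProjModel F) (v : DivVal e' K)
    (hv : ∀ a : F, a ≠ 0 → v.ord (algebraMap F K a) = 0) (j : Fin (B.N + 1)) : OnChart B v j := by
  intro c _
  by_cases h : c = 0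
  · left
    rw [h, map_zero]
  · right
    rw [hv c h]

lemma through (B : ProjModel F) (v : DivVal e' K)
    (hv : ∀ a : F, a ≠ 0 → v.ord (algebraMap F K a) = 0) (j : Fin (B.N + 1))
    (m : Ideal (B.ring j)) : Through B v j m := by
  refine ⟨onChart B v hv j, fun c hc => ?_⟩
  by_cases h : (c : F) = 0
  · have : c = 0 := Subtype.ext h
    rw [this]
    exact m.zero_mem
  · exfalso
    rcases hc with h1 | h1
    · exact h ((map_eq_zero (algebraMap F K)).1 h1)
    · rw [hv c h] at h1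
      omega

lemma inO (B : ProjModel F) (v : DivVal e' K)
    (hv : ∀ a : F, a ≠ 0 → v.ord (algebraMap F K a) = 0) (a : F) : InO B v a := by
  refine ⟨0, onChart B v hv 0, ?_⟩
  have h1 : a ∈ IntermediateField.adjoin ℂ (Set.range fun j => B.s j / B.s 0) := by
    rw [B.gen]
    exact IntermediateField.mem_top
  rw [IntermediateField.mem_adjoin_iff_div] at h1
  obtain ⟨p, hp, q, hq, h2⟩ := h1
  by_cases h3 : q = 0
  · refine ⟨0, Subalgebra.zero_mem _, 1, Subalgebra.one_mem _, one_ne_zero, hv 1 one_ne_zero, ?_⟩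
    rw [h2, h3]
    simp
  · refine ⟨p, hp, q, hq, h3, hv q h3, ?_⟩
    rw [h2, div_mul_cancel₀ _ h3]

lemma cmin_eq (v : DivVal e' K) (hv : ∀ a : F, a ≠ 0 → v.ord (algebraMap F K a) = 0)
    (g : LR F n) (hg : g ≠ 0) : cmin v (coefs g) = 0 := by
  have h0 : g.coeff ≠ 0 := fun h => hg (by
    apply AddMonoidAlgebra.ext
    rw [h]
    rfl)
  obtain ⟨m, hm⟩ := Finsupp.support_nonempty_iff.2 h0
  have h1 : (fun c => v.ord (algebraMap F K c)) '' coefs g = {0} := by
    apply Set.eq_singleton_iff_unique_mem.2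
    refine ⟨⟨g.coeff m, ⟨m, hm, rfl⟩, hv _ (Finsupp.mem_support_iff.1 hm)⟩, ?_⟩
    rintro _ ⟨c, ⟨m', hm', rfl⟩, rfl⟩
    exact hv _ (Finsupp.mem_support_iff.1 hm')
  rw [cmin, h1, csInf_singleton]

end LTR

theorem t_LTR : S_DLB → S_EXM → S_LTR := by
  intro hDLB hEXM F K _ _ _ _ _ _ b e n r B κ y0 β f x hB hf v hX hv
  obtain ⟨d, -, hd⟩ := hDLB hB.dimF y0 hB.y0_ne hB.y0_ind
  obtain ⟨σ, hσ, hσo⟩ := hX
  have hu : ∀ i, ∃ m, (f i).coeff m ≠ 0 := by
    intro i
    by_contra hcon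
    push Not at hcon
    apply hf i
    apply AddMonoidAlgebra.ext
    exact Finsupp.ext hcon
  choose μ hμ using hu
  obtain ⟨σ', hσ', -⟩ := hEXM (K := K) y0 d f x (fun i => (f i).coeff (μ i)) σ
  have hprod : (∏ i, (f i).coeff (μ i))⁻¹ ≠ 0 :=
    inv_ne_zero (Finset.prod_ne_zero_iff.2 fun i _ => hμ i)
  have hprod' : algebraMap F K (∏ i, (f i).coeff (μ i))⁻¹ ≠ 0 :=
    (map_ne_zero (algebraMap F K)).2 hprod
  have hβ : β v = 0 := by
    obtain ⟨m, hm⟩ := Ideal.exists_maximal (B.ring 0)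
    obtain ⟨S, hS⟩ := hB.eqn
    obtain ⟨a, -, ha, hE⟩ := hS 0 m hm
    rw [← hB.beta v 0 m hm (LTR.through B v hv 0 m) a ha hE]
    exact hv a ha
  refine ⟨{
    A := ⊤
    memA := fun a => ⟨fun _ => LTR.inO B v hv a, fun _ => Algebra.mem_top⟩
    y := y0
    y_mem := fun _ => Algebra.mem_top
    y_ne := hB.y0_ne
    y_ord := fun l => hv _ (hB.y0_ne l)
    d := d
    dA := fun _ _ _ => Algebra.mem_top
    dual := hd
    h := 1
    h_ne := one_ne_zero
    h_eq := (one_smul _ _).symm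
    h_ord := ?_
    u := fun i => (f i).coeff (μ i)
    u_ne := hμ
    u_coef := fun _ _ => Algebra.mem_top
    u_ord := fun i => ?_
    σ := σ'
    det_ne := ?_
    det_ord := ?_ }⟩
  · rw [hβ, hv 1 one_ne_zero, mul_zero]
  · rw [hv _ (hμ i), LTR.cmin_eq v hv (f i) (hf i)]
  · rw [hσ']
    exact mul_ne_zero hprod' hσ
  · rw [hσ', v.ord_mul _ _ hprod' hσ, hv _ hprod, hσo, zero_add,
      Finset.sum_eq_zero fun i _ => LTR.cmin_eq v hv (f i) (hf i), add_zero]

end

end RMM
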