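import Pool.Agent.RMM.StS2
import Pool.Agent.RMM.RBD
import Pool.Agent.MMCI.Tools

/-!
# RMM_RBD3: the base data for a base with terminal singularities
-/

namespace RMM

open MldGeo MMCI

noncomputable section

namespace RBD3

/-- a transcendence basis with independent differentials -/
theorem exists_y0 {F : Type} [Field F] [Algebra ℂ F] {b : ℕ}
    (htr : Algebra.trdeg ℂ F = (b : Cardinal)) :
    ∃ y0 : Fin b → F, (∀ l, y0 l ≠ 0) ∧ dlogs y0 ≠ 0 := by
  obtain ⟨s, hs⟩ := exists_isTranscendenceBasis ℂ F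
  have hc : Cardinal.mk s = b := hs.cardinalMk_eq_trdeg.trans htr
  have hf : Finite s := by
    rw [← Cardinal.lt_aleph0_iff_finite, hc]
    exact Cardinal.natCast_lt_aleph0
  have : Fintype s := Fintype.ofFinite s
  have hcard : Fintype.card s = b := by
    rw [Cardinal.mk_fintype] at hc
    exact_mod_cast hc
  let eqv : Fin b ≃ s := (Fintype.equivFinOfCardEq hcard).symm
  have hx : AlgebraicIndependent ℂ fun i => (eqv i : F) := hs.1.comp _ eqv.injective
  have hne : ∀ l, (eqv l : F) ≠ 0 := fun l => hx.ne_zero l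
  refine ⟨fun i => (eqv i : F), hne, ?_⟩
  obtain ⟨hli, hsp⟩ := cTBAS htr _ hx
  let B : Module.Basis (Fin b) F (Ω[F⁄ℂ]) := Module.Basis.mk hli hsp.ge
  have hB : (B : Fin b → Ω[F⁄ℂ]) = fun i => KaehlerDifferential.D ℂ F (eqv i : F) :=
    Module.Basis.coe_mk hli hsp.ge
  have h1 := FRM.iota_ne B
  rw [hB] at h1
  have h2 : dlogs (fun i => (eqv i : F)) = (∏ i, (eqv i : F)⁻¹) •
      exteriorPower.ιMulti F b fun i => KaehlerDifferential.D ℂ F (eqv i : F) :=
    (exteriorPower.ιMulti F b).map_smul_univ (fun i => (eqv i : F)⁻¹)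
      (fun i => KaehlerDifferential.D ℂ F (eqv i : F))
  rw [h2]
  exact smul_ne_zero (Finset.prod_ne_zero_iff.2 fun i _ => inv_ne_zero (hne i)) h1

end RBD3

theorem t_RBD3 : M_RBD3 := by
  intro _ hCHT hBET hFSU F K _ _ _ _ _ _ b e' B hdim hT
  obtain ⟨y0, hy0, hy1⟩ := RBD3.exists_y0 hdim
  have hnor : ∀ j (a : F), IsIntegral (B.ring j) a → a ∈ B.ring j := fun j => (hT j).1
  obtain ⟨κ, S, hκ, hS⟩ := hFSU hdim B hT (dlogs y0) hy1
  have hβ : ∀ v : DivVal e' K, ∃ β : ℤ, ∀ j (m : Ideal (B.ring j)), m.IsMaximal →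
      Through B v j m → ∀ a : F, a ≠ 0 → IsEquation (B.ring j) (dlogs y0) κ m a →
      v.ord (algebraMap F K a) = β := by
    intro v
    obtain ⟨j, m, hm, hth⟩ := RBD.exists_through hCHT B v
    obtain ⟨a, -, ha, hea⟩ := hS j m hm
    refine ⟨v.ord (algebraMap F K a), fun j' m' hm' hth' a' ha' hea' => ?_⟩
    exact hBET B κ (dlogs y0) hdim hnor v j' j m' m a' a hm' hm hth' hth ha' ha hea' hea
  choose β hβ' using hβ
  exact ⟨κ, y0, β,
    { κ_pos := hκ
      dimF := hdim
      y0_ne := hy0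
      y0_ind := hy1
      normal := hnor
      eqn := ⟨S, hS⟩
      beta := fun v j m hm hth a ha hea => hβ' v j m hm hth a ha hea }⟩

end

end RMM
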