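import Pool.Agent.RMM.StS
import Pool.Agent.RMM.WDG
import Pool.Agent.RMM.REV
import Pool.Agent.MMCI.Tools
import Pool.Agent.MMCI.LCM
import Pool.Agent.MMCI.FRC

/-!
# Relative minimal models: the discrepancy inequality over a terminal base (`S_RDQ`)
-/

set_option autoImplicit false

namespace RMM

open MldGeo MMCI

noncomputable section

namespace RDQ

open MldGeo.DivVal

variable {F K : Type} [Field F] [Field K] [Algebra ℂ F] [Algebra ℂ K] [Algebra F K]
  [IsScalarTower ℂ F K] {b e e' n r : ℕ}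

/-- some chart contains the centre -/
theorem exists_chart {m : ℕ} (B : ProjModel F) (w : DivVal m F) :
    ∃ j : Fin (B.N + 1), ∀ a ∈ B.ring j, w.Ge 0 a := by
  obtain ⟨j, -, hj⟩ := Finset.exists_min_image (Finset.univ : Finset (Fin (B.N + 1)))
    (fun j => w.ord (B.s j)) ⟨0, Finset.mem_univ _⟩
  refine ⟨j, fun a ha => ?_⟩
  unfold ProjModel.ring at ha
  induction ha using Algebra.adjoin_induction with
  | mem x hx =>
    obtain ⟨l, rfl⟩ := hx
    right
    show 0 ≤ w.ord (B.s l / B.s j)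
    rw [w.ord_div (B.ne l) (B.ne j)]
    have := hj l (Finset.mem_univ l)
    omega
  | algebraMap c => exact Ge.const w c
  | add x y _ _ hx hy => exact hx.add hy
  | mul x y _ _ hx hy => exact hx.mul_left hy

/-- the centre -/
def ctr {m : ℕ} (w : DivVal m F) (R : Subalgebra ℂ F) (h : ∀ a ∈ R, w.Ge 0 a) : Ideal R where
  carrier := {a | w.Ge 1 (a : F)}
  zero_mem' := Or.inl rfl
  add_mem' := fun {a b} ha hb => by
    show w.Ge 1 ((a : F) + (b : F))
    exact Ge.add ha hb
  smul_mem' := fun c a ha => by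
    show w.Ge 1 ((c : F) * (a : F))
    exact Ge.mul_left (h c c.2) ha

theorem mem_ctr {m : ℕ} (w : DivVal m F) (R : Subalgebra ℂ F) (h : ∀ a ∈ R, w.Ge 0 a) (a : R) :
    a ∈ ctr w R h ↔ w.Ge 1 (a : F) := Iff.rfl

theorem mem_ctr' {m : ℕ} (w : DivVal m F) (R : Subalgebra ℂ F) (h : ∀ a ∈ R, w.Ge 0 a) (a : R) :
    a ∈ ctr w R h ↔ a = 0 ∨ 0 < w.ord (a : F) := by
  rw [mem_ctr]
  unfold DivVal.Ge
  constructor
  · rintro (h1 | h1)
    · left
      exact Subtype.ext h1
    · right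
      omega
  · rintro (h1 | h1)
    · left
      rw [h1]
      rfl
    · right
      omega

theorem hasCentre {m : ℕ} (w : DivVal m F) (R : Subalgebra ℂ F) (h : ∀ a ∈ R, w.Ge 0 a) :
    HasCentre R w (ctr w R h) := by
  refine ⟨⟨?_, ?_⟩, ?_, mem_ctr' w R h⟩
  · intro htop
    have h1 : (1 : R) ∈ ctr w R h := by rw [htop]; trivial
    rw [mem_ctr] at h1
    rcases h1 with h2 | h2
    · exact one_ne_zero h2
    · have h3 : w.ord ((1 : R) : F) = 0 := w.ord_one
      omega
  · intro a c hac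
    by_contra hcon
    push Not at hcon
    obtain ⟨ha, hc⟩ := hcon
    have ha' : (a : F) ≠ 0 := by
      intro h0
      exact ha (Or.inl h0)
    have hc' : (c : F) ≠ 0 := by
      intro h0
      exact hc (Or.inl h0)
    have h1 : w.ord (a : F) ≤ 0 := by
      by_contra h2
      exact ha (Or.inr (by omega))
    have h2 : w.ord (c : F) ≤ 0 := by
      by_contra h3
      exact hc (Or.inr (by omega))
    rw [mem_ctr] at hac
    have h3 : w.Ge 1 ((a : F) * (c : F)) := hac
    have h4 := h3.le (mul_ne_zero ha' hc')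
    rw [w.ord_mul _ _ ha' hc'] at h4
    omega
  · intro a
    rcases h a a.2 with h1 | h1
    · rw [h1, w.ord_zero]
    · exact h1

/-- dual derivations of a transcendence basis -/
theorem exists_dual {n : ℕ} (htr : Algebra.trdeg ℂ F = (n : Cardinal)) (y : Fin n → F)
    (hy : AlgebraicIndependent ℂ y) : ∃ d : Fin n → Derivation ℂ F F, ∀ a : F,
      KaehlerDifferential.D ℂ F a = ∑ l, d l a • KaehlerDifferential.D ℂ F (y l) := by
  obtain ⟨hli, hsp⟩ := cTBAS htr y hy
  let bs : Module.Basis (Fin n) F (Ω[F⁄ℂ]) := Module.Basis.mk hli (by rw [hsp])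
  refine ⟨fun l => (bs.coord l).compDer (KaehlerDifferential.D ℂ F), fun a => ?_⟩
  refine (bs.sum_repr (KaehlerDifferential.D ℂ F a)).symm.trans ?_
  refine Finset.sum_congr rfl fun l _ => ?_
  have h2 : bs l = KaehlerDifferential.D ℂ F (y l) := by
    show (Module.Basis.mk hli _) l = _
    rw [Module.Basis.mk_apply]
  rw [h2]
  rfl

/-- the order of the logarithmic form of a frame -/
theorem logOrd_frame {m : ℕ} (htr : Algebra.trdeg ℂ F = ((m + 1 : ℕ) : Cardinal))
    (w : DivVal (m + 1) F) (t : F) (u : Fin m → F) (hf : Frame w t u) :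
    (∀ l, (Fin.cons t u : Fin (m + 1) → F) l ≠ 0) ∧
    (dlogs (Fin.cons t u : Fin (m + 1) → F) ≠ 0) ∧
    (∀ ω : Forms (m + 1) F, ∃ g : F, ω = g • dlogs (Fin.cons t u : Fin (m + 1) → F)) ∧
    ∀ g : F, g ≠ 0 → w.logOrd (g • dlogs (Fin.cons t u : Fin (m + 1) → F)) = w.ord g := by
  obtain ⟨ht, ht1, hu⟩ := hf
  obtain ⟨h1, h2, h3⟩ := cFRM htr w t u ⟨ht, ht1, hu⟩
  have hune : ∀ l, u l ≠ 0 ∧ w.ord (u l) = 0 := by
    intro l
    have := hu (MvPolynomial.X l) (MvPolynomial.X_ne_zero l)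
    rwa [MvPolynomial.aeval_X] at this
  have hne : ∀ l, (Fin.cons t u : Fin (m + 1) → F) l ≠ 0 := by
    intro l
    refine Fin.cases ?_ (fun i => ?_) l
    · exact ht
    · exact (hune i).1
  set P : F := ∏ l, u l with hP
  have hP0 : P ≠ 0 := Finset.prod_ne_zero_iff.2 fun l _ => (hune l).1
  have hPo : w.ord P = 0 := by
    rw [hP, w.ord_prod _ _ fun i _ => (hune i).1]
    exact Finset.sum_eq_zero fun l _ => (hune l).2
  have key : frameForm t u = P • dlogs (Fin.cons t u : Fin (m + 1) → F) := by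
    unfold frameForm dlogs
    have h4 := (exteriorPower.ιMulti F (m + 1) (M := Ω[F⁄ℂ])).map_smul_univ
      (Fin.cons (1 : F) u : Fin (m + 1) → F)
      (fun i => dlog ((Fin.cons t u : Fin (m + 1) → F) i))
    have h5 : (fun i => (Fin.cons (1 : F) u : Fin (m + 1) → F) i •
        dlog ((Fin.cons t u : Fin (m + 1) → F) i)) =
        (Fin.cons (dlog t) fun j => KaehlerDifferential.D ℂ F (u j)) := by
      funext i
      refine Fin.cases ?_ (fun i => ?_) i
      · show (1 : F) • dlog t = dlog t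
        rw [one_smul]
      · show u i • dlog (u i) = KaehlerDifferential.D ℂ F (u i)
        unfold dlog
        rw [smul_smul, mul_inv_cancel₀ (hune i).1, one_smul]
    rw [h5] at h4
    rw [h4, Fin.prod_univ_succ]
    congr 1
    show (1 : F) * ∏ i, u i = P
    rw [one_mul]
  refine ⟨hne, ?_, ?_, ?_⟩
  · intro h0
    apply h1
    rw [key, h0, smul_zero]
  · intro ω
    obtain ⟨g, hg⟩ := h2 ω
    exact ⟨g * P, by rw [hg, key, smul_smul]⟩
  · intro g hg
    have h6 : g • dlogs (Fin.cons t u : Fin (m + 1) → F) = (g * P⁻¹) • frameForm t u := by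
      rw [key, smul_smul, mul_assoc, inv_mul_cancel₀ hP0, mul_one]
    rw [h6, h3 _ (mul_ne_zero hg (inv_ne_zero hP0)), w.ord_mul _ _ hg (inv_ne_zero hP0),
      ord_inv, hPo]
    omega

/-- the equations of two multiples of the canonical divisor are proportional -/
theorem ord_prop {b : ℕ} (htr : Algebra.trdeg ℂ F = (b : Cardinal)) (B : ProjModel F)
    (hn : ∀ j (a : F), IsIntegral (B.ring j) a → a ∈ B.ring j) (j : Fin (B.N + 1))
    (m : Ideal (B.ring j)) (hm : m.IsMaximal) (ω : Forms b F) (k k' : ℕ) (g a : F)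
    (hg : g ≠ 0) (ha : a ≠ 0) (heg : IsEquation (B.ring j) ω k m g)
    (hea : IsEquation (B.ring j) ω k' m a) (w : DivVal b F)
    (h0 : ∀ c ∈ B.ring j, w.Ge 0 c) (hle : ctr w (B.ring j) h0 ≤ m) :
    (k : ℤ) * w.ord a = k' * w.ord g := by
  -- a function which has order zero along all prime divisors through `m`
  have key : ∀ z : F, z ≠ 0 → (∀ (v : DivVal b F) (P : Ideal (B.ring j)),
      IsPrimeDivisor (B.ring j) v P → P ≤ m → v.ord z = 0) → 0 ≤ w.ord z := by
    intro z hz h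
    obtain ⟨p, q, hq, hpq⟩ := t_LCM t_FRC B htr hn j m hm z
      (fun v P hP hPm => Or.inr (h v P hP hPm).ge)
    have hq' : ¬ w.Ge 1 (q : F) := fun h1 => hq (hle h1)
    have hq0 : (q : F) ≠ 0 := fun h1 => hq' (Or.inl h1)
    have hqo : w.ord (q : F) = 0 := by
      have h1 := (h0 q q.2).le hq0
      have h2 : ¬ 1 ≤ w.ord (q : F) := fun h3 => hq' (Or.inr h3)
      omega
    have hp0 : (p : F) ≠ 0 := by
      rw [← hpq]
      exact mul_ne_zero hz hq0
    have h3 := (h0 p p.2).le hp0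
    rw [← hpq, w.ord_mul _ _ hz hq0, hqo] at h3
    omega
  have hz : a ^ k / g ^ k' ≠ 0 := div_ne_zero (pow_ne_zero _ ha) (pow_ne_zero _ hg)
  have hord : ∀ v : DivVal b F, v.ord (a ^ k / g ^ k') = k * v.ord a - k' * v.ord g := by
    intro v
    rw [v.ord_div (pow_ne_zero _ ha) (pow_ne_zero _ hg), v.ord_pow, v.ord_pow]
  have h1 := key _ hz (fun v P hP hPm => by
    rw [hord, hea v P hP hPm, heg v P hP hPm]
    ring)
  have h2 := key _ (inv_ne_zero hz) (fun v P hP hPm => by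
    rw [ord_inv, hord, hea v P hP hPm, heg v P hP hPm]
    ring)
  rw [ord_inv, hord] at h2
  rw [hord] at h1
  omega

end RDQ

open RDQ MldGeo.DivVal in
theorem t_RDQ : S_RDQ := by
  intro F K _ _ _ _ _ _ b e n r B κ y0 β f x hB htrK hT hx v hX w0 c hb hc hvw hnot ω hω
  obtain ⟨m, rfl⟩ : ∃ m, b = m + 1 := ⟨b - 1, by omega⟩
  -- the chart and the closed point
  obtain ⟨j, hj⟩ := exists_chart B w0
  have hcen := hasCentre w0 (B.ring j) hj
  set P := ctr w0 (B.ring j) hj with hPdef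
  obtain ⟨mm, hmm, hPm⟩ := Ideal.exists_le_maximal P hcen.1.ne_top
  have hvge : ∀ (k : ℤ) (a : F), w0.Ge 0 a → 0 ≤ v.ord (algebraMap F K a) := by
    intro k a ha
    rcases ha with h | h
    · rw [h, map_zero, v.ord_zero]
    · rw [hvw]
      positivity
  have hthr : Through B v j mm := by
    refine ⟨fun a ha => Or.inr (hvge 0 a (hj a ha)), fun a ha => hPm ?_⟩
    show w0.Ge 1 (a : F)
    rcases ha with h | h
    · left
      exact (map_eq_zero (algebraMap F K)).1 h
    · right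
      rw [hvw] at h
      by_contra h1
      have h2 : w0.ord (a : F) ≤ 0 := by omega
      have h3 : (c : ℤ) * w0.ord (a : F) ≤ 0 := mul_nonpos_of_nonneg_of_nonpos (by positivity) h2
      omega
  have hht : P.height ≠ 1 := fun h => hnot ⟨j, P, hcen.1, h, hcen.2.1, hcen.2.2⟩
  -- terminal singularities
  obtain ⟨k, g, hk, hg, heg, hdisc⟩ := (hT j).2 (dlogs y0) hB.y0_ind mm hmm
  have hd := hdisc w0 P hcen hPm hht
  obtain ⟨S, hS⟩ := hB.eqn
  obtain ⟨a, -, ha, hea⟩ := hS j mm hmm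
  have hβ := hB.beta v j mm hmm hthr a ha hea
  rw [hvw] at hβ
  have hprop := ord_prop hB.dimF B hB.normal j mm hmm (dlogs y0) k κ g a hg ha heg hea w0 hj hPm
  have hpos : 1 ≤ (κ : ℤ) * w0.formOrd (dlogs y0) - w0.ord a := by
    have hκ := hB.κ_pos
    have h1 : (0 : ℤ) < κ * (k * w0.formOrd (dlogs y0) - w0.ord g) := by positivity
    have h2 : (k : ℤ) * (κ * w0.formOrd (dlogs y0) - w0.ord a) =
        κ * (k * w0.formOrd (dlogs y0) - w0.ord g) := by
      linear_combination -hprop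
    rw [← h2] at h1
    have h3 : 0 < (κ : ℤ) * w0.formOrd (dlogs y0) - w0.ord a :=
      (pos_iff_pos_of_mul_pos h1).1 (by exact_mod_cast hk)
    omega
  -- the frame
  obtain ⟨⟨t, u, hfr⟩, halg⟩ := cFRA w0
  obtain ⟨hyne, hy0, hspan, hlog⟩ := logOrd_frame hB.dimF w0 t u hfr
  obtain ⟨h, hh⟩ := hspan (dlogs y0)
  have hhne : h ≠ 0 := by
    rintro rfl
    rw [zero_smul] at hh
    exact hB.y0_ind hh
  obtain ⟨d, hdual⟩ := exists_dual hB.dimF (Fin.cons t u) (halg t u hfr)
  have hlo : w0.formOrd (dlogs y0) = w0.ord h - 1 := by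
    rw [cTXT hB.dimF w0 (dlogs y0) (Nat.succ_pos m) hB.y0_ind, hh, hlog h hhne]
  obtain ⟨σ, hσ, hσo⟩ := hX
  have hrest : ∀ l, rest x σ l ≠ 0 := fun l => hx _
  have hwdg := t_WDG t_REV y0 (Fin.cons t u) d h hB.y0_ne hyne hB.y0_ind hh hdual (rest x σ) hrest
  obtain ⟨hωne, hωres⟩ := hω
  obtain ⟨ε, hε, hres⟩ := hωres σ hσ
  have hε0 : ε ≠ 0 ∧ v.ord ε = 0 := by
    rcases hε with h1 | h1
    · rw [h1]
      exact ⟨one_ne_zero, v.ord_one⟩
    · rw [h1]
      exact ⟨neg_ne_zero.2 one_ne_zero, v.ord_neg_one⟩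
  have he : 0 < m + 1 + e := by omega
  have hD0 : dlogs (zz y0 (rest x σ)) ≠ 0 := by
    intro h0
    rw [h0, smul_zero] at hres
    exact (smul_ne_zero hσ hωne) hres
  have hmap : algebraMap F K h ≠ 0 := by
    intro h0
    exact hhne ((map_eq_zero (algebraMap F K)).1 h0)
  have hD1 : dlogs (zz (Fin.cons t u) (rest x σ)) ≠ 0 := by
    intro h0
    rw [h0, smul_zero] at hwdg
    exact hD0 hwdg
  have hzne : ∀ i, zz (Fin.cons t u) (rest x σ) i ≠ 0 := by
    intro i
    refine Fin.addCases (fun l => ?_) (fun l => ?_) i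
    · unfold zz
      rw [Fin.append_left]
      intro h0
      exact hyne l ((map_eq_zero (algebraMap F K)).1 h0)
    · unfold zz
      rw [Fin.append_right]
      exact hrest l
  have hL1 : 0 ≤ v.logOrd (dlogs (zz (Fin.cons t u) (rest x σ))) :=
    cFDL htrK v _ he hzne hD1
  have hL2 : v.logOrd (dlogs (zz y0 (rest x σ))) =
      c * w0.ord h + v.logOrd (dlogs (zz (Fin.cons t u) (rest x σ))) := by
    rw [hwdg, cFSM htrK v _ _ he hmap hD1, hvw]
  have hL3 : v.ord (rminor f x σ) + v.logOrd ω = v.logOrd (dlogs (zz y0 (rest x σ))) := by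
    rw [← cFSM htrK v _ _ he hσ hωne, hres, cFSM htrK v _ _ he hε0.1 hD0, hε0.2, zero_add]
  unfold bo
  rw [hlo] at hpos
  have hc1 : (1 : ℤ) ≤ c := by exact_mod_cast hc
  have hκ1 : (0 : ℤ) ≤ κ := by positivity
  have e1 : (c : ℤ) * w0.ord h ≤ v.ord (rminor f x σ) + v.logOrd ω := by
    rw [hL3, hL2]
    linarith
  rw [hσo] at e1
  have e2 : (κ : ℤ) * ((c : ℤ) * w0.ord h) ≤
      κ * (rpsi f (wt x v) + ∑ i, cmin v (coefs (f i)) + v.logOrd ω) :=
    mul_le_mul_of_nonneg_left e1 hκ1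
  have e3 : (c : ℤ) * 1 ≤ c * ((κ : ℤ) * (w0.ord h - 1) - w0.ord a) :=
    mul_le_mul_of_nonneg_left hpos (by positivity)
  have e4 : (1 : ℤ) * κ ≤ c * κ := mul_le_mul_of_nonneg_right hc1 hκ1
  rw [← hβ]
  linarith

end

end RMM
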