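import Pool.Agent.RMM.StS
import Pool.Agent.RMM.REV
import Pool.Agent.MMCI.K_BAS
import Pool.Agent.MMCI.K_MON
import Pool.Agent.MMCI.Tools
import Pool.Agent.MldGeo.Ord

/-!
# RNB: exceptional valuations of the base are not big
-/

set_option autoImplicit false
set_option linter.unusedSectionVars false

namespace RMM

open MldGeo MldGeo.DivVal MMCI

noncomputable section

namespace RNB

/-! ### the abstract statement for arbitrary positive dimension -/

theorem abn2 (h : S_ABN2) {e' N r : ℕ} {K : Type} [Field K] [Algebra ℂ K] (he : 0 < e')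
    (z : Fin N → K) (G : Fin r → Fin N → K) (hR : Rel e' z G) (v : DivVal e' K) (ψ : Fin r → ℤ)
    (σ : Fin r ⊕ Fin e' ≃ Fin N) (hU : GUnit G v ψ σ) (ν : Fin 2 → Fin N → K)
    (h0 : ∀ j c, v.Ge 0 (ν j c)) (h1 : IndepMod v ν)
    (h2 : ∀ i j, v.Ge (ψ i + 1) (∑ c, ν j c * G i c)) (a : Fin (e' - 1) → K)
    (ρ : Fin (e' - 1) → Fin N → K) (h3 : ∀ l, Expr z v (a l) (ρ l))
    (h4 : ∀ l j, v.Ge 1 (∑ c, ν j c * ρ l c)) (h5 : ResIndep v a) : False := by
  obtain ⟨m, rfl⟩ : ∃ m, e' = m + 1 := ⟨e' - 1, by omega⟩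
  exact h z G hR v ψ σ hU ν h0 h1 h2 ⟨a, ρ, h3, h4, h5⟩

/-! ### a frame of the valuation of the base -/

section frame

variable {F : Type} [Field F] [Algebra ℂ F] {m : ℕ}

theorem u_ne {w0 : DivVal (m + 1) F} {t : F} {u : Fin m → F} (hF : Frame w0 t u) (l : Fin m) :
    u l ≠ 0 ∧ w0.ord (u l) = 0 := by
  have h := hF.2.2 (MvPolynomial.X l) (MvPolynomial.X_ne_zero l)
  simpa using h

theorem y_ne {w0 : DivVal (m + 1) F} {t : F} {u : Fin m → F} (hF : Frame w0 t u)
    (l : Fin (m + 1)) : (Fin.cons t u : Fin (m + 1) → F) l ≠ 0 := by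
  refine Fin.cases ?_ (fun j => ?_) l
  · rw [Fin.cons_zero]
    exact hF.1
  · rw [Fin.cons_succ]
    exact (u_ne hF j).1

theorem dlogs_ne (hdim : Algebra.trdeg ℂ F = ((m + 1 : ℕ) : Cardinal)) {w0 : DivVal (m + 1) F}
    {t : F} {u : Fin m → F} (hF : Frame w0 t u) :
    dlogs (Fin.cons t u : Fin (m + 1) → F) ≠ 0 := by
  obtain ⟨hli, -⟩ := cTBAS hdim _ ((cFRA w0).2 t u hF)
  obtain ⟨hf, hr⟩ := MMCI.BAS.finrank_eq hdim
  have h1 := hli.units_smul fun l => Units.mk0 (((Fin.cons t u : Fin (m + 1) → F) l)⁻¹)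
    (inv_ne_zero (y_ne hF l))
  have h2 := h1.span_eq_top_of_card_eq_finrank' (by rw [Fintype.card_fin, hr])
  have h3 := FRM.iota_ne (Module.Basis.mk h1 h2.ge)
  rw [Module.Basis.coe_mk] at h3
  exact h3

/-- the logarithmic derivatives -/
theorem coef (hdim : Algebra.trdeg ℂ F = ((m + 1 : ℕ) : Cardinal)) {w0 : DivVal (m + 1) F}
    {t : F} {u : Fin m → F} (hF : Frame w0 t u) (d : Fin (m + 1) → Derivation ℂ F F)
    (hd : ∀ l k, d l ((Fin.cons t u : Fin (m + 1) → F) k) = if l = k then 1 else 0)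
    {a : F} (ha : a ≠ 0) :
    w0.Ge 0 (t * d 0 a / a) ∧ w0.Ge 1 (t * d 0 a / a - (w0.ord a : F)) ∧
      ∀ j : Fin m, w0.Ge 0 (d j.succ a / a) := by
  obtain ⟨c, hc0, hc1, hc2⟩ := cCOE hdim w0 t u hF a ha
  have key : ∀ k, a⁻¹ * d k a = c 0 * (t⁻¹ * d k t) + ∑ j : Fin m, c j.succ * d k (u j) := by
    intro k
    have h := congrArg (d k).liftKaehlerDifferential hc2
    unfold dlog at h
    simp only [map_add, map_sum, map_smul, Derivation.liftKaehlerDifferential_comp_D,
      smul_eq_mul] at h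
    exact h
  have ht : ∀ k, d k t = if k = 0 then 1 else 0 := fun k => by
    have h := hd k 0
    rwa [Fin.cons_zero] at h
  have hu : ∀ k (j : Fin m), d k (u j) = if k = j.succ then 1 else 0 := fun k j => by
    have h := hd k j.succ
    rwa [Fin.cons_succ] at h
  have h0 : t * d 0 a / a = c 0 := by
    have h := key 0
    rw [ht, if_pos rfl, mul_one, Finset.sum_eq_zero fun j _ => ?_, add_zero] at h
    · have ht0 := hF.1
      field_simp at h
      rw [div_eq_iff ha]
      linear_combination h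
    · rw [hu, if_neg (Fin.succ_ne_zero j).symm, mul_zero]
  have h1 : ∀ j : Fin m, d j.succ a / a = c j.succ := by
    intro j
    have h := key j.succ
    rw [ht, if_neg (Fin.succ_ne_zero j), mul_zero, mul_zero, zero_add,
      Finset.sum_eq_single j, hu, if_pos rfl, mul_one] at h
    · rw [← h, div_eq_mul_inv, mul_comm]
    · intro k _ hk
      rw [hu, if_neg (fun h => hk (Fin.succ_injective _ h).symm), mul_zero]
    · intro h
      exact absurd (Finset.mem_univ j) h
  refine ⟨?_, ?_, fun j => ?_⟩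
  · rw [h0]
    exact hc0 0
  · rw [h0]
    exact hc1
  · rw [h1]
    exact hc0 _

theorem ge_t (hdim : Algebra.trdeg ℂ F = ((m + 1 : ℕ) : Cardinal)) {w0 : DivVal (m + 1) F}
    {t : F} {u : Fin m → F} (hF : Frame w0 t u) (d : Fin (m + 1) → Derivation ℂ F F)
    (hd : ∀ l k, d l ((Fin.cons t u : Fin (m + 1) → F) k) = if l = k then 1 else 0)
    {a : F} (ha : w0.Ge 0 a) : w0.Ge 1 (t * d 0 a) := by
  by_cases h0 : a = 0
  · rw [h0, map_zero, mul_zero]
    exact Ge.zero w0 1
  obtain ⟨h1, h2, -⟩ := coef hdim hF d hd h0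
  have h3 : t * d 0 a = a * (t * d 0 a / a) := by
    field_simp
  rw [h3]
  have h4 := ha.le h0
  rcases h4.eq_or_lt with h5 | h5
  · rw [← h5, Int.cast_zero, sub_zero] at h2
    exact ha.mul_left h2
  · exact Ge.mul_right (Ge.of_le h5) h1

theorem ge_u (hdim : Algebra.trdeg ℂ F = ((m + 1 : ℕ) : Cardinal)) {w0 : DivVal (m + 1) F}
    {t : F} {u : Fin m → F} (hF : Frame w0 t u) (d : Fin (m + 1) → Derivation ℂ F F)
    (hd : ∀ l k, d l ((Fin.cons t u : Fin (m + 1) → F) k) = if l = k then 1 else 0)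
    {a : F} (ha : w0.Ge 0 a) (j : Fin m) : w0.Ge 0 (d j.succ a) := by
  by_cases h0 : a = 0
  · rw [h0, map_zero]
    exact Ge.zero w0 0
  obtain ⟨-, -, h1⟩ := coef hdim hF d hd h0
  have h3 : d j.succ a = a * (d j.succ a / a) := by
    field_simp
  rw [h3]
  exact ha.mul_left (h1 j)

theorem ge_y (hdim : Algebra.trdeg ℂ F = ((m + 1 : ℕ) : Cardinal)) {w0 : DivVal (m + 1) F}
    {t : F} {u : Fin m → F} (hF : Frame w0 t u) (d : Fin (m + 1) → Derivation ℂ F F)
    (hd : ∀ l k, d l ((Fin.cons t u : Fin (m + 1) → F) k) = if l = k then 1 else 0)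
    {a : F} (ha : w0.Ge 0 a) (l : Fin (m + 1)) :
    w0.Ge 0 ((Fin.cons t u : Fin (m + 1) → F) l * d l a) := by
  refine Fin.cases ?_ (fun j => ?_) l
  · rw [Fin.cons_zero]
    exact (ge_t hdim hF d hd ha).mono (by norm_num)
  · rw [Fin.cons_succ]
    exact Ge.mul_left (Ge.of_le (u_ne hF j).2.ge) (ge_u hdim hF d hd ha j)

end frame

/-! ### the centre on the base -/

section centre

variable {F : Type} [Field F] [Algebra ℂ F] {b : ℕ}

/-- the local ring of the centre -/
def Lo (B : ProjModel F) (w0 : DivVal b F) (j : Fin (B.N + 1)) (a : F) : Prop :=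
  ∃ p ∈ B.ring j, ∃ q ∈ B.ring j, q ≠ 0 ∧ w0.ord q = 0 ∧ a * q = p

theorem Lo.ge {B : ProjModel F} {w0 : DivVal b F} {j : Fin (B.N + 1)}
    (hj : ∀ c ∈ B.ring j, w0.Ge 0 c) {a : F} (h : Lo B w0 j a) : w0.Ge 0 a := by
  obtain ⟨p, hp, q, hq, hq0, hqo, e1⟩ := h
  have h1 : a = p / q := by
    rw [eq_div_iff hq0, e1]
  have h2 := (hj p hp).div q
  rw [hqo, sub_zero] at h2
  rw [h1]
  exact h2

theorem Lo.of_mem {B : ProjModel F} {w0 : DivVal b F} {j : Fin (B.N + 1)} {a : F}
    (h : a ∈ B.ring j) : Lo B w0 j a :=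
  ⟨a, h, 1, (B.ring j).one_mem, one_ne_zero, ord_one w0, mul_one a⟩

/-- a chart with the centre -/
theorem exists_chart (B : ProjModel F) (w0 : DivVal b F) :
    ∃ j : Fin (B.N + 1), ∀ c ∈ B.ring j, w0.Ge 0 c := by
  obtain ⟨j, -, hj⟩ := Finset.exists_min_image Finset.univ (fun j => w0.ord (B.s j))
    ⟨0, Finset.mem_univ _⟩
  refine ⟨j, fun c hc => ?_⟩
  unfold ProjModel.ring at hc
  induction hc using Algebra.adjoin_induction with
  | mem z hz =>
    obtain ⟨l, rfl⟩ := hz
    refine Ge.of_le ?_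
    show 0 ≤ w0.ord (B.s l / B.s j)
    rw [ord_div w0 (B.ne l) (B.ne j)]
    have h1 := hj l (Finset.mem_univ l)
    omega
  | algebraMap c => exact Ge.const w0 c
  | add a b _ _ ha hb => exact ha.add hb
  | mul a b _ _ ha hb => exact Ge.mul_left ha hb

/-- change of the chart -/
theorem transfer_ring {B : ProjModel F} {w0 : DivVal b F} {j j' : Fin (B.N + 1)}
    (hj : ∀ c ∈ B.ring j, w0.Ge 0 c) (hj' : ∀ c ∈ B.ring j', w0.Ge 0 c) {a : F}
    (ha : a ∈ B.ring j') : Lo B w0 j a := by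
  have hs : ∀ l, B.s l / B.s j ∈ B.ring j := fun l => Algebra.subset_adjoin ⟨l, rfl⟩
  have hs' : ∀ l, B.s l / B.s j' ∈ B.ring j' := fun l => Algebra.subset_adjoin ⟨l, rfl⟩
  have h0 : w0.ord (B.s j' / B.s j) = 0 := by
    have h1 := (hj _ (hs j')).le (div_ne_zero (B.ne _) (B.ne _))
    have h2 := (hj' _ (hs' j)).le (div_ne_zero (B.ne _) (B.ne _))
    rw [ord_div w0 (B.ne _) (B.ne _)] at h1 h2 ⊢
    omega
  unfold ProjModel.ring at ha
  induction ha using Algebra.adjoin_induction with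
  | mem z hz =>
    obtain ⟨l, rfl⟩ := hz
    refine ⟨B.s l / B.s j, hs l, B.s j' / B.s j, hs j', div_ne_zero (B.ne _) (B.ne _), h0, ?_⟩
    have h1 := B.ne j
    have h2 := B.ne j'
    show B.s l / B.s j' * (B.s j' / B.s j) = B.s l / B.s j
    field_simp
  | algebraMap c => exact Lo.of_mem ((B.ring j).algebraMap_mem c)
  | add a b _ _ ha hb =>
    obtain ⟨p1, hp1, q1, hq1, hq1', o1, e1⟩ := ha
    obtain ⟨p2, hp2, q2, hq2, hq2', o2, e2⟩ := hb
    refine ⟨p1 * q2 + p2 * q1, (B.ring j).add_mem ((B.ring j).mul_mem hp1 hq2)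
      ((B.ring j).mul_mem hp2 hq1), q1 * q2,
      (B.ring j).mul_mem hq1 hq2, mul_ne_zero hq1' hq2', ?_, ?_⟩
    · rw [w0.ord_mul _ _ hq1' hq2', o1, o2, add_zero]
    · rw [← e1, ← e2]
      ring
  | mul a b _ _ ha hb =>
    obtain ⟨p1, hp1, q1, hq1, hq1', o1, e1⟩ := ha
    obtain ⟨p2, hp2, q2, hq2, hq2', o2, e2⟩ := hb
    refine ⟨p1 * p2, (B.ring j).mul_mem hp1 hp2, q1 * q2, (B.ring j).mul_mem hq1 hq2,
      mul_ne_zero hq1' hq2', ?_, ?_⟩
    · rw [w0.ord_mul _ _ hq1' hq2', o1, o2, add_zero]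
    · rw [← e1, ← e2]
      ring

theorem transfer {B : ProjModel F} {w0 : DivVal b F} {j j' : Fin (B.N + 1)}
    (hj : ∀ c ∈ B.ring j, w0.Ge 0 c) (hj' : ∀ c ∈ B.ring j', w0.Ge 0 c) {a : F}
    (ha : Lo B w0 j' a) : Lo B w0 j a := by
  obtain ⟨p, hp, q, hq, hq0, hqo, e0⟩ := ha
  obtain ⟨p1, hp1, q1, hq1, hq1', o1, e1⟩ := transfer_ring hj hj' hp
  obtain ⟨p2, hp2, q2, hq2, hq2', o2, e2⟩ := transfer_ring hj hj' hq
  have hp20 : p2 ≠ 0 := by
    rw [← e2]
    exact mul_ne_zero hq0 hq2'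
  refine ⟨p1 * q2, (B.ring j).mul_mem hp1 hq2, p2 * q1, (B.ring j).mul_mem hp2 hq1,
    mul_ne_zero hp20 hq1', ?_, ?_⟩
  · rw [w0.ord_mul _ _ hp20 hq1', ← e2, w0.ord_mul _ _ hq0 hq2', hqo, o2, o1, add_zero, add_zero]
  · rw [← e2, ← e1, ← e0]
    ring

/-- a coefficient of least order -/
theorem least {B : ProjModel F} {w0 : DivVal b F} {j : Fin (B.N + 1)}
    (hj : ∀ c ∈ B.ring j, w0.Ge 0 c) {C : Set F} (hC : Bpf B C) :
    ∃ c ∈ C, c ≠ 0 ∧ ∀ c' ∈ C, Lo B w0 j (c' / c) := by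
  let P : Ideal (B.ring j) :=
    { carrier := {a | w0.Ge 1 (a : F)}
      add_mem' := fun {a b} ha hb => Ge.add ha hb
      zero_mem' := Ge.zero w0 1
      smul_mem' := fun a b hb => Ge.mul_left (hj _ a.2) hb }
  have hP : P ≠ ⊤ := by
    rw [Ideal.ne_top_iff_one]
    intro h
    have h1 : w0.Ge 1 ((1 : B.ring j) : F) := h
    have h2 : ((1 : B.ring j) : F) = 1 := rfl
    rw [h2] at h1
    have h3 := h1.le one_ne_zero
    rw [ord_one] at h3
    omega
  obtain ⟨M, hM, hPM⟩ := Ideal.exists_le_maximal P hP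
  obtain ⟨c, hcC, hc0, hc⟩ := hC j M hM
  refine ⟨c, hcC, hc0, fun c' hc' => ?_⟩
  obtain ⟨p, q, hq, e1⟩ := hc c' hc'
  have hq1 : ¬ w0.Ge 1 (q : F) := fun h => hq (hPM h)
  have hq0 : (q : F) ≠ 0 := by
    intro h
    rw [h] at hq1
    exact hq1 (Ge.zero w0 1)
  have hqo : w0.ord (q : F) = 0 := by
    have h1 := (hj _ q.2).le hq0
    have h2 : ¬ 1 ≤ w0.ord (q : F) := fun h => hq1 (Ge.of_le h)
    omega
  exact ⟨p, p.2, q, q.2, hq0, hqo, e1⟩

end centre

/-! ### orders in the extension -/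

section ext

variable {F K : Type} [Field F] [Field K] [Algebra ℂ F] [Algebra ℂ K] [Algebra F K]
  [IsScalarTower ℂ F K] {b e' n : ℕ} {v : DivVal e' K} {w0 : DivVal b F} {c : ℕ}

theorem ge0 (hv : ∀ a : F, v.ord (algebraMap F K a) = c * w0.ord a) {a : F} (h : w0.Ge 0 a) :
    v.Ge 0 (algebraMap F K a) := by
  rcases h with rfl | h
  · rw [map_zero]
    exact Ge.zero v 0
  · refine Ge.of_le ?_
    rw [hv]
    positivity

theorem ge1 (hc : 0 < c) (hv : ∀ a : F, v.ord (algebraMap F K a) = c * w0.ord a) {a : F}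
    (h : w0.Ge 1 a) : v.Ge 1 (algebraMap F K a) := by
  rcases h with rfl | h
  · rw [map_zero]
    exact Ge.zero v 1
  · refine Ge.of_le ?_
    rw [hv]
    have h1 : (1 : ℤ) ≤ (c : ℤ) := by exact_mod_cast hc
    nlinarith

theorem ge0' (hc : 0 < c) (hv : ∀ a : F, v.ord (algebraMap F K a) = c * w0.ord a) {a : F}
    (h : v.Ge 0 (algebraMap F K a)) : w0.Ge 0 a := by
  by_cases h0 : a = 0
  · exact Or.inl h0
  have h1 := h.le ((map_ne_zero _).2 h0)
  rw [hv] at h1
  refine Ge.of_le ?_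
  have h2 : (0 : ℤ) < (c : ℤ) := by exact_mod_cast hc
  exact nonneg_of_mul_nonneg_right h1 h2

theorem ord0' (hc : 0 < c) (hv : ∀ a : F, v.ord (algebraMap F K a) = c * w0.ord a) {a : F}
    (h : v.ord (algebraMap F K a) = 0) : w0.ord a = 0 := by
  rw [hv] at h
  rcases mul_eq_zero.1 h with h1 | h1
  · exact absurd h1 (by exact_mod_cast hc.ne')
  · exact h1

theorem rmin_le {R : Type} [CommRing R] (f : LR R n) (ν : Fin n → ℤ) {m : Fin n → ℤ}
    (h : m ∈ f.coeff.support) : rmin f ν ≤ pair ν m := by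
  unfold rmin
  exact csInf_le (f.coeff.support.finite_toSet.image _).bddBelow ⟨m, h, rfl⟩

theorem rev_smul (x : Fin n → K) (a : F) (g : LR F n) :
    rev x (a • g) = algebraMap F K a * rev x g := by
  have h : (a • g).coeff = a • g.coeff := rfl
  unfold rev
  rw [h, Finsupp.sum_smul_index (fun i => by rw [map_zero, zero_mul]), Finsupp.mul_sum]
  refine Finsupp.sum_congr fun m _ => ?_
  rw [map_mul, mul_assoc]

theorem gen_DF (x : Fin n → K) (gen : IntermediateField.adjoin F (Set.range x) = ⊤)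
    (N : Submodule K (Ω[K⁄ℂ])) (hF : ∀ a : F, KaehlerDifferential.D ℂ K (algebraMap F K a) ∈ N)
    (h : ∀ j, KaehlerDifferential.D ℂ K (x j) ∈ N) : N = ⊤ := by
  have key : ∀ a : K, KaehlerDifferential.D ℂ K a ∈ N := by
    intro a
    have ha : a ∈ IntermediateField.adjoin F (Set.range x) := by
      rw [gen]
      trivial
    induction ha using IntermediateField.adjoin_induction with
    | mem a ha =>
      obtain ⟨j, rfl⟩ := ha
      exact h j
    | algebraMap c => exact hF c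
    | add a b _ _ ha hb =>
      rw [map_add]
      exact N.add_mem ha hb
    | inv a _ ha =>
      rw [Derivation.leibniz_inv]
      exact N.smul_mem _ ha
    | mul a b _ _ ha hb =>
      rw [Derivation.leibniz]
      exact N.add_mem (N.smul_mem _ hb) (N.smul_mem _ ha)
  rw [eq_top_iff, ← KaehlerDifferential.span_range_derivation, Submodule.span_le]
  rintro _ ⟨a, rfl⟩
  exact key a

end ext

/-! ### the main argument -/

section core

variable {F K : Type} [Field F] [Field K] [Algebra ℂ F] [Algebra ℂ K] [Algebra F K]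
  [IsScalarTower ℂ F K] {b e e' n r : ℕ}

theorem zz_left (y : Fin b → F) (x : Fin n → K) (l : Fin b) :
    zz y x (Fin.castAdd n l) = algebraMap F K (y l) := by
  unfold zz
  rw [Fin.append_left]

theorem zz_right (y : Fin b → F) (x : Fin n → K) (j : Fin n) :
    zz y x (Fin.natAdd b j) = x j := by
  unfold zz
  rw [Fin.append_right]

theorem gr_left (y : Fin b → F) (d : Fin b → Derivation ℂ F F) (g : LR F n) (x : Fin n → K)
    (l : Fin b) : gr y d g x (Fin.castAdd n l) = algebraMap F K (y l) * revd x g (d l) := by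
  unfold gr
  rw [Fin.append_left]

theorem gr_right (y : Fin b → F) (d : Fin b → Derivation ℂ F F) (g : LR F n) (x : Fin n → K)
    (j : Fin n) : gr y d g x (Fin.natAdd b j) = rgrad x g j := by
  unfold gr
  rw [Fin.append_right]

theorem rel (y : Fin b → F) (d : Fin b → Derivation ℂ F F) (hy : ∀ l, y l ≠ 0)
    (hd : ∀ a : F, KaehlerDifferential.D ℂ F a = ∑ l, d l a • KaehlerDifferential.D ℂ F (y l))
    (f : Fin r → LR F n) (x : Fin n → K) (hdim : Algebra.trdeg ℂ K = ((b + e : ℕ) : Cardinal))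
    (hR : RReg e f x) (u : Fin r → F) :
    Rel (b + e) (zz y x) (fun i => gr y d ((u i)⁻¹ • f i) x) := by
  obtain ⟨r1, -, r3⟩ := t_REV (K := K) y d x hy hR.ne hd
  refine ⟨hdim, ?_, ?_, ?_⟩
  · intro c
    refine Fin.addCases (fun l => ?_) (fun j => ?_) c
    · rw [zz_left]
      exact (map_ne_zero _).2 (hy l)
    · rw [zz_right]
      exact hR.ne j
  · refine gen_DF x hR.gen _ (fun a => ?_) (fun j => ?_)
    · rw [r1 a]
      refine Submodule.sum_mem _ fun l _ => Submodule.smul_mem _ _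
        (Submodule.subset_span ⟨Fin.castAdd n l, ?_⟩)
      show dlog (zz y x (Fin.castAdd n l)) = _
      rw [zz_left]
    · rw [MON.D_eq (hR.ne j)]
      refine Submodule.smul_mem _ _ (Submodule.subset_span ⟨Fin.natAdd b j, ?_⟩)
      show dlog (zz y x (Fin.natAdd b j)) = _
      rw [zz_right]
  · intro i
    rw [← r3, rev_smul, hR.zero i, mul_zero, map_zero]

theorem ge_sum {x : Fin n → K} (hx : ∀ j, x j ≠ 0) (v : DivVal e' K) {f g : LR F n}
    (hfg : ∀ m, g.coeff m ≠ 0 → f.coeff m ≠ 0) {s : ℤ} (h : (Fin n → ℤ) → K)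
    (hh : ∀ m, v.Ge s (h m)) :
    v.Ge (rmin f (wt x v) + s) (∑ m ∈ g.coeff.support, h m * mon x m) := by
  refine Ge.sum _ _ fun m hm => ?_
  have h1 : v.Ge (rmin f (wt x v)) (mon x m) := by
    refine Ge.of_le ?_
    rw [MON.ord_mon hx]
    exact rmin_le f _ (Finsupp.mem_support_iff.2 (hfg m (Finsupp.mem_support_iff.1 hm)))
  have h2 := (hh m).mul h1
  rw [add_comm s] at h2
  exact h2

theorem ge_weight {x : Fin n → K} (hx : ∀ j, x j ≠ 0) (v : DivVal e' K) {f g : LR F n}
    (hfg : ∀ m, g.coeff m ≠ 0 → f.coeff m ≠ 0) (hg : ∀ m, v.Ge 0 (algebraMap F K (g.coeff m)))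
    (h0 : rev x g = 0) :
    v.Ge (rmin f (wt x v) + 1) (∑ j, (wt x v j : K) * rgrad x g j) := by
  have h1 : ∑ j, (wt x v j : K) * rgrad x g j = ∑ m ∈ g.coeff.support,
      algebraMap F K (g.coeff m) * ((pair (wt x v) m : ℤ) : K) * mon x m := by
    unfold rgrad Finsupp.sum pair
    simp_rw [Finset.mul_sum]
    rw [Finset.sum_comm]
    refine Finset.sum_congr rfl fun m _ => ?_
    push_cast
    rw [Finset.mul_sum, Finset.sum_mul]
    exact Finset.sum_congr rfl fun j _ => by ring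
  have h2 : ∑ m ∈ g.coeff.support, (rmin f (wt x v) : K) *
      (algebraMap F K (g.coeff m) * mon x m) = 0 := by
    rw [← Finset.mul_sum]
    have h3 : ∑ m ∈ g.coeff.support, algebraMap F K (g.coeff m) * mon x m = rev x g := rfl
    rw [h3, h0, mul_zero]
  have h4 : ∑ j, (wt x v j : K) * rgrad x g j = ∑ m ∈ g.coeff.support,
      algebraMap F K (g.coeff m) * ((pair (wt x v) m - rmin f (wt x v) : ℤ) : K) * mon x m := by
    rw [h1, ← sub_zero (∑ m ∈ g.coeff.support, _), ← h2, ← Finset.sum_sub_distrib]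
    refine Finset.sum_congr rfl fun m _ => ?_
    push_cast
    ring
  rw [h4]
  refine Ge.sum _ _ fun m hm => ?_
  have h5 : rmin f (wt x v) ≤ pair (wt x v) m :=
    rmin_le f _ (Finsupp.mem_support_iff.2 (hfg m (Finsupp.mem_support_iff.1 hm)))
  by_cases h3 : pair (wt x v) m = rmin f (wt x v)
  · rw [h3, sub_self, Int.cast_zero, mul_zero, zero_mul]
    exact Ge.zero v _
  · exact MON.ge_mon hx v (by omega) ((hg m).mul_left (Ge.intCast v _))

theorem cmin_eq {v : DivVal e' K} {b : ℕ} {w0 : DivVal b F} {c : ℕ}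
    (hv : ∀ a : F, v.ord (algebraMap F K a) = c * w0.ord a) {f : LR F n} {u : F}
    (hu : u ∈ coefs f) (hu0 : u ≠ 0) (h : ∀ c' ∈ coefs f, w0.Ge 0 (c' / u)) :
    cmin v (coefs f) = v.ord (algebraMap F K u) := by
  unfold cmin
  refine IsLeast.csInf_eq ⟨⟨u, hu, rfl⟩, ?_⟩
  rintro _ ⟨c', hc', rfl⟩
  have h0 : c' ≠ 0 := by
    obtain ⟨m, hm, rfl⟩ := hc'
    exact Finsupp.mem_support_iff.1 hm
  have h1 := (h c' hc').le (div_ne_zero h0 hu0)
  rw [ord_div w0 h0 hu0] at h1
  show v.ord (algebraMap F K u) ≤ v.ord (algebraMap F K c')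
  rw [hv, hv]
  have h2 : (0 : ℤ) ≤ (c : ℤ) := Int.natCast_nonneg c
  nlinarith

end core

end RNB

open RNB in
theorem t_RNB : S_DLB → S_EXM → S_ABN2 → S_LAM → S_RNB := by
  intro hDLB hEXM hABN hLAM F K _ _ _ _ _ _ b e n r B f x hdF hdK hb hnor hR hbpf v hX w0 c hc hv
    hnp hbig
  obtain ⟨m, rfl⟩ : ∃ m, b = m + 1 := ⟨b - 1, by omega⟩
  obtain ⟨⟨t, u, hFr⟩, -⟩ := cFRA w0
  set y : Fin (m + 1) → F := Fin.cons t u with hy
  have hy0 : y 0 = t := rfl
  have hys : ∀ l : Fin m, y l.succ = u l := fun l => rfl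
  have hyne : ∀ l, y l ≠ 0 := y_ne hFr
  obtain ⟨d, hd1, hd2⟩ := hDLB hdF y hyne (dlogs_ne hdF hFr)
  obtain ⟨j, hj⟩ := exists_chart B w0
  choose u' hu'C hu'0 hu' using fun i => least hj (hbpf i)
  obtain ⟨σ, hσ0, hσ1⟩ := hX
  obtain ⟨σ', he1, -⟩ := hEXM (K := K) y d f x u' σ
  obtain ⟨L, hL0, ⟨l0, hl0⟩, hL1⟩ := hLAM hdF B j (hnor j) w0 hj
    (fun ⟨P, hP⟩ => hnp ⟨j, P, hP⟩) t u hFr
  have hcK : ((c : ℤ) : K) ≠ 0 := by
    haveI : CharZero K := charZero_of_injective_algebraMap (algebraMap ℂ K).injective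
    exact_mod_cast hc.ne'
  -- the coefficients of the local equations
  set g : Fin r → LR F n := fun i => (u' i)⁻¹ • f i with hg
  have hco : ∀ i a, (g i).coeff a = (u' i)⁻¹ * (f i).coeff a := fun i a => rfl
  have hfg : ∀ i a, (g i).coeff a ≠ 0 → (f i).coeff a ≠ 0 := fun i a h => by
    rw [hco] at h
    exact right_ne_zero_of_mul h
  have hgLo : ∀ i a, Lo B w0 j ((g i).coeff a) := by
    intro i a
    rw [hco]
    by_cases h : (f i).coeff a = 0
    · rw [h, mul_zero]
      exact Lo.of_mem (B.ring j).zero_mem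
    · have h1 := hu' i _ ⟨a, Finsupp.mem_support_iff.2 h, rfl⟩
      rwa [div_eq_mul_inv, mul_comm] at h1
  have hg0 : ∀ i a, w0.Ge 0 ((g i).coeff a) := fun i a => (hgLo i a).ge hj
  have hlam : ∀ a, Lo B w0 j a → w0.Ge 1 (∑ l : Fin m, L l * d l.succ a) := by
    intro a ha
    refine hL1 a ha (fun k => d k a) ?_
    rw [hd2 a, Fin.sum_univ_succ]
    rfl
  -- the relations and the minor
  have hRel := rel y d hyne hd2 f x hdK hR u'
  set G : Fin r → Fin (m + 1 + n) → K := fun i => gr y d (g i) x with hG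
  have hU : GUnit G v (fun i => rmin (f i) (wt x v)) σ' := by
    have hu0 : algebraMap F K (∏ i, u' i)⁻¹ ≠ 0 :=
      (map_ne_zero _).2 (inv_ne_zero (Finset.prod_ne_zero_iff.2 fun i _ => hu'0 i))
    have hdet : gminor G σ' = algebraMap F K (∏ i, u' i)⁻¹ * rminor f x σ := he1
    refine ⟨?_, ?_, ?_⟩
    · intro i k
      refine Fin.addCases (fun l => ?_) (fun jj => ?_) k
      · rw [hG]
        show v.Ge _ (gr y d (g i) x (Fin.castAdd n l))
        rw [gr_left]
        unfold revd Finsupp.sum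
        rw [Finset.mul_sum]
        have h1 := ge_sum hR.ne v (hfg i) (s := 0)
          (fun a => algebraMap F K (y l * d l ((g i).coeff a)))
          (fun a => ge0 hv (ge_y hdF hFr d hd1 (hg0 i a) l))
        rw [add_zero] at h1
        refine cast (congrArg (v.Ge _) (Finset.sum_congr rfl fun a _ => ?_)) h1
        rw [map_mul, mul_assoc]
      · rw [hG]
        show v.Ge _ (gr y d (g i) x (Fin.natAdd (m + 1) jj))
        rw [gr_right]
        unfold rgrad Finsupp.sum
        have h1 := ge_sum hR.ne v (hfg i) (s := 0)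
          (fun a => algebraMap F K ((g i).coeff a) * (a jj : K))
          (fun a => (ge0 hv (hg0 i a)).mul_left (Ge.intCast v _))
        rw [add_zero] at h1
        exact h1
    · rw [hdet]
      exact mul_ne_zero hu0 hσ0
    · rw [hdet, v.ord_mul _ _ hu0 hσ0, hσ1, map_inv₀, map_prod, ord_inv,
        ord_prod v _ _ fun i _ => (map_ne_zero _).2 (hu'0 i)]
      have h1 : ∀ i, cmin v (coefs (f i)) = v.ord (algebraMap F K (u' i)) := fun i =>
        cmin_eq hv (hu'C i) (hu'0 i) fun c' hc' => (hu' i c' hc').ge hj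
      rw [Finset.sum_congr rfl fun i _ => h1 i]
      unfold rpsi
      ring
  -- the two vectors
  have hz0 : v.ord (zz y x (Fin.castAdd n 0)) = c := by
    rw [zz_left, hv, hy0, hFr.2.1, mul_one]
  have hz1 : ∀ l : Fin m, v.ord (zz y x (Fin.castAdd n l.succ)) = 0 := by
    intro l
    rw [zz_left, hv, hys, (u_ne hFr l).2, mul_zero]
  set ν0 : Fin (m + 1 + n) → K := fun k => (v.ord (zz y x k) : K) with hν0
  set ν1 : Fin (m + 1 + n) → K := Fin.append
    (fun l => algebraMap F K ((Fin.cons 0 (fun l => L l / u l) : Fin (m + 1) → F) l))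
    (fun _ => 0) with hν1
  have a0 : ν0 (Fin.castAdd n 0) = ((c : ℤ) : K) := by
    rw [hν0]
    show ((v.ord (zz y x (Fin.castAdd n 0)) : ℤ) : K) = _
    rw [hz0]
  have a1 : ∀ l : Fin m, ν0 (Fin.castAdd n l.succ) = 0 := by
    intro l
    rw [hν0]
    show ((v.ord (zz y x (Fin.castAdd n l.succ)) : ℤ) : K) = _
    rw [hz1, Int.cast_zero]
  have a2 : ∀ k : Fin n, ν0 (Fin.natAdd (m + 1) k) = (wt x v k : K) := by
    intro k
    rw [hν0]
    show ((v.ord (zz y x (Fin.natAdd (m + 1) k)) : ℤ) : K) = _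
    rw [zz_right]
    rfl
  have b0 : ν1 (Fin.castAdd n 0) = 0 := by
    rw [hν1, Fin.append_left, Fin.cons_zero, map_zero]
  have b1 : ∀ l : Fin m, ν1 (Fin.castAdd n l.succ) = algebraMap F K (L l / u l) := by
    intro l
    rw [hν1, Fin.append_left, Fin.cons_succ]
  have b2 : ∀ k : Fin n, ν1 (Fin.natAdd (m + 1) k) = 0 := by
    intro k
    rw [hν1, Fin.append_right]
  have hs0 : ∀ ρ : Fin (m + 1 + n) → K, ∑ k, ν0 k * ρ k =
      ((c : ℤ) : K) * ρ (Fin.castAdd n 0) + ∑ k, (wt x v k : K) * ρ (Fin.natAdd (m + 1) k) := by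
    intro ρ
    rw [Fin.sum_univ_add, Fin.sum_univ_succ, a0]
    congr 1
    · rw [Finset.sum_eq_zero fun l _ => ?_, add_zero]
      rw [a1, zero_mul]
    · exact Finset.sum_congr rfl fun k _ => by rw [a2]
  have hs1 : ∀ ρ : Fin (m + 1 + n) → K, ∑ k, ν1 k * ρ k =
      ∑ l : Fin m, algebraMap F K (L l / u l) * ρ (Fin.castAdd n l.succ) := by
    intro ρ
    rw [Fin.sum_univ_add, Fin.sum_univ_succ, b0, zero_mul, zero_add]
    have h1 : ∑ k, ν1 (Fin.natAdd (m + 1) k) * ρ (Fin.natAdd (m + 1) k) = 0 :=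
      Finset.sum_eq_zero fun k _ => by rw [b2, zero_mul]
    rw [h1, add_zero]
    exact Finset.sum_congr rfl fun l _ => by rw [b1]
  have hLu : ∀ l, w0.Ge 0 (L l / u l) := by
    intro l
    have h1 := (hL0 l).div (u l)
    rwa [(u_ne hFr l).2, sub_zero] at h1
  -- the elements
  obtain ⟨cc, q, hcq, hres⟩ := hbig
  have hccLo : ∀ l, Lo B w0 j (cc l) := by
    intro l
    obtain ⟨⟨j', hj', p, hp, q', hq', hq0, hqo, e1⟩, -, -, -⟩ := hcq l
    exact transfer hj (fun a ha => ge0' hc hv (hj' a ha))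
      ⟨p, hp, q', hq', hq0, ord0' hc hv hqo, e1⟩
  refine abn2 hABN (by omega) (zz y x) G hRel v _ σ' hU ![ν0, ν1] ?_ ?_ ?_
    (fun l => algebraMap F K (cc l) * mon x (q l))
    (fun l => Fin.append (fun k => algebraMap F K (y k * d k (cc l) / cc l))
      (fun k => (q l k : K))) ?_ ?_ hres
  · -- nonnegative orders
    intro i k
    refine Fin.cases ?_ (fun i' => ?_) i
    · exact Ge.intCast v _
    · rw [Fin.eq_zero i']
      show v.Ge 0 (ν1 k)
      refine Fin.addCases (fun l => ?_) (fun jj => ?_) k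
      · refine Fin.cases ?_ (fun l' => ?_) l
        · rw [b0]
          exact Ge.zero v 0
        · rw [b1]
          exact ge0 hv (hLu l')
      · rw [b2]
        exact Ge.zero v 0
  · -- independence
    intro a ha h
    have h0 := h (Fin.castAdd n 0)
    have h1 := h (Fin.castAdd n l0.succ)
    rw [Fin.sum_univ_two] at h0 h1
    change v.Ge 1 (a 0 * ν0 (Fin.castAdd n 0) + a 1 * ν1 (Fin.castAdd n 0)) at h0
    change v.Ge 1 (a 0 * ν0 (Fin.castAdd n l0.succ) + a 1 * ν1 (Fin.castAdd n l0.succ)) at h1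
    rw [a0, b0, mul_zero, add_zero] at h0
    rw [a1, b1, mul_zero, zero_add] at h1
    have h2 : v.Ge 1 (a 0) := by
      have h3 := h0.mul_right (Ge.inv hcK (ord_intCast v _))
      rwa [mul_assoc, mul_inv_cancel₀ hcK, mul_one] at h3
    have h4 : v.Ge 1 (a 1) := by
      have hLne : L l0 ≠ 0 := fun h5 => hl0 (Or.inl h5)
      have hLo0 : w0.ord (L l0) = 0 := by
        have h5 := (hL0 l0).le hLne
        have h6 : ¬ 1 ≤ w0.ord (L l0) := fun h6 => hl0 (Ge.of_le h6)
        omega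
      have hne : algebraMap F K (L l0 / u l0) ≠ 0 :=
        (map_ne_zero _).2 (div_ne_zero hLne (u_ne hFr l0).1)
      have hord : v.ord (algebraMap F K (L l0 / u l0)) = 0 := by
        rw [hv, ord_div w0 hLne (u_ne hFr l0).1, hLo0, (u_ne hFr l0).2, sub_zero, mul_zero]
      have h3 := h1.mul_right (Ge.inv hne hord)
      rwa [mul_assoc, mul_inv_cancel₀ hne, mul_one] at h3
    intro i
    refine Fin.cases ?_ (fun i' => ?_) i
    · exact h2
    · rw [Fin.eq_zero i']
      exact h4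
  · -- orthogonality to the gradients
    intro i k
    refine Fin.cases ?_ (fun k' => ?_) k
    · show v.Ge _ (∑ k, ν0 k * gr y d (g i) x k)
      rw [hs0]
      refine Ge.add (Ge.mul_left (Ge.intCast v _) ?_) ?_
      · rw [gr_left]
        unfold revd Finsupp.sum
        rw [Finset.mul_sum]
        have h1 := ge_sum hR.ne v (hfg i) (s := 1)
          (fun a => algebraMap F K (t * d 0 ((g i).coeff a)))
          (fun a => ge1 hc hv (ge_t hdF hFr d hd1 (hg0 i a)))
        refine cast (congrArg (v.Ge _) (Finset.sum_congr rfl fun a _ => ?_)) h1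
        rw [map_mul, mul_assoc]
        rfl
      · have h1 := ge_weight hR.ne v (hfg i) (fun a => ge0 hv (hg0 i a))
          (by rw [hg]; show rev x ((u' i)⁻¹ • f i) = 0; rw [rev_smul, hR.zero i, mul_zero])
        refine cast (congrArg (v.Ge _) (Finset.sum_congr rfl fun a _ => ?_)) h1
        rw [gr_right]
    · rw [Fin.eq_zero k']
      show v.Ge _ (∑ k, ν1 k * gr y d (g i) x k)
      rw [hs1]
      have h1 := ge_sum hR.ne v (hfg i) (s := 1)
        (fun a => algebraMap F K (∑ l : Fin m, L l * d l.succ ((g i).coeff a)))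
        (fun a => ge1 hc hv (hlam _ (hgLo i a)))
      refine cast (congrArg (v.Ge _) ?_) h1
      have h2 : ∀ l : Fin m, algebraMap F K (L l / u l) * gr y d (g i) x (Fin.castAdd n l.succ) =
          ∑ a ∈ (g i).coeff.support,
            algebraMap F K (L l * d l.succ ((g i).coeff a)) * mon x a := by
        intro l
        rw [gr_left, hys]
        unfold revd Finsupp.sum
        rw [← mul_assoc, ← map_mul, div_mul_cancel₀ _ (u_ne hFr l).1, Finset.mul_sum]
        refine Finset.sum_congr rfl fun a _ => ?_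
        rw [map_mul, mul_assoc]
      rw [Finset.sum_congr rfl fun l _ => h2 l, Finset.sum_comm]
      refine Finset.sum_congr rfl fun a _ => ?_
      rw [map_sum, Finset.sum_mul]
  · -- the logarithmic differentials
    intro l
    obtain ⟨-, hc0, hco0, -⟩ := hcq l
    have hcne : algebraMap F K (cc l) ≠ 0 := (map_ne_zero _).2 hc0
    obtain ⟨c1, c2, c3⟩ := coef hdF hFr d hd1 hc0
    refine ⟨mul_ne_zero hcne (MON.mon_ne hR.ne _), ?_, ?_⟩
    · intro k
      refine Fin.addCases (fun k' => ?_) (fun jj => ?_) k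
      · rw [Fin.append_left]
        refine ge0 hv ?_
        refine Fin.cases ?_ (fun k'' => ?_) k'
        · exact c1
        · rw [mul_div_assoc]
          exact Ge.mul_left (Ge.of_le (u_ne hFr k'').2.ge) (c3 k'')
      · rw [Fin.append_right]
        exact Ge.intCast v _
    · rw [MON.dlog_mul hcne (MON.mon_ne hR.ne _), MON.dlog_mon hR.ne, Fin.sum_univ_add]
      congr 1
      · obtain ⟨r1, -, -⟩ := t_REV (K := K) y d x hyne hR.ne hd2
        unfold dlog
        rw [r1 (cc l), Finset.smul_sum]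
        refine Finset.sum_congr rfl fun k _ => ?_
        rw [Fin.append_left, zz_left, smul_smul]
        congr 1
        rw [div_eq_mul_inv, map_mul _ (y k * d k (cc l)), map_inv₀, mul_comm]
      · refine Finset.sum_congr rfl fun k _ => ?_
        rw [Fin.append_right, zz_right]
  · -- orthogonality
    intro l k
    obtain ⟨-, hc0, hco0, hpair⟩ := hcq l
    have hw0 : w0.ord (cc l) = 0 := ord0' hc hv hco0
    obtain ⟨c1, c2, c3⟩ := coef hdF hFr d hd1 hc0
    refine Fin.cases ?_ (fun k' => ?_) k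
    · show v.Ge 1 (∑ k, ν0 k * _)
      rw [hs0, Fin.append_left]
      refine Ge.add (Ge.mul_left (Ge.intCast v _) (ge1 hc hv ?_)) ?_
      · rw [hw0, Int.cast_zero, sub_zero] at c2
        exact c2
      · left
        have h1 : ∑ k, (wt x v k : K) * (q l k : K) = ((pair (wt x v) (q l) : ℤ) : K) := by
          unfold pair
          push_cast
          rfl
        have h2 : ∀ k : Fin n, (Fin.append (fun k => algebraMap F K (y k * d k (cc l) / cc l))
            (fun k => (q l k : K)) : Fin (m + 1 + n) → K) (Fin.natAdd (m + 1) k) = (q l k : K) :=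
          fun k => by rw [Fin.append_right]
        rw [Finset.sum_congr rfl fun k _ => by rw [h2 k], h1, hpair, Int.cast_zero]
    · rw [Fin.eq_zero k']
      show v.Ge 1 (∑ k, ν1 k * _)
      rw [hs1]
      have h2 : ∀ k : Fin m, algebraMap F K (L k / u k) *
          (Fin.append (fun k => algebraMap F K (y k * d k (cc l) / cc l))
            (fun k => (q l k : K)) : Fin (m + 1 + n) → K) (Fin.castAdd n k.succ) =
          algebraMap F K (L k * d k.succ (cc l) / cc l) := by
        intro k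
        rw [Fin.append_left, ← map_mul, hys]
        congr 1
        have h3 := (u_ne hFr k).1
        field_simp
      rw [Finset.sum_congr rfl fun k _ => h2 k, ← map_sum, ← Finset.sum_div]
      refine ge1 hc hv ?_
      have h3 := (hlam _ (hccLo l)).div (cc l)
      rwa [hw0, sub_zero] at h3

end

end RMM
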