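import Pool.Agent.RMM.StS2
import Pool.Agent.RMM.RRK
import Pool.Agent.MMCI.K_MIN

/-!
# RRK3: the rank of the gradients over a base with terminal singularities
-/

set_option autoImplicit false

namespace RMM

open MldGeo MMCI

noncomputable section

namespace RRK3

variable {F K : Type} [Field F] [Field K] [Algebra ℂ F] [Algebra ℂ K] [Algebra F K]
  [IsScalarTower ℂ F K] {b n r : ℕ}

/-- The residue map of a maximal ideal of the ring of Laurent polynomials. -/
theorem exists_res (R : Subalgebra ℂ F) (hR : R.FG) (M : Ideal (LR R n)) (hM : M.IsMaximal) :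
    ∃ π : LR R n →ₐ[ℂ] ℂ, ∀ G, π G = 0 ↔ G ∈ M := by
  have h1 : Algebra.FiniteType ℂ R := R.fg_iff_finiteType.1 hR
  have h2 : Algebra.FiniteType R (LR R n) := inferInstance
  have h3 : Algebra.FiniteType ℂ (LR R n) := Algebra.FiniteType.trans h1 h2
  let _ : Field (LR R n ⧸ M) := Ideal.Quotient.field M
  have h4 : Algebra.FiniteType ℂ (LR R n ⧸ M) :=
    Algebra.FiniteType.of_surjective (Ideal.Quotient.mkₐ ℂ M) (Ideal.Quotient.mkₐ_surjective ℂ M)
  have h5 : Module.Finite ℂ (LR R n ⧸ M) :=
    finite_of_finite_type_of_isJacobsonRing ℂ (LR R n ⧸ M)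
  let π : (LR R n ⧸ M) →ₐ[ℂ] ℂ := IsAlgClosed.lift
  refine ⟨π.comp (Ideal.Quotient.mkₐ ℂ M), fun G => ?_⟩
  have h7 : (π.comp (Ideal.Quotient.mkₐ ℂ M)) G = π (Ideal.Quotient.mk M G) := rfl
  rw [h7, map_eq_zero_iff π π.toRingHom.injective, Ideal.Quotient.eq_zero_iff_mem]

omit [Algebra ℂ K] [IsScalarTower ℂ F K] in
/-- The value of the derivative. -/
theorem phi_xder (R : Subalgebra ℂ F) {x : Fin n → K} (hx : ∀ j, x j ≠ 0) (k : Fin n)
    (g : LR R n) : RRK.phi R hx (xder k g) =
      g.coeff.sum fun a c => algebraMap F K (c : F) * (a k : K) * mon x a := by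
  unfold xder Finsupp.sum
  rw [map_sum]
  refine Finset.sum_congr rfl fun a _ => ?_
  have h1 : algebraMap F K (((a k : R) * g.coeff a : R) : F) =
      (a k : K) * algebraMap F K (g.coeff a : F) := by
    rw [Subalgebra.coe_mul, map_mul]
    congr 1
    exact map_intCast ((algebraMap F K).comp R.val.toRingHom) (a k)
  rw [RRK.phi_apply, AddMonoidAlgebra.coeff_single,
    Finsupp.sum_single_index (by rw [Subalgebra.coe_zero, map_zero, zero_mul]), h1]
  ring

omit [Algebra ℂ K] in
/-- A nonzero minor gives linearly independent rows. -/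
theorem li_of_det {A : Fin r → Fin n → K} (g0 : Fin r → Fin n)
    (hdet : (Matrix.of fun i j : Fin r => A i (g0 j)).det ≠ 0) : LinearIndependent K A := by
  rw [Fintype.linearIndependent_iff]
  intro a ha i
  have h0 : a = 0 := by
    refine Matrix.eq_zero_of_vecMul_eq_zero hdet ?_
    funext j
    have h1 := congrFun ha (g0 j)
    rw [Finset.sum_apply] at h1
    exact h1
  rw [h0, Pi.zero_apply]

end RRK3

theorem t_RRK3 : M_RRK3 := by
  intro hFRC hNAK hTAY hREV F K _ _ _ _ _ _ b e n r B f x hZ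
  classical
  obtain ⟨hFG, hfrac, hres⟩ := hFRC B 0
  -- the maximal ideal
  have hker : RingHom.ker (RRK.phi (B.ring 0) hZ.ne) ≠ ⊤ := RingHom.ker_ne_top _
  obtain ⟨M, hM, hMle⟩ := Ideal.exists_le_maximal _ hker
  have hm := RRK.comap_max (B.ring 0) hFG M hM
  obtain ⟨g, hloc, hnd⟩ := hZ.nondeg 0 0 _ hm
  choose u hu huf using fun i => (hloc i).1
  -- the normalised equations
  have hG : ∀ i a, ((u i)⁻¹ • f i).coeff a = ((g i).coeff a : F) := by
    intro i a
    rw [AddMonoidAlgebra.coeff_smul, Finsupp.smul_apply, huf i a, smul_eq_mul,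
      inv_mul_cancel_left₀ (hu i)]
  have hrev : ∀ i, rev x ((u i)⁻¹ • f i) = 0 := by
    intro i
    have h1 : rev x ((u i)⁻¹ • f i) = algebraMap F K (u i)⁻¹ * rev x (f i) := by
      unfold rev
      rw [AddMonoidAlgebra.coeff_smul,
        Finsupp.sum_smul_index (fun m => by rw [map_zero, zero_mul]), Finsupp.mul_sum]
      exact Finset.sum_congr rfl fun m _ => by
        dsimp only
        rw [map_mul, mul_assoc]
    rw [h1, hZ.zero i, mul_zero]
  have hrg : ∀ i j, rgrad x ((u i)⁻¹ • f i) j = algebraMap F K (u i)⁻¹ * rgrad x (f i) j := by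
    intro i j
    unfold rgrad
    rw [AddMonoidAlgebra.coeff_smul,
      Finsupp.sum_smul_index (fun m => by rw [map_zero, zero_mul, zero_mul]), Finsupp.mul_sum]
    exact Finset.sum_congr rfl fun m _ => by
      dsimp only
      rw [map_mul]
      ring
  have hgM : ∀ i, g i ∈ M := by
    intro i
    apply hMle
    rw [RingHom.mem_ker, RRK.phi_apply, ← RRK.sum_coeff ((u i)⁻¹ • f i) (g i) (hG i)
      (fun a c => algebraMap F K c * mon x a)]
    exact hrev i
  have hnd' := hnd M hM rfl fun i => by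
    rw [RRK.rinit_zero]
    exact hgM i
  simp only [RRK.rinit_zero] at hnd'
  rcases hnd' with ⟨⟨t, htm⟩, hlin⟩ | hxd
  swap
  · obtain ⟨π, hπ⟩ := RRK3.exists_res (B.ring 0) hFG M hM
    have hrow : LinearIndependent ℂ
        (Matrix.of fun (i : Fin r) (k : Fin n) => π (xder k (g i))).row := by
      rw [Fintype.linearIndependent_iff]
      intro τ hτ i
      have h0 : τ = 0 := by
        refine hxd τ fun k => ?_
        rw [← hπ, map_sum]
        have h1 := congrFun hτ k
        rw [Finset.sum_apply] at h1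
        rw [← h1.trans (Pi.zero_apply k)]
        exact Finset.sum_congr rfl fun i _ => by rw [map_smul]; rfl
      rw [h0, Pi.zero_apply]
    obtain ⟨g0, -, hg0⟩ := MIN.exists_minor _ hrow
    have hδ : (Matrix.of fun i j : Fin r => xder (g0 j) (g i)).det ∉ M := by
      rw [← hπ]
      intro h0
      apply hg0
      rw [← h0]
      exact (RingHom.map_det π.toRingHom _).symm
    have hδ' : RRK.phi (B.ring 0) hZ.ne
        (Matrix.of fun i j : Fin r => xder (g0 j) (g i)).det ≠ 0 := by
      intro h0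
      exact hδ (hMle ((RingHom.mem_ker).2 h0))
    have hval : ∀ i k, RRK.phi (B.ring 0) hZ.ne (xder k (g i)) =
        algebraMap F K (u i)⁻¹ * rgrad x (f i) k := by
      intro i k
      rw [RRK3.phi_xder, ← hrg]
      unfold rgrad
      rw [RRK.sum_coeff ((u i)⁻¹ • f i) (g i) (hG i)
        (fun a c => algebraMap F K c * (a k : K) * mon x a)]
    have hdet : RRK.phi (B.ring 0) hZ.ne (Matrix.of fun i j : Fin r => xder (g0 j) (g i)).det =
        (∏ i, algebraMap F K (u i)⁻¹) * (Matrix.of fun i j : Fin r => rgrad x (f i) (g0 j)).det := by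
      refine (RingHom.map_det (RRK.phi (B.ring 0) hZ.ne).toRingHom _).trans ?_
      rw [← Matrix.det_mul_column]
      congr 1
      ext i j
      exact hval i (g0 j)
    rw [hdet] at hδ'
    exact RRK3.li_of_det g0 (mul_ne_zero_iff.1 hδ').2
  obtain ⟨C, -⟩ := hNAK (B.ring 0) _ t hFG hfrac hZ.dimB hm (hres _ hm) htm
  obtain ⟨g0, -, hkey⟩ := hTAY (B.ring 0) M C g hFG hM hgM hlin
  -- the generic point
  let ρ : (⊤ : Subalgebra ℂ F) →ₐ[ℂ] K := (IsScalarTower.toAlgHom ℂ F K).comp (Subalgebra.val ⊤)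
  have hρ : ∀ a : F, rhoE ⊤ ρ a = algebraMap F K a := by
    intro a
    unfold rhoE
    rw [dif_pos Algebra.mem_top]
    rfl
  have hdet := hkey ⊤ ρ x le_top (fun _ _ _ => Algebra.mem_top) hZ.ne (fun G hG0 => by
    apply hMle
    rw [RingHom.mem_ker, RRK.phi_apply]
    simp only [hρ] at hG0
    exact hG0)
  have hyne := RRK.y_ne hm.ne_top C
  have hR := hREV C.y C.d x hyne hZ.ne (RRK.dual_y C)
  rw [Fintype.linearIndependent_iff]
  intro a ha i
  have h0 : (fun i => a i * algebraMap F K (u i)) = 0 := by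
    refine RRK.kill_rank (G := fun i => gr C.y C.d ((u i)⁻¹ • f i) x)
      (Q := fun i => pgr ⊤ ρ x C.d (g i)) (ω := fun c => dlog (zz C.y x c))
      (y := fun l => algebraMap F K (C.y l)) (fun l => (map_ne_zero _).2 (hyne l)) ?_ ?_ ?_ ?_ g0
      hdet _ ?_
    · intro i
      rw [← hR.2.2, hrev i, map_zero]
    · have h1 : (fun l : Fin b => dlog (zz C.y x (Fin.castAdd n l))) =
          fun l => dlog (algebraMap F K (C.y l)) := by
        funext l
        rw [zz, Fin.append_left]
      rw [h1]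
      exact RRK.li_y hm.ne_top C hZ.dimB hZ.dim
    · intro i l
      rw [gr, pgr, Fin.append_left, Fin.append_left]
      congr 1
      unfold revd
      rw [RRK.sum_coeff ((u i)⁻¹ • f i) (g i) (hG i)
        (fun a c => algebraMap F K (C.d l c) * mon x a)]
      simp only [hρ]
    · intro i j
      rw [gr, pgr, Fin.append_right, Fin.append_right]
      unfold rgrad
      rw [RRK.sum_coeff ((u i)⁻¹ • f i) (g i) (hG i)
        (fun a c => algebraMap F K c * (a j : K) * mon x a)]
      simp only [hρ]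
    · intro j
      have h2 := congrFun ha j
      rw [Finset.sum_apply, Pi.zero_apply] at h2
      rw [← h2]
      refine Finset.sum_congr rfl fun i _ => ?_
      rw [gr, Fin.append_right, hrg, Pi.smul_apply, smul_eq_mul, map_inv₀]
      have h3 : algebraMap F K (u i) ≠ 0 := (map_ne_zero _).2 (hu i)
      field_simp
  have h3 := congrFun h0 i
  exact (mul_eq_zero.1 h3).resolve_right ((map_ne_zero _).2 (hu i))

end

end RMM
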