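import Pool.Agent.RMM.StS2
import Pool.Agent.MldGeo.Ord
import Pool.Agent.MMCI.K_MON

/-!
# RMM, RSYS3: assembly of stage R3
-/

set_option autoImplicit false

namespace RMM

open MldGeo MMCI

noncomputable section

namespace RSYS3

section

variable {F K : Type} [Field F] [Field K] [Algebra ℂ F] [Algebra ℂ K] [Algebra F K] {e' n : ℕ}

/-- The initial form of a local equation is in the ideal `M` of `CLP2`. -/
theorem rinit_mem (B : ProjModel F) (f : LR F n) (x : Fin n → K) (hx : ∀ j, x j ≠ 0)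
    (hz : rev x f = 0) (v : DivVal e' K) (j : Fin (B.N + 1)) (hj : OnChart B v j)
    (M : Ideal (LR (B.ring j) n))
    (hM : ∀ (g : LR (B.ring j) n) (c : ℤ), (∀ a ∈ g.coeff.support, pair (wt x v) a = c) →
      v.Ge (c + 1) (g.coeff.sum fun a p => algebraMap F K (p : F) * mon x a) → g ∈ M)
    (u : F) (hu : u ≠ 0) (g : LR (B.ring j) n) (hfg : ∀ a, f.coeff a = u * (g.coeff a : F)) :
    rinit g (wt x v) ∈ M := by
  classical
  have hsup : f.coeff.support = g.coeff.support := by
    ext a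
    rw [Finsupp.mem_support_iff, Finsupp.mem_support_iff, hfg]
    constructor
    · intro h h0
      apply h
      rw [h0]
      simp
    · intro h h0
      apply h
      rcases mul_eq_zero.1 h0 with h1 | h1
      · exact absurd h1 hu
      · exact Subtype.ext h1
  have hval : (g.coeff.sum fun a p => algebraMap F K (p : F) * mon x a) = 0 := by
    have h1 : algebraMap F K u * (g.coeff.sum fun a p => algebraMap F K (p : F) * mon x a) = 0 := by
      rw [← hz, rev, Finsupp.sum, Finsupp.sum, hsup, Finset.mul_sum]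
      refine Finset.sum_congr rfl fun a _ => ?_
      rw [hfg, map_mul, mul_assoc]
    rcases mul_eq_zero.1 h1 with h2 | h2
    · exact absurd h2 ((map_ne_zero _).2 hu)
    · exact h2
  refine hM _ (rmin g (wt x v)) ?_ ?_
  · intro a ha
    have h1 : a ∈ (g.coeff.filter fun m => pair (wt x v) m = rmin g (wt x v)).support := ha
    rw [Finsupp.support_filter, Finset.mem_filter] at h1
    exact h1.2
  · have h2 : ((rinit g (wt x v)).coeff.sum fun a p => algebraMap F K (p : F) * mon x a) =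
        - ((g.coeff.filter fun m => ¬ pair (wt x v) m = rmin g (wt x v)).sum
          fun a p => algebraMap F K (p : F) * mon x a) := by
      rw [eq_neg_iff_add_eq_zero, ← hval]
      change ((g.coeff.filter fun m => pair (wt x v) m = rmin g (wt x v)).sum
          fun a p => algebraMap F K (p : F) * mon x a) + _ = _
      rw [← Finsupp.sum_add_index', Finsupp.filter_add_filter_not]
      · intro a
        simp
      · intro a p q
        rw [Subalgebra.coe_add, map_add, add_mul]
    rw [h2]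
    apply DivVal.Ge.neg
    rw [Finsupp.sum]
    apply DivVal.Ge.sum
    intro a ha
    rw [Finsupp.support_filter, Finset.mem_filter] at ha
    have h3 : rmin g (wt x v) ≤ pair (wt x v) a :=
      csInf_le (g.coeff.support.finite_toSet.image _).bddBelow ⟨a, ha.1, rfl⟩
    have h4 : rmin g (wt x v) + 1 ≤ pair (wt x v) a := by
      have := ha.2
      omega
    refine DivVal.Ge.mul_left (hj _ (Subtype.property _)) ?_
    refine DivVal.Ge.of_le ?_
    rw [MON.ord_mon hx]
    exact h4

end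

/-- The conditions of `RSys.nd` at one valuation, if the system is nondegenerate for its weight. -/
theorem nd (clp2 : S_CLP2) (locv : S_LOCV) (fum : S_FUM) (rvl : S_RVL) (ltr : S_LTR) (lpd : S_LPD)
    (rnb : S_RNB) (rdq : S_RDQ) {F K : Type} [Field F] [Field K] [Algebra ℂ F] [Algebra ℂ K]
    [Algebra F K] [IsScalarTower ℂ F K] {b e n r : ℕ} (B : ProjModel F) (f : Fin r → LR F n)
    (x : Fin n → K) (κ : ℕ) (y0 : Fin b → F) (β : DivVal (b + e) K → ℤ) (hpos : 0 < b + e)
    (hd : Algebra.trdeg ℂ K = ((b + e : ℕ) : Cardinal)) (ht : B.Terminal b)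
    (hB : BaseData B b (b + e) K κ y0 β) (hreg : RReg e f x)
    (hbpf : ∀ i, Bpf B (coefs (f i))) (v : DivVal (b + e) K)
    (hnd : ∀ j (m : Ideal (B.ring j)), m.IsMaximal → NondegT b B f (wt x v) j m) :
    Nonempty (Loc B e κ y0 β f x v) ∨ (¬ BIG B x v ∧
      ∀ ω : Forms (b + e) K, IsResR e y0 f x ω →
        (κ : ℤ) + 1 - κ * rpsi f (wt x v) ≤ κ * v.logOrd ω - bo κ β (fun i => coefs (f i)) v) := by
  obtain ⟨t0, j, M, ht0, ht1, hM, hmM, hth, hval, hhom⟩ := clp2 B x hreg.ne v
  obtain ⟨g, hg, hnd⟩ := hnd j _ hmM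
  have hin : ∀ i, rinit (g i) (wt x v) ∈ M := by
    intro i
    obtain ⟨⟨u, hu, hc⟩, ha⟩ := hg i
    exact rinit_mem B (f i) x hreg.ne (hreg.zero i) v j hth.1 M hhom u hu (g i) hc
  rcases hnd M hM rfl hin with ⟨hy, hind⟩ | hx
  · left
    exact locv B κ y0 β f x hB hreg.dim_eq hreg.f_ne hreg.ne hreg.zero v t0 ht0 ht1 j M hM hmM hth
      hval g hg hy fun _ => hind
  · have hXU : XUnit e f x v :=
      fum B f x hreg.dim_eq hreg.f_ne hreg.ne v t0 ht0 ht1 j M hM hth hval g hg hx
    rcases rvl hB.dimF hd hpos v with h0 | ⟨hb, w0, c, hc, hw⟩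
    · left
      exact ltr B κ y0 β f x hB hreg.f_ne v hXU h0
    · by_cases hpd : ∃ (j : Fin (B.N + 1)) (P : Ideal (B.ring j)),
          IsPrimeDivisor (B.ring j) w0 P
      · left
        exact lpd B κ y0 β f x hB hreg.f_ne v hXU w0 c hb hc hw hpd
      · right
        exact ⟨rnb B f x hB.dimF hd hb hB.normal hreg hbpf v hXU w0 c hc hw hpd,
          fun ω hω => rdq B κ y0 β f x hB hd ht hreg.ne v hXU w0 c hb hc hw hpd ω hω⟩

end RSYS3

theorem t_RSYS3 : M_RSYS3 := by
  intro cmn clp2 locv fum rvl ltr lpd rnb rdq rrk3 rbd3 F K _ _ _ _ _ _ b e n r B f x h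
  obtain ⟨κ, y0, β, hB⟩ := rbd3 (K := K) (e' := b + e) B h.dimB h.terminal
  have hreg : RReg e f x := ⟨h.dim_eq, h.f_ne, h.ne, h.gen, h.zero, rrk3 B f x h⟩
  have hbpf : ∀ i, Bpf B (coefs (f i)) := by
    intro i j m hm
    obtain ⟨g, hg, -⟩ := h.nondeg 0 j m hm
    obtain ⟨⟨u, hu, hc⟩, ha⟩ := hg i
    exact (cmn (K := K) B (f i) j m u (g i) (h.f_ne i) hu hc ha).1
  exact ⟨κ, y0, β, hB, ⟨hreg, hbpf, fun v => RSYS3.nd clp2 locv fum rvl ltr lpd rnb rdq B f x κ y0 β
    h.pos h.dim h.terminal hB hreg hbpf v (h.nondeg _)⟩⟩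

end

end RMM
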