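import Pool.Agent.RMM.StS
import Pool.Agent.MMCI.EXR

/-!
# MP_fa3f7f_ag, relative minimal models, RVL: restriction of a divisorial valuation to a subfield
-/

namespace RMM

open MldGeo MMCI MvPolynomial

namespace RVL

section Lift

variable {F K : Type} [Field F] [Field K] [Algebra ℂ F] [Algebra ℂ K] [Algebra F K]
  [IsScalarTower ℂ F K] {e : ℕ} (v : DivVal e K)

/-- elements of `F` of nonnegative order -/
def R0 : Subalgebra ℂ F where
  carrier := {a | v.Ge 0 (algebraMap F K a)}
  mul_mem' {a b} ha hb := by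
    change v.Ge 0 (algebraMap F K (a * b))
    rw [map_mul]
    exact DivVal.Ge.mul_left ha hb
  add_mem' {a b} ha hb := by
    change v.Ge 0 (algebraMap F K (a + b))
    rw [map_add]
    exact DivVal.Ge.add ha hb
  algebraMap_mem' c := by
    change v.Ge 0 (algebraMap F K (algebraMap ℂ F c))
    rw [← IsScalarTower.algebraMap_apply]
    exact DivVal.Ge.const v c

/-- the inclusion into the valuation ring -/
noncomputable def phi : letI := EXR.alg v; R0 (F := F) v →ₐ[ℂ] v.OV :=
  letI := EXR.alg v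
  { toFun := fun a => ⟨algebraMap F K a, a.2⟩
    map_one' := Subtype.ext (map_one _)
    map_mul' := fun _ _ => Subtype.ext (map_mul _ _ _)
    map_zero' := Subtype.ext (map_zero _)
    map_add' := fun _ _ => Subtype.ext (map_add _ _ _)
    commutes' := fun c => Subtype.ext (IsScalarTower.algebraMap_apply ℂ F K c).symm }

/-- residues of elements of `F` -/
noncomputable def psi : letI := EXR.alg v;
    R0 (F := F) v →ₐ[ℂ] IsLocalRing.ResidueField v.OV :=
  letI := EXR.alg v
  (EXR.resi v).comp (phi v)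

/-- lifts of elements which are algebraically independent over the residue field of `F` -/
theorem lift_indep {ι : Type} (u : ι → v.OV)
    (h : letI := EXR.alg v
      AlgebraicIndependent (psi (F := F) v).range (fun i => EXR.resi v (u i))) :
    AlgebraicIndependent F (fun i => (u i : K)) := by
  let _ := EXR.alg v
  rw [algebraicIndependent_iff] at h ⊢
  intro p hp
  by_contra hp0
  obtain ⟨m0, hm0, hmin⟩ := p.support.exists_min_image
    (fun m => v.ord (algebraMap F K (coeff m p))) (support_nonempty.2 hp0)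
  set a0 := coeff m0 p with ha0
  have ha0' : a0 ≠ 0 := mem_support_iff.1 hm0
  have hinjF : Function.Injective (algebraMap F K) := (algebraMap F K).injective
  have hmem : ∀ m, a0⁻¹ * coeff m p ∈ R0 (F := F) v := by
    intro m
    change v.Ge 0 (algebraMap F K (a0⁻¹ * coeff m p))
    by_cases hm : coeff m p = 0
    · rw [hm, mul_zero, map_zero]
      exact DivVal.Ge.zero v 0
    · have h1 := hmin m (mem_support_iff.2 hm)
      refine Or.inr ?_
      have h2 : algebraMap F K a0 ≠ 0 := by
        rwa [Ne, map_eq_zero_iff _ hinjF]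
      have h3 : algebraMap F K (coeff m p) ≠ 0 := by
        rwa [Ne, map_eq_zero_iff _ hinjF]
      rw [map_mul, map_inv₀, v.ord_mul _ _ (inv_ne_zero h2) h3, DivVal.ord_inv]
      omega
  let q : MvPolynomial ι (R0 (F := F) v) :=
    ∑ m ∈ p.support, monomial m ⟨a0⁻¹ * coeff m p, hmem m⟩
  have hq1 : coeff m0 q = 1 := by
    classical
    simp only [q, coeff_sum, coeff_monomial]
    rw [Finset.sum_eq_single m0]
    · rw [if_pos rfl]
      apply Subtype.ext
      change a0⁻¹ * a0 = 1
      exact inv_mul_cancel₀ ha0'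
    · intro b _ hb
      rw [if_neg hb]
    · intro hb
      exact absurd hm0 hb
  have hq2 : MvPolynomial.map (algebraMap (R0 (F := F) v) F) q = C a0⁻¹ * p := by
    simp only [q, map_sum, map_monomial]
    conv_rhs => rw [p.as_sum, Finset.mul_sum]
    refine Finset.sum_congr rfl fun m _ => ?_
    rw [C_mul_monomial]
    rfl
  have hq3 : eval₂ (phi (F := F) v : R0 (F := F) v →+* v.OV) u q = 0 := by
    apply Subtype.ext
    have e1 : ((eval₂ (phi (F := F) v : R0 (F := F) v →+* v.OV) u q : v.OV) : K) =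
        eval₂ (algebraMap F K) (fun i => (u i : K))
          (MvPolynomial.map (algebraMap (R0 (F := F) v) F) q) := by
      rw [eval₂_map]
      have e2 := eval₂_comp_left v.OV.subtype (phi (F := F) v : R0 (F := F) v →+* v.OV) u q
      exact e2
    rw [e1, hq2, eval₂_mul]
    have e3 : eval₂ (algebraMap F K) (fun i => (u i : K)) p = 0 := hp
    rw [e3, mul_zero]
    rfl
  have hq4 : eval₂ (psi (F := F) v : R0 (F := F) v →+* IsLocalRing.ResidueField v.OV)
      (fun i => EXR.resi v (u i)) q = 0 := by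
    have e2 := eval₂_comp_left (EXR.resi v : v.OV →+* IsLocalRing.ResidueField v.OV)
      (phi (F := F) v : R0 (F := F) v →+* v.OV) u q
    rw [hq3, map_zero] at e2
    exact e2.symm
  have hq5 : aeval (fun i => EXR.resi v (u i))
      (MvPolynomial.map ((psi (F := F) v).rangeRestrict : R0 (F := F) v →+* (psi (F := F) v).range)
        q) = 0 := by
    rw [aeval_def, eval₂_map]
    exact hq4
  have hq6 := h _ hq5
  have hq7 := congrArg (coeff m0) hq6
  rw [coeff_map, hq1, map_one, coeff_zero] at hq7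
  exact one_ne_zero hq7

/-- the transcendence degree over the residue field of `F` -/
theorem trdeg_le : letI := EXR.alg v
    Algebra.trdeg (psi (F := F) v).range (IsLocalRing.ResidueField v.OV) ≤ Algebra.trdeg F K := by
  let _ := EXR.alg v
  refine ciSup_le' fun s => ?_
  have hs : ∀ i : s.1, ∃ a : v.OV, EXR.resi v a = (i : IsLocalRing.ResidueField v.OV) := fun i =>
    IsLocalRing.residue_surjective (i : IsLocalRing.ResidueField v.OV)
  choose u hu using hs
  have h1 : AlgebraicIndependent (psi (F := F) v).range (fun i => EXR.resi v (u i)) := by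
    have h2 := s.2
    have h3 : (fun i => EXR.resi v (u i)) = (fun i : s.1 => (i : IsLocalRing.ResidueField v.OV)) :=
      funext hu
    rw [h3]
    exact h2
  exact (lift_indep v u h1).cardinalMk_le_trdeg

theorem exists_res {b e' : ℕ} (hF : Algebra.trdeg ℂ F = (b : Cardinal))
    (hK : Algebra.trdeg ℂ K = (e' : Cardinal)) (hb : 0 < b) (v : DivVal e' K) :
    ∃ t : Fin (b - 1) → F, ResInd v (fun i => algebraMap F K (t i)) := by
  let _ := EXR.alg v
  set κ := IsLocalRing.ResidueField v.OV with hκ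
  set κ0 := (psi (F := F) v).range with hκ0
  have hfa : FaithfulSMul ℂ κ0 :=
    (faithfulSMul_iff_algebraMap_injective ℂ κ0).2 (algebraMap ℂ κ0).injective
  have hfb : FaithfulSMul κ0 κ :=
    (faithfulSMul_iff_algebraMap_injective κ0 κ).2 Subtype.val_injective
  have h1 : Algebra.trdeg ℂ F + Algebra.trdeg F K = Algebra.trdeg ℂ K := trdeg_add_eq ℂ F
  have h2 : Algebra.trdeg ℂ κ0 + Algebra.trdeg κ0 κ = Algebra.trdeg ℂ κ :=
    trdeg_add_eq ℂ κ0
  have h3 : Algebra.trdeg κ0 κ ≤ Algebra.trdeg F K := trdeg_le v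
  have h4 : ((e' - 1 : ℕ) : Cardinal) ≤ Algebra.trdeg ℂ κ := by
    obtain ⟨u, hu⟩ := v.res
    have hu1 : ResInd v u := hu
    have hu' := EXR.ge_of_resInd v hu1
    have h5 := (EXR.resInd_iff v (fun i => ⟨u i, hu' i⟩)).1 hu1
    have h6 := h5.cardinalMk_le_trdeg
    rwa [Cardinal.mk_fin] at h6
  rw [hF, hK] at h1
  obtain ⟨k, hk⟩ : ∃ k : ℕ, Algebra.trdeg F K = k := by
    rw [← Cardinal.lt_aleph0]
    refine lt_of_le_of_lt ?_ (Cardinal.natCast_lt_aleph0 (n := e'))
    rw [← h1]
    exact self_le_add_left _ _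
  rw [hk] at h1 h3
  have h5 : b + k = e' := by exact_mod_cast h1
  have h6 : ((b - 1 : ℕ) : Cardinal) ≤ Algebra.trdeg ℂ κ0 := by
    rcases lt_or_ge (Algebra.trdeg ℂ κ0) Cardinal.aleph0 with h7 | h7
    · obtain ⟨s, hs⟩ := Cardinal.lt_aleph0.1 h7
      rw [hs] at h2 ⊢
      have h8 : ((e' - 1 : ℕ) : Cardinal) ≤ (s : Cardinal) + (k : Cardinal) := by
        refine h4.trans ?_
        rw [← h2]
        exact add_le_add le_rfl h3
      have h9 : e' - 1 ≤ s + k := by exact_mod_cast h8
      have h10 : b - 1 ≤ s := by omega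
      exact_mod_cast h10
    · exact (Cardinal.natCast_lt_aleph0.le).trans h7
  obtain ⟨s, hs⟩ := exists_isTranscendenceBasis ℂ κ0
  rw [← hs.cardinalMk_eq_trdeg, ← Cardinal.mk_fin] at h6
  obtain ⟨g⟩ := h6
  have h7 : AlgebraicIndependent ℂ (fun i => ((g i : κ0) : κ)) := by
    have h8 := hs.1.comp g g.injective
    exact h8.map' (f := κ0.val) Subtype.val_injective
  have h8 : ∀ i, ∃ t : R0 (F := F) v, psi v t = ((g i : κ0) : κ) := fun i => (g i : κ0).2
  choose t ht using h8
  refine ⟨fun i => (t i : F), ?_⟩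
  refine (EXR.resInd_iff v (fun i => phi v (t i))).2 ?_
  have h9 : (fun i => EXR.resi v (phi v (t i))) = (fun i => ((g i : κ0) : κ)) := funext ht
  rw [h9]
  exact h7

end Lift

end RVL

open RVL

theorem t_RVL : S_RVL := by
  intro F K _ _ _ _ _ _ b e' hF hK _ v
  by_cases htriv : ∀ a : F, a ≠ 0 → v.ord (algebraMap F K a) = 0
  · exact Or.inl htriv
  right
  have hinjF : Function.Injective (algebraMap F K) := (algebraMap F K).injective
  have hne : ∀ a : F, a ≠ 0 → algebraMap F K a ≠ 0 := fun a ha => by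
    rwa [Ne, map_eq_zero_iff _ hinjF]
  have hb : 0 < b := by
    by_contra hb
    have hb0 : b = 0 := by omega
    apply htriv
    intro a _
    rw [hb0] at hF
    have h1 : Algebra.IsAlgebraic ℂ F := trdeg_eq_zero_iff.1 (by rw [hF]; simp)
    have h2 : Algebra.IsIntegral ℂ F := Algebra.IsAlgebraic.isIntegral
    obtain ⟨c, rfl⟩ := (IsAlgClosed.algebraMap_bijective_of_isIntegral (k := ℂ) (K := F)).2 a
    rw [← IsScalarTower.algebraMap_apply]
    exact v.ord_const c
  refine ⟨hb, ?_⟩
  let G : AddSubgroup ℤ :=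
    { carrier := {k | ∃ a : F, a ≠ 0 ∧ v.ord (algebraMap F K a) = k}
      add_mem' := by
        rintro _ _ ⟨a, ha, rfl⟩ ⟨a', ha', rfl⟩
        exact ⟨a * a', mul_ne_zero ha ha', by rw [map_mul, v.ord_mul _ _ (hne a ha) (hne a' ha')]⟩
      zero_mem' := ⟨1, one_ne_zero, by rw [map_one]; exact DivVal.ord_one v⟩
      neg_mem' := by
        rintro _ ⟨a, ha, rfl⟩
        exact ⟨a⁻¹, inv_ne_zero ha, by rw [map_inv₀]; exact DivVal.ord_inv v _⟩ }
  obtain ⟨g, hg⟩ := Int.subgroup_cyclic G
  have hgm : ∀ k, k ∈ G ↔ g ∣ k := by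
    intro k
    rw [hg, AddSubgroup.mem_closure_singleton]
    constructor
    · rintro ⟨n, rfl⟩
      exact ⟨n, by rw [smul_eq_mul, mul_comm]⟩
    · rintro ⟨n, rfl⟩
      exact ⟨n, by rw [smul_eq_mul, mul_comm]⟩
  set c : ℕ := g.natAbs with hc
  have hcd : ∀ k : ℤ, k ∈ G ↔ (c : ℤ) ∣ k := by
    intro k
    rw [hgm, hc, Int.natAbs_dvd]
  have hc0 : 0 < c := by
    by_contra h0
    have h1 : c = 0 := by omega
    apply htriv
    intro a ha
    have h2 := (hcd (v.ord (algebraMap F K a))).1 ⟨a, ha, rfl⟩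
    rw [h1] at h2
    simpa using h2
  have hc0' : (c : ℤ) ≠ 0 := by exact_mod_cast hc0.ne'
  have hex : ∀ a : F, ∃ k : ℤ, v.ord (algebraMap F K a) = c * k := by
    intro a
    by_cases ha : a = 0
    · exact ⟨0, by rw [ha, map_zero, v.ord_zero, mul_zero]⟩
    · exact (hcd _).1 ⟨a, ha, rfl⟩
  choose o ho using hex
  obtain ⟨t, ht⟩ := exists_res hF hK hb v
  refine ⟨{ ord := o
            ord_zero := ?_
            ord_mul := ?_
            ord_add := ?_
            ord_const := ?_
            unif := ?_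
            res := ⟨t, ?_⟩ }, c, hc0, ho⟩
  · have h1 := ho 0
    rw [map_zero, v.ord_zero] at h1
    exact ((mul_eq_zero.1 h1.symm).resolve_left hc0')
  · intro a a' ha ha'
    have h1 := ho (a * a')
    rw [map_mul, v.ord_mul _ _ (hne a ha) (hne a' ha'), ho, ho, ← mul_add] at h1
    exact (mul_left_cancel₀ hc0' h1).symm
  · intro a a' ha ha' haa
    have h1 := v.ord_add _ _ (hne a ha) (hne a' ha') (by rw [← map_add]; exact hne _ haa)
    rw [← map_add, ho, ho, ho, ← mul_min_of_nonneg _ _ (by positivity)] at h1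
    exact le_of_mul_le_mul_left h1 (by exact_mod_cast hc0)
  · intro z
    have h1 := ho (algebraMap ℂ F z)
    rw [← IsScalarTower.algebraMap_apply, v.ord_const] at h1
    exact ((mul_eq_zero.1 h1.symm).resolve_left hc0')
  · obtain ⟨a, ha, h1⟩ := (hcd (c : ℤ)).2 dvd_rfl
    refine ⟨a, ha, ?_⟩
    rw [ho] at h1
    exact mul_left_cancel₀ hc0' (by rw [h1, mul_one])
  · intro p hp
    obtain ⟨h1, h2⟩ := ht p hp
    have h3 : aeval (fun i => algebraMap F K (t i)) p = algebraMap F K (aeval t p) :=
      (comp_aeval_apply t (IsScalarTower.toAlgHom ℂ F K) p).symm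
    rw [h3] at h1 h2
    refine ⟨fun h0 => h1 (by rw [h0, map_zero]), ?_⟩
    rw [ho] at h2
    exact (mul_eq_zero.1 h2).resolve_left hc0'

end RMM
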