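import Pool.Agent.RMM.AsmE
import Pool.Agent.RMM.AsmE3
import Pool.Agent.RMM.RSYS3
import Pool.Agent.RMM.FUM
import Pool.Agent.RMM.RVL
import Pool.Agent.RMM.LTR
import Pool.Agent.RMM.LPD
import Pool.Agent.RMM.RNB
import Pool.Agent.RMM.RDQ
import Pool.Agent.RMM.RRK3
import Pool.Agent.RMM.RBD3
import Pool.Agent.RMM.FSU
import Pool.Agent.RMM.FOF
import Pool.Agent.RMM.DLB
import Pool.Agent.RMM.FRC0
import Pool.Agent.RMM.EXM
import Pool.Agent.RMM.ABN2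
import Pool.Agent.RMM.LAM

/-!
# Relative minimal models: the abstract conditions for a base with terminal singularities
-/

set_option autoImplicit false

namespace RMM

open MldGeo MMCI

theorem rfum : S_FUM := t_FUM t_FRCB t_CMN
theorem rltr : S_LTR := t_LTR t_DLB t_EXM
theorem rlpd : S_LPD := t_LPD t_DLB t_FRC0 t_EXM
theorem rrnb : S_RNB := t_RNB t_DLB t_EXM t_ABN2 t_LAM
theorem rrk3 : S_RRK3 := t_RRK3 t_FRCB t_NAK t_TAY t_REV
theorem rae0c : S_AE0c := t_AE0c t_ABAS t_AELI t_IND t_FRD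
theorem rae0b : S_AE0b := t_AE0b t_ABAS t_ASOL t_DK t_LOB
theorem rfsu : S_FSU := t_FSU (t_FOF t_DLB t_ABAS rae0b rae0c)
theorem rrbd3 : S_RBD3 := t_RBD3 t_FRCB t_CHT rbet rfsu
theorem rsys3 : S_RSYS3 :=
  t_RSYS3 t_CMN rclp2 rlocv rfum t_RVL rltr rlpd rrnb t_RDQ rrk3 rrbd3

end RMM
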