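import Pool.Agent.RMM.StT

/-!
# MP_fa3f7f_ag, relative minimal models: generic smoothness (`GSM`)
-/

set_option autoImplicit false

namespace RMM

namespace GSM

open Polynomial

theorem exists_basis {A : Type} [CommRing A] [IsDomain A] [Algebra ℂ A] {d : ℕ}
    (hd : Algebra.trdeg ℂ A = (d : Cardinal)) : ∃ y : Fin d → A, IsTranscendenceBasis ℂ y := by
  obtain ⟨ι, x, hx⟩ := exists_isTranscendenceBasis' ℂ A
  have h1 := hx.cardinalMk_eq_trdeg
  rw [hd] at h1
  have h2 : Cardinal.mk ι = Cardinal.mk (Fin d) := by rw [h1]; simp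
  obtain ⟨e⟩ := Cardinal.eq.1 h2
  exact ⟨x ∘ e.symm, hx.comp_equiv e.symm⟩

theorem exists_res {A : Type} [CommRing A] [Algebra ℂ A] (hA : Algebra.FiniteType ℂ A)
    (N : Ideal A) (hN : N.IsMaximal) : ∃ π : A →ₐ[ℂ] ℂ, ∀ a, π a = 0 ↔ a ∈ N := by
  letI : Field (A ⧸ N) := Ideal.Quotient.field N
  have h1 : Module.Finite ℂ (A ⧸ N) := finite_of_finite_type_of_isJacobsonRing ℂ (A ⧸ N)
  have h2 : Function.Bijective (algebraMap ℂ (A ⧸ N)) :=
    IsAlgClosed.algebraMap_bijective_of_isIntegral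
  let e : ℂ ≃ₐ[ℂ] (A ⧸ N) := AlgEquiv.ofBijective (Algebra.ofId ℂ (A ⧸ N)) h2
  refine ⟨(e.symm : (A ⧸ N) →ₐ[ℂ] ℂ).comp (Ideal.Quotient.mkₐ ℂ N), fun a => ?_⟩
  change e.symm (Ideal.Quotient.mk N a) = 0 ↔ a ∈ N
  rw [map_eq_zero_iff e.symm e.symm.injective, Ideal.Quotient.eq_zero_iff_mem]

/-- a polynomial with simple root -/
theorem exists_poly {R A : Type} [CommRing R] [IsDomain R] [CharZero R] [CommRing A] [IsDomain A]
    (φ : R →+* A) (hφ : Function.Injective φ) (a : A)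
    (h : ∃ q : R[X], q ≠ 0 ∧ q.eval₂ φ a = 0) :
    ∃ q : R[X], q.eval₂ φ a = 0 ∧ (derivative q).eval₂ φ a ≠ 0 := by
  classical
  have hex : ∃ m, ∃ q : R[X], q.natDegree = m ∧ q ≠ 0 ∧ q.eval₂ φ a = 0 := by
    obtain ⟨q, h1, h2⟩ := h
    exact ⟨_, q, rfl, h1, h2⟩
  obtain ⟨q, hm, hq, hqa⟩ := Nat.find_spec hex
  refine ⟨q, hqa, fun h0 => ?_⟩
  have hpos : 0 < q.natDegree := by
    rw [Nat.pos_iff_ne_zero]
    intro hz
    rw [eq_C_of_natDegree_eq_zero hz, eval₂_C] at hqa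
    have h2 : q.coeff 0 = 0 := hφ (by rw [hqa, map_zero])
    apply hq
    rw [eq_C_of_natDegree_eq_zero hz, h2, C_0]
  have h1 : (derivative q).natDegree < q.natDegree := natDegree_derivative_lt hpos.ne'
  have h2 : derivative q ≠ 0 := fun h => hpos.ne' (derivative_eq_zero.1 h)
  have h3 := Nat.find_min hex (m := (derivative q).natDegree) (by rw [← hm]; exact h1)
  exact h3 ⟨_, rfl, h2, h0⟩

end GSM

open Polynomial in
theorem t_GSM : S_GSM := by
  intro A _ _ _ d hA hd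
  classical
  obtain ⟨y, hy⟩ := GSM.exists_basis hd
  obtain ⟨G, hG⟩ := hA.out
  let φ : MvPolynomial (Fin d) ℂ →ₐ[ℂ] A := MvPolynomial.aeval y
  let φ' : MvPolynomial (Fin d) ℂ →+* A := φ.toRingHom
  have hφ : Function.Injective φ' := hy.1
  have hpoly : ∀ a : A, ∃ q : (MvPolynomial (Fin d) ℂ)[X], q.eval₂ φ' a = 0 ∧
      (derivative q).eval₂ φ' a ≠ 0 := by
    intro a
    refine GSM.exists_poly φ' hφ a ?_
    have h1 : Algebra.IsAlgebraic (Algebra.adjoin ℂ (Set.range y)) A := hy.isAlgebraic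
    obtain ⟨p, hp0, hp⟩ := h1.isAlgebraic a
    let e := hy.1.aevalEquiv
    refine ⟨p.map (e.symm : _ →+* MvPolynomial (Fin d) ℂ), ?_, ?_⟩
    · rw [Polynomial.map_ne_zero_iff e.symm.injective]
      exact hp0
    · rw [eval₂_map]
      have h2 : φ'.comp (e.symm : _ →+* MvPolynomial (Fin d) ℂ) =
          algebraMap (Algebra.adjoin ℂ (Set.range y)) A := by
        ext b
        obtain ⟨c, rfl⟩ := e.surjective b
        change φ' (e.symm (e c)) = ((e c : Algebra.adjoin ℂ (Set.range y)) : A)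
        rw [AlgEquiv.symm_apply_apply]
        exact (hy.1.algebraMap_aevalEquiv c).symm
      rw [h2]
      exact hp
  choose Q hQ0 hQ1 using hpoly
  refine ⟨∏ a ∈ G, (derivative (Q a)).eval₂ φ' a,
    Finset.prod_ne_zero_iff.2 fun a _ => hQ1 a, fun N hN hs => ?_⟩
  obtain ⟨π, hπ⟩ := GSM.exists_res hA N hN
  have hsa : ∀ a ∈ G, π ((derivative (Q a)).eval₂ φ' a) ≠ 0 := by
    intro a ha h0
    rw [hπ] at h0
    exact hs (by
      rw [← Finset.mul_prod_erase G _ ha]
      exact N.mul_mem_right _ h0)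
  let z : Fin d → A := fun l => y l - algebraMap ℂ A (π (y l))
  have hsub : ∀ a : A, a - algebraMap ℂ A (π a) ∈ N := by
    intro a
    rw [← hπ, map_sub, AlgHom.commutes]
    exact sub_self _
  let I : Ideal A := Ideal.span (Set.range z) ⊔ N ^ 2
  let f : A →ₐ[ℂ] A ⧸ I := Ideal.Quotient.mkₐ ℂ I
  let g : A →ₐ[ℂ] A ⧸ I := (Algebra.ofId ℂ (A ⧸ I)).comp π
  have hfg : ∀ a, f a - g a = Ideal.Quotient.mk I (a - algebraMap ℂ A (π a)) := by
    intro a
    rw [map_sub]
    rfl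
  have hφfg : f.comp φ = g.comp φ := by
    apply MvPolynomial.algHom_ext
    intro l
    rw [AlgHom.comp_apply, AlgHom.comp_apply, ← sub_eq_zero, hfg]
    rw [Ideal.Quotient.eq_zero_iff_mem]
    apply Ideal.mem_sup_left
    apply Ideal.subset_span
    refine ⟨l, ?_⟩
    simp only [z, φ, MvPolynomial.aeval_X]
  have hgen : ∀ a ∈ G, f a = g a := by
    intro a ha
    have hsq : (f a - g a) ^ 2 = 0 := by
      rw [hfg, ← map_pow, Ideal.Quotient.eq_zero_iff_mem]
      exact Ideal.mem_sup_right (Ideal.pow_mem_pow (hsub a) 2)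
    have hr : (f : A →+* A ⧸ I).comp φ' = (g : A →+* A ⧸ I).comp φ' :=
      RingHom.ext fun c => DFunLike.congr_fun hφfg c
    have h1 := eval_add_of_sq_eq_zero ((Q a).map ((g : A →+* A ⧸ I).comp φ'))
      (g a) (f a - g a) hsq
    rw [add_sub_cancel] at h1
    have h2 : eval (f a) ((Q a).map ((g : A →+* A ⧸ I).comp φ')) = 0 := by
      rw [← hr, eval_map]
      have := hom_eval₂ (Q a) φ' (f : A →+* A ⧸ I) a
      rw [hQ0, map_zero] at this
      exact this.symm
    have h3 : eval (g a) ((Q a).map ((g : A →+* A ⧸ I).comp φ')) = 0 := by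
      rw [eval_map]
      have := hom_eval₂ (Q a) φ' (g : A →+* A ⧸ I) a
      rw [hQ0, map_zero] at this
      exact this.symm
    have h4 : eval (g a) (derivative ((Q a).map ((g : A →+* A ⧸ I).comp φ'))) =
        algebraMap ℂ (A ⧸ I) (π ((derivative (Q a)).eval₂ φ' a)) := by
      rw [derivative_map, eval_map]
      exact (hom_eval₂ (derivative (Q a)) φ' (g : A →+* A ⧸ I) a).symm
    rw [h2, h3, h4, zero_add] at h1
    have h5 : algebraMap ℂ (A ⧸ I) (π ((derivative (Q a)).eval₂ φ' a))⁻¹ *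
        algebraMap ℂ (A ⧸ I) (π ((derivative (Q a)).eval₂ φ' a)) = 1 := by
      rw [← map_mul, inv_mul_cancel₀ (hsa a ha), map_one]
    have h6 : f a - g a = 0 := by
      calc f a - g a = (algebraMap ℂ (A ⧸ I) (π ((derivative (Q a)).eval₂ φ' a))⁻¹ *
        algebraMap ℂ (A ⧸ I) (π ((derivative (Q a)).eval₂ φ' a))) * (f a - g a) := by
            rw [h5, one_mul]
        _ = 0 := by rw [mul_assoc, ← h1, mul_zero]
    exact sub_eq_zero.1 h6
  have hall : f = g := by
    apply AlgHom.ext_of_adjoin_eq_top hG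
    intro a ha
    exact hgen a ha
  refine ⟨z, le_antisymm ?_ ?_⟩
  · intro c hc
    have h1 : f c = g c := by rw [hall]
    have h2 : π c = 0 := (hπ c).2 hc
    have h3 : g c = 0 := by
      change algebraMap ℂ (A ⧸ I) (π c) = 0
      rw [h2, map_zero]
    rw [h3] at h1
    exact Ideal.Quotient.eq_zero_iff_mem.1 h1
  · refine sup_le ?_ (Ideal.pow_le_self two_ne_zero)
    rw [Ideal.span_le]
    rintro _ ⟨l, rfl⟩
    exact hsub _

end RMM
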