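import Pool.Agent.RMM.StT
import Pool.Agent.MMCI.Tools
import Pool.Agent.MMCI.TorLib
import Pool.Agent.MMCI.K_RES

/-!
# HTZ: `BIG` and the prime divisors of `Z`
-/

set_option autoImplicit false

namespace RMM

open MldGeo MMCI MldGeo.DivVal MvPolynomial

noncomputable section

namespace HTZ

variable {F K : Type} [Field F] [Field K] [Algebra ℂ F] [Algebra ℂ K] [Algebra F K]
  [IsScalarTower ℂ F K] {e' n : ℕ}

/-- The generators of the ring. -/
def fam (B : ProjModel F) (x : Fin n → K) (j : Fin (B.N + 1)) :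
    Fin (B.N + 1) ⊕ (Fin n → ℤ) → K :=
  Sum.elim (fun j' => algebraMap F K (B.s j' / B.s j)) fun m => mon x m

theorem quot_mem (B : ProjModel F) (j j' : Fin (B.N + 1)) : B.s j' / B.s j ∈ B.ring j :=
  Algebra.subset_adjoin ⟨j', rfl⟩

theorem fam_mem (B : ProjModel F) (x : Fin n → K) (j : Fin (B.N + 1))
    (i : Fin (B.N + 1) ⊕ (Fin n → ℤ)) : fam B x j i ∈ zring B x j := by
  rcases i with j' | m
  · exact Algebra.subset_adjoin (Or.inl ⟨_, quot_mem B j j', rfl⟩)
  · exact Algebra.subset_adjoin (Or.inr ⟨m, rfl⟩)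

theorem zring_le (B : ProjModel F) (x : Fin n → K) (j : Fin (B.N + 1)) (S : Subalgebra ℂ K)
    (h : ∀ i, fam B x j i ∈ S) : zring B x j ≤ S := by
  unfold zring
  refine Algebra.adjoin_le ?_
  rintro _ (⟨c, hc, rfl⟩ | ⟨m, rfl⟩)
  · have h1 : B.ring j ≤ S.comap (IsScalarTower.toAlgHom ℂ F K) := by
      unfold ProjModel.ring
      refine Algebra.adjoin_le ?_
      rintro _ ⟨j', rfl⟩
      exact h (Sum.inl j')
    exact h1 hc
  · exact h (Sum.inr m)

/-- The germ. -/
def germ (B : ProjModel F) (x : Fin n → K) (htr : Algebra.trdeg ℂ K = (e' : Cardinal))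
    (j : Fin (B.N + 1)) (hfg : (zring B x j).FG)
    (hfrac : ∀ a : K, ∃ p ∈ zring B x j, ∃ q ∈ zring B x j, q ≠ 0 ∧ a * q = p)
    (hnor : ∀ a : K, IsIntegral (zring B x j) a → a ∈ zring B x j) (M : Ideal (zring B x j))
    (hM : M.IsMaximal) : Germ e' where
  K := K
  fieldK := inferInstance
  algK := inferInstance
  R := zring B x j
  fg := hfg
  frac := hfrac
  normal := hnor
  trdeg := htr
  m := M
  max := hM

end HTZ

theorem t_HTZ : M_HTZ := by
  intro hZRG hRRES F K _ _ _ _ _ _ e' n B x hx hgen he htr j hnor v P hc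
  obtain ⟨hfg, hfrac, -, hOC⟩ := hZRG B x hx hgen j
  obtain ⟨hOn, hw⟩ := (hOC v).1 fun a ha => Ge.of_le (hc.2.1 ⟨a, ha⟩)
  obtain ⟨M, hM, hPM⟩ := Ideal.exists_le_maximal P hc.1.ne_top
  constructor
  · intro h
    have hO : ∀ a : K, v.Ge 0 a → ∃ r s : zring B x j, s ∉ P ∧ a * (s : K) = r :=
      cOLC (HTZ.germ B x htr j hfg hfrac hnor M hM) P v ⟨hc.1, h, hc.2.1, hc.2.2⟩
    obtain ⟨u, hu⟩ := v.res
    have hu0 := RES.ge_of_resIndep v hu
    have ht : ∀ i, v.Ge 0 (HTZ.fam B x j i) := fun i =>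
      Ge.of_le (hc.2.1 ⟨_, HTZ.fam_mem B x j i⟩)
    let _ := RES.alg v
    have key : ∀ (a : K) (ha : v.Ge 0 a), a ∈ zring B x j → RES.resi v ⟨a, ha⟩ ∈
        Algebra.adjoin ℂ (Set.range fun i => RES.resi v ⟨HTZ.fam B x j i, ht i⟩) := by
      intro a ha hax
      have h1 := HTZ.zring_le B x j
        (((Algebra.adjoin ℂ (Set.range fun i => RES.resi v ⟨HTZ.fam B x j i, ht i⟩)).comap
          (RES.resi v)).map (RES.incl v)) (fun i =>
            ⟨⟨HTZ.fam B x j i, ht i⟩, Algebra.subset_adjoin ⟨i, rfl⟩, rfl⟩) hax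
      obtain ⟨b, hb, hba⟩ := h1
      have h2 : b = ⟨a, ha⟩ := Subtype.ext hba
      rw [← h2]
      exact hb
    obtain ⟨c, hc'⟩ := RES.choose v (HTZ.fam B x j) ht u hu0 hu (by
      intro i
      obtain ⟨p, q, hq, hpq⟩ := hO (u i) (hu0 i)
      have hp0 : v.Ge 0 (p : K) := Ge.of_le (hc.2.1 p)
      have hq0 : v.Ge 0 (q : K) := Ge.of_le (hc.2.1 q)
      have hq1 : (q : K) ≠ 0 ∧ v.ord (q : K) = 0 := by
        have h2 := mt (hc.2.2 q).2 hq
        push Not at h2
        have h3 := hc.2.1 q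
        refine ⟨fun h4 => h2.1 (Subtype.ext h4), ?_⟩
        have h5 := h2.2
        omega
      refine ⟨Polynomial.C ⟨RES.resi v ⟨q, hq0⟩, key q hq0 q.2⟩ * Polynomial.X -
        Polynomial.C ⟨RES.resi v ⟨p, hp0⟩, key p hp0 p.2⟩, ?_, ?_⟩
      · intro h2
        have h3 := congrArg (fun s => s.coeff 1) h2
        simp only [Polynomial.coeff_sub, Polynomial.coeff_C_mul, Polynomial.coeff_X_one, mul_one,
          Polynomial.coeff_C_succ, sub_zero, Polynomial.coeff_zero] at h3
        exact (RES.resi_ne v ⟨q, hq0⟩).2 hq1 (congrArg Subtype.val h3)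
      · rw [map_sub, map_mul, Polynomial.aeval_C, Polynomial.aeval_C, Polynomial.aeval_X]
        change RES.resi v ⟨q, hq0⟩ * RES.resi v ⟨u i, hu0 i⟩ - RES.resi v ⟨p, hp0⟩ = 0
        rw [← map_mul, sub_eq_zero]
        congr 1
        apply Subtype.ext
        change (q : K) * u i = p
        rw [mul_comm]
        exact hpq)
    have hord : ∀ l, v.ord (HTZ.fam B x j (c l)) = 0 := by
      intro l
      have h1 := (hc' (X l) (X_ne_zero l)).2
      rwa [aeval_X] at h1
    have hF : ∀ i, HTZ.fam B x j i =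
        algebraMap F K (Sum.elim (fun j' => B.s j' / B.s j) (fun _ => 1) i) *
          mon x (Sum.elim (fun _ => 0) (fun m => m) i) := by
      rintro (j' | m)
      · show algebraMap F K (B.s j' / B.s j) = algebraMap F K (B.s j' / B.s j) * mon x 0
        rw [Tor.mon_zero, mul_one]
      · show mon x m = algebraMap F K 1 * mon x m
        rw [map_one, one_mul]
    have hgood : ∀ i, v.ord (HTZ.fam B x j i) = 0 →
        InO B v (Sum.elim (fun j' => B.s j' / B.s j) (fun _ => 1) i) ∧
        (Sum.elim (fun j' => B.s j' / B.s j) (fun _ => 1) i : F) ≠ 0 ∧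
        v.ord (algebraMap F K (Sum.elim (fun j' => B.s j' / B.s j) (fun _ => 1) i)) = 0 := by
      rintro (j' | m) hi
      · refine ⟨⟨j, hOn, B.s j' / B.s j, HTZ.quot_mem B j j', 1, (B.ring j).one_mem, one_ne_zero,
          ?_, ?_⟩, div_ne_zero (B.ne j') (B.ne j), hi⟩
        · rw [map_one, ord_one]
        · exact mul_one _
      · refine ⟨⟨j, hOn, 1, (B.ring j).one_mem, 1, (B.ring j).one_mem, one_ne_zero, ?_, ?_⟩,
          one_ne_zero, ?_⟩
        · rw [map_one, ord_one]
        · exact mul_one _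
        · show v.ord (algebraMap F K 1) = 0
          rw [map_one, ord_one]
    refine ⟨fun l => Sum.elim (fun j' => B.s j' / B.s j) (fun _ => 1) (c l),
      fun l => Sum.elim (fun _ => 0) (fun m => m) (c l), fun l => ?_, ?_⟩
    · obtain ⟨h1, h2, h3⟩ := hgood (c l) (hord l)
      refine ⟨h1, h2, h3, ?_⟩
      rw [hw]
      simp [pair]
    · have h1 : (fun l => HTZ.fam B x j (c l)) = fun l =>
          algebraMap F K (Sum.elim (fun j' => B.s j' / B.s j) (fun _ => 1) (c l)) *
            mon x (Sum.elim (fun _ => 0) (fun m => m) (c l)) := funext fun l => hF (c l)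
      rw [← h1]
      exact hc'
  · intro h
    obtain ⟨u, hu⟩ := hRRES B x hx v j hOn h (fun l : Fin n => (Pi.single l 1 : Fin n → ℤ))
      (fun l => by
        rw [hw]
        simp [pair])
      (fun m _ => ⟨1, fun l => m l, one_ne_zero, by
        funext i
        rw [one_smul, Finset.sum_apply]
        simp [Pi.single_apply]⟩)
    have hmem : ∀ l, Sum.elim (fun j' => algebraMap F K (B.s j' / B.s j))
        (fun l' : Fin n => mon x (Pi.single l' 1 : Fin n → ℤ)) (u l) ∈ zring B x j := by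
      intro l
      rcases u l with j' | l'
      · exact HTZ.fam_mem B x j (Sum.inl j')
      · exact HTZ.fam_mem B x j (Sum.inr (Pi.single l' 1))
    have hval : ∀ p : MvPolynomial (Fin (e' - 1)) ℂ,
        ((aeval (fun l => (⟨_, hmem l⟩ : zring B x j)) p : zring B x j) : K) =
        aeval (fun l => Sum.elim (fun j' => algebraMap F K (B.s j' / B.s j))
          (fun l' : Fin n => mon x (Pi.single l' 1 : Fin n → ℤ)) (u l)) p := by
      intro p
      exact comp_aeval_apply (fun l => (⟨_, hmem l⟩ : zring B x j)) (zring B x j).val p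
    obtain ⟨P', hP'⟩ := cHT1 (HTZ.germ B x htr j hfg hfrac hnor M hM) v he hc.2.1
      ⟨fun l => ⟨_, hmem l⟩, fun p hp => by
        have h1 := hu p hp
        rw [← hval p] at h1
        exact ⟨fun h2 => h1.1 (congrArg (Subtype.val : zring B x j → K) h2), h1.2⟩⟩
    have h3 : P' = P := by
      ext a
      rw [hP'.2.2.2 a]
      exact (hc.2.2 a).symm
    rw [← h3]
    exact hP'.2.1

end

end RMM
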