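import Pool.Agent.RMM.StT
import Pool.Agent.RMM.RRK

/-!
# Relative minimal models, stage R2: the local data at the prime divisors of `Z`
-/

set_option autoImplicit false

namespace RMM

open MldGeo MMCI

noncomputable section

theorem t_LTZ : M_LTZ := by
  intro zrg smc zpre zcp locv F K _ _ _ _ _ _ b e n r B κ y0 β f x hB hn hpos hf hx hgen hdim hz
    hG j hnorm v P hP
  obtain ⟨hfg, hfrac, -, -⟩ := zrg B x hx hgen j
  obtain ⟨N, hN, hPN, hsm⟩ := smc (zring B x j) hpos hfg hfrac hnorm hdim v P hP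
  obtain ⟨M, hpre, hM, hmM, hker, hv⟩ := zpre B x hx hgen j N hN
  obtain ⟨hch, hwt, hth, hval⟩ := hv v P ⟨hP.1, hP.2.2.1, hP.2.2.2⟩ hPN
  obtain ⟨g, hg, hgM, hy, hind⟩ := zcp B f x hn hx hgen hB.dimF hz hG j N M hN hM hmM hpre hsm
  obtain ⟨t0, ht0, ht1⟩ := v.unif
  refine locv B κ y0 β f x hB hn hf hx hz v t0 ht0 ht1 j M hM hmM hth (hval t0) g hg hy ?_
  intro _ τ hτ
  refine hind τ ?_
  simpa only [hwt, RRK.rinit_zero] using hτ

end

end RMM
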