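import Pool.Agent.RMM.StT
import Pool.Agent.RMM.RSYS3

/-!
# Relative minimal models, stage R2: the valuations of nonzero weight
-/

set_option autoImplicit false

namespace RMM

open MldGeo MMCI

noncomputable section

theorem t_LWT : M_LWT := by
  intro clp2 locv fum rvl ltr lpd rnb rdq F K _ _ _ _ _ _ b e n r B κ y0 β f x hB hpos hdim hT
    hreg hbpf v hnd
  obtain ⟨t0, j, M, ht0, ht1, hM, hmM, hth, hval, hhom⟩ := clp2 B x hreg.ne v
  obtain ⟨g, hg, hnd⟩ := hnd j _ hmM
  have hin : ∀ i, rinit (g i) (wt x v) ∈ M := by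
    intro i
    obtain ⟨⟨u, hu, hc⟩, ha⟩ := hg i
    exact RSYS3.rinit_mem B (f i) x hreg.ne (hreg.zero i) v j hth.1 M hhom u hu (g i) hc
  rcases hnd M hM rfl hin with ⟨hy, hind⟩ | hx
  · left
    exact locv B κ y0 β f x hB hreg.dim_eq hreg.f_ne hreg.ne hreg.zero v t0 ht0 ht1 j M hM hmM
      hth hval g hg hy fun _ => hind
  · have hXU : XUnit e f x v :=
      fum B f x hreg.dim_eq hreg.f_ne hreg.ne v t0 ht0 ht1 j M hM hth hval g hg hx
    rcases rvl hB.dimF hdim hpos v with h0 | ⟨hb, w0, c, hc, hw⟩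
    · left
      exact ltr B κ y0 β f x hB hreg.f_ne v hXU h0
    · by_cases hpd : ∃ (j : Fin (B.N + 1)) (P : Ideal (B.ring j)),
          IsPrimeDivisor (B.ring j) w0 P
      · left
        exact lpd B κ y0 β f x hB hreg.f_ne v hXU w0 c hb hc hw hpd
      · right
        exact ⟨rnb B f x hB.dimF hdim hb hB.normal hreg hbpf v hXU w0 c hc hw hpd,
          fun ω hω => rdq B κ y0 β f x hB hdim hT hreg.ne v hXU w0 c hb hc hw hpd ω hω⟩

end

end RMM
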