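import Pool.Agent.RMM.StT
import Pool.Agent.MMCI.K_TOT

/-!
# Relative minimal models: the final class satisfies the abstract conditions
-/

set_option autoImplicit false

namespace RMM

open MldGeo MMCI

noncomputable section

theorem t_RSYSF : M_RSYSF := by
  intro cmn cht rbd3 rsys3 zrg ltz rrkz rdz lwt F K _ _ _ _ _ _ b e n r B f x h
  rcases h.inner with h0 | ⟨hG, hT⟩
  · refine rsys3 B f x ⟨h.dim_eq, h.pos, h.f_ne, h.ne, h.gen, h.dimB, h.terminal, h.dim, h.zero,
      fun ν j m hm => ?_⟩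
    by_cases hν : ν = 0
    · rw [hν]
      exact h0 j m hm
    · exact h.nondeg ν hν j m hm
  · obtain ⟨κ, y0, β, hB⟩ := rbd3 (K := K) (e' := b + e) B h.dimB h.terminal
    have hreg : RReg e f x := ⟨h.dim_eq, h.f_ne, h.ne, h.gen, h.zero,
      rrkz B f x h.dim_eq h.f_ne h.ne h.gen h.dimB h.dim h.zero hG⟩
    have hbpf : ∀ i, Bpf B (coefs (f i)) := by
      intro i j m hm
      obtain ⟨g, hg⟩ := h.loc j m hm
      obtain ⟨⟨u, hu, hc⟩, ha⟩ := hg i
      exact (cmn (K := K) B (f i) j m u (g i) (h.f_ne i) hu hc ha).1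
    refine ⟨κ, y0, β, hB, ⟨hreg, hbpf, fun v => ?_⟩⟩
    by_cases hw : wt x v = 0
    · obtain ⟨j, hj⟩ := cht B v
      obtain ⟨-, -, -, hz⟩ := zrg B x h.ne h.gen j
      have hge : ∀ a ∈ zring B x j, v.Ge 0 a := (hz v).2 ⟨hj, hw⟩
      have hcen := TOT.hasCentre v (zring B x j) hge
      by_cases hht : (TOT.centre v (zring B x j) hge).height = 1
      · left
        exact ltz B κ y0 β f x hB h.dim_eq h.pos h.f_ne h.ne h.gen h.dim h.zero hG j (hT j).1 v _
          ⟨hcen.1, hht, hcen.2.1, hcen.2.2⟩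
      · right
        exact rdz B κ y0 β f x hB h.pos h.dim hreg hbpf j (hT j)
          (fun v' P' hP' => ltz B κ y0 β f x hB h.dim_eq h.pos h.f_ne h.ne h.gen h.dim h.zero hG
            j (hT j).1 v' P' hP') v _ hcen hht
    · exact lwt B κ y0 β f x hB h.pos h.dim h.terminal hreg hbpf v fun j m hm =>
        h.nondeg (wt x v) hw j m hm

end

end RMM
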