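import Pool.Agent.RMM.StT
import Pool.Agent.MMCI.Tools
import Pool.Agent.MMCI.K_UMT
import Pool.Agent.MMCI.CRT

/-!
# SMC: smooth closed points on prime divisors
-/

set_option autoImplicit false

namespace RMM

open MldGeo MldGeo.DivVal MMCI

noncomputable section

namespace SMC

/-- In a Jacobson ring there is a maximal ideal over a prime which avoids a given element. -/
theorem exists_max {R : Type} [CommRing R] [IsJacobsonRing R] (P : Ideal R) (hP : P.IsPrime) (s : R)
    (hs : s ∉ P) : ∃ N : Ideal R, N.IsMaximal ∧ P ≤ N ∧ s ∉ N := by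
  have h1 : P.jacobson = P := IsJacobsonRing.out ‹_› hP.isRadical
  rw [← h1, Ideal.jacobson, Ideal.mem_sInf] at hs
  push Not at hs
  obtain ⟨N, ⟨h2, h3⟩, h4⟩ := hs
  exact ⟨N, h3, h2, h4⟩

variable {R : Type} [CommRing R]

/-- the generators of the prime are in `(t) + N²` -/
theorem gen_le {P N : Ideal R} (hN : N.IsMaximal) (hPN : P ≤ N) {t : R} (G : Finset R)
    (hG : Ideal.span (G : Set R) = P) (h : ∀ g ∈ G, ∃ s r : R, s ∉ N ∧ s * g = t * r) :
    P ≤ Ideal.span {t} ⊔ N ^ 2 := by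
  rw [← hG, Ideal.span_le]
  intro g hg
  obtain ⟨s, r, hs, e⟩ := h g hg
  obtain ⟨c, i, hi, hc⟩ := hN.exists_inv hs
  have hgN : g ∈ N := hPN (hG ▸ Ideal.subset_span hg)
  have h1 : g = t * (c * r) + i * g := by
    have h2 : g = (c * s + i) * g := by rw [hc, one_mul]
    linear_combination h2 + c * e
  rw [h1]
  refine Submodule.add_mem_sup (Ideal.mul_mem_right _ _ (Ideal.mem_span_singleton_self t)) ?_
  rw [pow_two]
  exact Ideal.mul_mem_mul hi hgN

/-- The cotangent space of the point on the variety and on the prime divisor. -/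
theorem span_eq {P N : Ideal R} (hPN : P ≤ N) {t : R} (htP : t ∈ P)
    (hP : P ≤ Ideal.span {t} ⊔ N ^ 2) {k m : ℕ} (hkm : k ≤ m) (z : Fin k → R)
    (hz : N.map (Ideal.Quotient.mk P) =
      Ideal.span (Set.range fun l => Ideal.Quotient.mk P (z l)) ⊔
        N.map (Ideal.Quotient.mk P) ^ 2) :
    ∃ z' : Fin (m + 1) → R, N = Ideal.span (Set.range z') ⊔ N ^ 2 := by
  have hcomap : (N.map (Ideal.Quotient.mk P)).comap (Ideal.Quotient.mk P) = N := by
    rw [Ideal.comap_map_of_surjective _ Ideal.Quotient.mk_surjective, ← RingHom.ker_eq_comap_bot,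
      Ideal.mk_ker, sup_eq_left.2 hPN]
  have hzN : ∀ l, z l ∈ N := by
    intro l
    rw [← hcomap, Ideal.mem_comap, hz]
    exact Ideal.mem_sup_left (Ideal.subset_span ⟨l, rfl⟩)
  let z' : Fin (m + 1) → R := Fin.cons t fun l : Fin m => if h : (l : ℕ) < k then z ⟨l, h⟩ else 0
  have ht' : t ∈ Ideal.span (Set.range z') := Ideal.subset_span ⟨0, rfl⟩
  have hz' : ∀ l : Fin k, z l ∈ Ideal.span (Set.range z') := by
    intro l
    refine Ideal.subset_span ⟨Fin.succ ⟨(l : ℕ), l.2.trans_le hkm⟩, ?_⟩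
    change (if h : (l : ℕ) < k then z ⟨l, h⟩ else 0) = z l
    rw [dif_pos l.2]
  refine ⟨z', le_antisymm ?_ (sup_le ?_ (Ideal.pow_le_self two_ne_zero))⟩
  · intro a ha
    have h1 : Ideal.Quotient.mk P a ∈
        (Ideal.span (Set.range z) ⊔ N ^ 2).map (Ideal.Quotient.mk P) := by
      rw [Ideal.map_sup, Ideal.map_pow, Ideal.map_span, ← Set.range_comp]
      have h2 := Ideal.mem_map_of_mem (Ideal.Quotient.mk P) ha
      rw [hz] at h2
      exact h2
    have h3 : a ∈ ((Ideal.span (Set.range z) ⊔ N ^ 2).map (Ideal.Quotient.mk P)).comap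
        (Ideal.Quotient.mk P) := h1
    rw [Ideal.comap_map_of_surjective _ Ideal.Quotient.mk_surjective, ← RingHom.ker_eq_comap_bot,
      Ideal.mk_ker] at h3
    have h4 : Ideal.span (Set.range z) ⊔ N ^ 2 ⊔ P ≤ Ideal.span (Set.range z') ⊔ N ^ 2 := by
      refine sup_le (sup_le_sup_right ?_ _) (hP.trans (sup_le_sup_right ?_ _))
      · rw [Ideal.span_le]
        rintro _ ⟨l, rfl⟩
        exact hz' l
      · rw [Ideal.span_le, Set.singleton_subset_iff]
        exact ht'
    exact h4 h3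
  · rw [Ideal.span_le]
    rintro _ ⟨l, rfl⟩
    refine Fin.cases ?_ (fun l => ?_) l
    · exact hPN htP
    · change (if h : (l : ℕ) < k then z ⟨l, h⟩ else 0) ∈ N
      split_ifs with h
      · exact hzN _
      · exact N.zero_mem

end SMC

open SMC in
theorem t_SMC : M_SMC := by
  intro hGSM K _ _ e R he hfg hfr hint htr v P hPD
  classical
  obtain ⟨m, rfl⟩ : ∃ m, e = m + 1 := ⟨e - 1, by omega⟩
  obtain ⟨hP, hht, hord, hmem⟩ := hPD
  have hC : HasCentre R v P := ⟨hP, hord, hmem⟩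
  have hloc := (t_CRT R hfg hfr hint htr v P hC).1 hht
  have hft : Algebra.FiniteType ℂ R := R.fg_iff_finiteType.1 hfg
  have hnoe : IsNoetherianRing R := isNoetherianRing_of_fg hfg
  have hjac : IsJacobsonRing R := isJacobsonRing_of_finiteType (A := ℂ)
  have hftq : Algebra.FiniteType ℂ (R ⧸ P) :=
    Algebra.FiniteType.of_surjective (Ideal.Quotient.mkₐ ℂ P) (Ideal.Quotient.mkₐ_surjective ℂ P)
  have htrq := UMT.trdeg_quot htr R v P hord hmem
  obtain ⟨k, hk⟩ : ∃ k : ℕ, Algebra.trdeg ℂ (R ⧸ P) = (k : Cardinal) :=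
    Cardinal.lt_aleph0.1 (htrq.trans_lt (Cardinal.natCast_lt_aleph0))
  have hkm : k ≤ m := by
    rw [hk] at htrq
    exact_mod_cast htrq
  obtain ⟨sb, hsb, hsm⟩ := hGSM hftq hk
  obtain ⟨s0, rfl⟩ := Ideal.Quotient.mk_surjective sb
  have hs0 : s0 ∉ P := fun h => hsb (Ideal.Quotient.eq_zero_iff_mem.2 h)
  -- a uniformizer
  obtain ⟨t, ht0, ht1⟩ : ∃ t : R, (t : K) ≠ 0 ∧ v.ord t = 1 := by
    obtain ⟨t0, h1, h2⟩ := v.unif
    obtain ⟨r', s, hs, hrs⟩ := hloc t0 (Or.inr (by omega))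
    have hs0 := CRT.ne_zero hs
    have hs1 := CRT.ord_eq hC hs
    refine ⟨r', ?_, ?_⟩
    · rw [← hrs]
      exact mul_ne_zero h1 hs0
    · rw [← hrs, v.ord_mul _ _ h1 hs0, h2, hs1, add_zero]
  have htP : t ∈ P := (hmem t).2 (Or.inr (by omega))
  -- the generators
  have hgen : ∀ g : R, ∃ s r : R, s ∉ P ∧ (g ∈ P → s * g = t * r) := by
    intro g
    by_cases hg : g ∈ P
    · by_cases hg0 : g = 0
      · exact ⟨1, 0, fun h => hP.ne_top (P.eq_top_iff_one.2 h), fun _ => by rw [hg0]; ring⟩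
      · have hg1 : (g : K) ≠ 0 := CRT.coe_ne hg0
        have hg2 : 0 < v.ord g := ((hmem g).1 hg).resolve_left hg0
        obtain ⟨r', s, hs, hrs⟩ := hloc ((g : K) / t) (Or.inr (by
          rw [ord_div v hg1 ht0, ht1]
          omega))
        refine ⟨s, r', hs, fun _ => ?_⟩
        apply Subtype.ext
        change (s : K) * g = t * r'
        rw [← hrs]
        field_simp
    · exact ⟨1, 0, fun h => hP.ne_top (P.eq_top_iff_one.2 h), fun h => absurd h hg⟩
  choose s r hs hsr using hgen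
  obtain ⟨G, hG⟩ := (isNoetherianRing_iff_ideal_fg R).1 hnoe P
  have hsP : s0 * ∏ g ∈ G, s g ∉ P := by
    intro h
    rcases hP.mem_or_mem h with h | h
    · exact hs0 h
    · obtain ⟨g, _, hg⟩ := (hP.prod_mem_iff).1 h
      exact hs g hg
  obtain ⟨N, hN, hPN, hsN⟩ := exists_max P hP _ hsP
  refine ⟨N, hN, hPN, ?_⟩
  have hs0N : s0 ∉ N := fun h => hsN (N.mul_mem_right _ h)
  have hgN : ∀ g ∈ G, s g ∉ N := fun g hg h => hsN (N.mul_mem_left _ (by
    rw [← Finset.mul_prod_erase G s hg]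
    exact N.mul_mem_right _ h))
  have hPle : P ≤ Ideal.span {t} ⊔ N ^ 2 := gen_le hN hPN G hG fun g hg =>
    ⟨s g, r g, hgN g hg, hsr g (hG ▸ Ideal.subset_span hg)⟩
  have hcomap : (N.map (Ideal.Quotient.mk P)).comap (Ideal.Quotient.mk P) = N := by
    rw [Ideal.comap_map_of_surjective _ Ideal.Quotient.mk_surjective, ← RingHom.ker_eq_comap_bot,
      Ideal.mk_ker, sup_eq_left.2 hPN]
  have hNm : (N.map (Ideal.Quotient.mk P)).IsMaximal := by
    rcases Ideal.map_eq_top_or_isMaximal_of_surjective (Ideal.Quotient.mk P)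
      Ideal.Quotient.mk_surjective hN with h | h
    · exfalso
      rw [h, Ideal.comap_top] at hcomap
      exact hN.ne_top hcomap.symm
    · exact h
  obtain ⟨zb, hzb⟩ := hsm _ hNm (by
    intro h
    apply hs0N
    rw [← hcomap]
    exact h)
  choose z hz using fun l => Ideal.Quotient.mk_surjective (zb l)
  have hz' : (fun l => Ideal.Quotient.mk P (z l)) = zb := funext hz
  exact span_eq hPN htP hPle hkm z (by rw [hz']; exact hzb)

end

end RMM
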