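import Pool.Agent.RMM.StT

set_option autoImplicit false

namespace RMM

open MldGeo MMCI

theorem t_SMG : M_SMG := by
  intro hG K _ _ e R hR hK htr
  have hft : Algebra.FiniteType ℂ R := (Subalgebra.fg_iff_finiteType R).1 hR
  have hloc : IsFractionRing R K := by
    refine ⟨⟨fun y => ?_, fun a => ?_, fun {a b} h => ⟨1, ?_⟩⟩⟩
    · have hy : ((y : R) : K) ≠ 0 := by
        intro h0
        exact nonZeroDivisors.coe_ne_zero y (Subtype.ext h0)
      exact isUnit_iff_ne_zero.2 hy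
    · obtain ⟨p, hp, q, hq, hq0, hpq⟩ := hK a
      refine ⟨⟨⟨p, hp⟩, ⟨⟨q, hq⟩, mem_nonZeroDivisors_of_ne_zero ?_⟩⟩, hpq⟩
      intro h
      exact hq0 (congrArg Subtype.val h)
    · have : a = b := Subtype.ext h
      rw [this]
  have h2 : Algebra.IsAlgebraic R K := IsLocalization.isAlgebraic _ (nonZeroDivisors R)
  have h4 : FaithfulSMul R K :=
    (faithfulSMul_iff_algebraMap_injective _ _).2 (IsFractionRing.injective R K)
  have h3 := trdeg_add_eq ℂ R (A := K)
  rw [trdeg_eq_zero_iff.2 h2, add_zero, htr] at h3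
  obtain ⟨s, hs, h⟩ := hG hft h3
  have hJ : IsJacobsonRing R := isJacobsonRing_of_finiteType (A := ℂ)
  have hbot : (⊥ : Ideal R).jacobson = ⊥ := hJ.out (Ideal.isPrime_bot.isRadical)
  have hns : s ∉ (⊥ : Ideal R).jacobson := by
    rw [hbot]
    exact hs
  rw [Ideal.jacobson, Ideal.mem_sInf] at hns
  push Not at hns
  obtain ⟨N, hN, hsN⟩ := hns
  exact ⟨N, hN.2, h N hN.2 hsN⟩

end RMM
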