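import Pool.Agent.RMM.StT
import Pool.Agent.RMM.TAY
import Pool.Agent.RMM.RRK3

/-!
# MP_fa3f7f_ag, RMM: cotangent spaces, from `B × T` to `B` (module RMM_ZCA)
-/

set_option autoImplicit false

namespace RMM

open MldGeo MMCI

noncomputable section

namespace ZCA

variable {F : Type} [Field F] [Algebra ℂ F] {n : ℕ}

/-- The homomorphism `ε`. -/
def eps (R : Subalgebra ℂ F) (p : Fin n → ℂ) (hp : ∀ j, p j ≠ 0) : LR R n →ₐ[R] R :=
  AddMonoidAlgebra.lift R R (Fin n → ℤ)
    { toFun := fun m => algebraMap ℂ R (mon p m.toAdd)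
      map_one' := by
        change algebraMap ℂ R (mon p 0) = 1
        rw [TAY.mon_zero, map_one]
      map_mul' := fun m m' => by
        change algebraMap ℂ R (mon p (m.toAdd + m'.toAdd)) = _
        rw [TAY.mon_add hp, map_mul] }

theorem eps_single (R : Subalgebra ℂ F) (p : Fin n → ℂ) (hp : ∀ j, p j ≠ 0) (a : Fin n → ℤ)
    (c : R) : eps R p hp (AddMonoidAlgebra.single a c) = c * algebraMap ℂ R (mon p a) := by
  unfold eps
  rw [AddMonoidAlgebra.lift_single, smul_eq_mul]
  rfl

theorem mon_single (p : Fin n → ℂ) (j : Fin n) : mon p (Pi.single j 1) = p j := by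
  unfold mon
  rw [Finset.prod_eq_single j]
  · rw [Pi.single_eq_same, zpow_one]
  · intro i _ hi
    rw [Pi.single_eq_of_ne hi, zpow_zero]
  · intro hk
    exact absurd (Finset.mem_univ j) hk

end ZCA

open ZCA

theorem t_ZCA : S_ZCA := by
  intro F _ _ n k R M hR hM w hw
  obtain ⟨π, hπ⟩ := TAY.exists_residue R hR M hM
  set m : Ideal R := M.comap (algebraMap R (LR R n)) with hm
  set p : Fin n → ℂ := fun j => π (AddMonoidAlgebra.single (Pi.single j 1) 1) with hpdef
  have hp : ∀ j, p j ≠ 0 := by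
    intro j h0
    have h1 : π (AddMonoidAlgebra.single (Pi.single j 1) 1) *
        π (AddMonoidAlgebra.single (-(Pi.single j 1)) 1) = 1 := by
      rw [← map_mul, AddMonoidAlgebra.single_mul_single, add_neg_cancel, mul_one]
      exact map_one π
    rw [show π (AddMonoidAlgebra.single (Pi.single j 1) 1) = 0 from h0, zero_mul] at h1
    exact zero_ne_one h1
  -- the homomorphism `ε`
  set ε := eps R p hp with hε
  have hπε : ∀ G : LR R n, π (algebraMap R (LR R n) (ε G)) = π G := by
    have h1 : ((π : LR R n →+* ℂ).comp (algebraMap R (LR R n))).comp (ε : LR R n →+* R) =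
        (π : LR R n →+* ℂ) := by
      apply TAY.hom_ext
      · intro c
        show π (algebraMap R (LR R n) (ε (AddMonoidAlgebra.single 0 c))) =
          π (AddMonoidAlgebra.single 0 c)
        rw [hε, eps_single, TAY.mon_zero, map_one, mul_one]
        rfl
      · intro j
        show π (algebraMap R (LR R n) (ε (AddMonoidAlgebra.single (Pi.single j 1) 1))) =
          π (AddMonoidAlgebra.single (Pi.single j 1) 1)
        rw [hε, eps_single, ZCA.mon_single, one_mul]
        have h2 : algebraMap R (LR R n) (algebraMap ℂ R (p j)) = algebraMap ℂ (LR R n) (p j) := rfl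
        rw [h2, AlgHom.commutes]
        rfl
    intro G
    exact RingHom.congr_fun h1 G
  have hεM : ∀ G ∈ M, ε G ∈ m := by
    intro G hG
    rw [hm, Ideal.mem_comap, ← hπ, hπε]
    exact (hπ G).2 hG
  have hεM2 : ∀ G ∈ M ^ 2, ε G ∈ m ^ 2 := by
    intro G hG
    rw [pow_two] at hG ⊢
    refine Submodule.mul_induction_on hG ?_ ?_
    · intro u hu v hv
      rw [map_mul]
      exact Ideal.mul_mem_mul (hεM u hu) (hεM v hv)
    · intro u v hu hv
      rw [map_add]
      exact Ideal.add_mem _ hu hv
  -- the derivations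
  let D' : Fin n → LR R n →+ LR R n := fun j => TAY.cmap fun a => TAY.zder R (a j)
  have hDm' : ∀ j u w, D' j (u * w) = u * D' j w + w * D' j u := by
    intro j
    apply TAY.cmap_mul
    intro a a' c c'
    change (((a + a') j : ℤ) : R) * (c * c') = c * (((a' j : ℤ) : R) * c') +
      c' * (((a j : ℤ) : R) * c)
    rw [Pi.add_apply]
    push_cast
    ring
  have hDc' : ∀ j (c : R), D' j (algebraMap R (LR R n) c) = 0 := by
    intro j c
    rw [TAY.algebraMap_eq']
    change TAY.cmap _ _ = 0
    rw [TAY.cmap_single]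
    have h1 : TAY.zder R ((0 : Fin n → ℤ) j) c = 0 := by
      change (((0 : Fin n → ℤ) j : ℤ) : R) * c = 0
      simp
    rw [h1, AddMonoidAlgebra.single_zero]
  have hDx' : ∀ j j', D' j (AddMonoidAlgebra.single (Pi.single j' 1) 1) =
      if j = j' then AddMonoidAlgebra.single (Pi.single j' 1) 1 else 0 := by
    intro j j'
    change TAY.cmap _ _ = _
    rw [TAY.cmap_single]
    have h1 : TAY.zder R ((Pi.single j' 1 : Fin n → ℤ) j) 1 = if j = j' then 1 else 0 := by
      change ((((Pi.single j' 1 : Fin n → ℤ) j) : ℤ) : R) * 1 = _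
      rw [Pi.single_apply]
      split_ifs with hl <;> simp
    rw [h1]
    split_ifs with hl
    · rfl
    · exact AddMonoidAlgebra.single_zero _
  have hDc'' : ∀ j (c : ℂ), D' j (algebraMap ℂ (LR R n) c) = 0 := fun j c =>
    hDc' j (algebraMap ℂ R c)
  have hlin : ∀ j (c : ℂ) (u : LR R n), π (D' j (algebraMap ℂ (LR R n) c * u)) =
      c * π (D' j u) := by
    intro j c u
    rw [hDm', hDc'', mul_zero, add_zero, map_mul, AlgHom.commutes]
    rfl
  have hwM : ∀ i, w i ∈ M := by
    intro i
    rw [hw]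
    exact Ideal.mem_sup_left (Ideal.subset_span ⟨i, rfl⟩)
  -- approximation by the `w i`
  have happ : ∀ G ∈ M, ∃ α : Fin k → ℂ, G - ∑ i, algebraMap ℂ (LR R n) (α i) * w i ∈ M ^ 2 := by
    intro G hG
    rw [hw] at hG
    obtain ⟨h1, hh1, μ, hμ, rfl⟩ := Submodule.mem_sup.1 hG
    obtain ⟨q, rfl⟩ := Ideal.mem_span_range_iff_exists_fun.1 hh1
    refine ⟨fun i => π (q i), ?_⟩
    have h3 : ∑ i, q i * w i + μ - ∑ i, algebraMap ℂ (LR R n) (π (q i)) * w i =
        ∑ i, (q i - algebraMap ℂ (LR R n) (π (q i))) * w i + μ := by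
      simp only [sub_mul]
      rw [Finset.sum_sub_distrib]
      ring
    rw [h3]
    refine Ideal.add_mem _ (sum_mem fun i _ => ?_) hμ
    rw [pow_two]
    refine Ideal.mul_mem_mul ?_ (hwM i)
    rw [← hπ, map_sub, AlgHom.commutes]
    exact sub_self _
  -- the linear map
  let E : (Fin k → ℂ) →ₗ[ℂ] (Fin n → ℂ) :=
    { toFun := fun α j => ∑ i, α i * π (D' j (w i))
      map_add' := fun α β => by
        funext j
        simp only [Pi.add_apply, add_mul]
        exact Finset.sum_add_distrib
      map_smul' := fun c α => by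
        funext j
        simp only [Pi.smul_apply, smul_eq_mul, RingHom.id_apply, Finset.mul_sum, mul_assoc] }
  have hE : ∀ (α : Fin k → ℂ) (j : Fin n), π (D' j (∑ i, algebraMap ℂ (LR R n) (α i) * w i)) =
      E α j := by
    intro α j
    rw [map_sum, map_sum]
    exact Finset.sum_congr rfl fun i _ => hlin j _ _
  -- elements of `M` with given values
  have hgen : ∀ a ∈ m, ∀ v : Fin n → ℂ, ∃ α : Fin k → ℂ, E α = v ∧
      a - ∑ i, algebraMap ℂ R (α i) * ε (w i) ∈ m ^ 2 := by
    intro a ha v
    set G : LR R n := algebraMap R (LR R n) a + ∑ l, algebraMap ℂ (LR R n) (v l / p l) *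
      (AddMonoidAlgebra.single (Pi.single l 1) 1 - algebraMap ℂ (LR R n) (p l)) with hG
    have hGM : G ∈ M := by
      rw [hG]
      refine Ideal.add_mem _ ha (sum_mem fun l _ => Ideal.mul_mem_left _ _ ?_)
      rw [← hπ, map_sub, AlgHom.commutes]
      exact sub_self _
    obtain ⟨α, hα⟩ := happ G hGM
    have hDG : ∀ j, π (D' j G) = v j := by
      intro j
      rw [hG, map_add, hDc', zero_add, map_sum, map_sum, Finset.sum_eq_single j]
      · rw [hlin, map_sub, hDx', if_pos rfl, hDc'', sub_zero]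
        exact div_mul_cancel₀ _ (hp j)
      · intro l _ hl
        rw [hlin, map_sub, hDx', if_neg (Ne.symm hl), hDc'', sub_zero, map_zero, mul_zero]
      · intro h
        exact absurd (Finset.mem_univ j) h
    have hεc : ∀ c : ℂ, ε (algebraMap ℂ (LR R n) c) = algebraMap ℂ R c := fun c =>
      ε.commutes (algebraMap ℂ R c)
    refine ⟨α, ?_, ?_⟩
    · funext j
      have h1 := TAY.der_sq M π hπ (D' j) (hDm' j) _ hα
      rw [map_sub, map_sub, hE, hDG, sub_eq_zero] at h1
      exact h1.symm
    · have h1 := hεM2 _ hα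
      have h2 : ε G = a := by
        rw [hG, map_add, map_sum]
        have h3 : ∀ l : Fin n, ε (algebraMap ℂ (LR R n) (v l / p l) *
            (AddMonoidAlgebra.single (Pi.single l 1) 1 - algebraMap ℂ (LR R n) (p l))) = 0 := by
          intro l
          rw [map_mul, map_sub, hεc (p l), hε, eps_single, ZCA.mon_single, one_mul, sub_self,
            mul_zero]
        rw [Finset.sum_eq_zero fun l _ => h3 l, add_zero]
        exact ε.commutes a
      rw [map_sub, h2, map_sum] at h1
      have h4 : ∑ i, ε (algebraMap ℂ (LR R n) (α i) * w i) =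
          ∑ i, algebraMap ℂ R (α i) * ε (w i) :=
        Finset.sum_congr rfl fun i _ => by rw [map_mul, hεc]
      rwa [h4] at h1
  have hsurj : Function.Surjective E := by
    intro v
    obtain ⟨α, hα, -⟩ := hgen 0 (Ideal.zero_mem _) v
    exact ⟨α, hα⟩
  have hrk := LinearMap.finrank_range_add_finrank_ker E
  rw [LinearMap.range_eq_top.2 hsurj, finrank_top, Module.finrank_fin_fun, Module.finrank_fin_fun]
    at hrk
  have hnk : n ≤ k := by omega
  have hker : Module.finrank ℂ (LinearMap.ker E) = k - n := by omega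
  refine ⟨hnk, ?_⟩
  let β := Module.finBasisOfFinrankEq ℂ (LinearMap.ker E) hker
  refine ⟨fun l => ∑ i, algebraMap ℂ R ((β l : Fin k → ℂ) i) * ε (w i), ?_⟩
  apply le_antisymm
  · intro a ha
    obtain ⟨α, hα0, hα⟩ := hgen a ha 0
    have hαk : α ∈ LinearMap.ker E := hα0
    have h1 : (∑ l, β.repr ⟨α, hαk⟩ l • β l) = (⟨α, hαk⟩ : LinearMap.ker E) := β.sum_repr _
    have h2 : ∀ i, α i = ∑ l, β.repr ⟨α, hαk⟩ l * (β l : Fin k → ℂ) i := by
      intro i
      have h3 := congrArg (fun z : LinearMap.ker E => (z : Fin k → ℂ) i) h1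
      simp only [Submodule.coe_sum, Submodule.coe_smul, Finset.sum_apply, Pi.smul_apply,
        smul_eq_mul] at h3
      exact h3.symm
    have h4 : ∑ i, algebraMap ℂ R (α i) * ε (w i) =
        ∑ l, algebraMap ℂ R (β.repr ⟨α, hαk⟩ l) *
          ∑ i, algebraMap ℂ R ((β l : Fin k → ℂ) i) * ε (w i) := by
      simp only [Finset.mul_sum]
      rw [Finset.sum_comm]
      refine Finset.sum_congr rfl fun i _ => ?_
      rw [h2 i, map_sum, Finset.sum_mul]
      exact Finset.sum_congr rfl fun l _ => by rw [map_mul, mul_assoc]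
    have h5 : a = ∑ i, algebraMap ℂ R (α i) * ε (w i) +
        (a - ∑ i, algebraMap ℂ R (α i) * ε (w i)) := by ring
    rw [h5]
    refine Ideal.add_mem _ (Ideal.mem_sup_left ?_) (Ideal.mem_sup_right hα)
    rw [h4]
    exact sum_mem fun l _ => Ideal.mul_mem_left _ _ (Ideal.subset_span ⟨l, rfl⟩)
  · refine sup_le (Ideal.span_le.2 ?_) (Ideal.pow_le_self two_ne_zero)
    rintro _ ⟨l, rfl⟩
    exact sum_mem fun i _ => Ideal.mul_mem_left _ _ (hεM _ (hwM i))

end

end RMM
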