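import Pool.Agent.RMM.StT

/-!
# ZCB: smoothness from `b + n` generators of the cotangent space
-/

set_option autoImplicit false

namespace RMM

open MldGeo MMCI

noncomputable section

namespace ZCB

/-- Fewer than `b` generators modulo `m ^ 2` are impossible. -/
theorem le_of_gen {F : Type} [Field F] [Algebra ℂ F] {b k : ℕ} (hNAK : S_NAK)
    (R : Subalgebra ℂ F) (m : Ideal R) (hR : R.FG)
    (hfr : ∀ a : F, ∃ p q : R, q ≠ 0 ∧ a * (q : F) = p)
    (htr : Algebra.trdeg ℂ F = (b : Cardinal)) (hm : m.IsMaximal)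
    (hres : ∀ a : R, ∃ c : ℂ, a - algebraMap ℂ R c ∈ m) (y : Fin k → R)
    (hy : m = Ideal.span (Set.range y) ⊔ m ^ 2) : b ≤ k := by
  by_contra hlt
  push Not at hlt
  let t : Fin b → R := fun l => if h : (l : ℕ) < k then y ⟨l, h⟩ else 0
  have hspan : Ideal.span (Set.range t) = Ideal.span (Set.range y) := by
    apply le_antisymm
    · rw [Ideal.span_le]
      rintro _ ⟨l, rfl⟩
      by_cases h : (l : ℕ) < k
      · have h1 : t l = y ⟨l, h⟩ := dif_pos h
        rw [h1]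
        exact Ideal.subset_span ⟨_, rfl⟩
      · have h1 : t l = 0 := dif_neg h
        rw [h1]
        exact zero_mem _
    · rw [Ideal.span_le]
      rintro _ ⟨i, rfl⟩
      refine Ideal.subset_span ⟨⟨i, i.2.trans hlt⟩, ?_⟩
      exact dif_pos i.2
  obtain ⟨C, hC⟩ := hNAK R m t hR hfr htr hm hres (by rw [hspan]; exact hy)
  have h1 := C.dt ⟨k, hlt⟩ ⟨k, hlt⟩
  have h2 : t ⟨k, hlt⟩ = 0 := dif_neg (lt_irrefl k)
  rw [if_pos rfl, hC, h2, ZeroMemClass.coe_zero, map_zero] at h1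
  exact zero_ne_one h1

/-- A generator which occurs in a linear relation modulo `M ^ 2` can be left out. -/
theorem drop {A : Type} [CommRing A] [Algebra ℂ A] {k : ℕ} (M : Ideal A) (w : Fin (k + 1) → A)
    (hw : M = Ideal.span (Set.range w) ⊔ M ^ 2) (τ : Fin (k + 1) → ℂ)
    (hτ : ∑ i, τ i • w i ∈ M ^ 2) (i0 : Fin (k + 1)) (h0 : τ i0 ≠ 0) :
    M = Ideal.span (Set.range fun j => w (i0.succAbove j)) ⊔ M ^ 2 := by
  set I : Ideal A := Ideal.span (Set.range fun j => w (i0.succAbove j)) ⊔ M ^ 2 with hI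
  have hsub : ∀ j, w (i0.succAbove j) ∈ I := fun j =>
    (le_sup_left : _ ≤ I) (Ideal.subset_span ⟨j, rfl⟩)
  have hsq : M ^ 2 ≤ I := le_sup_right
  have hsm : ∀ (c : ℂ) (a : A), a ∈ I → c • a ∈ I := by
    intro c a ha
    rw [Algebra.smul_def]
    exact I.mul_mem_left _ ha
  have h1 : w i0 ∈ I := by
    rw [Fin.sum_univ_succAbove _ i0] at hτ
    have h2 : ∑ j, τ (i0.succAbove j) • w (i0.succAbove j) ∈ I :=
      I.sum_mem fun j _ => hsm _ _ (hsub j)
    have h3 : τ i0 • w i0 ∈ I := by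
      have h4 := I.sub_mem (hsq hτ) h2
      rwa [add_sub_cancel_right] at h4
    have h5 := hsm (τ i0)⁻¹ _ h3
    rwa [smul_smul, inv_mul_cancel₀ h0, one_smul] at h5
  apply le_antisymm
  · conv_lhs => rw [hw]
    refine sup_le ?_ hsq
    rw [Ideal.span_le]
    rintro _ ⟨i, rfl⟩
    by_cases hi : i = i0
    · rw [hi]
      exact h1
    · obtain ⟨j, hj⟩ := Fin.exists_succAbove_eq hi
      rw [← hj]
      exact hsub j
  · refine sup_le ?_ (Ideal.pow_le_self two_ne_zero)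
    rw [Ideal.span_le]
    rintro _ ⟨j, rfl⟩
    rw [hw]
    exact (le_sup_left : _ ≤ Ideal.span (Set.range w) ⊔ M ^ 2)
      (Ideal.subset_span ⟨i0.succAbove j, rfl⟩)

end ZCB

theorem t_ZCB : M_ZCB := by
  intro hNAK hZCA F _ _ b n R M hR hfr htr hM hm hres w hw
  constructor
  · obtain ⟨_, hex⟩ := hZCA R M hR hM w hw
    have hb : b + n - n = b := Nat.add_sub_cancel b n
    rwa [hb] at hex
  · intro τ hτ
    by_contra hne
    obtain ⟨i0, hi0⟩ := Function.ne_iff.1 hne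
    obtain ⟨k, hk⟩ : ∃ k, b + n = k + 1 := ⟨b + n - 1, by have := i0.2; omega⟩
    have key : ∀ (N : ℕ) (hN : N = k + 1) (w : Fin N → LR R n),
        M = Ideal.span (Set.range w) ⊔ M ^ 2 → ∀ τ : Fin N → ℂ, ∑ i, τ i • w i ∈ M ^ 2 →
        ∀ i0 : Fin N, τ i0 ≠ 0 → ∃ w' : Fin k → LR R n,
          M = Ideal.span (Set.range w') ⊔ M ^ 2 := by
      intro N hN
      subst hN
      intro w hw τ hτ i0 h0
      exact ⟨_, ZCB.drop M w hw τ hτ i0 h0⟩
    obtain ⟨w', hw'⟩ := key _ hk w hw τ hτ i0 hi0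
    obtain ⟨hnk, y', hy'⟩ := hZCA R M hR hM w' hw'
    have hle := ZCB.le_of_gen hNAK R _ hR hfr htr hm hres y' hy'
    omega

end

end RMM
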