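import Pool.Agent.RMM.StT
import Pool.Agent.RMM.RRK

/-!
# ZCP: smooth closed points of `Z`
-/

set_option autoImplicit false

namespace RMM

open MldGeo MMCI

noncomputable section

namespace ZCP

/-- Generators of the preimage `M` of the ideal `N` modulo `M²`. -/
theorem gen {A C : Type} [CommRing A] [CommRing C] {ι κ : Type} (φ : A →+* C)
    (hφ : Function.Surjective φ) (M : Ideal A) (hM : M.IsMaximal) (N : Ideal C)
    (hMN : M = N.comap φ) (z : ι → C) (hz : N = Ideal.span (Set.range z) ⊔ N ^ 2)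
    (Z : ι → A) (hZ : ∀ l, φ (Z l) = z l) (g : κ → A) (hg : ∀ i, φ (g i) = 0)
    (hker : ∀ h, φ h = 0 → ∃ h', h' ∉ M ∧ h' * h ∈ Ideal.span (Set.range g)) :
    M = Ideal.span (Set.range Z ∪ Set.range g) ⊔ M ^ 2 := by
  apply le_antisymm
  · intro h hh
    have h1 : N = Ideal.map φ (Ideal.span (Set.range Z) ⊔ M ^ 2) := by
      rw [Ideal.map_sup, Ideal.map_span, Ideal.map_pow, hMN, Ideal.map_comap_of_surjective φ hφ,
        ← Set.range_comp]
      have h2 : φ ∘ Z = z := funext hZ
      rw [h2]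
      exact hz
    have h2 : φ h ∈ N := by
      rw [hMN] at hh
      exact hh
    rw [h1] at h2
    obtain ⟨h0, hh0, hφ0⟩ := (Ideal.mem_map_iff_of_surjective φ hφ).1 h2
    have h3 : φ (h - h0) = 0 := by rw [map_sub, hφ0, sub_self]
    obtain ⟨h', hh', hs⟩ := hker _ h3
    obtain ⟨y, i, hi, hyi⟩ := hM.exists_inv hh'
    have h4 : h - h0 ∈ M := by
      rw [hMN, Ideal.mem_comap, h3]
      exact N.zero_mem
    have h5 : h = h0 + (y * (h' * (h - h0)) + i * (h - h0)) := by
      have h6 : y * (h' * (h - h0)) + i * (h - h0) = (y * h' + i) * (h - h0) := by ring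
      rw [h6, hyi]
      ring
    rw [h5]
    refine Ideal.add_mem _ ?_ (Ideal.add_mem _ ?_ ?_)
    · have h7 : Ideal.span (Set.range Z) ⊔ M ^ 2 ≤
          Ideal.span (Set.range Z ∪ Set.range g) ⊔ M ^ 2 :=
        sup_le_sup_right (Ideal.span_mono Set.subset_union_left) _
      exact h7 hh0
    · exact Ideal.mem_sup_left (Ideal.mul_mem_left _ _
        (Ideal.span_mono Set.subset_union_right hs))
    · refine Ideal.mem_sup_right ?_
      rw [pow_two]
      exact Ideal.mul_mem_mul hi h4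
  · refine sup_le ?_ (Ideal.pow_le_self two_ne_zero)
    rw [Ideal.span_le]
    rintro _ (⟨l, rfl⟩ | ⟨i, rfl⟩)
    · rw [SetLike.mem_coe, hMN, Ideal.mem_comap, hZ, hz]
      exact Ideal.mem_sup_left (Ideal.subset_span ⟨l, rfl⟩)
    · rw [SetLike.mem_coe, hMN, Ideal.mem_comap, hg]
      exact N.zero_mem

/-- The range of a joined family. -/
theorem range_append {A : Type} {p q m : ℕ} (h : m = p + q) (Z : Fin p → A) (g : Fin q → A) :
    (Set.range fun i : Fin m => Fin.append Z g (Fin.cast h i)) = Set.range Z ∪ Set.range g := by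
  subst h
  ext a
  constructor
  · rintro ⟨i, rfl⟩
    refine Fin.addCases (fun l => ?_) (fun l => ?_) i
    · left
      exact ⟨l, (Fin.append_left Z g l).symm⟩
    · right
      exact ⟨l, (Fin.append_right Z g l).symm⟩
  · rintro (⟨l, rfl⟩ | ⟨l, rfl⟩)
    · exact ⟨Fin.castAdd q l, Fin.append_left Z g l⟩
    · exact ⟨Fin.natAdd p l, Fin.append_right Z g l⟩

/-- Extension of coefficients by zero. -/
theorem sum_append {A : Type} [AddCommMonoid A] [Module ℂ A] {p q m : ℕ} (h : m = p + q)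
    (Z : Fin p → A) (g : Fin q → A) (τ : Fin q → ℂ) :
    ∑ i : Fin m, Fin.append (0 : Fin p → ℂ) τ (Fin.cast h i) • Fin.append Z g (Fin.cast h i) =
      ∑ i, τ i • g i := by
  subst h
  rw [Fin.sum_univ_add]
  have h1 : ∀ i : Fin p, Fin.append (0 : Fin p → ℂ) τ (Fin.cast rfl (Fin.castAdd q i)) •
      Fin.append Z g (Fin.cast rfl (Fin.castAdd q i)) = 0 := by
    intro i
    rw [Fin.cast_eq_self, Fin.append_left, Pi.zero_apply, zero_smul]
  have h2 : ∀ i : Fin q, Fin.append (0 : Fin p → ℂ) τ (Fin.cast rfl (Fin.natAdd p i)) •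
      Fin.append Z g (Fin.cast rfl (Fin.natAdd p i)) = τ i • g i := by
    intro i
    rw [Fin.cast_eq_self, Fin.append_right, Fin.append_right]
  rw [Finset.sum_congr rfl fun i _ => h1 i, Finset.sum_congr rfl fun i _ => h2 i,
    Finset.sum_const_zero, zero_add]

variable {F K : Type} [Field F] [Field K] [Algebra ℂ F] [Algebra ℂ K] [Algebra F K]
  [IsScalarTower ℂ F K] {n : ℕ}

omit [Algebra ℂ F] [Algebra ℂ K] [IsScalarTower ℂ F K] in
/-- The value of a multiple. -/
theorem rev_smul (x : Fin n → K) (a : F) (f : LR F n) :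
    rev x (a • f) = algebraMap F K a * rev x f := by
  unfold rev
  rw [AddMonoidAlgebra.coeff_smul,
    Finsupp.sum_smul_index (fun m => by rw [map_zero, zero_mul]), Finsupp.mul_sum]
  exact Finset.sum_congr rfl fun m _ => by
    dsimp only
    rw [map_mul, mul_assoc]

end ZCP

theorem t_ZCP : M_ZCP := by
  intro hFRC hZRG hZCB F K _ _ _ _ _ _ b e n r B f x hn hx hgen htr hf hG j N M hN hM hm hpre hz
  classical
  obtain ⟨hFG, hfrac, hres⟩ := hFRC B j
  obtain ⟨z, hz⟩ := hz
  have hval : ∀ h : LR (B.ring j) n, rev x h = RRK.phi (B.ring j) hx h := fun h => rfl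
  obtain ⟨-, -, hrg, -⟩ := hZRG B x hx hgen j
  -- the surjective homomorphism to the ring of `Z`
  let φ : LR (B.ring j) n →+* zring B x j :=
    (RRK.phi (B.ring j) hx).toRingHom.codRestrict (zring B x j) fun h => (hrg _).2 ⟨h, rfl⟩
  have hφ : ∀ h, ((φ h : zring B x j) : K) = rev x h := fun h => rfl
  have hsurj : Function.Surjective φ := by
    intro a
    obtain ⟨h, hh⟩ := (hrg (a : K)).1 a.2
    exact ⟨h, Subtype.ext ((hφ h).trans hh)⟩
  have hMN : M = N.comap φ := by
    ext h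
    rw [Ideal.mem_comap, hpre h]
    constructor
    · rintro ⟨c, hc, hch⟩
      have h1 : φ h = c := Subtype.ext ((hφ h).trans hch.symm)
      rw [h1]
      exact hc
    · intro h1
      exact ⟨φ h, h1, hφ h⟩
  have h0M : ∀ h : LR (B.ring j) n, rev x h = 0 → h ∈ M := by
    intro h hh
    exact (hpre h).2 ⟨0, N.zero_mem, by rw [hh]; rfl⟩
  obtain ⟨g, hloc, hker⟩ := hG j M hM h0M
  choose u hu huf using fun i => (hloc i).1
  have hG : ∀ i a, ((u i)⁻¹ • f i).coeff a = ((g i).coeff a : F) := by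
    intro i a
    rw [AddMonoidAlgebra.coeff_smul, Finsupp.smul_apply, huf i a, smul_eq_mul,
      inv_mul_cancel_left₀ (hu i)]
  have hg0 : ∀ i, rev x (g i) = 0 := by
    intro i
    rw [hval, RRK.phi_apply, ← RRK.sum_coeff ((u i)⁻¹ • f i) (g i) (hG i)
      (fun a c => algebraMap F K c * mon x a)]
    have h1 := ZCP.rev_smul x (u i)⁻¹ (f i)
    rw [hf i, mul_zero] at h1
    exact h1
  have hφ0 : ∀ h, rev x h = 0 → φ h = 0 := fun h hh => Subtype.ext ((hφ h).trans hh)
  choose Z hZ using fun l => hsurj (z l)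
  have hgenM := ZCP.gen φ hsurj M hM N hMN z hz Z hZ g (fun i => hφ0 _ (hg0 i)) (by
    intro h hh
    exact hker h (by rw [← hφ h, hh]; rfl))
  have hc : b + n = (b + e) + r := by omega
  have hw : M = Ideal.span (Set.range fun i : Fin (b + n) => Fin.append Z g (Fin.cast hc i)) ⊔
      M ^ 2 := by
    rw [ZCP.range_append hc Z g]
    exact hgenM
  obtain ⟨hy, hτ⟩ := hZCB (B.ring j) M hFG hfrac htr hM hm (hres _ hm) _ hw
  refine ⟨g, hloc, fun i => h0M _ (hg0 i), hy, fun τ hs => ?_⟩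
  have h1 := hτ (fun i => Fin.append (0 : Fin (b + e) → ℂ) τ (Fin.cast hc i)) (by
    rw [ZCP.sum_append hc Z g τ]
    exact hs)
  funext i
  have h2 := congrFun h1 (Fin.cast hc.symm (Fin.natAdd (b + e) i))
  rw [Pi.zero_apply] at h2 ⊢
  rw [← h2]
  exact (Fin.append_right (0 : Fin (b + e) → ℂ) τ i).symm

end

end RMM
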