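import Pool.Agent.RMM.StT
import Pool.Agent.RMM.RRK

/-!
# ZPRE: closed points of `Z` as closed points of `B × T`
-/

set_option autoImplicit false

namespace RMM

open MldGeo MMCI

noncomputable section

namespace ZPRE

variable {F K : Type} [Field F] [Field K] [Algebra ℂ F] [Algebra ℂ K] [Algebra F K]
  [IsScalarTower ℂ F K] {n e' : ℕ}

omit [Algebra ℂ K] [IsScalarTower ℂ F K] in
lemma phi_rev (R : Subalgebra ℂ F) {x : Fin n → K} (hx : ∀ j, x j ≠ 0) (G : LR R n) :
    RRK.phi R hx G = rev x G := rfl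

omit [IsScalarTower ℂ F K] in
lemma nval_eq {R : Subalgebra ℂ F} (x : Fin n → K) (v : DivVal e' K) (t0 : K) (G : LR R n)
    (h : wt x v = 0) : nval x v t0 G = rev x G := by
  unfold nval rev
  rw [h]
  refine Finset.sum_congr rfl fun a _ => ?_
  have h1 : pair 0 a = 0 := by simp [pair]
  dsimp only
  rw [h1, neg_zero, zpow_zero, mul_one]
  rfl

end ZPRE

open ZPRE in
theorem t_ZPRE : M_ZPRE := by
  intro hFRCB hZRG F K _ _ _ _ _ _ n B x hx hadj j N hN
  obtain ⟨-, -, hval, hcen⟩ := hZRG B x hx hadj j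
  have hmem : ∀ h : LR (B.ring j) n, (RRK.phi (B.ring j) hx).toRingHom h ∈ zring B x j := by
    intro h
    exact (hval _).2 ⟨h, rfl⟩
  set ψ : LR (B.ring j) n →+* zring B x j :=
    (RRK.phi (B.ring j) hx).toRingHom.codRestrict (zring B x j) hmem with hψ
  have hψv : ∀ h : LR (B.ring j) n, ((ψ h : zring B x j) : K) = rev x h := fun h => rfl
  have hsurj : Function.Surjective ψ := by
    intro a
    obtain ⟨h, hh⟩ := (hval a).1 a.2
    exact ⟨h, Subtype.ext ((hψv h).trans hh)⟩
  have hpre : IsPre B x j N (N.comap ψ) := by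
    intro h
    rw [Ideal.mem_comap]
    constructor
    · intro h1
      exact ⟨ψ h, h1, hψv h⟩
    · rintro ⟨c, h1, h2⟩
      have h3 : ψ h = c := Subtype.ext ((hψv h).trans h2.symm)
      rw [h3]
      exact h1
  have hmax : (N.comap ψ).IsMaximal := Ideal.comap_isMaximal_of_surjective ψ hsurj
  refine ⟨N.comap ψ, hpre, hmax, RRK.comap_max (B.ring j) (hFRCB B j).1 _ hmax, ?_, ?_⟩
  · intro h h1
    exact (hpre h).2 ⟨0, N.zero_mem, h1.symm⟩
  · intro e' v P hP hPN
    obtain ⟨-, h1, h2⟩ := hP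
    have h3 : ∀ a ∈ zring B x j, v.Ge 0 a := fun a ha => Or.inr (h1 ⟨a, ha⟩)
    obtain ⟨h4, h5⟩ := (hcen v).1 h3
    -- elements of positive order
    have h6 : ∀ h : LR (B.ring j) n, v.Ge 1 (rev x h) → h ∈ N.comap ψ := by
      intro h hh
      rw [Ideal.mem_comap]
      apply hPN
      rw [h2]
      rcases hh with hh | hh
      · exact Or.inl (Subtype.ext hh)
      · exact Or.inr (lt_of_lt_of_le zero_lt_one hh)
    refine ⟨h4, h5, ⟨h4, fun c hc => ?_⟩, fun t0 G hG => ?_⟩
    · rw [Ideal.mem_comap]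
      apply h6
      have h7 : rev x (algebraMap (B.ring j) (LR (B.ring j) n) c) = algebraMap F K (c : F) :=
        (RRK.phi (B.ring j) hx).commutes c
      rw [h7]
      exact hc
    · apply h6
      rw [← nval_eq x v t0 G h5]
      exact hG

end

end RMM
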