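import Pool.Agent.RMM.StT
import Pool.Agent.RMM.RRK
import Pool.Agent.MMCI.K_MON

/-!
# ZRG: the rings of the affine charts of `Z`
-/

set_option autoImplicit false

namespace RMM

open MldGeo MldGeo.DivVal MMCI

noncomputable section

namespace ZRG

variable {F K : Type} [Field F] [Field K] [Algebra ℂ F] [Algebra ℂ K] [Algebra F K]
  [IsScalarTower ℂ F K] {n : ℕ} (B : ProjModel F) (x : Fin n → K) (j : Fin (B.N + 1))

theorem const_mem (c : F) (hc : c ∈ B.ring j) : algebraMap F K c ∈ zring B x j :=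
  Algebra.subset_adjoin (Or.inl ⟨c, hc, rfl⟩)

theorem mon_mem (m : Fin n → ℤ) : mon x m ∈ zring B x j :=
  Algebra.subset_adjoin (Or.inr ⟨m, rfl⟩)

theorem var_mem (k : Fin n) : x k ∈ zring B x j := by
  have h := mon_mem B x j (Pi.single k 1)
  rwa [Tor.mon_single, zpow_one] at h

theorem inv_mem (k : Fin n) : (x k)⁻¹ ∈ zring B x j := by
  have h := mon_mem B x j (Pi.single k (-1))
  rwa [Tor.mon_single, zpow_neg_one] at h

theorem rev_mem (h : LR (B.ring j) n) : rev x h ∈ zring B x j := by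
  unfold rev
  exact Subalgebra.sum_mem _ fun m _ => (zring B x j).mul_mem (const_mem B x j _ (h.coeff m).2)
    (mon_mem B x j m)

variable {x}

theorem mem_iff (hx : ∀ k, x k ≠ 0) (a : K) : a ∈ zring B x j ↔ ∃ h : LR (B.ring j) n, rev x h = a := by
  constructor
  · intro ha
    have hphi : ∀ h : LR (B.ring j) n, rev x h = RRK.phi (B.ring j) hx h := fun _ => rfl
    unfold zring at ha
    induction ha using Algebra.adjoin_induction with
    | mem a ha =>
      rcases ha with ⟨c, hc, rfl⟩ | ⟨m, rfl⟩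
      · refine ⟨AddMonoidAlgebra.single 0 ⟨c, hc⟩, ?_⟩
        unfold rev
        rw [AddMonoidAlgebra.coeff_single, Finsupp.sum_single_index (by simp), Tor.mon_zero, mul_one]
        rfl
      · refine ⟨AddMonoidAlgebra.single m 1, ?_⟩
        unfold rev
        rw [AddMonoidAlgebra.coeff_single, Finsupp.sum_single_index (by simp), map_one, one_mul]
    | algebraMap c =>
      refine ⟨AddMonoidAlgebra.single 0 (algebraMap ℂ (B.ring j) c), ?_⟩
      unfold rev
      rw [AddMonoidAlgebra.coeff_single, Finsupp.sum_single_index (by simp), Tor.mon_zero, mul_one,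
        IsScalarTower.algebraMap_apply ℂ F K]
      rfl
    | add a b _ _ ha hb =>
      obtain ⟨h, rfl⟩ := ha
      obtain ⟨h', rfl⟩ := hb
      exact ⟨h + h', by rw [hphi, hphi, hphi, map_add]⟩
    | mul a b _ _ ha hb =>
      obtain ⟨h, rfl⟩ := ha
      obtain ⟨h', rfl⟩ := hb
      exact ⟨h * h', by rw [hphi, hphi, hphi, map_mul]⟩
  · rintro ⟨h, rfl⟩
    exact rev_mem B x j h

theorem eq_sup : zring B x j =
    (B.ring j).map (IsScalarTower.toAlgHom ℂ F K) ⊔ coordRing x := by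
  have h1 : (B.ring j).map (IsScalarTower.toAlgHom ℂ F K) =
      Algebra.adjoin ℂ (algebraMap F K '' (B.ring j : Set F)) := by
    conv_lhs => rw [← Algebra.adjoin_eq (B.ring j)]
    rw [AlgHom.map_adjoin]
    rfl
  unfold zring coordRing
  rw [Algebra.adjoin_union, h1]

theorem fg_sup {A : Type} [CommRing A] [Algebra ℂ A] {S T : Subalgebra ℂ A} (hS : S.FG)
    (hT : T.FG) : (S ⊔ T).FG := by
  obtain ⟨s, hs⟩ := hS
  obtain ⟨t, ht⟩ := hT
  classical
  refine ⟨s ∪ t, ?_⟩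
  rw [Finset.coe_union, Algebra.adjoin_union, hs, ht]

theorem frac_add {A : Subalgebra ℂ K} {a b : K} (ha : ∃ p ∈ A, ∃ q ∈ A, q ≠ 0 ∧ a * q = p)
    (hb : ∃ p ∈ A, ∃ q ∈ A, q ≠ 0 ∧ b * q = p) : ∃ p ∈ A, ∃ q ∈ A, q ≠ 0 ∧ (a + b) * q = p := by
  obtain ⟨p, hp, q, hq, hq0, h⟩ := ha
  obtain ⟨p', hp', q', hq', hq0', h'⟩ := hb
  refine ⟨p * q' + p' * q, A.add_mem (A.mul_mem hp hq') (A.mul_mem hp' hq), q * q',
    A.mul_mem hq hq', mul_ne_zero hq0 hq0', ?_⟩
  rw [← h, ← h']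
  ring

theorem frac_mul {A : Subalgebra ℂ K} {a b : K} (ha : ∃ p ∈ A, ∃ q ∈ A, q ≠ 0 ∧ a * q = p)
    (hb : ∃ p ∈ A, ∃ q ∈ A, q ≠ 0 ∧ b * q = p) : ∃ p ∈ A, ∃ q ∈ A, q ≠ 0 ∧ (a * b) * q = p := by
  obtain ⟨p, hp, q, hq, hq0, h⟩ := ha
  obtain ⟨p', hp', q', hq', hq0', h'⟩ := hb
  refine ⟨p * p', A.mul_mem hp hp', q * q', A.mul_mem hq hq', mul_ne_zero hq0 hq0', ?_⟩
  rw [← h, ← h']
  ring

theorem frac (hF : ∀ a : F, ∃ p q : B.ring j, q ≠ 0 ∧ a * (q : F) = p)
    (hK : IntermediateField.adjoin F (Set.range x) = ⊤) (a : K) :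
    ∃ p ∈ zring B x j, ∃ q ∈ zring B x j, q ≠ 0 ∧ a * q = p := by
  have key : ∀ b ∈ Algebra.adjoin F (Set.range x),
      ∃ p ∈ zring B x j, ∃ q ∈ zring B x j, q ≠ 0 ∧ b * q = p := by
    intro b hb
    induction hb using Algebra.adjoin_induction with
    | mem b hb =>
      obtain ⟨k, rfl⟩ := hb
      exact ⟨x k, var_mem B x j k, 1, (zring B x j).one_mem, one_ne_zero, mul_one _⟩
    | algebraMap c =>
      obtain ⟨p, q, hq, h⟩ := hF c
      refine ⟨algebraMap F K p, const_mem B x j _ p.2, algebraMap F K q, const_mem B x j _ q.2,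
        ?_, ?_⟩
      · rw [map_ne_zero]
        intro h0
        exact hq (Subtype.ext h0)
      · rw [← map_mul, h]
    | add a b _ _ ha hb => exact frac_add ha hb
    | mul a b _ _ ha hb => exact frac_mul ha hb
  have ha : a ∈ IntermediateField.adjoin F (Set.range x) := by rw [hK]; trivial
  rw [IntermediateField.mem_adjoin_iff_div] at ha
  obtain ⟨r, hr, s, hs, rfl⟩ := ha
  by_cases hs0 : s = 0
  · exact ⟨0, (zring B x j).zero_mem, 1, (zring B x j).one_mem, one_ne_zero, by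
      rw [hs0, div_zero, zero_mul]⟩
  · obtain ⟨p, hp, q, hq, hq0, h⟩ := key r hr
    obtain ⟨p', hp', q', hq', hq0', h'⟩ := key s hs
    refine ⟨p * q', (zring B x j).mul_mem hp hq', q * p', (zring B x j).mul_mem hq hp',
      mul_ne_zero hq0 ?_, ?_⟩
    · rw [← h']
      exact mul_ne_zero hs0 hq0'
    · rw [← h, ← h']
      field_simp

theorem val_iff (hx : ∀ k, x k ≠ 0) {e' : ℕ} (v : DivVal e' K) :
    (∀ a ∈ zring B x j, v.Ge 0 a) ↔ OnChart B v j ∧ wt x v = 0 := by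
  constructor
  · intro h
    refine ⟨fun c hc => h _ (const_mem B x j c hc), ?_⟩
    funext k
    have h1 := (h _ (var_mem B x j k)).le (hx k)
    have h2 := (h _ (inv_mem B x j k)).le (inv_ne_zero (hx k))
    rw [ord_inv] at h2
    show v.ord (x k) = 0
    omega
  · rintro ⟨h1, h2⟩ a ha
    obtain ⟨h, rfl⟩ := (mem_iff B j hx a).1 ha
    unfold rev
    refine Ge.sum _ _ fun m _ => ?_
    refine Ge.mul_left (h1 _ (h.coeff m).2) (Ge.of_le ?_)
    rw [MON.ord_mon hx, h2]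
    simp [pair]

end ZRG

theorem t_ZRG : M_ZRG := by
  intro hFRCB F K _ _ _ _ _ _ n B x hx hK j
  obtain ⟨hfg, hfr, -⟩ := hFRCB B j
  refine ⟨?_, ZRG.frac B j hfr hK, ZRG.mem_iff B j hx, fun v => ZRG.val_iff B j hx v⟩
  rw [ZRG.eq_sup]
  exact ZRG.fg_sup (hfg.map _) (Tor.fg x)

end

end RMM
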