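import Pool.Agent.RMM.AsmE
import Pool.Agent.RMM.AsmE3
import Pool.Agent.RMM.AsmC
import Pool.Agent.RMM.DLB
import Pool.Agent.RMM.EXM
import Pool.Agent.RMM.FRC0
import Pool.Agent.RMM.ABN2
import Pool.Agent.RMM.LAM
import Pool.Agent.RMM.RVL
import Pool.Agent.RMM.LTR
import Pool.Agent.RMM.LPD
import Pool.Agent.RMM.RNB
import Pool.Agent.RMM.RDQ
import Pool.Agent.RMM.FOF
import Pool.Agent.RMM.FSU
import Pool.Agent.RMM.FUM
import Pool.Agent.RMM.RBD3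
import Pool.Agent.RMM.RRK3
import Pool.Agent.RMM.RSYS3
import Pool.Agent.RMM.GSM
import Pool.Agent.RMM.SMG
import Pool.Agent.RMM.SMC
import Pool.Agent.RMM.ZCA
import Pool.Agent.RMM.ZCB
import Pool.Agent.RMM.ZRG
import Pool.Agent.RMM.ZPRE
import Pool.Agent.RMM.ZCP
import Pool.Agent.RMM.LTZ
import Pool.Agent.RMM.RRKZ
import Pool.Agent.RMM.HTZ
import Pool.Agent.RMM.RDZ
import Pool.Agent.RMM.LWT
import Pool.Agent.RMM.RSYSF

/-!
# Relative minimal models: the final class satisfies the abstract conditions, without hypotheses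
-/

set_option autoImplicit false

namespace RMM

open MldGeo MMCI

theorem zfum : S_FUM := t_FUM t_FRCB t_CMN

theorem zltr : S_LTR := t_LTR t_DLB t_EXM

theorem zlpd : S_LPD := t_LPD t_DLB t_FRC0 t_EXM

theorem zrnb : S_RNB := t_RNB t_DLB t_EXM t_ABN2 t_LAM

theorem zae0b : S_AE0b := t_AE0b t_ABAS t_ASOL t_DK t_LOB

theorem zae0c : S_AE0c := t_AE0c t_ABAS t_AELI t_IND t_FRD

theorem zfsu : S_FSU := t_FSU (t_FOF t_DLB t_ABAS zae0b zae0c)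

theorem zrbd3 : S_RBD3 := t_RBD3 t_FRCB t_CHT rbet zfsu

theorem zrrk3 : S_RRK3 := t_RRK3 t_FRCB t_NAK t_TAY t_REV

theorem zrsys3 : S_RSYS3 := t_RSYS3 t_CMN rclp2 rlocv zfum t_RVL zltr zlpd zrnb t_RDQ zrrk3 zrbd3

theorem zzrg : S_ZRG := t_ZRG t_FRCB

theorem zzpre : S_ZPRE := t_ZPRE t_FRCB zzrg

theorem zzcb : S_ZCB := t_ZCB t_NAK t_ZCA

theorem zzcp : S_ZCP := t_ZCP t_FRCB zzrg zzcb

theorem zltz : S_LTZ := t_LTZ zzrg (t_SMC t_GSM) zzpre zzcp rlocv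

theorem zrrkz : S_RRKZ := t_RRKZ t_FRCB t_NAK t_TAY t_REV zzrg (t_SMG t_GSM) zzpre zzcp

theorem zhtz : S_HTZ := t_HTZ zzrg t_RRES

theorem zrdz : S_RDZ :=
  t_RDZ t_MON zzrg zzpre zhtz t_LUNI
    (t_LE0 rgen t_MON t_REV t_LREL t_LUNI t_LEXP t_LBIG t_LB0)
    (t_LFRM t_REV t_LREL t_PLU t_SIG t_WDG) t_RBAS

theorem zlwt : S_LWT := t_LWT rclp2 rlocv zfum t_RVL zltr zlpd zrnb t_RDQ

/-- RSYSF, without hypotheses. -/
theorem rsysf : S_RSYSF := t_RSYSF t_CMN t_CHT zrbd3 zrsys3 zzrg zltz zrrkz zrdz zlwt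

end RMM
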