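import Pool.Agent.RMM.StT35
import Pool.Agent.RMM.RRK
import Pool.Agent.MMCI.K_MON
import Pool.Agent.MMCI.TorLib
import Pool.Agent.MMCI.K_RES

/-!
# BHR: `BIG` and the prime divisors of `Z`
-/

set_option autoImplicit false

namespace RMM

open MldGeo MldGeo.DivVal MMCI

noncomputable section

namespace BHR

variable {F K : Type} [Field F] [Field K] [Algebra ℂ F] [Algebra ℂ K] [Algebra F K]
  [IsScalarTower ℂ F K] {e' n : ℕ}

/-! ### the ring `zring B x j` -/

section Ring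

variable (B : ProjModel F) (x : Fin n → K) (j : Fin (B.N + 1))

omit [IsScalarTower ℂ F K] in
theorem const_mem (c : F) (hc : c ∈ B.ring j) : algebraMap F K c ∈ zring B x j :=
  Algebra.subset_adjoin (Or.inl ⟨c, hc, rfl⟩)

omit [IsScalarTower ℂ F K] in
theorem mon_mem (m : Fin n → ℤ) : mon x m ∈ zring B x j :=
  Algebra.subset_adjoin (Or.inr ⟨m, rfl⟩)

omit [IsScalarTower ℂ F K] in
theorem var_mem (k : Fin n) : x k ∈ zring B x j := by
  have h := mon_mem B x j (Pi.single k 1)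
  rwa [Tor.mon_single, zpow_one] at h

variable {x}

theorem exists_rev (hx : ∀ k, x k ≠ 0) {a : K} (ha : a ∈ zring B x j) :
    ∃ h : LR (B.ring j) n, rev x h = a := by
  have hphi : ∀ h : LR (B.ring j) n, rev x h = RRK.phi (B.ring j) hx h := fun _ => rfl
  unfold zring at ha
  induction ha using Algebra.adjoin_induction with
  | mem a ha =>
    rcases ha with ⟨c, hc, rfl⟩ | ⟨m, rfl⟩
    · refine ⟨AddMonoidAlgebra.single 0 ⟨c, hc⟩, ?_⟩
      unfold rev
      rw [AddMonoidAlgebra.coeff_single, Finsupp.sum_single_index (by simp), Tor.mon_zero, mul_one]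
      rfl
    · refine ⟨AddMonoidAlgebra.single m 1, ?_⟩
      unfold rev
      rw [AddMonoidAlgebra.coeff_single, Finsupp.sum_single_index (by simp), map_one, one_mul]
  | algebraMap c =>
    refine ⟨AddMonoidAlgebra.single 0 (algebraMap ℂ (B.ring j) c), ?_⟩
    unfold rev
    rw [AddMonoidAlgebra.coeff_single, Finsupp.sum_single_index (by simp), Tor.mon_zero, mul_one,
      IsScalarTower.algebraMap_apply ℂ F K]
    rfl
  | add a b _ _ ha hb =>
    obtain ⟨h, rfl⟩ := ha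
    obtain ⟨h', rfl⟩ := hb
    exact ⟨h + h', by rw [hphi, hphi, hphi, map_add]⟩
  | mul a b _ _ ha hb =>
    obtain ⟨h, rfl⟩ := ha
    obtain ⟨h', rfl⟩ := hb
    exact ⟨h * h', by rw [hphi, hphi, hphi, map_mul]⟩

theorem eq_sup : zring B x j =
    (B.ring j).map (IsScalarTower.toAlgHom ℂ F K) ⊔ coordRing x := by
  have h1 : (B.ring j).map (IsScalarTower.toAlgHom ℂ F K) =
      Algebra.adjoin ℂ (algebraMap F K '' (B.ring j : Set F)) := by
    conv_lhs => rw [← Algebra.adjoin_eq (B.ring j)]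
    rw [AlgHom.map_adjoin]
    rfl
  unfold zring coordRing
  rw [Algebra.adjoin_union, h1]

theorem fg_sup {A : Type} [CommRing A] [Algebra ℂ A] {S T : Subalgebra ℂ A} (hS : S.FG)
    (hT : T.FG) : (S ⊔ T).FG := by
  obtain ⟨s, hs⟩ := hS
  obtain ⟨t, ht⟩ := hT
  classical
  refine ⟨s ∪ t, ?_⟩
  rw [Finset.coe_union, Algebra.adjoin_union, hs, ht]

theorem frac_add {A : Subalgebra ℂ K} {a b : K} (ha : ∃ p ∈ A, ∃ q ∈ A, q ≠ 0 ∧ a * q = p)
    (hb : ∃ p ∈ A, ∃ q ∈ A, q ≠ 0 ∧ b * q = p) : ∃ p ∈ A, ∃ q ∈ A, q ≠ 0 ∧ (a + b) * q = p := by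
  obtain ⟨p, hp, q, hq, hq0, h⟩ := ha
  obtain ⟨p', hp', q', hq', hq0', h'⟩ := hb
  refine ⟨p * q' + p' * q, A.add_mem (A.mul_mem hp hq') (A.mul_mem hp' hq), q * q',
    A.mul_mem hq hq', mul_ne_zero hq0 hq0', ?_⟩
  rw [← h, ← h']
  ring

theorem frac_mul {A : Subalgebra ℂ K} {a b : K} (ha : ∃ p ∈ A, ∃ q ∈ A, q ≠ 0 ∧ a * q = p)
    (hb : ∃ p ∈ A, ∃ q ∈ A, q ≠ 0 ∧ b * q = p) : ∃ p ∈ A, ∃ q ∈ A, q ≠ 0 ∧ (a * b) * q = p := by
  obtain ⟨p, hp, q, hq, hq0, h⟩ := ha
  obtain ⟨p', hp', q', hq', hq0', h'⟩ := hb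
  refine ⟨p * p', A.mul_mem hp hp', q * q', A.mul_mem hq hq', mul_ne_zero hq0 hq0', ?_⟩
  rw [← h, ← h']
  ring

omit [IsScalarTower ℂ F K] in
theorem frac (hF : ∀ a : F, ∃ p q : B.ring j, q ≠ 0 ∧ a * (q : F) = p)
    (hK : IntermediateField.adjoin F (Set.range x) = ⊤) (a : K) :
    ∃ p ∈ zring B x j, ∃ q ∈ zring B x j, q ≠ 0 ∧ a * q = p := by
  have key : ∀ b ∈ Algebra.adjoin F (Set.range x),
      ∃ p ∈ zring B x j, ∃ q ∈ zring B x j, q ≠ 0 ∧ b * q = p := by
    intro b hb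
    induction hb using Algebra.adjoin_induction with
    | mem b hb =>
      obtain ⟨k, rfl⟩ := hb
      exact ⟨x k, var_mem B x j k, 1, (zring B x j).one_mem, one_ne_zero, mul_one _⟩
    | algebraMap c =>
      obtain ⟨p, q, hq, h⟩ := hF c
      refine ⟨algebraMap F K p, const_mem B x j _ p.2, algebraMap F K q, const_mem B x j _ q.2,
        ?_, ?_⟩
      · rw [map_ne_zero]
        intro h0
        exact hq (Subtype.ext h0)
      · rw [← map_mul, h]
    | add a b _ _ ha hb => exact frac_add ha hb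
    | mul a b _ _ ha hb => exact frac_mul ha hb
  have ha : a ∈ IntermediateField.adjoin F (Set.range x) := by rw [hK]; trivial
  rw [IntermediateField.mem_adjoin_iff_div] at ha
  obtain ⟨r, hr, s, hs, rfl⟩ := ha
  by_cases hs0 : s = 0
  · exact ⟨0, (zring B x j).zero_mem, 1, (zring B x j).one_mem, one_ne_zero, by
      rw [hs0, div_zero, zero_mul]⟩
  · obtain ⟨p, hp, q, hq, hq0, h⟩ := key r hr
    obtain ⟨p', hp', q', hq', hq0', h'⟩ := key s hs
    refine ⟨p * q', (zring B x j).mul_mem hp hq', q * p', (zring B x j).mul_mem hq hp',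
      mul_ne_zero hq0 ?_, ?_⟩
    · rw [← h']
      exact mul_ne_zero hs0 hq0'
    · rw [← h, ← h']
      field_simp

/-- The germ of `Z` at a maximal ideal. -/
def germ (hS : S_FRCB) (htr : Algebra.trdeg ℂ K = (e' : Cardinal))
    (hK : IntermediateField.adjoin F (Set.range x) = ⊤)
    (hn : ∀ a : K, IsIntegral (zring B x j) a → a ∈ zring B x j) (m : Ideal (zring B x j))
    (hm : m.IsMaximal) : Germ e' where
  K := K
  fieldK := inferInstance
  algK := inferInstance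
  R := zring B x j
  fg := by
    rw [eq_sup]
    exact fg_sup ((hS B j).1.map _) (Tor.fg x)
  frac := fun a => frac B j (hS B j).2.1 hK a
  normal := hn
  trdeg := htr
  m := m
  max := hm

end Ring

section Val

variable {B : ProjModel F} {x : Fin n → K} {j : Fin (B.N + 1)} {v : DivVal e' K}

omit [IsScalarTower ℂ F K] in
theorem onChart (h0 : ∀ a : zring B x j, 0 ≤ v.ord (a : K)) : OnChart B v j :=
  fun c hc => Ge.of_le (h0 ⟨algebraMap F K c, const_mem B x j c hc⟩)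

omit [IsScalarTower ℂ F K] in
/-- The weight of a valuation with a centre is zero. -/
theorem ord_mon (h0 : ∀ a : zring B x j, 0 ≤ v.ord (a : K)) (hx : ∀ k, x k ≠ 0)
    (m : Fin n → ℤ) : v.ord (mon x m) = 0 := by
  have h1 : 0 ≤ v.ord (mon x m) := h0 ⟨mon x m, mon_mem B x j m⟩
  have h2 : 0 ≤ v.ord (mon x (-m)) := h0 ⟨mon x (-m), mon_mem B x j (-m)⟩
  have h3 : mon x m * mon x (-m) = 1 := by
    rw [← Tor.mon_add hx, add_neg_cancel, Tor.mon_zero]
  have h4 := v.ord_mul _ _ (Tor.mon_ne hx m) (Tor.mon_ne hx (-m))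
  rw [h3, ord_one] at h4
  omega

theorem wt_eq (h0 : ∀ a : zring B x j, 0 ≤ v.ord (a : K)) (hx : ∀ k, x k ≠ 0) :
    wt x v = 0 := by
  funext k
  have h7 := ord_mon h0 hx (Pi.single k 1)
  rw [Tor.mon_single, zpow_one] at h7
  exact h7

/-- The values of the terms. -/
def tm (B : ProjModel F) (x : Fin n → K) (j : Fin (B.N + 1))
    (a : B.ring j × (Fin n → ℤ)) : K := algebraMap F K (a.1 : F) * mon x a.2

omit [IsScalarTower ℂ F K] in
theorem tm_mem (a : B.ring j × (Fin n → ℤ)) : tm B x j a ∈ zring B x j :=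
  (zring B x j).mul_mem (const_mem B x j _ a.1.2) (mon_mem B x j a.2)

theorem tm_ge (h0 : ∀ a : zring B x j, 0 ≤ v.ord (a : K)) (a : B.ring j × (Fin n → ℤ)) :
    v.Ge 0 (tm B x j a) := Ge.of_le (h0 ⟨tm B x j a, tm_mem a⟩)

/-- If `u` consists of fractions with the denominators of order zero then there are as many terms with
algebraically independent residues. -/
theorem exists_terms (hx : ∀ k, x k ≠ 0) (h0 : ∀ a : zring B x j, 0 ≤ v.ord (a : K)) {k : ℕ}
    (u : Fin k → K) (hu : ResIndep v u)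
    (hfr : ∀ i, ∃ p ∈ zring B x j, ∃ q ∈ zring B x j, q ≠ 0 ∧ v.ord q = 0 ∧ u i * q = p) :
    ∃ c : Fin k → B.ring j × (Fin n → ℤ), ResIndep v fun i => tm B x j (c i) := by
  have hu0 := RES.ge_of_resIndep v hu
  let _ := RES.alg v
  have key : ∀ (a : K) (ha : v.Ge 0 a), a ∈ zring B x j → RES.resi v ⟨a, ha⟩ ∈
      Algebra.adjoin ℂ (Set.range fun m => RES.resi v ⟨tm B x j m, tm_ge h0 m⟩) := by
    intro a ha hax
    obtain ⟨g, rfl⟩ := exists_rev B j hx hax
    have h1 : (⟨rev x g, ha⟩ : v.OV) = ∑ m ∈ g.coeff.support,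
        ⟨tm B x j (g.coeff m, m), tm_ge h0 (g.coeff m, m)⟩ := by
      apply Subtype.ext
      rw [AddSubmonoidClass.coe_finsetSum]
      rfl
    rw [h1, map_sum]
    exact Subalgebra.sum_mem _ fun m _ => Algebra.subset_adjoin ⟨(g.coeff m, m), rfl⟩
  refine RES.choose v (fun m => tm B x j m) (tm_ge h0) u hu0 hu ?_
  intro i
  obtain ⟨p, hp, q, hq, hq0, hqv, hpq⟩ := hfr i
  have hpg : v.Ge 0 p := Ge.of_le (h0 ⟨p, hp⟩)
  have hqg : v.Ge 0 q := Ge.of_le (h0 ⟨q, hq⟩)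
  refine ⟨Polynomial.C ⟨RES.resi v ⟨q, hqg⟩, key q hqg hq⟩ * Polynomial.X -
    Polynomial.C ⟨RES.resi v ⟨p, hpg⟩, key p hpg hp⟩, ?_, ?_⟩
  · intro h2
    have h3 := congrArg (fun s => s.coeff 1) h2
    simp only [Polynomial.coeff_sub, Polynomial.coeff_C_mul, Polynomial.coeff_X_one, mul_one,
      Polynomial.coeff_C_succ, sub_zero, Polynomial.coeff_zero] at h3
    exact (RES.resi_ne v ⟨q, hqg⟩).2 ⟨hq0, hqv⟩ (congrArg Subtype.val h3)
  · rw [map_sub, map_mul, Polynomial.aeval_C, Polynomial.aeval_C, Polynomial.aeval_X]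
    change RES.resi v ⟨q, hqg⟩ * RES.resi v ⟨u i, hu0 i⟩ - RES.resi v ⟨p, hpg⟩ = 0
    rw [← map_mul, sub_eq_zero]
    congr 1
    apply Subtype.ext
    change q * u i = p
    rw [mul_comm]
    exact hpq

theorem to_big (hS : S_FRCB) (htr : Algebra.trdeg ℂ K = (e' : Cardinal)) (hx : ∀ k, x k ≠ 0)
    (hK : IntermediateField.adjoin F (Set.range x) = ⊤)
    (hn : ∀ a : K, IsIntegral (zring B x j) a → a ∈ zring B x j) {P : Ideal (zring B x j)}
    (hc : HasCentre (zring B x j) v P) (h : P.height = 1) : BIG B x v := by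
  obtain ⟨M, hM, hPM⟩ := Ideal.exists_le_maximal P hc.1.ne_top
  have hO : ∀ a : K, v.Ge 0 a → ∃ r s : zring B x j, s ∉ P ∧ a * (s : K) = r :=
    cOLC (germ B j hS htr hK hn M hM) P v ⟨hc.1, h, hc.2.1, hc.2.2⟩
  obtain ⟨u, hu⟩ := v.res
  have hu0 := RES.ge_of_resIndep v hu
  obtain ⟨c, hc'⟩ := exists_terms (B := B) (j := j) hx hc.2.1 u hu (by
    intro i
    obtain ⟨p, q, hq, hpq⟩ := hO (u i) (hu0 i)
    have h2 := mt (hc.2.2 q).2 hq
    push Not at h2
    have h3 := hc.2.1 q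
    have h5 := h2.2
    exact ⟨p, p.2, q, q.2, fun h4 => h2.1 (Subtype.ext h4), by omega, hpq⟩)
  have h6 := wt_eq hc.2.1 hx
  have h8 := onChart (B := B) (j := j) hc.2.1
  refine ⟨fun l => ((c l).1 : F), fun l => (c l).2, fun l => ?_, hc'⟩
  have h9 := hc' (MvPolynomial.X l) (MvPolynomial.X_ne_zero l)
  rw [MvPolynomial.aeval_X] at h9
  obtain ⟨h10, h11⟩ := h9
  have h12 : ((c l).1 : F) ≠ 0 := by
    intro h13
    apply h10
    unfold tm
    rw [h13, map_zero, zero_mul]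
  have h14 : algebraMap F K ((c l).1 : F) ≠ 0 := by
    rw [map_ne_zero]
    exact h12
  have h15 : v.ord (algebraMap F K ((c l).1 : F)) = 0 := by
    unfold tm at h11
    rw [v.ord_mul _ _ h14 (Tor.mon_ne hx _), ord_mon hc.2.1 hx, add_zero] at h11
    exact h11
  refine ⟨⟨j, h8, (c l).1, (c l).1.2, 1, (B.ring j).one_mem, one_ne_zero, ?_, mul_one _⟩, h12,
    h15, ?_⟩
  · rw [map_one, ord_one]
  · rw [h6]
    simp [pair]

theorem big_to (hS : S_FRCB) (hC : S_RCEN) (he : 0 < e')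
    (htr : Algebra.trdeg ℂ K = (e' : Cardinal)) (hx : ∀ k, x k ≠ 0)
    (hK : IntermediateField.adjoin F (Set.range x) = ⊤)
    (hn : ∀ a : K, IsIntegral (zring B x j) a → a ∈ zring B x j) {P : Ideal (zring B x j)}
    (hc : HasCentre (zring B x j) v P) (h : BIG B x v) : P.height = 1 := by
  obtain ⟨c, q, hcq, hI⟩ := h
  have h8 := onChart (B := B) (j := j) hc.2.1
  obtain ⟨M, hM, hPM⟩ := Ideal.exists_le_maximal P hc.1.ne_top
  obtain ⟨d, hd⟩ := exists_terms (B := B) (j := j) hx hc.2.1 _ hI (by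
    intro i
    obtain ⟨hO, hc0, hcv, -⟩ := hcq i
    obtain ⟨p, hp, s, hs, hs0, hsv, hps⟩ := ((hC B v).1 j h8 (c i)).1 hO
    refine ⟨algebraMap F K p * mon x (q i), (zring B x j).mul_mem (const_mem B x j _ hp)
      (mon_mem B x j _), algebraMap F K s, const_mem B x j _ hs, ?_, hsv, ?_⟩
    · rw [map_ne_zero]
      exact hs0
    · rw [← hps, map_mul]
      ring)
  have hval : ∀ p : MvPolynomial (Fin (e' - 1)) ℂ,
      ((MvPolynomial.aeval (fun l => (⟨tm B x j (d l), tm_mem (d l)⟩ : zring B x j)) p :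
        zring B x j) : K) = MvPolynomial.aeval (fun l => tm B x j (d l)) p := by
    intro p
    exact MvPolynomial.comp_aeval_apply
      (fun l => (⟨tm B x j (d l), tm_mem (d l)⟩ : zring B x j)) (zring B x j).val p
  have hw : ∃ w : Fin (e' - 1) → zring B x j, ∀ p : MvPolynomial (Fin (e' - 1)) ℂ, p ≠ 0 →
      (MvPolynomial.aeval w p : zring B x j) ≠ 0 ∧
        v.ord ((MvPolynomial.aeval w p : zring B x j) : K) = 0 :=
    ⟨fun l => ⟨tm B x j (d l), tm_mem (d l)⟩, fun p hp => by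
      have h1 := hd p hp
      rw [← hval p] at h1
      exact ⟨fun h2 => h1.1 (congrArg (Subtype.val : zring B x j → K) h2), h1.2⟩⟩
  obtain ⟨P', hP'⟩ := cHT1 (germ B j hS htr hK hn M hM) v he hc.2.1 hw
  have h3 : P' = P := by
    ext a
    rw [hP'.2.2.2 a]
    exact (hc.2.2 a).symm
  rw [← h3]
  exact hP'.2.1

end Val

end BHR

theorem t_BHR : M_BHR := by
  intro hS hC F K _ _ _ _ _ _ e' n B x he htr hx hK j hn v P hc
  exact ⟨BHR.to_big hS htr hx hK hn hc, BHR.big_to hS hC he htr hx hK hn hc⟩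

end

end RMM
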