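import Pool.Agent.RMM.StT35
import Pool.Agent.RMM.TAY

/-!
# DKR: the rank inequality
-/

set_option autoImplicit false

namespace RMM

open MldGeo MMCI

noncomputable section

namespace DKR

theorem mon_single {κ : Type} [Field κ] {n : ℕ} (x : Fin n → κ) (j : Fin n) (k : ℤ) :
    mon x (Pi.single j k) = x j ^ k := by
  unfold mon
  rw [Finset.prod_eq_single j]
  · rw [Pi.single_eq_same]
  · intro i _ hij
    rw [Pi.single_eq_of_ne hij, zpow_zero]
  · intro h
    exact absurd (Finset.mem_univ j) h

variable {R κ : Type} [CommRing R] [Algebra ℂ R] [Field κ] [Algebra ℂ κ] {n : ℕ}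

/-- the derivative as a linear map -/
def pL (ρ : R →ₐ[ℂ] κ) (p : Fin n → κ) (δ : R →ₗ[ℂ] κ) (a : Fin n → κ) : LR R n →ₗ[ℂ] κ where
  toFun := pdv ρ p δ a
  map_add' f g := by
    unfold pdv
    rw [AddMonoidAlgebra.coeff_add, Finsupp.sum_add_index']
    · intro m; rw [map_zero, map_zero, zero_mul, zero_add, zero_mul]
    · intro m c d; rw [map_add, map_add]; ring
  map_smul' c f := by
    unfold pdv
    rw [AddMonoidAlgebra.coeff_smul,
      Finsupp.sum_smul_index' (fun m => by rw [map_zero, map_zero, zero_mul, zero_add, zero_mul]),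
      RingHom.id_apply, Finsupp.smul_sum]
    refine Finsupp.sum_congr fun m _ => ?_
    rw [map_smul, map_smul, smul_mul_assoc, ← smul_add, smul_mul_assoc]

theorem pL_apply (ρ : R →ₐ[ℂ] κ) (p : Fin n → κ) (δ : R →ₗ[ℂ] κ) (a : Fin n → κ) (G : LR R n) :
    pL ρ p δ a G = pdv ρ p δ a G := rfl

theorem pL_single (ρ : R →ₐ[ℂ] κ) (p : Fin n → κ) (δ : R →ₗ[ℂ] κ) (a : Fin n → κ)
    (m : Fin n → ℤ) (c : R) :
    pL ρ p δ a (AddMonoidAlgebra.single m c) = (δ c + ρ c * ∑ j, a j * (m j : κ)) * mon p m := by
  rw [pL_apply]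
  unfold pdv
  rw [AddMonoidAlgebra.coeff_single, Finsupp.sum_single_index]
  rw [map_zero, map_zero, zero_mul, zero_add, zero_mul]

theorem ptt_ne (π : LR R n →ₐ[ℂ] κ) (j : Fin n) : ptt π j ≠ 0 := by
  intro h
  have h1 : (AddMonoidAlgebra.single (Pi.single j 1) 1 : LR R n) *
      AddMonoidAlgebra.single (-(Pi.single j 1)) 1 = 1 := by
    rw [AddMonoidAlgebra.single_mul_single, add_neg_cancel, mul_one]
    rfl
  have h2 := congrArg π h1
  rw [map_mul, map_one] at h2
  have h3 : π (AddMonoidAlgebra.single (Pi.single j 1) 1) = 0 := h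
  rw [h3, zero_mul] at h2
  exact zero_ne_one h2

theorem res0_apply (π : LR R n →ₐ[ℂ] κ) (c : R) :
    res0 π c = π (AddMonoidAlgebra.single 0 c) := rfl

theorem pi_single (π : LR R n →ₐ[ℂ] κ) (m : Fin n → ℤ) (c : R) :
    π (AddMonoidAlgebra.single m c) = res0 π c * mon (ptt π) m := by
  have h1 : (π : LR R n →+* κ) = TAY.evl (res0 π : R →+* κ) (ptt π) (ptt_ne π) := by
    apply TAY.hom_ext
    · intro c
      rw [TAY.evl_single, TAY.mon_zero, mul_one]
      rfl
    · intro j
      rw [TAY.evl_single, mon_single, zpow_one, map_one, one_mul]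
      rfl
  have h2 := congrArg (fun f : LR R n →+* κ => f (AddMonoidAlgebra.single m c)) h1
  simp only [TAY.evl_single] at h2
  exact h2

theorem pL_der (π : LR R n →ₐ[ℂ] κ) (δ : R →ₗ[ℂ] κ) (hδ : IsDer (res0 π) δ) (a : Fin n → κ) :
    IsDer π (pL (res0 π) (ptt π) δ a) := by
  intro f g
  induction f using AddMonoidAlgebra.induction_linear with
  | zero => rw [zero_mul, map_zero, map_zero, zero_mul, mul_zero, add_zero]
  | add f f' hf hf' => rw [add_mul, map_add, map_add, map_add, hf, hf']; ring
  | single m c =>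
    induction g using AddMonoidAlgebra.induction_linear with
    | zero => rw [mul_zero, map_zero, map_zero, zero_mul, mul_zero, add_zero]
    | add g g' hg hg' => rw [mul_add, map_add, map_add, map_add, hg, hg']; ring
    | single m' c' =>
      rw [AddMonoidAlgebra.single_mul_single, pL_single, pL_single, pL_single, pi_single,
        pi_single, TAY.mon_add (ptt_ne π), hδ, map_mul]
      have h2 : ∑ j, a j * (((m + m') j : ℤ) : κ) =
          ∑ j, a j * (m j : κ) + ∑ j, a j * (m' j : κ) := by
        rw [← Finset.sum_add_distrib]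
        refine Finset.sum_congr rfl fun j _ => ?_
        rw [Pi.add_apply]
        push_cast
        ring
      rw [h2]
      ring

theorem der_zero {S : Type} [CommRing S] [Algebra ℂ S] (ρ : S →ₐ[ℂ] κ) :
    IsDer ρ (0 : S →ₗ[ℂ] κ) := by
  intro a c
  rw [LinearMap.zero_apply, LinearMap.zero_apply, LinearMap.zero_apply, mul_zero, mul_zero,
    add_zero]

theorem der_comb {S : Type} [CommRing S] [Algebra ℂ S] (ρ : S →ₐ[ℂ] κ) {l : ℕ}
    (D : Fin l → (S →ₗ[ℂ] κ)) (h : ∀ i, IsDer ρ (D i)) (c : Fin l → κ) :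
    IsDer ρ (∑ i, c i • D i) := by
  intro a b
  rw [LinearMap.sum_apply, LinearMap.sum_apply, LinearMap.sum_apply, Finset.mul_sum,
    Finset.mul_sum, ← Finset.sum_add_distrib]
  refine Finset.sum_congr rfl fun i _ => ?_
  rw [LinearMap.smul_apply, LinearMap.smul_apply, LinearMap.smul_apply, smul_eq_mul, smul_eq_mul,
    smul_eq_mul, h i a b]
  ring

/-- the directions -/
def Dv (π : LR R n →ₐ[ℂ] κ) {q : ℕ} (δ : Fin q → (R →ₗ[ℂ] κ)) :
    Fin (q + n) → (LR R n →ₗ[ℂ] κ) :=
  Fin.append (fun l => pL (res0 π) (ptt π) (δ l) 0)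
    fun k => pL (res0 π) (ptt π) 0 (Pi.single k 1)

theorem Dv_der (π : LR R n →ₐ[ℂ] κ) {q : ℕ} (δ : Fin q → (R →ₗ[ℂ] κ))
    (hδ : ∀ l, IsDer (res0 π) (δ l)) (i : Fin (q + n)) : IsDer π (Dv π δ i) := by
  unfold Dv
  refine Fin.addCases (fun l => ?_) (fun k => ?_) i
  · rw [Fin.append_left]
    exact pL_der π (δ l) (hδ l) 0
  · rw [Fin.append_right]
    exact pL_der π 0 (der_zero _) _

theorem Dv_indep (π : LR R n →ₐ[ℂ] κ) {q : ℕ} (δ : Fin q → (R →ₗ[ℂ] κ))
    (hi : LinearIndependent κ δ) :
    LinearIndependent κ (Dv π δ) := by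
  rw [Fintype.linearIndependent_iff] at hi ⊢
  intro c hc
  have hc' : ∀ G, ∑ l, c (Fin.castAdd n l) * pL (res0 π) (ptt π) (δ l) 0 G +
      ∑ k, c (Fin.natAdd q k) * pL (res0 π) (ptt π) 0 (Pi.single k 1) G = 0 := by
    intro G
    have h1 := LinearMap.congr_fun hc G
    rw [LinearMap.sum_apply, Fin.sum_univ_add, LinearMap.zero_apply] at h1
    rw [← h1]
    congr 1
    · refine Finset.sum_congr rfl fun l _ => ?_
      rw [LinearMap.smul_apply, smul_eq_mul]
      unfold Dv
      rw [Fin.append_left]
    · refine Finset.sum_congr rfl fun l _ => ?_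
      rw [LinearMap.smul_apply, smul_eq_mul]
      unfold Dv
      rw [Fin.append_right]
  have h1 : ∀ l, c (Fin.castAdd n l) = 0 := by
    apply hi
    refine LinearMap.ext fun a => ?_
    have h2 := hc' (AddMonoidAlgebra.single 0 a)
    rw [LinearMap.sum_apply, LinearMap.zero_apply, ← h2]
    rw [Finset.sum_eq_zero (s := Finset.univ) (f := fun k => c (Fin.natAdd q k) *
      pL (res0 π) (ptt π) 0 (Pi.single k 1) (AddMonoidAlgebra.single 0 a)), add_zero]
    · refine Finset.sum_congr rfl fun l _ => ?_
      rw [LinearMap.smul_apply, smul_eq_mul, pL_single, TAY.mon_zero, mul_one]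
      simp
    · intro k _
      rw [pL_single]
      simp
  have h2 : ∀ k, c (Fin.natAdd q k) = 0 := by
    intro k
    have h3 := hc' (AddMonoidAlgebra.single (Pi.single k 1) 1)
    rw [Finset.sum_eq_zero (fun l _ => by rw [h1 l, zero_mul]), zero_add,
      Finset.sum_eq_single k] at h3
    · rw [pL_single, mon_single, zpow_one, map_one (res0 π), one_mul, LinearMap.zero_apply, zero_add,
        Finset.sum_eq_single k] at h3
      · rw [Pi.single_eq_same, Pi.single_eq_same, Int.cast_one, one_mul, one_mul] at h3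
        exact (mul_eq_zero.1 h3).resolve_right (ptt_ne π k)
      · intro i _ hik
        rw [Pi.single_eq_of_ne hik, zero_mul]
      · intro h
        exact absurd (Finset.mem_univ k) h
    · intro i _ hik
      rw [pL_single, LinearMap.zero_apply, zero_add, Finset.sum_eq_zero, mul_zero, zero_mul,
        mul_zero]
      intro j _
      by_cases hj : j = i
      · subst hj
        rw [Pi.single_eq_of_ne (M := fun _ => ℤ) hik, Int.cast_zero, mul_zero]
      · rw [Pi.single_eq_of_ne hj, zero_mul]
    · intro h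
      exact absurd (Finset.mem_univ k) h
  intro i
  exact Fin.addCases h1 h2 i

end DKR

open DKR in
theorem t_DKR : S_DKR := by
  intro F K _ _ _ _ _ _ n r N q κ _ _ R x π hx hπ hN M hM g hg hgen δ hδ hδi
  by_contra hcon
  have hrk : (lam π δ g).rank + Module.finrank κ (LinearMap.ker (lam π δ g).mulVecLin) =
      q + n := by
    have h1 := LinearMap.finrank_range_add_finrank_ker (lam π δ g).mulVecLin
    rw [Module.finrank_fintype_fun_eq_card, Fintype.card_fin] at h1
    exact h1
  have hV : N + 1 ≤ Module.finrank κ (LinearMap.ker (lam π δ g).mulVecLin) := by omega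
  set V := LinearMap.ker (lam π δ g).mulVecLin with hVdef
  let bV : Module.Basis (Fin (Module.finrank κ V)) κ V := Module.finBasis κ V
  let c : Fin (N + 1) → (Fin (q + n) → κ) := fun i => (bV (Fin.castLE hV i) : Fin (q + n) → κ)
  have hc : LinearIndependent κ c := by
    have h1 : LinearIndependent κ fun i : Fin (N + 1) => bV (Fin.castLE hV i) :=
      bV.linearIndependent.comp _ (Fin.castLE_injective hV)
    exact h1.map' V.subtype V.ker_subtype
  have hcm : ∀ i, (lam π δ g).mulVec (c i) = 0 := fun i => (bV (Fin.castLE hV i)).2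
  have hinj : LinearMap.ker (Fintype.linearCombination κ (Dv π δ)) = ⊥ := by
    rw [LinearMap.ker_eq_bot]
    exact (Dv_indep π δ hδi).fintypeLinearCombination_injective
  have hD := hc.map' _ hinj
  refine hN _ ?_ ?_ hD
  · intro i
    change IsDer π (Fintype.linearCombination κ (Dv π δ) (c i))
    rw [Fintype.linearCombination_apply]
    exact der_comb π (Dv π δ) (Dv_der π δ hδ) (c i)
  · intro i h hh
    change Fintype.linearCombination κ (Dv π δ) (c i) h = 0
    have hder : IsDer π (Fintype.linearCombination κ (Dv π δ) (c i)) := by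
      rw [Fintype.linearCombination_apply]
      exact der_comb π (Dv π δ) (Dv_der π δ hδ) (c i)
    have hgi : ∀ k, Fintype.linearCombination κ (Dv π δ) (c i) (g k) = 0 := by
      intro k
      have h1 := congrFun (hcm i) k
      rw [Pi.zero_apply] at h1
      rw [Fintype.linearCombination_apply, LinearMap.sum_apply, ← h1]
      unfold Matrix.mulVec dotProduct
      refine Finset.sum_congr rfl fun l _ => ?_
      rw [LinearMap.smul_apply, smul_eq_mul, mul_comm]
      congr 1
      change (Fin.append (fun l => pL (res0 π) (ptt π) (δ l) 0)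
        (fun k => pL (res0 π) (ptt π) 0 (Pi.single k 1)) l) (g k) =
        Fin.append (fun l => pdv (res0 π) (ptt π) (δ l) 0 (g k))
          (fun j => pdv (res0 π) (ptt π) 0 (Pi.single j 1) (g k)) l
      refine Fin.addCases (fun l => ?_) (fun l => ?_) l
      · rw [Fin.append_left, Fin.append_left]
        rfl
      · rw [Fin.append_right, Fin.append_right]
        rfl
    generalize Fintype.linearCombination κ (Dv π δ) (c i) = D at hder hgi
    have hspan : ∀ a ∈ Ideal.span (Set.range g), D a = 0 ∧ π a = 0 := by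
      intro a ha
      induction ha using Submodule.span_induction with
      | mem a h =>
        obtain ⟨k, rfl⟩ := h
        exact ⟨hgi k, hπ _ (hg k)⟩
      | zero => exact ⟨map_zero _, map_zero _⟩
      | add a b _ _ ha hb =>
        exact ⟨by rw [map_add, ha.1, hb.1, add_zero], by rw [map_add, ha.2, hb.2, add_zero]⟩
      | smul a b _ hb =>
        rw [smul_eq_mul, hder, map_mul, hb.1, hb.2]
        exact ⟨by rw [mul_zero, zero_mul, add_zero], mul_zero _⟩
    obtain ⟨h', h1, h2⟩ := hgen h hh
    have h3 := (hspan _ h2).1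
    rw [hder, hπ h hh, zero_mul, add_zero] at h3
    refine (mul_eq_zero.1 h3).resolve_left fun h4 => h1 (hM h' h4)

end

end RMM
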