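import Pool.Agent.RMM.StT35
import Pool.Agent.MMCI.K_UMT
import Pool.Agent.MMCI.FRC

/-!
# DMG: the dimension of the derivations at the generic point
-/

set_option autoImplicit false

namespace RMM

open MldGeo MMCI

noncomputable section

namespace DMG

/-- elements which are fractions of elements of `A` -/
def Fr {K : Type} [Field K] [Algebra ℂ K] (A : Subalgebra ℂ K) (a : K) : Prop :=
  ∃ r ∈ A, ∃ s ∈ A, s ≠ 0 ∧ a * s = r

section

variable {K : Type} [Field K] [Algebra ℂ K] {A : Subalgebra ℂ K}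

lemma Fr.of_mem {a : K} (h : a ∈ A) : Fr A a := ⟨a, h, 1, A.one_mem, one_ne_zero, mul_one a⟩

lemma Fr.add {a b : K} (ha : Fr A a) (hb : Fr A b) : Fr A (a + b) := by
  obtain ⟨r, hr, s, hs, hs0, h⟩ := ha
  obtain ⟨r', hr', s', hs', hs0', h'⟩ := hb
  refine ⟨r * s' + r' * s, A.add_mem (A.mul_mem hr hs') (A.mul_mem hr' hs), s * s',
    A.mul_mem hs hs', mul_ne_zero hs0 hs0', ?_⟩
  rw [← h, ← h']
  ring

lemma Fr.mul {a b : K} (ha : Fr A a) (hb : Fr A b) : Fr A (a * b) := by
  obtain ⟨r, hr, s, hs, hs0, h⟩ := ha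
  obtain ⟨r', hr', s', hs', hs0', h'⟩ := hb
  refine ⟨r * r', A.mul_mem hr hr', s * s', A.mul_mem hs hs', mul_ne_zero hs0 hs0', ?_⟩
  rw [← h, ← h']
  ring

lemma Fr.inv {a : K} (ha : Fr A a) : Fr A a⁻¹ := by
  obtain ⟨r, hr, s, hs, hs0, h⟩ := ha
  by_cases ha0 : a = 0
  · rw [ha0, inv_zero]
    exact Fr.of_mem A.zero_mem
  · refine ⟨s, hs, r, hr, ?_, ?_⟩
    · rw [← h]
      exact mul_ne_zero ha0 hs0
    · rw [← h, ← mul_assoc, inv_mul_cancel₀ ha0, one_mul]

theorem isFrac (h : ∀ a : K, Fr A a) : IsFractionRing A K := by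
  refine IsFractionRing.of_field _ _ fun z => ?_
  obtain ⟨r, hr, s, hs, hs0, hz⟩ := h z
  refine ⟨⟨r, hr⟩, ⟨s, hs⟩, ?_⟩
  change z = r / s
  rw [← hz, mul_div_cancel_right₀ _ hs0]

end

end DMG

theorem t_DMG : S_DMG := by
  intro F K _ _ _ _ _ _ e' n B x htr hx gen j π hπ D hD hker
  classical
  set A : Subalgebra ℂ K := π.range with hA
  have hmemA : ∀ G, rev x G ∈ A := fun G => ⟨G, hπ G⟩
  have hrev : ∀ (m : Fin n → ℤ) (c : B.ring j),
      rev x (AddMonoidAlgebra.single m c : LR (B.ring j) n) = algebraMap F K c * mon x m := by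
    intro m c
    unfold rev
    rw [AddMonoidAlgebra.coeff_single, Finsupp.sum_single_index]
    · rfl
    · rw [map_zero, zero_mul]
  have hc : ∀ c : B.ring j, algebraMap F K c ∈ A := by
    intro c
    have h := hmemA (AddMonoidAlgebra.single 0 c)
    rw [hrev] at h
    have h1 : mon x 0 = 1 := by
      unfold mon
      simp
    rwa [h1, mul_one] at h
  have hxA : ∀ i, x i ∈ A := by
    intro i
    have h := hmemA (AddMonoidAlgebra.single (Pi.single i 1) 1)
    rw [hrev] at h
    have h1 : mon x (Pi.single i 1) = x i := by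
      unfold mon
      rw [Finset.prod_eq_single i]
      · simp
      · intro k _ hk
        rw [Pi.single_eq_of_ne hk, zpow_zero]
      · intro hi
        exact absurd (Finset.mem_univ i) hi
    rw [h1] at h
    have h2 : algebraMap F K ((1 : B.ring j) : F) = 1 := by
      rw [OneMemClass.coe_one, map_one]
    rwa [h2, one_mul] at h
  have hFr : ∀ a : K, DMG.Fr A a := by
    intro a
    have ha : a ∈ IntermediateField.adjoin F (Set.range x) := by
      rw [gen]
      trivial
    induction ha using IntermediateField.adjoin_induction with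
    | mem a ha =>
      obtain ⟨i, rfl⟩ := ha
      exact DMG.Fr.of_mem (hxA i)
    | algebraMap c =>
      obtain ⟨r, hr, q, hq, hq0, h⟩ := (t_FRC B j).2 c
      refine ⟨algebraMap F K r, hc ⟨r, hr⟩, algebraMap F K q, hc ⟨q, hq⟩, ?_, ?_⟩
      · exact (map_ne_zero _).mpr hq0
      · rw [← map_mul, h]
    | add a b _ _ ha hb => exact ha.add hb
    | inv a _ ha => exact ha.inv
    | mul a b _ _ ha hb => exact ha.mul hb
  have hfrac : IsFractionRing A K := DMG.isFrac hFr
  -- derivations of the image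
  have hfac : ∀ i, ∃ d : A →ₗ[ℂ] K, ∀ G, d (π.rangeRestrict G) = D i G := by
    intro i
    obtain ⟨d, hd⟩ := UMT.factor π.rangeRestrict.toLinearMap π.rangeRestrict_surjective (D i) (by
      intro G hG
      refine hker i G ?_
      rw [← hπ]
      exact congrArg Subtype.val hG)
    exact ⟨d, hd⟩
  choose d hd using hfac
  have hdd : ∀ i (a b : A), d i (a * b) = algebraMap A K a * d i b + algebraMap A K b * d i a := by
    intro i a b
    obtain ⟨G, rfl⟩ := π.rangeRestrict_surjective a
    obtain ⟨H, rfl⟩ := π.rangeRestrict_surjective b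
    rw [← map_mul, hd, hd, hd, hD i]
    rfl
  have hl : ∀ i, ∃ l : Ω[K⁄ℂ] →ₗ[K] K, ∀ a : A,
      l (KaehlerDifferential.D ℂ K (algebraMap A K a)) = d i a := fun i =>
    UMT.ext_der (d i) (hdd i)
  choose l hl using hl
  obtain ⟨hfin, hdim⟩ := UMT.finrank_omega htr
  have hdep : ¬ LinearIndependent K l := by
    intro hli
    have h1 := hli.fintype_card_le_finrank
    rw [Fintype.card_fin, Subspace.dual_finrank_eq, hdim] at h1
    omega
  intro hli
  apply hdep
  rw [Fintype.linearIndependent_iff] at hli ⊢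
  intro g hg
  refine hli g ?_
  refine LinearMap.ext fun G => ?_
  have h2 := LinearMap.congr_fun hg (KaehlerDifferential.D ℂ K (algebraMap A K (π.rangeRestrict G)))
  rw [LinearMap.sum_apply, LinearMap.zero_apply] at h2
  rw [LinearMap.sum_apply, LinearMap.zero_apply, ← h2]
  refine Finset.sum_congr rfl fun i _ => ?_
  rw [LinearMap.smul_apply, LinearMap.smul_apply, hl, hd]

end

end RMM
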