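import Pool.Agent.RMM.StT35
import Pool.Agent.MMCI.Tools
import Pool.Agent.MMCI.K_UMT
import Pool.Agent.MMCI.K_MIN
import Pool.Agent.MMCI.FRC
import Pool.Agent.MldGeo.Ord

/-!
# DMV: the dimension of the space of derivations at a prime divisor
-/

set_option autoImplicit false
set_option linter.unusedSectionVars false

namespace RMM

open MldGeo MldGeo.DivVal MMCI

noncomputable section

namespace DMV

/-! ### the ring of regular functions of a chart -/

section ring

variable {F K : Type} [Field F] [Field K] [Algebra ℂ F] [Algebra ℂ K] [Algebra F K]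
  [IsScalarTower ℂ F K] {n : ℕ}

/-- The value at `x`. -/
def phi (R : Subalgebra ℂ F) {x : Fin n → K} (hx : ∀ j, x j ≠ 0) : LR R n →ₐ[R] K :=
  AddMonoidAlgebra.lift R K (Fin n → ℤ)
    { toFun := fun m => mon x m.toAdd
      map_one' := Tor.mon_zero x
      map_mul' := fun m m' => Tor.mon_add hx m.toAdd m'.toAdd }

theorem phi_apply (R : Subalgebra ℂ F) {x : Fin n → K} (hx : ∀ j, x j ≠ 0) (G : LR R n) :
    phi R hx G = rev x G := rfl

theorem rev_mem (B : ProjModel F) (x : Fin n → K) (j : Fin (B.N + 1)) (G : LR (B.ring j) n) :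
    rev x G ∈ zring B x j := by
  unfold rev Finsupp.sum
  refine Subalgebra.sum_mem _ fun m _ => Subalgebra.mul_mem _ ?_ ?_
  · exact Algebra.subset_adjoin (Or.inl ⟨(G.coeff m : F), (G.coeff m).2, rfl⟩)
  · exact Algebra.subset_adjoin (Or.inr ⟨m, rfl⟩)

/-- The value at `x`, with values in the ring of the chart. -/
def ev (B : ProjModel F) {x : Fin n → K} (hx : ∀ j, x j ≠ 0) (j : Fin (B.N + 1)) :
    LR (B.ring j) n →ₐ[ℂ] zring B x j :=
  ((phi (B.ring j) hx).restrictScalars ℂ).codRestrict (zring B x j)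
    fun G => rev_mem B x j G

theorem ev_coe (B : ProjModel F) {x : Fin n → K} (hx : ∀ j, x j ≠ 0) (j : Fin (B.N + 1))
    (G : LR (B.ring j) n) : (ev B hx j G : K) = rev x G := rfl

theorem ev_surj (B : ProjModel F) {x : Fin n → K} (hx : ∀ j, x j ≠ 0) (j : Fin (B.N + 1)) :
    Function.Surjective (ev B hx j) := by
  have h1 : zring B x j ≤ ((phi (B.ring j) hx).restrictScalars ℂ).range := by
    unfold zring
    refine Algebra.adjoin_le ?_
    rintro z (⟨a, ha, rfl⟩ | ⟨m, rfl⟩)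
    · refine ⟨AddMonoidAlgebra.single 0 ⟨a, ha⟩, ?_⟩
      change phi (B.ring j) hx (AddMonoidAlgebra.single 0 ⟨a, ha⟩) = _
      unfold phi
      rw [AddMonoidAlgebra.lift_single]
      change (⟨a, ha⟩ : B.ring j) • mon x 0 = _
      rw [Tor.mon_zero, Algebra.smul_def, mul_one]
      rfl
    · refine ⟨AddMonoidAlgebra.single m 1, ?_⟩
      change phi (B.ring j) hx (AddMonoidAlgebra.single m 1) = _
      unfold phi
      rw [AddMonoidAlgebra.lift_single, one_smul]
      rfl
  intro s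
  obtain ⟨G, hG⟩ := h1 s.2
  exact ⟨G, Subtype.ext hG⟩

theorem zfg (B : ProjModel F) {x : Fin n → K} (hx : ∀ j, x j ≠ 0) (j : Fin (B.N + 1)) :
    (zring B x j).FG := by
  have h1 : Algebra.FiniteType ℂ (B.ring j) := (B.ring j).fg_iff_finiteType.1 (t_FRC B j).1
  have h2 : Algebra.FiniteType (B.ring j) (LR (B.ring j) n) := inferInstance
  have h3 : Algebra.FiniteType ℂ (LR (B.ring j) n) := Algebra.FiniteType.trans h1 h2
  rw [Subalgebra.fg_iff_finiteType]
  exact Algebra.FiniteType.of_surjective (ev B hx j) (ev_surj B hx j)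

theorem zfrac (B : ProjModel F) {x : Fin n → K} (hx : ∀ j, x j ≠ 0)
    (hgen : IntermediateField.adjoin F (Set.range x) = ⊤) (j : Fin (B.N + 1)) (a : K) :
    ∃ p ∈ zring B x j, ∃ q ∈ zring B x j, q ≠ 0 ∧ a * q = p := by
  set S := zring B x j with hS
  have ha : a ∈ IntermediateField.adjoin F (Set.range x) := by
    rw [hgen]
    trivial
  induction ha using IntermediateField.adjoin_induction with
  | mem z hz =>
    obtain ⟨i, rfl⟩ := hz
    refine ⟨x i, ?_, 1, S.one_mem, one_ne_zero, mul_one _⟩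
    rw [hS]
    refine Algebra.subset_adjoin (Or.inr ⟨Pi.single i 1, ?_⟩)
    show mon x (Pi.single i 1) = x i
    rw [Tor.mon_single, zpow_one]
  | algebraMap c =>
    obtain ⟨p, hp, q, hq, hq0, e1⟩ := (t_FRC B j).2 c
    refine ⟨algebraMap F K p, Algebra.subset_adjoin (Or.inl ⟨p, hp, rfl⟩), algebraMap F K q,
      Algebra.subset_adjoin (Or.inl ⟨q, hq, rfl⟩), (map_ne_zero _).2 hq0, ?_⟩
    rw [← map_mul, e1]
  | add a b _ _ ha hb =>
    obtain ⟨p1, hp1, q1, hq1, hq1', e1⟩ := ha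
    obtain ⟨p2, hp2, q2, hq2, hq2', e2⟩ := hb
    refine ⟨p1 * q2 + p2 * q1, S.add_mem (S.mul_mem hp1 hq2) (S.mul_mem hp2 hq1), q1 * q2,
      S.mul_mem hq1 hq2, mul_ne_zero hq1' hq2', ?_⟩
    rw [← e1, ← e2]
    ring
  | inv a _ ha =>
    obtain ⟨p1, hp1, q1, hq1, hq1', e1⟩ := ha
    by_cases h0 : a = 0
    · refine ⟨0, S.zero_mem, 1, S.one_mem, one_ne_zero, ?_⟩
      rw [h0, inv_zero, zero_mul]
    · refine ⟨q1, hq1, p1, hp1, ?_, ?_⟩
      · rw [← e1]
        exact mul_ne_zero h0 hq1'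
      · rw [← e1, inv_mul_cancel_left₀ h0]
  | mul a b _ _ ha hb =>
    obtain ⟨p1, hp1, q1, hq1, hq1', e1⟩ := ha
    obtain ⟨p2, hp2, q2, hq2, hq2', e2⟩ := hb
    refine ⟨p1 * p2, S.mul_mem hp1 hp2, q1 * q2, S.mul_mem hq1 hq2, mul_ne_zero hq1' hq2', ?_⟩
    rw [← e1, ← e2]
    ring

end ring

/-! ### the dimension -/

theorem main {m : ℕ} {K : Type} [Field K] [Algebra ℂ K]
    (hK : Algebra.trdeg ℂ K = ((m + 1 : ℕ) : Cardinal)) (S : Subalgebra ℂ K)
    (v : DivVal (m + 1) K) (P : Ideal S) [hP : P.IsPrime] (hord : ∀ a : S, 0 ≤ v.ord a)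
    (hmem : ∀ a : S, a ∈ P ↔ a = 0 ∨ 0 < v.ord a)
    (holc : ∀ a : K, v.Ge 0 a → ∃ r s : S, s ∉ P ∧ a * (s : K) = r)
    {κ : Type} [Field κ] [Algebra ℂ κ] (ρ : S →ₐ[ℂ] κ) (hρ0 : ∀ a, ρ a = 0 ↔ a ∈ P)
    (hfrac : ∀ z : κ, ∃ a b : S, z = ρ a / ρ b) {L : Type} [CommRing L] [Algebra ℂ L]
    (q : L →ₐ[ℂ] S) (hq : Function.Surjective q) (D : Fin (m + 2) → (L →ₗ[ℂ] κ))
    (hD : ∀ i a c, D i (a * c) = ρ (q a) * D i c + ρ (q c) * D i a)
    (hD0 : ∀ i a, q a = 0 → D i a = 0) : ¬ LinearIndependent κ D := by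
  intro hli
  -- the field of fractions
  letI algQ : Algebra (S ⧸ P) κ :=
    (Ideal.Quotient.liftₐ P ρ fun a ha => (hρ0 a).2 ha).toRingHom.toAlgebra
  have hQ : ∀ a : S, algebraMap (S ⧸ P) κ (Ideal.Quotient.mk P a) = ρ a := fun a => rfl
  have htow : ∀ c : ℂ, algebraMap ℂ κ c = algebraMap (S ⧸ P) κ (algebraMap ℂ (S ⧸ P) c) := by
    intro c
    have h1 : algebraMap ℂ (S ⧸ P) c = Ideal.Quotient.mk P (algebraMap ℂ S c) := rfl
    rw [h1, hQ, AlgHom.commutes]
  haveI tow : IsScalarTower ℂ (S ⧸ P) κ :=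
    IsScalarTower.of_algebraMap_eq (R := ℂ) (S := S ⧸ P) (A := κ) htow
  haveI inj : FaithfulSMul (S ⧸ P) κ := by
    rw [faithfulSMul_iff_algebraMap_injective, injective_iff_map_eq_zero]
    intro z hz
    obtain ⟨a, rfl⟩ := Ideal.Quotient.mk_surjective z
    rw [hQ, hρ0] at hz
    exact Ideal.Quotient.eq_zero_iff_mem.2 hz
  haveI frac : IsFractionRing (S ⧸ P) κ := IsFractionRing.of_field (S ⧸ P) κ fun z => by
    obtain ⟨a, b, h⟩ := hfrac z
    exact ⟨Ideal.Quotient.mk P a, Ideal.Quotient.mk P b, by rw [hQ, hQ]; exact h⟩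
  -- the transcendence degree
  have htr : Algebra.trdeg ℂ κ ≤ (m : Cardinal) := by
    have h1 := UMT.trdeg_quot hK S v P hord hmem
    have h2 : Algebra.IsAlgebraic (S ⧸ P) κ :=
      IsLocalization.isAlgebraic _ (nonZeroDivisors (S ⧸ P))
    have h3 := trdeg_add_eq ℂ (S ⧸ P) (A := κ)
    rw [trdeg_eq_zero_iff.2 h2, add_zero] at h3
    rw [← h3]
    exact h1
  obtain ⟨k, hk⟩ : ∃ k : ℕ, Algebra.trdeg ℂ κ = (k : Cardinal) :=
    Cardinal.lt_aleph0.1 (htr.trans_lt (Cardinal.natCast_lt_aleph0))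
  have hkm : k ≤ m := by
    rw [hk] at htr
    exact_mod_cast htr
  obtain ⟨hfin, hdim⟩ := UMT.finrank_omega hk
  -- a uniformizer
  have hord0 : ∀ s : S, s ∉ P → (s : K) ≠ 0 ∧ v.ord s = 0 := by
    intro s hs
    rw [hmem] at hs
    push Not at hs
    exact ⟨fun h => hs.1 (Subtype.ext h), le_antisymm hs.2 (hord s)⟩
  obtain ⟨t, ht0, ht1⟩ : ∃ t : S, (t : K) ≠ 0 ∧ v.ord t = 1 := by
    obtain ⟨t0, h1, h2⟩ := v.unif
    obtain ⟨r', s, hs, hrs⟩ := holc t0 (Or.inr (by omega))
    obtain ⟨hs0, hs1⟩ := hord0 s hs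
    refine ⟨r', ?_, ?_⟩
    · rw [← hrs]
      exact mul_ne_zero h1 hs0
    · rw [← hrs, v.ord_mul _ _ h1 hs0, h2, hs1, add_zero]
  have htP : t ∈ P := (hmem t).2 (Or.inr (by omega))
  obtain ⟨T0, hT0⟩ := hq t
  -- the combinations of the derivations
  let T : (Fin (m + 2) → κ) →ₗ[κ] (L →ₗ[ℂ] κ) := Fintype.linearCombination κ D
  have hT : ∀ c a, T c a = ∑ i, c i * D i a := by
    intro c a
    change (Fintype.linearCombination κ D c) a = _
    rw [Fintype.linearCombination_apply, LinearMap.sum_apply]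
    exact Finset.sum_congr rfl fun i _ => rfl
  have hTinj : Function.Injective T := by
    rw [← LinearMap.ker_eq_bot, LinearMap.ker_eq_bot']
    intro c hc
    rw [Fintype.linearIndependent_iff] at hli
    funext i
    exact hli c hc i
  let B : (Fin (m + 2) → κ) →ₗ[κ] κ := ∑ i, (D i T0) • LinearMap.proj i
  have hB : ∀ c, B c = T c T0 := by
    intro c
    rw [hT]
    change (∑ i, (D i T0) • (LinearMap.proj i : (Fin (m + 2) → κ) →ₗ[κ] κ)) c = _
    rw [LinearMap.sum_apply]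
    refine Finset.sum_congr rfl fun i _ => ?_
    rw [LinearMap.smul_apply, LinearMap.proj_apply, smul_eq_mul, mul_comm]
  -- the derivations of the residue field
  let Ψ : Module.Dual κ (Ω[κ⁄ℂ]) →ₗ[κ] (L →ₗ[ℂ] κ) :=
    { toFun := fun l => (l.restrictScalars ℂ) ∘ₗ
        ((KaehlerDifferential.D ℂ κ : Derivation ℂ κ (Ω[κ⁄ℂ])) : κ →ₗ[ℂ] Ω[κ⁄ℂ]) ∘ₗ
          (ρ.comp q).toLinearMap
      map_add' := fun l l' => by
        ext a
        rfl
      map_smul' := fun c l => by
        ext a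
        rfl }
  have hle : (LinearMap.ker B).map T ≤ LinearMap.range Ψ := by
    rintro _ ⟨c, hc, rfl⟩
    have hc' : T c T0 = 0 := by
      rw [← hB]
      exact hc
    have hTc : ∀ a c', T c (a * c') = ρ (q a) * T c c' + ρ (q c') * T c a := by
      intro a c'
      rw [hT, hT, hT, Finset.mul_sum, Finset.mul_sum, ← Finset.sum_add_distrib]
      refine Finset.sum_congr rfl fun i _ => ?_
      rw [hD]
      ring
    obtain ⟨d, hd⟩ := UMT.factor q.toLinearMap hq (T c) (fun a ha => by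
      rw [hT]
      refine Finset.sum_eq_zero fun i _ => ?_
      rw [hD0 i a ha, mul_zero])
    have hd' : ∀ a : L, d (q a) = T c a := hd
    have hdmul : ∀ a b : S, d (a * b) = ρ a * d b + ρ b * d a := by
      intro a b
      obtain ⟨a, rfl⟩ := hq a
      obtain ⟨b, rfl⟩ := hq b
      rw [← map_mul, hd', hd', hd', hTc]
    have hdt : d t = 0 := by
      rw [← hT0, hd']
      exact hc'
    have hdP : ∀ a ∈ P, d a = 0 := by
      intro a ha
      by_cases ha0 : a = 0
      · rw [ha0, map_zero]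
      have ha1 : (a : K) ≠ 0 := fun h => ha0 (Subtype.ext h)
      have ha2 : 0 < v.ord a := ((hmem a).1 ha).resolve_left ha0
      have h3 : v.Ge 0 ((a : K) / t) := by
        refine Or.inr ?_
        rw [ord_div v ha1 ht0, ht1]
        omega
      obtain ⟨r', s, hs, hrs⟩ := holc _ h3
      have h4 : a * s = t * r' := by
        apply Subtype.ext
        change (a : K) * s = t * r'
        rw [← hrs]
        field_simp
      have h5 := congrArg d h4
      rw [hdmul, hdmul, hdt, (hρ0 a).2 ha, (hρ0 t).2 htP, zero_mul, zero_mul, mul_zero, zero_add,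
        zero_add] at h5
      exact (mul_eq_zero.1 h5).resolve_left fun h => hs ((hρ0 s).1 h)
    obtain ⟨d', hd''⟩ := UMT.factor (Ideal.Quotient.mkₐ ℂ P).toLinearMap
      (Ideal.Quotient.mkₐ_surjective ℂ P) d fun a ha => hdP a (Ideal.Quotient.eq_zero_iff_mem.1 ha)
    obtain ⟨l, hl⟩ := UMT.ext_der (A := S ⧸ P) (κ := κ) d' (by
      intro a b
      obtain ⟨a, rfl⟩ := Ideal.Quotient.mkₐ_surjective ℂ P a
      obtain ⟨b, rfl⟩ := Ideal.Quotient.mkₐ_surjective ℂ P b
      have h6 := hd'' (a * b)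
      have h7 := hd'' a
      have h8 := hd'' b
      rw [AlgHom.toLinearMap_apply] at h6 h7 h8
      rw [← map_mul, h6, h7, h8, hdmul]
      rfl)
    refine ⟨l, ?_⟩
    ext a
    change l (KaehlerDifferential.D ℂ κ (ρ (q a))) = T c a
    rw [← hd', ← hQ]
    exact (hl _).trans (hd'' _)
  -- count
  have h1 : m + 1 ≤ Module.finrank κ (LinearMap.ker B) := by
    have h2 := LinearMap.finrank_range_add_finrank_ker B
    have h3 : Module.finrank κ (LinearMap.range B) ≤ 1 := by
      have := Submodule.finrank_le (LinearMap.range B)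
      rwa [Module.finrank_self] at this
    rw [Module.finrank_fin_fun] at h2
    omega
  have h2 : Module.finrank κ (LinearMap.ker B) =
      Module.finrank κ ((LinearMap.ker B).map T) :=
    (Submodule.equivMapOfInjective T hTinj (LinearMap.ker B)).finrank_eq
  have h3 : Module.finrank κ ((LinearMap.ker B).map T) ≤ k := by
    refine (Submodule.finrank_mono hle).trans ((LinearMap.finrank_range_le Ψ).trans ?_)
    rw [Subspace.dual_finrank_eq, hdim]
  omega

end DMV

open DMV in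
theorem t_DMV : S_DMV := by
  intro F K _ _ _ _ _ _ e' n B x he' hK hx hgen j hint v P hPD π hπ D hD hD0
  obtain ⟨m, rfl⟩ : ∃ m, e' = m + 1 := ⟨e' - 1, by omega⟩
  obtain ⟨hP, hht, hord, hmem⟩ := hPD
  obtain ⟨M, hM, hPM⟩ := Ideal.exists_le_maximal P hP.ne_top
  let X : Germ (m + 1) :=
    { K := K
      fieldK := inferInstance
      algK := inferInstance
      R := zring B x j
      fg := zfg B hx j
      frac := zfrac B hx hgen j
      normal := hint
      trdeg := hK
      m := M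
      max := hM }
  have holc : ∀ a : K, v.Ge 0 a → ∃ r s : zring B x j, s ∉ P ∧ a * (s : K) = r :=
    cOLC X P v ⟨hP, hht, hord, hmem⟩
  letI algv : Algebra ℂ (IsLocalRing.ResidueField v.OV) := MIN.alg v
  let ρ : zring B x j →ₐ[ℂ] IsLocalRing.ResidueField v.OV :=
    { toRingHom := (IsLocalRing.residue v.OV).comp
        ((zring B x j).val.toRingHom.codRestrict v.OV.toSubring fun s => Or.inr (hord s))
      commutes' := fun c => rfl }
  have hρ : ∀ s : zring B x j, ρ s = IsLocalRing.residue v.OV ⟨(s : K), Or.inr (hord s)⟩ :=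
    fun s => rfl
  have hρ0 : ∀ a, ρ a = 0 ↔ a ∈ P := by
    intro a
    rw [hρ, IsLocalRing.residue_eq_zero_iff, mem_maximalIdeal_iff, hmem]
    constructor
    · rintro (h | h)
      · exact Or.inl (Subtype.ext h)
      · exact Or.inr (by change 1 ≤ v.ord (a : K) at h; omega)
    · rintro (h | h)
      · left
        change (a : K) = 0
        rw [h]
        rfl
      · right
        change 1 ≤ v.ord (a : K)
        omega
  refine main hK (zring B x j) v P hord hmem holc ρ hρ0 ?_ (ev B hx j) (ev_surj B hx j) D ?_ ?_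
  · intro z
    obtain ⟨⟨a, ha⟩, rfl⟩ := IsLocalRing.residue_surjective z
    obtain ⟨r', s, hs, hrs⟩ := holc a ha
    refine ⟨r', s, ?_⟩
    have h1 : ρ s ≠ 0 := fun h => hs ((hρ0 s).1 h)
    rw [eq_div_iff h1, hρ, hρ, ← map_mul]
    congr 1
    exact Subtype.ext hrs
  · intro i a c
    have h1 : ∀ G, π G = ρ (ev B hx j G) := fun G =>
      hπ G (Or.inr (hord (ev B hx j G)))
    rw [← h1, ← h1]
    exact hD i a c
  · intro i a ha
    exact hD0 i a (congrArg (fun s : zring B x j => (s : K)) ha)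

end

end RMM
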