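import Pool.Agent.MMCI.StE
import Pool.Agent.MMCI.StT2

/-!
# Relative minimal models (MP_fa3f7f_ag): the interface

`F` is the function field of the projective variety `B : ProjModel F`, `K` an extension of `F`
generated by the coordinates of the point `x` of the torus over `K`, and `f` a system of Laurent
polynomials over `F` with `f(x) = 0`. See PAPER.md in this folder. Compare with `MMCI/St.lean`.
-/

set_option autoImplicit false

namespace RMM

open MldGeo MMCI

noncomputable section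

/-! ### Laurent polynomials over a ring -/

section Laurent

/-- Laurent polynomials over `R`. -/
abbrev LR (R : Type) [CommRing R] (n : ℕ) : Type := AddMonoidAlgebra R (Fin n → ℤ)

variable {R : Type} [CommRing R] {n r : ℕ}

/-- The minimum of `ν` on the exponents of `f`. -/
def rmin (f : LR R n) (ν : Fin n → ℤ) : ℤ := sInf ((fun m => pair ν m) '' f.coeff.support)

/-- The initial form. -/
def rinit (f : LR R n) (ν : Fin n → ℤ) : LR R n :=
  AddMonoidAlgebra.ofCoeff (f.coeff.filter fun m => pair ν m = rmin f ν)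

/-- The order function of the sum of the Newton polytopes. -/
def rpsi (f : Fin r → LR R n) (ν : Fin n → ℤ) : ℤ := ∑ i, rmin (f i) ν

/-- A Laurent polynomial over `ℂ` with the same exponents. -/
def supp0 (f : LR R n) : Laurent n :=
  AddMonoidAlgebra.ofCoeff (Finsupp.indicator f.coeff.support fun _ _ => (1 : ℂ))

/-- The set of the coefficients. -/
def coefs (f : LR R n) : Set R := f.coeff '' (f.coeff.support : Set (Fin n → ℤ))

variable {K : Type} [Field K] [Algebra R K]

/-- The value. -/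
def rev (x : Fin n → K) (f : LR R n) : K := f.coeff.sum fun m c => algebraMap R K c * mon x m

/-- The value of the polynomial with the coefficients `d c`. -/
def revd (x : Fin n → K) (f : LR R n) (d : R → R) : K :=
  f.coeff.sum fun m c => algebraMap R K (d c) * mon x m

/-- The value of `x_j ∂f/∂x_j`. -/
def rgrad (x : Fin n → K) (f : LR R n) (j : Fin n) : K :=
  f.coeff.sum fun m c => algebraMap R K c * (m j : K) * mon x m

/-- The minor of the gradient matrix with the columns `σ(inl j)`. -/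
def rminor {e : ℕ} (f : Fin r → LR R n) (x : Fin n → K) (σ : Fin r ⊕ Fin e ≃ Fin n) : K :=
  (Matrix.of fun i j : Fin r => rgrad x (f i) (σ (Sum.inl j))).det

end Laurent

variable {F K : Type} [Field F] [Field K] [Algebra ℂ F] [Algebra ℂ K] [Algebra F K]
  [IsScalarTower ℂ F K] {b e e' n r N : ℕ}

/-! ### the centre on `B` -/

/-- `v` has a centre on the chart `j` of `B`. -/
def OnChart (B : ProjModel F) (v : DivVal e' K) (j : Fin (B.N + 1)) : Prop :=
  ∀ c ∈ B.ring j, v.Ge 0 (algebraMap F K c)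

/-- The centre of `v` is in the chart `j` and contains the closed point `m`. -/
def Through (B : ProjModel F) (v : DivVal e' K) (j : Fin (B.N + 1)) (m : Ideal (B.ring j)) : Prop :=
  OnChart B v j ∧ ∀ c : B.ring j, v.Ge 1 (algebraMap F K c) → c ∈ m

/-- `a` is in the local ring of `B` at the centre of `v`. -/
def InO (B : ProjModel F) (v : DivVal e' K) (a : F) : Prop :=
  ∃ j, OnChart B v j ∧ ∃ p ∈ B.ring j, ∃ q ∈ B.ring j, q ≠ 0 ∧ v.ord (algebraMap F K q) = 0 ∧
    a * q = p

/-- `a` is in the local ring of `B` at the closed point `m`. -/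
def InLoc (B : ProjModel F) (j : Fin (B.N + 1)) (m : Ideal (B.ring j)) (a : F) : Prop :=
  ∃ p q : B.ring j, q ∉ m ∧ a * q = p

/-- The order of the local generator of the line bundle generated by the sections in `C`. -/
def cmin (v : DivVal e' K) (C : Set F) : ℤ := sInf ((fun c => v.ord (algebraMap F K c)) '' C)

/-- The elements of `C` generate a line bundle (the rational map given by them is a morphism). -/
def Bpf (B : ProjModel F) (C : Set F) : Prop :=
  ∀ j (m : Ideal (B.ring j)), m.IsMaximal → ∃ c ∈ C, c ≠ 0 ∧ ∀ c' ∈ C, InLoc B j m (c' / c)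

/-! ### the extended coordinates and gradients -/

/-- The functions `y` on `B` and the coordinates `x`. -/
def zz (y : Fin b → F) (x : Fin n → K) : Fin (b + n) → K :=
  Fin.append (fun l => algebraMap F K (y l)) x

/-- The extended gradient. -/
def gr (y : Fin b → F) (d : Fin b → Derivation ℂ F F) (g : LR F n) (x : Fin n → K) :
    Fin (b + n) → K :=
  Fin.append (fun l => algebraMap F K (y l) * revd x g (d l)) fun j => rgrad x g j

/-- The base: `y0` is a transcendence basis of `F`, the form `dlogs y0` has local equations of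
`κ K_B` at all closed points, and `β v` is the order of these equations at the centre of `v`. -/
structure BaseData (B : ProjModel F) (b e' : ℕ) (K : Type) [Field K] [Algebra ℂ K] [Algebra F K]
    (κ : ℕ) (y0 : Fin b → F) (β : DivVal e' K → ℤ) : Prop where
  κ_pos : 0 < κ
  dimF : Algebra.trdeg ℂ F = (b : Cardinal)
  y0_ne : ∀ l, y0 l ≠ 0
  y0_ind : dlogs y0 ≠ 0
  normal : ∀ j (a : F), IsIntegral (B.ring j) a → a ∈ B.ring j
  eqn : ∃ S : Finset F, ∀ j (m : Ideal (B.ring j)), m.IsMaximal → ∃ a ∈ S, a ≠ 0 ∧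
    IsEquation (B.ring j) (dlogs y0) κ m a
  beta : ∀ (v : DivVal e' K) j (m : Ideal (B.ring j)), m.IsMaximal → Through B v j m →
    ∀ a : F, a ≠ 0 → IsEquation (B.ring j) (dlogs y0) κ m a → v.ord (algebraMap F K a) = β v

/-- The order of `κ (K_B + ∑ L_i)` at the centre of `v`. -/
def bo (κ : ℕ) (β : DivVal e' K → ℤ) (C : Fin r → Set F) (v : DivVal e' K) : ℤ :=
  β v - κ * ∑ i, cmin v (C i)

/-- A system of `r` Laurent polynomials over `F` with the zero `x`, nondegenerate at the generic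
point. -/
structure RReg (e : ℕ) (f : Fin r → LR F n) (x : Fin n → K) : Prop where
  dim_eq : n = r + e
  f_ne : ∀ i, f i ≠ 0
  ne : ∀ j, x j ≠ 0
  gen : IntermediateField.adjoin F (Set.range x) = ⊤
  zero : ∀ i, rev x (f i) = 0
  rank : LinearIndependent K fun i => rgrad x (f i)

/-- The residue form (up to sign). -/
def IsResR (e : ℕ) (y0 : Fin b → F) (f : Fin r → LR F n) (x : Fin n → K)
    (ω : Forms (b + e) K) : Prop :=
  ω ≠ 0 ∧ ∀ σ : Fin r ⊕ Fin e ≃ Fin n, rminor f x σ ≠ 0 →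
    ∃ ε : K, (ε = 1 ∨ ε = -1) ∧ rminor f x σ • ω = ε • dlogs (zz y0 (rest x σ))

/-- The residues of the functions on `B` which are units at the centre of `v`, and of the monomials of
weight zero, have the transcendence degree `e' - 1`. -/
def BIG (B : ProjModel F) (x : Fin n → K) (v : DivVal e' K) : Prop :=
  ∃ (c : Fin (e' - 1) → F) (q : Fin (e' - 1) → (Fin n → ℤ)),
    (∀ l, InO B v (c l) ∧ c l ≠ 0 ∧ v.ord (algebraMap F K (c l)) = 0 ∧
      pair (wt x v) (q l) = 0) ∧
    ResIndep v fun l => algebraMap F K (c l) * mon x (q l)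

/-- The local data at `v`: the local ring `A` of `B` at the centre of `v`, local coordinates `y` of
`B` (units at `v`) and the dual derivations `d`, the equation `h` of `K_B`, local equations
`(u i)⁻¹ f_i` with coefficients in `A`, and a minor of the extended gradients of least order. -/
structure Loc (B : ProjModel F) (e : ℕ) (κ : ℕ) (y0 : Fin b → F) (β : DivVal (b + e) K → ℤ)
    (f : Fin r → LR F n) (x : Fin n → K) (v : DivVal (b + e) K) where
  A : Subalgebra ℂ F
  memA : ∀ a, a ∈ A ↔ InO B v a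
  y : Fin b → F
  y_mem : ∀ l, y l ∈ A
  y_ne : ∀ l, y l ≠ 0
  y_ord : ∀ l, v.ord (algebraMap F K (y l)) = 0
  d : Fin b → Derivation ℂ F F
  dA : ∀ l, ∀ a ∈ A, d l a ∈ A
  dual : ∀ a : F, KaehlerDifferential.D ℂ F a = ∑ l, d l a • KaehlerDifferential.D ℂ F (y l)
  h : F
  h_ne : h ≠ 0
  h_eq : dlogs y0 = h • dlogs y
  h_ord : (κ : ℤ) * v.ord (algebraMap F K h) = β v
  u : Fin r → F
  u_ne : ∀ i, u i ≠ 0
  u_coef : ∀ i m, (u i)⁻¹ * (f i).coeff m ∈ A
  u_ord : ∀ i, v.ord (algebraMap F K (u i)) = cmin v (coefs (f i))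
  σ : Fin r ⊕ Fin (b + e) ≃ Fin (b + n)
  det_ne : (Matrix.of fun i j : Fin r => gr y d ((u i)⁻¹ • f i) x (σ (Sum.inl j))).det ≠ 0
  det_ord : v.ord (Matrix.of fun i j : Fin r => gr y d ((u i)⁻¹ • f i) x (σ (Sum.inl j))).det =
    rpsi f (wt x v)

/-- The abstract data: at every valuation there are local data with a minor of least order, or the
centre is not a divisor and the discrepancy is positive. -/
structure RSys (B : ProjModel F) (e : ℕ) (κ : ℕ) (y0 : Fin b → F) (β : DivVal (b + e) K → ℤ)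
    (f : Fin r → LR F n) (x : Fin n → K) : Prop extends RReg e f x where
  bpf : ∀ i, Bpf B (coefs (f i))
  nd : ∀ v : DivVal (b + e) K, Nonempty (Loc B e κ y0 β f x v) ∨ (¬ BIG B x v ∧
    ∀ ω : Forms (b + e) K, IsResR e y0 f x ω →
      (κ : ℤ) + 1 - κ * rpsi f (wt x v) ≤ κ * v.logOrd ω - bo κ β (fun i => coefs (f i)) v)

/-- The orders of the form `ω`. -/
structure RLog (B : ProjModel F) (κ : ℕ) (β : DivVal e' K → ℤ) (f : Fin r → LR F n)
    (x : Fin n → K) (ω : Forms e' K) : Prop where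
  ne : ω ≠ 0
  low : ∀ v : DivVal e' K, wt x v ≠ 0 →
    - (κ * rpsi f (wt x v)) ≤ κ * v.logOrd ω - bo κ β (fun i => coefs (f i)) v
  eq : ∀ v : DivVal e' K, wt x v ≠ 0 →
    (κ * v.logOrd ω - bo κ β (fun i => coefs (f i)) v = - (κ * rpsi f (wt x v)) ↔ BIG B x v)
  low0 : ∀ v : DivVal e' K, wt x v = 0 →
    (κ : ℤ) ≤ κ * v.logOrd ω - bo κ β (fun i => coefs (f i)) v
  eq0 : ∀ v : DivVal e' K, wt x v = 0 →
    (κ * v.logOrd ω - bo κ β (fun i => coefs (f i)) v = κ ↔ BIG B x v)
  unit : ∀ v : DivVal e' K, wt x v ≠ 0 → BIG B x v → Primitive (wt x v)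
  bnd : ∀ v : DivVal e' K, wt x v ≠ 0 → ∀ (s : ℕ) (ν : Fin s → (Fin n → ℤ)) (c : Fin s → ℕ)
    (c0 : ℕ), 0 < c0 → (∀ j, 0 < c j) → LinearIndependent ℤ ν →
    (c0 : ℤ) • wt x v = ∑ j, (c j : ℤ) • ν j →
    ∑ i, (rmin (f i) (∑ j, ν j) - ∑ j, rmin (f i) (ν j)) + 2 ≤ s →
    ¬ ∃ (a : Fin (e' - 1) → F) (q : Fin (e' - 1) → (Fin n → ℤ)),
      (∀ l, InO B v (a l) ∧ a l ≠ 0 ∧ v.ord (algebraMap F K (a l)) = 0 ∧
        ∀ j, pair (ν j) (q l) = 0) ∧
      ResIndep v fun l => algebraMap F K (a l) * mon x (q l)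

/-! ### the adjoint divisors `K_B + ∑_{i ∈ I} L_i` on `B` -/

section Adj

variable {Y : ProjModel F}

/-- Near the point `m` the function `g` is an equation of `k (K + D)`, where `D` is given by its
coefficients `D v` at the prime divisors and `K = div(ω)`. -/
def IsEqD (R : Subalgebra ℂ F) (ω : Forms b F) (D : DivVal b F → ℤ) (k : ℕ) (m : Ideal R)
    (g : F) : Prop :=
  ∀ (v : DivVal b F) (P : Ideal R), IsPrimeDivisor R v P → P ≤ m →
    v.ord g = k * (v.formOrd ω + D v)

/-- As `CurveMap.Equations`, for `K + D`. -/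
structure EqnsD (γ : CurveMap Y) (ω : Forms b F) (D : DivVal b F → ℤ) (k : ℕ) (h : F)
    (g : DivVal 1 γ.L → F) (u : DivVal 1 γ.L → γ.L) : Prop where
  h_ne : h ≠ 0
  u_ne : ∀ w, u w ≠ 0
  restr : ∀ w, γ.Restr (g w / h) (u w)
  eqn : ∀ w, ∃ (i : Fin (Y.N + 1)) (m : Ideal (Y.ring i)), γ.MapsTo w i m ∧
    IsEqD (Y.ring i) ω D k m (g w)

/-- `K + D` is nef. -/
def NefD (Y : ProjModel F) (D : DivVal b F → ℤ) : Prop :=
  ∀ ω : Forms b F, ω ≠ 0 → ∀ (γ : CurveMap Y) (k : ℕ) (h : F) (g : DivVal 1 γ.L → F)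
    (u : DivVal 1 γ.L → γ.L), 0 < k → EqnsD γ ω D k h g u →
    {w : DivVal 1 γ.L | w.ord (u w) ≠ 0}.Finite ∧ 0 ≤ ∑ᶠ w : DivVal 1 γ.L, w.ord (u w)

/-- `K + D` is semiample. -/
def SemD (Y : ProjModel F) (D : DivVal b F → ℤ) : Prop :=
  ∀ ω : Forms b F, ω ≠ 0 → ∃ (k N : ℕ) (h : Fin N → F), 0 < k ∧ (∀ l, h l ≠ 0) ∧
    (∀ l i (v : DivVal b F) (P : Ideal (Y.ring i)), IsPrimeDivisor (Y.ring i) v P →
      0 ≤ v.ord (h l) + k * (v.formOrd ω + D v)) ∧
    ∀ i (m : Ideal (Y.ring i)), m.IsMaximal → ∃ l, ∀ (v : DivVal b F) (P : Ideal (Y.ring i)),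
      IsPrimeDivisor (Y.ring i) v P → P ≤ m → v.ord (h l) + k * (v.formOrd ω + D v) = 0

/-- The divisor of `∑_{i ∈ I} L_i`, `L_i` generated by the elements of `C i`. -/
def adj (C : Fin r → Set F) (I : Finset (Fin r)) (v : DivVal b F) : ℤ := - ∑ i ∈ I, cmin v (C i)

end Adj

/-! ### nondegenerate systems over a smooth `B` -/

/-- `B` is normal and smooth of dimension `b`: the cotangent spaces have the dimension `b`. -/
structure SmoothB (b : ℕ) (B : ProjModel F) : Prop where
  dim : Algebra.trdeg ℂ F = (b : Cardinal)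
  normal : ∀ j (a : F), IsIntegral (B.ring j) a → a ∈ B.ring j
  smooth : ∀ j (m : Ideal (B.ring j)), m.IsMaximal → ∃ y : Fin b → B.ring j,
    m = Ideal.span (Set.range y) ⊔ m ^ 2

/-- The `g i` are local equations near the closed point `m` of `B`: `f_i = u g_i`, and not all
coefficients of `g_i` vanish at `m`. -/
def IsLocEq (B : ProjModel F) (f : Fin r → LR F n) (j : Fin (B.N + 1)) (m : Ideal (B.ring j))
    (g : Fin r → LR (B.ring j) n) : Prop :=
  ∀ i, (∃ u : F, u ≠ 0 ∧ ∀ a, (f i).coeff a = u * ((g i).coeff a : F)) ∧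
    ∃ a, (g i).coeff a ∉ m

/-- The initial forms of the local equations define at every closed point `M` of `B × T` over `m` the
empty set or a smooth scheme of codimension `r`. -/
def NondegAt (B : ProjModel F) (f : Fin r → LR F n) (ν : Fin n → ℤ) (j : Fin (B.N + 1))
    (m : Ideal (B.ring j)) : Prop :=
  ∃ g : Fin r → LR (B.ring j) n, IsLocEq B f j m g ∧
    ∀ M : Ideal (LR (B.ring j) n), M.IsMaximal → M.comap (algebraMap (B.ring j) _) = m →
      (∀ i, rinit (g i) ν ∈ M) → ∀ t : Fin r → ℂ, ∑ i, t i • rinit (g i) ν ∈ M ^ 2 → t = 0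

/-- `K` is the function field of a component `Z` of the nondegenerate complete intersection
`f_1 = … = f_r = 0` in `B × (ℂ^*)^n`, `Z` dominates `B`, and `x` are the coordinates of its generic
point. -/
structure IsRNCI (B : ProjModel F) (b e : ℕ) (f : Fin r → LR F n) (x : Fin n → K) : Prop where
  dim_eq : n = r + e
  pos : 0 < b + e
  f_ne : ∀ i, f i ≠ 0
  ne : ∀ j, x j ≠ 0
  gen : IntermediateField.adjoin F (Set.range x) = ⊤
  smooth : SmoothB b B
  dim : Algebra.trdeg ℂ K = ((b + e : ℕ) : Cardinal)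
  zero : ∀ i, rev x (f i) = 0
  nondeg : ∀ (ν : Fin n → ℤ) j (m : Ideal (B.ring j)), m.IsMaximal → NondegAt B f ν j m

/-! ### the main statements -/

/-- RSYS: nondegenerate systems satisfy the abstract conditions. -/
def S_RSYS : Prop := ∀ {F K : Type} [Field F] [Field K] [Algebra ℂ F] [Algebra ℂ K] [Algebra F K]
  [IsScalarTower ℂ F K] {b e n r : ℕ} (B : ProjModel F) (f : Fin r → LR F n) (x : Fin n → K),
  IsRNCI B b e f x → ∃ (y0 : Fin b → F) (β : DivVal (b + e) K → ℤ),
    BaseData B b (b + e) K 1 y0 β ∧ RSys B e 1 y0 β f x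

/-- RLOG: the residue form. -/
def S_RLOG : Prop := ∀ {F K : Type} [Field F] [Field K] [Algebra ℂ F] [Algebra ℂ K] [Algebra F K]
  [IsScalarTower ℂ F K] {b e n r : ℕ} (B : ProjModel F) (κ : ℕ) (y0 : Fin b → F)
  (β : DivVal (b + e) K → ℤ) (f : Fin r → LR F n) (x : Fin n → K), 0 < b + e →
  Algebra.trdeg ℂ K = ((b + e : ℕ) : Cardinal) → BaseData B b (b + e) K κ y0 β →
  RSys B e κ y0 β f x → ∃ ω : Forms (b + e) K, RLog B κ β f x ω

/-- The coordinates of the generic point of `Z` in a torus. -/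
def xh (B : ProjModel F) (x : Fin n → K) : Fin (B.N + n) → K :=
  Fin.append (fun j : Fin B.N => algebraMap F K (B.s j.succ / B.s 0)) x

/-- The exponent of `(s_j / s_0) x^a`. -/
def eh {N : ℕ} (j : Fin (N + 1)) (a : Fin n → ℤ) : Fin (N + n) → ℤ :=
  Fin.append (Fin.cases (0 : Fin N → ℤ) (fun l => Pi.single l 1) j) a

/-- The exponents of the monomials `(s_j / s_0) x^a`, `a ∈ A`. -/
def Ah (N : ℕ) (A : Finset (Fin n → ℤ)) : Finset (Fin (N + n) → ℤ) :=
  (Finset.univ ×ˢ A).image fun p : Fin (N + 1) × (Fin n → ℤ) => eh p.1 p.2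

/-- RKEY: the discrepancies of the projective model. -/
def S_RKEY : Prop := ∀ {F K : Type} [Field F] [Field K] [Algebra ℂ F] [Algebra ℂ K] [Algebra F K]
  [IsScalarTower ℂ F K] {e' n r : ℕ} (B : ProjModel F) (κ : ℕ) (β : DivVal e' K → ℤ)
  (f : Fin r → LR F n) (x : Fin n → K), 0 < e' → Algebra.trdeg ℂ K = (e' : Cardinal) → 0 < κ →
  (∀ j, x j ≠ 0) → (∀ j (a : F), IsIntegral (B.ring j) a → a ∈ B.ring j) →
  ∀ (D : Fan fun i => supp0 (f i)) (ω : Forms e' K) (Y : ProjModel K), RLog B κ β f x ω →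
  IsModel e' (xh B x) (Ah B.N D.A) Y → ∀ i (m : Ideal (Y.ring i)), m.IsMaximal →
  ∃ (j : Fin (B.N + 1)) (mB : Ideal (B.ring j)) (a : Fin n → ℤ), mB.IsMaximal ∧ a ∈ D.A ∧
    (∀ c : B.ring j, ∃ p q : Y.ring i, q ∉ m ∧ algebraMap F K c * q = p ∧ (p ∈ m ↔ c ∈ mB)) ∧
    ∀ (v : DivVal e' K) (P : Ideal (Y.ring i)), HasCentre (Y.ring i) v P → P ≤ m →
      Through B v j mB ∧ MinAt D.A a (wt x v) ∧
      0 ≤ D.k * (κ * v.formOrd ω - bo κ β (fun i => coefs (f i)) v) +
        κ * pair (wt x v) (D.u a) ∧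
      (D.k * (κ * v.formOrd ω - bo κ β (fun i => coefs (f i)) v) +
        κ * pair (wt x v) (D.u a) = 0 ↔ P.height = 1)

end

end RMM
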