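import Pool.Agent.RMM.St

/-!
# Relative minimal models: assembly
-/

set_option autoImplicit false

namespace RMM

open MldGeo MMCI

/-- The conclusion of the theorem. -/
def Concl (e' b : ℕ) {F : Type} (K : Type) [Field F] [Field K] [Algebra ℂ F] [Algebra ℂ K] {n r : ℕ}
    (B : ProjModel F) (f : Fin r → LR F n) : Prop :=
  ∃ Y : ProjModel K, Y.Terminal e' ∧
    ((Y.Nef e' ∧ ((∀ I : Finset (Fin r),
        (I = Finset.univ ∨ FineEmpty fun i => supp0 (f i)) →
          SemD B (adj (b := b) (fun i => coefs (f i)) I)) → Y.Semiample e')) ∨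
      (Y.MoriFibre e' ∧ FineEmpty fun i => supp0 (f i)))

/-- The theorem for the abstract systems `RSys`, from the main statements. -/
theorem assembleSys (main : S_RMAIN) (faa : S_RFAA) {F K : Type} [Field F] [Field K]
    [Algebra ℂ F] [Algebra ℂ K] [Algebra F K] [IsScalarTower ℂ F K] {b e n r : ℕ}
    (B : ProjModel F) (κ : ℕ) (y0 : Fin b → F) (β : DivVal (b + e) K → ℤ)
    (f : Fin r → LR F n) (x : Fin n → K) (h0 : 0 < b + e)
    (hd : Algebra.trdeg ℂ K = ((b + e : ℕ) : Cardinal)) (hB : BaseData B b (b + e) K κ y0 β)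
    (hS : RSys B e κ y0 β f x)
    (hN : ∀ I : Finset (Fin r), (I = Finset.univ ∨ FineEmpty fun i => supp0 (f i)) →
      NefD B (adj (b := b) (fun i => coefs (f i)) I)) : Concl (b + e) b K B f := by
  by_cases hF : FineEmpty fun i => supp0 (f i)
  · obtain ⟨Y, h1, h2⟩ := main B κ y0 β f x h0 hd hB hS fun I => hN I (Or.inr hF)
    refine ⟨Y, h1, ?_⟩
    rcases h2 with ⟨h3, h4⟩ | h3
    · exact Or.inl ⟨h3, fun hs => h4 fun I => hs I (Or.inr hF)⟩
    · exact Or.inr ⟨h3, hF⟩
  · obtain ⟨Y, h1, h2, h3⟩ := faa B κ y0 β f x h0 hd hB hS hF (hN _ (Or.inl rfl))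
    exact ⟨Y, h1, Or.inl ⟨h2, fun hs => h3 (hs _ (Or.inl rfl))⟩⟩

/-- The theorem for a smooth `B`, from the main statements. -/
theorem assemble (sys : S_RSYS) (main : S_RMAIN) (faa : S_RFAA) {F K : Type} [Field F] [Field K]
    [Algebra ℂ F] [Algebra ℂ K] [Algebra F K] [IsScalarTower ℂ F K] {b e n r : ℕ}
    (B : ProjModel F) (f : Fin r → LR F n) (x : Fin n → K) (h : IsRNCI B b e f x)
    (hN : ∀ I : Finset (Fin r), (I = Finset.univ ∨ FineEmpty fun i => supp0 (f i)) →
      NefD B (adj (b := b) (fun i => coefs (f i)) I)) : Concl (b + e) b K B f := by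
  obtain ⟨y0, β, hB, hS⟩ := sys B f x h
  exact assembleSys main faa B 1 y0 β f x h.pos h.dim hB hS hN

end RMM
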