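import Pool.Agent.RMM.Defs

/-!
# Relative minimal models: the main statements of the blocks C, D, RED and MAIN
-/

set_option autoImplicit false

namespace RMM

open MldGeo MMCI

noncomputable section

/-- RTER: the model has terminal singularities. -/
def S_RTER : Prop := ∀ {F K : Type} [Field F] [Field K] [Algebra ℂ F] [Algebra ℂ K] [Algebra F K]
  [IsScalarTower ℂ F K] {e' n r : ℕ} (B : ProjModel F) (κ : ℕ) (b : ℕ) (y0 : Fin b → F)
  (β : DivVal e' K → ℤ) (f : Fin r → LR F n) (x : Fin n → K), 0 < e' →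
  Algebra.trdeg ℂ K = (e' : Cardinal) → (∀ j, x j ≠ 0) → (∀ i, Bpf B (coefs (f i))) →
  BaseData B b e' K κ y0 β →
  ∀ (D : Fan fun i => supp0 (f i)) (ω : Forms e' K) (Y : ProjModel K), RLog B κ β f x ω →
  IsModel e' (xh B x) (Ah B.N D.A) Y → Y.Terminal e'

/-- RSEM: case (a), semiample. -/
def S_RSEM : Prop := ∀ {F K : Type} [Field F] [Field K] [Algebra ℂ F] [Algebra ℂ K] [Algebra F K]
  [IsScalarTower ℂ F K] {e' n r : ℕ} (B : ProjModel F) (κ : ℕ) (b : ℕ) (y0 : Fin b → F)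
  (β : DivVal e' K → ℤ) (f : Fin r → LR F n) (x : Fin n → K), 0 < e' →
  Algebra.trdeg ℂ K = (e' : Cardinal) → (∀ j, x j ≠ 0) → (∀ i, Bpf B (coefs (f i))) →
  BaseData B b e' K κ y0 β → SemD B (adj (b := b) (fun i => coefs (f i)) Finset.univ) →
  ∀ (D : FanA fun i => supp0 (f i)) (ω : Forms e' K) (Y : ProjModel K), RLog B κ β f x ω →
  IsModel e' (xh B x) (Ah B.N D.A) Y → Y.Semiample e'

/-- RNEF: case (a), nef. -/
def S_RNEF : Prop := ∀ {F K : Type} [Field F] [Field K] [Algebra ℂ F] [Algebra ℂ K] [Algebra F K]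
  [IsScalarTower ℂ F K] {e' n r : ℕ} (B : ProjModel F) (κ : ℕ) (b : ℕ) (y0 : Fin b → F)
  (β : DivVal e' K → ℤ) (f : Fin r → LR F n) (x : Fin n → K), 0 < e' →
  Algebra.trdeg ℂ K = (e' : Cardinal) → (∀ j, x j ≠ 0) → (∀ i, Bpf B (coefs (f i))) →
  BaseData B b e' K κ y0 β → NefD B (adj (b := b) (fun i => coefs (f i)) Finset.univ) →
  ∀ (D : FanA fun i => supp0 (f i)) (ω : Forms e' K) (Y : ProjModel K), RLog B κ β f x ω →
  IsModel e' (xh B x) (Ah B.N D.A) Y → Y.Nef e'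

/-- The field generated by `F` and the monomials `x^(b a - b a')`. -/
def Fb {F K : Type} [Field F] [Field K] [Algebra ℂ F] [Algebra ℂ K] [Algebra F K] {n : ℕ}
    (x : Fin n → K) (A : Finset (Fin n → ℤ)) (b : (Fin n → ℤ) → (Fin n → ℤ)) :
    IntermediateField ℂ K :=
  IntermediateField.adjoin ℂ (Set.range (algebraMap F K) ∪
    {z | ∃ a ∈ A, ∃ a' ∈ A, z = mon x (b a - b a')})

/-- RFIB: the Mori fibre space. -/
def S_RFIB : Prop := ∀ {F K : Type} [Field F] [Field K] [Algebra ℂ F] [Algebra ℂ K] [Algebra F K]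
  [IsScalarTower ℂ F K] {e' n r : ℕ} (B : ProjModel F) (κ : ℕ) (b : ℕ) (y0 : Fin b → F)
  (β : DivVal e' K → ℤ) (f : Fin r → LR F n) (x : Fin n → K), 0 < e' →
  Algebra.trdeg ℂ K = (e' : Cardinal) → (∀ j, x j ≠ 0) → (∀ i, Bpf B (coefs (f i))) →
  BaseData B b e' K κ y0 β →
  ∀ (D : FanB fun i => supp0 (f i)) (ω : Forms e' K) (Y : ProjModel K), RLog B κ β f x ω →
  IsModel e' (xh B x) (Ah B.N D.A) Y →
  Algebra.trdeg ℂ (Fb (F := F) x D.A D.b) < (e' : Cardinal) → Y.MoriFibre e'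

/-- RRED: the reduction of the number of variables. -/
def S_RRED : Prop := ∀ {F K : Type} [Field F] [Field K] [Algebra ℂ F] [Algebra ℂ K] [Algebra F K]
  [IsScalarTower ℂ F K] {b e n r : ℕ} (B : ProjModel F) (κ : ℕ) (y0 : Fin b → F)
  (β : DivVal (b + e) K → ℤ) (f : Fin r → LR F n) (x : Fin n → K), 0 < b + e →
  Algebra.trdeg ℂ K = ((b + e : ℕ) : Cardinal) → BaseData B b (b + e) K κ y0 β →
  RSys B e κ y0 β f x → ∀ D : FanB fun i => supp0 (f i),
  Algebra.trdeg ℂ (Fb (F := F) x D.A D.b) = ((b + e : ℕ) : Cardinal) →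
  ∃ (n' r' : ℕ) (f' : Fin r' → LR F n') (x' : Fin n' → K) (ρ : Fin r' → Fin r), n' < n ∧
    Function.Injective ρ ∧ RSys B e κ y0 β f' x' ∧ ∀ i, coefs (f' i) = coefs (f (ρ i))

/-- The conclusion for one field: (a) or (b). -/
def MMR (e' : ℕ) (K : Type) [Field K] [Algebra ℂ K] (S : Prop) : Prop :=
  ∃ Y : ProjModel K, Y.Terminal e' ∧ ((Y.Nef e' ∧ (S → Y.Semiample e')) ∨ Y.MoriFibre e')

/-- RMAIN: by strong induction on `n`. -/
def S_RMAIN : Prop := ∀ {F K : Type} [Field F] [Field K] [Algebra ℂ F] [Algebra ℂ K] [Algebra F K]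
  [IsScalarTower ℂ F K] {b e n r : ℕ} (B : ProjModel F) (κ : ℕ) (y0 : Fin b → F)
  (β : DivVal (b + e) K → ℤ) (f : Fin r → LR F n) (x : Fin n → K), 0 < b + e →
  Algebra.trdeg ℂ K = ((b + e : ℕ) : Cardinal) → BaseData B b (b + e) K κ y0 β →
  RSys B e κ y0 β f x → (∀ I : Finset (Fin r), NefD B (adj (b := b) (fun i => coefs (f i)) I)) →
  MMR (b + e) K (∀ I : Finset (Fin r), SemD B (adj (b := b) (fun i => coefs (f i)) I))

/-- RFAA: the case of a nonempty Fine interior. -/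
def S_RFAA : Prop := ∀ {F K : Type} [Field F] [Field K] [Algebra ℂ F] [Algebra ℂ K] [Algebra F K]
  [IsScalarTower ℂ F K] {b e n r : ℕ} (B : ProjModel F) (κ : ℕ) (y0 : Fin b → F)
  (β : DivVal (b + e) K → ℤ) (f : Fin r → LR F n) (x : Fin n → K), 0 < b + e →
  Algebra.trdeg ℂ K = ((b + e : ℕ) : Cardinal) → BaseData B b (b + e) K κ y0 β →
  RSys B e κ y0 β f x → ¬ FineEmpty (fun i => supp0 (f i)) →
  NefD B (adj (b := b) (fun i => coefs (f i)) Finset.univ) →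
  ∃ Y : ProjModel K, Y.Terminal (b + e) ∧ Y.Nef (b + e) ∧
    (SemD B (adj (b := b) (fun i => coefs (f i)) Finset.univ) → Y.Semiample (b + e))

end

end RMM
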