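import Pool.Agent.RMM.StE
import Pool.Agent.RMM.St

/-!
# Relative minimal models, stage R3: a base `B` with terminal singularities

The base is any projective variety with terminal singularities. At a closed point `M` of `B × T` over
a singular point `m` of `B` the initial forms of the local equations have to be smooth over `B` (their
gradients in the directions of the torus are independent modulo `M`).

Let `v` be a divisorial valuation of `K`. Restricted to `F` it is trivial or `c w0` with a divisorial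
valuation `w0` of `F` (RVL). If the closed point chosen for `v` is of the smooth type then `Loc`
exists (block L). Otherwise there is a unit minor of the gradients in the directions of the torus
(XUnit), and (i) `v` is trivial on `F`: `Loc` with `A = F` (LTR); (ii) `w0` is a prime divisor of `B`:
`Loc` with `A = O_{w0}` and a frame of `w0` as coordinates (LPD); (iii) otherwise the second
alternative of `RSys.nd` (RNB, RDQ).
-/

set_option autoImplicit false

namespace RMM

open MldGeo MMCI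

noncomputable section

/-! ### the class -/

/-- `x_k ∂f/∂x_k` -/
def xder {R : Type} [CommRing R] {n : ℕ} (k : Fin n) (f : LR R n) : LR R n :=
  f.coeff.sum fun m c => AddMonoidAlgebra.single m ((m k : R) * c)

variable {F K : Type} [Field F] [Field K] [Algebra ℂ F] [Algebra ℂ K] [Algebra F K]
  [IsScalarTower ℂ F K] {b e e' n r N : ℕ}

/-- The initial forms of the local equations define at every closed point `M` of `B × T` over `m` a
scheme which is smooth of codimension `r`, `B` being smooth at `m`, or smooth over `B`. -/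
def NondegT (b : ℕ) (B : ProjModel F) (f : Fin r → LR F n) (ν : Fin n → ℤ) (j : Fin (B.N + 1))
    (m : Ideal (B.ring j)) : Prop :=
  ∃ g : Fin r → LR (B.ring j) n, IsLocEq B f j m g ∧
    ∀ M : Ideal (LR (B.ring j) n), M.IsMaximal → M.comap (algebraMap (B.ring j) _) = m →
      (∀ i, rinit (g i) ν ∈ M) →
      ((∃ y : Fin b → B.ring j, m = Ideal.span (Set.range y) ⊔ m ^ 2) ∧
        ∀ t : Fin r → ℂ, ∑ i, t i • rinit (g i) ν ∈ M ^ 2 → t = 0) ∨
      ∀ t : Fin r → ℂ, (∀ k, ∑ i, t i • xder k (rinit (g i) ν) ∈ M) → t = 0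

/-- As `IsRNCI`, for a base with terminal singularities. -/
structure IsRTB (B : ProjModel F) (b e : ℕ) (f : Fin r → LR F n) (x : Fin n → K) : Prop where
  dim_eq : n = r + e
  pos : 0 < b + e
  f_ne : ∀ i, f i ≠ 0
  ne : ∀ j, x j ≠ 0
  gen : IntermediateField.adjoin F (Set.range x) = ⊤
  dimB : Algebra.trdeg ℂ F = (b : Cardinal)
  terminal : B.Terminal b
  dim : Algebra.trdeg ℂ K = ((b + e : ℕ) : Cardinal)
  zero : ∀ i, rev x (f i) = 0
  nondeg : ∀ (ν : Fin n → ℤ) j (m : Ideal (B.ring j)), m.IsMaximal → NondegT b B f ν j m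

/-- A minor of the gradients in the directions of the torus of least order. -/
def XUnit (e : ℕ) (f : Fin r → LR F n) (x : Fin n → K) (v : DivVal e' K) : Prop :=
  ∃ σ : Fin r ⊕ Fin e ≃ Fin n, rminor f x σ ≠ 0 ∧
    v.ord (rminor f x σ) = rpsi f (wt x v) + ∑ i, cmin v (coefs (f i))

/-- RSYS3: the abstract conditions. -/
def S_RSYS3 : Prop := ∀ {F K : Type} [Field F] [Field K] [Algebra ℂ F] [Algebra ℂ K] [Algebra F K]
  [IsScalarTower ℂ F K] {b e n r : ℕ} (B : ProjModel F) (f : Fin r → LR F n) (x : Fin n → K),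
  IsRTB B b e f x → ∃ (κ : ℕ) (y0 : Fin b → F) (β : DivVal (b + e) K → ℤ),
    BaseData B b (b + e) K κ y0 β ∧ RSys B e κ y0 β f x

/-! ### valuations restricted to `F` -/

/-- RVL: the restriction of a divisorial valuation. Proof. Suppose that `v` is not trivial on `F`; the
values on `F` are `c ℤ`, `c > 0`; `w0 = v / c`. Let `κ ⊆ κ(v)` be the residue fields of `w0` and `v`
(over `ℂ`). If `t_1, …, t_s ∈ O_{w0}` have residues which are a transcendence basis of `κ` over `ℂ`,
there are `u_1, …, u_k ∈ O_v` such that the residues of all of them are a transcendence basis of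
`κ(v)`, `s + k = e' - 1` (`v.res`; matroid of algebraic independence, see `MMCI/EXR.lean`). The
`u_i` are algebraically independent over `F`: if `P(u) = 0`, `P ≠ 0` over `F`, divide by a coefficient
of least value; the reduction is a nonzero polynomial over `κ` with the zero `(residues of u)`, but
these are algebraically independent over `κ`. So `k ≤ e' - b` and `s ≥ b - 1`. -/
def S_RVL : Prop := ∀ {F K : Type} [Field F] [Field K] [Algebra ℂ F] [Algebra ℂ K] [Algebra F K]
  [IsScalarTower ℂ F K] {b e' : ℕ}, Algebra.trdeg ℂ F = (b : Cardinal) →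
  Algebra.trdeg ℂ K = (e' : Cardinal) → 0 < e' → ∀ v : DivVal e' K,
  (∀ a : F, a ≠ 0 → v.ord (algebraMap F K a) = 0) ∨
  (0 < b ∧ ∃ (w0 : DivVal b F) (c : ℕ), 0 < c ∧ ∀ a : F, v.ord (algebraMap F K a) = c * w0.ord a)

/-- DLB: dual derivations. Let `y_1, …, y_b` be nonzero with `dlogs y ≠ 0`. Proof. Then the `dlog y_l`,
hence the `D y_l`, are a basis of `Ω` (`finrank = b`, `MMCI.BAS.finrank_eq`; `ιMulti` of dependent
vectors is zero), `d_l = ` the coordinate `l` of `D`. -/
def S_DLB : Prop := ∀ {F : Type} [Field F] [Algebra ℂ F] {b : ℕ},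
  Algebra.trdeg ℂ F = (b : Cardinal) → ∀ y : Fin b → F, (∀ l, y l ≠ 0) → dlogs y ≠ 0 →
  ∃ d : Fin b → Derivation ℂ F F, (∀ l k, d l (y k) = if l = k then 1 else 0) ∧
    ∀ a : F, KaehlerDifferential.D ℂ F a = ∑ l, d l a • KaehlerDifferential.D ℂ F (y l)

/-- FRC0: derivations dual to a frame preserve the valuation ring. Let `(t, u)` be a frame of `w0`,
`y = (t + 1, u_1 + c_1, …)` with constants `c_l` (0 or 1) such that all `y_l` have order zero. Proof.
`u_l` has order zero (`ResIndep`), so `c_l = 0` is possible: `y = (t + 1, u)`. `dlogs y ≠ 0` (it is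
`t (t + 1)⁻¹ (∏ u_l)⁻¹ • frameForm t u`), `dlogs y` has `formOrd` zero; for `a` of order `≥ 0` the
coefficients of `D a` with respect to `D t, D u_l` have order `≥ 0`: by `COE` (`cCOE`)
`dlog a = c_0 dlog t + ∑ c_l D u_l`, `c ∈ O_v`, `c_0 ≡ ord a` modulo the maximal ideal, so
`D a = (a c_0 / t) D t + …`, and `a c_0 / t` has order `≥ 0` if `ord a > 0`, and if `ord a = 0` then
`c_0` has order `≥ 1`. -/
def S_FRC0 : Prop := ∀ {F : Type} [Field F] [Algebra ℂ F] {b : ℕ},
  Algebra.trdeg ℂ F = (b : Cardinal) → 0 < b → ∀ w0 : DivVal b F,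
  ∃ (y : Fin b → F) (d : Fin b → Derivation ℂ F F), (∀ l, y l ≠ 0 ∧ w0.ord (y l) = 0) ∧
    dlogs y ≠ 0 ∧ w0.formOrd (dlogs y) = 0 ∧
    (∀ l (a : F), w0.Ge 0 a → w0.Ge 0 (d l a)) ∧
    (∀ a : F, KaehlerDifferential.D ℂ F a = ∑ l, d l a • KaehlerDifferential.D ℂ F (y l)) ∧
    ∃ (t : F) (u : Fin (b - 1) → F), t ≠ 0 ∧ w0.ord t = 1 ∧ ResIndep w0 u

/-! ### the pieces of `Loc` -/

/-- EXM: from a minor of the `x`-gradients to a minor of the extended gradients. Proof.
`σ' (inl i) = Fin.natAdd b (σ (inl i))`, `σ' (inr (castAdd l)) = castAdd l`, `σ' (inr (natAdd l)) =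
natAdd b (σ (inr l))` (`finSumFinEquiv`); the rows are multiplied by `(u i)⁻¹`. -/
def S_EXM : Prop := ∀ {F K : Type} [Field F] [Field K] [Algebra ℂ F] [Algebra ℂ K] [Algebra F K]
  [IsScalarTower ℂ F K] {b e n r : ℕ} (y : Fin b → F) (d : Fin b → Derivation ℂ F F)
  (f : Fin r → LR F n) (x : Fin n → K) (u : Fin r → F) (σ : Fin r ⊕ Fin e ≃ Fin n),
  ∃ σ' : Fin r ⊕ Fin (b + e) ≃ Fin (b + n),
    (Matrix.of fun i j : Fin r => gr y d ((u i)⁻¹ • f i) x (σ' (Sum.inl j))).det =
      algebraMap F K (∏ i, u i)⁻¹ * rminor f x σ ∧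
    rest (zz y x) σ' = zz y (rest x σ)

/-- LTR: `v` is trivial on `F`. Proof. `InO` holds for all `a`; `y = y0`, `d` from `DLB`, `h = 1`,
`β v = 0` (`BaseData.eqn`, `beta`; there is a closed point through the centre of `v`), `u i` any nonzero
coefficient, `EXM`. -/
def S_LTR : Prop := ∀ {F K : Type} [Field F] [Field K] [Algebra ℂ F] [Algebra ℂ K] [Algebra F K]
  [IsScalarTower ℂ F K] {b e n r : ℕ} (B : ProjModel F) (κ : ℕ) (y0 : Fin b → F)
  (β : DivVal (b + e) K → ℤ) (f : Fin r → LR F n) (x : Fin n → K),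
  BaseData B b (b + e) K κ y0 β → (∀ i, f i ≠ 0) → ∀ v : DivVal (b + e) K, XUnit e f x v →
  (∀ a : F, a ≠ 0 → v.ord (algebraMap F K a) = 0) → Nonempty (Loc B e κ y0 β f x v)

/-- LPD: `v` is `c w0` on `F`, `w0` is a prime divisor of `B`. Proof. The local ring of `B` at the
centre of `v` is the valuation ring of `w0` (`Stmt_CRT`, `Stmt_FRC`): `InO B v a ↔ w0.Ge 0 a`;
`y, d` from `FRC0`; `dlogs y0 = h • dlogs y` (proportional, `MMCI.SCA`), and for a local equation `a` at a
closed point through the centre `β v = v.ord a = c w0.ord a = c κ w0.formOrd (dlogs y0) =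
c κ w0.ord h = κ v.ord h`; `u i` a coefficient of least value; `EXM`. -/
def S_LPD : Prop := ∀ {F K : Type} [Field F] [Field K] [Algebra ℂ F] [Algebra ℂ K] [Algebra F K]
  [IsScalarTower ℂ F K] {b e n r : ℕ} (B : ProjModel F) (κ : ℕ) (y0 : Fin b → F)
  (β : DivVal (b + e) K → ℤ) (f : Fin r → LR F n) (x : Fin n → K),
  BaseData B b (b + e) K κ y0 β → (∀ i, f i ≠ 0) → ∀ v : DivVal (b + e) K, XUnit e f x v →
  ∀ (w0 : DivVal b F) (c : ℕ), 0 < b → 0 < c →
  (∀ a : F, v.ord (algebraMap F K a) = c * w0.ord a) →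
  (∃ (j : Fin (B.N + 1)) (P : Ideal (B.ring j)), IsPrimeDivisor (B.ring j) w0 P) →
  Nonempty (Loc B e κ y0 β f x v)

/-- ABN2: as `S_ABND`, for two vectors over the valuation ring, independent modulo the maximal ideal,
and orthogonality modulo the maximal ideal. Proof. As `K_BND.lean`. -/
def S_ABN2 : Prop := ∀ {m N r : ℕ} {K : Type} [Field K] [Algebra ℂ K] (z : Fin N → K)
  (G : Fin r → Fin N → K), Rel (m + 1) z G → ∀ (v : DivVal (m + 1) K) (ψ : Fin r → ℤ)
  (σ : Fin r ⊕ Fin (m + 1) ≃ Fin N), GUnit G v ψ σ →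
  ∀ ν : Fin 2 → Fin N → K, (∀ j c, v.Ge 0 (ν j c)) → IndepMod v ν →
    (∀ i j, v.Ge (ψ i + 1) (∑ c, ν j c * G i c)) →
    ¬ ∃ (a : Fin m → K) (ρ : Fin m → Fin N → K), (∀ l, Expr z v (a l) (ρ l)) ∧
      (∀ l j, v.Ge 1 (∑ c, ν j c * ρ l c)) ∧ ResIndep v a

/-- LAM: a derivation which vanishes on the residue field of the centre. `w0` is a divisorial
valuation of `F` with a centre on the chart `j` of `B` which is not a prime divisor, `(t, u)` a frame
of `w0` and `d_0, d_l` the dual derivations. Then there are `λ_l ∈ O_{w0}`, not all in the maximal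
ideal, with `∑ λ_l d_l(a) ∈ 𝔪` for all `a` in the local ring of the centre. Proof. By `HT1`
(`cHT1`) there are no `b - 1` elements of `B.ring j` with independent residues, so the residue field
`κ(P)` of the centre has transcendence degree `≤ b - 2`, and there is a derivation `≠ 0` of the
residue field `κ(w0)`, of transcendence degree `b - 1`, over `κ(P)`; take lifts of its values at the
residues of the `u_l`; the residue of `d_l(a)`, `a ∈ O_{w0}`, is the derivative of the residue
with respect to the transcendence basis given by the residues of the `u_l`. -/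
def S_LAM : Prop := ∀ {F : Type} [Field F] [Algebra ℂ F] {m : ℕ},
  Algebra.trdeg ℂ F = ((m + 1 : ℕ) : Cardinal) → ∀ (B : ProjModel F) (j : Fin (B.N + 1)),
  (∀ a : F, IsIntegral (B.ring j) a → a ∈ B.ring j) → ∀ w0 : DivVal (m + 1) F,
  (∀ c ∈ B.ring j, w0.Ge 0 c) → (¬ ∃ P : Ideal (B.ring j), IsPrimeDivisor (B.ring j) w0 P) →
  ∀ (t : F) (u : Fin m → F), Frame w0 t u →
  ∃ L : Fin m → F, (∀ l, w0.Ge 0 (L l)) ∧ (∃ l, ¬ w0.Ge 1 (L l)) ∧
    ∀ a : F, (∃ p ∈ B.ring j, ∃ q ∈ B.ring j, q ≠ 0 ∧ w0.ord q = 0 ∧ a * q = p) →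
    ∀ c : Fin (m + 1) → F, KaehlerDifferential.D ℂ F a = c 0 • KaehlerDifferential.D ℂ F t +
      ∑ l : Fin m, c l.succ • KaehlerDifferential.D ℂ F (u l) →
      w0.Ge 1 (∑ l, L l * c l.succ)

/-- RNB: `v` is `c w0` on `F`, `w0` is not a prime divisor of `B`: not `BIG`. Proof. `ABN2` for
`z = (t, u, x)`, `(t, u)` a frame of `w0`, the extended gradients with respect to the logarithmic
basis `dlog t, dlog u_l` (`G_i = (t ∂_t g_i, u_l ∂_l g_i, grad g_i)`), the minor of `XUnit` (`EXM` with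
`y = (t, u)`), `ν_0 = (c, 0, w)` (the orders of `z`: `c = v.ord t`), `ν_1 = (0, L_l / u_l, 0)` from
`LAM`. The elements `a_l x^(q_l)` of `BIG` have `ρ_l = (t ∂_t a_l / a_l, u ∂ a_l / a_l, q_l)`; `t ∂_t`
maps `O_{w0}` to its maximal ideal. `∑_c ν_0 c G_i c ∈ 𝔪^(ψ_i + 1)`: the terms `t ∂_t` are in
`𝔪^(ψ_i + 1)`, and `∑ w_k grad_k g_i` by `g_i(x) = 0` as in `MON`. `∑ ν_1 G_i`: `∑ L_l ∂_l` maps the
coefficients of `g_i`, which are in the local ring of the centre, to `𝔪_{w0}`. -/
def S_RNB : Prop := ∀ {F K : Type} [Field F] [Field K] [Algebra ℂ F] [Algebra ℂ K] [Algebra F K]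
  [IsScalarTower ℂ F K] {b e n r : ℕ} (B : ProjModel F) (f : Fin r → LR F n) (x : Fin n → K),
  Algebra.trdeg ℂ F = (b : Cardinal) → Algebra.trdeg ℂ K = ((b + e : ℕ) : Cardinal) → 0 < b →
  (∀ j (a : F), IsIntegral (B.ring j) a → a ∈ B.ring j) → RReg e f x →
  (∀ i, Bpf B (coefs (f i))) → ∀ v : DivVal (b + e) K, XUnit e f x v →
  ∀ (w0 : DivVal b F) (c : ℕ), 0 < c → (∀ a : F, v.ord (algebraMap F K a) = c * w0.ord a) →
  (¬ ∃ (j : Fin (B.N + 1)) (P : Ideal (B.ring j)), IsPrimeDivisor (B.ring j) w0 P) →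
  ¬ BIG B x v

/-- RDQ: the discrepancy. Proof. Let `a` be a local equation of `κ K_B` at a closed point `m` through
the centre, `β v = c w0.ord a`. By `Terminal` (equation `g` of `k K_B`, `a^k / g^κ` is a unit at `m` by
`LCM`) `κ w0.formOrd (dlogs y0) - w0.ord a ≥ 1`. Let `σ` be as in `XUnit`. With a frame `(t, u)` of
`w0`: `dlogs y0 = g' • dlogs (t, u)`, `w0.ord g' = w0.logOrd (dlogs y0) = w0.formOrd (dlogs y0) + 1`,
`dlogs (zz y0 (rest x σ)) = g' • dlogs (zz (t, u) (rest x σ))` (the matrix of the `dlog y0_l` in the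
`dlog (t, u)` has the determinant `g'`), and the logarithmic form has `logOrd ≥ 0` (`cFDL`). So
`v.logOrd (dlogs (zz y0 (rest x σ))) ≥ c (w0.formOrd (dlogs y0) + 1)`, and
`v.logOrd ω = v.logOrd (dlogs …) - v.ord (rminor f x σ)`. Hence `κ v.logOrd ω - bo ≥
c (κ w0.formOrd (dlogs y0) - w0.ord a) + c κ - κ rpsi ≥ 1 + κ - κ rpsi`. -/
def S_RDQ : Prop := ∀ {F K : Type} [Field F] [Field K] [Algebra ℂ F] [Algebra ℂ K] [Algebra F K]
  [IsScalarTower ℂ F K] {b e n r : ℕ} (B : ProjModel F) (κ : ℕ) (y0 : Fin b → F)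
  (β : DivVal (b + e) K → ℤ) (f : Fin r → LR F n) (x : Fin n → K),
  BaseData B b (b + e) K κ y0 β → Algebra.trdeg ℂ K = ((b + e : ℕ) : Cardinal) → B.Terminal b →
  (∀ j, x j ≠ 0) → ∀ v : DivVal (b + e) K, XUnit e f x v →
  ∀ (w0 : DivVal b F) (c : ℕ), 0 < b → 0 < c →
  (∀ a : F, v.ord (algebraMap F K a) = c * w0.ord a) →
  (¬ ∃ (j : Fin (B.N + 1)) (P : Ideal (B.ring j)), IsPrimeDivisor (B.ring j) w0 P) →
  ∀ ω : Forms (b + e) K, IsResR e y0 f x ω →
    (κ : ℤ) + 1 - κ * rpsi f (wt x v) ≤ κ * v.logOrd ω - bo κ β (fun i => coefs (f i)) v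

/-! ### local equations of a multiple of `K_B` -/

/-- FOF: a rational form has zeros and poles along finitely many prime divisors. Proof.
`R = B.ring j` is finitely generated (`Stmt_FRC`); choose a transcendence basis `y_l ∈ R` of `F` and
the dual derivations `d_l` (`DLB`); there is `s ∈ R`, `s ≠ 0`, with `s d_l(R) ⊆ R` (common denominator of
the values at the generators). If `v.ord s = 0` and `v` is the order along a prime divisor, then
`d_l` preserves the local ring at `P`, which is the valuation ring of `v`, and with constants `c_l`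
such that the `y_l + c_l` are units at `v`, `S_AE0b` for `N = b`, `r = 0` (`B0` = the valuation ring as a
subalgebra, `i0` from the residues: `S_AE0c`) gives `v.logOrd (dlogs (y + c)) = 1`, so
`v.formOrd (D y_1 ∧ …) = 0` and `v.formOrd ω = v.ord h`, `ω = h D y_1 ∧ …`. The prime divisors with
`v.ord s ≠ 0` or `v.ord h ≠ 0` are finite in number (minimal primes). -/
def S_FOF : Prop := ∀ {F : Type} [Field F] [Algebra ℂ F] {b : ℕ},
  Algebra.trdeg ℂ F = (b : Cardinal) → 0 < b → ∀ (B : ProjModel F) (j : Fin (B.N + 1)),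
  (∀ a : F, IsIntegral (B.ring j) a → a ∈ B.ring j) → ∀ ω : Forms b F, ω ≠ 0 → ∀ g : F, g ≠ 0 →
  ∀ k : ℕ, {P : Ideal (B.ring j) | ∃ v : DivVal b F, IsPrimeDivisor (B.ring j) v P ∧
    v.ord g ≠ k * v.formOrd ω}.Finite

/-- FSU: finitely many local equations of one multiple of `K_B`. Proof. For a closed point `m` let
`(k, g)` be the equation of `Terminal`; by `FOF` there is an `s ∉ m` which is in all prime divisors where
`g` is not an equation of `k K_B` (none of them is contained in `m`), so `g` is an equation at all `m'`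
with `s ∉ m'`. The `s` generate the unit ideal, finitely many suffice; `κ` is the product of the
finitely many `k` (for all charts), replace `g` by `g^(κ / k)`. -/
def S_FSU : Prop := ∀ {F : Type} [Field F] [Algebra ℂ F] {b : ℕ},
  Algebra.trdeg ℂ F = (b : Cardinal) → ∀ (B : ProjModel F), B.Terminal b →
  ∀ ω : Forms b F, ω ≠ 0 → ∃ (κ : ℕ) (S : Finset F), 0 < κ ∧
    ∀ j (m : Ideal (B.ring j)), m.IsMaximal → ∃ a ∈ S, a ≠ 0 ∧ IsEquation (B.ring j) ω κ m a

end

end RMM
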