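import Pool.Agent.RMM.FinalA
import Pool.Agent.RMM.StS

/-!
# Relative minimal models: assembly, a base with terminal singularities
-/

set_option autoImplicit false

namespace RMM

open MldGeo MMCI

/-- The theorem for `B` with terminal singularities, from the main statements. -/
theorem assemble3 (sys : S_RSYS3) (main : S_RMAIN) (faa : S_RFAA) {F K : Type} [Field F] [Field K]
    [Algebra ℂ F] [Algebra ℂ K] [Algebra F K] [IsScalarTower ℂ F K] {b e n r : ℕ}
    (B : ProjModel F) (f : Fin r → LR F n) (x : Fin n → K) (h : IsRTB B b e f x)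
    (hN : ∀ I : Finset (Fin r), (I = Finset.univ ∨ FineEmpty fun i => supp0 (f i)) →
      NefD B (adj (b := b) (fun i => coefs (f i)) I)) : Concl (b + e) b K B f := by
  obtain ⟨κ, y0, β, hB, hS⟩ := sys B f x h
  exact assembleSys main faa B κ y0 β f x h.pos h.dim hB hS hN

end RMM
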