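import Pool.Agent.RMM.BridgeR

/-!
# Relative minimal models: assembly of the hand-in from the main statements
-/

set_option autoImplicit false

namespace RMX

open MldX MMCI MMCX

/-- The theorem, from the main statements. -/
theorem assemble (sys : RMM.S_RSYSF) (main : RMM.S_RMAIN) (faa : RMM.S_RFAA) (adjn : RMM.S_ADJN)
    (adjs : RMM.S_ADJS) {F K : Type} [Field F] [Field K]
    [Algebra ℂ F] [Algebra ℂ K] [Algebra F K] [IsScalarTower ℂ F K] {b e n r : ℕ}
    (B : ProjModel F) (f : Fin r → LaurentR F n) (x : Fin n → K) (h : IsFamily b e B f x)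
    (hF : ∀ g : LaurentR F n, ∀ ν, minOn (RMM.supp0 g) ν = minOnR g ν)
    (hB : Nef b B ∨ (¬ FineEmptyR f ∧ AdjNef b B f)) :
    ∃ Y : ProjModel K, Terminal (b + e) Y ∧
      ((Nef (b + e) Y ∧ ((Semiample b B ∨ (¬ FineEmptyR f ∧ AdjSemiample b B f)) →
          Semiample (b + e) Y)) ∨
        (MoriFibre (b + e) Y ∧ FineEmptyR f)) := by
  have hd := h.dim
  have hdB := h.dim_base
  have hFE : FineEmpty (fun i => RMM.supp0 (f i)) ↔ FineEmptyR f := by
    unfold FineEmpty FineEmptyR
    simp only [hF]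
  obtain ⟨κ, y0, β, hBD, hS⟩ := sys B f x (isFamily_to h)
  by_cases hE : FineEmptyR f
  · have hN : Nef b B := by
      rcases hB with h1 | h1
      · exact h1
      · exact absurd hE h1.1
    obtain ⟨Y, h1, h2⟩ := main B κ y0 β f x h.pos hd hBD hS (adjn B f hS.bpf (nef_to hdB hN))
    refine ⟨Y, terminal_of hd h1, ?_⟩
    rcases h2 with ⟨h3, h4⟩ | h3
    · refine Or.inl ⟨nef_of hd h3, fun hs => ?_⟩
      have hs' : Semiample b B := by
        rcases hs with h5 | h5
        · exact h5
        · exact absurd hE h5.1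
      exact semiample_of hd (h4 (adjs B f h.f_ne hS.bpf (semiample_to hdB hs')))
    · exact Or.inr ⟨moriFibre_of hd h3, hE⟩
  · have hN : RMM.NefD B (RMM.adj (b := b) (fun i => RMM.coefs (f i)) Finset.univ) := by
      rcases hB with h1 | h1
      · exact adjn B f hS.bpf (nef_to hdB h1) _
      · exact adjNef_to hdB h1.2
    obtain ⟨Y, h1, h2, h3⟩ := faa B κ y0 β f x h.pos hd hBD hS (fun h4 => hE (hFE.1 h4)) hN
    refine ⟨Y, terminal_of hd h1, Or.inl ⟨nef_of hd h2, fun hs => ?_⟩⟩
    refine semiample_of hd (h3 ?_)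
    rcases hs with h5 | h5
    · exact adjs B f h.f_ne hS.bpf (semiample_to hdB h5) _
    · exact adjSemiample_to hdB h5.2

end RMX
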