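import Pool.Agent.RMM.FinalR
import Pool.Agent.RMM.AsmZ
import Pool.Agent.RMM.AsmM
import Pool.Agent.RMM.AsmE
import Pool.Agent.RMM.ADJN
import Pool.Agent.RMM.ADJS
import Pool.Agent.RMM.RSUP

/-!
# Relative minimal models: the theorem
-/

set_option autoImplicit false

namespace RMX

open MldX MMCI MMCX

/-- The theorem. -/
theorem final {F K : Type} [Field F] [Field K]
    [Algebra ℂ F] [Algebra ℂ K] [Algebra F K] [IsScalarTower ℂ F K] {b e n r : ℕ}
    (B : ProjModel F) (f : Fin r → LaurentR F n) (x : Fin n → K) (h : IsFamily b e B f x)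
    (hB : Nef b B ∨ (¬ FineEmptyR f ∧ AdjNef b B f)) :
    ∃ Y : ProjModel K, Terminal (b + e) Y ∧
      ((Nef (b + e) Y ∧ ((Semiample b B ∨ (¬ FineEmptyR f ∧ AdjSemiample b B f)) →
          Semiample (b + e) Y)) ∨
        (MoriFibre (b + e) Y ∧ FineEmptyR f)) :=
  assemble RMM.rsysf (RMM.rmain RMM.rlog) (RMM.rfaa RMM.rlog) RMM.t_ADJN RMM.t_ADJS B f x h
    (fun g ν => RMM.RSUP.minOn_eq g ν) hB

end RMX
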