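import Pool.Agent.RMM.StE2
import Pool.Agent.MMCI.Tools
import Pool.Agent.MldGeo.Ord

/-!
# Relative minimal models: LBIG

Monomials in `z = (y, x)` of weight zero are functions `a x^q` as in `BIG`.
-/

set_option autoImplicit false

namespace RMM

open MldGeo MMCI

noncomputable section

namespace LBIG

variable {F K : Type} [Field F] [Field K] [Algebra ℂ F] [Algebra ℂ K] [Algebra F K]
  [IsScalarTower ℂ F K] {b e e' n r : ℕ} {B : ProjModel F}

/-- The inverse of a unit. -/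
theorem inO_inv {v : DivVal e' K} {a : F} (h : InO B v a) (h0 : a ≠ 0)
    (h1 : v.ord (algebraMap F K a) = 0) : InO B v a⁻¹ := by
  obtain ⟨j, hj, p, hp, q, hq, q0, qo, hpq⟩ := h
  have hp0 : p ≠ 0 := by
    rw [← hpq]
    exact mul_ne_zero h0 q0
  refine ⟨j, hj, q, hq, p, hp, hp0, ?_, ?_⟩
  · rw [← hpq, map_mul, v.ord_mul _ _ ((map_ne_zero _).2 h0) ((map_ne_zero _).2 q0), h1, qo,
      add_zero]
  · rw [← hpq, ← mul_assoc, inv_mul_cancel₀ h0, one_mul]

theorem ord_prod_zpow (v : DivVal e' K) (y : Fin b → F) (y0 : ∀ l, y l ≠ 0)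
    (yo : ∀ l, v.ord (algebraMap F K (y l)) = 0) (k : Fin b → ℤ) :
    v.ord (algebraMap F K (∏ l, y l ^ k l)) = 0 := by
  rw [map_prod, v.ord_prod _ _ fun l _ => (map_ne_zero _).2 (zpow_ne_zero _ (y0 l))]
  refine Finset.sum_eq_zero fun l _ => ?_
  rw [map_zpow₀, v.ord_zpow, yo l, mul_zero]

theorem wt_zz (v : DivVal e' K) (y : Fin b → F) (yo : ∀ l, v.ord (algebraMap F K (y l)) = 0)
    (x : Fin n → K) (q : Fin (b + n) → ℤ) :
    pair (wt (zz y x) v) q = pair (wt x v) fun j => q (Fin.natAdd b j) := by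
  simp [pair, wt, zz, Fin.sum_univ_add, yo]

theorem mon_zz (y : Fin b → F) (x : Fin n → K) (q : Fin (b + n) → ℤ) :
    mon (zz y x) q = algebraMap F K (∏ l, y l ^ q (Fin.castAdd n l)) *
      mon x fun j => q (Fin.natAdd b j) := by
  simp [mon, zz, Fin.prod_univ_add, map_prod, map_zpow₀]

end LBIG

open LBIG in
theorem t_LBIG : S_LBIG := by
  intro _ F K _ _ _ _ _ _ b e n r B κ y0 β f x _ v L hB
  obtain ⟨q, hq, hres⟩ := hB
  refine ⟨fun l => ∏ i, L.y i ^ q l (Fin.castAdd n i), fun l j => q l (Fin.natAdd b j),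
    fun l => ⟨?_, ?_, ?_, ?_⟩, ?_⟩
  · rw [← L.memA]
    refine L.A.prod_mem fun i _ => ?_
    rcases q l (Fin.castAdd n i) with k | k
    · rw [Int.ofNat_eq_natCast, zpow_natCast]
      exact L.A.pow_mem (L.y_mem i) k
    · rw [zpow_negSucc, ← inv_pow]
      refine L.A.pow_mem ?_ _
      rw [L.memA]
      exact inO_inv ((L.memA _).1 (L.y_mem i)) (L.y_ne i) (L.y_ord i)
  · exact Finset.prod_ne_zero_iff.2 fun i _ => zpow_ne_zero _ (L.y_ne i)
  · exact ord_prod_zpow v L.y L.y_ne L.y_ord _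
  · rw [← hq l, Loc.z, wt_zz v L.y L.y_ord x]
  · have h : (fun l => algebraMap F K (∏ i, L.y i ^ q l (Fin.castAdd n i)) *
        mon x fun j => q l (Fin.natAdd b j)) = fun l => mon L.z (q l) := by
      funext l
      rw [Loc.z, mon_zz]
    rw [h]
    exact hres

end

end RMM
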