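import Pool.Agent.RMM.StE3
import Pool.Agent.MMCI.Tools
import Pool.Agent.MldGeo.Ord

/-!
# Relative minimal models, LDT: the local data
-/

set_option autoImplicit false

namespace RMM

open MldGeo MMCI

theorem t_LDT : M_LDT := by
  intro hFRC hNAK hCLP hRCEN hLOCD hHEQ hBEQ hCMN hMNV
  intro F K _ _ _ _ _ _ b e n r B f x hx y0 β hB v
  obtain ⟨t0, ht0, ht01⟩ := v.unif
  obtain ⟨j, M, hM, hm, hThr, hMv⟩ := hCLP B x hx.ne v t0 ht0 ht01
  obtain ⟨g, hg, hnd⟩ := hx.nondeg (wt x v) j _ hm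
  have hg1 := fun i => (hg i).1
  choose u hu hfu using hg1
  obtain ⟨t, ht⟩ := hx.smooth.smooth j _ hm
  obtain ⟨hfg, hfrac, hres⟩ := hFRC B j
  obtain ⟨C, hC⟩ := hNAK (B.ring j) _ t hfg hfrac hx.smooth.dim hm (hres _ hm) ht
  obtain ⟨hR1, A, hA, hA0, hAinv⟩ := hRCEN B v
  obtain ⟨hyo, hdA⟩ := hLOCD (B.ring j) _ C v hThr.1 hThr.2
  obtain ⟨hyne, hdl, hh⟩ := hHEQ (B.ring j) _ C hx.smooth.dim hm
  obtain ⟨h, hh0, hheq⟩ := hh y0 hB.y0_ind
  obtain ⟨s, hs, hse⟩ := hBEQ B j _ C y0 h hx.smooth.dim (hx.smooth.normal j) hm hB.y0_ind hh0 hheq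
  have hEq := hse _ hm hs
  have hord := hB.beta v j _ hm hThr h hh0 hEq
  obtain ⟨σ, hσ0, hσ⟩ := hMNV B f x hx.dim_eq hx.f_ne hx.ne hx.zero v t0 ht0 ht01 j M hM hThr hMv
    C u g hu hfu (fun hin => hnd M hM rfl hin)
  have ord1 : v.ord (algebraMap F K 1) = 0 := by
    have := v.ord_const 1
    rwa [map_one] at this ⊢
  have hmem : ∀ a ∈ B.ring j, a ∈ A := by
    intro a ha
    exact (hA a).2 ((hR1 j hThr.1 a).2 ⟨a, ha, 1, one_mem _, one_ne_zero, ord1, mul_one a⟩)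
  refine ⟨{ A := A, memA := hA, y := C.y, y_mem := ?_, y_ne := hyne,
            y_ord := fun l => (hyo l).1, d := C.d, dA := ?_, dual := ?_, h := h, h_ne := hh0,
            h_eq := hheq, h_ord := ?_, u := u, u_ne := hu, u_coef := ?_, u_ord := ?_, σ := σ,
            det_ne := hσ0, det_ord := hσ }⟩
  · intro l
    apply hmem
    exact add_mem (one_mem _) (C.t l).2
  · intro l a ha
    have h1 := (hR1 j hThr.1 a).1 ((hA a).1 ha)
    exact (hA _).2 ((hR1 j hThr.1 _).2 (hdA a h1 l))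
  · intro a
    rw [C.dual a]
    refine Finset.sum_congr rfl fun l _ => ?_
    have : KaehlerDifferential.D ℂ F (C.y l) = KaehlerDifferential.D ℂ F (C.t l : F) := by
      unfold Coord.y
      rw [map_add, Derivation.map_one_eq_zero, zero_add]
    rw [this]
  · rw [Nat.cast_one, one_mul]
    exact hord
  · intro i a
    rw [hfu i a, inv_mul_cancel_left₀ (hu i)]
    exact hmem _ ((g i).coeff a).2
  · intro i
    exact ((hCMN (K := K) B (f i) j _ (u i) (g i) (hx.f_ne i) (hu i) (hfu i) (hg i).2).2 v hThr).symm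

end RMM
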