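import Pool.Agent.RMM.StT35
import Pool.Agent.RMM.RRK
import Pool.Agent.MMCI.K_MIN

/-!
# LOR: the local data at the prime divisors of `Z`
-/

set_option autoImplicit false

namespace RMM

open MldGeo MMCI

noncomputable section

namespace LOR

variable {F K : Type} [Field F] [Field K] [Algebra ℂ F] [Algebra ℂ K] [Algebra F K]
  [IsScalarTower ℂ F K] {b e e' n r : ℕ}

omit [Algebra ℂ K] [IsScalarTower ℂ F K] in
theorem phi_rev (R : Subalgebra ℂ F) {x : Fin n → K} (hx : ∀ j, x j ≠ 0) (G : LR R n) :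
    RRK.phi R hx G = rev x G := rfl

omit [IsScalarTower ℂ F K] in
theorem base_mem (B : ProjModel F) (x : Fin n → K) (j : Fin (B.N + 1)) (c : B.ring j) :
    algebraMap F K (c : F) ∈ zring B x j :=
  Algebra.subset_adjoin (Or.inl ⟨c, c.2, rfl⟩)

omit [IsScalarTower ℂ F K] in
theorem mon_mem (B : ProjModel F) (x : Fin n → K) (j : Fin (B.N + 1)) (m : Fin n → ℤ) :
    mon x m ∈ zring B x j :=
  Algebra.subset_adjoin (Or.inr ⟨m, rfl⟩)

omit [IsScalarTower ℂ F K] in
theorem rev_mem (B : ProjModel F) (x : Fin n → K) (j : Fin (B.N + 1)) (G : LR (B.ring j) n) :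
    rev x G ∈ zring B x j := by
  unfold rev Finsupp.sum
  exact Subalgebra.sum_mem _ fun m _ => Subalgebra.mul_mem _ (base_mem B x j _) (mon_mem B x j m)

/-- The residue of the value at `x`. -/
def piV (v : DivVal e' K) (R : Subalgebra ℂ F) {x : Fin n → K} (hx : ∀ j, x j ≠ 0)
    (h0 : ∀ G : LR R n, v.Ge 0 (rev x G)) :
    letI := MIN.alg v
    LR R n →ₐ[ℂ] IsLocalRing.ResidueField v.OV :=
  letI := MIN.alg v
  { (IsLocalRing.residue v.OV).comp
      ((RRK.phi R hx).toRingHom.codRestrict v.OV.toSubring fun G => h0 G) with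
    commutes' := fun c => by
      refine congrArg (IsLocalRing.residue v.OV) (Subtype.ext ?_)
      have h1 : RRK.phi R hx (algebraMap ℂ (LR R n) c) = algebraMap ℂ K c := by
        rw [IsScalarTower.algebraMap_apply ℂ R (LR R n) c, AlgHom.commutes]
        exact (IsScalarTower.algebraMap_apply ℂ F K c).symm
      exact h1 }

theorem piV_apply (v : DivVal e' K) (R : Subalgebra ℂ F) {x : Fin n → K} (hx : ∀ j, x j ≠ 0)
    (h0 : ∀ G : LR R n, v.Ge 0 (rev x G)) (G : LR R n) (h : v.Ge 0 (rev x G)) :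
    letI := MIN.alg v
    piV v R hx h0 G = IsLocalRing.residue v.OV ⟨rev x G, h⟩ := rfl

omit [IsScalarTower ℂ F K] [Algebra ℂ K] in
theorem rev_zero {R : Subalgebra ℂ F} {x : Fin n → K} {f : LR F n} {g : LR R n} {u : F}
    (hu : u ≠ 0) (h : ∀ a, f.coeff a = u * (g.coeff a : F)) (hf : rev x f = 0) :
    rev x g = 0 := by
  have hG : ∀ a, (u⁻¹ • f).coeff a = (g.coeff a : F) := by
    intro a
    rw [AddMonoidAlgebra.coeff_smul, Finsupp.smul_apply, h a, smul_eq_mul,
      inv_mul_cancel_left₀ hu]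
  have h1 : rev x (u⁻¹ • f) = algebraMap F K u⁻¹ * rev x f := by
    unfold rev
    rw [AddMonoidAlgebra.coeff_smul,
      Finsupp.sum_smul_index (fun m => by rw [map_zero, zero_mul]), Finsupp.mul_sum]
    exact Finset.sum_congr rfl fun m _ => by
      dsimp only
      rw [map_mul, mul_assoc]
  have h2 : rev x g = rev x (u⁻¹ • f) :=
    (RRK.sum_coeff (u⁻¹ • f) g hG (fun a c => algebraMap F K c * mon x a)).symm
  rw [h2, h1, hf, mul_zero]

omit [IsScalarTower ℂ F K] [Algebra F K] in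
theorem ord_zero {v : DivVal e' K} {a : K} (ha : a ≠ 0) (h0 : v.Ge 0 a) (h1 : v.Ge 0 a⁻¹) :
    v.ord a = 0 := by
  have h2 : 0 ≤ v.ord a := h0.resolve_left ha
  have h3 : 0 ≤ v.ord a⁻¹ := h1.resolve_left (inv_ne_zero ha)
  rw [DivVal.ord_inv] at h3
  omega

end LOR

theorem t_LOR : M_LOR := by
  intro hFRC hDMV hDKR hNKP hSMP hLOCV F K _ _ _ _ _ _ b e n r B f x hZ hGen hnorm κ y0 β hB v j P hP
  classical
  obtain ⟨hFG, hfrac, hres⟩ := hFRC B j
  have hne := hZ.ne
  -- `v` is nonnegative on the ring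
  have hge : ∀ a ∈ zring B x j, v.Ge 0 a := fun a ha => Or.inr (hP.2.2.1 ⟨a, ha⟩)
  have h0 : ∀ G : LR (B.ring j) n, v.Ge 0 (rev x G) := fun G => hge _ (LOR.rev_mem B x j G)
  -- the weight
  have hwt : wt x v = 0 := by
    funext k
    have h1 : mon x (Pi.single k 1) = x k := by
      unfold mon
      rw [Finset.prod_eq_single k]
      · rw [Pi.single_eq_same, zpow_one]
      · intro i _ hik
        rw [Pi.single_eq_of_ne hik, zpow_zero]
      · intro h
        exact absurd (Finset.mem_univ k) h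
    have h2 : mon x (Pi.single k (-1)) = (x k)⁻¹ := by
      unfold mon
      rw [Finset.prod_eq_single k]
      · rw [Pi.single_eq_same, zpow_neg_one]
      · intro i _ hik
        rw [Pi.single_eq_of_ne hik, zpow_zero]
      · intro h
        exact absurd (Finset.mem_univ k) h
    have h3 := hge _ (LOR.mon_mem B x j (Pi.single k 1))
    have h4 := hge _ (LOR.mon_mem B x j (Pi.single k (-1)))
    rw [h1] at h3
    rw [h2] at h4
    exact LOR.ord_zero (hne k) h3 h4
  let _ : Algebra ℂ (IsLocalRing.ResidueField v.OV) := MIN.alg v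
  obtain ⟨π, hπ⟩ : ∃ π : LR (B.ring j) n →ₐ[ℂ] IsLocalRing.ResidueField v.OV,
      ∀ (G : LR (B.ring j) n) (h : v.Ge 0 (rev x G)),
        π G = IsLocalRing.residue v.OV ⟨rev x G, h⟩ :=
    ⟨LOR.piV v (B.ring j) hne h0, fun G h => LOR.piV_apply v (B.ring j) hne h0 G h⟩
  have hπ1 : ∀ G : LR (B.ring j) n, v.Ge 1 (rev x G) → π G = 0 := by
    intro G h
    rw [hπ G (h0 G), IsLocalRing.residue_eq_zero_iff]
    exact (DivVal.mem_maximalIdeal_iff v).2 h
  have hπ0 : ∀ G : LR (B.ring j) n, rev x G = 0 → π G = 0 := fun G h => hπ1 G (Or.inl h)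
  have hdim : DimLe x π (b + e) :=
    hDMV B x hZ.pos hZ.dim hne hZ.gen j (hnorm j) v P hP π hπ
  -- the maximal ideal
  have hker : RingHom.ker π ≠ ⊤ := RingHom.ker_ne_top _
  obtain ⟨M, hM, hMle⟩ := Ideal.exists_le_maximal _ hker
  have hMπ : ∀ G, π G = 0 → G ∈ M := fun G h => hMle (RingHom.mem_ker.2 h)
  obtain ⟨g, hloc, hgen⟩ := hGen j M hM fun h hh => hMπ h (hπ0 h hh)
  have hg0 : ∀ i, rev x (g i) = 0 := by
    intro i
    obtain ⟨⟨u, hu, huf⟩, -⟩ := hloc i
    exact LOR.rev_zero hu huf (hZ.zero i)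
  -- the number of independent derivations
  have hrank : ∀ (q : ℕ) (δ : Fin q → (B.ring j →ₗ[ℂ] IsLocalRing.ResidueField v.OV)),
      (∀ l, IsDer (res0 π) (δ l)) → LinearIndependent (IsLocalRing.ResidueField v.OV) δ →
      q + n ≤ (b + e) + (lam π δ g).rank := fun q δ hδ hli =>
    hDKR (B.ring j) x π hne hπ0 hdim M hMπ g hg0 hgen δ hδ hli
  obtain ⟨C⟩ := hNKP (B.ring j) (res0 π) hFG hfrac hZ.dimB (by
    intro q δ hδ hli
    have h1 := hrank q δ hδ hli
    have h2 : (lam π δ g).rank ≤ r := by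
      have h3 := Matrix.rank_le_card_height (lam π δ g)
      rwa [Fintype.card_fin] at h3
    have h4 := hZ.dim_eq
    omega)
  obtain ⟨M', hM', hM'π, hm', hcoef, hy, hlin⟩ := hSMP (B.ring j) π hFG hZ.dim_eq C g (by
    intro i
    obtain ⟨a, ha⟩ := (hloc i).2
    refine ⟨a, fun h => ha ?_⟩
    exact hMπ _ h) (fun δ hδ hli => hrank b δ hδ hli)
  obtain ⟨t0, ht0, ht1⟩ := v.unif
  have hnval : ∀ G : LR (B.ring j) n, nval x v t0 G = rev x G := by
    intro G
    unfold nval rev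
    rw [hwt]
    refine Finset.sum_congr rfl fun a _ => ?_
    have h1 : pair 0 a = 0 := by simp [pair]
    dsimp only
    rw [h1, neg_zero, zpow_zero, mul_one]
    rfl
  refine hLOCV B κ y0 β f x hB hZ.dim_eq hZ.f_ne hne hZ.zero v t0 ht0 ht1 j M' hM' hm' ?_ ?_ g ?_
    hy ?_
  · refine ⟨fun c hc => hge _ (LOR.base_mem B x j ⟨c, hc⟩), fun c hc => ?_⟩
    refine hM'π _ (hπ1 _ ?_)
    have h1 : rev x (algebraMap (B.ring j) (LR (B.ring j) n) c) = algebraMap F K (c : F) := by
      rw [← LOR.phi_rev (B.ring j) hne, AlgHom.commutes]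
      rfl
    rw [h1]
    exact hc
  · intro G hG
    rw [hnval] at hG
    exact hM'π G (hπ1 G hG)
  · exact fun i => ⟨(hloc i).1, hcoef i⟩
  · intro _ τ hτ
    rw [hwt] at hτ
    simp only [RRK.rinit_zero] at hτ
    exact hlin τ hτ

end

end RMM
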