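import Pool.Agent.RMM.StT
import Pool.Agent.MMCI.K_BAS
import Mathlib.RingTheory.LocalRing.Module
import Mathlib.RingTheory.Flat.FaithfullyFlat.Basic
import Mathlib.RingTheory.Kaehler.Basic

/-!
# NKP: coordinates at a prime ideal
-/

set_option autoImplicit false

open scoped TensorProduct

namespace RMM

open MldGeo MMCI

noncomputable section

namespace NKP

/-- Nakayama's lemma at the kernel of a map to a field. -/
theorem nak {R κ Q : Type} [CommRing R] [Field κ] [Algebra R κ] [AddCommGroup Q] [Module R Q]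
    [Module.Finite R Q] (h : Subsingleton (κ ⊗[R] Q)) :
    ∃ s : R, algebraMap R κ s ≠ 0 ∧ ∀ x : Q, s • x = 0 := by
  let I : Ideal R := RingHom.ker (algebraMap R κ)
  haveI hI : I.IsPrime := RingHom.ker_isPrime _
  have hu : I.primeCompl ≤ (IsUnit.submonoid κ).comap (algebraMap R κ) := by
    intro s hs
    have : algebraMap R κ s ≠ 0 := fun h0 => hs (by simpa [I, RingHom.mem_ker] using h0)
    exact IsUnit.mk0 _ this
  letI : Algebra I.ResidueField κ :=
    (Ideal.ResidueField.lift I (algebraMap R κ) le_rfl hu).toAlgebra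
  haveI : IsScalarTower R I.ResidueField κ := by
    refine IsScalarTower.of_algebraMap_eq fun r => ?_
    exact (Ideal.ResidueField.lift_algebraMap I (algebraMap R κ) le_rfl hu r).symm
  have hn : ¬ Nontrivial (I.ResidueField ⊗[R] Q) := by
    intro hN
    have e := TensorProduct.AlgebraTensorModule.cancelBaseChange R I.ResidueField κ κ Q
    have h1 : Nontrivial (κ ⊗[I.ResidueField] (I.ResidueField ⊗[R] Q)) := inferInstance
    have h2 := e.toEquiv.symm.nontrivial
    exact not_subsingleton_iff_nontrivial.2 h2 h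
  have hs : (⟨I, hI⟩ : PrimeSpectrum R) ∉ Module.support R Q := fun hm =>
    hn ((Module.mem_support_iff_nontrivial_residueField_tensorProduct ⟨I, hI⟩).1 hm)
  rw [Module.mem_support_iff_of_finite, SetLike.not_le_iff_exists] at hs
  obtain ⟨s, hs1, hs2⟩ := hs
  exact ⟨s, fun h0 => hs2 (by simpa [I, RingHom.mem_ker] using h0),
    fun x => Module.mem_annihilator.1 hs1 x⟩

/-- The elements `1 ⊗ D a` span. -/
theorem span_top {R κ : Type} [CommRing R] [Algebra ℂ R] [Field κ] [Algebra R κ] :
    Submodule.span κ (Set.range fun a : R => (1 : κ) ⊗ₜ[R] KaehlerDifferential.D ℂ R a) = ⊤ := by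
  rw [eq_top_iff]
  rintro z -
  induction z using TensorProduct.induction_on with
  | zero => exact Submodule.zero_mem _
  | add x y hx hy => exact Submodule.add_mem _ hx hy
  | tmul x y =>
    have hy : y ∈ Submodule.span R (Set.range (KaehlerDifferential.D ℂ R)) := by
      rw [KaehlerDifferential.span_range_derivation]; exact Submodule.mem_top
    have h1 : (1 : κ) ⊗ₜ[R] y ∈
        Submodule.span κ (Set.range fun a : R => (1 : κ) ⊗ₜ[R] KaehlerDifferential.D ℂ R a) := by
      induction hy using Submodule.span_induction with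
      | mem y hy => obtain ⟨a, rfl⟩ := hy; exact Submodule.subset_span ⟨a, rfl⟩
      | zero => rw [TensorProduct.tmul_zero]; exact Submodule.zero_mem _
      | add y y' _ _ h h' => rw [TensorProduct.tmul_add]; exact Submodule.add_mem _ h h'
      | smul r y _ h =>
        rw [TensorProduct.tmul_smul, ← algebraMap_smul κ r]
        exact Submodule.smul_mem _ _ h
    have h2 : x ⊗ₜ[R] y = x • ((1 : κ) ⊗ₜ[R] y) := by
      rw [TensorProduct.smul_tmul', smul_eq_mul, mul_one]
    rw [h2]
    exact Submodule.smul_mem _ _ h1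

/-- Elements `t l` of `R` whose differentials form a basis of the tensor product with `κ`. -/
theorem exists_t {R κ : Type} [CommRing R] [Algebra ℂ R] [Field κ] [Algebra R κ]
    [Module.Finite R (Ω[R⁄ℂ])] :
    ∃ (c : ℕ) (t : Fin c → R),
      LinearIndependent κ (fun l => (1 : κ) ⊗ₜ[R] KaehlerDifferential.D ℂ R (t l)) ∧
      Submodule.span κ (Set.range fun l => (1 : κ) ⊗ₜ[R] KaehlerDifferential.D ℂ R (t l)) = ⊤ := by
  obtain ⟨ι, a, -, hsp, hli⟩ := exists_linearIndependent' κ
    (fun a : R => (1 : κ) ⊗ₜ[R] KaehlerDifferential.D ℂ R a)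
  have hfin : Finite ι := hli.finite
  obtain ⟨c, ⟨e⟩⟩ := Finite.exists_equiv_fin ι
  refine ⟨c, a ∘ e.symm, ?_, ?_⟩
  · exact hli.comp e.symm e.symm.injective
  · rw [span_top] at hsp
    rw [← hsp]
    congr 1
    ext z
    constructor
    · rintro ⟨l, rfl⟩
      exact ⟨e.symm l, rfl⟩
    · rintro ⟨i, rfl⟩
      exact ⟨e i, by simp⟩

/-- The generators over the field of fractions. -/
theorem span_F {F : Type} [Field F] [Algebra ℂ F] (R : Subalgebra ℂ F)
    (hfrac : ∀ a : F, ∃ p q : R, q ≠ 0 ∧ a * (q : F) = p) {c : ℕ} (t : Fin c → R) (s : R)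
    (hs : s ≠ 0) (co : Fin c → R → R)
    (hco : ∀ a : R, s • KaehlerDifferential.D ℂ R a =
      ∑ l, co l a • KaehlerDifferential.D ℂ R (t l)) :
    (∀ a : R, (s : F) • KaehlerDifferential.D ℂ F (a : F) =
      ∑ l, (co l a : F) • KaehlerDifferential.D ℂ F (t l : F)) ∧
    Submodule.span F (Set.range fun l => KaehlerDifferential.D ℂ F (t l : F)) = ⊤ := by
  have h1 : ∀ a : R, (s : F) • KaehlerDifferential.D ℂ F (a : F) =
      ∑ l, (co l a : F) • KaehlerDifferential.D ℂ F (t l : F) := by
    intro a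
    have h := congrArg (KaehlerDifferential.map ℂ ℂ R F) (hco a)
    simp only [map_smul, map_sum, KaehlerDifferential.map_D] at h
    exact h
  refine ⟨h1, ?_⟩
  have hsF : (s : F) ≠ 0 := by
    intro h0
    exact hs (Subtype.ext h0)
  have h2 : ∀ a : R, KaehlerDifferential.D ℂ F (a : F) ∈
      Submodule.span F (Set.range fun l => KaehlerDifferential.D ℂ F (t l : F)) := by
    intro a
    have h3 : KaehlerDifferential.D ℂ F (a : F) =
        (s : F)⁻¹ • ∑ l, (co l a : F) • KaehlerDifferential.D ℂ F (t l : F) := by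
      rw [← h1 a, smul_smul, inv_mul_cancel₀ hsF, one_smul]
    rw [h3]
    exact Submodule.smul_mem _ _ (Submodule.sum_mem _ fun l _ =>
      Submodule.smul_mem _ _ (Submodule.subset_span ⟨l, rfl⟩))
  rw [eq_top_iff, ← KaehlerDifferential.span_range_derivation, Submodule.span_le]
  rintro _ ⟨a, rfl⟩
  obtain ⟨p, q, hq, hpq⟩ := hfrac a
  have hqF : (q : F) ≠ 0 := fun h0 => hq (Subtype.ext h0)
  have h4 : a • KaehlerDifferential.D ℂ F (q : F) + (q : F) • KaehlerDifferential.D ℂ F a =
      KaehlerDifferential.D ℂ F (p : F) := by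
    rw [← hpq, Derivation.leibniz]
  have h5 : KaehlerDifferential.D ℂ F a = (q : F)⁻¹ • (KaehlerDifferential.D ℂ F (p : F) -
      a • KaehlerDifferential.D ℂ F (q : F)) := by
    rw [← h4, add_sub_cancel_left, smul_smul, inv_mul_cancel₀ hqF, one_smul]
  change KaehlerDifferential.D ℂ F a ∈ _
  rw [h5]
  exact Submodule.smul_mem _ _ (Submodule.sub_mem _ (h2 p) (Submodule.smul_mem _ _ (h2 q)))

end NKP

open NKP in
/-- NKP. -/
theorem t_NKP : S_NKP := by
  intro F _ _ b κ _ _ R ρ hfg hfrac htr hder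
  classical
  haveI : Algebra.FiniteType ℂ R := R.fg_iff_finiteType.1 hfg
  letI : Algebra R κ := ρ.toRingHom.toAlgebra
  haveI : IsScalarTower ℂ R κ := IsScalarTower.of_algebraMap_eq fun c => (ρ.commutes c).symm
  haveI : Module.Finite R (Ω[R⁄ℂ]) := inferInstance
  obtain ⟨c, t, hli, hsp⟩ := exists_t (R := R) (κ := κ)
  let B : Module.Basis (Fin c) κ (κ ⊗[R] (Ω[R⁄ℂ])) := Module.Basis.mk hli (by rw [hsp])
  have hB : ∀ l, B l = (1 : κ) ⊗ₜ[R] KaehlerDifferential.D ℂ R (t l) := fun l => by
    simp [B]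
  -- `c ≤ b`
  let δ : Fin c → (R →ₗ[ℂ] κ) := fun l =>
    { toFun := fun a => B.coord l ((1 : κ) ⊗ₜ[R] KaehlerDifferential.D ℂ R a)
      map_add' := fun a a' => by rw [map_add, TensorProduct.tmul_add, map_add]
      map_smul' := fun z a => by
        rw [Derivation.map_smul, RingHom.id_apply, ← algebraMap_smul R z (KaehlerDifferential.D ℂ R a),
          TensorProduct.tmul_smul, ← algebraMap_smul κ (algebraMap ℂ R z), map_smul,
          ← IsScalarTower.algebraMap_apply ℂ R κ, algebraMap_smul] }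
  have hδ : ∀ l l', δ l (t l') = if l = l' then 1 else 0 := by
    intro l l'
    change B.coord l ((1 : κ) ⊗ₜ[R] KaehlerDifferential.D ℂ R (t l')) = _
    rw [← hB, Module.Basis.coord_apply, Module.Basis.repr_self, Finsupp.single_apply]
    simp [eq_comm]
  have hδd : ∀ l, IsDer ρ (δ l) := by
    intro l a a'
    change B.coord l ((1 : κ) ⊗ₜ[R] KaehlerDifferential.D ℂ R (a * a')) = _
    rw [Derivation.leibniz, TensorProduct.tmul_add, map_add, TensorProduct.tmul_smul,
      TensorProduct.tmul_smul, ← algebraMap_smul κ a, ← algebraMap_smul κ a', map_smul, map_smul]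
    rfl
  have hδi : LinearIndependent κ δ := by
    rw [Fintype.linearIndependent_iff]
    intro g hg l
    have h := congrArg (fun φ : R →ₗ[ℂ] κ => φ (t l)) hg
    simp only [LinearMap.sum_apply, LinearMap.smul_apply, hδ, smul_eq_mul, mul_ite, mul_one,
      mul_zero, Finset.sum_ite_eq', Finset.mem_univ, if_true, LinearMap.zero_apply] at h
    exact h
  have hcb : c ≤ b := hder c δ hδd hδi
  -- Nakayama
  let N' : Submodule R (Ω[R⁄ℂ]) :=
    Submodule.span R (Set.range fun l => KaehlerDifferential.D ℂ R (t l))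
  have hsub : Subsingleton (κ ⊗[R] ((Ω[R⁄ℂ]) ⧸ N')) := by
    have hz : LinearMap.baseChange κ N'.mkQ = 0 := by
      refine B.ext fun l => ?_
      rw [hB, LinearMap.baseChange_tmul, LinearMap.zero_apply]
      have : N'.mkQ (KaehlerDifferential.D ℂ R (t l)) = 0 := by
        rw [Submodule.mkQ_apply, Submodule.Quotient.mk_eq_zero]
        exact Submodule.subset_span ⟨l, rfl⟩
      rw [this, TensorProduct.tmul_zero]
    have hsurj : Function.Surjective (LinearMap.baseChange κ N'.mkQ) :=
      LinearMap.lTensor_surjective κ (Submodule.mkQ_surjective N')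
    rw [hz] at hsurj
    refine ⟨fun x y => ?_⟩
    obtain ⟨x', rfl⟩ := hsurj x
    obtain ⟨y', rfl⟩ := hsurj y
    rfl
  obtain ⟨s, hs1, hs2⟩ := nak hsub
  have hs3 : ∀ a : R, ∃ co : Fin c → R, s • KaehlerDifferential.D ℂ R a =
      ∑ l, co l • KaehlerDifferential.D ℂ R (t l) := by
    intro a
    have h := hs2 (N'.mkQ (KaehlerDifferential.D ℂ R a))
    rw [← map_smul, Submodule.mkQ_apply, Submodule.Quotient.mk_eq_zero] at h
    obtain ⟨co, hco⟩ := (Submodule.mem_span_range_iff_exists_fun R).1 h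
    exact ⟨co, hco.symm⟩
  choose co hco using hs3
  have hs0 : s ≠ 0 := by
    rintro rfl
    exact hs1 (map_zero _)
  obtain ⟨hF1, hF2⟩ := span_F R hfrac t s hs0 (fun l a => co a l) hco
  obtain ⟨hfin, hrank⟩ := BAS.finrank_eq htr
  have hbc : b ≤ c := by
    have h := finrank_le_of_span_eq_top hF2
    rw [hrank, Fintype.card_fin] at h
    exact h
  obtain rfl : c = b := le_antisymm hcb hbc
  let BF : Module.Basis (Fin c) F (Ω[F⁄ℂ]) :=
    basisOfTopLeSpanOfCardEqFinrank (fun l => KaehlerDifferential.D ℂ F (t l : F))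
      (le_of_eq hF2.symm) (by rw [hrank, Fintype.card_fin])
  have hBF : ∀ l, BF l = KaehlerDifferential.D ℂ F (t l : F) := fun l => by simp [BF]
  refine ⟨⟨t, s, hs1, fun l => (BF.coord l).compDer (KaehlerDifferential.D ℂ F), ?_,
    fun l a => co a l, ?_, hco⟩⟩
  · intro l l'
    change BF.coord l (KaehlerDifferential.D ℂ F (t l' : F)) = _
    rw [← hBF, Module.Basis.coord_apply, Module.Basis.repr_self, Finsupp.single_apply]
    simp [eq_comm]
  · intro l a
    change (co a l : F) = (s : F) * BF.coord l (KaehlerDifferential.D ℂ F (a : F))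
    have h := congrArg (BF.coord l) (hF1 a)
    rw [map_smul, map_sum, smul_eq_mul] at h
    rw [h]
    simp only [map_smul, ← hBF, Module.Basis.coord_apply, Module.Basis.repr_self,
      Finsupp.single_apply, smul_eq_mul, mul_ite, mul_one, mul_zero, Finset.sum_ite_eq',
      Finset.mem_univ, if_true]

end

end RMM
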