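import Pool.Agent.RMM.DefsX
import Pool.Agent.RMM.TAY

/-!
# The case of a point: complete intersections in tori

The systems of `MMCX.IsTCI` are families over a point (`RMX.IsFamily`), and the canonical divisor of a
point is nef and semiample.
-/

set_option autoImplicit false

namespace RMX

open MldX MMCI MMCX

noncomputable section

/-- The point. -/
def pt : ProjModel ℂ where
  N := 0
  s := fun _ => 1
  ne := fun _ => one_ne_zero
  gen := by
    rw [eq_top_iff]
    intro z _
    exact IntermediateField.algebraMap_mem _ z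

theorem trdeg_pt : Algebra.trdeg ℂ ℂ = ((0 : ℕ) : Cardinal) := by
  rw [trdeg_eq_zero, Nat.cast_zero]

theorem no_val {P : Prop} (v : DivVal 0 ℂ) : P := by
  obtain ⟨t, -, h⟩ := v.unif
  have h1 := v.ord_const t
  rw [Algebra.algebraMap_self_apply] at h1
  omega

section map

variable {n : ℕ} (R : Subalgebra ℂ ℂ)

/-- The change of the ring of coefficients. -/
def chg : Laurent n →+* LaurentR R n := AddMonoidAlgebra.mapRingHom _ (algebraMap ℂ R)

theorem chg_single (a : Fin n → ℤ) (c : ℂ) :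
    chg R (AddMonoidAlgebra.single a c) = AddMonoidAlgebra.single a (algebraMap ℂ R c) := by
  unfold chg
  simp

theorem chg_coeff (f : Laurent n) (a : Fin n → ℤ) :
    (chg R f).coeff a = algebraMap ℂ R (f.coeff a) := by
  unfold chg
  simp

theorem aR (c : ℂ) : ((algebraMap ℂ R c : R) : ℂ) = c := rfl

theorem aR' (c : R) : algebraMap ℂ R (c : ℂ) = c := Subtype.ext rfl

theorem chg_supp (f : Laurent n) : (chg R f).coeff.support = f.coeff.support := by
  ext a
  rw [Finsupp.mem_support_iff, Finsupp.mem_support_iff, chg_coeff, Ne, Ne, not_iff_not]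
  constructor
  · intro h
    have h1 := congrArg (fun z : R => (z : ℂ)) h
    exact h1
  · intro h
    rw [h, map_zero]

theorem chg_min (f : Laurent n) (ν : Fin n → ℤ) : minOnR (chg R f) ν = MMCI.minOn f ν := by
  unfold minOnR MMCI.minOn
  rw [chg_supp]

theorem chg_init (f : Laurent n) (ν : Fin n → ℤ) :
    initFormR (chg R f) ν = chg R (initForm f ν) := by
  apply AddMonoidAlgebra.ext
  ext a : 1
  rw [chg_coeff]
  unfold initFormR initForm
  rw [AddMonoidAlgebra.coeff_ofCoeff, AddMonoidAlgebra.coeff_ofCoeff, Finsupp.filter_apply,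
    Finsupp.filter_apply, chg_coeff, chg_min]
  split_ifs
  · rfl
  · rw [map_zero]

theorem chg_surj (h : LaurentR R n) : ∃ h' : Laurent n, chg R h' = h := by
  refine ⟨AddMonoidAlgebra.mapRingHom _ (algebraMap R ℂ) h, ?_⟩
  apply AddMonoidAlgebra.ext
  ext a : 1
  rw [chg_coeff]
  have h1 : (AddMonoidAlgebra.mapRingHom (Fin n → ℤ) (algebraMap R ℂ) h).coeff a =
      ((h.coeff a : R) : ℂ) := by
    simp
  rw [h1, aR']

theorem evR_chg {K : Type} [Field K] [Algebra ℂ K] (x : Fin n → K) (f : Laurent n) :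
    evR x (chg R f) = MMCI.ev x f := by
  unfold evR MMCI.ev
  rw [Finsupp.sum, Finsupp.sum, chg_supp]
  refine Finset.sum_congr rfl fun a _ => ?_
  rw [chg_coeff]
  rfl

theorem chg_der (k : Fin n) (f : Laurent n) : derR k (chg R f) =
    f.coeff.sum fun m c => AddMonoidAlgebra.single m (algebraMap ℂ R ((m k : ℂ) * c)) := by
  unfold derR
  rw [Finsupp.sum, Finsupp.sum, chg_supp]
  refine Finset.sum_congr rfl fun a _ => ?_
  rw [chg_coeff, map_mul]
  simp

/-- The point of the torus given by a maximal ideal. -/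
theorem exists_point (M : Ideal (LaurentR R n)) (hM : M.IsMaximal) :
    ∃ (π : LaurentR R n →ₐ[ℂ] ℂ) (p : Fin n → ℂ), (∀ h, π h = 0 ↔ h ∈ M) ∧ (∀ j, p j ≠ 0) ∧
      (∀ h : Laurent n, π (chg R h) = MMCI.ev p h) ∧
      ∀ (h : Laurent n) k, π (derR k (chg R h)) = MMCI.grad p h k := by
  have hR : R.FG := ⟨∅, by
    rw [Finset.coe_empty, Algebra.adjoin_empty]
    apply le_antisymm bot_le
    intro a _
    exact Subalgebra.algebraMap_mem _ a⟩
  obtain ⟨π, hπ⟩ := RMM.TAY.exists_residue R hR M hM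
  have hinv : ∀ a : Fin n → ℤ, π (AddMonoidAlgebra.single a 1) *
      π (AddMonoidAlgebra.single (-a) 1) = 1 := by
    intro a
    rw [← map_mul, AddMonoidAlgebra.single_mul_single, add_neg_cancel, mul_one]
    exact map_one π
  have hp : ∀ j : Fin n, π (AddMonoidAlgebra.single (Pi.single j 1) 1) ≠ 0 := fun j =>
    left_ne_zero_of_mul_eq_one (hinv _)
  have hval : ∀ c : ℂ, π (AddMonoidAlgebra.single 0 (algebraMap ℂ R c)) = c := by
    intro c
    have h1 : (AddMonoidAlgebra.single 0 (algebraMap ℂ R c) : LaurentR R n) =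
        algebraMap ℂ (LaurentR R n) c := rfl
    rw [h1, AlgHom.commutes]
    rfl
  have h2 : (π : LaurentR R n →+* ℂ) =
      RMM.TAY.evl (algebraMap R ℂ) (fun j => π (AddMonoidAlgebra.single (Pi.single j 1) 1)) hp := by
    apply RMM.TAY.hom_ext
    · intro c
      rw [RMM.TAY.evl_single, RMM.TAY.mon_zero, mul_one]
      have h3 := hval (c : ℂ)
      rw [aR'] at h3
      exact h3
    · intro j
      rw [RMM.TAY.evl_single, map_one, one_mul]
      unfold mon
      rw [Finset.prod_eq_single j]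
      · simp
      · intro b _ hb
        simp [hb]
      · intro h
        exact absurd (Finset.mem_univ j) h
  have h3 : ∀ h : LaurentR R n, π h = RMM.TAY.evl (algebraMap R ℂ)
      (fun j => π (AddMonoidAlgebra.single (Pi.single j 1) 1)) hp h := fun h =>
    congrArg (fun φ : LaurentR R n →+* ℂ => φ h) h2
  refine ⟨π, _, hπ, hp, fun h => ?_, fun h k => ?_⟩
  · rw [h3, RMM.TAY.evl_eq, ← evR_chg R]
    rfl
  · rw [chg_der, map_finsuppSum]
    unfold MMCI.grad
    refine Finsupp.sum_congr fun a _ => ?_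
    rw [h3, RMM.TAY.evl_single]
    have h5 : algebraMap R ℂ (algebraMap ℂ R ((a k : ℂ) * h.coeff a)) =
      (a k : ℂ) * h.coeff a := rfl
    rw [h5]
    change _ = algebraMap ℂ ℂ (h.coeff a) * ((a k : ℤ) : ℂ) * _
    rw [Algebra.algebraMap_self_apply]
    ring

end map

section main

variable {e n r : ℕ} {K : Type} [Field K] [Algebra ℂ K]

theorem ring_top (j : Fin (pt.N + 1)) (a : ℂ) : a ∈ pt.ring j :=
  Subalgebra.algebraMap_mem _ a

theorem isTerminal_pt (R : Subalgebra ℂ ℂ) : MMCX.IsTerminal 0 R :=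
  ⟨fun a _ => Subalgebra.algebraMap_mem _ a, fun _ _ _ _ =>
    ⟨1, 1, one_pos, one_ne_zero, fun v _ _ _ => no_val v, fun v _ _ _ _ => no_val v⟩⟩

theorem isLocEq_pt {f : Fin r → Laurent n} (hf : ∀ i, f i ≠ 0) (j : Fin (pt.N + 1))
    (m : Ideal (pt.ring j)) (hm : m ≠ ⊤) : IsLocEq f m fun i => chg (pt.ring j) (f i) := by
  intro i
  refine ⟨⟨1, one_ne_zero, fun a => ?_⟩, ?_⟩
  · rw [chg_coeff, one_mul]
    rfl
  · obtain ⟨a, ha⟩ : ∃ a, (f i).coeff a ≠ 0 := by
      by_contra h
      push Not at h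
      apply hf i
      apply AddMonoidAlgebra.ext
      ext a : 1
      exact h a
    refine ⟨a, fun h => hm ?_⟩
    rw [chg_coeff] at h
    refine Ideal.eq_top_of_isUnit_mem _ h ?_
    exact (isUnit_iff_ne_zero.2 ha).map (algebraMap ℂ (pt.ring j))

theorem nondeg_pt {f : Fin r → Laurent n} (hf : ∀ i, f i ≠ 0) {ν : Fin n → ℤ}
    (h : Nondegenerate f ν) (j : Fin (pt.N + 1)) (m : Ideal (pt.ring j)) (hm : m.IsMaximal) :
    NondegenerateR 0 pt f ν j m := by
  refine ⟨_, isLocEq_pt hf j m hm.ne_top, fun M hM _ hz => Or.inr fun t ht => ?_⟩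
  obtain ⟨π, p, hπ, hp, h1, h2⟩ := exists_point (pt.ring j) M hM
  have h3 := h p hp fun i => by
    rw [← h1, ← chg_init]
    exact (hπ _).2 (hz i)
  rw [linearIndependent_iff'] at h3
  funext i
  refine h3 Finset.univ t ?_ i (Finset.mem_univ i)
  funext k
  have h4 := (hπ _).2 (ht k)
  rw [map_sum] at h4
  rw [Finset.sum_apply]
  refine Eq.trans ?_ h4
  refine Finset.sum_congr rfl fun i _ => ?_
  rw [map_smul]
  change _ = t i • π (derR k (initFormR ((chg (pt.ring j)) (f i)) ν))
  rw [chg_init, h2]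
  rfl

theorem zRing_pt (x : Fin n → K) (j : Fin (pt.N + 1)) : zRing pt x j = MMCX.coordRing x := by
  unfold zRing MMCX.coordRing
  apply le_antisymm
  · apply Algebra.adjoin_le
    rintro z (⟨c, -, rfl⟩ | hz)
    · exact Subalgebra.algebraMap_mem _ c
    · exact Algebra.subset_adjoin hz
  · exact Algebra.adjoin_mono Set.subset_union_right

theorem generates_pt {f : Fin r → Laurent n} {x : Fin n → K} (hf : ∀ i, f i ≠ 0)
    (h : Generates f x) : GeneratesR pt f x := by
  intro j M hM hz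
  have hc : M.comap (algebraMap (pt.ring j) (LaurentR (pt.ring j) n)) ≠ ⊤ := by
    intro h0
    exact hM.ne_top (Ideal.comap_eq_top_iff.1 h0)
  refine ⟨_, isLocEq_pt hf j _ hc, fun g hg => ?_⟩
  obtain ⟨π, p, hπ, hp, h1, -⟩ := exists_point (pt.ring j) M hM
  obtain ⟨g', rfl⟩ := chg_surj (pt.ring j) g
  rw [evR_chg] at hg
  obtain ⟨h', h2, h3⟩ := h p hp (fun k hk => by
    rw [← h1]
    exact (hπ _).2 (hz _ (by rw [evR_chg]; exact hk))) g' hg
  refine ⟨chg (pt.ring j) h', fun h4 => h2 ?_, ?_⟩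
  · rw [← h1]
    exact (hπ _).2 h4
  · have h5 := Ideal.mem_map_of_mem (chg (pt.ring j)) h3
    rw [map_mul, Ideal.map_span, ← Set.range_comp] at h5
    exact h5

/-- The class of `MinimalModelsCI` is the class of families over a point. -/
theorem isFamily_of {f : Fin r → Laurent n} {x : Fin n → K} (h : MMCX.IsTCI e f x) :
    IsFamily 0 e pt f x where
  dim_eq := h.dim_eq
  pos := by have := h.pos; omega
  f_ne := h.f_ne
  ne := h.ne
  gen := h.gen
  dim_base := trdeg_pt
  terminal := fun _ => isTerminal_pt _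
  dim := by rw [h.dim, Nat.zero_add]
  zero := h.zero
  loc := fun j m hm => ⟨_, isLocEq_pt h.f_ne j m hm.ne_top⟩
  nondeg := fun ν hν j m hm => nondeg_pt h.f_ne (h.nondeg ν hν) j m hm
  inner := by
    rcases h.inner with h1 | ⟨h1, h2⟩
    · exact Or.inl fun j m hm => nondeg_pt h.f_ne h1 j m hm
    · refine Or.inr ⟨generates_pt h.f_ne h1, fun j => ?_⟩
      rw [zRing_pt, Nat.zero_add]
      exact h2

theorem no_curve {P : Prop} (γ : CurveMap pt) : P := by
  obtain ⟨a, ha⟩ := γ.nonconst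
  exfalso
  apply ha
  have h1 : a = algebraMap ℂ (pt.ring γ.i) (a : ℂ) := Subtype.ext rfl
  rw [h1, AlgHom.commutes]
  exact ⟨_, rfl⟩

theorem nef_pt : Nef 0 pt := fun _ _ γ _ _ _ _ _ _ => no_curve γ

theorem semiample_pt : Semiample 0 pt := fun _ _ =>
  ⟨1, 1, fun _ => 1, one_pos, fun _ => one_ne_zero, fun _ _ v _ _ => no_val v, fun _ _ _ =>
    ⟨0, fun v _ _ _ => no_val v⟩⟩

end main

end

end RMX
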