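import Pool.Agent.RMM.StC
import Pool.Agent.MMCI.CD

/-!
# Module RFBN: the canonical divisor is negative on the curves in the fibres
-/

set_option autoImplicit false

namespace RMM

open MldGeo MMCI MMCI.FBN

noncomputable section

namespace RFBN

theorem mem_Ah {N n : ℕ} {A : Finset (Fin n → ℤ)} {c : Fin (N + n) → ℤ} :
    c ∈ Ah N A ↔ ∃ (j : Fin (N + 1)) (a : Fin n → ℤ), a ∈ A ∧ c = eh j a := by
  unfold Ah
  rw [Finset.mem_image]
  constructor
  · rintro ⟨⟨j, a⟩, h1, rfl⟩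
    exact ⟨j, a, (Finset.mem_product.1 h1).2, rfl⟩
  · rintro ⟨j, a, h1, rfl⟩
    exact ⟨(j, a), Finset.mem_product.2 ⟨Finset.mem_univ _, h1⟩, rfl⟩

theorem pair_smul {n : ℕ} (w : Fin n → ℤ) (c : ℤ) (u : Fin n → ℤ) :
    pair w (c • u) = c * pair w u := by
  unfold pair
  rw [Finset.mul_sum]
  refine Finset.sum_congr rfl fun i _ => ?_
  rw [Pi.smul_apply, smul_eq_mul]
  ring

section

variable {F K : Type} [Field F] [Field K] [Algebra ℂ F] [Algebra ℂ K] [Algebra F K]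
  {B : ProjModel F} {Y : ProjModel K}

/-- A homomorphism which is constant on the generators is constant. -/
theorem const_of_gen {L : Type} [Field L] [Algebra ℂ L] (j : Fin (B.N + 1))
    (φ : B.ring j →ₐ[ℂ] L)
    (h : ∀ (j' : Fin (B.N + 1)) (hj : B.s j' / B.s j ∈ B.ring j), ∃ c : ℂ,
      φ ⟨B.s j' / B.s j, hj⟩ = algebraMap ℂ L c) (z : B.ring j) :
    ∃ c : ℂ, φ z = algebraMap ℂ L c := by
  obtain ⟨z, hz⟩ := z
  have hz' : z ∈ Algebra.adjoin ℂ (Set.range fun j' => B.s j' / B.s j) := hz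
  refine Algebra.adjoin_induction
    (p := fun (a : F) (ha : a ∈ Algebra.adjoin ℂ (Set.range fun j' => B.s j' / B.s j)) =>
      ∃ c : ℂ, φ ⟨a, ha⟩ = algebraMap ℂ L c) ?_ ?_ ?_ ?_ hz'
  · rintro _ ⟨j', rfl⟩
    exact h j' _
  · intro r
    exact ⟨r, φ.commutes r⟩
  · rintro a b ha hb ⟨c, hc⟩ ⟨d, hd⟩
    refine ⟨c + d, ?_⟩
    rw [map_add, ← hc, ← hd, ← map_add]
    rfl
  · rintro a b ha hb ⟨c, hc⟩ ⟨d, hd⟩
    refine ⟨c * d, ?_⟩
    rw [map_mul, ← hc, ← hd, ← map_mul]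
    rfl

end

end RFBN

open RFBN

theorem t_RFBN : M_RFBN := by
  intro hXHM hRCMQ hRTRA F K _ _ _ _ _ _ e' n r B κ b y0 β f x he htr hx hbpf hBD D ω Y hlog hM M
    t ht ht' ω' hω' γ hfib k h g u hk hEq
  classical
  obtain ⟨w₀, i, m, j, mB, a, G, U, hmap, hpt, hU, hfin1, hfin2, hsum⟩ :=
    hRCMQ B κ b y0 β f x he htr hx hbpf hBD D.toFan ω Y hlog hM ω' hω' γ k h g u hk hEq
  obtain ⟨hmono, -, hmord, -⟩ := t_FUL x hx
  have hn := hM.normal
  obtain ⟨uniq, -, rmul, rinv, rpow, rconst, -⟩ := t_RSU γ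
  have rone : γ.Restr (1 : K) (1 : γ.L) := by
    have h1 := rconst 1
    rwa [map_one, map_one] at h1
  have rinv1 : ∀ (z : K) (u : γ.L), γ.Restr z u → u ≠ 0 → γ.Restr z⁻¹ u⁻¹ := by
    intro z u h1 h2
    have h3 := (rinv _ _ h1 h2).2 (-1)
    rwa [zpow_neg_one, zpow_neg_one] at h3
  -- the fibre
  obtain ⟨l0, hl0⟩ := hfib
  obtain ⟨js, as, hasA, hast⟩ := ht l0
  have hquot : ∀ (j' : Fin (B.N + 1)) (a' : Fin n → ℤ), tt B x j' (D.b a') / tt B x js (D.b as) =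
      algebraMap F K (B.s j' / B.s js) * mon x (D.b a' - D.b as) := by
    intro j' a'
    unfold tt
    have h1 : B.s j' / B.s js = (B.s j' / B.s 0) / (B.s js / B.s 0) := by
      rw [div_div_div_cancel_right₀ (B.ne 0)]
    rw [h1, ← mon_div hx hmono, mul_div_mul_comm, map_div₀ (algebraMap F K) (B.s j' / B.s 0)]
  have hcst : ∀ (j' : Fin (B.N + 1)), ∀ a' ∈ D.A, ∃ c : ℂ,
      γ.Restr (algebraMap F K (B.s j' / B.s js) * mon x (D.b a' - D.b as))
        (algebraMap ℂ γ.L c) := by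
    intro j' a' ha'
    obtain ⟨l, hl⟩ := ht' j' a' ha'
    obtain ⟨c, hc⟩ := hl0 l
    rw [hl, hast, hquot] at hc
    exact ⟨c, hc⟩
  -- the functions on `B`
  have hs : ∀ j' : Fin (B.N + 1), ∃ c : ℂ,
      γ.Restr (algebraMap F K (B.s j' / B.s js)) (algebraMap ℂ γ.L c) := by
    intro j'
    obtain ⟨c, hc⟩ := hcst j' as hasA
    rw [sub_self, hmono.zero, mul_one] at hc
    exact ⟨c, hc⟩
  choose cs hcs using hs
  have hb0 : ∀ a' ∈ D.A, ∃ c : ℂ, γ.Restr (mon x (D.b a' - D.b as)) (algebraMap ℂ γ.L c) := by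
    intro a' ha'
    obtain ⟨c, hc⟩ := hcst js a' ha'
    rw [div_self (B.ne js), map_one, one_mul] at hc
    exact ⟨c, hc⟩
  have hcs0 : ∀ w, cs (j w) ≠ 0 := by
    intro w h0
    obtain ⟨p, q, h1, h2, -⟩ :=
      (hpt w).res ⟨B.s js / B.s (j w), Algebra.subset_adjoin ⟨js, rfl⟩⟩
    obtain ⟨us, h3, -⟩ := RGW_holds γ w (i w) (m w) (hmap w) _ p q h1 h2
    have h4 := rmul _ _ _ _ (hcs (j w)) h3
    rw [h0, map_zero, zero_mul] at h4
    have h5 : algebraMap F K (B.s (j w) / B.s js) * algebraMap F K (B.s js / B.s (j w)) = 1 := by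
      rw [← map_mul, div_mul_div_comm, mul_comm (B.s (j w)),
        div_self (mul_ne_zero (B.ne _) (B.ne _)), map_one]
    change γ.Restr (algebraMap F K (B.s (j w) / B.s js) * algebraMap F K (B.s js / B.s (j w))) 0
      at h4
    rw [h5] at h4
    exact one_ne_zero (uniq _ _ _ rone h4)
  have hgen : ∀ j' : Fin (B.N + 1), ∃ c : ℂ,
      γ.Restr (algebraMap F K (B.s j' / B.s (j w₀))) (algebraMap ℂ γ.L c) := by
    intro j'
    have hne : algebraMap ℂ γ.L (cs (j w₀)) ≠ 0 := by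
      rw [Ne, map_eq_zero]
      exact hcs0 w₀
    have h1 := rinv1 _ _ (hcs (j w₀)) hne
    have h2 := rmul _ _ _ _ (hcs j') h1
    refine ⟨cs j' * (cs (j w₀))⁻¹, ?_⟩
    have h3 : algebraMap F K (B.s j' / B.s js) * (algebraMap F K (B.s (j w₀) / B.s js))⁻¹ =
        algebraMap F K (B.s j' / B.s (j w₀)) := by
      rw [← map_inv₀, ← map_mul, ← div_eq_mul_inv, div_div_div_cancel_right₀ (B.ne js)]
    rw [h3] at h2
    rwa [map_mul, map_inv₀]
  -- the composite is constant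
  obtain ⟨φ, hφ, -, hφ3⟩ := hRTRA B Y hBD.dimF hBD.normal γ w₀ i m j mB hmap
    (fun w => (hpt w).max) (fun w => (hpt w).res)
  have hφc : ∀ c : B.ring (j w₀), ∃ z : ℂ, φ c = algebraMap ℂ γ.L z := by
    refine const_of_gen (j w₀) φ fun j' hj => ?_
    obtain ⟨c, hc⟩ := hgen j'
    exact ⟨c, uniq _ _ _ (hφ _) hc⟩
  have hα : ∀ w, ∃ c : ℂ, c ≠ 0 ∧
      γ.Restr (algebraMap F K (G w / G w₀)) (algebraMap ℂ γ.L c) := by
    intro w
    obtain ⟨p, q, hp, hq, hpq⟩ := hφ3 (dlogs y0) (adj (fun i => coefs (f i)) Finset.univ) κ w w₀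
      (G w) (G w₀) (hpt w).G_ne (hpt w₀).G_ne (hpt w).eqB (hpt w₀).eqB
    obtain ⟨cp, hcp⟩ := hφc p
    obtain ⟨cq, hcq⟩ := hφc q
    have h2 := rmul _ _ _ _ (hφ p) (rinv1 _ _ (hφ q) hq)
    have hp0 : cp ≠ 0 := by
      rintro rfl
      exact hp (by rw [hcp, map_zero])
    have hq0 : cq ≠ 0 := by
      rintro rfl
      exact hq (by rw [hcq, map_zero])
    have hqF : (q : F) ≠ 0 := by
      intro h0
      have h1 : q = 0 := Subtype.ext h0
      exact hq (by rw [h1, map_zero])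
    refine ⟨cp * cq⁻¹, mul_ne_zero hp0 (inv_ne_zero hq0), ?_⟩
    rw [hcp, hcq, ← map_inv₀, ← map_mul, ← map_inv₀, ← map_mul, ← hpq, mul_assoc,
      mul_inv_cancel₀ hqF, mul_one] at h2
    exact h2
  choose al hal0 hal using hα
  set V : DivVal 1 γ.L → γ.L := fun w => (algebraMap ℂ γ.L (al w ^ D.k))⁻¹ * U w with hV
  have hal1 : ∀ w, algebraMap ℂ γ.L (al w ^ D.k) ≠ 0 := by
    intro w
    rw [Ne, map_eq_zero]
    exact pow_ne_zero _ (hal0 w)
  have hV0 : ∀ w, V w ≠ 0 := fun w => mul_ne_zero (inv_ne_zero (hal1 w)) (hU w).1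
  have hVo : ∀ w : DivVal 1 γ.L, w.ord (V w) = w.ord (U w) := by
    intro w
    rw [hV]
    change w.ord ((algebraMap ℂ γ.L (al w ^ D.k))⁻¹ * U w) = _
    rw [w.ord_mul _ _ (inv_ne_zero (hal1 w)) (hU w).1, ← map_inv₀, w.ord_const, zero_add]
  set u' : (Fin n → ℤ) → (Fin n → ℤ) := fun a => (κ : ℤ) • D.u a with hu'
  have hVr : ∀ w, γ.Restr (mon x (u' (a w₀) - u' (a w))) (V w) := by
    intro w
    have h1 : γ.Restr (algebraMap F K (G w / G w₀) ^ D.k) (algebraMap ℂ γ.L (al w ^ D.k)) := by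
      rw [map_pow]
      exact rpow _ _ _ (hal w)
    have h2 := rmul _ _ _ _ (rinv1 _ _ h1 (hal1 w)) (hU w).2
    rw [← mul_assoc, inv_mul_cancel₀ (rinv _ _ h1 (hal1 w)).1, one_mul, smul_sub] at h2
    exact h2
  -- the points of the polytope
  have haA : ∀ w, a w ∈ D.A := fun w => (hpt w).mem
  have haM : ∀ w (v : DivVal e' K) (P : Ideal (Y.ring (i w))), IsPrimeDivisor (Y.ring (i w)) v P →
      P ≤ m w → MinAt D.A (a w) (wt x v) := fun w v P hP hPm =>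
    ((hpt w).ctr v P ⟨hP.1, hP.2.2.1, hP.2.2.2⟩ hPm).2.1
  have hκ : (0 : ℤ) < κ := by exact_mod_cast hBD.κ_pos
  set a0 := a w₀ with ha0
  have ha0A : a0 ∈ D.A := haA w₀
  -- CLAIM 1
  have hc1 : ∀ w, ∃ c : ℂ, c ≠ 0 ∧
      γ.Restr (mon x (D.b (a w) - D.b as)) (algebraMap ℂ γ.L c) := by
    intro w
    obtain ⟨c, hc⟩ := hb0 _ (haA w)
    refine ⟨c, ?_, hc⟩
    rintro rfl
    obtain ⟨us, h1, -⟩ := restr_ge LCM_holds t_FUL RGW_holds hx htr hn (hmap w)
      (c := D.b as - D.b (a w)) (fun v P hP hPm => by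
        rw [pair_sub]
        have h2 := D.nef _ _ as (haM w v P hP hPm) hasA
        omega)
    have h3 := rmul _ _ _ _ hc h1
    rw [map_zero, zero_mul, ← hmono.add, sub_add_sub_cancel, sub_self, hmono.zero] at h3
    exact one_ne_zero (uniq _ _ _ rone h3)
  have hc2 : ∀ w, ∃ c : ℂ, c ≠ 0 ∧
      γ.Restr (mon x (D.b a0 - D.b (a w))) (algebraMap ℂ γ.L c) := by
    intro w
    obtain ⟨c, hc0, hc⟩ := hc1 w
    obtain ⟨c', hc0', hc'⟩ := hc1 w₀
    have hcne : algebraMap ℂ γ.L c ≠ 0 := by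
      rwa [Ne, map_eq_zero]
    have h1 := rinv1 _ _ hc hcne
    rw [mon_inv hmono, ← map_inv₀] at h1
    have h2 := rmul _ _ _ _ hc' h1
    rw [← hmono.add, sub_add_sub_cancel, ← map_mul] at h2
    exact ⟨c' * c⁻¹, mul_ne_zero hc0' (inv_ne_zero hc0), h2⟩
  -- CLAIM 2
  have hb : ∀ w (v : DivVal e' K) (P : Ideal (Y.ring (i w))), IsPrimeDivisor (Y.ring (i w)) v P →
      P ≤ m w → pair (wt x v) (D.b a0) = pair (wt x v) (D.b (a w)) := by
    intro w v P hP hPm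
    obtain ⟨c, hc0, hc⟩ := hc2 w
    have h1 := pair_zero LCM_holds t_FUL RGW_holds t_RSU hx htr hn (hmap w)
      (c := D.b a0 - D.b (a w))
      (fun v P hP hPm => by
        rw [pair_sub]
        have h2 := D.nef _ _ a0 (haM w v P hP hPm) ha0A
        omega) hc (by
        rintro (h2 | h2)
        · exact hc0 ((map_eq_zero _).1 h2)
        · rw [w.ord_const] at h2
          omega) hP hPm
    rw [pair_sub] at h1
    omega
  -- CLAIM 3
  have hpos : ∀ w (v : DivVal e' K) (P : Ideal (Y.ring (i w))),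
      IsPrimeDivisor (Y.ring (i w)) v P → P ≤ m w → 0 ≤ pair (wt x v) (u' (a w) - u' a0) := by
    intro w v P hP hPm
    rw [pair_sub, hu']
    change 0 ≤ pair (wt x v) ((κ : ℤ) • D.u (a w)) - pair (wt x v) ((κ : ℤ) • D.u a0)
    rw [pair_smul, pair_smul]
    have h1 := (D.pos _ _ a0 (haM w v P hP hPm) ha0A (hb w v P hP hPm)).1
    have h2 := mul_le_mul_of_nonneg_left h1 hκ.le
    omega
  have hUi : ∀ w, γ.Restr (mon x (u' (a w) - u' a0)) (V w)⁻¹ := by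
    intro w
    have h1 := rinv1 _ _ (hVr w) (hV0 w)
    rwa [mon_inv hmono] at h1
  have hUle : ∀ w : DivVal 1 γ.L, w.ord (V w) ≤ 0 := by
    intro w
    obtain ⟨u', h1, h2⟩ := restr_ge LCM_holds t_FUL RGW_holds hx htr hn (hmap w) (hpos w)
    have h3 := uniq _ _ _ h1 (hUi w)
    rw [h3] at h2
    rcases h2 with h2 | h2
    · exact absurd h2 (inv_ne_zero (hV0 w))
    · rw [FBN.ord_inv w (hV0 w)] at h2
      omega
  -- CLAIM 4
  have hne : ∃ w : DivVal 1 γ.L, w.ord (V w) ≠ 0 := by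
    by_contra hall
    push Not at hall
    have hmin : ∀ w (v : DivVal e' K) (P : Ideal (Y.ring (i w))),
        IsPrimeDivisor (Y.ring (i w)) v P → P ≤ m w → MinAt D.A a0 (wt x v) := by
      intro w v P hP hPm
      have h1 := pair_zero LCM_holds t_FUL RGW_holds t_RSU hx htr hn (hmap w) (hpos w) (hUi w) (by
        rintro (h2 | h2)
        · exact inv_ne_zero (hV0 w) h2
        · rw [FBN.ord_inv w (hV0 w), hall w] at h2
          omega) hP hPm
      rw [pair_sub, hu'] at h1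
      change pair (wt x v) ((κ : ℤ) • D.u (a w)) - pair (wt x v) ((κ : ℤ) • D.u a0) = 0 at h1
      rw [pair_smul, pair_smul, ← mul_sub] at h1
      refine (D.pos _ _ a0 (haM w v P hP hPm) ha0A (hb w v P hP hPm)).2 ?_
      rcases mul_eq_zero.1 h1 with h2 | h2
      · omega
      · omega
    refine hM.fin γ (eh (j w₀) a0) (mem_Ah.2 ⟨j w₀, a0, ha0A, rfl⟩) fun b' hb' => ?_
    obtain ⟨j', a', ha', rfl⟩ := mem_Ah.1 hb'
    rw [(hXHM B x hx).2.1]
    have hrb : ∀ w : DivVal 1 γ.L, ∃ u' : γ.L, γ.Restr (mon x (a' - a0)) u' ∧ w.Ge 0 u' := fun w =>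
      restr_ge LCM_holds t_FUL RGW_holds hx htr hn (hmap w) (c := a' - a0) (fun v P hP hPm => by
        rw [pair_sub]
        have h1 := (hmin w v P hP hPm).2 a' ha'
        omega)
    obtain ⟨u0, h1, -⟩ := hrb w₀
    obtain ⟨c, hc⟩ := (PRF_holds (t_CUR γ)).2.1 u0 (fun w => by
      obtain ⟨u', h2, h3⟩ := hrb w
      rw [uniq _ _ _ h1 h2]
      exact h3)
    obtain ⟨c', hc'⟩ := hgen j'
    refine ⟨c' * c, ?_⟩
    rw [map_mul]
    exact rmul _ _ _ _ hc' (hc ▸ h1)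
  refine ⟨hfin1, ?_⟩
  have hs : ∑ᶠ w : DivVal 1 γ.L, w.ord (U w) < 0 := by
    rw [finsum_eq_sum_of_support_subset (s := hfin2.toFinset) _ (by
      intro w hw
      rw [Set.Finite.coe_toFinset]
      exact hw)]
    apply Finset.sum_neg' (fun w _ => by rw [← hVo w]; exact hUle w)
    obtain ⟨w, hw⟩ := hne
    rw [hVo w] at hw
    refine ⟨w, ?_, lt_of_le_of_ne (by rw [← hVo w]; exact hUle w) hw⟩
    rw [Set.Finite.mem_toFinset]
    exact hw
  have hk' : (0 : ℤ) < k := by exact_mod_cast hk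
  have hFk : (0 : ℤ) < ((D.k * κ : ℕ) : ℤ) := by
    have h1 : 0 < D.k * κ := Nat.mul_pos D.k_pos hBD.κ_pos
    exact_mod_cast h1
  have h1 : (k : ℤ) * ∑ᶠ w : DivVal 1 γ.L, w.ord (U w) < 0 := mul_neg_of_pos_of_neg hk' hs
  rw [← hsum] at h1
  by_contra h2
  push Not at h2
  have h3 := mul_nonneg hFk.le h2
  omega

end

end RMM
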