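import Pool.Agent.RMM.StT35
import Pool.Agent.RMM.RRK
import Pool.Agent.RMM.RBD3
import Pool.Agent.RMM.DLB
import Pool.Agent.MMCI.K_MIN

/-!
# RK2: the rank of the gradients
-/

set_option autoImplicit false

namespace RMM

open MldGeo MMCI

noncomputable section

namespace RK2

/-- A matrix with `r` rows and rank at least `r` has linearly independent rows. -/
theorem rows_li {r m : ℕ} {K : Type} [Field K] (G : Matrix (Fin r) (Fin m) K)
    (h : r ≤ G.rank) : LinearIndependent K G.row := by
  rw [linearIndependent_iff_card_le_finrank_span, Fintype.card_fin]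
  rw [Matrix.rank_eq_finrank_span_row] at h
  exact h

variable {F K : Type} [Field F] [Field K] [Algebra ℂ F] [Algebra ℂ K] [Algebra F K]
  [IsScalarTower ℂ F K] {b n r : ℕ}

/-- The value at `x` as a homomorphism of `ℂ`-algebras. -/
def ev (R : Subalgebra ℂ F) {x : Fin n → K} (hx : ∀ j, x j ≠ 0) : LR R n →ₐ[ℂ] K :=
  (RRK.phi R hx).restrictScalars ℂ

theorem ev_apply (R : Subalgebra ℂ F) {x : Fin n → K} (hx : ∀ j, x j ≠ 0) (G : LR R n) :
    ev R hx G = rev x G := rfl

theorem ev_single (R : Subalgebra ℂ F) {x : Fin n → K} (hx : ∀ j, x j ≠ 0) (m : Fin n → ℤ)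
    (c : R) : ev R hx (AddMonoidAlgebra.single m c) = algebraMap F K (c : F) * mon x m := by
  have h1 : ev R hx (AddMonoidAlgebra.single m c) =
      (AddMonoidAlgebra.single m c : LR R n).coeff.sum
        fun a c => algebraMap F K (c : F) * mon x a := RRK.phi_apply R hx _
  rw [h1, AddMonoidAlgebra.coeff_single, Finsupp.sum_single_index]
  rw [ZeroMemClass.coe_zero, map_zero, zero_mul]

omit [Algebra ℂ K] in
theorem mon_single {x : Fin n → K} (j : Fin n) : mon x (Pi.single j 1) = x j := by
  classical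
  unfold mon
  rw [Finset.prod_eq_single j]
  · rw [Pi.single_eq_same, zpow_one]
  · intro k _ hk
    rw [Pi.single_eq_of_ne hk, zpow_zero]
  · intro h
    exact absurd (Finset.mem_univ j) h

theorem ptt_ev (R : Subalgebra ℂ F) {x : Fin n → K} (hx : ∀ j, x j ≠ 0) :
    ptt (ev R hx) = x := by
  funext j
  unfold ptt
  rw [ev_single, OneMemClass.coe_one, map_one, one_mul, mon_single]

theorem res0_ev (R : Subalgebra ℂ F) {x : Fin n → K} (hx : ∀ j, x j ≠ 0) (a : R) :
    res0 (ev R hx) a = algebraMap F K (a : F) := by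
  have h1 : res0 (ev R hx) a = ev R hx (algebraMap R (LR R n) a) := rfl
  have h2 : algebraMap R (LR R n) a = AddMonoidAlgebra.single 0 a := rfl
  rw [h1, h2, ev_single]
  have h3 : mon x 0 = 1 := Tor.mon_zero x
  rw [h3, mul_one]

/-- The derivations. -/
def del (K : Type) [Field K] [Algebra ℂ K] [Algebra F K] [IsScalarTower ℂ F K]
    (R : Subalgebra ℂ F) (d : Fin b → Derivation ℂ F F) (l : Fin b) : R →ₗ[ℂ] K :=
  (IsScalarTower.toAlgHom ℂ F K).toLinearMap ∘ₗ (d l : F →ₗ[ℂ] F) ∘ₗ R.val.toLinearMap

theorem del_apply (R : Subalgebra ℂ F) (d : Fin b → Derivation ℂ F F) (l : Fin b) (a : R) :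
    del K R d l a = algebraMap F K (d l (a : F)) := rfl

theorem del_der (R : Subalgebra ℂ F) {x : Fin n → K} (hx : ∀ j, x j ≠ 0)
    (d : Fin b → Derivation ℂ F F) (l : Fin b) : IsDer (res0 (ev R hx)) (del K R d l) := by
  intro a c
  rw [del_apply, del_apply, del_apply, res0_ev, res0_ev, MulMemClass.coe_mul,
    Derivation.leibniz, map_add, smul_eq_mul, smul_eq_mul, map_mul, map_mul]

theorem del_li (R : Subalgebra ℂ F) (hfrac : ∀ a : F, ∃ p q : R, q ≠ 0 ∧ a * (q : F) = p)
    (d : Fin b → Derivation ℂ F F) (y : Fin b → F)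
    (hd : ∀ l k, d l (y k) = if l = k then 1 else 0) :
    LinearIndependent K (del K R d) := by
  rw [Fintype.linearIndependent_iff]
  intro c hc l
  have h1 : ∀ a : R, ∑ l, c l * algebraMap F K (d l (a : F)) = 0 := by
    intro a
    have h2 := congrArg (fun D : R →ₗ[ℂ] K => D a) hc
    simp only [LinearMap.sum_apply, LinearMap.smul_apply, LinearMap.zero_apply, smul_eq_mul,
      del_apply] at h2
    exact h2
  have h3 : ∀ a : F, ∑ l, c l * algebraMap F K (d l a) = 0 := by
    intro a
    obtain ⟨p, q, hq, hpq⟩ := hfrac a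
    have h4 : ∀ l, d l (p : F) = a * d l (q : F) + (q : F) * d l a := by
      intro l
      rw [← hpq, Derivation.leibniz, smul_eq_mul, smul_eq_mul]
    have h5 := h1 p
    simp only [h4, map_add, map_mul, mul_add, Finset.sum_add_distrib] at h5
    have h6 : ∑ l, c l * (algebraMap F K a * algebraMap F K (d l (q : F))) =
        algebraMap F K a * ∑ l, c l * algebraMap F K (d l (q : F)) := by
      rw [Finset.mul_sum]
      exact Finset.sum_congr rfl fun l _ => by ring
    have h7 : ∑ l, c l * (algebraMap F K (q : F) * algebraMap F K (d l a)) =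
        algebraMap F K (q : F) * ∑ l, c l * algebraMap F K (d l a) := by
      rw [Finset.mul_sum]
      exact Finset.sum_congr rfl fun l _ => by ring
    rw [h6, h7, h1 q, mul_zero, zero_add] at h5
    have h8 : algebraMap F K (q : F) ≠ 0 := by
      rw [Ne, map_eq_zero]
      intro h9
      exact hq (Subtype.ext h9)
    exact (mul_eq_zero.1 h5).resolve_left h8
  have h4 := h3 (y l)
  rw [Finset.sum_eq_single l] at h4
  · rwa [hd, if_pos rfl, map_one, mul_one] at h4
  · intro k _ hk
    rw [hd, if_neg hk, map_zero, mul_zero]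
  · intro h
    exact absurd (Finset.mem_univ l) h

theorem li_z {y : Fin b → F} (hy : ∀ l, y l ≠ 0) (hdl : dlogs y ≠ 0)
    (htr : Algebra.trdeg ℂ F = (b : Cardinal)) {N : ℕ}
    (htrK : Algebra.trdeg ℂ K = (N : Cardinal)) :
    LinearIndependent K fun l => dlog (algebraMap F K (y l)) := by
  refine RRK.li_dlog _ (fun l => (map_ne_zero _).2 (hy l)) ?_
  refine RRK.li_D htrK _ ?_
  obtain ⟨e, he⟩ := DLB.basis htr y hy hdl
  have h1 : AlgebraicIndependent ℂ y := by
    refine BAS.algInd _ ?_
    have h2 : (fun l => KaehlerDifferential.D ℂ F (y l)) = e := by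
      funext l
      exact (he l).symm
    rw [h2]
    exact e.linearIndependent
  exact h1.map' (f := IsScalarTower.toAlgHom ℂ F K) (algebraMap F K).injective

end RK2

theorem t_RK2 : M_RK2 := by
  intro hFRC hDLB hREV hDMG hDKR F K _ _ _ _ _ _ b e n r B f x hZ hGen
  classical
  obtain ⟨hFG, hfrac, hres⟩ := hFRC B 0
  -- the maximal ideal
  have hker : RingHom.ker (RK2.ev (B.ring 0) hZ.ne) ≠ ⊤ := RingHom.ker_ne_top _
  obtain ⟨M, hM, hMle⟩ := Ideal.exists_le_maximal _ hker
  have hMπ : ∀ G, RK2.ev (B.ring 0) hZ.ne G = 0 → G ∈ M := by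
    intro G hG
    exact hMle (by rw [RingHom.mem_ker]; exact hG)
  obtain ⟨g, hloc, hgen⟩ := hGen 0 M hM (fun h hh => hMπ h hh)
  choose u hu huf using fun i => (hloc i).1
  -- the normalised equations
  have hG : ∀ i a, ((u i)⁻¹ • f i).coeff a = ((g i).coeff a : F) := by
    intro i a
    rw [AddMonoidAlgebra.coeff_smul, Finsupp.smul_apply, huf i a, smul_eq_mul,
      inv_mul_cancel_left₀ (hu i)]
  have hrev : ∀ i, rev x ((u i)⁻¹ • f i) = 0 := by
    intro i
    have h1 : rev x ((u i)⁻¹ • f i) = algebraMap F K (u i)⁻¹ * rev x (f i) := by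
      unfold rev
      rw [AddMonoidAlgebra.coeff_smul,
        Finsupp.sum_smul_index (fun m => by rw [map_zero, zero_mul]), Finsupp.mul_sum]
      exact Finset.sum_congr rfl fun m _ => by
        dsimp only
        rw [map_mul, mul_assoc]
    rw [h1, hZ.zero i, mul_zero]
  have hrg : ∀ i j, rgrad x ((u i)⁻¹ • f i) j = algebraMap F K (u i)⁻¹ * rgrad x (f i) j := by
    intro i j
    unfold rgrad
    rw [AddMonoidAlgebra.coeff_smul,
      Finsupp.sum_smul_index (fun m => by rw [map_zero, zero_mul, zero_mul]), Finsupp.mul_sum]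
    exact Finset.sum_congr rfl fun m _ => by
      dsimp only
      rw [map_mul]
      ring
  have hgrev : ∀ i, rev x (g i) = 0 := by
    intro i
    have h1 : rev x (g i) = (g i).coeff.sum fun a c => algebraMap F K (c : F) * mon x a := rfl
    rw [h1, ← RRK.sum_coeff ((u i)⁻¹ • f i) (g i) (hG i) (fun a c => algebraMap F K c * mon x a)]
    exact hrev i
  -- the derivations
  obtain ⟨y, hyne, hydl⟩ := RBD3.exists_y0 hZ.dimB
  obtain ⟨d, hd1, hd2⟩ := hDLB hZ.dimB y hyne hydl
  have hrank := hDKR (B.ring 0) x (RK2.ev (B.ring 0) hZ.ne) hZ.ne (fun G h => h)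
    (hDMG B x hZ.dim hZ.ne hZ.gen 0 (RK2.ev (B.ring 0) hZ.ne) fun G => rfl) M hMπ g hgrev hgen
    (RK2.del K (B.ring 0) d) (RK2.del_der (B.ring 0) hZ.ne d)
    (RK2.del_li (B.ring 0) hfrac d y hd1)
  have hr : r ≤ (lam (RK2.ev (B.ring 0) hZ.ne) (RK2.del K (B.ring 0) d) g).rank := by
    have := hZ.dim_eq
    omega
  obtain ⟨g0, -, hdet⟩ := MIN.exists_minor _ (RK2.rows_li _ hr)
  have hR := hREV y d x hyne hZ.ne hd2
  rw [Fintype.linearIndependent_iff]
  intro a ha i
  have h0 : (fun i => a i * algebraMap F K (u i)) = 0 := by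
    refine RRK.kill_rank (G := fun i => gr y d ((u i)⁻¹ • f i) x)
      (Q := fun i => lam (RK2.ev (B.ring 0) hZ.ne) (RK2.del K (B.ring 0) d) g i)
      (ω := fun c => dlog (zz y x c))
      (y := fun l => algebraMap F K (y l)) (fun l => (map_ne_zero _).2 (hyne l)) ?_ ?_ ?_ ?_ g0
      hdet _ ?_
    · intro i
      rw [← hR.2.2, hrev i, map_zero]
    · have h1 : (fun l : Fin b => dlog (zz y x (Fin.castAdd n l))) =
          fun l => dlog (algebraMap F K (y l)) := by
        funext l
        rw [zz, Fin.append_left]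
      rw [h1]
      exact RK2.li_z hyne hydl hZ.dimB hZ.dim
    · intro i l
      rw [gr, Fin.append_left]
      congr 1
      unfold revd
      rw [RRK.sum_coeff ((u i)⁻¹ • f i) (g i) (hG i)
        (fun a c => algebraMap F K (d l c) * mon x a)]
      unfold lam
      rw [Matrix.of_apply, Fin.append_left]
      unfold pdv
      rw [RK2.ptt_ev]
      refine Finset.sum_congr rfl fun m _ => ?_
      simp only [Pi.zero_apply, zero_mul, Finset.sum_const_zero, mul_zero, add_zero]
      rfl
    · intro i j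
      rw [gr, Fin.append_right]
      unfold rgrad
      rw [RRK.sum_coeff ((u i)⁻¹ • f i) (g i) (hG i)
        (fun a c => algebraMap F K c * (a j : K) * mon x a)]
      unfold lam
      rw [Matrix.of_apply, Fin.append_right]
      unfold pdv
      rw [RK2.ptt_ev]
      refine Finset.sum_congr rfl fun m _ => ?_
      have h2 : ∑ k, (Pi.single j (1 : K) : Fin n → K) k * ((m k : ℤ) : K) = (m j : K) := by
        rw [Finset.sum_eq_single j]
        · rw [Pi.single_eq_same, one_mul]
        · intro k _ hk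
          rw [Pi.single_eq_of_ne hk, zero_mul]
        · intro h
          exact absurd (Finset.mem_univ j) h
      dsimp only
      rw [h2, RK2.res0_ev, LinearMap.zero_apply, zero_add]
    · intro j
      have h2 := congrFun ha j
      rw [Finset.sum_apply, Pi.zero_apply] at h2
      rw [← h2]
      refine Finset.sum_congr rfl fun i _ => ?_
      rw [gr, Fin.append_right, hrg, Pi.smul_apply, smul_eq_mul, map_inv₀]
      have h3 : algebraMap F K (u i) ≠ 0 := (map_ne_zero _).2 (hu i)
      field_simp
  have h3 := congrFun h0 i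
  exact (mul_eq_zero.1 h3).resolve_right ((map_ne_zero _).2 (hu i))

end

end RMM
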