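import Pool.Agent.RMM.StT35
import Pool.Agent.RMM.RLOG

/-!
# RMM, RL0: the order of the residue form at the valuations with weight zero
-/

set_option autoImplicit false

namespace RMM

open MldGeo MMCI

theorem t_RL0 (hMON : S_MON) (hLUNI : S_LUNI) (hLFRM : S_LFRM) (hLE0 : S_LE0) : S_RL0 := by
  intro F K _ _ _ _ _ _ b e n r B κ y0 β f x hpos hdim hB hR ω hω v L hw hbig
  have h1 := RLOG.key hpos hdim v L (hLUNI hMON B κ y0 β f x hR v L) ω hω.1
    (hLFRM B κ y0 β f x hB.y0_ne hB.y0_ind hdim hR ω hω v L)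
  have h2 := (hLE0 B κ y0 β f x hpos hdim hR v L hw).2.2 hbig
  rw [h1, h2, hw, RLOG.rpsi_zero]
  ring

end RMM
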