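import Pool.Agent.RMM.StR
import Pool.Agent.MMCI.Tools
import Pool.Agent.MldGeo.Ord

/-!
# RRL: the extended relations with respect to `y0`
-/

set_option autoImplicit false

namespace RMM

open MldGeo MMCI

noncomputable section

namespace RRL

variable {F K : Type} [Field F] [Field K] [Algebra ℂ F] [Algebra ℂ K] [Algebra F K]
  [IsScalarTower ℂ F K] {b e n r : ℕ}

theorem zz_castAdd (y : Fin b → F) (x : Fin n → K) (l : Fin b) :
    zz y x (Fin.castAdd n l) = algebraMap F K (y l) := Fin.append_left _ _ _

theorem zz_natAdd (y : Fin b → F) (x : Fin n → K) (j : Fin n) :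
    zz y x (Fin.natAdd b j) = x j := Fin.append_right _ _ _

theorem zz_ne (y : Fin b → F) (x : Fin n → K) (hy : ∀ l, y l ≠ 0) (hx : ∀ j, x j ≠ 0)
    (c : Fin (b + n)) : zz y x c ≠ 0 := by
  refine Fin.addCases (fun l => ?_) (fun j => ?_) c
  · rw [zz_castAdd]
    exact (map_ne_zero _).mpr (hy l)
  · rw [zz_natAdd]
    exact hx j

theorem D_eq {a : K} (ha : a ≠ 0) : KaehlerDifferential.D ℂ K a = a • dlog a := by
  rw [dlog, smul_smul, mul_inv_cancel₀ ha, one_smul]

end RRL

theorem t_RRL : M_RRL := by
  intro hWD F K _ _ _ _ _ _ b e n r y0 f x hF hy hy0 hR hK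
  obtain ⟨h1, h2⟩ := hWD (K := K) (n := n) y0 hF hy hy0
  set M : Submodule K (Ω[K⁄ℂ]) := Submodule.span K (Set.range fun c => dlog (zz y0 x c)) with hM
  have hl : ∀ l, dlog (algebraMap F K (y0 l)) ∈ M := by
    intro l
    rw [← RRL.zz_castAdd y0 x l]
    exact Submodule.subset_span ⟨_, rfl⟩
  have hj : ∀ j, dlog (x j) ∈ M := by
    intro j
    rw [← RRL.zz_natAdd y0 x j]
    exact Submodule.subset_span ⟨_, rfl⟩
  have hW : Wy K y0 ≤ M := by
    unfold Wy
    rw [Submodule.span_le]
    rintro _ ⟨l, rfl⟩
    exact hl l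
  refine ⟨RRL.zz_ne y0 x hy hR.ne, ?_, ?_⟩
  · have key : ∀ a : K, KaehlerDifferential.D ℂ K a ∈ M := by
      intro a
      have ha : a ∈ IntermediateField.adjoin F (Set.range x) := by
        rw [hR.gen]
        trivial
      induction ha using IntermediateField.adjoin_induction with
      | mem a ha =>
        obtain ⟨j, rfl⟩ := ha
        rw [RRL.D_eq (hR.ne j)]
        exact M.smul_mem _ (hj j)
      | algebraMap c => exact hW (h1 c)
      | add a b _ _ ha hb =>
        rw [map_add]
        exact M.add_mem ha hb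
      | inv a _ ha =>
        rw [Derivation.leibniz_inv]
        exact M.smul_mem _ ha
      | mul a b _ _ ha hb =>
        rw [Derivation.leibniz]
        exact M.add_mem (M.smul_mem _ hb) (M.smul_mem _ ha)
    rw [eq_top_iff, ← KaehlerDifferential.span_range_derivation, Submodule.span_le]
    rintro _ ⟨a, rfl⟩
    exact key a
  · have h3 : ∀ i, ∃ a : Fin b → K,
        ∑ l, a l • dlog (algebraMap F K (y0 l)) = ∑ j, rgrad x (f i) j • dlog (x j) := by
      intro i
      have h4 := h2 (f i) x hR.ne (hR.zero i)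
      unfold Wy at h4
      exact (Submodule.mem_span_range_iff_exists_fun K).1 h4
    choose a ha using h3
    refine ⟨fun i => Fin.append (fun l => - a i l) fun j => rgrad x (f i) j, fun i => ?_,
      fun i j => Fin.append_right _ _ _⟩
    rw [Fin.sum_univ_add]
    simp only [Fin.append_left, Fin.append_right, RRL.zz_castAdd, RRL.zz_natAdd, neg_smul,
      Finset.sum_neg_distrib]
    rw [ha i, neg_add_cancel]

end

end RMM
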