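import Pool.Agent.RMM.StR

/-!
# Relative minimal models: RSP, the Laurent polynomial with the same exponents
-/

set_option autoImplicit false

namespace RMM

open MldGeo MMCI

namespace RSP

theorem supp {F : Type} [Field F] {n : ℕ} (f : LR F n) :
    (supp0 f).coeff.support = f.coeff.support := by
  classical
  ext m
  have h : (supp0 f).coeff m = if m ∈ f.coeff.support then (1 : ℂ) else 0 := by
    simp only [supp0, AddMonoidAlgebra.coeff_ofCoeff, Finsupp.indicator_apply]
    split_ifs <;> rfl
  rw [Finsupp.mem_support_iff, h]
  by_cases hm : m ∈ f.coeff.support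
  · simp [hm]
  · simp [hm]

end RSP

theorem t_RSP : S_RSP := by
  intro F _ n f
  refine ⟨RSP.supp f, ?_, ?_, ?_⟩
  · intro hf h0
    apply hf
    have h1 := RSP.supp f
    rw [h0] at h1
    have h2 : f.coeff.support = ∅ := by
      rw [← h1]; simp
    have h3 : f.coeff = 0 := Finsupp.support_eq_empty.mp h2
    exact AddMonoidAlgebra.coeff_injective (by simpa using h3)
  · intro ν
    simp only [MMCI.minOn, rmin, RSP.supp]
  · intro r g ν
    simp only [psi, rpsi, MMCI.minOn, rmin, RSP.supp]

end RMM
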