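import Pool.Agent.RMM.StT35
import Pool.Agent.RMM.RSYS3
import Pool.Agent.MMCI.TorLib

/-!
# RMM, RSYSFA: assembly of the final class
-/

set_option autoImplicit false

namespace RMM

open MldGeo MMCI

noncomputable section

namespace RSYSFA

variable {F K : Type} [Field F] [Field K] [Algebra ℂ F] [Algebra ℂ K] [Algebra F K] {e' n : ℕ}

/-- The ring `zring B x j` is nonnegative at the valuations with weight zero on the chart `j`. -/
theorem zring_nonneg (B : ProjModel F) (x : Fin n → K) (hx : ∀ j, x j ≠ 0) (v : DivVal e' K)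
    (j : Fin (B.N + 1)) (hj : OnChart B v j) (hw : wt x v = 0) :
    ∀ a ∈ zring B x j, v.Ge 0 a := by
  intro a ha
  refine Algebra.adjoin_induction (p := fun a _ => v.Ge 0 a) ?_ ?_ ?_ ?_ ha
  · rintro _ (⟨c, hc, rfl⟩ | ⟨m, rfl⟩)
    · exact hj c hc
    · right
      show 0 ≤ v.ord (mon x m)
      rw [MON.ord_mon hx, hw]
      unfold pair
      simp
  · intro c
    exact DivVal.Ge.const v c
  · intro a b _ _ h1 h2
    exact h1.add h2
  · intro a b _ _ h1 h2
    have h3 := h1.mul h2
    rwa [add_zero] at h3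

/-- The centre of a valuation. -/
theorem exists_centre {R : Subalgebra ℂ K} (v : DivVal e' K) (h : ∀ a ∈ R, v.Ge 0 a) :
    ∃ P : Ideal R, HasCentre R v P := by
  let P : Ideal R :=
    { carrier := {a | v.Ge 1 (a : K)}
      zero_mem' := DivVal.Ge.zero v 1
      add_mem' := fun {a b} ha hb => DivVal.Ge.add ha hb
      smul_mem' := fun c a ha => by
        have h1 := (h c c.2).mul (show v.Ge 1 (a : K) from ha)
        rwa [zero_add] at h1 }
  have hm : ∀ a : R, a ∈ P ↔ v.Ge 1 (a : K) := fun a => Iff.rfl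
  have h0 : ∀ a : R, 0 ≤ v.ord a := by
    intro a
    rcases h a a.2 with h1 | h1
    · rw [h1, v.ord_zero]
    · exact h1
  refine ⟨P, ⟨?_, ?_⟩, h0, ?_⟩
  · intro h1
    have h2 : (1 : R) ∈ P := by
      rw [h1]
      trivial
    rw [hm] at h2
    rcases h2 with h2 | h2
    · exact one_ne_zero h2
    · have h3 : v.ord ((1 : R) : K) = 0 := DivVal.ord_one v
      omega
  · intro a b hab
    rw [hm] at hab
    rw [hm, hm]
    by_cases ha : (a : K) = 0
    · exact Or.inl (Or.inl ha)
    by_cases hb : (b : K) = 0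
    · exact Or.inr (Or.inl hb)
    have h1 : ((a * b : R) : K) = (a : K) * b := rfl
    rw [h1] at hab
    have h2 := hab.resolve_left (mul_ne_zero ha hb)
    rw [v.ord_mul _ _ ha hb] at h2
    have h3 := h0 a
    have h4 := h0 b
    by_cases h5 : 1 ≤ v.ord (a : K)
    · exact Or.inl (Or.inr h5)
    · exact Or.inr (Or.inr (by omega))
  · intro a
    rw [hm]
    constructor
    · rintro (h1 | h1)
      · exact Or.inl (Subtype.ext h1)
      · exact Or.inr (by omega)
    · rintro (h1 | h1)
      · left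
        rw [h1]
        rfl
      · right
        omega

end RSYSFA

theorem t_RSYSFA : M_RSYSFA := by
  intro cht cmn clp2 locv fum rvl ltr lpd rnb rdq rrk3 rbd3 rk2 lor bhr tor F K _ _ _ _ _ _ b e n r
    B f x h
  rcases h.inner with hin | ⟨hgen, hter⟩
  · refine t_RSYS3 cmn clp2 locv fum rvl ltr lpd rnb rdq rrk3 rbd3 B f x ?_
    refine ⟨h.dim_eq, h.pos, h.f_ne, h.ne, h.gen, h.dimB, h.terminal, h.dim, h.zero, ?_⟩
    intro ν j m hm
    by_cases hν : ν = 0
    · rw [hν]
      exact hin j m hm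
    · exact h.nondeg ν hν j m hm
  · obtain ⟨κ, y0, β, hB⟩ := rbd3 (K := K) (e' := b + e) B h.dimB h.terminal
    have hreg : RReg e f x := ⟨h.dim_eq, h.f_ne, h.ne, h.gen, h.zero, rk2 B f x h hgen⟩
    have hbpf : ∀ i, Bpf B (coefs (f i)) := by
      intro i j m hm
      obtain ⟨g, hg⟩ := h.loc j m hm
      obtain ⟨⟨u, hu, hc⟩, ha⟩ := hg i
      exact (cmn (K := K) B (f i) j m u (g i) (h.f_ne i) hu hc ha).1
    refine ⟨κ, y0, β, hB, ⟨hreg, hbpf, fun v => ?_⟩⟩
    by_cases hw : wt x v = 0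
    · obtain ⟨j, hj⟩ := cht B v
      obtain ⟨P, hP⟩ := RSYSFA.exists_centre v (RSYSFA.zring_nonneg B x h.ne v j hj hw)
      by_cases hht : P.height = 1
      · left
        exact lor B f x h hgen (fun j => (hter j).1) κ y0 β hB v j P ⟨hP.1, hht, hP.2.1, hP.2.2⟩
      · right
        refine ⟨fun hbig => hht ?_, fun ω hω => ?_⟩
        · exact (bhr B x h.pos h.dim h.ne h.gen j (hter j).1 v P hP).2 hbig
        · exact tor B f x h hgen hbpf hter κ y0 β hB hreg v j P hP hht ω hω
    · exact RSYS3.nd clp2 locv fum rvl ltr lpd rnb rdq B f x κ y0 β h.pos h.dim h.terminal hB hreg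
        hbpf v (h.nondeg _ hw)

end

end RMM
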