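import Pool.Agent.RMM.StT35
import Pool.Agent.RMM.TAY

/-!
# SMP: a general closed point
-/

set_option autoImplicit false

namespace RMM

open MldGeo MMCI

noncomputable section

namespace SMP

variable {F : Type} [Field F] [Algebra ℂ F] {b n r : ℕ} {κ : Type} [Field κ] [Algebra ℂ κ]

section coord

variable {R : Subalgebra ℂ F} {ρ : R →ₐ[ℂ] κ} (C : CoordP R b ρ)

/-- The derivation `s d_l` of `R`. -/
def cl (l : Fin b) : R →ₗ[ℂ] R where
  toFun := C.c l
  map_add' := by
    intro a a'
    apply Subtype.ext
    change (C.c l (a + a') : F) = (C.c l a : F) + (C.c l a' : F)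
    rw [C.cd, C.cd, C.cd]
    change (C.s : F) * C.d l ((a : F) + (a' : F)) = _
    rw [map_add, mul_add]
  map_smul' := by
    intro z a
    apply Subtype.ext
    change (C.c l (z • a) : F) = z • (C.c l a : F)
    rw [C.cd, C.cd]
    change (C.s : F) * C.d l (z • (a : F)) = _
    rw [Derivation.map_smul, mul_smul_comm]

theorem cl_mul (l : Fin b) (a a' : R) : cl C l (a * a') = a * cl C l a' + a' * cl C l a := by
  apply Subtype.ext
  change (C.c l (a * a') : F) = (a : F) * (C.c l a' : F) + (a' : F) * (C.c l a : F)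
  rw [C.cd, C.cd, C.cd]
  change (C.s : F) * C.d l ((a : F) * (a' : F)) = _
  rw [Derivation.leibniz, smul_eq_mul, smul_eq_mul]
  ring

theorem cl_t (l l' : Fin b) : cl C l (C.t l') = if l = l' then C.s else 0 := by
  apply Subtype.ext
  change (C.c l (C.t l') : F) = _
  rw [C.cd, C.dt]
  split_ifs with h <;> simp

theorem cl_algebraMap (l : Fin b) (z : ℂ) : cl C l (algebraMap ℂ R z) = 0 := by
  apply Subtype.ext
  change (C.c l (algebraMap ℂ R z) : F) = 0
  rw [C.cd]
  change (C.s : F) * C.d l (algebraMap ℂ F z) = 0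
  rw [Derivation.map_algebraMap, mul_zero]

/-- The derivations along `ρ`. -/
def dl (l : Fin b) : R →ₗ[ℂ] κ := (ρ C.s)⁻¹ • (ρ.toLinearMap ∘ₗ cl C l)

theorem dl_apply (l : Fin b) (a : R) : dl C l a = (ρ C.s)⁻¹ * ρ (cl C l a) := rfl

theorem s_dl (l : Fin b) (a : R) : ρ (cl C l a) = ρ C.s * dl C l a := by
  rw [dl_apply, mul_inv_cancel_left₀ C.s_ne]

theorem dl_isDer (l : Fin b) : IsDer ρ (dl C l) := by
  intro a c
  rw [dl_apply, dl_apply, dl_apply, cl_mul, map_add, map_mul, map_mul]
  ring

theorem dl_li : LinearIndependent κ (dl C) := by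
  rw [Fintype.linearIndependent_iff]
  intro z hz l
  have h1 := LinearMap.congr_fun hz (C.t l)
  rw [LinearMap.sum_apply] at h1
  have h2 : ∀ l', (z l' • dl C l') (C.t l) = if l' = l then z l' else 0 := by
    intro l'
    rw [LinearMap.smul_apply, dl_apply, cl_t]
    split_ifs with h
    · rw [inv_mul_cancel₀ C.s_ne, smul_eq_mul, mul_one]
    · rw [map_zero, mul_zero, smul_zero]
  rw [Finset.sum_congr rfl fun l' _ => h2 l'] at h1
  simpa using h1

end coord

section point

variable {R : Subalgebra ℂ F}

theorem ptt_ne (π : LR R n →ₐ[ℂ] κ) (j : Fin n) : ptt π j ≠ 0 := by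
  intro h0
  have h1 : π (AddMonoidAlgebra.single (Pi.single j 1) 1) *
      π (AddMonoidAlgebra.single (-(Pi.single j 1)) 1) = 1 := by
    rw [← map_mul, AddMonoidAlgebra.single_mul_single, add_neg_cancel, mul_one]
    exact map_one π
  rw [show π (AddMonoidAlgebra.single (Pi.single j 1) 1) = 0 from h0, zero_mul] at h1
  exact zero_ne_one h1

/-- `π` is the value at the point `ptt π`. -/
theorem pi_eq (π : LR R n →ₐ[ℂ] κ) :
    (π : LR R n →+* κ) = TAY.evl (res0 π : R →+* κ) (ptt π) (ptt_ne π) := by
  apply TAY.hom_ext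
  · intro c
    rw [TAY.evl_single, TAY.mon_zero, mul_one]
    rfl
  · intro j
    rw [TAY.evl_single, map_one, one_mul]
    change ptt π j = mon (ptt π) (Pi.single j 1)
    unfold mon
    rw [Finset.prod_eq_single j]
    · simp
    · intro i _ hij
      rw [Pi.single_eq_of_ne hij, zpow_zero]
    · intro h
      exact absurd (Finset.mem_univ j) h

theorem pi_cmap (π : LR R n →ₐ[ℂ] κ) (δ : (Fin n → ℤ) → R →+ R) (G : LR R n) :
    π (TAY.cmap δ G) = G.coeff.sum fun a c => res0 π (δ a c) * mon (ptt π) a := by
  have h0 : π (TAY.cmap δ G) = TAY.evl (res0 π : R →+* κ) (ptt π) (ptt_ne π)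
      (TAY.cmap δ G) := by
    rw [← pi_eq]
    rfl
  rw [h0, TAY.cmap_eq, map_finsuppSum]
  exact Finsupp.sum_congr fun a _ => TAY.evl_single _ _ _ _ _

end point

end SMP

theorem t_SMP : S_SMP := by
  intro F _ _ b e n r κ _ _ R π hR hn C g hg hrank
  have hρ : ∀ a : R, π (algebraMap R (LR R n) a) = res0 π a := fun _ => rfl
  -- the derivations over the Laurent ring
  let E : Fin b → LR R n →+ LR R n := fun l => TAY.cmap fun _ => (SMP.cl C l).toAddMonoidHom
  let E' : Fin n → LR R n →+ LR R n := fun k => TAY.cmap fun a => TAY.zder R (a k)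
  have hEm : ∀ l u w, E l (u * w) = u * E l w + w * E l u := by
    intro l
    apply TAY.cmap_mul
    intro _ _ c c'
    exact SMP.cl_mul C l c c'
  have hEm' : ∀ k u w, E' k (u * w) = u * E' k w + w * E' k u := by
    intro k
    apply TAY.cmap_mul
    intro a a' c c'
    change (((a + a') k : ℤ) : R) * (c * c') = c * (((a' k : ℤ) : R) * c') +
      c' * (((a k : ℤ) : R) * c)
    rw [Pi.add_apply]
    push_cast
    ring
  have hEc : ∀ l (z : ℂ), E l (algebraMap ℂ (LR R n) z) = 0 := by
    intro l z
    rw [TAY.algebraMap_eq]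
    change TAY.cmap _ _ = 0
    rw [TAY.cmap_single]
    have h1 : (SMP.cl C l).toAddMonoidHom (algebraMap ℂ R z) = 0 := SMP.cl_algebraMap C l z
    rw [h1, AddMonoidAlgebra.single_zero]
  have hEc' : ∀ k (z : ℂ), E' k (algebraMap ℂ (LR R n) z) = 0 := by
    intro k z
    rw [TAY.algebraMap_eq]
    change TAY.cmap _ _ = 0
    rw [TAY.cmap_single]
    have h1 : TAY.zder R ((0 : Fin n → ℤ) k) (algebraMap ℂ R z) = 0 := by
      change (((0 : Fin n → ℤ) k : ℤ) : R) * _ = 0
      simp
    rw [h1, AddMonoidAlgebra.single_zero]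
  let W : Matrix (Fin r) (Fin (b + n)) (LR R n) :=
    Matrix.of fun i => Fin.append (fun l => E l (g i)) fun k => E' k (g i)
  let γ : Fin (b + n) → κ := Fin.append (fun _ => res0 π C.s) fun _ => 1
  have hγ : ∀ c, γ c ≠ 0 := by
    intro c
    refine Fin.addCases (fun l => ?_) (fun k => ?_) c
    · simp only [γ, Fin.append_left]
      exact C.s_ne
    · simp only [γ, Fin.append_right]
      exact one_ne_zero
  have hW : ∀ i c, π (W i c) = γ c * lam π (SMP.dl C) g i c := by
    intro i c
    refine Fin.addCases (fun l => ?_) (fun k => ?_) c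
    · simp only [W, γ, lam, Matrix.of_apply, Fin.append_left]
      change π (TAY.cmap _ (g i)) = _
      rw [SMP.pi_cmap, pdv, Finsupp.mul_sum]
      refine Finsupp.sum_congr fun a _ => ?_
      have h1 : res0 π ((SMP.cl C l).toAddMonoidHom ((g i).coeff a)) =
        res0 π C.s * SMP.dl C l ((g i).coeff a) := SMP.s_dl C l _
      rw [h1]
      simp only [Pi.zero_apply, zero_mul, Finset.sum_const_zero, mul_zero, add_zero]
      ring
    · simp only [W, γ, lam, Matrix.of_apply, Fin.append_right]
      change π (TAY.cmap _ (g i)) = _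
      rw [SMP.pi_cmap, pdv, one_mul]
      refine Finsupp.sum_congr fun a _ => ?_
      have h1 : res0 π (TAY.zder R (a k) ((g i).coeff a)) =
          ((a k : ℤ) : κ) * res0 π ((g i).coeff a) := by
        change res0 π (((a k : ℤ) : R) * (g i).coeff a) = _
        rw [map_mul, map_intCast]
      have h2 : ∑ j, (Pi.single k 1 : Fin n → κ) j * ((a j : ℤ) : κ) = ((a k : ℤ) : κ) := by
        rw [Finset.sum_eq_single k]
        · rw [Pi.single_eq_same, one_mul]
        · intro j _ hj
          rw [Pi.single_eq_of_ne hj, zero_mul]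
        · intro h
          exact absurd (Finset.mem_univ k) h
      rw [h1, h2, LinearMap.zero_apply, zero_add]
      ring
  -- a nonzero minor
  have hli : LinearIndependent κ (lam π (SMP.dl C) g).row := by
    have h1 := hrank (SMP.dl C) (fun l => SMP.dl_isDer C l) (SMP.dl_li C)
    rw [linearIndependent_iff_card_le_finrank_span, Fintype.card_fin]
    have h2 : (lam π (SMP.dl C) g).rank = Set.finrank κ (Set.range (lam π (SMP.dl C) g).row) :=
      Matrix.rank_eq_finrank_span_row _
    omega
  obtain ⟨g0, -, hdet⟩ := MIN.exists_minor _ hli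
  let δ : LR R n := (Matrix.of fun i j : Fin r => W i (g0 j)).det
  have hδ : π δ ≠ 0 := by
    have h1 : π δ = (∏ j, γ (g0 j)) *
        (Matrix.of fun i j : Fin r => lam π (SMP.dl C) g i (g0 j)).det := by
      have h2 := RingHom.map_det (π : LR R n →+* κ) (Matrix.of fun i j : Fin r => W i (g0 j))
      refine Eq.trans h2 ?_
      rw [← Matrix.det_mul_row]
      congr 1
      ext i j
      exact hW i (g0 j)
    rw [h1]
    exact mul_ne_zero (Finset.prod_ne_zero_iff.2 fun j _ => hγ _) hdet
  choose a ha using hg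
  let s' : LR R n := algebraMap R (LR R n) C.s * δ *
    ∏ i, algebraMap R (LR R n) ((g i).coeff (a i))
  have hs' : π s' ≠ 0 := by
    simp only [s', map_mul, map_prod]
    refine mul_ne_zero (mul_ne_zero ?_ hδ) (Finset.prod_ne_zero_iff.2 fun i _ => ?_)
    · exact C.s_ne
    · exact ha i
  -- the maximal ideal
  have hft := TAY.fin_type (n := n) R hR
  have hJ : IsJacobsonRing (LR R n) := isJacobsonRing_of_finiteType (A := ℂ)
  obtain ⟨M, hkM, hM, hsM⟩ : ∃ M : Ideal (LR R n), RingHom.ker (π : LR R n →+* κ) ≤ M ∧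
      M.IsMaximal ∧ s' ∉ M := by
    by_contra hcon
    push Not at hcon
    have h1 : s' ∈ (RingHom.ker (π : LR R n →+* κ)).jacobson := by
      rw [Ideal.jacobson, Submodule.mem_sInf]
      rintro J ⟨hJ1, hJ2⟩
      exact hcon J hJ1 hJ2
    have h2 : (RingHom.ker (π : LR R n →+* κ)).IsRadical :=
      (RingHom.ker_isPrime (π : LR R n →+* κ)).isRadical
    rw [hJ.out h2] at h1
    exact hs' h1
  obtain ⟨π', hπ'⟩ := TAY.exists_residue R hR M hM
  set m : Ideal R := M.comap (algebraMap R (LR R n)) with hm
  have hmem : ∀ c : R, c ∈ m ↔ π' (algebraMap R (LR R n) c) = 0 := fun c => (hπ' _).symm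
  have hconst : ∀ z : ℂ, π' (algebraMap R (LR R n) (algebraMap ℂ R z)) = z := by
    intro z
    have h1 : algebraMap R (LR R n) (algebraMap ℂ R z) = algebraMap ℂ (LR R n) z := rfl
    rw [h1, AlgHom.commutes]
    rfl
  have hsM' : algebraMap R (LR R n) C.s ∉ M ∧ δ ∉ M ∧
      ∀ i, algebraMap R (LR R n) ((g i).coeff (a i)) ∉ M := by
    refine ⟨fun h => hsM ?_, fun h => hsM ?_, fun i h => hsM ?_⟩
    · exact Ideal.mul_mem_right _ _ (Ideal.mul_mem_right _ _ h)
    · exact Ideal.mul_mem_right _ _ (Ideal.mul_mem_left _ _ h)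
    · refine Ideal.mul_mem_left _ _ ?_
      rw [← Finset.mul_prod_erase _ _ (Finset.mem_univ i)]
      exact Ideal.mul_mem_right _ _ h
  have hmmax : m.IsMaximal := by
    have h1 : m = RingHom.ker ((π' : LR R n →+* ℂ).comp (algebraMap R (LR R n))) := by
      ext c
      rw [hmem]
      rfl
    rw [h1]
    apply RingHom.ker_isMaximal_of_surjective
    intro z
    exact ⟨algebraMap ℂ R z, hconst z⟩
  refine ⟨M, hM, fun G hG => hkM hG, hmmax, fun i => ⟨a i, hsM'.2.2 i⟩, ?_, ?_⟩
  · -- the cotangent space
    let q : R → ℂ := fun c => π' (algebraMap R (LR R n) c)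
    let y : Fin b → R := fun l => C.t l - algebraMap ℂ R (q (C.t l))
    have hq : ∀ c : R, c - algebraMap ℂ R (q c) ∈ m := by
      intro c
      rw [hmem, map_sub, map_sub, hconst]
      exact sub_self _
    refine ⟨y, le_antisymm ?_ (sup_le ?_ (Ideal.pow_le_self two_ne_zero))⟩
    swap
    · rw [Ideal.span_le]
      rintro _ ⟨l, rfl⟩
      exact hq _
    set I : Ideal R := Ideal.span (Set.range y) ⊔ m ^ 2 with hI
    -- the derivation
    let ε : Derivation ℂ R (R ⧸ I) :=
      Derivation.mk'
        { toFun := fun c => Ideal.Quotient.mk I (c - algebraMap ℂ R (q c))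
          map_add' := by
            intro c c'
            rw [← map_add]
            congr 1
            simp only [q, map_add]
            ring
          map_smul' := by
            intro z c
            have h1 : q (z • c) = z * q c := by
              simp only [q]
              rw [Algebra.smul_def, map_mul, map_mul, hconst]
            rw [h1, RingHom.id_apply, ← Ideal.Quotient.mkₐ_eq_mk ℂ, ← map_smul]
            congr 1
            rw [map_mul, smul_sub, Algebra.smul_def, Algebra.smul_def] }
        (by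
          intro c c'
          change Ideal.Quotient.mk I (c * c' - algebraMap ℂ R (q (c * c'))) =
            c • Ideal.Quotient.mk I (c' - algebraMap ℂ R (q c')) +
            c' • Ideal.Quotient.mk I (c - algebraMap ℂ R (q c))
          rw [Algebra.smul_def, Algebra.smul_def, Ideal.Quotient.algebraMap_eq, ← map_mul,
            ← map_mul, ← map_add, Ideal.Quotient.mk_eq_mk_iff_sub_mem]
          have h1 : q (c * c') = q c * q c' := by
            simp only [q]
            rw [map_mul, map_mul]
          have h2 : c * c' - algebraMap ℂ R (q (c * c')) -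
              (c * (c' - algebraMap ℂ R (q c')) + c' * (c - algebraMap ℂ R (q c))) =
              -((c - algebraMap ℂ R (q c)) * (c' - algebraMap ℂ R (q c'))) := by
            rw [h1, map_mul]
            ring
          rw [h2]
          refine I.neg_mem (Ideal.mem_sup_right ?_)
          rw [pow_two]
          exact Ideal.mul_mem_mul (hq c) (hq c'))
    have hεa : ∀ c, ε c = Ideal.Quotient.mk I (c - algebraMap ℂ R (q c)) := fun _ => rfl
    have hεt : ∀ l, ε (C.t l) = 0 := by
      intro l
      rw [hεa, Ideal.Quotient.eq_zero_iff_mem]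
      exact Ideal.mem_sup_left (Ideal.subset_span ⟨l, rfl⟩)
    have hsε : ∀ c, C.s • ε c = 0 := by
      intro c
      have h1 := congrArg ε.liftKaehlerDifferential (C.rel c)
      rw [map_smul, map_sum, Derivation.liftKaehlerDifferential_comp_D] at h1
      rw [h1]
      refine Finset.sum_eq_zero fun l _ => ?_
      rw [map_smul, Derivation.liftKaehlerDifferential_comp_D, hεt, smul_zero]
    intro c hc
    have hc0 : q c = 0 := (hmem c).1 hc
    have h1 : C.s * c ∈ I := by
      have h2 := hsε c
      rw [hεa, hc0, map_zero, sub_zero, Algebra.smul_def, Ideal.Quotient.algebraMap_eq,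
        ← map_mul, Ideal.Quotient.eq_zero_iff_mem] at h2
      exact h2
    have hqs : q C.s ≠ 0 := by
      intro h
      exact hsM'.1 ((hπ' _).1 h)
    have h3 : c = algebraMap ℂ R (q C.s)⁻¹ * (C.s * c) -
        algebraMap ℂ R (q C.s)⁻¹ * ((C.s - algebraMap ℂ R (q C.s)) * c) := by
      have h4 : algebraMap ℂ R (q C.s)⁻¹ * algebraMap ℂ R (q C.s) = 1 := by
        rw [← map_mul, inv_mul_cancel₀ hqs, map_one]
      linear_combination (-c) * h4
    rw [h3]
    refine I.sub_mem (Ideal.mul_mem_left _ _ h1) (Ideal.mul_mem_left _ _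
      (Ideal.mem_sup_right ?_))
    rw [pow_two]
    exact Ideal.mul_mem_mul (hq _) hc
  · -- independence
    intro τ hτ
    have h1 : ∀ c, ∑ i, τ i * π' (W i c) = 0 := by
      have hsm : ∀ i, τ i • g i = algebraMap ℂ (LR R n) (τ i) * g i := fun i =>
        Algebra.smul_def _ _
      intro c
      refine Fin.addCases (fun l => ?_) (fun k => ?_) c
      · have h2 := TAY.der_sq M π' hπ' (E l) (hEm l) _ hτ
        rw [map_sum, map_sum] at h2
        rw [← h2]
        refine Finset.sum_congr rfl fun i _ => ?_
        rw [hsm, hEm, hEc, mul_zero, add_zero, map_mul, AlgHom.commutes]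
        simp only [W, Matrix.of_apply, Fin.append_left]
        rfl
      · have h2 := TAY.der_sq M π' hπ' (E' k) (hEm' k) _ hτ
        rw [map_sum, map_sum] at h2
        rw [← h2]
        refine Finset.sum_congr rfl fun i _ => ?_
        rw [hsm, hEm', hEc', mul_zero, add_zero, map_mul, AlgHom.commutes]
        simp only [W, Matrix.of_apply, Fin.append_right]
        rfl
    have h2 : (Matrix.of fun i j : Fin r => π' (W i (g0 j))).det ≠ 0 := by
      have h3 : π' δ = (Matrix.of fun i j : Fin r => π' (W i (g0 j))).det := by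
        have h4 := RingHom.map_det (π' : LR R n →+* ℂ) (Matrix.of fun i j : Fin r => W i (g0 j))
        refine Eq.trans h4 ?_
        congr 1
      rw [← h3]
      intro h
      exact hsM'.2.1 ((hπ' _).1 h)
    apply Matrix.eq_zero_of_vecMul_eq_zero h2
    funext j
    change ∑ i, τ i * π' (W i (g0 j)) = 0
    exact h1 (g0 j)

end

end RMM
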