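import Pool.Agent.RMM.St
import Pool.Agent.MMCI.StC

/-!
# Relative minimal models, blocks C and D: the projective model and curves. Statements.

The statements of `MMCI/StC.lean` are theorems (`MMCI/CD.lean`: `LCM_holds`, `RGW_holds`,
`CMP_holds`, `S_MOD_holds`, `PRF_holds`; `t_FUL`, `t_RSU`, `t_CUR`, `t_CHW`, `t_LOV`, `t_CRT`,
`t_FRC`).
-/

set_option autoImplicit false

namespace RMM

open MldGeo MMCI

noncomputable section

/-! ## the coordinates `xh` and the exponents `eh j a` -/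

/-- XHM. Proof. `mon (xh B x) (eh j a) = algebraMap (s_j / s_0) * mon x a` (`Fin.prod_univ_add`,
`Fin.append_left`, `Fin.append_right`; for `j = 0` the first factor is `1 = s_0 / s_0`); the quotient
of two of these gives the second part. `v.ord (mon (xh B x) m) = pair (wt (xh B x) v) m`
(`t_FUL`, third part), so `MinAt (Ah A) (eh j a) (wt (xh B x) v)` says: for all `j'`, `a' ∈ A`,
`0 ≤ v.ord (algebraMap (s_j' / s_j)) + pair (wt x v) (a' - a)`. Take `a' = a`, or `j' = j`. `OnChart B v j`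
holds iff `0 ≤ v.ord (algebraMap (s_j' / s_j))` for all `j'` (`B.ring j` is generated by the
`s_j' / s_j`; `Algebra.adjoin_induction`). -/
def S_XHM : Prop := ∀ {F K : Type} [Field F] [Field K] [Algebra ℂ F] [Algebra ℂ K] [Algebra F K]
  [IsScalarTower ℂ F K] {n : ℕ} (B : ProjModel F) (x : Fin n → K), (∀ j, x j ≠ 0) →
  (∀ l, xh B x l ≠ 0) ∧
  (∀ (j j' : Fin (B.N + 1)) (a a' : Fin n → ℤ), mon (xh B x) (eh j' a' - eh j a) =
    algebraMap F K (B.s j' / B.s j) * mon x (a' - a)) ∧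
  (∀ {e' : ℕ} (v : DivVal e' K) (j : Fin (B.N + 1)),
    OnChart B v j ↔ ∀ j', 0 ≤ v.ord (algebraMap F K (B.s j' / B.s j))) ∧
  ∀ {e' : ℕ} (v : DivVal e' K) (A : Finset (Fin n → ℤ)) (j : Fin (B.N + 1)) (a : Fin n → ℤ), a ∈ A →
    (MinAt (Ah B.N A) (eh j a) (wt (xh B x) v) ↔ OnChart B v j ∧ MinAt A a (wt x v))

/-- RMOD: the projective model exists. Proof. `S_MOD_holds` for `xh B x` and `Ah B.N A`. The field
`adjoin ℂ (range (xh B x))` contains the `algebraMap (s_j / s_0)`, hence (`B.gen`) the image of `F`,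
and the `x j`. For `eh j a ∈ Ah B.N A` the `N + n` differences `eh j' a - eh j a` (`j' ≠ j`) and
`eh j (b l) - eh j a` are linearly independent: the former are `Fin.append (E_j' - E_j) 0` with
`E_0 = 0`, `E_(l+1) = Pi.single l 1`, the latter `Fin.append 0 (b l - a)` (`Fin.append` of
`fun l => eh (j.succAbove l) a` and `fun l => eh j (b l)` as the family). -/
def S_RMOD : Prop := ∀ {F K : Type} [Field F] [Field K] [Algebra ℂ F] [Algebra ℂ K] [Algebra F K]
  [IsScalarTower ℂ F K] {e' n : ℕ} (B : ProjModel F) (x : Fin n → K), 0 < e' →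
  Algebra.trdeg ℂ K = (e' : Cardinal) → (∀ j, x j ≠ 0) →
  IntermediateField.adjoin F (Set.range x) = ⊤ → ∀ A : Finset (Fin n → ℤ), A.Nonempty →
  (∀ a ∈ A, ∃ b : Fin n → (Fin n → ℤ), (∀ l, b l ∈ A) ∧ LinearIndependent ℤ fun l => b l - a) →
  ∃ Y : ProjModel K, IsModel e' (xh B x) (Ah B.N A) Y

/-- RSUP: the polynomials `supp0 g`. (`(supp0 g).coeff.support = g.coeff.support`; for `g = 0` both
sides of the third part are zero because `sInf ∅ = 0`; see `KEY.minOn_smul` in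
`MMCI/K_KEY.lean`.) -/
def S_RSUP : Prop := ∀ {F : Type} [Field F] {n : ℕ} (g : LR F n),
  ((supp0 g).coeff.support = g.coeff.support) ∧ (∀ w, minOn (supp0 g) w = rmin g w) ∧
  (∀ (k : ℤ) (w : Fin n → ℤ), 0 < k → rmin g (k • w) = k * rmin g w) ∧
  (g ≠ 0 → supp0 g ≠ 0)

/-! ## the centre on `B` -/

/-- MCEN: the morphism from the model to `B`. Proof. `IsModel.pt` gives `eh j a`, `a ∈ A`. For `v`
with the centre `P ≤ m`, `XHM` gives `OnChart B v j` and `MinAt A a (wt x v)`. For `c ∈ B.ring j`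
`LCM_holds` (prime divisors have a centre) gives `p`, `q ∉ m` with `algebraMap c * q = p`; whether
`p ∈ m` does not depend on the choice. Let `mB` be the set of the `c` with `p ∈ m`: an ideal,
`1 ∉ mB`. By the Nullstellensatz (`Y.ring i` is finitely generated, `t_FRC`; see
`MMCI/K_NUL.lean`) there are `λ, μ : ℂ` with `p - λ, q - μ ∈ m`, `μ ≠ 0`, so
`c - λ / μ ∈ mB`; hence `mB` is maximal. `Through`: let `c ∈ B.ring j`, `v.Ge 1 (algebraMap c)`; `q ∉ P`,
so `q ≠ 0`, `v.ord q = 0`, so `p = 0` or `0 < v.ord p`, so `p ∈ P ≤ m` and `c ∈ mB`. The last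
equivalence is `IsModel.pt` with `XHM` (all elements of `Ah B.N A` are of the form `eh j' b`). -/
def S_MCEN : Prop := ∀ {F K : Type} [Field F] [Field K] [Algebra ℂ F] [Algebra ℂ K] [Algebra F K]
  [IsScalarTower ℂ F K] {e' n : ℕ} (B : ProjModel F) (x : Fin n → K) (A : Finset (Fin n → ℤ))
  (Y : ProjModel K), Algebra.trdeg ℂ K = (e' : Cardinal) → (∀ j, x j ≠ 0) →
  IsModel e' (xh B x) (Ah B.N A) Y → ∀ i (m : Ideal (Y.ring i)), m.IsMaximal →
  ∃ (j : Fin (B.N + 1)) (mB : Ideal (B.ring j)) (a : Fin n → ℤ), mB.IsMaximal ∧ a ∈ A ∧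
    (∀ c : B.ring j, ∃ p q : Y.ring i, q ∉ m ∧ algebraMap F K c * q = p ∧ (p ∈ m ↔ c ∈ mB)) ∧
    ∀ (v : DivVal e' K) (P : Ideal (Y.ring i)), HasCentre (Y.ring i) v P → P ≤ m →
      Through B v j mB ∧ MinAt A a (wt x v) ∧
      (P.height = 1 ↔ ∃ (j' : Fin (e' - 1) → Fin (B.N + 1)) (b : Fin (e' - 1) → (Fin n → ℤ)),
        (∀ l, b l ∈ A) ∧
        ResIndep v fun l => algebraMap F K (B.s (j' l) / B.s j) * mon x (b l - a))

/-- RRES: the residues. Proof. As `t_RES` (`MMCI/K_RES.lean`: `RES.choose`, for the family `t` with the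
index set `Fin (B.N + 1) ⊕ Fin k`; `v.Ge 0 (t i)` by `OnChart`). Let `c l`, `q l` be as in `BIG`. The
residue of `mon x (q l)` is algebraic over the ring generated by the residues of the `mon x (b l)`,
as there. `c l * q' = p'` with `p'`, `q'` in `B.ring j'`, `v.ord q' = 0`, `OnChart B v j'`. So
`s_j' / s_j` has the order zero, and by `t_LOV` there is `d` such that the products of `p'`, `q'` with
`(s_j' / s_j)^d` are in `B.ring j`. So `c l * q'' = p''` with `p''`, `q''` in `B.ring j`,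
`v.ord q'' = 0`. The residues of the elements of `B.ring j` are in the ring generated by the residues of
the `s_j' / s_j` (`Algebra.adjoin_induction`), so the residue of `c l` is algebraic. -/
def S_RRES : Prop := ∀ {F K : Type} [Field F] [Field K] [Algebra ℂ F] [Algebra ℂ K] [Algebra F K]
  [IsScalarTower ℂ F K] {e' n k : ℕ} (B : ProjModel F) (x : Fin n → K), (∀ j, x j ≠ 0) →
  ∀ (v : DivVal e' K) (j : Fin (B.N + 1)), OnChart B v j → BIG B x v →
  ∀ b : Fin k → (Fin n → ℤ), (∀ l, pair (wt x v) (b l) = 0) →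
    (∀ m, pair (wt x v) m = 0 → ∃ (N : ℤ) (c : Fin k → ℤ), N ≠ 0 ∧ N • m = ∑ l, c l • b l) →
    ∃ u : Fin (e' - 1) → Fin (B.N + 1) ⊕ Fin k, ResIndep v fun l =>
      Sum.elim (fun j' => algebraMap F K (B.s j' / B.s j)) (fun l' => mon x (b l')) (u l)

/-- RKEY. Proof. As `t_KEY` (`MMCI/K_KEY.lean`), with `a` from `MCEN`; `v.formOrd ω = v.logOrd ω - 1`
(`cTXT`). `P.height = 1 → BIG`: `MCEN` gives `j'`, `b`; the order of each product is zero and both
factors have nonnegative orders (`OnChart`, `MinAt`), so both have the order zero; take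
`c l = s_(j' l) / s_j` (in `B.ring j`, so `InO`), `q l = b l - a`. `BIG → P.height = 1` (if the
`b l - a`, `b l ∈ A`, are `n`, resp. `n - 1`, independent vectors orthogonal to `wt x v`): `RRES`;
`mon x (b l' - a) = algebraMap (s_j / s_j) * mon x (b l' - a)` and
`algebraMap (s_j' / s_j) = algebraMap (s_j' / s_j) * mon x (a - a)`. All inequalities are multiplied
by `κ`, `psi (fun i => supp0 (f i)) = rpsi f` (`RSUP`). `bnd` is applied to `c l`, `q l` as above. -/
def M_RKEY : Prop := S_XHM → S_RSUP → S_MCEN → S_RRES → S_RKEY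

/-! ## the data at the closed points -/

/-- The equation of `k κ K_Y`; `G` is an equation of `κ (K_B + ∑ L_i)`. -/
def eqq {F K : Type} [Field F] [Field K] [Algebra F K] {n : ℕ} (κ k : ℕ) (x : Fin n → K) (G : F)
    (u : Fin n → ℤ) : K := algebraMap F K G ^ k * mon x (-((κ : ℤ) • u))

/-- The data at the closed point `m` of the chart `i` of `Y`: the point `mB` of the chart `j` of `B`
below it, the chart `a` of the toric variety, and a local equation `G` of `κ (K_B + ∑ L_i)`. -/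
structure IsPt {F K : Type} [Field F] [Field K] [Algebra ℂ F] [Algebra ℂ K] [Algebra F K]
    {b e' n r : ℕ} (B : ProjModel F) (κ : ℕ) (y0 : Fin b → F) (C : Fin r → Set F) (x : Fin n → K)
    (A : Finset (Fin n → ℤ)) (k : ℕ) (u : (Fin n → ℤ) → (Fin n → ℤ)) (ω : Forms e' K)
    (Y : ProjModel K) (i : Fin (Y.N + 1)) (m : Ideal (Y.ring i)) (j : Fin (B.N + 1))
    (mB : Ideal (B.ring j)) (a : Fin n → ℤ) (G : F) : Prop where
  max : mB.IsMaximal
  mem : a ∈ A
  G_ne : G ≠ 0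
  res : ∀ c : B.ring j, ∃ p q : Y.ring i, q ∉ m ∧ algebraMap F K c * q = p ∧ (p ∈ m ↔ c ∈ mB)
  eqB : IsEqD (B.ring j) (dlogs y0) (adj C Finset.univ) κ mB G
  ctr : ∀ (v : DivVal e' K) (P : Ideal (Y.ring i)), HasCentre (Y.ring i) v P → P ≤ m →
    Through B v j mB ∧ MinAt A a (wt x v) ∧
    0 ≤ ((k * κ : ℕ) : ℤ) * v.formOrd ω - v.ord (eqq κ k x G (u a)) ∧
    (((k * κ : ℕ) : ℤ) * v.formOrd ω - v.ord (eqq κ k x G (u a)) = 0 ↔ P.height = 1)

/-- RBAS: the local equations on `B`. Proof. `G = E * ∏ i, c_i ^ (-κ)`, `E` from `BaseData.eqn`,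
`c_i ∈ coefs (f i)` from `Bpf`; finitely many, because the sets `coefs (f i)` are finite. If
`Through B v j m` (`v` a valuation of `K`, or of `F`, with `F` instead of `K`) and
`c' / c_i * q = p`, `q ∉ m`, then `v.ord q = 0` (otherwise `v.Ge 1 q` and `q ∈ m`) and `0 ≤ v.ord p`
or `p = 0`; so `v.ord c_i` is the least element of the set in `cmin v (coefs (f i))`
(`IsLeast.csInf_eq`). A prime divisor `v` of `F` with `P ≤ m` satisfies `Through B v j m`. So
`v.ord G = κ v.formOrd (dlogs y0) - κ ∑ cmin`, and `v.ord G = β v - κ ∑ cmin` for the valuations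
of `K` (`BaseData.beta`). -/
def S_RBAS : Prop := ∀ {F K : Type} [Field F] [Field K] [Algebra ℂ F] [Algebra ℂ K] [Algebra F K]
  [IsScalarTower ℂ F K] {e' n r : ℕ} (B : ProjModel F) (κ : ℕ) (b : ℕ) (y0 : Fin b → F)
  (β : DivVal e' K → ℤ) (f : Fin r → LR F n), (∀ i, Bpf B (coefs (f i))) →
  BaseData B b e' K κ y0 β →
  ∃ S : Finset F, ∀ j (m : Ideal (B.ring j)), m.IsMaximal → ∃ G ∈ S, G ≠ 0 ∧
    IsEqD (B.ring j) (dlogs y0) (adj (fun i => coefs (f i)) Finset.univ) κ m G ∧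
    ∀ v : DivVal e' K, Through B v j m →
      v.ord (algebraMap F K G) = bo κ β (fun i => coefs (f i)) v

/-- RPT: the data at the closed points of the model. Proof. `RKEY` gives `j`, `mB`, `a`, `RBAS` gives
`G`; `v.ord (eqq κ k x G u) = k * v.ord (algebraMap G) - κ * pair (wt x v) u` (`t_FUL`). -/
def S_RPT : Prop := ∀ {F K : Type} [Field F] [Field K] [Algebra ℂ F] [Algebra ℂ K] [Algebra F K]
  [IsScalarTower ℂ F K] {e' n r : ℕ} (B : ProjModel F) (κ : ℕ) (b : ℕ) (y0 : Fin b → F)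
  (β : DivVal e' K → ℤ) (f : Fin r → LR F n) (x : Fin n → K), 0 < e' →
  Algebra.trdeg ℂ K = (e' : Cardinal) → (∀ j, x j ≠ 0) → (∀ i, Bpf B (coefs (f i))) →
  BaseData B b e' K κ y0 β →
  ∀ (D : Fan fun i => supp0 (f i)) (ω : Forms e' K) (Y : ProjModel K), RLog B κ β f x ω →
  IsModel e' (xh B x) (Ah B.N D.A) Y →
  ∃ S : Finset F, ∀ i (m : Ideal (Y.ring i)), m.IsMaximal →
    ∃ (j : Fin (B.N + 1)) (mB : Ideal (B.ring j)) (a : Fin n → ℤ) (G : F), G ∈ S ∧
      IsPt B κ y0 (fun i => coefs (f i)) x D.A D.k D.u ω Y i m j mB a G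

def M_RPT : Prop := S_RKEY → S_RBAS → S_RPT

/-- RTER. Proof. Let `ω' ≠ 0`; `t_CHW` gives `g ≠ 0` with `v.formOrd ω' = v.ord g + v.formOrd ω`.
Near `m` the function `g ^ (D.k κ) * eqq κ D.k x G (D.u a)` is an equation of `D.k κ K_Y`,
`K_Y = div(ω')` (`IsPt.ctr`, prime divisors have a centre of height one), and the discrepancies
are positive by `IsPt.ctr`. -/
def M_RTER : Prop := S_RPT → S_RTER

/-- RSEM. Proof. `SemD` for `dlogs y0` gives `k0`, `N`, `h`. Let `(j, m)` be a closed point of `B`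
and `G` an equation of `κ (K_B + ∑ L_i)` at it (`IsEqD`). By `LCM_holds` for `B` (`BaseData.dimF`,
`BaseData.normal`) `h_l^κ G^k0` is in the local ring at `m`, and for some `l = l(m)` its inverse, too.
So for `v` with `Through B v j m`: `0 ≤ κ v.ord h_l + k0 v.ord G` (in `K`), and `= 0` for `l = l(m)`
(as in `RBAS`: elements of `B.ring j` outside `m` have the order zero). Let `M = D.k κ k0`. For `ω`
the sections are `algebraMap (h_l) ^ (κ D.k) * mon x ((κ k0) • D.u a')`, `l : Fin N`, `a' ∈ D.A`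
(`Fintype.equivFin`): by `IsPt.ctr` for prime divisors (choose a maximal ideal `m ≥ P`) the order
plus `M v.formOrd ω` is `D.k (κ v.ord h_l + k0 v.ord G) + κ k0 (pair w (u a') - pair w (u a))`, both
terms are `≥ 0` (`FanA.nef`), and `0` for `a' = a`, `l = l(mB)`. For `ω'`: `t_CHW`, multiply by
`g ^ (-M)`. -/
def M_RSEM : Prop := S_RPT → S_RSEM

/-! ## curves -/

/-- LOP: `Stmt_LCM` for prime ideals `Q` instead of maximal ideals. Proof. Copy
`MldGeo/LOC.lean` (`LOC.den`, `exists_prime`, `height_one`, `t_LOC`) with a prime ideal `Q` of `X.R`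
instead of `X.m` (only `X.max.isPrime` is used there), and `MMCI/LCM.lean`. (Take for `X.m` a maximal
ideal containing `Q`.) -/
def S_LOP : Prop := ∀ {e : ℕ} {K : Type} [Field K] [Algebra ℂ K] (Y : ProjModel K),
  Algebra.trdeg ℂ K = (e : Cardinal) → (∀ i (a : K), IsIntegral (Y.ring i) a → a ∈ Y.ring i) →
  ∀ (i : Fin (Y.N + 1)) (Q : Ideal (Y.ring i)), Q.IsPrime → ∀ z : K,
    (∀ (v : DivVal e K) (P : Ideal (Y.ring i)), IsPrimeDivisor (Y.ring i) v P → P ≤ Q →
      v.Ge 0 z) → ∃ p q : Y.ring i, q ∉ Q ∧ z * q = p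

/-- CHC: change of the chart for prime divisors. Proof. `s_j' / s_j` is in `B.ring j`. For
`c ∈ B.ring j'` there is `d` with `c * (s_j' / s_j)^d ∈ B.ring j` (`t_LOV`; `ProjModel.ring` is
`affRing`), so `0 ≤ v.ord c`. `P' = {c | c = 0 ∨ 0 < v.ord c}` is a prime ideal. By `t_CRT` (`→`) all
`z` with `v.Ge 0 z` are `p / q`, `p, q ∈ B.ring j`, `q ∉ P`; multiply both with a power of
`s_j / s_j'` (`t_LOV`); this has the order zero; so `t_CRT` (`←`) gives `P'.height = 1`. -/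
def S_CHC : Prop := ∀ {F : Type} [Field F] [Algebra ℂ F] {b : ℕ} (B : ProjModel F),
  Algebra.trdeg ℂ F = (b : Cardinal) → (∀ j (a : F), IsIntegral (B.ring j) a → a ∈ B.ring j) →
  ∀ (j j' : Fin (B.N + 1)) (v : DivVal b F) (P : Ideal (B.ring j)),
    IsPrimeDivisor (B.ring j) v P → v.ord (B.s j' / B.s j) = 0 →
    ∃ P' : Ideal (B.ring j'), IsPrimeDivisor (B.ring j') v P'

/-- The composite of the curve with the map to `B`. -/
def compCurve {F K : Type} [Field F] [Field K] [Algebra ℂ F] [Algebra ℂ K] {Y : ProjModel K}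
    (γ : CurveMap Y) (B : ProjModel F) (j : Fin (B.N + 1)) (φ : B.ring j →ₐ[ℂ] γ.L)
    (h : ∃ a, φ a ∉ Set.range (algebraMap ℂ γ.L)) : CurveMap B where
  L := γ.L
  fieldL := γ.fieldL
  algL := γ.algL
  trdeg := γ.trdeg
  fg := γ.fg
  i := j
  φ := φ
  nonconst := h

/-- RTRA: the composite curve, and the transition functions of a Cartier divisor. Proof. (1) By
`RGW_holds` every `c ∈ B.ring (j w)` has a restriction `u` to the curve, `w.Ge 0 u`, `w.Ge 1 u` if
`c ∈ mB w`, and `u ≠ 0`, `w.ord u = 0` if not. (2) `φ c` is the restriction of `c ∈ B.ring (j w₀)`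
(`choose`; a homomorphism by `t_RSU`). (3) `ρ_w = s_(j w) / s_(j w₀)` and its inverse (an element of
`B.ring (j w)`) have restrictions, so `φ ρ_w ≠ 0`. (4) For `c ∈ B.ring (j w)` there is `d` with
`c ρ_w^d ∈ B.ring (j w₀)` (`t_LOV`), so `(compCurve …).Restr c u`, `u = φ (c ρ_w^d) / φ (ρ_w)^d` the
restriction from (1) (uniqueness in `t_RSU`). This gives `MapsTo`. (5) Let `Q = ker φ` (a prime ideal)
and `(v, P)` a prime divisor of `B.ring (j w₀)` with `P ≤ Q`. `ρ_w ∉ Q`, so `v.ord ρ_w = 0`, and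
`CHC` gives `P'` in `B.ring (j w)`; `P' ≤ mB w`: if `c ∈ P'` then `c ρ_w^d ∈ P ≤ Q`, so the restriction
of `c` is zero and `c ∈ mB w` by (1). So `v.ord G = k (v.formOrd ω + D v) = v.ord G'`. (6) By `LOP` for
`G / G'` and `G' / G`: `G / G' * q = p`, `G' / G * q' = p'`, `q, q' ∉ Q`, so `q q' = p p'` and
`p ∉ Q`. -/
def S_RTRA : Prop := ∀ {F K : Type} [Field F] [Field K] [Algebra ℂ F] [Algebra ℂ K] [Algebra F K]
  [IsScalarTower ℂ F K] {b : ℕ} (B : ProjModel F) (Y : ProjModel K),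
  Algebra.trdeg ℂ F = (b : Cardinal) → (∀ j (a : F), IsIntegral (B.ring j) a → a ∈ B.ring j) →
  ∀ (γ : CurveMap Y) (w₀ : DivVal 1 γ.L) (i : DivVal 1 γ.L → Fin (Y.N + 1))
    (m : ∀ w, Ideal (Y.ring (i w))) (j : DivVal 1 γ.L → Fin (B.N + 1))
    (mB : ∀ w, Ideal (B.ring (j w))),
  (∀ w, γ.MapsTo w (i w) (m w)) → (∀ w, (mB w).IsMaximal) →
  (∀ w, ∀ c : B.ring (j w), ∃ p q : Y.ring (i w), q ∉ m w ∧ algebraMap F K c * q = p ∧
    (p ∈ m w ↔ c ∈ mB w)) →
  ∃ φ : B.ring (j w₀) →ₐ[ℂ] γ.L,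
    (∀ c : B.ring (j w₀), γ.Restr (algebraMap F K c) (φ c)) ∧
    (∀ (h : ∃ a, φ a ∉ Set.range (algebraMap ℂ γ.L)) (w : DivVal 1 γ.L),
      (compCurve γ B (j w₀) φ h).MapsTo w (j w) (mB w)) ∧
    ∀ (ω : Forms b F) (D : DivVal b F → ℤ) (k : ℕ) (w w' : DivVal 1 γ.L) (G G' : F), G ≠ 0 → G' ≠ 0 →
      IsEqD (B.ring (j w)) ω D k (mB w) G → IsEqD (B.ring (j w')) ω D k (mB w') G' →
      ∃ p q : B.ring (j w₀), φ p ≠ 0 ∧ φ q ≠ 0 ∧ G / G' * (q : F) = p

def M_RTRA : Prop := S_LOP → S_CHC → S_RTRA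

/-- RCMQ: comparison of equations along a curve. Proof. `t_CHW`: `v.formOrd ω' = v.ord g0 +
v.formOrd ω`. For maximal `m` choose `j`, `mB`, `a`, `G` by `RPT` (for ideals which are not maximal
anything), `E i m = g0 ^ (D.k κ) * eqq κ D.k x G (D.u a)`; these are equations of `D.k κ K_Y`,
`K_Y = div(ω')`, and there are finitely many (`G ∈ S`, `a ∈ D.A`). `CMP_holds` gives `w₀`, `i`, `m`,
`U`; the quotient `E (i w) (m w) / E (i w₀) (m w₀)` is the function in the statement. -/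
def S_RCMQ : Prop := ∀ {F K : Type} [Field F] [Field K] [Algebra ℂ F] [Algebra ℂ K] [Algebra F K]
  [IsScalarTower ℂ F K] {e' n r : ℕ} (B : ProjModel F) (κ : ℕ) (b : ℕ) (y0 : Fin b → F)
  (β : DivVal e' K → ℤ) (f : Fin r → LR F n) (x : Fin n → K), 0 < e' →
  Algebra.trdeg ℂ K = (e' : Cardinal) → (∀ j, x j ≠ 0) → (∀ i, Bpf B (coefs (f i))) →
  BaseData B b e' K κ y0 β →
  ∀ (D : Fan fun i => supp0 (f i)) (ω : Forms e' K) (Y : ProjModel K), RLog B κ β f x ω →
  IsModel e' (xh B x) (Ah B.N D.A) Y → ∀ ω' : Forms e' K, ω' ≠ 0 → ∀ (γ : CurveMap Y) (k : ℕ)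
    (h : K) (g : DivVal 1 γ.L → K) (u : DivVal 1 γ.L → γ.L), 0 < k → γ.Equations ω' k h g u →
  ∃ (w₀ : DivVal 1 γ.L) (i : DivVal 1 γ.L → Fin (Y.N + 1)) (m : ∀ w, Ideal (Y.ring (i w)))
    (j : DivVal 1 γ.L → Fin (B.N + 1)) (mB : ∀ w, Ideal (B.ring (j w)))
    (a : DivVal 1 γ.L → (Fin n → ℤ)) (G : DivVal 1 γ.L → F) (U : DivVal 1 γ.L → γ.L),
    (∀ w, γ.MapsTo w (i w) (m w)) ∧
    (∀ w, IsPt B κ y0 (fun i => coefs (f i)) x D.A D.k D.u ω Y (i w) (m w) (j w) (mB w) (a w)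
      (G w)) ∧
    (∀ w, U w ≠ 0 ∧ γ.Restr (algebraMap F K (G w / G w₀) ^ D.k *
      mon x ((κ : ℤ) • (D.u (a w₀) - D.u (a w)))) (U w)) ∧
    {w : DivVal 1 γ.L | w.ord (u w) ≠ 0}.Finite ∧ {w : DivVal 1 γ.L | w.ord (U w) ≠ 0}.Finite ∧
    ((D.k * κ : ℕ) : ℤ) * ∑ᶠ w : DivVal 1 γ.L, w.ord (u w) =
      k * ∑ᶠ w : DivVal 1 γ.L, w.ord (U w)

def M_RCMQ : Prop := S_RPT → S_RCMQ

/-- RNEF. Proof. `RCMQ`. Let `T_w = mon x (κ • (u (a w₀) - u (a w)))`. By `FanA.nef` and
`LCM_holds` (prime divisors `v` with the centre `P ≤ m w` satisfy `MinAt D.A (a w) (wt x v)`) it is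
regular at `m w`, so it has a restriction `t_w`, `w.Ge 0 t_w` (`RGW_holds`); `T_w⁻¹` is regular at
`m w₀`, so it has a restriction, too, and `t_w ≠ 0` (`t_RSU`). `RTRA` for `ω = dlogs y0`,
`D = adj …`, `k = κ`, `w' = w₀`: `G w / G w₀ * q = p`, so `α_w = φ p / φ q ≠ 0` is the restriction of
`algebraMap (G w / G w₀)`, and `U w = α_w ^ D.k * t_w` (uniqueness of restrictions). If some `φ a` is
not constant: `NefD` for `compCurve`, `ω = dlogs y0`, `k = κ`, `h = G w₀`, `g = G`, `u = α` gives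
`0 ≤ ∑ w.ord α_w` and finiteness. Otherwise `φ p`, `φ q` are constants, so `w.ord α_w = 0`. Now
`w.ord (U w) = D.k * w.ord α_w + w.ord t_w`, `0 ≤ w.ord t_w`, and the supports are finite
(`w.ord (U w) ≠ 0` and `w.ord α_w ≠ 0` are finite), so `0 ≤ ∑ w.ord (U w)`. -/
def M_RNEF : Prop := S_RCMQ → S_RTRA → S_RNEF

/-! ## the Mori fibre space -/

/-- `(s_j / s_0) x^u`. -/
def tt {F K : Type} [Field F] [Field K] [Algebra ℂ F] [Algebra F K] {n : ℕ} (B : ProjModel F)
    (x : Fin n → K) (j : Fin (B.N + 1)) (u : Fin n → ℤ) : K :=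
  algebraMap F K (B.s j / B.s 0) * mon x u

/-- RFBM: the morphism. Proof. As `t_FBM` (`MMCI/FBM.lean`), the index set is
`Fin (B.N + 1) × {a // a ∈ D.A}`. The quotients of the `tt` are
`algebraMap (s_j / s_j') * mon x (b a - b a')`, elements of `Fb`. For the last part take `tt B x j (b a)`
with `j`, `a` from `RPT`, and `LCM_holds`: `OnChart B v j`, `MinAt D.A a (wt x v)`, `FanB.nef`. -/
def S_RFBM : Prop := ∀ {F K : Type} [Field F] [Field K] [Algebra ℂ F] [Algebra ℂ K] [Algebra F K]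
  [IsScalarTower ℂ F K] {e' n r : ℕ} (B : ProjModel F) (κ : ℕ) (b : ℕ) (y0 : Fin b → F)
  (β : DivVal e' K → ℤ) (f : Fin r → LR F n) (x : Fin n → K), 0 < e' →
  Algebra.trdeg ℂ K = (e' : Cardinal) → (∀ j, x j ≠ 0) → (∀ i, Bpf B (coefs (f i))) →
  BaseData B b e' K κ y0 β →
  ∀ (D : FanB fun i => supp0 (f i)) (ω : Forms e' K) (Y : ProjModel K), RLog B κ β f x ω →
  IsModel e' (xh B x) (Ah B.N D.A) Y →
  Algebra.trdeg ℂ (Fb (F := F) x D.A D.b) < (e' : Cardinal) →
  ∃ (M : ℕ) (t : Fin (M + 1) → K), (∀ l, ∃ j, ∃ a ∈ D.A, t l = tt B x j (D.b a)) ∧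
    (∀ j, ∀ a ∈ D.A, ∃ l, t l = tt B x j (D.b a)) ∧
    Algebra.trdeg ℂ (IntermediateField.adjoin ℂ (Set.range fun l => t l / t 0)) <
      (e' : Cardinal) ∧
    ∀ i (m : Ideal (Y.ring i)), m.IsMaximal → ∃ l', ∀ l, ∃ p q : Y.ring i, q ∉ m ∧
      t l / t l' * q = p

def M_RFBM : Prop := S_RPT → S_RFBM

/-- RFBN: the canonical divisor is negative on the curves in the fibres. Proof. Let `tt B x js (b as)`
be the coordinate of `InFibre`. So the `algebraMap (s_j / s_js) * mon x (b a - b as)` restrict to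
constants `c_(j,a)`; in particular (`a = as`) the `s_j / s_js` restrict to constants `c_j` and
(`j = js`) the `mon x (b a - b as)`. `RCMQ`, `RTRA` as in `RNEF`. For every `w` the function
`s_js / s_(j w)` has a restriction (`IsPt.res` and `RGW_holds`), so `c_(j w) ≠ 0`, and the `s_j / s_(j w)`
restrict to the constants `c_j / c_(j w)`. So `φ` has constant values (`B.ring (j w₀)` is generated by
the `s_j / s_(j w₀)`), and `α_w` is a constant: `w.ord α_w = 0`. From here as `t_FBN`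
(`MMCI/FBN.lean`), with the monomials `κ • (u a0 - u (a w))` and `U w / α_w ^ D.k` instead of `U w`:
`x^(b a0 - b (a w))` restricts to a nonzero constant, so `pair (wt x v) (b a0) = pair (wt x v) (b (a w))`
for the prime divisors `v` through `m w`; `FanB.pos`; so `w.ord (U w) ≤ 0`; if all are zero then
`MinAt D.A a0 (wt x v)` for all prime divisors through all points of the curve, all `x^(a - a0)`
restrict to constants, and so do their products with the constants `s_j / s_(j w₀)`, in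
contradiction to `IsModel.fin` for `eh (j w₀) a0` (`XHM`). -/
def S_RFBN : Prop := ∀ {F K : Type} [Field F] [Field K] [Algebra ℂ F] [Algebra ℂ K] [Algebra F K]
  [IsScalarTower ℂ F K] {e' n r : ℕ} (B : ProjModel F) (κ : ℕ) (b : ℕ) (y0 : Fin b → F)
  (β : DivVal e' K → ℤ) (f : Fin r → LR F n) (x : Fin n → K), 0 < e' →
  Algebra.trdeg ℂ K = (e' : Cardinal) → (∀ j, x j ≠ 0) → (∀ i, Bpf B (coefs (f i))) →
  BaseData B b e' K κ y0 β →
  ∀ (D : FanB fun i => supp0 (f i)) (ω : Forms e' K) (Y : ProjModel K), RLog B κ β f x ω →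
  IsModel e' (xh B x) (Ah B.N D.A) Y →
  ∀ (M : ℕ) (t : Fin (M + 1) → K), (∀ l, ∃ j, ∃ a ∈ D.A, t l = tt B x j (D.b a)) →
    (∀ j, ∀ a ∈ D.A, ∃ l, t l = tt B x j (D.b a)) →
  ∀ ω' : Forms e' K, ω' ≠ 0 → ∀ γ : CurveMap Y, γ.InFibre t → ∀ (k : ℕ) (h : K)
    (g : DivVal 1 γ.L → K) (u : DivVal 1 γ.L → γ.L), 0 < k → γ.Equations ω' k h g u →
    {w : DivVal 1 γ.L | w.ord (u w) ≠ 0}.Finite ∧ ∑ᶠ w : DivVal 1 γ.L, w.ord (u w) < 0

def M_RFBN : Prop := S_XHM → S_RCMQ → S_RTRA → S_RFBN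

/-- RFIB. As `MMCI/FIB.lean`. -/
def M_RFIB : Prop := S_RFBM → S_RFBN → S_RFIB

end

end RMM
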