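import Pool.Agent.MMCI.StB

/-!
# Relative minimal models, block E1: valuations and forms, abstract version. Statements.

Everything is an adaptation of the proved files `Pool/Agent/MMCI/K_….lean`: the functions
`x_1, …, x_n` are replaced by arbitrary functions `z_1, …, z_N` whose logarithmic differentials span
`Ω`, the gradients `grad x (f i)` by an arbitrary matrix `G` of relations
`∑_c G_ic dlog z_c = 0`, the numbers `minOn (f i) w` by arbitrary lower bounds `ψ_i` of the orders of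
the entries, and the monomials in `Big` by functions `a` such that `dlog a` is a combination of the
`dlog z_c` with coefficients in the valuation ring. The hypotheses `S_IND`, `S_FRD`, `S_DK`, `S_LOB`,
`S_PLU` are the statements of `Pool/Agent/MMCI/StB.lean`; all of them are proved.
-/

namespace RMM

open MldGeo MMCI

noncomputable section

variable {e N r : ℕ} {K : Type} [Field K] [Algebra ℂ K]

/-- The minor of the matrix `G` with the columns `σ(inl j)`. -/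
def gminor (G : Fin r → Fin N → K) (σ : Fin r ⊕ Fin e ≃ Fin N) : K :=
  Matrix.det (Matrix.of fun i j : Fin r => G i (σ (Sum.inl j)))

/-- `r` relations between the logarithmic differentials of the functions `z_1, …, z_N`, which span
`Ω`. -/
structure Rel (e : ℕ) (z : Fin N → K) (G : Fin r → Fin N → K) : Prop where
  dim : Algebra.trdeg ℂ K = (e : Cardinal)
  ne : ∀ c, z c ≠ 0
  span : Submodule.span K (Set.range fun c => dlog (z c)) = ⊤
  rel : ∀ i, ∑ c, G i c • dlog (z c) = 0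

/-- The orders of the entries of `G` are at least `ψ_i`, and the minor has the least possible
order. -/
structure GUnit (G : Fin r → Fin N → K) (v : DivVal e K) (ψ : Fin r → ℤ)
    (σ : Fin r ⊕ Fin e ≃ Fin N) : Prop where
  low : ∀ i c, v.Ge (ψ i) (G i c)
  ne : gminor G σ ≠ 0
  ord : v.ord (gminor G σ) = ∑ i, ψ i

/-- `dlog a` is a combination of the `dlog z_c` with coefficients in the valuation ring. -/
structure Expr (z : Fin N → K) (v : DivVal e K) (a : K) (ρ : Fin N → K) : Prop where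
  ne : a ≠ 0
  low : ∀ c, v.Ge 0 (ρ c)
  eq : dlog a = ∑ c, ρ c • dlog (z c)

/-- ABAS: if a minor is not zero, then the other functions are a transcendence basis, and derivations
can be prescribed. (As `K_BAS.lean`, which uses of `f`, `x` only `Rel`; `BAS.gen_D` is replaced by
`Rel.span`.) -/
def S_ABAS : Prop := ∀ {e N r : ℕ} {K : Type} [Field K] [Algebra ℂ K] (z : Fin N → K)
  (G : Fin r → Fin N → K), Rel e z G → ∀ σ : Fin r ⊕ Fin e ≃ Fin N, gminor G σ ≠ 0 →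
    AlgebraicIndependent ℂ (rest z σ) ∧ dlogs (rest z σ) ≠ 0 ∧
    ∀ δ : Fin N → K, (∀ i, ∑ c, δ c * G i c = 0) →
      ∃ D : Derivation ℂ K K, ∀ c, D (z c) = δ c * z c

/-- AELI: elimination. (As `K_ELI.lean`.) -/
def S_AELI : Prop := ∀ {e N r : ℕ} {K : Type} [Field K] [Algebra ℂ K] (z : Fin N → K)
  (G : Fin r → Fin N → K), Rel e z G → ∀ (v : DivVal e K) (ψ : Fin r → ℤ)
  (σ : Fin r ⊕ Fin e ≃ Fin N), GUnit G v ψ σ → ∀ (a : K) (ρ : Fin N → K), Expr z v a ρ →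
    ∃ b : Fin e → K, (∀ l, v.Ge 0 (b l)) ∧ dlog a = ∑ l, b l • dlog (rest z σ l)

/-- ASOL: linear equations over a ring in which the elements of order zero are invertible. (As
`K_SOL.lean`.) -/
def S_ASOL : Prop := ∀ {e N r : ℕ} {K : Type} [Field K] [Algebra ℂ K]
  (G : Fin r → Fin N → K) (v : DivVal e K) (ψ : Fin r → ℤ) (σ : Fin r ⊕ Fin e ≃ Fin N),
  GUnit G v ψ σ → ∀ (B : Subalgebra ℂ K) (y h : Fin r → K),
  (∀ b ∈ B, b ≠ 0 → v.ord b = 0 → b⁻¹ ∈ B) →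
  (∀ i, y i ≠ 0 ∧ v.ord (y i) = ψ i ∧ (∀ c, G i c / y i ∈ B) ∧ h i / y i ∈ B) →
  ∃ δ : Fin N → K, (∀ c, δ c ∈ B) ∧ (∀ l, δ (σ (Sum.inr l)) = 0) ∧
    ∀ i, ∑ c, δ c * G i c = h i

/-- AE1a: some `z_c` has a nonzero order, the lower bound and `→`. (As `K_EQ1a.lean`.) -/
def S_AE1a : Prop := ∀ {m N r : ℕ} {K : Type} [Field K] [Algebra ℂ K] (z : Fin N → K)
  (G : Fin r → Fin N → K), Rel (m + 1) z G → ∀ (v : DivVal (m + 1) K) (ψ : Fin r → ℤ)
  (σ : Fin r ⊕ Fin (m + 1) ≃ Fin N), GUnit G v ψ σ → wt z v ≠ 0 →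
    0 ≤ v.logOrd (dlogs (rest z σ)) ∧ (v.logOrd (dlogs (rest z σ)) = 0 → Big z v)

def M_AE1a : Prop := S_MON → S_ABAS → S_IND → S_FRD → S_AE1a

/-- AE1b: `←`. (As `K_EQ1b.lean`, with `a_0` instead of the coordinate `x j0` and `a l` instead of the
monomials `mon x (q l)`.) -/
def S_AE1b : Prop := ∀ {m N r : ℕ} {K : Type} [Field K] [Algebra ℂ K] (z : Fin N → K)
  (G : Fin r → Fin N → K), Rel (m + 1) z G → ∀ (v : DivVal (m + 1) K) (ψ : Fin r → ℤ)
  (σ : Fin r ⊕ Fin (m + 1) ≃ Fin N), GUnit G v ψ σ →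
  ∀ (a0 : K) (ρ0 : Fin N → K) (a : Fin m → K) (ρ : Fin m → Fin N → K), Expr z v a0 ρ0 →
    v.ord a0 ≠ 0 → (∀ l, Expr z v (a l) (ρ l)) → ResIndep v a →
    v.logOrd (dlogs (rest z σ)) = 0

def M_AE1b : Prop := S_ABAS → S_AELI → S_FRD → S_AE1b

/-- AE0a: all `z_c` have order zero, the lower bound and `→`. (As `K_EQ0a.lean`.) -/
def S_AE0a : Prop := ∀ {m N r : ℕ} {K : Type} [Field K] [Algebra ℂ K] (z : Fin N → K)
  (G : Fin r → Fin N → K), Rel (m + 1) z G → ∀ (v : DivVal (m + 1) K) (ψ : Fin r → ℤ)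
  (σ : Fin r ⊕ Fin (m + 1) ≃ Fin N), GUnit G v ψ σ → wt z v = 0 →
    1 ≤ v.logOrd (dlogs (rest z σ)) ∧ (v.logOrd (dlogs (rest z σ)) = 1 → Big z v)

def M_AE0a : Prop := S_ABAS → S_IND → S_FRD → S_AE0a

/-- AE0c: all but one of the functions `rest` have independent residues. (As `K_EQ0c.lean`, with `a l`
instead of the monomials `mon x (q l)`.) -/
def S_AE0c : Prop := ∀ {m N r : ℕ} {K : Type} [Field K] [Algebra ℂ K] (z : Fin N → K)
  (G : Fin r → Fin N → K), Rel (m + 1) z G → ∀ (v : DivVal (m + 1) K) (ψ : Fin r → ℤ)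
  (σ : Fin r ⊕ Fin (m + 1) ≃ Fin N), GUnit G v ψ σ → wt z v = 0 →
  ∀ (a : Fin m → K) (ρ : Fin m → Fin N → K), (∀ l, Expr z v (a l) (ρ l)) → ResIndep v a →
    ∃ i0 : Fin (m + 1), ResIndep v fun l : Fin m => rest z σ (i0.succAbove l)

def M_AE0c : Prop := S_ABAS → S_AELI → S_IND → S_FRD → S_AE0c

/-- The ring `B0`: the valuation is nonnegative on it, and `K` is its field of fractions. -/
structure Good0 (v : DivVal e K) (B0 : Subalgebra ℂ K) : Prop where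
  ge : ∀ b ∈ B0, v.Ge 0 b
  frac : ∀ a : K, ∃ p ∈ B0, ∃ q ∈ B0, q ≠ 0 ∧ a * q = p

/-- AE0b: `←`. (As `K_EQ0b.lean`: `z = rest i0`, `ζ_l` the others, `p = P(z, ζ)`. `B0` is now given, `B`
from `LOB`; `δ` from `ASOL` with `y_i = 1`, `ψ_i = 0`, for the right-hand sides
`h_i = - (z ∂_Z P)⁻¹ G_i(i0)`, as there; `D` from `ABAS`; the last hypothesis gives `D B0 ⊆ B`; `DK`
with `u_l = ζ_l`.) -/
def S_AE0b : Prop := ∀ {m N r : ℕ} {K : Type} [Field K] [Algebra ℂ K] (z : Fin N → K)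
  (G : Fin r → Fin N → K), Rel (m + 1) z G → ∀ (v : DivVal (m + 1) K)
  (σ : Fin r ⊕ Fin (m + 1) ≃ Fin N), GUnit G v (fun _ => 0) σ → wt z v = 0 →
  (∃ i0 : Fin (m + 1), ResIndep v fun l : Fin m => rest z σ (i0.succAbove l)) →
  ∀ B0 : Subalgebra ℂ K, Good0 v B0 → (∀ c, z c ∈ B0 ∧ (z c)⁻¹ ∈ B0) → (∀ i c, G i c ∈ B0) →
  (∀ (B : Subalgebra ℂ K) (D : Derivation ℂ K K) (δ : Fin N → K), B0 ≤ B → (∀ c, δ c ∈ B) →
    (∀ c, D (z c) = δ c * z c) → ∀ b ∈ B0, D b ∈ B) →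
  v.logOrd (dlogs (rest z σ)) = 1

def M_AE0b : Prop := S_ABAS → S_ASOL → S_DK → S_LOB → S_AE0b

/-- AUNT: a function `p` of least order is a uniformizer. (As `K_UNT.lean`, from the construction of
`B` on: `B` from `LOB`; `h_i = - p⁻¹ ∑_c w0_c G_ic`; `δ''` from `ASOL`; `D` from `ABAS` for
`δ = p⁻¹ w0 + δ''`; `D B0 ⊆ B` by the last hypothesis;
`D p = 1 + p ∑_c δ''_c q_c` because `p = mon z q` (`S_MON`, the formula for `dlog (mon z q)`) and
`pair w0 q = 1`; so `D p` has order zero; `DK` with `u_l = a l`.) -/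
def S_AUNT : Prop := ∀ {m N r : ℕ} {K : Type} [Field K] [Algebra ℂ K] (z : Fin N → K)
  (G : Fin r → Fin N → K), Rel (m + 1) z G → ∀ (v : DivVal (m + 1) K) (ψ : Fin r → ℤ)
  (σ : Fin r ⊕ Fin (m + 1) ≃ Fin N), GUnit G v ψ σ →
  ∀ (B0 : Subalgebra ℂ K) (w0 q : Fin N → ℤ) (y : Fin r → K) (a : Fin m → K), Good0 v B0 →
  pair w0 q = 1 → mon z q ∈ B0 → 0 < v.ord (mon z q) →
  (∀ i, y i ≠ 0 ∧ v.ord (y i) = ψ i ∧ (∀ c, G i c / y i ∈ B0) ∧
    -((mon z q)⁻¹ * ∑ c, (w0 c : K) * G i c) / y i ∈ B0) →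
  (∀ l, a l ∈ B0) → ResIndep v a →
  (∀ (B : Subalgebra ℂ K) (D : Derivation ℂ K K) (δ : Fin N → K), B0 ≤ B → (∀ c, δ c ∈ B) →
    (∀ c, D (z c) = ((mon z q)⁻¹ * (w0 c : K) + δ c) * z c) → ∀ b ∈ B0, D b ∈ B) →
  v.ord (mon z q) = 1

def M_AUNT : Prop := S_MON → S_ABAS → S_ASOL → S_DK → S_LOB → S_AUNT

/-- ABND. (As `K_BND.lean`: the vectors `ρ l` (`m` of them, instead of the integral vectors `q l`) and
the `G_i / y_i`, `i ∉ I` (at least `r - (s - 2)` of them), are linearly independent modulo the maximal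
ideal and orthogonal modulo the maximal ideal to the `s` vectors `ν j`, and
`m + (r - s + 2) + s > N = r + (m + 1)`.) -/
def S_ABND : Prop := ∀ {m N r : ℕ} {K : Type} [Field K] [Algebra ℂ K] (z : Fin N → K)
  (G : Fin r → Fin N → K), Rel (m + 1) z G → ∀ (v : DivVal (m + 1) K) (ψ : Fin r → ℤ)
  (σ : Fin r ⊕ Fin (m + 1) ≃ Fin N), GUnit G v ψ σ →
  ∀ (s : ℕ) (ν : Fin s → (Fin N → ℤ)) (I : Finset (Fin r)), LinearIndependent ℤ ν →
    I.card + 2 ≤ s → (∀ i, i ∉ I → ∀ j, v.Ge (ψ i + 1) (∑ c, (ν j c : K) * G i c)) →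
    ¬ ∃ (a : Fin m → K) (ρ : Fin m → Fin N → K), (∀ l, Expr z v (a l) (ρ l)) ∧
      (∀ l j, ∑ c, (ν j c : K) * ρ l c = 0) ∧ ResIndep v a

end

end RMM
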