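import Pool.Agent.RMM.Defs
import Pool.Agent.RMM.StE

/-!
# Relative minimal models, block E2: the local data `Loc`. Statements.

`L : Loc …` are local data at `v`; `z = (y, x)`, `G` the extended gradients of the local equations
`g_i = (u i)⁻¹ f_i` (coefficients in `A`), `ψ_i = rmin (f i) (wt x v)`. The abstract statements of
`StE.lean` are applied to them. The abstract statements are for `e = m + 1`; for arbitrary `e > 0`
use `e = (e - 1) + 1` (the statements `S_GE1a …` below; `Fin (e - 1)`).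
-/

namespace RMM

open MldGeo MMCI

noncomputable section

/-! ### the abstract statements for all `e > 0` -/

/-- The abstract statements of `StE.lean` for `e > 0` instead of `e = m + 1`. -/
structure GenE : Prop where
  e1a : ∀ {e N r : ℕ} {K : Type} [Field K] [Algebra ℂ K] (z : Fin N → K)
    (G : Fin r → Fin N → K), 0 < e → Rel e z G → ∀ (v : DivVal e K) (ψ : Fin r → ℤ)
    (σ : Fin r ⊕ Fin e ≃ Fin N), GUnit G v ψ σ → wt z v ≠ 0 →
    0 ≤ v.logOrd (dlogs (rest z σ)) ∧ (v.logOrd (dlogs (rest z σ)) = 0 → Big z v)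
  e1b : ∀ {e N r : ℕ} {K : Type} [Field K] [Algebra ℂ K] (z : Fin N → K)
    (G : Fin r → Fin N → K), 0 < e → Rel e z G → ∀ (v : DivVal e K) (ψ : Fin r → ℤ)
    (σ : Fin r ⊕ Fin e ≃ Fin N), GUnit G v ψ σ →
    ∀ (a0 : K) (ρ0 : Fin N → K) (a : Fin (e - 1) → K) (ρ : Fin (e - 1) → Fin N → K),
    Expr z v a0 ρ0 → v.ord a0 ≠ 0 → (∀ l, Expr z v (a l) (ρ l)) → ResIndep v a →
    v.logOrd (dlogs (rest z σ)) = 0
  e0a : ∀ {e N r : ℕ} {K : Type} [Field K] [Algebra ℂ K] (z : Fin N → K)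
    (G : Fin r → Fin N → K), 0 < e → Rel e z G → ∀ (v : DivVal e K) (ψ : Fin r → ℤ)
    (σ : Fin r ⊕ Fin e ≃ Fin N), GUnit G v ψ σ → wt z v = 0 →
    1 ≤ v.logOrd (dlogs (rest z σ)) ∧ (v.logOrd (dlogs (rest z σ)) = 1 → Big z v)
  /-- `AE0c` and `AE0b` -/
  e0b : ∀ {e N r : ℕ} {K : Type} [Field K] [Algebra ℂ K] (z : Fin N → K)
    (G : Fin r → Fin N → K), 0 < e → Rel e z G → ∀ (v : DivVal e K)
    (σ : Fin r ⊕ Fin e ≃ Fin N), GUnit G v (fun _ => 0) σ → wt z v = 0 →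
    ∀ (a : Fin (e - 1) → K) (ρ : Fin (e - 1) → Fin N → K), (∀ l, Expr z v (a l) (ρ l)) →
    ResIndep v a →
    ∀ B0 : Subalgebra ℂ K, Good0 v B0 → (∀ c, z c ∈ B0 ∧ (z c)⁻¹ ∈ B0) → (∀ i c, G i c ∈ B0) →
    (∀ (B : Subalgebra ℂ K) (D : Derivation ℂ K K) (δ : Fin N → K), B0 ≤ B → (∀ c, δ c ∈ B) →
      (∀ c, D (z c) = δ c * z c) → ∀ b ∈ B0, D b ∈ B) →
    v.logOrd (dlogs (rest z σ)) = 1
  unt : ∀ {e N r : ℕ} {K : Type} [Field K] [Algebra ℂ K] (z : Fin N → K)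
    (G : Fin r → Fin N → K), 0 < e → Rel e z G → ∀ (v : DivVal e K) (ψ : Fin r → ℤ)
    (σ : Fin r ⊕ Fin e ≃ Fin N), GUnit G v ψ σ →
    ∀ (B0 : Subalgebra ℂ K) (w0 q : Fin N → ℤ) (y : Fin r → K) (a : Fin (e - 1) → K),
    Good0 v B0 → pair w0 q = 1 → mon z q ∈ B0 → 0 < v.ord (mon z q) →
    (∀ i, y i ≠ 0 ∧ v.ord (y i) = ψ i ∧ (∀ c, G i c / y i ∈ B0) ∧
      -((mon z q)⁻¹ * ∑ c, (w0 c : K) * G i c) / y i ∈ B0) →
    (∀ l, a l ∈ B0) → ResIndep v a →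
    (∀ (B : Subalgebra ℂ K) (D : Derivation ℂ K K) (δ : Fin N → K), B0 ≤ B → (∀ c, δ c ∈ B) →
      (∀ c, D (z c) = ((mon z q)⁻¹ * (w0 c : K) + δ c) * z c) → ∀ b ∈ B0, D b ∈ B) →
    v.ord (mon z q) = 1
  bnd : ∀ {e N r : ℕ} {K : Type} [Field K] [Algebra ℂ K] (z : Fin N → K)
    (G : Fin r → Fin N → K), 0 < e → Rel e z G → ∀ (v : DivVal e K) (ψ : Fin r → ℤ)
    (σ : Fin r ⊕ Fin e ≃ Fin N), GUnit G v ψ σ →
    ∀ (s : ℕ) (ν : Fin s → (Fin N → ℤ)) (I : Finset (Fin r)), LinearIndependent ℤ ν →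
      I.card + 2 ≤ s → (∀ i, i ∉ I → ∀ j, v.Ge (ψ i + 1) (∑ c, (ν j c : K) * G i c)) →
      ¬ ∃ (a : Fin (e - 1) → K) (ρ : Fin (e - 1) → Fin N → K), (∀ l, Expr z v (a l) (ρ l)) ∧
        (∀ l j, ∑ c, (ν j c : K) * ρ l c = 0) ∧ ResIndep v a

/-- GEN (`obtain ⟨m, rfl⟩ : ∃ m, e = m + 1`). -/
def S_GEN : Prop := S_AE1a → S_AE1b → S_AE0a → S_AE0c → S_AE0b → S_AUNT → S_ABND → GenE

section

variable {F K : Type} [Field F] [Field K] [Algebra ℂ F] [Algebra ℂ K] [Algebra F K]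
  [IsScalarTower ℂ F K] {b e n r : ℕ} {B : ProjModel F} {κ : ℕ} {y0 : Fin b → F}
  {β : DivVal (b + e) K → ℤ} {f : Fin r → LR F n} {x : Fin n → K} {v : DivVal (b + e) K}

/-- The functions `z = (y, x)` of the local data. -/
def Loc.z (L : Loc B e κ y0 β f x v) : Fin (b + n) → K := zz L.y x

/-- The extended gradients of the local equations. -/
def Loc.G (L : Loc B e κ y0 β f x v) (i : Fin r) : Fin (b + n) → K :=
  gr L.y L.d ((L.u i)⁻¹ • f i) x

/-- The minima of the weight on the exponents. -/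
def wmin (f : Fin r → LR F n) (x : Fin n → K) (v : DivVal (b + e) K) (i : Fin r) : ℤ :=
  rmin (f i) (wt x v)

end

/-- REV: the differential and the derivations of the value of a Laurent polynomial over `F`. (As `MON`;
`D (algebraMap c) = ∑_l d_l c • D (y l)` in `Ω[K⁄ℂ]` by the map `Ω[F⁄ℂ] → Ω[K⁄ℂ]`
(`KaehlerDifferential.map ℂ ℂ F K`), for the `d`, `y` with the property `dual`.) -/
def S_REV : Prop := ∀ {F K : Type} [Field F] [Field K] [Algebra ℂ F] [Algebra ℂ K] [Algebra F K]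
  [IsScalarTower ℂ F K] {b n : ℕ} (y : Fin b → F) (d : Fin b → Derivation ℂ F F)
  (x : Fin n → K), (∀ l, y l ≠ 0) → (∀ j, x j ≠ 0) →
  (∀ a : F, KaehlerDifferential.D ℂ F a = ∑ l, d l a • KaehlerDifferential.D ℂ F (y l)) →
  (∀ a : F, KaehlerDifferential.D ℂ K (algebraMap F K a) =
    ∑ l, algebraMap F K (y l * d l a) • dlog (algebraMap F K (y l))) ∧
  (∀ D : Derivation ℂ K K, ∀ a : F, D (algebraMap F K a) =
    ∑ l, algebraMap F K (d l a) * D (algebraMap F K (y l))) ∧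
  ∀ g : LR F n, KaehlerDifferential.D ℂ K (rev x g) = ∑ c, gr y d g x c • dlog (zz y x c)

/-- LREL: the relations. (`span`: the `D a`, `a ∈ F`, are in the span of the `dlog (y l)` by `REV`, the
`D (x j)` are multiples of `dlog (x j)`, and `K = F(x)`, as `BAS.gen_D` in `MMCI/K_BAS.lean`; `rel`:
`REV` for `g = (u i)⁻¹ • f i`, `rev x g = (u i)⁻¹ rev x (f i) = 0`.) -/
def S_LREL : Prop := S_REV → ∀ {F K : Type} [Field F] [Field K] [Algebra ℂ F] [Algebra ℂ K]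
  [Algebra F K] [IsScalarTower ℂ F K] {b e n r : ℕ} (B : ProjModel F) (κ : ℕ) (y0 : Fin b → F)
  (β : DivVal (b + e) K → ℤ) (f : Fin r → LR F n) (x : Fin n → K),
  Algebra.trdeg ℂ K = ((b + e : ℕ) : Cardinal) → RReg e f x → ∀ (v : DivVal (b + e) K)
  (L : Loc B e κ y0 β f x v), Rel (b + e) L.z L.G

/-- LUNI: the orders of the extended gradients. (The coefficients of `g_i = (u i)⁻¹ • f i` and their
derivatives are in `A`, so they have nonnegative orders; `mon x m` has the order `pair (wt x v) m`,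
at least `rmin (f i) (wt x v)` if `m` is an exponent of `f i`; `det_ne`, `det_ord`.) -/
def S_LUNI : Prop := S_MON → ∀ {F K : Type} [Field F] [Field K] [Algebra ℂ F] [Algebra ℂ K]
  [Algebra F K] [IsScalarTower ℂ F K] {b e n r : ℕ} (B : ProjModel F) (κ : ℕ) (y0 : Fin b → F)
  (β : DivVal (b + e) K → ℤ) (f : Fin r → LR F n) (x : Fin n → K), RReg e f x →
  ∀ (v : DivVal (b + e) K) (L : Loc B e κ y0 β f x v), GUnit L.G v (wmin f x v) L.σ

/-- LEXP: `dlog (a x^q)` for a unit `a` of the local ring of `B`. (`ρ = (y_l d_l(a) / a, q)`; `a⁻¹` is in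
`A` because `v.ord a = 0` (`InO` and `memA`), `REV`, `MON`.) -/
def S_LEXP : Prop := S_MON → S_REV → ∀ {F K : Type} [Field F] [Field K] [Algebra ℂ F]
  [Algebra ℂ K] [Algebra F K] [IsScalarTower ℂ F K] {b e n r : ℕ} (B : ProjModel F) (κ : ℕ)
  (y0 : Fin b → F) (β : DivVal (b + e) K → ℤ) (f : Fin r → LR F n) (x : Fin n → K),
  (∀ j, x j ≠ 0) → ∀ (v : DivVal (b + e) K) (L : Loc B e κ y0 β f x v) (a : F)
  (q : Fin n → ℤ), InO B v a → a ≠ 0 → v.ord (algebraMap F K a) = 0 →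
  ∃ ρ : Fin (b + n) → K, Expr L.z v (algebraMap F K a * mon x q) ρ ∧
    ∀ j, ρ (Fin.natAdd b j) = (q j : K)

/-- LBIG: monomials in `z = (y, x)` are functions `a x^q` as in `BIG`. (`a = ∏ l, y l ^ q(castAdd l)` is in
`A`, since `A` contains the inverses of its elements of order zero.) -/
def S_LBIG : Prop := S_MON → ∀ {F K : Type} [Field F] [Field K] [Algebra ℂ F] [Algebra ℂ K]
  [Algebra F K] [IsScalarTower ℂ F K] {b e n r : ℕ} (B : ProjModel F) (κ : ℕ) (y0 : Fin b → F)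
  (β : DivVal (b + e) K → ℤ) (f : Fin r → LR F n) (x : Fin n → K), (∀ j, x j ≠ 0) →
  ∀ (v : DivVal (b + e) K) (L : Loc B e κ y0 β f x v), Big L.z v → BIG B x v

/-- LE1: nonzero weight. (`wt L.z v = (0, wt x v) ≠ 0`. Lower bound and `→`: `GenE.e1a`, `LBIG`. `←`:
`GenE.e1b` with `a0 = x j`, `wt x v j ≠ 0` (`LEXP` for `a = 1`, `q = Pi.single j 1`), and the functions of
`BIG` (`LEXP`).) -/
def S_LE1 : Prop := ∀ {F K : Type} [Field F] [Field K] [Algebra ℂ F] [Algebra ℂ K]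
  [Algebra F K] [IsScalarTower ℂ F K] {b e n r : ℕ} (B : ProjModel F) (κ : ℕ) (y0 : Fin b → F)
  (β : DivVal (b + e) K → ℤ) (f : Fin r → LR F n) (x : Fin n → K), 0 < b + e →
  Algebra.trdeg ℂ K = ((b + e : ℕ) : Cardinal) → RReg e f x → ∀ (v : DivVal (b + e) K)
  (L : Loc B e κ y0 β f x v), wt x v ≠ 0 →
  0 ≤ v.logOrd (dlogs (rest L.z L.σ)) ∧ (v.logOrd (dlogs (rest L.z L.σ)) = 0 ↔ BIG B x v)

def M_LE1 : Prop := GenE → S_MON → S_REV → S_LREL → S_LUNI → S_LEXP → S_LBIG → S_LE1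

/-- LB0: the ring generated over `A` by the monomials of nonnegative weight. `frac`: `F` is the field of
fractions of `A` (`InO`: every element of `F` is a quotient of elements of `B.ring j`, `j` a chart with
the centre of `v`, by `B.gen`; a chart exists because `1 ∈ A`), and `K = F(x)`, `x j` or its inverse is in
`B0`. The last claim: `REV` for the elements of `A` (`D a = ∑ d_l(a) D y_l`, `d_l(a) ∈ A`,
`D y_l = δ_l y_l ∈ B`), and
`D (mon x m) = mon x m * (p⁻¹ pair w0 m + ∑_j δ_j m_j)`, as in `MMCI/K_UNT.lean` (`p = 1`, `w0 = 0` for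
the case of derivations with `D z_c = δ_c z_c`). -/
def S_LB0 : Prop := S_MON → S_REV → ∀ {F K : Type} [Field F] [Field K] [Algebra ℂ F]
  [Algebra ℂ K] [Algebra F K] [IsScalarTower ℂ F K] {b e n r : ℕ} (B : ProjModel F) (κ : ℕ)
  (y0 : Fin b → F) (β : DivVal (b + e) K → ℤ) (f : Fin r → LR F n) (x : Fin n → K),
  RReg e f x → ∀ (v : DivVal (b + e) K) (L : Loc B e κ y0 β f x v), ∃ B0 : Subalgebra ℂ K,
    Good0 v B0 ∧ (∀ a, InO B v a → algebraMap F K a ∈ B0) ∧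
    (∀ m, 0 ≤ pair (wt x v) m → mon x m ∈ B0) ∧
    (∀ (B' : Subalgebra ℂ K) (D : Derivation ℂ K K) (δ : Fin (b + n) → K), B0 ≤ B' →
      (∀ c, δ c ∈ B') → (∀ c, D (L.z c) = δ c * L.z c) → ∀ a ∈ B0, D a ∈ B') ∧
    ∀ (q w0 : Fin n → ℤ) (k : ℤ), 0 < k → wt x v = k • w0 → pair w0 q = 1 →
      ∀ (B' : Subalgebra ℂ K) (D : Derivation ℂ K K) (δ : Fin (b + n) → K), B0 ≤ B' →
      (∀ c, δ c ∈ B') → (∀ l, D (L.z (Fin.castAdd n l)) =
        δ (Fin.castAdd n l) * L.z (Fin.castAdd n l)) →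
      (∀ j, D (x j) = ((mon x q)⁻¹ * (w0 j : K) + δ (Fin.natAdd b j)) * x j) →
      ∀ a ∈ B0, D a ∈ B'

/-- LE0: weight zero. (`wt L.z v = 0`; `wmin f x v = 0` because `rmin (f i) 0 = 0`, `f i ≠ 0`. `GenE.e0a`,
`LBIG`; `GenE.e0b` with `B0` of `LB0`, the functions of `BIG` (`LEXP`); the `y_l⁻¹` are in `A`; the entries of
`G` are in `B0` (coefficients in `A`).) -/
def S_LE0 : Prop := ∀ {F K : Type} [Field F] [Field K] [Algebra ℂ F] [Algebra ℂ K]
  [Algebra F K] [IsScalarTower ℂ F K] {b e n r : ℕ} (B : ProjModel F) (κ : ℕ) (y0 : Fin b → F)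
  (β : DivVal (b + e) K → ℤ) (f : Fin r → LR F n) (x : Fin n → K), 0 < b + e →
  Algebra.trdeg ℂ K = ((b + e : ℕ) : Cardinal) → RReg e f x → ∀ (v : DivVal (b + e) K)
  (L : Loc B e κ y0 β f x v), wt x v = 0 →
  1 ≤ v.logOrd (dlogs (rest L.z L.σ)) ∧ (v.logOrd (dlogs (rest L.z L.σ)) = 1 ↔ BIG B x v)

def M_LE0 : Prop := GenE → S_MON → S_REV → S_LREL → S_LUNI → S_LEXP → S_LBIG → S_LB0 → S_LE0

/-- LUNT: the weight is primitive. (As `MMCI/K_UNT.lean`: `wt x v = k w0`, `pair w0 q = 1`, `0 < k`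
(`UNT.exists_gen`); `GenE.unt` with `w0`, `q` extended by zero to `Fin (b + n)` (so `mon L.z q' = mon x q`),
`B0` of `LB0`, `y_i = mon x (m_i)`, `m_i` an exponent of `f i` of minimal weight, and the functions of
`BIG`. `G_ic / y_i ∈ B0`: the coefficients and their derivatives are in `A`.
`- p⁻¹ ∑_j w0_j rgrad_j g_i = - p⁻¹ ∑_m c_m (pair w0 m - pair w0 (m_i)) x^m` as `rev x g_i = 0`, the
coefficients `c_m` of `g_i` are in `A`. Conclusion: `k = v.ord (mon x q) = 1`.) -/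
def S_LUNT : Prop := ∀ {F K : Type} [Field F] [Field K] [Algebra ℂ F] [Algebra ℂ K]
  [Algebra F K] [IsScalarTower ℂ F K] {b e n r : ℕ} (B : ProjModel F) (κ : ℕ) (y0 : Fin b → F)
  (β : DivVal (b + e) K → ℤ) (f : Fin r → LR F n) (x : Fin n → K), 0 < b + e →
  Algebra.trdeg ℂ K = ((b + e : ℕ) : Cardinal) → RReg e f x → ∀ (v : DivVal (b + e) K),
  Loc B e κ y0 β f x v → wt x v ≠ 0 → BIG B x v → Primitive (wt x v)

def M_LUNT : Prop := GenE → S_MON → S_REV → S_LREL → S_LUNI → S_LB0 → S_LUNT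

/-- LBND. (`GenE.bnd` with the `ν j` extended by zero to `Fin (b + n)` and
`I = {i : rmin (f i) (∑ ν j) ≠ ∑_j rmin (f i) (ν j)}`, `card I ≤ s - 2` as in `MMCI/K_BND.lean`
(`BND.minimal` etc. for `supp0`, or copied). For `i ∉ I` every exponent `m` of `f i` of minimal weight
satisfies `pair (ν j) m = rmin (f i) (ν j) =: μ` for all `j`, so
`∑_c (ν_j)_c G_ic = ∑_m c_m pair (ν j) m x^m = ∑_m c_m (pair (ν j) m - μ) x^m` (`rev x g_i = 0`) has order
at least `rmin (f i) w + 1`. The `ρ` of `LEXP` for `a_l x^(q_l)` are orthogonal to the `ν j`.) -/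
def S_LBND : Prop := ∀ {F K : Type} [Field F] [Field K] [Algebra ℂ F] [Algebra ℂ K]
  [Algebra F K] [IsScalarTower ℂ F K] {b e n r : ℕ} (B : ProjModel F) (κ : ℕ) (y0 : Fin b → F)
  (β : DivVal (b + e) K → ℤ) (f : Fin r → LR F n) (x : Fin n → K), 0 < b + e →
  Algebra.trdeg ℂ K = ((b + e : ℕ) : Cardinal) → RReg e f x → ∀ (v : DivVal (b + e) K),
  Loc B e κ y0 β f x v → ∀ (s : ℕ) (ν : Fin s → (Fin n → ℤ)) (c : Fin s → ℕ)
    (c0 : ℕ), 0 < c0 → (∀ j, 0 < c j) → LinearIndependent ℤ ν →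
    (c0 : ℤ) • wt x v = ∑ j, (c j : ℤ) • ν j →
    ∑ i, (rmin (f i) (∑ j, ν j) - ∑ j, rmin (f i) (ν j)) + 2 ≤ s →
    ¬ ∃ (a : Fin (b + e - 1) → F) (q : Fin (b + e - 1) → (Fin n → ℤ)),
      (∀ l, InO B v (a l) ∧ a l ≠ 0 ∧ v.ord (algebraMap F K (a l)) = 0 ∧
        ∀ j, pair (ν j) (q l) = 0) ∧
      ResIndep v fun l => algebraMap F K (a l) * mon x (q l)

def M_LBND : Prop := GenE → S_MON → S_REV → S_LREL → S_LUNI → S_LEXP → S_LBND

/-- SIG: the columns `x` only. For `σ : Fin r ⊕ Fin e ≃ Fin n` there is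
`σ' : Fin r ⊕ Fin (b + e) ≃ Fin (b + n)` with the same columns in the part `x`, and its `rest` is
`(y, rest)`. -/
def S_SIG : Prop := ∀ {b e n r : ℕ} (σ : Fin r ⊕ Fin e ≃ Fin n),
  ∃ σ' : Fin r ⊕ Fin (b + e) ≃ Fin (b + n), (∀ j, σ' (Sum.inl j) = Fin.natAdd b (σ (Sum.inl j))) ∧
    (∀ l : Fin b, σ' (Sum.inr (Fin.castAdd e l)) = Fin.castAdd n l) ∧
    ∀ l : Fin e, σ' (Sum.inr (Fin.natAdd b l)) = Fin.natAdd b (σ (Sum.inr l))

/-- DUL: dual derivations. (The `D (y l)` are a basis of `Ω[F⁄ℂ]`: they are independent because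
`dlogs y ≠ 0`, and the dimension is `b`, `BAS.finrank_eq`.) -/
def S_DUL : Prop := ∀ {F : Type} [Field F] [Algebra ℂ F] {b : ℕ} (y : Fin b → F),
  Algebra.trdeg ℂ F = (b : Cardinal) → (∀ l, y l ≠ 0) → dlogs y ≠ 0 →
  ∃ d : Fin b → Derivation ℂ F F, ∀ a : F, KaehlerDifferential.D ℂ F a =
    ∑ l, d l a • KaehlerDifferential.D ℂ F (y l)

/-- LOMG: the residue form. (`σ` with `rminor f x σ ≠ 0` by `rank` (`MIN.exists_minor`,
`MIN.exists_equiv` in `MMCI/K_MIN.lean`); `ω = (rminor f x σ)⁻¹ • dlogs (zz y0 (rest x σ))`. Comparison with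
another `τ`: `PLU` for `zz y0 x`, the matrix `gr y0 d0 (f i) x` (`d0` of `DUL`; relations by `REV`), `σ'`,
`τ'` of `SIG`; the minors of these are `rminor`. `ω ≠ 0` by `ABAS`, whose hypothesis `Rel` is proved as in
`LREL`.) -/
def S_LOMG : Prop := ∀ {F K : Type} [Field F] [Field K] [Algebra ℂ F] [Algebra ℂ K]
  [Algebra F K] [IsScalarTower ℂ F K] {b e n r : ℕ} (y0 : Fin b → F) (f : Fin r → LR F n)
  (x : Fin n → K), Algebra.trdeg ℂ F = (b : Cardinal) → (∀ l, y0 l ≠ 0) → dlogs y0 ≠ 0 →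
  Algebra.trdeg ℂ K = ((b + e : ℕ) : Cardinal) → RReg e f x →
  ∃ ω : Forms (b + e) K, IsResR e y0 f x ω

def M_LOMG : Prop := S_REV → S_ABAS → S_PLU → S_SIG → S_DUL → S_LOMG

/-- WDG: change of the transcendence basis of `F`. (`dlog (y0 i) = ∑_j C_ij dlog (y j)` in `Ω[F⁄ℂ]`, by the
property `dual`: `C_ij = y_j d_j(y0_i) / y0_i`; so `dlogs y0 = det C • dlogs y` and `h = det C` if
`dlogs y0 ≠ 0`; the same relations hold in `Ω[K⁄ℂ]` (`REV`), and the block matrix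
`(C, 0; 0, 1)` has the same determinant. See `EQ1b.iota_mat` in `MMCI/K_EQ1b.lean` for a basis, or
`AlternatingMap.map_linearCombination`-type lemmas; if the right-hand vectors are not a basis both sides
are zero or use multilinearity.) -/
def S_WDG : Prop := S_REV → ∀ {F K : Type} [Field F] [Field K] [Algebra ℂ F] [Algebra ℂ K]
  [Algebra F K] [IsScalarTower ℂ F K] {b e : ℕ} (y0 y : Fin b → F) (d : Fin b → Derivation ℂ F F)
  (h : F), (∀ l, y0 l ≠ 0) → (∀ l, y l ≠ 0) → dlogs y0 ≠ 0 → dlogs y0 = h • dlogs y →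
  (∀ a : F, KaehlerDifferential.D ℂ F a = ∑ l, d l a • KaehlerDifferential.D ℂ F (y l)) →
  ∀ w : Fin e → K, (∀ l, w l ≠ 0) →
    dlogs (zz y0 w) = algebraMap F K h • dlogs (zz y w)

/-- LFRM: the residue form in the local data. (Choose `σ0` with `rminor f x σ0 ≠ 0` (`rank`), `σ0'` of
`SIG`. `WDG`: `dlogs (zz y0 (rest x σ0)) = h • dlogs (zz y (rest x σ0))`, and
`zz y (rest x σ0) = rest L.z σ0'`. The minor `σ0'` of `L.G` is `∏ (u i)⁻¹ * rminor f x σ0`. `PLU` for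
`L.z`, `L.G` (`LREL`), `L.σ`, `σ0'`; cancel `rminor f x σ0`.) -/
def S_LFRM : Prop := ∀ {F K : Type} [Field F] [Field K] [Algebra ℂ F] [Algebra ℂ K]
  [Algebra F K] [IsScalarTower ℂ F K] {b e n r : ℕ} (B : ProjModel F) (κ : ℕ) (y0 : Fin b → F)
  (β : DivVal (b + e) K → ℤ) (f : Fin r → LR F n) (x : Fin n → K),
  (∀ l, y0 l ≠ 0) → dlogs y0 ≠ 0 →
  Algebra.trdeg ℂ K = ((b + e : ℕ) : Cardinal) → RReg e f x → ∀ ω : Forms (b + e) K,
  IsResR e y0 f x ω → ∀ (v : DivVal (b + e) K) (L : Loc B e κ y0 β f x v),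
  ∃ ε : K, (ε = 1 ∨ ε = -1) ∧ gminor L.G L.σ • ω =
    (ε * algebraMap F K (L.h * ∏ i, (L.u i)⁻¹)) • dlogs (rest L.z L.σ)

def M_LFRM : Prop := S_REV → S_LREL → S_PLU → S_SIG → S_WDG → S_LFRM

/-- RLOG (statement in `Defs.lean`), assembly. `ω` of `LOMG`. At `v` with local data: `LFRM` and
`cFSM` (`MMCI/Tools.lean`): `v.logOrd ω = v.ord h - ∑ v.ord (u i) + v.logOrd (dlogs (rest L.z L.σ)) -
rpsi f (wt x v)`, so by `h_ord`, `u_ord`
`κ * v.logOrd ω - bo = κ * (v.logOrd (dlogs (rest …)) - rpsi f (wt x v))`; `LE1`, `LE0` (`rpsi f 0 = 0`),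
`LUNT`, `LBND`. In the other case of `RSys.nd` everything is clear: `BIG` is false, and the family of
`bnd` would give `BIG` (`c0 * pair (wt x v) q = ∑ c_j pair (ν j) q = 0`). -/
def M_RLOG : Prop := S_MON → S_REV → S_LREL → S_LUNI → S_ABAS → S_LOMG → S_LFRM → S_LE1 → S_LE0 →
  S_LUNT → S_LBND → S_RLOG

end

end RMM
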