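import Pool.Agent.RMM.StE2

/-!
# Relative minimal models, block E3: existence of the local data. Statements.

The final statement is `S_RSYS` of `Defs.lean`. `R = B.ring j` is a finitely generated algebra, `F` is
its field of fractions (`Y.gen`), `m` a maximal ideal, so `R / m = ℂ`.
-/

namespace RMM

open MldGeo MMCI

noncomputable section

/-! ### coordinates at the closed points of `B` -/

section

variable {F K : Type} [Field F] [Field K] [Algebra ℂ F] [Algebra ℂ K] [Algebra F K]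
  [IsScalarTower ℂ F K] {b e e' n r : ℕ}

/-- Local coordinates `t` at the point `m` of the affine variety with the ring `R`, with the dual
derivations `d`, which map `R` to `s⁻¹ R`. -/
structure Coord (R : Subalgebra ℂ F) (b : ℕ) (m : Ideal R) where
  t : Fin b → R
  tm : m = Ideal.span (Set.range t) ⊔ m ^ 2
  d : Fin b → Derivation ℂ F F
  dual : ∀ a : F, KaehlerDifferential.D ℂ F a =
    ∑ l, d l a • KaehlerDifferential.D ℂ F (t l : F)
  dt : ∀ l l', d l (t l' : F) = if l = l' then 1 else 0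
  s : R
  sm : s ∉ m
  sd : ∀ l (a : R), (s : F) * d l (a : F) ∈ R

/-- The coordinates `1 + t_l`, which are units at `m`. -/
def Coord.y {R : Subalgebra ℂ F} {m : Ideal R} (C : Coord R b m) (l : Fin b) : F := 1 + (C.t l : F)

/-- FRC: the charts are finitely generated with field of fractions `F`. -/
def S_FRCB : Prop := ∀ {F : Type} [Field F] [Algebra ℂ F] (B : ProjModel F)
  (j : Fin (B.N + 1)), (B.ring j).FG ∧ (∀ a : F, ∃ p q : B.ring j, q ≠ 0 ∧ a * (q : F) = p) ∧
    ∀ m : Ideal (B.ring j), m.IsMaximal → ∀ a : B.ring j, ∃ c : ℂ,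
      a - algebraMap ℂ (B.ring j) c ∈ m

/-- NAK: coordinates exist at smooth points. Proof. Let `N = Ω[R⁄ℂ]`, a finite `R`-module, and `N'` the
submodule spanned by the `D t_l`. For `a ∈ R` there is `c ∈ ℂ` with `a - c ∈ m` (hypothesis), so
`a - c = ∑ r_l t_l + ∑ a_k b_k`, `a_k, b_k ∈ m`, and `D a ∈ N' + m N`. So `N ≤ N' ⊔ m • N`, and by
Nakayama's lemma (`Submodule.exists_sub_one_mem_and_smul_eq_zero_of_fg_of_le_smul` for `N / N'`) there
is `s ∈ 1 + m` with `s N ≤ N'`. So `s D a = ∑ r_l D t_l` for every `a ∈ R`, hence in `Ω[F⁄ℂ]`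
(`KaehlerDifferential.map ℂ ℂ R F`) `D a = ∑ (r_l / s) D t_l`, the `D t_l` span `Ω[F⁄ℂ]` (quotient
rule), and they are a basis because the dimension is `b` (`BAS.finrank_eq`). The dual basis gives the
derivations `d_l`, and `s d_l(a) = r_l`. -/
def S_NAK : Prop := ∀ {F : Type} [Field F] [Algebra ℂ F] {b : ℕ} (R : Subalgebra ℂ F)
  (m : Ideal R) (t : Fin b → R), R.FG → (∀ a : F, ∃ p q : R, q ≠ 0 ∧ a * (q : F) = p) →
  Algebra.trdeg ℂ F = (b : Cardinal) → m.IsMaximal →
  (∀ a : R, ∃ c : ℂ, a - algebraMap ℂ R c ∈ m) → m = Ideal.span (Set.range t) ⊔ m ^ 2 →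
  ∃ C : Coord R b m, C.t = t

/-- LOCD: the derivations preserve the local rings: if the elements of `R` outside `m` have order
zero, and `v` is nonnegative on `R`, then `d_l` maps fractions `p / q`, `v.ord q = 0`, to such
fractions. -/
def S_LOCD : Prop := ∀ {F K : Type} [Field F] [Field K] [Algebra ℂ F] [Algebra ℂ K]
  [Algebra F K] [IsScalarTower ℂ F K] {b e' : ℕ} (R : Subalgebra ℂ F) (m : Ideal R)
  (C : Coord R b m) (v : DivVal e' K), (∀ a ∈ R, v.Ge 0 (algebraMap F K a)) →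
  (∀ a : R, v.Ge 1 (algebraMap F K a) → a ∈ m) →
  (∀ l, v.ord (algebraMap F K (C.y l)) = 0 ∧ C.y l ≠ 0) ∧
  ∀ a : F, (∃ p ∈ R, ∃ q ∈ R, q ≠ 0 ∧ v.ord (algebraMap F K q) = 0 ∧ a * q = p) →
    ∀ l, ∃ p ∈ R, ∃ q ∈ R, q ≠ 0 ∧ v.ord (algebraMap F K q) = 0 ∧ C.d l a * q = p

/-! ### closed points of `B × T` -/

/-- The value of `a` under `ρ`, zero outside `A`. -/
def rhoE {κ : Type} [Field κ] [Algebra ℂ κ] (A : Subalgebra ℂ F) (ρ : A →ₐ[ℂ] κ) (a : F) : κ :=
  open Classical in if h : a ∈ A then ρ ⟨a, h⟩ else 0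

/-- The extended gradient of `h` at the point `(ρ, p)`. -/
def pgr {κ : Type} [Field κ] [Algebra ℂ κ] {R : Subalgebra ℂ F} (A : Subalgebra ℂ F)
    (ρ : A →ₐ[ℂ] κ) (p : Fin n → κ) (d : Fin b → Derivation ℂ F F) (h : LR R n) :
    Fin (b + n) → κ :=
  Fin.append (fun l => h.coeff.sum fun a c => rhoE A ρ (d l (c : F)) * mon p a)
    fun j => h.coeff.sum fun a c => rhoE A ρ (c : F) * (a j : κ) * mon p a

end

/-- TAY: nonzero minors. Proof. Let `m = M.comap _`. (1) `LR R n` is a finitely generated `ℂ`-algebra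
(`R.FG`, and the monomials of `± e_j`), so `LR R n / M = ℂ` (`hM`, or the Nullstellensatz): let
`π : LR R n → ℂ` be the residue map, `p_j = π(x_j) ≠ 0`; `π (single a c) = π(c) p^a`. (2) `M` is generated
by `m` and the `x_j - p_j`, so by `tm` `M / M²` is spanned over `ℂ` by the classes of `t_l` and of
`x_j - p_j`: every `h ∈ M` is congruent modulo `M²` to `∑ α_l t_l + ∑ β_j (x_j - p_j)`, `α, β` complex
numbers. (3) The maps `E_l : h ↦ π(s)⁻¹ ∑_a π(s d_l(h_a)) p^a` and `E'_j : h ↦ ∑_a π(h_a) a_j p^a`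
are derivations along `π`, so they vanish on `M²`; `E_l(t_l') = δ`, `E_l (x_j - p_j) = 0`,
`E'_j(t_l) = 0`, `E'_j(x_j' - p_j') = δ p_j`. So if `h ∈ M` and all `E_l(h)`, `E'_j(h)` are zero then
`h ∈ M²`. (4) By the last hypothesis the rows `(E_l(h_i), E'_j(h_i))` are linearly independent, some
minor with the columns `g` is not zero (`MIN.exists_minor`). (5) Let `(A, ρ, p)` be as in the
conclusion. The matrix `(s d_l h_i, s x_j∂_j h_i)` has entries in `LR R n`, the minor `g` of it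
is an element `δ` with `π(δ) ≠ 0`, so `δ ∉ M` and its value at `(ρ, p)` is not zero; this value is
`ρ(s)^r` times the minor of the `pgr` (`ρ(s) ρ(d_l c) = ρ(s d_l c)`). -/
def S_TAY : Prop := ∀ {F : Type} [Field F] [Algebra ℂ F] {b n r : ℕ} (R : Subalgebra ℂ F)
  (M : Ideal (LR R n)) (C : Coord R b (M.comap (algebraMap R (LR R n)))) (h : Fin r → LR R n),
  R.FG → M.IsMaximal → (∀ i, h i ∈ M) →
  (∀ τ : Fin r → ℂ, ∑ i, τ i • h i ∈ M ^ 2 → τ = 0) →
  ∃ g : Fin r → Fin (b + n), Function.Injective g ∧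
    ∀ {κ : Type} [Field κ] [Algebra ℂ κ] (A : Subalgebra ℂ F) (ρ : A →ₐ[ℂ] κ) (p : Fin n → κ),
      R ≤ A → (∀ l, ∀ a ∈ A, C.d l a ∈ A) → (∀ j, p j ≠ 0) →
      (∀ G : LR R n, (G.coeff.sum fun a c => rhoE A ρ (c : F) * mon p a) = 0 → G ∈ M) →
      (Matrix.of fun i j : Fin r => pgr A ρ p C.d (h i) (g j)).det ≠ 0

/-- The value of `G` at the centre of `v`, normalised by the uniformizer `t0`. -/
def nval {F K : Type} [Field F] [Field K] [Algebra ℂ F] [Algebra ℂ K] [Algebra F K] {e' n : ℕ}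
    {R : Subalgebra ℂ F} (x : Fin n → K) (v : DivVal e' K) (t0 : K) (G : LR R n) : K :=
  G.coeff.sum fun a c => algebraMap F K (c : F) * (mon x a * t0 ^ (-(pair (wt x v) a)))

/-- CLP: a closed point in the closure of the centre of `v` on `B × T` (with respect to the normalised
coordinates). (`{G : v.Ge 1 (nval G)}` is an ideal, the kernel of a homomorphism to the residue field
(see `MMCI/K_MIN.lean`), and does not contain `1`; `M` is a maximal ideal above it. The intersection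
with `B.ring j` is maximal: `LR (B.ring j) n / M = ℂ` by the Nullstellensatz.) -/
def S_CLP : Prop := ∀ {F K : Type} [Field F] [Field K] [Algebra ℂ F] [Algebra ℂ K]
  [Algebra F K] [IsScalarTower ℂ F K] {e' n : ℕ} (B : ProjModel F) (x : Fin n → K),
  (∀ j, x j ≠ 0) → ∀ (v : DivVal e' K) (t0 : K), t0 ≠ 0 → v.ord t0 = 1 →
  ∃ (j : Fin (B.N + 1)) (M : Ideal (LR (B.ring j) n)), M.IsMaximal ∧
    (M.comap (algebraMap (B.ring j) (LR (B.ring j) n))).IsMaximal ∧
    Through B v j (M.comap (algebraMap (B.ring j) (LR (B.ring j) n))) ∧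
    ∀ G : LR (B.ring j) n, v.Ge 1 (nval x v t0 G) → G ∈ M

/-- CHT: every `v` has a centre on `B` (`v.ord (s_j)` minimal), in the form used in `CLP`. -/
def S_CHT : Prop := ∀ {F K : Type} [Field F] [Field K] [Algebra ℂ F] [Algebra ℂ K]
  [Algebra F K] [IsScalarTower ℂ F K] {e' : ℕ} (B : ProjModel F) (v : DivVal e' K),
  ∃ j, OnChart B v j

/-- RCEN: the local ring of `B` at the centre of `v` does not depend on the chart. (If `v` has a centre
on the charts `j`, `j'` then `v.ord (s_j' / s_j) = 0`, and an element of `B.ring j'` is a polynomial in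
the `s_i / s_j' = (s_i / s_j) / (s_j' / s_j)`.) -/
def S_RCEN : Prop := ∀ {F K : Type} [Field F] [Field K] [Algebra ℂ F] [Algebra ℂ K]
  [Algebra F K] [IsScalarTower ℂ F K] {e' : ℕ} (B : ProjModel F) (v : DivVal e' K),
  (∀ j, OnChart B v j → ∀ a, InO B v a ↔ ∃ p ∈ B.ring j, ∃ q ∈ B.ring j, q ≠ 0 ∧
    v.ord (algebraMap F K q) = 0 ∧ a * q = p) ∧
  ∃ A : Subalgebra ℂ F, (∀ a, a ∈ A ↔ InO B v a) ∧ (∀ a ∈ A, v.Ge 0 (algebraMap F K a)) ∧
    ∀ a ∈ A, a ≠ 0 → v.ord (algebraMap F K a) = 0 → a⁻¹ ∈ A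

/-- MNV: a minor of least order at `v`. Proof. `w = wt x v`. The elements
`h_i = rinit (g i) w` are in `M`: `nval (rinit (g i) w) = t0^(-μ_i) (rev x (g i) - (terms of higher
weight))`, `μ_i = rmin (g i) w`, and `rev x (g i) = u_i⁻¹ rev x (f i) = 0`. `TAY` gives `g0`. Take
`κ` = the residue field of `v.OV` (with `MIN.alg v`), `A` of `RCEN`, `ρ` = the residue map,
`p_j` = the residue of `x_j t0^(-w_j)` (`MIN.exists_units`, `MIN.U_val`, `MIN.U_res`). The entries
`gr y d (u_i⁻¹ • f i) x c * t0^(-μ_i)` have nonnegative orders, and their residues are the entries of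
`pgr A ρ p d (h_i)`, up to the nonzero factor `ρ(y_l) = 1 + ρ(t_l)` of the columns `castAdd l`. So the
minor has the order `∑ μ_i = rpsi f w` (the `g i` and `f i` have the same exponents). Extend `g0` to `σ`
(`MIN.exists_equiv`, `b + n = r + (b + e)`). -/
def S_MNV : Prop := ∀ {F K : Type} [Field F] [Field K] [Algebra ℂ F] [Algebra ℂ K]
  [Algebra F K] [IsScalarTower ℂ F K] {b e n r : ℕ} (B : ProjModel F) (f : Fin r → LR F n)
  (x : Fin n → K), n = r + e → (∀ i, f i ≠ 0) → (∀ j, x j ≠ 0) → (∀ i, rev x (f i) = 0) →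
  ∀ (v : DivVal (b + e) K) (t0 : K), t0 ≠ 0 → v.ord t0 = 1 →
  ∀ (j : Fin (B.N + 1)) (M : Ideal (LR (B.ring j) n)), M.IsMaximal →
  Through B v j (M.comap (algebraMap (B.ring j) (LR (B.ring j) n))) →
  (∀ G : LR (B.ring j) n, v.Ge 1 (nval x v t0 G) → G ∈ M) →
  ∀ (C : Coord (B.ring j) b (M.comap (algebraMap (B.ring j) (LR (B.ring j) n))))
  (u : Fin r → F) (g : Fin r → LR (B.ring j) n), (∀ i, u i ≠ 0) →
  (∀ i a, (f i).coeff a = u i * ((g i).coeff a : F)) →
  ((∀ i, rinit (g i) (wt x v) ∈ M) →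
    ∀ τ : Fin r → ℂ, ∑ i, τ i • rinit (g i) (wt x v) ∈ M ^ 2 → τ = 0) →
  ∃ σ : Fin r ⊕ Fin (b + e) ≃ Fin (b + n),
    (Matrix.of fun i j : Fin r => gr C.y C.d ((u i)⁻¹ • f i) x (σ (Sum.inl j))).det ≠ 0 ∧
    v.ord (Matrix.of fun i j : Fin r => gr C.y C.d ((u i)⁻¹ • f i) x (σ (Sum.inl j))).det =
      rpsi f (wt x v)

def M_MNV : Prop := S_FRCB → S_TAY → S_RCEN → S_LOCD → S_MNV

/-- RRK: the rank of the gradients. Proof. The homomorphism `LR (B.ring 0) n → K`, `G ↦ rev`-value at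
`x`, has a proper kernel; let `M` be a maximal ideal above it, `m` its intersection with `B.ring 0`
(maximal, as in `CLP`), `g`, `u` the local equations, `nondeg` for `ν = 0` (`rinit (g i) 0 = g i`), `C`
coordinates (`NAK`, `FRCB`). `TAY` with `A = ⊤`, `ρ = algebraMap F K`, `p = x`: the extended gradients
of the `f i` are linearly independent. If `∑ a_i rgrad x (f i) = 0` then by the relations `REV`
(with the `y`, `d` of `C`) `∑_l (∑_i a_i gr_i(castAdd l)) dlog (y_l) = 0` in `Ω[K⁄ℂ]`; the `y_l` are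
algebraically independent over `ℂ` (their differentials are a basis of `Ω[F⁄ℂ]`: `BAS.algInd`), in `K`
too, so the `D (y l)` are linearly independent in `Ω[K⁄ℂ]` (extend to a transcendence basis, `cTBAS`);
so all `∑_i a_i gr_i = 0` and `a = 0`. -/
def S_RRK : Prop := ∀ {F K : Type} [Field F] [Field K] [Algebra ℂ F] [Algebra ℂ K] [Algebra F K]
  [IsScalarTower ℂ F K] {b e n r : ℕ} (B : ProjModel F) (f : Fin r → LR F n) (x : Fin n → K),
  IsRNCI B b e f x → LinearIndependent K fun i => rgrad x (f i)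

def M_RRK : Prop := S_FRCB → S_NAK → S_TAY → S_REV → S_RRK

/-! ### the canonical divisor of `B` -/

/-- HEQ: `dlogs y0 = h • dlogs y` for two systems of coordinates (one-dimensional space of forms). -/
def S_HEQ : Prop := ∀ {F : Type} [Field F] [Algebra ℂ F] {b : ℕ} (R : Subalgebra ℂ F)
  (m : Ideal R) (C : Coord R b m), Algebra.trdeg ℂ F = (b : Cardinal) → m.IsMaximal →
  (∀ l, C.y l ≠ 0) ∧ dlogs C.y ≠ 0 ∧ ∀ y0 : Fin b → F, dlogs y0 ≠ 0 →
    ∃ h : F, h ≠ 0 ∧ dlogs y0 = h • dlogs C.y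

/-- BEQ: `h` is an equation of `K_B` near `m`. (`s' = s * ∏ (1 + t_l)`. Let `v` be a prime divisor with
the centre `P ≤ m'`, `s' ∉ m'`, so `s' ∉ P`. If `b = 0` there are no prime ideals of height one.
The local ring at `P` is the valuation ring of `v` (`cOLC` for the germ of `B` at `m'`), it is preserved
by the `d_l` (`s ∉ P`), so by `cREG` `v.logOrd (dforms t) = 1` (a derivation `D` with `v.Ge 0 (D t_l)`
maps `a` to `∑ d_l(a) D t_l`), `v.formOrd (dforms t) = 0` (`cTXT`),
`dlogs C.y = ∏ (1 + t_l)⁻¹ • dforms t`, and `cFSM`.) -/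
def S_BEQ : Prop := ∀ {F : Type} [Field F] [Algebra ℂ F] {b : ℕ} (B : ProjModel F)
  (j : Fin (B.N + 1)) (m : Ideal (B.ring j)) (C : Coord (B.ring j) b m) (y0 : Fin b → F) (h : F),
  Algebra.trdeg ℂ F = (b : Cardinal) → (∀ a : F, IsIntegral (B.ring j) a → a ∈ B.ring j) →
  m.IsMaximal → dlogs y0 ≠ 0 → h ≠ 0 → dlogs y0 = h • dlogs C.y →
  ∃ s : B.ring j, s ∉ m ∧ ∀ m' : Ideal (B.ring j), m'.IsMaximal → s ∉ m' →
    IsEquation (B.ring j) (dlogs y0) 1 m' h

def M_BEQ : Prop := S_FRCB → S_BEQ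

/-- LCP: a function which is regular along all prime divisors through the generic point of `V(P)` is a
fraction with denominator outside the prime ideal `P`. (As `MldGeo/LOC.lean`, with `P` instead of the
maximal ideal `X.m`: `den` is defined with `t ∉ P`. The germ needed for `DIV` (`cDIV`: the valuation
of a prime ideal of height one) has the ring `R` and any maximal ideal; see `Tor.germ` or the
construction of `germ` in `MMCI/K_BHT.lean`. Or apply the lemmas of `LOC.lean` if they can be stated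
for prime ideals.) -/
def S_LCP : Prop := ∀ {F : Type} [Field F] [Algebra ℂ F] {b : ℕ} (R : Subalgebra ℂ F)
  (P : Ideal R) (z : F), R.FG → (∀ a : F, ∃ p q : R, q ≠ 0 ∧ a * (q : F) = p) →
  Algebra.trdeg ℂ F = (b : Cardinal) → (∀ a : F, IsIntegral R a → a ∈ R) → P.IsPrime →
  (∀ (v : DivVal b F) (Q : Ideal R), IsPrimeDivisor R v Q → Q ≤ P → v.Ge 0 z) →
  ∃ p q : R, q ∉ P ∧ z * (q : F) = p

/-- BET: the order of the local equations at the centre. (Let `P_v` be the centre of `v` on the chart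
`j`, `P_v ≤ m`, and `P_v'` the centre on the chart `j'`. `a / a'` and `a' / a` have order zero at all
prime divisors `v1` of `B` with a centre `P1 ≤ P_v` on the chart `j`: then `s_j' / s_j` is not in `P_v`
(`RCEN`), so not in `P1`, `v1` has a centre `P1'` on the chart `j'`, `P1' ≤ P_v'`, of height one
(`cHT1`: the residues; or the local rings at `P1` and `P1'` are equal). By `LCP` at the prime ideal `P_v` of `B.ring j` `a / a'` and `a' / a` are
fractions with denominators outside `P_v`, of order `≥ 0` at `v`.) -/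
def S_BET : Prop := ∀ {F K : Type} [Field F] [Field K] [Algebra ℂ F] [Algebra ℂ K]
  [Algebra F K] [IsScalarTower ℂ F K] {b e' : ℕ} (B : ProjModel F) (κ : ℕ) (ω : Forms b F),
  Algebra.trdeg ℂ F = (b : Cardinal) → (∀ j (a : F), IsIntegral (B.ring j) a → a ∈ B.ring j) →
  ∀ (v : DivVal e' K) (j j' : Fin (B.N + 1)) (m : Ideal (B.ring j)) (m' : Ideal (B.ring j'))
  (a a' : F), m.IsMaximal → m'.IsMaximal → Through B v j m → Through B v j' m' → a ≠ 0 →
  a' ≠ 0 → IsEquation (B.ring j) ω κ m a → IsEquation (B.ring j') ω κ m' a' →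
  v.ord (algebraMap F K a) = v.ord (algebraMap F K a')

def M_BET : Prop := S_FRCB → S_RCEN → S_LCP → S_BET

/-- RBD: the base data. (`y0 = C.y` for coordinates at some closed point of the chart `0`. At every closed
point `m` of every chart there are coordinates (`SmoothB.smooth`, `NAK`, `FRCB`), `h` of `HEQ`, and `s` of
`BEQ`; for every chart the `s` generate the unit ideal, so finitely many of them do, and the
corresponding `h` are the set `S`. `β v` is the order of some equation at some closed point in the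
closure of the centre (`CHT`, a maximal ideal above the centre), well defined by `BET`.) -/
def S_RBD : Prop := ∀ {F K : Type} [Field F] [Field K] [Algebra ℂ F] [Algebra ℂ K]
  [Algebra F K] [IsScalarTower ℂ F K] {b e' : ℕ} (B : ProjModel F), SmoothB b B →
  ∃ (y0 : Fin b → F) (β : DivVal e' K → ℤ), BaseData B b e' K 1 y0 β

def M_RBD : Prop := S_FRCB → S_NAK → S_CHT → S_HEQ → S_BEQ → S_BET → S_RBD

/-! ### the local data -/

/-- CMN: the orders of the coefficients. (If `f i = u g`, `g` with coefficients in `B.ring j`, not all of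
them in `m`, then `cmin v (coefs (f i)) = v.ord u` for `v` through `m`, and `Bpf`-type property at `m`.) -/
def S_CMN : Prop := ∀ {F K : Type} [Field F] [Field K] [Algebra ℂ F] [Algebra ℂ K]
  [Algebra F K] [IsScalarTower ℂ F K] {n : ℕ} (B : ProjModel F) (f : LR F n)
  (j : Fin (B.N + 1)) (m : Ideal (B.ring j)) (u : F) (g : LR (B.ring j) n), f ≠ 0 → u ≠ 0 →
  (∀ a, f.coeff a = u * (g.coeff a : F)) → (∃ a, g.coeff a ∉ m) →
  (∃ c ∈ coefs f, c ≠ 0 ∧ ∀ c' ∈ coefs f, InLoc B j m (c' / c)) ∧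
  ∀ {e' : ℕ} (v : DivVal e' K), Through B v j m → cmin v (coefs f) = v.ord (algebraMap F K u)

/-- LDT: the local data. (Uniformizer `t0`, `CLP` gives `j`, `M`; `m = M.comap _`; `nondeg` for `ν = wt x v`
gives `g`, `u`; coordinates `C` by `smooth`, `NAK`; `y = C.y`, `A` of `RCEN`, `dA` and `y_ord` by
`LOCD`, `dual` as `D (1 + t_l) = D t_l`; `h` of `HEQ`; `h_ord` by `BEQ` (at `m' = m`) and
`BaseData.beta`; `u_coef`: the coefficients of `g i` are in `B.ring j`; `u_ord` by `CMN`; `σ` by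
`MNV`.) -/
def S_LDT : Prop := ∀ {F K : Type} [Field F] [Field K] [Algebra ℂ F] [Algebra ℂ K] [Algebra F K]
  [IsScalarTower ℂ F K] {b e n r : ℕ} (B : ProjModel F) (f : Fin r → LR F n) (x : Fin n → K),
  IsRNCI B b e f x → ∀ (y0 : Fin b → F) (β : DivVal (b + e) K → ℤ),
  BaseData B b (b + e) K 1 y0 β → ∀ v : DivVal (b + e) K, Nonempty (Loc B e 1 y0 β f x v)

def M_LDT : Prop := S_FRCB → S_NAK → S_CLP → S_RCEN → S_LOCD → S_HEQ → S_BEQ → S_CMN → S_MNV →
  S_LDT

/-- RSYS (statement in `Defs.lean`), assembly. -/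
def M_RSYS : Prop := S_RBD → S_LDT → S_RRK → S_CMN → S_RSYS

end

end RMM
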