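import Pool.Agent.RMM.StE3

/-!
# Relative minimal models, block E4: local forms for a general `κ`. Statements.

Used for bases with terminal singularities (`StS.lean`).
-/

namespace RMM

open MldGeo MMCI

noncomputable section

/-- CLP2: `CLP` with a uniformizer, and the property for homogeneous elements. Proof. `t0` a uniformizer
(`v.surj`), `S_CLP`. If all exponents of `g` have the weight `c` then
`nval x v t0 g = t0^(-c) * rev x g`. -/
def S_CLP2 : Prop := ∀ {F K : Type} [Field F] [Field K] [Algebra ℂ F] [Algebra ℂ K]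
  [Algebra F K] [IsScalarTower ℂ F K] {e' n : ℕ} (B : ProjModel F) (x : Fin n → K),
  (∀ j, x j ≠ 0) → ∀ v : DivVal e' K,
  ∃ (t0 : K) (j : Fin (B.N + 1)) (M : Ideal (LR (B.ring j) n)), t0 ≠ 0 ∧ v.ord t0 = 1 ∧
    M.IsMaximal ∧ (M.comap (algebraMap (B.ring j) (LR (B.ring j) n))).IsMaximal ∧
    Through B v j (M.comap (algebraMap (B.ring j) (LR (B.ring j) n))) ∧
    (∀ G : LR (B.ring j) n, v.Ge 1 (nval x v t0 G) → G ∈ M) ∧
    ∀ (g : LR (B.ring j) n) (c : ℤ), (∀ a ∈ g.coeff.support, pair (wt x v) a = c) →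
      v.Ge (c + 1) (g.coeff.sum fun a p => algebraMap F K (p : F) * mon x a) → g ∈ M

def M_CLP2 : Prop := S_CLP → S_CLP2

/-- LOCV: the local data at one valuation, for `κ K_B`. Proof. As `S_LDT` (`κ = 1`): coordinates `C` by
the last but one hypothesis and `NAK`, `y = C.y`, `A` of `RCEN`, `dA` and `y_ord` by `LOCD`, `h` of `HEQ`,
`dlogs y0 = h • dlogs C.y`; by `BEQ` at `m' = m` `h` is an equation of `K_B` near `m`, so `h ^ κ` is an
equation of `κ K_B` near `m`, and `κ * v.ord h = v.ord (h ^ κ) = β v` by `BaseData.beta`; `u` from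
`IsLocEq`, `u_ord` by `CMN`; `σ` by `MNV`. -/
def S_LOCV : Prop := ∀ {F K : Type} [Field F] [Field K] [Algebra ℂ F] [Algebra ℂ K] [Algebra F K]
  [IsScalarTower ℂ F K] {b e n r : ℕ} (B : ProjModel F) (κ : ℕ) (y0 : Fin b → F)
  (β : DivVal (b + e) K → ℤ) (f : Fin r → LR F n) (x : Fin n → K),
  BaseData B b (b + e) K κ y0 β → n = r + e → (∀ i, f i ≠ 0) → (∀ j, x j ≠ 0) →
  (∀ i, rev x (f i) = 0) → ∀ (v : DivVal (b + e) K) (t0 : K), t0 ≠ 0 → v.ord t0 = 1 →
  ∀ (j : Fin (B.N + 1)) (M : Ideal (LR (B.ring j) n)), M.IsMaximal →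
  (M.comap (algebraMap (B.ring j) (LR (B.ring j) n))).IsMaximal →
  Through B v j (M.comap (algebraMap (B.ring j) (LR (B.ring j) n))) →
  (∀ G : LR (B.ring j) n, v.Ge 1 (nval x v t0 G) → G ∈ M) →
  ∀ g : Fin r → LR (B.ring j) n,
  IsLocEq B f j (M.comap (algebraMap (B.ring j) (LR (B.ring j) n))) g →
  (∃ y : Fin b → B.ring j, M.comap (algebraMap (B.ring j) (LR (B.ring j) n)) =
    Ideal.span (Set.range y) ⊔ M.comap (algebraMap (B.ring j) (LR (B.ring j) n)) ^ 2) →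
  ((∀ i, rinit (g i) (wt x v) ∈ M) →
    ∀ τ : Fin r → ℂ, ∑ i, τ i • rinit (g i) (wt x v) ∈ M ^ 2 → τ = 0) →
  Nonempty (Loc B e κ y0 β f x v)

def M_LOCV : Prop := S_FRCB → S_NAK → S_RCEN → S_LOCD → S_HEQ → S_BEQ → S_CMN → S_MNV → S_LOCV

end

end RMM
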