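import Pool.Agent.RMM.StS

/-!
# Relative minimal models, block E5: the final class (in the language of `MldGeo`), and the adjoint
divisors if `K_B` is nef or semiample. Statements.
-/

set_option autoImplicit false

namespace RMM

open MldGeo MMCI

noncomputable section

variable {F K : Type} [Field F] [Field K] [Algebra ℂ F] [Algebra ℂ K] [Algebra F K]
  [IsScalarTower ℂ F K] {b e e' n r : ℕ}

/-- The ring of regular functions of the part of `Z` over the chart `j` of `B`. -/
def zring (B : ProjModel F) (x : Fin n → K) (j : Fin (B.N + 1)) : Subalgebra ℂ K :=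
  Algebra.adjoin ℂ (algebraMap F K '' (B.ring j : Set F) ∪ Set.range fun m : Fin n → ℤ => mon x m)

/-- Near every closed point `M` of `Z` the ideal of `Z` in `B × T` is generated by local
equations. -/
def GenR (B : ProjModel F) (f : Fin r → LR F n) (x : Fin n → K) : Prop :=
  ∀ (j : Fin (B.N + 1)) (M : Ideal (LR (B.ring j) n)), M.IsMaximal →
    (∀ h : LR (B.ring j) n, rev x h = 0 → h ∈ M) →
    ∃ g : Fin r → LR (B.ring j) n,
      IsLocEq B f j (M.comap (algebraMap (B.ring j) (LR (B.ring j) n))) g ∧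
      ∀ h : LR (B.ring j) n, rev x h = 0 →
        ∃ h' : LR (B.ring j) n, h' ∉ M ∧ h' * h ∈ Ideal.span (Set.range g)

/-- THE FINAL CLASS. `B` has terminal singularities, the system is nondegenerate at infinity, and in
`B × T` it is nondegenerate or generates the ideal of `Z` near `Z` and `Z` has terminal
singularities. -/
structure IsRel (B : ProjModel F) (b e : ℕ) (f : Fin r → LR F n) (x : Fin n → K) : Prop where
  dim_eq : n = r + e
  pos : 0 < b + e
  f_ne : ∀ i, f i ≠ 0
  ne : ∀ j, x j ≠ 0
  gen : IntermediateField.adjoin F (Set.range x) = ⊤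
  dimB : Algebra.trdeg ℂ F = (b : Cardinal)
  terminal : B.Terminal b
  dim : Algebra.trdeg ℂ K = ((b + e : ℕ) : Cardinal)
  zero : ∀ i, rev x (f i) = 0
  loc : ∀ j (m : Ideal (B.ring j)), m.IsMaximal → ∃ g, IsLocEq B f j m g
  nondeg : ∀ ν : Fin n → ℤ, ν ≠ 0 → ∀ j (m : Ideal (B.ring j)), m.IsMaximal →
    NondegT b B f ν j m
  inner : (∀ j (m : Ideal (B.ring j)), m.IsMaximal → NondegT b B f 0 j m) ∨
    (GenR B f x ∧ ∀ j, IsTerminal (b + e) (zring B x j))

/-- RSYSF: the systems of the final class satisfy the abstract conditions. -/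
def S_RSYSF : Prop := ∀ {F K : Type} [Field F] [Field K] [Algebra ℂ F] [Algebra ℂ K] [Algebra F K]
  [IsScalarTower ℂ F K] {b e n r : ℕ} (B : ProjModel F) (f : Fin r → LR F n) (x : Fin n → K),
  IsRel B b e f x → ∃ (κ : ℕ) (y0 : Fin b → F) (β : DivVal (b + e) K → ℤ),
    BaseData B b (b + e) K κ y0 β ∧ RSys B e κ y0 β f x

/-- ADJN: if `K_B` is nef then `K_B + ∑_{i ∈ I} L_i` is nef. Proof. Let `H : EqnsD γ ω (adj C I) k h g u`,
`C i = coefs (f i)`. (If `DivVal 1 γ.L` is empty everything is trivial; otherwise fix `w0`.) For every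
`w` let `(j_w, m_w)` be the chart and the point of `H.eqn w` and `c_w^i ∈ C i` the generator of `Bpf` at
`m_w`; so `v.ord c_w^i = cmin v (C i)` for all prime divisors `v` with centre `≤ m_w` (`C i` is finite,
`c' / c_w^i` is in the local ring at `m_w`). So `g1 w = g w * ∏_{i ∈ I} (c_w^i)^k` is an equation of
`k K_B` at `m_w`. Let `h1 = h * ∏_{i ∈ I} (c_{w0}^i)^k`. `c_{w0}^i / c_w^i` is in the local ring at
`m_w`, and `c_w^i / c_{w0}^i` in the local ring at `m_{w0}`, so both restrict to the curve (`MapsTo`: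
for `a ∈ B.ring j_w` there is a restriction `u`, and `a ∉ m_w` has a restriction `≠ 0`), the product of
the restrictions is `1`, and the restriction `ρ_w^i` of `c_{w0}^i / c_w^i` has `w.ord ρ_w^i ≥ 0`
(`MapsTo`). With `u1 w = u w * ∏_{i ∈ I} (ρ_w^i)^(-k)` we have `γ.Equations ω k h1 g1 u1`, so
by `B.Nef b` `∑ w.ord (u1 w) ≥ 0`, finite support. `w.ord (u w) = w.ord (u1 w) + k ∑ w.ord (ρ_w^i)`, and
for the finiteness: the `ρ_w^i` are in a finite set of functions `≠ 0` (`C i` is finite, restrictions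
are unique) and `{w | w.ord a ≠ 0}` is finite for `a ≠ 0` in `γ.L` (see the files of `MMCI` on curves).
`finsum` of nonnegative terms, `finsum_add_distrib`. -/
def S_ADJN : Prop := ∀ {F : Type} [Field F] [Algebra ℂ F] {b n r : ℕ} (B : ProjModel F)
  (f : Fin r → LR F n), (∀ i, Bpf B (coefs (f i))) → B.Nef b →
  ∀ I : Finset (Fin r), NefD B (adj (b := b) (fun i => coefs (f i)) I)

/-- ADJS: if `K_B` is semiample then `K_B + ∑_{i ∈ I} L_i` is semiample. Proof. If the `h l` are sections
of `k K_B` as in `Semiample`, take the sections `h l * ∏_{i ∈ I} (f i).coeff (a i) ^ k`,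
`a i ∈ (f i).coeff.support` (index set `Fin N × ∀ i, (f i).coeff.support`, `Fintype.equivFin`):
`v.ord (c) ≥ cmin v (coefs (f i))` for `c ∈ coefs (f i)` (finite set), and equality at all `v` with centre
`≤ m` for the `c` of `Bpf` at `m`. -/
def S_ADJS : Prop := ∀ {F : Type} [Field F] [Algebra ℂ F] {b n r : ℕ} (B : ProjModel F)
  (f : Fin r → LR F n), (∀ i, f i ≠ 0) → (∀ i, Bpf B (coefs (f i))) → B.Semiample b →
  ∀ I : Finset (Fin r), SemD B (adj (b := b) (fun i => coefs (f i)) I)

end

end RMM
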