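import Pool.Agent.RMM.St
import Pool.Agent.MMCI.StR

/-!
# Relative minimal models: the blocks RED and MAIN (architect helper92). Statements.

`S_RRED`, `S_RMAIN`, `S_RFAA` of `St.lean` from the statements below. Everything is an adaptation of the
proved files `Pool/Agent/MMCI/R_....lean` (coefficients in `F` instead of `ℂ`); the statements
`S_INK`, `S_CMB`, `S_UNI`, `S_TEX`, `S_FTH`, `S_LAT`, `S_ND1`, `S_ND2`, `S_SEL`, `S_MON`, `S_DTC` of
`MMCI` are all proved there and may be used as hypotheses.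
In the proofs: `χ^m = mon x m`, `D` is the universal differential of `K` over `ℂ`,
`W ⊆ Ω` is the `K`-span of the `D a`, `a ∈ F`.
-/

set_option autoImplicit false

namespace RMM

open MldGeo MMCI

noncomputable section

/-! ### definitions -/

section Defs

variable {F K : Type} [Field F] [Field K] [Algebra ℂ F] [Algebra ℂ K] [Algebra F K]
  [IsScalarTower ℂ F K] {n n' : ℕ}

/-- The derivative of `f` along the one-parameter subgroup `ν`. -/
def rder (x : Fin n → K) (f : LR F n) (ν : Fin n → ℤ) : K := ∑ k, (ν k : K) * rgrad x f k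

/-- The field generated by `F` and the monomials with the exponents in `M`. -/
def Em (F : Type) {K : Type} [Field F] [Field K] [Algebra ℂ F] [Algebra ℂ K] [Algebra F K] {n : ℕ}
    (x : Fin n → K) (M : Set (Fin n → ℤ)) : IntermediateField ℂ K :=
  IntermediateField.adjoin ℂ (Set.range (algebraMap F K) ∪ {z | ∃ m ∈ M, z = mon x m})

/-- `f'` is `f` in the variables `χ^{m_k}`, up to the factor `χ^{p0}`. -/
structure IsCh (m : Fin n' → (Fin n → ℤ)) (p0 : Fin n → ℤ) (f : LR F n) (f' : LR F n') : Prop where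
  coeff : ∀ a, f'.coeff a = f.coeff (p0 + ∑ k, a k • m k)
  supp : ∀ p ∈ f.coeff.support, ∃ a : Fin n' → ℤ, p = p0 + ∑ k, a k • m k

/-- The differentials of the fraction field of the base, in `Ω` of `K`. -/
def Wy {b : ℕ} (K : Type) [Field K] [Algebra ℂ K] [Algebra F K] (y0 : Fin b → F) :
    Submodule K (Ω[K⁄ℂ]) :=
  Submodule.span K (Set.range fun l => dlog (algebraMap F K (y0 l)))

end Defs

/-! ### supports, the model -/

/-- RSP: `supp0`. Proof. The coefficient of `supp0 f` at `m` is `1` if `m ∈ f.coeff.support` and `0`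
otherwise; `minOn` and `rmin` are the same infimum over the support. -/
def S_RSP : Prop := ∀ {F : Type} [Field F] {n : ℕ} (f : LR F n),
  (supp0 f).coeff.support = f.coeff.support ∧ (f ≠ 0 → supp0 f ≠ 0) ∧
  (∀ ν, minOn (supp0 f) ν = rmin f ν) ∧
  ∀ {r : ℕ} (g : Fin r → LR F n) (ν : Fin n → ℤ), psi (fun i => supp0 (g i)) ν = rpsi g ν

/-- RFN: the trivial fan for `n = 0`. Proof. `A = {0}`, `k = 1`, `u = 0`. There are no primitive
vectors (`pair w m` is an empty sum), so `disc`, `ray`, `nonray` are empty; `full`: the empty family. -/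
def S_RFN : Prop := ∀ {r : ℕ} (f : Fin r → Laurent 0), Nonempty (FanA f)

/-- RXG: the functions `xh` generate `K`. Proof. `s_j ≠ 0` (`ProjModel.ne`). The field `E` generated by
the `xh` contains the `x_j` and the images of the `s_j / s_0`, hence the image of `F` (`ProjModel.gen`:
`F` is generated by the `s_j / s_0`; the preimage of `E` in `F` is an intermediate field which contains
them), so as a set it is closed under multiplication by elements of `F`, and it contains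
`IntermediateField.adjoin F (range x) = ⊤` (build the intermediate field over `F` with the same
elements). -/
def S_RXG : Prop := ∀ {F K : Type} [Field F] [Field K] [Algebra ℂ F] [Algebra ℂ K] [Algebra F K]
  [IsScalarTower ℂ F K] {n : ℕ} (B : ProjModel F) (x : Fin n → K), (∀ j, x j ≠ 0) →
  IntermediateField.adjoin F (Set.range x) = ⊤ →
  (∀ j, xh B x j ≠ 0) ∧ IntermediateField.adjoin ℂ (Set.range (xh B x)) = ⊤

/-- RAH: `Ah` is full. Proof. Nonempty: `eh 0 a`. Let `a = eh j a0`. Take for `l : Fin N` (first part of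
`Fin (N + n)`) the vector `eh j' a0`, where `j'` is the `l`-th element of the indices different from `j`
(`j.succAbove l`), and for `l : Fin n` the vector `eh j (b l)`, `b` from the fullness of `A` at `a0`. The
differences are `(E_{j'} - E_j, 0)`, `E_0 = 0`, `E_{l+1} = e_l`, and `(0, b l - a0)`. The first are
independent: a relation `∑ c_l (E_{j.succAbove l} - E_j) = 0`: if `j = 0` these are the unit vectors;
if `j ≠ 0` the coefficient at the unit vector `e_{i-1}`, `i ≠ 0, j`, gives `c = 0` for the indices with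
`j.succAbove l = i`, and then the coefficient at `e_{j-1}` gives `c = 0` for the index with
`j.succAbove l = 0`. -/
def S_RAH : Prop := ∀ {n : ℕ} (N : ℕ) (A : Finset (Fin n → ℤ)), A.Nonempty →
  (∀ a ∈ A, ∃ b : Fin n → (Fin n → ℤ), (∀ l, b l ∈ A) ∧ LinearIndependent ℤ fun l => b l - a) →
  (Ah N A).Nonempty ∧ ∀ a ∈ Ah N A, ∃ b : Fin (N + n) → (Fin (N + n) → ℤ),
    (∀ l, b l ∈ Ah N A) ∧ LinearIndependent ℤ fun l => b l - a

/-- RMD: the projective model exists. Proof. `S_MOD` for `xh B x`, `Ah B.N A`, with `RXG`, `RAH`. -/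
def S_RMD : Prop := ∀ {F K : Type} [Field F] [Field K] [Algebra ℂ F] [Algebra ℂ K] [Algebra F K]
  [IsScalarTower ℂ F K] {e' n : ℕ} (B : ProjModel F) (x : Fin n → K), (∀ j, x j ≠ 0) →
  IntermediateField.adjoin F (Set.range x) = ⊤ → Algebra.trdeg ℂ K = (e' : Cardinal) → 0 < e' →
  ∀ A : Finset (Fin n → ℤ), A.Nonempty →
  (∀ a ∈ A, ∃ b : Fin n → (Fin n → ℤ), (∀ l, b l ∈ A) ∧ LinearIndependent ℤ fun l => b l - a) →
  ∃ Y : ProjModel K, IsModel e' (xh B x) (Ah B.N A) Y

def M_RMD : Prop := S_MOD → S_RXG → S_RAH → S_RMD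

/-! ### differentials over the base -/

/-- RWD: differentials of the elements of `F`. Proof. (1) `Forms b F ∋ dlogs y0 ≠ 0` implies that the
`dlog (y0 l)` are linearly independent over `F` (otherwise `ιMulti` vanishes:
`AlternatingMap.map_linearDependent`), and `Ω[F⁄ℂ]` has dimension `b` (`t_TBAS` for a transcendence basis
`Fin b → F`), so they span it: `D_F a = ∑ c_l dlog (y0 l)`. Apply the `F`-linear map
`Ω[F⁄ℂ] → Ω[K⁄ℂ]` (`KaehlerDifferential.map ℂ ℂ F K`), `D_F a ↦ D_K (algebraMap a)`.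
(2) `0 = D (rev x f) = ∑_m χ^m • D (c_m) + ∑_j rgrad x f j • dlog x_j`
(Leibniz; `D χ^m = χ^m • ∑_j m_j dlog x_j`, `S_MON`), and the first sum is in `Wy` by (1). -/
def S_RWD : Prop := ∀ {F K : Type} [Field F] [Field K] [Algebra ℂ F] [Algebra ℂ K] [Algebra F K]
  [IsScalarTower ℂ F K] {b n : ℕ} (y0 : Fin b → F), Algebra.trdeg ℂ F = (b : Cardinal) →
  (∀ l, y0 l ≠ 0) → dlogs y0 ≠ 0 →
  (∀ a : F, KaehlerDifferential.D ℂ K (algebraMap F K a) ∈ Wy K y0) ∧
  ∀ (f : LR F n) (x : Fin n → K), (∀ j, x j ≠ 0) → rev x f = 0 →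
    ∑ j, rgrad x f j • dlog (x j) ∈ Wy K y0

/-- RKER: a vector orthogonal to the gradients and to sufficiently many exponents is zero. Proof. Let
`W ⊆ Ω[K⁄ℂ]` be the span of the `D (algebraMap F K a)`; `dim W ≤ b`: with a transcendence basis
`t : Fin b → F` of `F` the `D t_l` span `Ω[F⁄ℂ]` (`t_TBAS`), hence `W` (map as in `RWD`). There is an
algebraically independent family of `b + e` elements of `range (algebraMap F K) ∪ {χ^m : m ∈ M}` (a
transcendence basis of `Em F x M` chosen among its generators, see `R_KER.exists_indep`); their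
differentials are a basis of `Ω[K⁄ℂ]` (`t_TBAS`). So `Ω / W` is spanned by the classes of the
`dlog χ^m`, `m ∈ M`, and has dimension at least `e`. Consider `Ψ : K^n → Ω / W`,
`a ↦ ∑ a_j dlog x_j`. It is surjective (the `dlog χ^m` are in its image: `Ψ (m) = dlog χ^m`), so
`dim ker Ψ ≤ n - e = r`, and the gradients are in the kernel (`D (rev x f) = 0`, see `RWD` (2)) and
independent (`RReg.rank`), so they span the kernel. For every `a : K^n` there are `m_l ∈ M` and
`β_l` with `Ψ a = Ψ (∑ β_l m_l)`, so `a - ∑ β_l m_l` is in the span of the gradients, and `y` is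
orthogonal to `a`. -/
def S_RKER : Prop := ∀ {F K : Type} [Field F] [Field K] [Algebra ℂ F] [Algebra ℂ K] [Algebra F K]
  [IsScalarTower ℂ F K] {b e n r : ℕ} (f : Fin r → LR F n) (x : Fin n → K), RReg e f x →
  Algebra.trdeg ℂ F = (b : Cardinal) → Algebra.trdeg ℂ K = ((b + e : ℕ) : Cardinal) →
  ∀ M : Set (Fin n → ℤ), Algebra.trdeg ℂ (Em F x M) = ((b + e : ℕ) : Cardinal) →
  ∀ y : Fin n → K, (∀ i, ∑ j, y j * rgrad x (f i) j = 0) → (∀ m ∈ M, ∑ j, y j * (m j : K) = 0) →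
    y = 0

/-! ### the circuit -/

/-- RWG: the weight of `f`. As `R_WGT.lean` (`S_WGT`). -/
def S_RWG : Prop := ∀ {F K : Type} [Field F] [Field K] [Algebra ℂ F] [Algebra ℂ K] [Algebra F K]
  [IsScalarTower ℂ F K] {n g : ℕ} (f : LR F n) (ν : Fin (g + 1) → (Fin n → ℤ))
  (c : Fin (g + 1) → ℕ), f ≠ 0 → (∀ j, 0 < c j) → ∑ j, (c j : ℤ) • ν j = 0 →
  ∃ w : ℕ, (w : ℤ) = - ∑ j, (c j : ℤ) * rmin f (ν j) ∧
    (∃ a : Fin (g + 1) → ℕ, w = ∑ l, a l * c l) ∧
    (∀ (x : Fin n → K) (j : Fin (g + 1)), rder x f (ν j) - (rmin f (ν j) : K) * rev x f ≠ 0 →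
        ∃ a : Fin (g + 1) → ℕ, w = ∑ l, a l * c l ∧ 0 < a j) ∧
    (w = 0 → ∀ p ∈ f.coeff.support, ∀ p' ∈ f.coeff.support, ∀ j, pair (ν j) p = pair (ν j) p')

/-- RHM: the equation as a polynomial on the one-parameter subgroups. As `R_HOM.lean` (`S_HOM`):
`P = ∑_{p ∈ supp f} monomial (β(p)) (a_p χ^p)`, `β_j(p) = pair (ν j) p - rmin f (ν j) ∈ ℕ`, where now
`a_p` is `algebraMap F K (f.coeff p)`. -/
def S_RHM : Prop := ∀ {F K : Type} [Field F] [Field K] [Algebra ℂ F] [Algebra ℂ K] [Algebra F K]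
  [IsScalarTower ℂ F K] {n g : ℕ} (f : LR F n) (x : Fin n → K) (ν : Fin (g + 1) → (Fin n → ℤ)),
  ∃ P : MvPolynomial (Fin (g + 1)) K,
  (∀ c : Fin (g + 1) → ℕ, ∑ j, (c j : ℤ) • ν j = 0 → ∀ d ∈ P.support,
    ((∑ l, d l * c l : ℕ) : ℤ) = - ∑ j, (c j : ℤ) * rmin f (ν j)) ∧
  (∀ j, MvPolynomial.eval (fun _ => 1) (MvPolynomial.pderiv j P) =
    rder x f (ν j) - (rmin f (ν j) : K) * rev x f) ∧
  ∀ {L : Type} [Field L] [Algebra K L] [Algebra F L] [IsScalarTower F K L] (h : Fin n → L)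
    (t : Fin (g + 1) → L), (∀ j, t j ≠ 0) → (∀ m, mon h m = ∏ j, t j ^ pair (ν j) m) →
    rev (fun k => algebraMap K L (x k) * h k) f =
      (∏ j, t j ^ rmin f (ν j)) * MvPolynomial.aeval t P

/-- REMB: `F` and the monomials orthogonal to the circuit generate `K`. Proof. As `R_EMB2.lean` with
`E = Em F x {m | …}`, `FTH` for `e := b + e`. Let `σ` be an embedding of `K` into `AlgebraicClosure K`
over `E`; it fixes the image of `F`. `h k = σ (x k) / x k`; `mon h m = σ (χ^m) / χ^m = 1` for `m`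
orthogonal to the `ν j`. `TEX` gives `t`. For `i : Fin g` let `P i` be the polynomial of `RHM` for
`f (ρ i)` (its image over `AlgebraicClosure K`; `Algebra F (AlgebraicClosure K)` is the composite):
`P i (t) = 0` because `σ (rev x (f (ρ i))) = 0` is the value at `x * h`, and `P i (1) = 0` (`RHM` for
`h = 1`, `t = 1`). `UNI` gives `t = 1`, so `σ (x k) = x k`, and `K` is generated over `F` by the
`x k` (`RReg.gen`), so `σ` is the identity. -/
def S_REMB : Prop := ∀ {F K : Type} [Field F] [Field K] [Algebra ℂ F] [Algebra ℂ K] [Algebra F K]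
  [IsScalarTower ℂ F K] {b e n r g : ℕ} (f : Fin r → LR F n) (x : Fin n → K)
  (ν : Fin (g + 1) → (Fin n → ℤ)) (c : Fin (g + 1) → ℕ) (j0 : Fin (g + 1)) (ρ : Fin g → Fin r),
  RReg e f x → Algebra.trdeg ℂ K = ((b + e : ℕ) : Cardinal) → (∀ j, 0 < c j) →
  ∑ j, (c j : ℤ) • ν j = 0 →
  (∀ i, - ∑ j, (c j : ℤ) * rmin (f (ρ i)) (ν j) = c (j0.succAbove i)) →
  (Matrix.of fun i j : Fin g => rder x (f (ρ i)) (ν (j0.succAbove j))).det ≠ 0 →
  Algebra.trdeg ℂ (Em F x {m | ∀ j, pair (ν j) m = 0}) = ((b + e : ℕ) : Cardinal) →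
  Em F x {m | ∀ j, pair (ν j) m = 0} = ⊤

def M_REMB : Prop := S_UNI → S_TEX → S_FTH → S_RHM → S_REMB

/-! ### change of variables -/

/-- RCHE: existence of `f'`. Proof. `f'.coeff = f.coeff.comapDomain` along the map
`a ↦ p0 + ∑ a_k m_k`, which is injective. -/
def S_RCHE : Prop := ∀ {F : Type} [Field F] {n n' : ℕ} (m : Fin n' → (Fin n → ℤ)) (f : LR F n)
  (p0 : Fin n → ℤ), LinearIndependent ℤ m →
  (∀ p ∈ f.coeff.support, ∃ a : Fin n' → ℤ, p = p0 + ∑ k, a k • m k) →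
  ∃ f' : LR F n', IsCh m p0 f f'

/-- RCHV: change of variables. Proof. The map `a ↦ p0 + ∑ a_k m_k` is a bijection of the supports (by
`supp`, `coeff` and injectivity); reindex the sums; `χ^p = χ^{p0} * ∏ (χ^{m_k})^{a_k}`. As
`R_CHV.lean`. -/
def S_RCHV : Prop := ∀ {F : Type} [Field F] [Algebra ℂ F] {n n' : ℕ} (m : Fin n' → (Fin n → ℤ))
  (f : LR F n) (p0 : Fin n → ℤ) (f' : LR F n'), LinearIndependent ℤ m → IsCh m p0 f f' →
  (f ≠ 0 → f' ≠ 0) ∧ coefs f' = coefs f ∧ (∀ u : F, IsCh m p0 (u • f) (u • f')) ∧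
  (f ≠ 0 → ∀ w, rmin f w = pair w p0 + rmin f' fun k => pair w (m k)) ∧
  ∀ {K : Type} [Field K] [Algebra ℂ K] [Algebra F K] [IsScalarTower ℂ F K] (x : Fin n → K),
    (∀ j, x j ≠ 0) →
    rev x f = mon x p0 * rev (fun k => mon x (m k)) f' ∧
    (∀ d : F → F, revd x f d = mon x p0 * revd (fun k => mon x (m k)) f' d) ∧
    ∀ j, rgrad x f j = (p0 j : K) * rev x f +
      mon x p0 * ∑ k, (m k j : K) * rgrad (fun k => mon x (m k)) f' k

/-- RGRO: the orders of the gradients. Proof. (1) The support does not change. (2) `InO B v a` implies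
`v.Ge 0 (algebraMap F K a)` (`a * q = p`, `v.ord q = 0`, `v.Ge 0 p`). The entries of `gr y d g x` are
sums of terms `algebraMap F K a * (an integer) * χ^p`, `InO B v a`, `p ∈ supp g`, of order at least
`pair (wt x v) p ≥ rmin g (wt x v)`. (3) The same, with
`v.Ge (cmin v (coefs f)) (algebraMap F K (f.coeff p))` (`cmin` is the minimum of a finite set).
(4) Sums. -/
def S_RGRO : Prop := ∀ {F K : Type} [Field F] [Field K] [Algebra ℂ F] [Algebra ℂ K] [Algebra F K]
  [IsScalarTower ℂ F K] {b e' n : ℕ} (x : Fin n → K), (∀ j, x j ≠ 0) →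
  (∀ (f : LR F n) (u : F) (ν : Fin n → ℤ), u ≠ 0 → rmin (u • f) ν = rmin f ν) ∧
  (∀ (B : ProjModel F) (v : DivVal e' K) (y : Fin b → F) (d : Fin b → Derivation ℂ F F)
    (g : LR F n), (∀ l, InO B v (y l)) →
    (∀ l p, InO B v (g.coeff p) ∧ InO B v (d l (g.coeff p))) →
    (∀ p, InO B v (g.coeff p)) → ∀ c, v.Ge (rmin g (wt x v)) (gr y d g x c)) ∧
  ∀ (f : LR F n) (v : DivVal e' K),
    (∀ j, v.Ge (cmin v (coefs f) + rmin f (wt x v)) (rgrad x f j)) ∧
    ∀ ν : Fin n → ℤ, v.Ge (cmin v (coefs f) + rmin f (wt x v)) (rder x f ν)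

/-! ### the new system -/

/-- RNL: the local data of the new system. Proof. `A`, `y`, `d`, `h` as in `L`, `u' i = u (ρ i)`. The
coefficients of `f' i` are coefficients of `f (ρ i)` (`IsCh.coeff`, `coefs f' = coefs f`). Put
`G i = gr y d ((u i)⁻¹ • f i) x`, `G' i = gr y d ((u' i)⁻¹ • f' i) x'`, `x' k = χ^{m_k}`. By `RCHV` (for
`u⁻¹ • f`, `rev = 0`) `G (ρ i) (inl l) = χ^{p i} G' i (inl l)` and
`G (ρ i) (inr j) = χ^{p i} ∑_k m_kj G' i (inr k)`. `G` is `Good v G μ`, `μ i = rmin (f i) (wt x v)`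
(`ND1`, `RGRO` (1), (2) for `g = (u i)⁻¹ • f i` with `L.u_coef`, `L.dA`, `L.det_ord`), so its rows `ρ i` are (`y = 0` in the other rows), and so is `G'` with
`μ' i = rmin (f' i) (wt x' v) = μ (ρ i) - pair (wt x v) (p i)`: if `∑ i, y i * G' i c` has order at
least `N` for all `c` then so has `∑ i, y i * χ^{-p i} * G (ρ i) c`, so `y i * χ^{-p i}` has order at
least `N - μ (ρ i)`. The lower bounds for `G'` (`RGRO` (1), (2) for `(u' i)⁻¹ • f' i`) and `ND2` give an
injective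
`s : Fin r' → Fin (b + n')` with a minor of order `∑ μ' i = rpsi f' (wt x' v)`; it is the restriction of
an equivalence `Fin r' ⊕ Fin (b + e) ≃ Fin (b + n')` (`R_NEW.exists_equiv`). See `R_NEW.lean`. -/
def S_RNL : Prop := ∀ {F K : Type} [Field F] [Field K] [Algebra ℂ F] [Algebra ℂ K] [Algebra F K]
  [IsScalarTower ℂ F K] {b e n r n' r' : ℕ} (B : ProjModel F) (κ : ℕ) (y0 : Fin b → F)
  (β : DivVal (b + e) K → ℤ) (f : Fin r → LR F n) (x : Fin n → K) (v : DivVal (b + e) K)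
  (ρ : Fin r' → Fin r) (m : Fin n' → (Fin n → ℤ)) (p : Fin r' → (Fin n → ℤ))
  (f' : Fin r' → LR F n'), RReg e f x → LinearIndependent ℤ m → n' = r' + e →
  Function.Injective ρ → (∀ i, IsCh m (p i) (f (ρ i)) (f' i)) → Nonempty (Loc B e κ y0 β f x v) →
  Nonempty (Loc B e κ y0 β f' (fun k => mon x (m k)) v)

def M_RNL : Prop := S_RCHV → S_RGRO → S_ND1 → S_ND2 → S_RNL

/-- RRG: the new system is regular. Proof. `rev x' (f' i) = 0` by `RCHV` (`χ^p ≠ 0`). `rank`: by `RCHV`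
`rgrad x (f (ρ i)) j = χ^{p i} * ∑ k, (m k j) * rgrad x' (f' i) k`; a relation between the new gradients
gives a relation between the old ones. (As in `R_NEW.lean`.) -/
def S_RRG : Prop := ∀ {F K : Type} [Field F] [Field K] [Algebra ℂ F] [Algebra ℂ K] [Algebra F K]
  [IsScalarTower ℂ F K] {e n r n' r' : ℕ} (f : Fin r → LR F n) (x : Fin n → K)
  (ρ : Fin r' → Fin r) (m : Fin n' → (Fin n → ℤ)) (p : Fin r' → (Fin n → ℤ))
  (f' : Fin r' → LR F n'), RReg e f x → LinearIndependent ℤ m → n' = r' + e →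
  Function.Injective ρ → (∀ i, IsCh m (p i) (f (ρ i)) (f' i)) →
  IntermediateField.adjoin F (Set.range fun k => mon x (m k)) = ⊤ →
  RReg e f' fun k => mon x (m k)

def M_RRG : Prop := S_RCHV → S_RRG

/-- RGPL: Plücker relations modulo the span of further vectors. Proof. From the relations
`∑ j, G i j • y j ∈ W = span (range w)` and the invertible block `G₁ = G_{σ inl}`:
`y_inl ≡ - G₁⁻¹ G₂ y_inr` modulo `W`, so `∑ j, u l j • y j ≡ ((u₂ - u₁ G₁⁻¹ G₂) y_inr)_l`. The
alternating map `ιMulti (w, ·)` does not change if an element of `W` is added to one of the last `e`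
arguments (it vanishes if that argument is in `W`: multilinearity in this argument and a repeated
argument `w_l`), so it equals `det (u₂ - u₁ G₁⁻¹ G₂) • ιMulti (w, y_inr)` (the map
`z ↦ ιMulti (Fin.append w z)` is alternating in `z : Fin e → E`; for the values on linear combinations
see `K_PLU.lean` and `R_GPL.lean`), and `det G₁ * det (u₂ - u₁ G₁⁻¹ G₂)` is the big determinant. -/
def S_RGPL : Prop := ∀ {b e n r : ℕ} {K E : Type} [Field K] [AddCommGroup E] [Module K E]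
  (w : Fin b → E) (y : Fin n → E) (G : Fin r → Fin n → K) (u : Fin e → Fin n → K),
  (∀ i, ∑ j, G i j • y j ∈ Submodule.span K (Set.range w)) → ∀ σ : Fin r ⊕ Fin e ≃ Fin n,
  (Matrix.of fun i j : Fin r => G i (σ (Sum.inl j))).det ≠ 0 →
    (Matrix.of fun i j : Fin r => G i (σ (Sum.inl j))).det •
      exteriorPower.ιMulti K (b + e) (Fin.append w fun l => ∑ j, u l j • y j) =
    (Matrix.of fun a b : Fin r ⊕ Fin e => Sum.elim G u a (σ b)).det •
      exteriorPower.ιMulti K (b + e) (Fin.append w fun l => y (σ (Sum.inr l)))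

/-- RRL: the extended relations with respect to `y0`. Proof. `RWD` (2):
`∑_j rgrad x (f i) j • dlog x_j = - ∑_l a_il • dlog y0_l`; put `Gh i = (a_i, rgrad x (f i))`. `span`: `K` is
generated over `F` by the `x_j` (`RReg.gen`), so `Ω` is spanned by the `D a`, `a ∈ F`, which are in
`Wy` (`RWD` (1)), and the `D x_j`. -/
def S_RRL : Prop := ∀ {F K : Type} [Field F] [Field K] [Algebra ℂ F] [Algebra ℂ K] [Algebra F K]
  [IsScalarTower ℂ F K] {b e n r : ℕ} (y0 : Fin b → F) (f : Fin r → LR F n) (x : Fin n → K),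
  Algebra.trdeg ℂ F = (b : Cardinal) → (∀ l, y0 l ≠ 0) → dlogs y0 ≠ 0 → RReg e f x →
  Algebra.trdeg ℂ K = ((b + e : ℕ) : Cardinal) →
  (∀ c, zz y0 x c ≠ 0) ∧ Submodule.span K (Set.range fun c => dlog (zz y0 x c)) = ⊤ ∧
  ∃ G : Fin r → Fin (b + n) → K, (∀ i, ∑ c, G i c • dlog (zz y0 x c) = 0) ∧
    ∀ i j, G i (Fin.natAdd b j) = rgrad x (f i) j

def M_RRL : Prop := S_RWD → S_RRL

/-- ROMG: the residue form exists. Proof. There is a `σ0` with `rminor f x σ0 ≠ 0` (`RReg.rank`, `SEL` for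
the transposed matrix, `R_NEW.exists_equiv`; see `K_OMG.lean`). The `b + e` vectors
`dlog (zz y0 (rest x σ0) ·)` span `Ω` (`RRL`; the relations and the invertible minor express the other
`dlog x_j` by them), so they are a basis (`dim Ω = b + e`, `t_TBAS`) and
`dlogs (zz y0 (rest x σ0)) ≠ 0`. `ω = (rminor f x σ0)⁻¹ • dlogs (…)`. For another `σ` with
`rminor ≠ 0`: `RGPL` for `σ` with `w l = dlog (y0 l)`, `y j = dlog (x j)` and the unit vectors
`u l = e_{σ0 (inr l)}`: the big determinant is `±` the minor of `σ0` (as in `K_PLU.lean`). -/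
def S_ROMG : Prop := ∀ {F K : Type} [Field F] [Field K] [Algebra ℂ F] [Algebra ℂ K] [Algebra F K]
  [IsScalarTower ℂ F K] {b e n r : ℕ} (y0 : Fin b → F) (f : Fin r → LR F n) (x : Fin n → K),
  Algebra.trdeg ℂ F = (b : Cardinal) → (∀ l, y0 l ≠ 0) → dlogs y0 ≠ 0 → RReg e f x →
  Algebra.trdeg ℂ K = ((b + e : ℕ) : Cardinal) → ∃ ω : Forms (b + e) K, IsResR e y0 f x ω

def M_ROMG : Prop := S_SEL → S_RRL → S_RGPL → S_ROMG

/-- RNF: the residue forms of the old and of the new system. Proof. Choose `σ`, `σ'` with nonzero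
minors (`rank`, `SEL`). `rminor' • ω' = ± dlogs (zz y0 (rest x' σ'))`; `RGPL` for `w l = dlog (y0 l)`
(in `K`), `y j = dlog (x j)`, `G = rgrad x (f ·)` (`RWD` (2)), `u l = m (σ' (inr l))`
(`dlog (χ^m) = ∑ m_j dlog x_j`, `S_MON`) and `DTC` with `χ i = mon x (p i)` (`RCHV`, `rev = 0`) give
`rminor σ • dlogs (zz y0 (rest x' σ')) = κ * ∏ χ i * rminor' * det B • dlogs (zz y0 (rest x σ)) =
± κ * ∏ χ i * rminor' * det B * rminor σ • ω`. So `ω' = ± κ (∏ χ i) det B • ω`. See `R_NEW2.lean`. -/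
def S_RNF : Prop := ∀ {F K : Type} [Field F] [Field K] [Algebra ℂ F] [Algebra ℂ K] [Algebra F K]
  [IsScalarTower ℂ F K] {b e n r g n' r' : ℕ} (y0 : Fin b → F) (f : Fin r → LR F n)
  (x : Fin n → K) (τ : Fin g ⊕ Fin r' ≃ Fin r) (m : Fin n' → (Fin n → ℤ))
  (ν : Fin g → (Fin n → ℤ)) (p : Fin r' → (Fin n → ℤ)) (f' : Fin r' → LR F n'),
  Algebra.trdeg ℂ F = (b : Cardinal) → (∀ l, y0 l ≠ 0) → dlogs y0 ≠ 0 → RReg e f x →
  LinearIndependent ℤ m → LinearIndependent ℤ ν → (∀ j k, pair (ν j) (m k) = 0) → n' + g = n →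
  (∀ i, IsCh m (p i) (f (τ (Sum.inr i))) (f' i)) → RReg e f' (fun k => mon x (m k)) →
  (Matrix.of fun i j : Fin g => rder x (f (τ (Sum.inl i))) (ν j)).det ≠ 0 →
  ∀ ω ω' : Forms (b + e) K, IsResR e y0 f x ω → IsResR e y0 f' (fun k => mon x (m k)) ω' →
  ∃ c : ℂ, c ≠ 0 ∧ ω' = (algebraMap ℂ K c * (∏ i, mon x (p i)) *
    (Matrix.of fun i j : Fin g => rder x (f (τ (Sum.inl i))) (ν j)).det) • ω

def M_RNF : Prop := S_SEL → S_MON → S_RWD → S_RCHV → S_RGPL → S_DTC → S_RNF

/-- RNEW: the new system. Proof. `RReg` from `RRG`; `bpf`: `coefs (f' i) = coefs (f (ρ i))`. `nd`: in the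
first case `RNL`. In the second case `¬ BIG B x' v` (a family for `x'` gives one for `x`:
`q = ∑_k q'_k m_k`, `mon x' q' = mon x q`, `pair (wt x v) q = pair (wt x' v) q'`). Let
`IsResR e y0 f' x' ω'`, and let `ω` be the form of `ROMG`. `RNF`:
`ω' = (c ∏ χ^{p i} det B) • ω`, so `v.logOrd ω' = v.logOrd ω + ∑ i, pair (wt x v) (p i) +
v.ord (det B)` (`cFSM`, see `R_NEW2.lean`; `v.ord` of a nonzero constant is `0`), and
`v.ord (det B) ≥ ∑_{i : Fin g} (cmin v (coefs f_(τ inl i)) + rmin f_(τ inl i) (wt x v))` (`RGRO` (4), the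
determinant is a sum of products). With `bo' = bo + κ ∑_{i : Fin g} cmin` and
`rpsi f' (wt x' v) = ∑_{i : Fin r'} (rmin f_(τ inr i) (wt x v) - pair (wt x v) (p i))` (`RCHV`):
`κ logOrd ω' - bo' ≥ κ logOrd ω - bo + κ ∑ pair (wt x v) (p i) + κ ∑_{inl} rmin ≥
κ + 1 - κ rpsi f' (wt x' v)`. -/
def S_RNEW : Prop := ∀ {F K : Type} [Field F] [Field K] [Algebra ℂ F] [Algebra ℂ K] [Algebra F K]
  [IsScalarTower ℂ F K] {b e n r g n' r' : ℕ} (B : ProjModel F) (κ : ℕ) (y0 : Fin b → F)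
  (β : DivVal (b + e) K → ℤ) (f : Fin r → LR F n) (x : Fin n → K)
  (τ : Fin g ⊕ Fin r' ≃ Fin r) (m : Fin n' → (Fin n → ℤ)) (ν : Fin g → (Fin n → ℤ))
  (p : Fin r' → (Fin n → ℤ)), 0 < b + e → Algebra.trdeg ℂ K = ((b + e : ℕ) : Cardinal) →
  BaseData B b (b + e) K κ y0 β → RSys B e κ y0 β f x → LinearIndependent ℤ m →
  LinearIndependent ℤ ν → (∀ j k, pair (ν j) (m k) = 0) → n' + g = n → n' = r' + e →
  IntermediateField.adjoin F (Set.range fun k => mon x (m k)) = ⊤ →
  (∀ i, ∀ q ∈ (f (τ (Sum.inr i))).coeff.support, ∃ a : Fin n' → ℤ, q = p i + ∑ k, a k • m k) →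
  (Matrix.of fun i j : Fin g => rder x (f (τ (Sum.inl i))) (ν j)).det ≠ 0 →
  ∃ f' : Fin r' → LR F n', (RSys B e κ y0 β f' fun k => mon x (m k)) ∧
    ∀ i, coefs (f' i) = coefs (f (τ (Sum.inr i)))

def M_RNEW : Prop := S_RCHE → S_RCHV → S_RGRO → S_RRG → S_RNL → S_ROMG → S_RNF → S_RNEW

/-! ### assembly -/

/-- RRED. As `R_TRED.lean`: `minOn (supp0 (f i)) = rmin (f i)` (`RSP`), `RKER`, `CMB`, `RWG`, `REMB`,
`LAT`, `RNEW`; `M = {D.b a - D.b a'}`, `Fb x D.A D.b = Em F x M`. From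
`Em F x {m | ∀ j, pair (ν j) m = 0} = ⊤` and the lattice basis `m k`:
`IntermediateField.adjoin F (range fun k => χ^{m k}) = ⊤` (it contains the generators of `Em`). -/
def M_RRED : Prop := S_RSP → S_RKER → S_INK → S_CMB → S_RWG → S_REMB → S_LAT → S_RNEW → S_RRED

/-- RMAIN. As `K_TMAIN.lean`, strong induction on `n` (for all `r`, `f`, `x` at the same time, `F`, `K`,
`B`, `b`, `e` fixed). `n = 0`: `FanA` from `RFN`; otherwise `S_FAN` for `supp0 (f i)` (`RSP`). `RLOG`
gives `ω`. `FanA`: `RMD`, `RTER`, `RNEF` for `I = univ`, `RSEM`. `FanB`: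
`trdeg (Fb x D.A D.b) ≤ b + e`; if `<` then `RMD`, `RTER`, `RFIB`; if `=` then `RRED` and the induction
hypothesis: `adj (coefs f') I' = adj (coefs f) (I'.map ρ)` since `coefs (f' i) = coefs (f (ρ i))`
(`Finset.sum_map`), so the hypotheses and `SemD` are inherited. -/
def M_RMAIN : Prop := S_FAN → S_RFN → S_RSP → S_RLOG → S_RMD → S_RTER → S_RSEM → S_RNEF →
  S_RFIB → S_RRED → S_RMAIN

/-- RFAA. `n = 0`: `FanA` from `RFN`; otherwise `S_FAA` for `supp0 (f i)`
(`¬ FineEmpty` gives a point of `FineInterior`: the definitions differ only by casts and `psi`).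
Then `RLOG`, `RMD`, `RTER`, `RNEF`, `RSEM` as in `RMAIN`. -/
def M_RFAA : Prop := S_FAA → S_RFN → S_RSP → S_RLOG → S_RMD → S_RTER → S_RSEM → S_RNEF → S_RFAA

end

end RMM
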