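import Pool.Agent.RMM.StS
import Pool.Agent.RMM.StE4

/-!
# Relative minimal models, stage R3: the remaining statements for a base with terminal singularities
-/

set_option autoImplicit false

namespace RMM

open MldGeo MMCI

noncomputable section

/-- FUM: a minor of the gradients in the directions of the torus. Proof. `w = wt x v`,
`h_i = rinit (g i) w`, `μ_i = rmin (g i) w = rmin (f i) w` (the exponents of `g i` and `f i` are the
same: `f_i = u_i g_i`). `LR (B.ring j) n / M = ℂ` (Nullstellensatz, as in `TAY` (1): `B.ring j` is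
finitely generated, `S_FRCB`). So the hypothesis says that the rows `(xder k h_i mod M)_k` are linearly
independent over `ℂ`, and some minor with the columns `g0 : Fin r → Fin n` (injective,
`MIN.exists_minor`) is not in `M`: `δ = det (xder (g0 k) h_i) ∉ M`. The map `G ↦ nval x v t0 G` is a
ring homomorphism to `v.OV` (the exponent `a` and the element `mon x a * t0^(-pair w a)`, which has
the order zero, as in `CLP`), so `¬ v.Ge 1 (nval x v t0 δ)`, and `nval x v t0 δ` is the determinant of
the `nval x v t0 (xder (g0 k) h_i) = t0^(-μ_i) * (the part of weight μ_i of rgrad x (g i) (g0 k))`.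
The difference to `t0^(-μ_i) * rgrad x (g i) (g0 k)` has order `≥ 1` (all other exponents of `g i` have
weight `≥ μ_i + 1`), so the determinant of the latter has the order zero, too (it is a unit of the
valuation ring, because it is one modulo the maximal ideal), and the minor of the `rgrad x (g i)` has
the order `∑ μ_i = rpsi f w`. Here `rgrad x (g i)` is to be understood with the coefficients in `F`;
`rgrad x (f i) k = u_i * rgrad x (g i) k`, `v.ord u_i = cmin v (coefs (f i))` by `CMN`. Extend `g0` to
`σ : Fin r ⊕ Fin e ≃ Fin n` (`MIN.exists_equiv`). (`t0^k` has the order `k`.) -/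
def S_FUM : Prop := ∀ {F K : Type} [Field F] [Field K] [Algebra ℂ F] [Algebra ℂ K] [Algebra F K]
  [IsScalarTower ℂ F K] {e e' n r : ℕ} (B : ProjModel F) (f : Fin r → LR F n) (x : Fin n → K),
  n = r + e → (∀ i, f i ≠ 0) → (∀ j, x j ≠ 0) → ∀ (v : DivVal e' K) (t0 : K), t0 ≠ 0 →
  v.ord t0 = 1 → ∀ (j : Fin (B.N + 1)) (M : Ideal (LR (B.ring j) n)), M.IsMaximal →
  Through B v j (M.comap (algebraMap (B.ring j) (LR (B.ring j) n))) →
  (∀ G : LR (B.ring j) n, v.Ge 1 (nval x v t0 G) → G ∈ M) →
  ∀ g : Fin r → LR (B.ring j) n,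
  IsLocEq B f j (M.comap (algebraMap (B.ring j) (LR (B.ring j) n))) g →
  (∀ t : Fin r → ℂ, (∀ k, ∑ i, t i • xder k (rinit (g i) (wt x v)) ∈ M) → t = 0) →
  XUnit e f x v

def M_FUM : Prop := S_FRCB → S_CMN → S_FUM

/-- RRK3: the rank of the gradients. Proof. As `RRK` (`RRK.lean`): `M` is a maximal ideal of
`LR (B.ring 0) n` above the kernel of the evaluation at `x` (`G ↦ ∑ algebraMap (G_a) * mon x a`), `m` its
intersection with `B.ring 0` (maximal), `g`, `u` from `nondeg` for `ν = 0` (`rinit (g i) 0 = g i ∈ M`,
because the value of `g i` at `x` is `u_i⁻¹ * rev x (f i) = 0`). In the first case of `NondegT` the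
argument of `RRK` applies word for word (`NAK`, `TAY` with `A = ⊤`, `ρ = algebraMap F K`, `p = x`,
`REV`). In the second case the rows `(xder k (g i) mod M)_k` are independent over
`LR (B.ring 0) n / M = ℂ`, so some minor `δ` of them is not in `M` (`MIN.exists_minor`), so its value at
`x` is not zero; this value is a minor of the matrix `u_i⁻¹ * rgrad x (f i) k`. -/
def S_RRK3 : Prop := ∀ {F K : Type} [Field F] [Field K] [Algebra ℂ F] [Algebra ℂ K] [Algebra F K]
  [IsScalarTower ℂ F K] {b e n r : ℕ} (B : ProjModel F) (f : Fin r → LR F n) (x : Fin n → K),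
  IsRTB B b e f x → LinearIndependent K fun i => rgrad x (f i)

def M_RRK3 : Prop := S_FRCB → S_NAK → S_TAY → S_REV → S_RRK3

/-- RBD3: the base data for a base with terminal singularities. Proof. `y0` is a transcendence basis of
`F` (`BAS`-type lemma in `MMCI/Tools.lean`: the `D y0_l` are a basis of `Ω`, so `dlogs y0 ≠ 0`); `κ`, `S`
from `FSU` for `ω = dlogs y0`; `Terminal` contains the normality. `β v` is the order of one of the
equations at a closed point in the closure of the centre of `v` (`CHT` gives the chart; a maximal ideal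
above `{c : v.Ge 1 c}`), well defined by `BET`. See `RBD.lean`. -/
def S_RBD3 : Prop := ∀ {F K : Type} [Field F] [Field K] [Algebra ℂ F] [Algebra ℂ K]
  [Algebra F K] [IsScalarTower ℂ F K] {b e' : ℕ} (B : ProjModel F),
  Algebra.trdeg ℂ F = (b : Cardinal) → B.Terminal b →
  ∃ (κ : ℕ) (y0 : Fin b → F) (β : DivVal e' K → ℤ), BaseData B b e' K κ y0 β

def M_RBD3 : Prop := S_FRCB → S_CHT → S_BET → S_FSU → S_RBD3

/-- RSYS3 (statement in `StS.lean`), assembly. `BaseData` from `RBD3`, `RReg` with `RRK3`, `bpf` from
`nondeg` for `ν = 0` and `CMN`. `nd`: `CLP2` gives `t0`, `j`, `M`; `nondeg` for `ν = wt x v` gives `g`. As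
`rev x (f i) = 0`, the value of `rinit (g i) (wt x v)` is minus the value of the rest, which has order
`≥ rmin + 1`, so `rinit (g i) (wt x v) ∈ M` by the last property of `CLP2`. First case of `NondegT`:
`LOCV`. Second case: `XUnit` by `FUM`; `RVL`; `LTR` if `v` is trivial on `F`, `LPD` if `w0` is a prime
divisor of `B`, otherwise `RNB` and `RDQ`. -/
def M_RSYS3 : Prop := S_CMN → S_CLP2 → S_LOCV → S_FUM → S_RVL → S_LTR → S_LPD → S_RNB → S_RDQ →
  S_RRK3 → S_RBD3 → S_RSYS3

end

end RMM
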