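import Pool.Agent.RMM.StE5
import Pool.Agent.RMM.StS2
import Pool.Agent.RMM.StC

/-!
# Relative minimal models, stage R2: `Z` with terminal singularities in `B × T`. Statements.

`Z` is covered by the affine varieties `Z_j` with the rings `zring B x j`, `j` a chart of `B`. Let `v` be
a valuation with `wt x v = 0`; it has a centre `P` on some `Z_j`. If `P.height = 1` then general closed
points `N ≥ P` of `Z_j` are smooth (`SMC`). At a smooth closed point `N` of `Z_j`, `M` the
corresponding closed point of `B × T`, `GenR` implies that `B` is smooth at the image of `M` and that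
the local equations are independent modulo `M²` (`ZCP`), so the local data exist (`LOCV`). If
`P.height ≠ 1` then `v` is not `BIG` (`HTZ`), and `IsTerminal` gives the discrepancy (`RDZ`).

Everything is done at closed points. `B.ring j`, `zring B x j` are finitely generated algebras, so the
residue fields of their maximal ideals are `ℂ`.
-/

set_option autoImplicit false

namespace RMM

open MldGeo MMCI

noncomputable section

/-! ### smooth closed points of a variety -/

/-- GSM: generic smoothness. `A` is a domain, finitely generated over `ℂ`, of transcendence degree `d`.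
Proof. Let `y : Fin d → A` be a transcendence basis (`exists_isTranscendenceBasis`) and `G` a finite set
of generators of `A`. Every `a ∈ G` is algebraic over the polynomial ring in the `y_l`; let `Q_a` be a
nonzero polynomial in `d + 1` variables `Y_l, X`, of least degree in `X`, with `Q_a(y, a) = 0`. Then
`s_a = (∂Q_a/∂X)(y, a) ≠ 0` (`∂Q_a/∂X` has smaller degree in `X`, and it is not zero because
the degree of `Q_a` in `X` is positive, the `y_l` being algebraically independent); `s = ∏ s_a`. Let `N`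
be a maximal ideal, `s ∉ N`, `π : A → ℂ` the residue map (Nullstellensatz), `z_l = y_l - π(y_l)`,
`I = span(z_l) + N²`. For every polynomial `Q` and every family `c` of elements of `A`
`Q(c) - Q(π c) - ∑_k (∂Q/∂X_k)(π c) (c_k - π c_k) ∈ N²` (`MvPolynomial.induction_on`, or a
derivation). So `Q_a(y, a) = 0 = Q_a(π)` gives `π(s_a) (a - π a) ∈ I`, and `a - π a ∈ I` as
`π(s_a) ≠ 0`. The set `{c | c - π c ∈ I}` is a subalgebra of `A` (`I ⊆ N`, `N · N ⊆ I`), it contains
the generators, so it is `A`, and `N ⊆ I`. -/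
def S_GSM : Prop := ∀ {A : Type} [CommRing A] [IsDomain A] [Algebra ℂ A] {d : ℕ},
  Algebra.FiniteType ℂ A → Algebra.trdeg ℂ A = (d : Cardinal) →
  ∃ s : A, s ≠ 0 ∧ ∀ N : Ideal A, N.IsMaximal → s ∉ N →
    ∃ z : Fin d → A, N = Ideal.span (Set.range z) ⊔ N ^ 2

/-- SMG: there is a smooth closed point. Proof. `GSM` for `A = R` (`trdeg ℂ R = trdeg ℂ K`, because `K` is
the field of fractions, see the end of `trdeg` in `MMCI/K_UMT.lean`, `UMT.main`), and there is a maximal
ideal `N` with `s ∉ N`: `R` is a Jacobson ring and a domain, so the intersection of its maximal ideals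
is zero. -/
def S_SMG : Prop := ∀ {K : Type} [Field K] [Algebra ℂ K] {e : ℕ} (R : Subalgebra ℂ K), R.FG →
  (∀ a : K, ∃ p ∈ R, ∃ q ∈ R, q ≠ 0 ∧ a * q = p) → Algebra.trdeg ℂ K = (e : Cardinal) →
  ∃ N : Ideal R, N.IsMaximal ∧ ∃ z : Fin e → R, N = Ideal.span (Set.range z) ⊔ N ^ 2

def M_SMG : Prop := S_GSM → S_SMG

/-- SMC: smooth closed points on prime divisors. Proof. `e = m + 1`. `trdeg ℂ (R ⧸ P) ≤ m`
(`UMT.trdeg_quot`), so it is a natural number `d ≤ m`; `GSM` for `A = R ⧸ P` gives `s̄ ≠ 0`, the class of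
`s0 ∉ P`. `cOLC` for the germ with the ring `R` at any maximal ideal above `P` (see `t_LCP` in
`RMM/LCP.lean` for the construction of the germ) gives for every `a` with `v.Ge 0 a` elements `p`,
`q ∉ P` of `R` with `a q = p`. So there is `t ∈ P` with `v.ord t = 1` (as in `UMT.main`). `P` is
generated by finitely many `p_i`, `v.Ge 0 (p_i / t)`, so `s_i p_i = t r_i`, `s_i ∉ P`. Let
`s = s0 ∏ s_i ∉ P`; `R` is a Jacobson ring, so `P` is the intersection of the maximal ideals above it
and there is a maximal ideal `N ≥ P` with `s ∉ N`. Its image `N / P` in `R ⧸ P` is maximal and does not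
contain `s̄`, so it is `span(z̄_l) + (N / P)²`, `z̄ : Fin d → R ⧸ P`; hence `N = span(z_l) + N² + P`.
And `P ⊆ span(t) + N²`: there is `c` with `c s_i - 1 ∈ N`, and `p_i = c t r_i - (c s_i - 1) p_i`. So
`N = span(t, z_l) + N²`, with `d + 1 ≤ e` elements; fill up with zeros. -/
def S_SMC : Prop := ∀ {K : Type} [Field K] [Algebra ℂ K] {e : ℕ} (R : Subalgebra ℂ K), 0 < e →
  R.FG → (∀ a : K, ∃ p ∈ R, ∃ q ∈ R, q ≠ 0 ∧ a * q = p) → (∀ a : K, IsIntegral R a → a ∈ R) →
  Algebra.trdeg ℂ K = (e : Cardinal) → ∀ (v : DivVal e K) (P : Ideal R), IsPrimeDivisor R v P →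
  ∃ N : Ideal R, N.IsMaximal ∧ P ≤ N ∧ ∃ z : Fin e → R, N = Ideal.span (Set.range z) ⊔ N ^ 2

def M_SMC : Prop := S_GSM → S_SMC

/-! ### cotangent spaces of `B × T` -/

/-- ZCA: from `B × T` to `B`. Proof. Let `m = M.comap _`, `π : LR R n → ℂ` the residue map of `M`
(`RRK3.exists_res` in `RMM/RRK3.lean`), `p_k = π(x_k) ≠ 0`, `ε : LR R n → R` the homomorphism of
`R`-algebras with `ε(x^a) = p^a` (`AddMonoidAlgebra.lift`, as `RRK.phi`; `p^a` as a complex number).
`π(G) = π(ε G)` for all `G` (check on `single a c`), so `ε` maps `M` to `m` and `M²` to `m²`. The maps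
`E'_k : G ↦ ∑_a π(G_a) a_k p^a` are derivations along `π`, `ℂ`-linear, zero on `M²`,
`E'_k (x_j - p_j) = δ_jk p_k`, `E'_k (a) = 0` for `a ∈ R` (see (3) of the proof of `TAY`,
`RMM/TAY.lean`). So `G ↦ (ε G, E' G)` induces a surjective `ℂ`-linear map `M / M² → m / m² × ℂ^n`
(`(a, 0)` is the image of `a`, `ε(x_k - p_k) = 0`). `M / M²` is spanned over `ℂ` by the classes of the
`w_i` (`G = ∑ c_i w_i` modulo `M²`, `c_i - π(c_i) ∈ M`), so its dimension is at most `k`, hence
`dim m / m² + n ≤ k`, and `m / m²` has a spanning family with `k - n` elements; lift them. -/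
def S_ZCA : Prop := ∀ {F : Type} [Field F] [Algebra ℂ F] {n k : ℕ} (R : Subalgebra ℂ F)
  (M : Ideal (LR R n)), R.FG → M.IsMaximal → ∀ w : Fin k → LR R n,
  M = Ideal.span (Set.range w) ⊔ M ^ 2 →
  n ≤ k ∧ ∃ y : Fin (k - n) → R, M.comap (algebraMap R (LR R n)) =
    Ideal.span (Set.range y) ⊔ M.comap (algebraMap R (LR R n)) ^ 2

/-- ZCB: smoothness from `b + n` generators of the cotangent space. Proof. Let `m = M.comap _`. `ZCA`
for `k = b + n` gives `y : Fin b → R` (`b + n - n = b`), `m = span(y) + m²`. (*) If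
`m = span(y') + m²`, `y' : Fin k' → R`, then `b ≤ k'`: otherwise fill `y'` up with zeros to
`t : Fin b → R`, `NAK` gives `C : Coord R b m` with `C.t = t`, and for an index `l` with `t_l = 0`
`C.dt l l` says `d_l 0 = 1`, a contradiction. Let `∑ τ_i w_i ∈ M²` and `τ_i0 ≠ 0`. Then `w_i0` is in
the ideal generated by the other `w_i` and `M²`, so `M = span (w_i, i ≠ i0) + M²` with `b + n - 1`
elements (`Fin.succAbove`), and by `ZCA` `n ≤ b + n - 1` and `m = span(y') + m²` with `b - 1` elements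
and `0 < b`, in contradiction to (*). -/
def S_ZCB : Prop := ∀ {F : Type} [Field F] [Algebra ℂ F] {b n : ℕ} (R : Subalgebra ℂ F)
  (M : Ideal (LR R n)), R.FG → (∀ a : F, ∃ p q : R, q ≠ 0 ∧ a * (q : F) = p) →
  Algebra.trdeg ℂ F = (b : Cardinal) → M.IsMaximal →
  (M.comap (algebraMap R (LR R n))).IsMaximal →
  (∀ a : R, ∃ c : ℂ, a - algebraMap ℂ R c ∈ M.comap (algebraMap R (LR R n))) →
  ∀ w : Fin (b + n) → LR R n, M = Ideal.span (Set.range w) ⊔ M ^ 2 →
  (∃ y : Fin b → R, M.comap (algebraMap R (LR R n)) =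
    Ideal.span (Set.range y) ⊔ M.comap (algebraMap R (LR R n)) ^ 2) ∧
  ∀ τ : Fin (b + n) → ℂ, ∑ i, τ i • w i ∈ M ^ 2 → τ = 0

def M_ZCB : Prop := S_NAK → S_ZCA → S_ZCB

/-! ### the rings `zring B x j` -/

/-- ZRG: the elements of the ring are the values `rev x h`, `h` a Laurent polynomial over `B.ring j`.
Proof. The values form the range of a homomorphism of `ℂ`-algebras (`RRK.phi` in `RMM/RRK.lean`), which
contains the generators and consists of sums of products of generators. `FG`: `B.ring j` is generated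
by the `s_j' / s_j` (`FRCB`), the monomials by the `x_k` and `x_k⁻¹` (as `Tor.fg` in
`MMCI/TorLib.lean`). Fractions: `K = F(x)`, elements of `F` are fractions of elements of `B.ring j`
(`FRCB`); the set of the fractions is a subfield (`IntermediateField` over `F`) which contains the
`x_k`. Last part: `v.Ge 0` on the generators `algebraMap c`, `mon x a`; the order of `mon x a` is
`pair (wt x v) a` (`MON.ord_mon`), and `x_k`, `x_k⁻¹` are in the ring. -/
def S_ZRG : Prop := ∀ {F K : Type} [Field F] [Field K] [Algebra ℂ F] [Algebra ℂ K] [Algebra F K]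
  [IsScalarTower ℂ F K] {n : ℕ} (B : ProjModel F) (x : Fin n → K), (∀ k, x k ≠ 0) →
  IntermediateField.adjoin F (Set.range x) = ⊤ → ∀ j : Fin (B.N + 1),
  (zring B x j).FG ∧
  (∀ a : K, ∃ p ∈ zring B x j, ∃ q ∈ zring B x j, q ≠ 0 ∧ a * q = p) ∧
  (∀ a : K, a ∈ zring B x j ↔ ∃ h : LR (B.ring j) n, rev x h = a) ∧
  ∀ {e' : ℕ} (v : DivVal e' K), (∀ a ∈ zring B x j, v.Ge 0 a) ↔ OnChart B v j ∧ wt x v = 0

def M_ZRG : Prop := S_FRCB → S_ZRG

/-- `M` is the ideal of the Laurent polynomials with the value in `N`. -/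
def IsPre {F K : Type} [Field F] [Field K] [Algebra ℂ F] [Algebra ℂ K] [Algebra F K] {n : ℕ}
    (B : ProjModel F) (x : Fin n → K) (j : Fin (B.N + 1)) (N : Ideal (zring B x j))
    (M : Ideal (LR (B.ring j) n)) : Prop :=
  ∀ h : LR (B.ring j) n, h ∈ M ↔ ∃ c ∈ N, (c : K) = rev x h

/-- ZPRE: closed points of `Z` as closed points of `B × T`. Proof. `M` is the preimage of `N` under the
surjective homomorphism `h ↦ rev x h` to `zring B x j` (`ZRG`), so it is maximal;
`RRK.comap_max`. If `P` is the centre of `v`, `P ≤ N`: `v.Ge 0` on `zring B x j`, so `ZRG` gives the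
first two claims; for `c ∈ B.ring j` with `v.Ge 1 (algebraMap c)` the element `algebraMap c` is in
`P ≤ N`. `nval x v t0 G` is the value of `G`, because `pair 0 a = 0`. -/
def S_ZPRE : Prop := ∀ {F K : Type} [Field F] [Field K] [Algebra ℂ F] [Algebra ℂ K] [Algebra F K]
  [IsScalarTower ℂ F K] {n : ℕ} (B : ProjModel F) (x : Fin n → K), (∀ k, x k ≠ 0) →
  IntermediateField.adjoin F (Set.range x) = ⊤ → ∀ (j : Fin (B.N + 1)) (N : Ideal (zring B x j)),
  N.IsMaximal → ∃ M : Ideal (LR (B.ring j) n), IsPre B x j N M ∧ M.IsMaximal ∧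
    (M.comap (algebraMap (B.ring j) (LR (B.ring j) n))).IsMaximal ∧
    (∀ h : LR (B.ring j) n, rev x h = 0 → h ∈ M) ∧
    ∀ {e' : ℕ} (v : DivVal e' K) (P : Ideal (zring B x j)), HasCentre (zring B x j) v P →
      P ≤ N → OnChart B v j ∧ wt x v = 0 ∧
      Through B v j (M.comap (algebraMap (B.ring j) (LR (B.ring j) n))) ∧
      ∀ (t0 : K) (G : LR (B.ring j) n), v.Ge 1 (nval x v t0 G) → G ∈ M

def M_ZPRE : Prop := S_FRCB → S_ZRG → S_ZPRE

/-- ZCP: smooth closed points of `Z`. Proof. Let `g` be the local equations of `GenR` at `M` (all `h`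
with `rev x h = 0` are in `M`, as `0 ∈ N`). Lift the `z_l` to `Z_l ∈ M` with `rev x Z_l = z_l` (`ZRG`,
`IsPre`). Then `M = span(Z_l, g_i) + M²`, with `(b + e) + r = b + n` elements: `g_i ∈ M` since
`g_i = u_i⁻¹ f_i` has the value `u_i⁻¹ rev x (f i) = 0`. Let `h ∈ M`; its value is
`∑ c_l z_l + ∑ a_k b_k`, `a_k, b_k ∈ N` (`Submodule.mem_sup`, `Ideal.pow_two`,
`Submodule.mul_induction_on`), lift the `c_l`, `a_k`, `b_k`: `h` is congruent modulo
`span(Z_l) + M²` to an element `h1` with the value zero. By `GenR` there is `h' ∉ M` with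
`h' h1 ∈ span(g)`; there is `c` with `c h' - 1 ∈ M`, so `h1 = c h' h1 - (c h' - 1) h1 ∈
span(g) + M²`. Apply `ZCB` to `w : Fin (b + n) → LR` (the `Z_l` and `g_i`, `finSumFinEquiv` or
`Fin.append` and `b + e + r = b + n`; residues of the ring `B.ring j` by `FRCB`), and extend `τ` by zero
at the `Z_l`. -/
def S_ZCP : Prop := ∀ {F K : Type} [Field F] [Field K] [Algebra ℂ F] [Algebra ℂ K] [Algebra F K]
  [IsScalarTower ℂ F K] {b e n r : ℕ} (B : ProjModel F) (f : Fin r → LR F n) (x : Fin n → K),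
  n = r + e → (∀ k, x k ≠ 0) → IntermediateField.adjoin F (Set.range x) = ⊤ →
  Algebra.trdeg ℂ F = (b : Cardinal) → (∀ i, rev x (f i) = 0) → GenR B f x →
  ∀ (j : Fin (B.N + 1)) (N : Ideal (zring B x j)) (M : Ideal (LR (B.ring j) n)), N.IsMaximal →
  M.IsMaximal → (M.comap (algebraMap (B.ring j) (LR (B.ring j) n))).IsMaximal →
  IsPre B x j N M → (∃ z : Fin (b + e) → zring B x j, N = Ideal.span (Set.range z) ⊔ N ^ 2) →
  ∃ g : Fin r → LR (B.ring j) n,
    IsLocEq B f j (M.comap (algebraMap (B.ring j) (LR (B.ring j) n))) g ∧ (∀ i, g i ∈ M) ∧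
    (∃ y : Fin b → B.ring j, M.comap (algebraMap (B.ring j) (LR (B.ring j) n)) =
      Ideal.span (Set.range y) ⊔ M.comap (algebraMap (B.ring j) (LR (B.ring j) n)) ^ 2) ∧
    ∀ τ : Fin r → ℂ, ∑ i, τ i • g i ∈ M ^ 2 → τ = 0

def M_ZCP : Prop := S_FRCB → S_ZRG → S_ZCB → S_ZCP

/-! ### the local data and the rank -/

/-- LTZ: the local data at the prime divisors of `Z`. Proof. `SMC` for `zring B x j` (`ZRG`) gives
`N ≥ P`; `ZPRE` gives `M`; `ZCP` gives `g`; `LOCV` with a uniformizer `t0` of `v` (`v.unif`); as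
`wt x v = 0`, `rinit (g i) 0 = g i` (`RRK.rinit_zero`). -/
def S_LTZ : Prop := ∀ {F K : Type} [Field F] [Field K] [Algebra ℂ F] [Algebra ℂ K] [Algebra F K]
  [IsScalarTower ℂ F K] {b e n r : ℕ} (B : ProjModel F) (κ : ℕ) (y0 : Fin b → F)
  (β : DivVal (b + e) K → ℤ) (f : Fin r → LR F n) (x : Fin n → K),
  BaseData B b (b + e) K κ y0 β → n = r + e → 0 < b + e → (∀ i, f i ≠ 0) → (∀ k, x k ≠ 0) →
  IntermediateField.adjoin F (Set.range x) = ⊤ →
  Algebra.trdeg ℂ K = ((b + e : ℕ) : Cardinal) → (∀ i, rev x (f i) = 0) → GenR B f x →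
  ∀ j : Fin (B.N + 1), (∀ a : K, IsIntegral (zring B x j) a → a ∈ zring B x j) →
  ∀ (v : DivVal (b + e) K) (P : Ideal (zring B x j)), IsPrimeDivisor (zring B x j) v P →
  Nonempty (Loc B e κ y0 β f x v)

def M_LTZ : Prop := S_ZRG → S_SMC → S_ZPRE → S_ZCP → S_LOCV → S_LTZ

/-- RRKZ: the rank of the gradients. Proof. `SMG` for `zring B x 0` (`ZRG`) gives a smooth closed point
`N`, `ZPRE` gives `M`, `ZCP` gives `g`; from here on the proof is that of `RRK` (`RMM/RRK.lean`, from
`obtain ⟨t, htm⟩` on, with this `M`: `hMle` says that the Laurent polynomials with the value zero are in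
`M`, `hlin` is the last claim of `ZCP`). -/
def S_RRKZ : Prop := ∀ {F K : Type} [Field F] [Field K] [Algebra ℂ F] [Algebra ℂ K] [Algebra F K]
  [IsScalarTower ℂ F K] {b e n r : ℕ} (B : ProjModel F) (f : Fin r → LR F n) (x : Fin n → K),
  n = r + e → (∀ i, f i ≠ 0) → (∀ k, x k ≠ 0) → IntermediateField.adjoin F (Set.range x) = ⊤ →
  Algebra.trdeg ℂ F = (b : Cardinal) → Algebra.trdeg ℂ K = ((b + e : ℕ) : Cardinal) →
  (∀ i, rev x (f i) = 0) → GenR B f x → LinearIndependent K fun i => rgrad x (f i)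

def M_RRKZ : Prop := S_FRCB → S_NAK → S_TAY → S_REV → S_ZRG → S_SMG → S_ZPRE → S_ZCP → S_RRKZ

/-! ### the other valuations of weight zero -/

/-- HTZ: `BIG` and the prime divisors of `Z`. Proof. `wt x v = 0` and `OnChart B v j` (`ZRG`).
`←`: `RRES` for the unit vectors `b_l : Fin n → (Fin n → ℤ)` gives `e' - 1` elements among the
`s_j' / s_j` and `x_k`, which are in `zring B x j`, with independent residues; `cHT1` for the germ with
the ring `zring B x j` at a maximal ideal above `P` (see `BHT.big_to` in `MMCI/K_BHT.lean`, and `t_LCP` in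
`RMM/LCP.lean` for the germ). `→`: as `BHT.to_big` in `MMCI/K_BHT.lean`: `cOLC` (all `a` with `v.Ge 0 a`
are fractions of the ring with denominator outside `P`), and `RES.choose` for the family of the
`s_j' / s_j` and `mon x m` (index set `Fin (B.N + 1) ⊕ (Fin n → ℤ)`), which generates `zring B x j`; so
`e' - 1` elements of this family have independent residues; take `c_l = s_j' / s_j`, `q_l = 0`, resp.
`c_l = 1`, `q_l = m`. Elements of a family with independent residues have the order zero. -/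
def S_HTZ : Prop := ∀ {F K : Type} [Field F] [Field K] [Algebra ℂ F] [Algebra ℂ K] [Algebra F K]
  [IsScalarTower ℂ F K] {e' n : ℕ} (B : ProjModel F) (x : Fin n → K), (∀ k, x k ≠ 0) →
  IntermediateField.adjoin F (Set.range x) = ⊤ → 0 < e' →
  Algebra.trdeg ℂ K = (e' : Cardinal) → ∀ j : Fin (B.N + 1),
  (∀ a : K, IsIntegral (zring B x j) a → a ∈ zring B x j) →
  ∀ (v : DivVal e' K) (P : Ideal (zring B x j)), HasCentre (zring B x j) v P →
  (P.height = 1 ↔ BIG B x v)

def M_HTZ : Prop := S_ZRG → S_RRES → S_HTZ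

/-- RDZ: the discrepancies. `C i = coefs (f i)`, `bo v = bo κ β C v`. Proof. (1) If `v'` is a prime
divisor of `Z_j` then `κ v'.logOrd ω - bo v' = κ`: `wt x v' = 0` (`ZRG`), there are local data `L` at
`v'`, `RLOG.key` (`RMM/RLOG.lean`, with `LUNI` and `LFRM`), `LE0` and `BIG` (`HTZ`) give
`κ (1 - 0)`, `rpsi f 0 = 0` (`RLOG.rpsi_zero`). So `κ v'.formOrd ω = bo v'` (`cTXT`:
`logOrd = formOrd + 1`). (2) Let `v`, `P` be as in the statement, `N ≥ P` a maximal ideal, `M` from `ZPRE`,
`mB = M.comap _`, `G` from `RBAS` at `mB`. For all prime divisors `v'` of `Z_j` with `P' ≤ N`, and for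
`v`: `Through B v' j mB`, so `v'.ord (algebraMap G) = bo v'`; by (1)
`v'.ord (algebraMap G) = κ v'.formOrd ω`. (3) `IsTerminal` gives `k`, `g0` at `N` for `ω`:
`v'.ord g0 = k v'.formOrd ω` for these `v'`, and `0 < k v.formOrd ω - v.ord g0`. So
`a = g0^κ / (algebraMap G)^k` has the order zero at all these `v'`, and by `cLOC` for `a` and `a⁻¹`
(germ with the ring `zring B x j` at `N`; as in `t_TOT`, `MMCI/K_TOT.lean`, with `TOT.nonneg_of`)
`v.ord a = 0`, that is `κ v.ord g0 = k bo v`. Hence `k (κ v.formOrd ω - bo v) =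
κ (k v.formOrd ω - v.ord g0) > 0`, `κ v.formOrd ω - bo v ≥ 1` and
`κ v.logOrd ω - bo v ≥ κ + 1`. `BIG` is false by `HTZ`. -/
def S_RDZ : Prop := ∀ {F K : Type} [Field F] [Field K] [Algebra ℂ F] [Algebra ℂ K] [Algebra F K]
  [IsScalarTower ℂ F K] {b e n r : ℕ} (B : ProjModel F) (κ : ℕ) (y0 : Fin b → F)
  (β : DivVal (b + e) K → ℤ) (f : Fin r → LR F n) (x : Fin n → K),
  BaseData B b (b + e) K κ y0 β → 0 < b + e → Algebra.trdeg ℂ K = ((b + e : ℕ) : Cardinal) →
  RReg e f x → (∀ i, Bpf B (coefs (f i))) →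
  ∀ j : Fin (B.N + 1), IsTerminal (b + e) (zring B x j) →
  (∀ (v : DivVal (b + e) K) (P : Ideal (zring B x j)), IsPrimeDivisor (zring B x j) v P →
    Nonempty (Loc B e κ y0 β f x v)) →
  ∀ (v : DivVal (b + e) K) (P : Ideal (zring B x j)), HasCentre (zring B x j) v P →
  P.height ≠ 1 → ¬ BIG B x v ∧ ∀ ω : Forms (b + e) K, IsResR e y0 f x ω →
    (κ : ℤ) + 1 - κ * rpsi f (wt x v) ≤ κ * v.logOrd ω - bo κ β (fun i => coefs (f i)) v

def M_RDZ : Prop := S_MON → S_ZRG → S_ZPRE → S_HTZ → S_LUNI → S_LE0 → S_LFRM → S_RBAS → S_RDZ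

/-! ### the abstract conditions -/

/-- LWT: the local data at the valuations of nonzero weight (only the nondegeneracy at infinity is
used). Proof. As in `t_RSYS3` (`RMM/RSYS3.lean`, the part after `refine ⟨κ, y0, β, hB, …`). -/
def S_LWT : Prop := ∀ {F K : Type} [Field F] [Field K] [Algebra ℂ F] [Algebra ℂ K] [Algebra F K]
  [IsScalarTower ℂ F K] {b e n r : ℕ} (B : ProjModel F) (κ : ℕ) (y0 : Fin b → F)
  (β : DivVal (b + e) K → ℤ) (f : Fin r → LR F n) (x : Fin n → K),
  BaseData B b (b + e) K κ y0 β → 0 < b + e → Algebra.trdeg ℂ K = ((b + e : ℕ) : Cardinal) →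
  B.Terminal b → RReg e f x → (∀ i, Bpf B (coefs (f i))) → ∀ v : DivVal (b + e) K,
  (∀ j (m : Ideal (B.ring j)), m.IsMaximal → NondegT b B f (wt x v) j m) →
  Nonempty (Loc B e κ y0 β f x v) ∨ (¬ BIG B x v ∧
    ∀ ω : Forms (b + e) K, IsResR e y0 f x ω →
      (κ : ℤ) + 1 - κ * rpsi f (wt x v) ≤ κ * v.logOrd ω - bo κ β (fun i => coefs (f i)) v)

def M_LWT : Prop := S_CLP2 → S_LOCV → S_FUM → S_RVL → S_LTR → S_LPD → S_RNB → S_RDQ → S_LWT

/-- RSYSF (statement in `StE5.lean`), assembly. In the first case of `inner` the system is `IsRTB`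
(`RSYS3`). In the second case: `BaseData` from `RBD3`, `RReg` with `RRKZ`, `bpf` from `loc` and `CMN`.
`nd`: if `wt x v ≠ 0` by `LWT`. If `wt x v = 0`: `CHT` gives a chart `j`, `v.Ge 0` on `zring B x j` (`ZRG`),
let `P` be the centre (`TOT.centre`, `TOT.hasCentre` in `MMCI/K_TOT.lean`). `P.height = 1`: `LTZ`.
Otherwise `RDZ`. -/
def M_RSYSF : Prop := S_CMN → S_CHT → S_RBD3 → S_RSYS3 → S_ZRG → S_LTZ → S_RRKZ → S_RDZ → S_LWT →
  S_RSYSF

end

end RMM
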