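import Pool.Agent.RMM.StE5
import Pool.Agent.RMM.StS2
import Pool.Agent.RMM.StC
import Pool.Agent.MMCI.K_MIN

/-!
# Relative minimal models, stage R2: `Z` with terminal singularities inside `B × T`. Statements.

The final statement is `S_RSYSF` of `StE5.lean`. Let `h : IsRel B b e f x` with the second alternative of
`inner`: the system generates the ideal of `Z` near `Z` (`GenR`) and the rings `zring B x j` are
terminal. Let `v` be a divisorial valuation with `wt x v = 0` (for the others see `RSYS3.lean`). Then `v`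
has a centre on a chart `zring B x j`, let `P` be its prime ideal. If `P` has height one then the local
ring of `Z` at `P` is regular, so `B × T` is smooth and the system is nondegenerate at a general closed
point of the centre (DMV, DKR, NKP, SMP), and `LOCV` gives the local data (LOR). Otherwise the second
alternative of `RSys.nd` holds (BHR, TOR).

`R0 = B.ring j`, `R = LR R0 n`, `S = zring B x j`, the image of `R` under `G ↦ rev x G`.
-/

set_option autoImplicit false

namespace RMM

open MldGeo MMCI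

noncomputable section

/-! ### derivations along a homomorphism to a field -/

/-- `δ` is a derivation along `ρ`. -/
def IsDer {R κ : Type} [CommRing R] [Algebra ℂ R] [Field κ] [Algebra ℂ κ] (ρ : R →ₐ[ℂ] κ)
    (δ : R →ₗ[ℂ] κ) : Prop :=
  ∀ a c, δ (a * c) = ρ a * δ c + ρ c * δ a

/-- The derivative of `G` at the point `(ρ, p)` in the direction `(δ, a)`. -/
def pdv {R κ : Type} [CommRing R] [Algebra ℂ R] [Field κ] [Algebra ℂ κ] {n : ℕ} (ρ : R →ₐ[ℂ] κ)
    (p : Fin n → κ) (δ : R →ₗ[ℂ] κ) (a : Fin n → κ) (G : LR R n) : κ :=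
  G.coeff.sum fun m c => (δ c + ρ c * ∑ j, a j * (m j : κ)) * mon p m

/-- The point of the torus: the images of the coordinates. -/
def ptt {R κ : Type} [CommRing R] [Algebra ℂ R] [Field κ] [Algebra ℂ κ] {n : ℕ}
    (π : LR R n →ₐ[ℂ] κ) (j : Fin n) : κ :=
  π (AddMonoidAlgebra.single (Pi.single j 1) 1)

/-- The restriction to the coefficients. -/
def res0 {R κ : Type} [CommRing R] [Algebra ℂ R] [Field κ] [Algebra ℂ κ] {n : ℕ}
    (π : LR R n →ₐ[ℂ] κ) : R →ₐ[ℂ] κ := π.comp (IsScalarTower.toAlgHom ℂ R (LR R n))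

section

variable {F K : Type} [Field F] [Field K] [Algebra ℂ F] [Algebra ℂ K] [Algebra F K]
  [IsScalarTower ℂ F K] {b e e' n r N : ℕ}

/-- The space of the derivations of `S` along `π` has dimension at most `N`. -/
def DimLe {R : Subalgebra ℂ F} {κ : Type} [Field κ] [Algebra ℂ κ] (x : Fin n → K)
    (π : LR R n →ₐ[ℂ] κ) (N : ℕ) : Prop :=
  ∀ D : Fin (N + 1) → (LR R n →ₗ[ℂ] κ), (∀ i, IsDer π (D i)) →
    (∀ i h, rev x h = 0 → D i h = 0) → ¬ LinearIndependent κ D

/-- The matrix of the differentials of the `g i` with respect to the directions `δ l` and the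
directions of the torus. -/
def lam {R : Subalgebra ℂ F} {κ : Type} [Field κ] [Algebra ℂ κ] {q : ℕ} (π : LR R n →ₐ[ℂ] κ)
    (δ : Fin q → (R →ₗ[ℂ] κ)) (g : Fin r → LR R n) : Matrix (Fin r) (Fin (q + n)) κ :=
  Matrix.of fun i => Fin.append (fun l => pdv (res0 π) (ptt π) (δ l) 0 (g i))
    fun k => pdv (res0 π) (ptt π) 0 (Pi.single k 1) (g i)

end

/-- DMV: the dimension of the space of derivations at a prime divisor. `π` is the residue of `rev x G`
at `v`. Proof. Let `κ = κ(v)`, of transcendence degree `b + e - 1` (`v.res` and `K_UMT.lean`,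
`UMT.trdeg_quot`). A derivation `D` of `R` along `π` which vanishes on the kernel of `rev x` is a
derivation of `S = zring B x j` along the residue map (`UMT.factor`; `S` is the image of `R`: it is
generated by the images of `R0` and the monomials), it extends to the local ring of `S` at `P`, that is
to `v.OV` (`cOLC`, `t_CRT`: `S` is normal, finitely generated, with the field of fractions `K`). Let `t`
be a uniformizer. Those with `D t = 0` are derivations of `κ(v)` (they vanish on the maximal ideal
`t O_v`), the space of these has dimension `b + e - 1` (`UMT.finrank_omega`); `UMT.finrank_inf`. See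
`K_UMT.lean`, where the same is done for `coordRing x`. -/
def S_DMV : Prop := ∀ {F K : Type} [Field F] [Field K] [Algebra ℂ F] [Algebra ℂ K]
  [Algebra F K] [IsScalarTower ℂ F K] {e' n : ℕ} (B : ProjModel F) (x : Fin n → K),
  0 < e' → Algebra.trdeg ℂ K = (e' : Cardinal) → (∀ j, x j ≠ 0) →
  IntermediateField.adjoin F (Set.range x) = ⊤ → ∀ j : Fin (B.N + 1),
  (∀ a : K, IsIntegral (zring B x j) a → a ∈ zring B x j) →
  ∀ (v : DivVal e' K) (P : Ideal (zring B x j)), IsPrimeDivisor (zring B x j) v P →
  letI := MIN.alg v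
  ∀ π : LR (B.ring j) n →ₐ[ℂ] IsLocalRing.ResidueField v.OV,
    (∀ (G : LR (B.ring j) n) (h : v.Ge 0 (rev x G)),
      π G = IsLocalRing.residue v.OV ⟨rev x G, h⟩) → DimLe x π e'

/-- DMG: the dimension at the generic point. Proof. A derivation of `R` along `rev x` which vanishes on
the kernel of `rev x` is a derivation of `S` with values in `K`, so one of `K` (`UMT.ext_der`; `K` is the
field of fractions of `S`), and the dimension of `Ω[K⁄ℂ]` is `e'` (`UMT.finrank_omega`). -/
def S_DMG : Prop := ∀ {F K : Type} [Field F] [Field K] [Algebra ℂ F] [Algebra ℂ K]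
  [Algebra F K] [IsScalarTower ℂ F K] {e' n : ℕ} (B : ProjModel F) (x : Fin n → K),
  Algebra.trdeg ℂ K = (e' : Cardinal) → (∀ j, x j ≠ 0) →
  IntermediateField.adjoin F (Set.range x) = ⊤ → ∀ j : Fin (B.N + 1),
  ∀ π : LR (B.ring j) n →ₐ[ℂ] K, (∀ G, π G = rev x G) → DimLe x π e'

/-- DKR: the rank inequality. Proof. Let `c : Fin (q + n) → κ` be in the kernel of the matrix
`lam π δ g`, `c = (c', a)`. `D_c G = pdv ρ p (∑ c'_l δ_l) a G` is a derivation of `R` along `π`
(`π (single m c) = ρ c * mon p m`), linear in `c`, and it vanishes on the `g i`. It vanishes on every `G`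
with `rev x G = 0`: `h' * G = ∑ a_i g_i` with `h' ∉ M`, so `π h' ≠ 0`, and as `π G = 0`, `π (g i) = 0`
(`rev x (g i) = u_i⁻¹ rev x (f i) = 0`) we get `π h' * D_c G = ∑ π (a_i) * D_c (g i) = 0`. `D_c = 0`
implies `∑ c'_l δ_l = 0` (on the constants) and `a = 0` (on the `x_k`), so `c = 0`. So the kernel has
dimension at most `N`, and its dimension is `q + n - rank`. -/
def S_DKR : Prop := ∀ {F K : Type} [Field F] [Field K] [Algebra ℂ F] [Algebra ℂ K]
  [Algebra F K] [IsScalarTower ℂ F K] {n r N q : ℕ} {κ : Type} [Field κ] [Algebra ℂ κ]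
  (R : Subalgebra ℂ F) (x : Fin n → K) (π : LR R n →ₐ[ℂ] κ), (∀ j, x j ≠ 0) →
  (∀ G, rev x G = 0 → π G = 0) → DimLe x π N → ∀ (M : Ideal (LR R n)),
  (∀ G, π G = 0 → G ∈ M) → ∀ g : Fin r → LR R n, (∀ i, rev x (g i) = 0) →
  (∀ h : LR R n, rev x h = 0 → ∃ h' : LR R n, h' ∉ M ∧ h' * h ∈ Ideal.span (Set.range g)) →
  ∀ δ : Fin q → (R →ₗ[ℂ] κ), (∀ l, IsDer (res0 π) (δ l)) → LinearIndependent κ δ →
    q + n ≤ N + (lam π δ g).rank

/-- Coordinates of `R` near the kernel of `ρ`. -/
structure CoordP {F : Type} [Field F] [Algebra ℂ F] (R : Subalgebra ℂ F) (b : ℕ) {κ : Type}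
    [Field κ] [Algebra ℂ κ] (ρ : R →ₐ[ℂ] κ) where
  t : Fin b → R
  s : R
  s_ne : ρ s ≠ 0
  d : Fin b → Derivation ℂ F F
  dt : ∀ l l', d l (t l' : F) = if l = l' then 1 else 0
  c : Fin b → R → R
  cd : ∀ l a, (c l a : F) = (s : F) * d l (a : F)
  rel : ∀ a : R, s • KaehlerDifferential.D ℂ R a = ∑ l, c l a • KaehlerDifferential.D ℂ R (t l)

/-- NKP: coordinates exist if the space of derivations along `ρ` has the dimension at most `b`. Proof.
`N = Ω[R⁄ℂ]` is a finite `R`-module. `κ ⊗ N` is spanned by the `1 ⊗ D a`, choose a basis of it of the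
form `1 ⊗ D (t l)`, `l : Fin c`. The dual basis, composed with `D`, gives `c` linearly independent
derivations `R → κ` along `ρ` (`δ_l (t l') = 1` if `l = l'` and `0` otherwise), so `c ≤ b`. Let `N'` be the
submodule spanned by the `D (t l)`; `κ ⊗ (N / N') = 0`, so by Nakayama's lemma for the local ring at the
kernel of `ρ` (`κ` is faithfully flat over its residue field) and because `N / N'` is finite there is `s`
with `ρ s ≠ 0` and `s N ≤ N'` (`Module.support`, `Module.mem_support_iff_of_finite`, or
`Module.mem_support_iff_nontrivial_residueField_tensorProduct`). Over `F` (the field of fractions of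
`R`) the `D (t l)` span `Ω[F⁄ℂ]`, of dimension `b` (`BAS.finrank_eq`), so `c = b` and they are a basis;
`d` is the dual basis, and `c l a` are the coefficients of `s D a ∈ N'`: their images in `F` are
`s d_l(a)`. -/
def S_NKP : Prop := ∀ {F : Type} [Field F] [Algebra ℂ F] {b : ℕ} {κ : Type} [Field κ] [Algebra ℂ κ]
  (R : Subalgebra ℂ F) (ρ : R →ₐ[ℂ] κ), R.FG → (∀ a : F, ∃ p q : R, q ≠ 0 ∧ a * (q : F) = p) →
  Algebra.trdeg ℂ F = (b : Cardinal) →
  (∀ (q : ℕ) (δ : Fin q → (R →ₗ[ℂ] κ)), (∀ l, IsDer ρ (δ l)) → LinearIndependent κ δ → q ≤ b) →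
  Nonempty (CoordP R b ρ)

/-- SMP: a general closed point. Proof. Let `C : CoordP`, `δ_l a = ρ (c l a) / ρ s` (`ρ = res0 π`): these
are derivations along `ρ` (`s d_l` is a derivation of `R`), linearly independent because
`δ_l (t l') = 1` or `0`. By the hypothesis for `q = b` the matrix `lam π δ g` has rank `r` (at most `r`
as it has `r` rows; `n = r + e`), so the minor of it with some columns `g0 : Fin r → Fin (b + n)` is not
zero (`MIN.exists_minor`). Over `LR R n` there are the derivations `E_l = ∑ single m (c l ·)` (on the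
coefficients) and `E'_k = xder k`; the minor `Δ` of the matrix `(E_l (g i), E'_k (g i))` satisfies
`π Δ ≠ 0` (it is the minor of `lam π δ g` up to powers of `ρ s`). Let `a_i` be a coefficient of `g i` with
`ρ a_i ≠ 0`. The ring `LR R n` is finitely generated over `ℂ`, so a Jacobson ring: there is a maximal
ideal `M'` above the kernel of `π` which does not contain `s * Δ * ∏ a_i`. Let `π' : LR R n → ℂ` be the
residue map, `m' = M'.comap`, `y l = t l - π' (t l)`.
(1) `m' = span y ⊔ m'^2`: otherwise there is a `ℂ`-linear form `≠ 0` on `m' / m'^2` which vanishes on the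
`y l`; composed with `a ↦ a - π' a` it is a derivation `ε : R → ℂ` along `π'` with `ε (t l) = 0`, and by
`rel` (`Derivation.liftKaehlerDifferential`) `π' s * ε a = ∑ π' (c l a) * ε (t l) = 0`, so `ε = 0`.
(2) If `∑ τ_i g_i ∈ M'^2` then `∑ τ_i π' (E (g i)) = 0` for `E = E_l`, `E'_k` (a derivation maps `M'^2` to
`M'`), and `τ = 0` because `Δ ∉ M'`. -/
def S_SMP : Prop := ∀ {F : Type} [Field F] [Algebra ℂ F] {b e n r : ℕ} {κ : Type} [Field κ]
  [Algebra ℂ κ] (R : Subalgebra ℂ F) (π : LR R n →ₐ[ℂ] κ), R.FG → n = r + e →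
  CoordP R b (res0 π) → ∀ g : Fin r → LR R n, (∀ i, ∃ a, res0 π ((g i).coeff a) ≠ 0) →
  (∀ δ : Fin b → (R →ₗ[ℂ] κ), (∀ l, IsDer (res0 π) (δ l)) → LinearIndependent κ δ →
    b + n ≤ b + e + (lam π δ g).rank) →
  ∃ M' : Ideal (LR R n), M'.IsMaximal ∧ (∀ G, π G = 0 → G ∈ M') ∧
    (M'.comap (algebraMap R (LR R n))).IsMaximal ∧
    (∀ i, ∃ a, (g i).coeff a ∉ M'.comap (algebraMap R (LR R n))) ∧
    (∃ y : Fin b → R, M'.comap (algebraMap R (LR R n)) =
      Ideal.span (Set.range y) ⊔ M'.comap (algebraMap R (LR R n)) ^ 2) ∧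
    ∀ τ : Fin r → ℂ, ∑ i, τ i • g i ∈ M' ^ 2 → τ = 0

/-- LOR: the local data at the prime divisors of `Z`. Proof. `κ` is the residue field of `v.OV`
(`MIN.alg v`), `π G` the residue of `rev x G` (`v.Ge 0` holds on `zring B x j`). Let `M` be a maximal
ideal above the kernel of `π`; `GenR` gives `g`. `rev x (g i) = u_i⁻¹ rev x (f i) = 0`. `DMV`, `DKR` and
`(lam …).rank ≤ r` give `q ≤ b` for linearly independent derivations, so `NKP` applies, and `SMP` for
`g` (a coefficient of `g i` outside `M.comap` is not in the kernel of `res0 π`) gives `M'`. Apply `LOCV`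
to `M'` and `g`: `wt x v = 0`, so `nval x v t0 G = rev x G` and `rinit (g i) 0 = g i`
(`RRK.rinit_zero`); `Through`: `OnChart` and `v.Ge 1 c` implies `π c = 0`. -/
def S_LOR : Prop := ∀ {F K : Type} [Field F] [Field K] [Algebra ℂ F] [Algebra ℂ K]
  [Algebra F K] [IsScalarTower ℂ F K] {b e n r : ℕ} (B : ProjModel F) (f : Fin r → LR F n)
  (x : Fin n → K), IsRel B b e f x → GenR B f x →
  (∀ j (a : K), IsIntegral (zring B x j) a → a ∈ zring B x j) →
  ∀ (κ : ℕ) (y0 : Fin b → F) (β : DivVal (b + e) K → ℤ), BaseData B b (b + e) K κ y0 β →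
  ∀ (v : DivVal (b + e) K) (j : Fin (B.N + 1)) (P : Ideal (zring B x j)),
    IsPrimeDivisor (zring B x j) v P → Nonempty (Loc B e κ y0 β f x v)

def M_LOR : Prop := S_FRCB → S_DMV → S_DKR → S_NKP → S_SMP → S_LOCV → S_LOR

/-- RK2: the rank of the gradients. Proof. `π = rev x` on `LR (B.ring 0) n`, `κ = K`, `M` a maximal ideal
above its kernel, `GenR` gives `g`, `u`. Let `z` be a transcendence basis of `F`, `d` the dual derivations
(`DLB` with `dlogs z ≠ 0`; `RRK.li_D`), `δ_l a = algebraMap F K (d l a)`: independent derivations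
`B.ring 0 → K` (they have different values on a multiple of `z l` in `B.ring 0`; or: a relation extends
to the field of fractions `F`, evaluate at `z l`). `DMG`, `DKR` for `q = b` give
`(lam π δ g).rank = r`: the extended gradients of the `g i` at `x` are linearly independent, so are those
of the `f i`, and the last step is that of `RRK.lean` (`RRK.kill_rank`, `REV`; the columns
`castAdd l` of `lam` are `∑ algebraMap (d l (g_a)) * mon x a`, the others `rgrad`). -/
def S_RK2 : Prop := ∀ {F K : Type} [Field F] [Field K] [Algebra ℂ F] [Algebra ℂ K]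
  [Algebra F K] [IsScalarTower ℂ F K] {b e n r : ℕ} (B : ProjModel F) (f : Fin r → LR F n)
  (x : Fin n → K), IsRel B b e f x → GenR B f x → LinearIndependent K fun i => rgrad x (f i)

def M_RK2 : Prop := S_FRCB → S_DLB → S_REV → S_DMG → S_DKR → S_RK2

/-- BHR: for valuations with a centre in `B × T` the condition `BIG` means that the centre is a prime
divisor of `Z`. Proof. As `t_BHT` (`MMCI/K_BHT.lean`). `→`: the local ring of `S = zring B x j` at `P` is
the valuation ring of `v`, so the residue field of `v`, of transcendence degree `e' - 1`, is algebraic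
over (even generated by) the residues of the images of the elements of `B.ring j` and of the monomials;
choose `e' - 1` algebraically independent ones among them; those from `B.ring j` have the order zero;
`c l` is `1` or an element of `B.ring j`, `q l` is `0` or an exponent. `←`: `RCEN`: the `c l` are
quotients of elements of `B.ring j` of order zero, so the `algebraMap (c l) * mon x (q l)` are in the
local ring at `P`, and `P` has height `≤ 1` by `cHT1` (multiply with the denominators: the residue field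
of the centre contains `e' - 1` algebraically independent elements); `P ≠ ⊥`. -/
def S_BHR : Prop := ∀ {F K : Type} [Field F] [Field K] [Algebra ℂ F] [Algebra ℂ K]
  [Algebra F K] [IsScalarTower ℂ F K] {e' n : ℕ} (B : ProjModel F) (x : Fin n → K),
  0 < e' → Algebra.trdeg ℂ K = (e' : Cardinal) → (∀ j, x j ≠ 0) →
  IntermediateField.adjoin F (Set.range x) = ⊤ → ∀ j : Fin (B.N + 1),
  (∀ a : K, IsIntegral (zring B x j) a → a ∈ zring B x j) →
  ∀ (v : DivVal e' K) (P : Ideal (zring B x j)), HasCentre (zring B x j) v P →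
    (P.height = 1 ↔ BIG B x v)

def M_BHR : Prop := S_FRCB → S_RCEN → S_BHR

/-- RL0: the order of the residue form. Proof. `RLOG.key` (`RLOG.lean`) and `LE0`, `LFRM`, `LUNI`;
`rpsi f 0 = 0`. -/
def S_RL0 : Prop := ∀ {F K : Type} [Field F] [Field K] [Algebra ℂ F] [Algebra ℂ K] [Algebra F K]
  [IsScalarTower ℂ F K] {b e n r : ℕ} (B : ProjModel F) (κ : ℕ) (y0 : Fin b → F)
  (β : DivVal (b + e) K → ℤ) (f : Fin r → LR F n) (x : Fin n → K), 0 < b + e →
  Algebra.trdeg ℂ K = ((b + e : ℕ) : Cardinal) → BaseData B b (b + e) K κ y0 β →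
  RReg e f x → ∀ ω : Forms (b + e) K, IsResR e y0 f x ω → ∀ v : DivVal (b + e) K,
  Loc B e κ y0 β f x v → wt x v = 0 → BIG B x v →
    κ * v.logOrd ω - bo κ β (fun i => coefs (f i)) v = κ

/-- TOR: the discrepancies of `Z`. Proof. Let `P` be the centre of `v` on `S = zring B x j`, `M` a maximal
ideal of `S` above `P`, `m` its intersection with `B.ring j` (maximal, Nullstellensatz). `RBAS` gives
`G ≠ 0` in `F` with `v'.ord G = bo v'` for all `v'` with `Through B v' j m`; this holds for `v`, and for
all `v'` with a centre on `S` contained in `M`. For prime divisors `v'` of `S` through `M`: `LOR`,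
`BHR`, `RL0` give `κ v'.logOrd ω - bo v' = κ`, so `κ v'.formOrd ω = v'.ord G`
(`formOrd = logOrd - 1`, `cTXT`). `IsTerminal` for `ω` gives `k`, `g` with `v'.ord g = k v'.formOrd ω` and
`0 < k v.formOrd ω - v.ord g`. So `g^κ / G^k` and its inverse have order zero at all prime divisors
through `M`, hence are in the local ring at `M` (`cLOC`, see `K_TOT.lean`), and
`κ v.ord g = k v.ord G`. So `0 < κ v.formOrd ω - bo v`, that is `κ + 1 ≤ κ v.logOrd ω - bo v`, and
`rpsi f 0 = 0`. (`wt x v = 0` because the `x j` and their inverses are in `S`.) -/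
def S_TOR : Prop := ∀ {F K : Type} [Field F] [Field K] [Algebra ℂ F] [Algebra ℂ K]
  [Algebra F K] [IsScalarTower ℂ F K] {b e n r : ℕ} (B : ProjModel F) (f : Fin r → LR F n)
  (x : Fin n → K), IsRel B b e f x → GenR B f x → (∀ i, Bpf B (coefs (f i))) →
  (∀ j, IsTerminal (b + e) (zring B x j)) →
  ∀ (κ : ℕ) (y0 : Fin b → F) (β : DivVal (b + e) K → ℤ), BaseData B b (b + e) K κ y0 β →
  RReg e f x → ∀ (v : DivVal (b + e) K) (j : Fin (B.N + 1)) (P : Ideal (zring B x j)),
  HasCentre (zring B x j) v P → P.height ≠ 1 → ∀ ω : Forms (b + e) K, IsResR e y0 f x ω →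
    (κ : ℤ) + 1 - κ * rpsi f (wt x v) ≤ κ * v.logOrd ω - bo κ β (fun i => coefs (f i)) v

def M_TOR : Prop := S_FRCB → S_RBAS → S_LOR → S_BHR → S_RL0 → S_TOR

/-- RSYSF (statement in `StE5.lean`), assembly. First case of `inner`: `RSYS3`. Second case: `BaseData`
from `RBD3`, `RReg` with `RK2`, `bpf` from `loc` and `CMN`. `nd`: if `wt x v ≠ 0` as in `RSYS3.lean`;
if `wt x v = 0` the chart `j` from `CHT` (`zring B x j` is nonnegative at `v`), the centre `P`; `LOR` if
`P.height = 1`, otherwise `BHR`, `TOR`. -/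
def M_RSYSFA : Prop := S_CHT → S_CMN → S_CLP2 → S_LOCV → S_FUM → S_RVL → S_LTR → S_LPD → S_RNB →
  S_RDQ → S_RRK3 → S_RBD3 → S_RK2 → S_LOR → S_BHR → S_TOR → S_RSYSF

end

end RMM
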