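import Pool.Agent.RMM.BHR
import Pool.Agent.RMM.FRCB
import Pool.Agent.RMM.RLOG
import Pool.Agent.MMCI.Tools

/-!
# TOR: the discrepancies of `Z`
-/

set_option autoImplicit false

namespace RMM

open MldGeo MldGeo.DivVal MMCI

noncomputable section

namespace TOR

variable {F K : Type} [Field F] [Field K] [Algebra ℂ F] [Algebra ℂ K] [Algebra F K]
  [IsScalarTower ℂ F K] {e' n : ℕ}

section Ring

variable (B : ProjModel F) (x : Fin n → K) (j : Fin (B.N + 1))

/-- The inclusion of the coefficients. -/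
def incl : B.ring j →+* zring B x j where
  toFun c := ⟨algebraMap F K c, BHR.const_mem B x j c c.2⟩
  map_one' := Subtype.ext (map_one (algebraMap F K))
  map_mul' a b := Subtype.ext (map_mul (algebraMap F K) (a : F) b)
  map_zero' := Subtype.ext (map_zero (algebraMap F K))
  map_add' a b := Subtype.ext (map_add (algebraMap F K) (a : F) b)

omit [IsScalarTower ℂ F K] in
theorem coe_incl (c : B.ring j) : ((incl B x j c : zring B x j) : K) = algebraMap F K c := rfl

/-- The intersection of a maximal ideal with the coefficients is maximal. -/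
theorem comap_max (hS : S_FRCB) (M : Ideal (zring B x j)) (hM : M.IsMaximal) :
    (M.comap (incl B x j)).IsMaximal := by
  have hfg : (zring B x j).FG := by
    rw [BHR.eq_sup]
    exact BHR.fg_sup ((hS B j).1.map _) (Tor.fg x)
  letI : Field (zring B x j ⧸ M) := Ideal.Quotient.field M
  have hsurj : Function.Surjective ((Ideal.Quotient.mk M).comp (incl B x j)) := by
    intro a
    obtain ⟨a, rfl⟩ := Ideal.Quotient.mk_surjective a
    obtain ⟨c, hc⟩ := FRCB.residue ((zring B x j).fg_iff_finiteType.1 hfg) M hM a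
    refine ⟨algebraMap ℂ (B.ring j) c, ?_⟩
    have h1 : incl B x j (algebraMap ℂ (B.ring j) c) = algebraMap ℂ (zring B x j) c := by
      apply Subtype.ext
      rw [coe_incl]
      exact (IsScalarTower.algebraMap_apply ℂ F K c).symm
    rw [RingHom.comp_apply, h1]
    exact (Ideal.Quotient.eq.2 hc).symm
  have h2 : M.comap (incl B x j) = RingHom.ker ((Ideal.Quotient.mk M).comp (incl B x j)) := by
    ext a
    rw [RingHom.mem_ker, RingHom.comp_apply, Ideal.Quotient.eq_zero_iff_mem, Ideal.mem_comap]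
  rw [h2]
  exact RingHom.ker_isMaximal_of_surjective _ hsurj

end Ring

section Val

variable {B : ProjModel F} {x : Fin n → K} {j : Fin (B.N + 1)} {v : DivVal e' K}

theorem through {P M : Ideal (zring B x j)} (hP : HasCentre (zring B x j) v P) (hPM : P ≤ M) :
    Through B v j (M.comap (incl B x j)) := by
  refine ⟨BHR.onChart hP.2.1, fun c hc => ?_⟩
  rw [Ideal.mem_comap]
  apply hPM
  rw [hP.2.2]
  rcases hc with hc | hc
  · exact Or.inl (Subtype.ext hc)
  · exact Or.inr (by rw [coe_incl]; omega)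

theorem nonneg_of {R : Subalgebra ℂ K} {P m : Ideal R} (hP : HasCentre R v P) (hPm : P ≤ m)
    {g : K} (hg : g ≠ 0) {p s : R} (hs : s ∉ m) (h : g * (s : K) = p) : 0 ≤ v.ord g := by
  have h1 : s ∉ P := fun h => hs (hPm h)
  rw [hP.2.2 s] at h1
  push Not at h1
  have h0 : (s : K) ≠ 0 := fun h => h1.1 (Subtype.ext h)
  have h2 := hP.2.1 s
  have h2' := h1.2
  have h3 := v.ord_mul g s hg h0
  rw [h] at h3
  have h4 := hP.2.1 p
  omega

end Val

end TOR

open TOR in
theorem t_TOR : M_TOR := by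
  intro hS hBAS hLOR hBHR hRL0 F K _ _ _ _ _ _ b e n r B f x hR hG hBpf hT κ y0 β hBD hreg v j P
    hcen hht ω hω
  have hn : ∀ j (a : K), IsIntegral (zring B x j) a → a ∈ zring B x j := fun j => (hT j).1
  have hw : wt x v = 0 := BHR.wt_eq hcen.2.1 hR.ne
  obtain ⟨M, hM, hPM⟩ := Ideal.exists_le_maximal P hcen.1.ne_top
  obtain ⟨S, hS'⟩ := hBAS B κ b y0 β f hBpf hBD
  obtain ⟨G, -, hG0, -, hGv⟩ := hS' j (M.comap (incl B x j)) (comap_max B x j hS M hM)
  have hG0' : algebraMap F K G ≠ 0 := by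
    rw [map_ne_zero]
    exact hG0
  obtain ⟨k, g, hk, hg, heq, hdisc⟩ := (hT j).2 ω hω.1 M hM
  have hGv' : v.ord (algebraMap F K G) = bo κ β (fun i => coefs (f i)) v :=
    hGv v (through hcen hPM)
  -- prime divisors
  have key : ∀ (v' : DivVal (b + e) K) (P' : Ideal (zring B x j)), P' ≤ M →
      IsPrimeDivisor (zring B x j) v' P' →
      (κ : ℤ) * v'.formOrd ω = v'.ord (algebraMap F K G) := by
    intro v' P' hP'M hP'
    have hc' : HasCentre (zring B x j) v' P' := ⟨hP'.1, hP'.2.2.1, hP'.2.2.2⟩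
    obtain ⟨L⟩ := hLOR B f x hR hG hn κ y0 β hBD v' j P' hP'
    have hbig : BIG B x v' :=
      (hBHR B x hR.pos hR.dim hR.ne hR.gen j (hn j) v' P' hc').1 hP'.2.1
    have h1 := hRL0 B κ y0 β f x hR.pos hR.dim hBD hreg ω hω v' L (BHR.wt_eq hc'.2.1 hR.ne) hbig
    have h2 := cTXT hR.dim v' ω hR.pos hω.1
    have h3 := hGv v' (through hc' hP'M)
    rw [h2, h3, mul_sub, mul_one]
    linarith
  have hu0 : g ^ κ / algebraMap F K G ^ k ≠ 0 := div_ne_zero (pow_ne_zero _ hg) (pow_ne_zero _ hG0')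
  have hordu : ∀ v' : DivVal (b + e) K, v'.ord (g ^ κ / algebraMap F K G ^ k) =
      κ * v'.ord g - k * v'.ord (algebraMap F K G) := by
    intro v'
    rw [div_eq_mul_inv, v'.ord_mul _ _ (pow_ne_zero _ hg) (inv_ne_zero (pow_ne_zero _ hG0')),
      ord_inv, ord_pow, ord_pow]
    ring
  have hord : ∀ (v' : DivVal (b + e) K) (P' : Ideal (zring B x j)), P' ≤ M →
      IsPrimeDivisor (zring B x j) v' P' → v'.ord (g ^ κ / algebraMap F K G ^ k) = 0 := by
    intro v' P' hP'm hP'
    rw [hordu, heq v' P' hP' hP'm, ← key v' P' hP'm hP']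
    ring
  obtain ⟨p, s, hs, h1⟩ := cLOC (BHR.germ B j hS hR.dim hR.gen (hn j) M hM)
    (g ^ κ / algebraMap F K G ^ k) fun v' P' h2 h3 => Or.inr (hord v' P' h2 h3).ge
  obtain ⟨p', s', hs', h1'⟩ := cLOC (BHR.germ B j hS hR.dim hR.gen (hn j) M hM)
    (g ^ κ / algebraMap F K G ^ k)⁻¹ fun v' P' h2 h3 => by
      right
      have h4 : v'.ord (g ^ κ / algebraMap F K G ^ k)⁻¹ = - v'.ord (g ^ κ / algebraMap F K G ^ k) :=
        ord_inv v' _
      have h5 := hord v' P' h2 h3
      show (0 : ℤ) ≤ v'.ord (g ^ κ / algebraMap F K G ^ k)⁻¹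
      omega
  have h2 : 0 ≤ v.ord (g ^ κ / algebraMap F K G ^ k) := nonneg_of hcen hPM hu0 hs h1
  have h3 : 0 ≤ v.ord (g ^ κ / algebraMap F K G ^ k)⁻¹ :=
    nonneg_of hcen hPM (inv_ne_zero hu0) hs' h1'
  rw [ord_inv] at h3
  have h4 := hdisc v P hcen hPM hht
  have h5 : (κ : ℤ) * v.ord g = k * bo κ β (fun i => coefs (f i)) v := by
    rw [← hGv']
    have h6 := hordu v
    omega
  have hk' : (0 : ℤ) < k := by exact_mod_cast hk
  have hκ' : (0 : ℤ) < κ := by exact_mod_cast hBD.κ_pos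
  have h6 : 0 < (k : ℤ) * (κ * v.formOrd ω - bo κ β (fun i => coefs (f i)) v) := by
    have h7 : (k : ℤ) * (κ * v.formOrd ω - bo κ β (fun i => coefs (f i)) v) =
        κ * (k * v.formOrd ω - v.ord g) := by
      rw [mul_sub, mul_sub, h5]
      ring
    rw [h7]
    exact mul_pos hκ' h4
  have h7 : 0 < (κ : ℤ) * v.formOrd ω - bo κ β (fun i => coefs (f i)) v :=
    (mul_pos_iff_of_pos_left hk').1 h6
  have h8 := cTXT hR.dim v ω hR.pos hω.1
  rw [h8, mul_sub, mul_one] at h7
  rw [hw, RLOG.rpsi_zero, mul_zero, sub_zero]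
  linarith

end

end RMM
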