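import Pool.Agent.RMM.StC
import Pool.Agent.MMCI.FUL

/-!
# MP_fa3f7f_ag, relative minimal models, block C: the coordinates `xh` and the exponents `eh j a`
-/

set_option autoImplicit false

namespace RMM

open MldGeo MMCI

namespace XHMaux

variable {F K : Type} [Field F] [Field K] [Algebra ℂ F] [Algebra ℂ K] [Algebra F K]
  [IsScalarTower ℂ F K] {n : ℕ}

omit [Algebra ℂ K] in
theorem mon_append {N n : ℕ} (y : Fin N → K) (x : Fin n → K) (p : Fin N → ℤ) (q : Fin n → ℤ) :
    mon (Fin.append y x) (Fin.append p q) = mon y p * mon x q := by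
  unfold mon
  rw [Fin.prod_univ_add]
  simp only [Fin.append_left, Fin.append_right]

omit [Algebra ℂ K] [IsScalarTower ℂ F K] in
theorem mon_eh (B : ProjModel F) (x : Fin n → K) (j : Fin (B.N + 1)) (a : Fin n → ℤ) :
    mon (xh B x) (eh j a) = algebraMap F K (B.s j / B.s 0) * mon x a := by
  classical
  unfold xh eh
  rw [mon_append]
  congr 1
  refine Fin.cases ?_ (fun l => ?_) j
  · simp [mon, div_self (B.ne 0)]
  · simp only [Fin.cases_succ]
    unfold mon
    rw [Finset.prod_eq_single l]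
    · simp
    · intro i _ hi
      simp [Pi.single_eq_of_ne hi]
    · intro h
      exact absurd (Finset.mem_univ l) h

omit [Algebra ℂ K] [IsScalarTower ℂ F K] in
theorem xh_ne (B : ProjModel F) {x : Fin n → K} (hx : ∀ j, x j ≠ 0) (l : Fin (B.N + n)) :
    xh B x l ≠ 0 := by
  unfold xh
  refine Fin.addCases (fun i => ?_) (fun i => ?_) l
  · rw [Fin.append_left]
    exact (map_ne_zero _).2 (div_ne_zero (B.ne _) (B.ne _))
  · rw [Fin.append_right]
    exact hx i

theorem mon_sub {x : Fin n → K} (hx : ∀ j, x j ≠ 0) (u v : Fin n → ℤ) :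
    mon x (u - v) = mon x u / mon x v := by
  have h := (FUL.mono hx).add (u - v) v
  rw [sub_add_cancel] at h
  rw [h, mul_div_cancel_right₀ _ (FUL.mon_ne hx v)]

theorem pair_sub (w u v : Fin n → ℤ) : pair w (u - v) = pair w u - pair w v := by
  unfold pair
  rw [← Finset.sum_sub_distrib]
  exact Finset.sum_congr rfl fun i _ => by rw [Pi.sub_apply]; ring

omit [IsScalarTower ℂ F K] in
theorem mon_diff (B : ProjModel F) {x : Fin n → K} (hx : ∀ j, x j ≠ 0) (j j' : Fin (B.N + 1))
    (a a' : Fin n → ℤ) : mon (xh B x) (eh j' a' - eh j a) =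
      algebraMap F K (B.s j' / B.s j) * mon x (a' - a) := by
  rw [mon_sub (xh_ne B hx), mon_eh, mon_eh, mon_sub hx]
  simp only [map_div₀]
  have h0 : algebraMap F K (B.s 0) ≠ 0 := (map_ne_zero _).2 (B.ne 0)
  have h1 : algebraMap F K (B.s j) ≠ 0 := (map_ne_zero _).2 (B.ne j)
  have h2 := FUL.mon_ne hx a
  field_simp

theorem onChart_iff (B : ProjModel F) {e' : ℕ} (v : DivVal e' K) (j : Fin (B.N + 1)) :
    OnChart B v j ↔ ∀ j', 0 ≤ v.ord (algebraMap F K (B.s j' / B.s j)) := by
  constructor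
  · intro h j'
    exact (h _ (Algebra.subset_adjoin ⟨j', rfl⟩)).le
      ((map_ne_zero _).2 (div_ne_zero (B.ne _) (B.ne _)))
  · intro h c hc
    unfold ProjModel.ring at hc
    induction hc using Algebra.adjoin_induction with
    | mem c hc =>
      obtain ⟨j', rfl⟩ := hc
      exact Or.inr (h j')
    | algebraMap r =>
      rw [← IsScalarTower.algebraMap_apply]
      exact DivVal.Ge.const v r
    | add c d _ _ hc hd =>
      rw [map_add]
      exact hc.add hd
    | mul c d _ _ hc hd =>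
      rw [map_mul]
      exact hc.mul_left hd

omit [IsScalarTower ℂ F K] in
theorem key (B : ProjModel F) {x : Fin n → K} (hx : ∀ j, x j ≠ 0) {e' : ℕ} (v : DivVal e' K)
    (j j' : Fin (B.N + 1)) (a a' : Fin n → ℤ) :
    pair (wt (xh B x) v) (eh j' a') - pair (wt (xh B x) v) (eh j a) =
      v.ord (algebraMap F K (B.s j' / B.s j)) + (pair (wt x v) a' - pair (wt x v) a) := by
  have h1 := ((t_FUL (xh B x) (xh_ne B hx)).2.2.1 v (eh j' a' - eh j a)).2
  have h2 := (t_FUL x hx).2.2.1 v (a' - a)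
  rw [mon_diff B hx, v.ord_mul _ _ ((map_ne_zero _).2 (div_ne_zero (B.ne _) (B.ne _))) h2.1, h2.2,
    pair_sub, pair_sub] at h1
  exact h1.symm

end XHMaux

open XHMaux in
theorem t_XHM : S_XHM := by
  intro F K _ _ _ _ _ _ n B x hx
  refine ⟨xh_ne B hx, fun j j' a a' => mon_diff B hx j j' a a', fun v j => onChart_iff B v j, ?_⟩
  intro e' v A j a ha
  have hm : ∀ (j' : Fin (B.N + 1)) (a' : Fin n → ℤ), a' ∈ A → eh j' a' ∈ Ah B.N A := by
    intro j' a' ha'
    unfold Ah
    rw [Finset.mem_image]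
    exact ⟨(j', a'), Finset.mem_product.2 ⟨Finset.mem_univ _, ha'⟩, rfl⟩
  constructor
  · rintro ⟨_, h⟩
    refine ⟨(onChart_iff B v j).2 fun j' => ?_, ha, fun a' ha' => ?_⟩
    · have h1 := h _ (hm j' a ha)
      have h2 := key B hx v j j' a a
      omega
    · have h1 := h _ (hm j a' ha')
      have h2 := key B hx v j j a a'
      rw [div_self (B.ne j), map_one, v.ord_one] at h2
      omega
  · rintro ⟨h1, _, h2⟩
    refine ⟨hm j a ha, fun b hb => ?_⟩
    unfold Ah at hb
    rw [Finset.mem_image] at hb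
    obtain ⟨⟨j', a'⟩, hp, rfl⟩ := hb
    have h3 := (onChart_iff B v j).1 h1 j'
    have h4 := h2 a' (Finset.mem_product.1 hp).2
    have h5 := key B hx v j j' a a'
    change pair (wt (xh B x) v) (eh j a) ≤ pair (wt (xh B x) v) (eh j' a')
    omega

end RMM
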